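import Pool.Agent.Lib_MP_4009a7_al.Moment

/-!
# Piece ACT: actions of groups of bounded derived length which satisfy a word
-/

set_option autoImplicit false

open scoped commutatorElement

namespace Pool.Agent.HForm

section act

variable {p : ℕ} {H V V' : Type} [Group H] [AddCommGroup V] [Module (ZMod p) V] [AddCommGroup V']
  [Module (ZMod p) V']

/-- the derived series of a term of the derived series -/
private theorem ac_derived (l : ℕ) : (derivedSeries (derivedSeries H 1) l).map (derivedSeries H 1).subtype ≤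
    derivedSeries H (l + 1) := by
  induction l with
  | zero =>
    rintro _ ⟨x, _, rfl⟩
    exact x.2
  | succ l ih =>
    rw [derivedSeries_succ, derivedSeries_succ, Subgroup.map_commutator]
    exact Subgroup.commutator_mono ih ih

private theorem ac_ofFn {α β : Type} (f : α → β) (L : List α) (m : ℕ) (h : L.length = m) :
    List.ofFn (fun j : Fin m => f (L.get (j.cast h.symm))) = L.map f := by
  subst h
  exact List.ofFn_getElem_eq_map L f

/-- intertwining maps and products -/
private theorem ac_tw (φ : V →ₗ[ZMod p] V') (ρ : H →* Module.End (ZMod p) V) (ρ' : H →* Module.End (ZMod p) V')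
    (hφ : ∀ h v, φ (ρ h v) = ρ' h (φ v)) (L : List H) (v : V) :
    φ ((L.map (fun x => ρ x - 1)).prod v) = (L.map (fun x => ρ' x - 1)).prod (φ v) := by
  induction L with
  | nil => rfl
  | cons x L ih =>
    rw [List.map_cons, List.map_cons, List.prod_cons, List.prod_cons, Module.End.mul_apply,
      Module.End.mul_apply, LinearMap.sub_apply, LinearMap.sub_apply, Module.End.one_apply,
      Module.End.one_apply, map_sub, hφ, ih]

/-- intertwining maps and `ev` -/
private theorem ac_ev {n : ℕ} (φ : V →ₗ[ZMod p] V') (ρ : H →* Module.End (ZMod p) V)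
    (ρ' : H →* Module.End (ZMod p) V') (hφ : ∀ h v, φ (ρ h v) = ρ' h (φ v)) (t : Fin n → H)
    (f : FreeGroup (Fin n) →₀ ℤ) (v : V) : φ (ev ρ t f v) = ev ρ' t f (φ v) := by
  unfold ev Finsupp.sum
  rw [LinearMap.sum_apply, LinearMap.sum_apply, map_sum]
  refine Finset.sum_congr rfl fun g _ => ?_
  rw [LinearMap.smul_apply, LinearMap.smul_apply, map_zsmul, hφ]

/-- the representation on a section -/
private def acQ (ρ : H →* Module.End (ZMod p) V) (B A : Submodule (ZMod p) V) (hB : Inv ρ B) (hA : Inv ρ A) :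
    H →* Module.End (ZMod p) (B ⧸ A.comap B.subtype) where
  toFun h := (A.comap B.subtype).mapQ (A.comap B.subtype) (subRep ρ B hB h) (fun x hx => hA h _ hx)
  map_one' := by
    refine Submodule.linearMap_qext _ (LinearMap.ext fun v => ?_)
    show Submodule.Quotient.mk (subRep ρ B hB 1 v) = Submodule.Quotient.mk v
    rw [map_one, Module.End.one_apply]
  map_mul' a b := by
    refine Submodule.linearMap_qext _ (LinearMap.ext fun v => ?_)
    show Submodule.Quotient.mk (subRep ρ B hB (a * b) v) =
      Submodule.Quotient.mk (subRep ρ B hB a (subRep ρ B hB b v))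
    rw [map_mul, Module.End.mul_apply]

private theorem acQ_mk (ρ : H →* Module.End (ZMod p) V) (B A : Submodule (ZMod p) V) (hB : Inv ρ B)
    (hA : Inv ρ A) (h : H) (v : B) : (A.comap B.subtype).mkQ (subRep ρ B hB h v) =
      acQ ρ B A hB hA h ((A.comap B.subtype).mkQ v) := rfl

/-- the filtration -/
private def acV (ρ : H →* Module.End (ZMod p) V) (D : Subgroup H) : ℕ → Submodule (ZMod p) V
  | 0 => ⊤
  | i + 1 => Submodule.span (ZMod p) {y | ∃ x ∈ D, ∃ v ∈ acV ρ D i, y = ρ x v - v}

private theorem ac_inv (ρ : H →* Module.End (ZMod p) V) (D : Subgroup H) [D.Normal] (i : ℕ) :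
    Inv ρ (acV ρ D i) := by
  induction i with
  | zero => exact fun _ _ _ => Submodule.mem_top
  | succ i ih =>
    intro h v hv
    refine Submodule.span_induction (p := fun v _ => ρ h v ∈ acV ρ D (i + 1)) ?_ ?_ ?_ ?_ hv
    · rintro _ ⟨x, hx, u, hu, rfl⟩
      refine Submodule.subset_span ⟨h * x * h⁻¹, Subgroup.Normal.conj_mem inferInstance x hx h, ρ h u,
        ih h u hu, ?_⟩
      rw [map_sub, ← Module.End.mul_apply, ← Module.End.mul_apply, ← map_mul, ← map_mul,
        inv_mul_cancel_right]
    · rw [map_zero]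
      exact Submodule.zero_mem _
    · intro x y _ _ hx hy
      rw [map_add]
      exact Submodule.add_mem _ hx hy
    · intro c x _ hx
      rw [map_smul]
      exact Submodule.smul_mem _ _ hx

private theorem ac_vanish (ρ : H →* Module.End (ZMod p) V) (D : Subgroup H) (M : ℕ)
    (hM : ∀ L : List H, (∀ x ∈ L, x ∈ D) → L.length = M → (L.map (fun x => ρ x - 1)).prod = 0) (i : ℕ) :
    ∀ v ∈ acV ρ D i, ∀ L : List H, (∀ x ∈ L, x ∈ D) → i + L.length = M →
      (L.map (fun x => ρ x - 1)).prod v = 0 := by
  induction i with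
  | zero =>
    intro v _ L hL hlen
    rw [hM L hL (by omega), LinearMap.zero_apply]
  | succ i ih =>
    intro v hv L hL hlen
    refine Submodule.span_induction (p := fun v _ => (L.map (fun x => ρ x - 1)).prod v = 0) ?_ ?_ ?_ ?_ hv
    · rintro _ ⟨x, hx, u, hu, rfl⟩
      have h1 := ih u hu (L ++ [x]) (fun y hy => by
        rcases List.mem_append.1 hy with h | h
        · exact hL y h
        · rw [List.mem_singleton.1 h]
          exact hx) (by rw [List.length_append, List.length_singleton]; omega)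
      rw [List.map_append, List.prod_append, Module.End.mul_apply, List.map_singleton,
        List.prod_singleton, LinearMap.sub_apply, Module.End.one_apply] at h1
      exact h1
    · exact map_zero _
    · intro x y _ _ hx hy
      rw [map_add, hx, hy, add_zero]
    · intro c x _ hx
      rw [map_smul, hx, smul_zero]

private theorem ac_step (hp : p.Prime) {n : ℕ} (w : FreeGroup (Fin n)) (i₀ : Fin n) (g₁ : FreeGroup (Fin n))
    (hne : open Classical in
      ∑ g ∈ (fox i₀ w).support.filter (fun g => Eqv (A1 p) g g₁), ((fox i₀ w g : ℤ) : ZMod p) ≠ 0)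
    (ρ : H →* Module.End (ZMod p) V) (hord : ∀ a, ∃ k : ℕ, ρ a ^ (p ^ k) = 1)
    (hw : ∀ t : Fin n → H, ev ρ t (fox i₀ w) = 0) (D : Subgroup H) [D.Normal]
    (hD : ∀ a b : H, ⁅a, b⁆ ∈ D) (i : ℕ) (L : List H) (hL : L.length = n * p) :
    ∀ v ∈ acV ρ D i, (L.map (fun x => ρ x - 1)).prod v ∈ acV ρ D (i + 1) := by
  intro v hv
  have hB := ac_inv ρ D i
  have hA := ac_inv ρ D (i + 1)
  have hsub : ∀ (h : H) (u : acV ρ D i), (acV ρ D i).subtype (subRep ρ _ hB h u) =
      ρ h ((acV ρ D i).subtype u) := fun _ _ => rfl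
  have hq := acQ_mk ρ (acV ρ D i) (acV ρ D (i + 1)) hB hA
  have hab : ∀ a b, acQ ρ _ _ hB hA (a * b) = acQ ρ _ _ hB hA (b * a) := by
    intro a b
    refine Submodule.linearMap_qext _ (LinearMap.ext fun u => ?_)
    show Submodule.Quotient.mk (subRep ρ _ hB (a * b) u) = Submodule.Quotient.mk (subRep ρ _ hB (b * a) u)
    rw [Submodule.Quotient.eq]
    show ρ (a * b) u - ρ (b * a) u ∈ acV ρ D (i + 1)
    refine Submodule.subset_span ⟨⁅a, b⁆, hD a b, ρ (b * a) u, hB _ _ u.2, ?_⟩
    rw [← Module.End.mul_apply, ← map_mul, commutatorElement_def]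
    have e : a * b * a⁻¹ * b⁻¹ * (b * a) = a * b := by group
    rw [e]
  have hord' : ∀ a, ∃ k : ℕ, acQ ρ _ _ hB hA a ^ (p ^ k) = 1 := by
    intro a
    obtain ⟨k, hk⟩ := hord a
    refine ⟨k, ?_⟩
    rw [← map_pow] at hk ⊢
    refine Submodule.linearMap_qext _ (LinearMap.ext fun u => ?_)
    show Submodule.Quotient.mk (subRep ρ _ hB (a ^ (p ^ k)) u) = Submodule.Quotient.mk u
    congr 1
    refine Subtype.ext ?_
    rw [subRep_apply, hk, Module.End.one_apply]
  have hw' : ∀ t : Fin n → H, ev (acQ ρ _ _ hB hA) t (fox i₀ w) = 0 := by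
    intro t
    refine Submodule.linearMap_qext _ (LinearMap.ext fun u => ?_)
    have h1 := ac_ev (acV ρ D i).subtype (subRep ρ _ hB) ρ hsub t (fox i₀ w) u
    rw [hw t, LinearMap.zero_apply] at h1
    have h2 : ev (subRep ρ _ hB) t (fox i₀ w) u = 0 := Subtype.ext h1
    have h3 := ac_ev (Submodule.mkQ _) (subRep ρ _ hB) (acQ ρ _ _ hB hA) hq t (fox i₀ w) u
    rw [h2, map_zero] at h3
    exact h3.symm
  have hnil := comm_nilp hp w i₀ g₁ hne (acQ ρ _ _ hB hA) hab hord' hw'
    (fun j : Fin (n * p) => L.get (j.cast hL.symm))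
  rw [ac_ofFn (fun x => acQ ρ _ _ hB hA x - 1) L (n * p) hL] at hnil
  have h4 := ac_tw (Submodule.mkQ _) (subRep ρ _ hB) (acQ ρ _ _ hB hA) hq L ⟨v, hv⟩
  rw [hnil, LinearMap.zero_apply] at h4
  have h5 := (Submodule.Quotient.mk_eq_zero _).1 h4
  have h6 := ac_tw (acV ρ D i).subtype (subRep ρ _ hB) ρ hsub L ⟨v, hv⟩
  have h7 : (acV ρ D i).subtype ((L.map (fun x => subRep ρ _ hB x - 1)).prod ⟨v, hv⟩) ∈ acV ρ D (i + 1) := h5
  rw [h6] at h7
  exact h7

private theorem ac_main (ρ : H →* Module.End (ZMod p) V) (D : Subgroup H) (m : ℕ)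
    (hstep : ∀ (i : ℕ) (L : List H), L.length = m → ∀ v ∈ acV ρ D i,
      (L.map (fun x => ρ x - 1)).prod v ∈ acV ρ D (i + 1)) (i : ℕ) :
    ∀ (L : List H), L.length = i * m → ∀ v, (L.map (fun x => ρ x - 1)).prod v ∈ acV ρ D i := by
  induction i with
  | zero => exact fun _ _ _ => Submodule.mem_top
  | succ i ih =>
    intro L hL v
    rw [← List.take_append_drop m L, List.map_append, List.prod_append, Module.End.mul_apply]
    refine hstep i _ ?_ _ (ih _ ?_ v)
    · rw [List.length_take, hL, Nat.succ_mul]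
      omega
    · rw [List.length_drop, hL, Nat.succ_mul]
      omega

end act

/-- PROOF. Induction on `l`, for all `H`, `V`, `ρ`. `l = 0`: `H` acts trivially and the product of the one factor `ρ a - 1` is `0`. Step `l → l + 1`:
let `D = commutator H` (the subgroup); the restriction of `ρ` to `D` satisfies the hypothesis for `l` (`derivedSeries D l` is mapped into
`derivedSeries H (l + 1)`), so products of `M = (n*p)^l` operators `ρ x - 1`, `x ∈ D`, vanish. Let `V_0 = ⊤` and `V_(i+1)` be the
submodule spanned by all `ρ x v - v`, `x ∈ D`, `v ∈ V_i`; so `V_M = ⊥`. Each `V_i` is `H`-invariant (`D` is normal), and `D` acts trivially on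
`V_i ⧸ V_(i+1)`. So the representation of `H` on `V_i ⧸ V_(i+1)` has commutative image and satisfies the hypotheses of `comm_nilp` (the
identity `hw` restricts to submodules and passes to quotients), so products of `n * p` operators `ρ a - 1` map
`V_i` into `V_(i+1)`. Hence products of `n * p * M` such operators vanish. -/
theorem act {p : ℕ} (hp : p.Prime) {n : ℕ} (w : FreeGroup (Fin n)) (i : Fin n) (g₁ : FreeGroup (Fin n))
    (hne : open Classical in
      ∑ g ∈ (fox i w).support.filter (fun g => Eqv (A1 p) g g₁), ((fox i w g : ℤ) : ZMod p) ≠ 0)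
    (l : ℕ) : ∀ {H V : Type} [Group H] [AddCommGroup V] [Module (ZMod p) V] (ρ : H →* Module.End (ZMod p) V),
    (∀ a, ∃ k : ℕ, ρ a ^ (p ^ k) = 1) → (∀ h ∈ derivedSeries H l, ρ h = 1) →
    (∀ t : Fin n → H, ev ρ t (fox i w) = 0) → ∀ a : Fin ((n * p) ^ l) → H,
    (List.ofFn (fun j => ρ (a j) - 1)).prod = 0 := by
  induction l with
  | zero =>
    intro H V _ _ _ ρ _ h1 _ a
    have h2 : ∀ h : H, ρ h = 1 := fun h => h1 h (by rw [derivedSeries_zero]; exact Subgroup.mem_top h)
    have hmem : (0 : Module.End (ZMod p) V) ∈ List.ofFn (fun j => ρ (a j) - 1) := by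
      rw [List.mem_ofFn]
      exact ⟨⟨0, by rw [pow_zero]; exact Nat.one_pos⟩, by rw [h2, sub_self]⟩
    exact List.prod_eq_zero hmem
  | succ l ih =>
    intro H V _ _ _ ρ hord hder hw a
    have hM : ∀ L : List H, (∀ x ∈ L, x ∈ derivedSeries H 1) → L.length = (n * p) ^ l →
        (L.map (fun x => ρ x - 1)).prod = 0 := by
      intro L hL hlen
      have h1 := ih (ρ.comp (derivedSeries H 1).subtype) (fun x => hord x) (fun h hh =>
        hder _ (ac_derived l (Subgroup.mem_map_of_mem _ hh))) (fun t => hw (fun j => (t j : H)) ▸ ?_)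
        (fun j => ⟨L.get (j.cast hlen.symm), hL _ (List.get_mem _ _)⟩)
      · rw [← ac_ofFn (fun x => ρ x - 1) L _ hlen]
        exact h1
      · unfold ev
        refine Finset.sum_congr rfl fun g _ => ?_
        have e : (derivedSeries H 1).subtype (FreeGroup.lift t g) = FreeGroup.lift (fun j => (t j : H)) g := by
          have h2 : (derivedSeries H 1).subtype.comp (FreeGroup.lift t) = FreeGroup.lift (fun j => (t j : H)) := by
            refine FreeGroup.ext_hom _ _ fun j => ?_
            rw [MonoidHom.comp_apply, FreeGroup.lift_apply_of, FreeGroup.lift_apply_of]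
            rfl
          exact DFunLike.congr_fun h2 g
        show _ • ρ ((derivedSeries H 1).subtype (FreeGroup.lift t g)) = _
        rw [e]
    have hstep : ∀ (j : ℕ) (L : List H), L.length = n * p → ∀ v ∈ acV ρ (derivedSeries H 1) j,
        (L.map (fun x => ρ x - 1)).prod v ∈ acV ρ (derivedSeries H 1) (j + 1) := fun j L hL =>
      ac_step hp w i g₁ hne ρ hord hw (derivedSeries H 1) (fun a b =>
        Subgroup.commutator_mem_commutator (Subgroup.mem_top a) (Subgroup.mem_top b)) j L hL
    have hmap : List.ofFn (fun j => ρ (a j) - 1) = (List.ofFn a).map (fun x => ρ x - 1) := by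
      rw [List.map_ofFn]
      rfl
    rw [hmap]
    refine LinearMap.ext fun v => ?_
    rw [LinearMap.zero_apply]
    have h2 := ac_main ρ (derivedSeries H 1) (n * p) hstep ((n * p) ^ l) (List.ofFn a)
      (by rw [List.length_ofFn, pow_succ]) v
    exact ac_vanish ρ (derivedSeries H 1) ((n * p) ^ l) hM ((n * p) ^ l) _ h2 [] (fun x hx => by
      simp at hx) (by simp)

end Pool.Agent.HForm
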