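import Pool.Agent.Lib_MP_4009a7_al.Base

/-!
# Piece ALG: group theory for the alpha bound
-/

set_option autoImplicit false

open scoped commutatorElement

namespace Pool.Agent.HForm

variable {T : Type} [Group T]

theorem alg_lcs_le_ucs {c : ℕ} (h : (⊤ : Subgroup T).lowerCentralSeries c = ⊥) :
    ∀ j k : ℕ, k + j = c → (⊤ : Subgroup T).lowerCentralSeries k ≤ Subgroup.upperCentralSeries T j := by
  intro j
  induction j with
  | zero =>
    intro k hk
    rw [Nat.add_zero] at hk
    rw [hk, h]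
    exact bot_le
  | succ j ih =>
    intro k hk x hx
    rw [Subgroup.mem_upperCentralSeries_succ_iff]
    intro y
    refine ih (k + 1) (by omega) ?_
    rw [Subgroup.lowerCentralSeries_succ]
    exact Subgroup.commutator_mem_commutator hx (Subgroup.mem_top y)

/-- PROOF. `lowerCentralSeries (c - 2) ≤ upperCentralSeries T 2` (`⊤.lowerCentralSeries c = ⊥`, descending versus upper central series), and every element of the centralizer `S` of `upperCentralSeries T 2` commutes
with it. So `⁅S.lowerCentralSeries (c - 2), S⁆ = ⊥`. -/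
theorem class_centralizer {c : ℕ} (hc : 2 ≤ c) (h : (⊤ : Subgroup T).lowerCentralSeries c = ⊥) :
    (⊤ : Subgroup (Subgroup.centralizer (Subgroup.upperCentralSeries T 2 : Set T))).lowerCentralSeries (c - 1) = ⊥ := by
  have h1 := alg_lcs_le_ucs h 2 (c - 2) (by omega)
  have h2 : (Subgroup.centralizer (Subgroup.upperCentralSeries T 2 : Set T)).lowerCentralSeries (c - 1) = ⊥ := by
    have e : c - 1 = (c - 2) + 1 := by omega
    rw [e, Subgroup.lowerCentralSeries_succ, Subgroup.commutator_eq_bot_iff_le_centralizer]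
    have h3 : (Subgroup.centralizer (Subgroup.upperCentralSeries T 2 : Set T)).lowerCentralSeries (c - 2) ≤
        Subgroup.upperCentralSeries T 2 :=
      (Subgroup.lowerCentralSeries_mono (c - 2) le_top).trans h1
    exact h3.trans (Subgroup.le_centralizer_iff.1 le_rfl)
  rw [← Subgroup.top_subtype_lowerCentralSeries] at h2
  exact (Subgroup.map_eq_bot_iff_of_injective _ (Subgroup.subtype_injective _)).1 h2

/-- the homomorphism `t ↦ ⁅t, a⁆` to the centre -/
def algHom (a : T) (ha : ∀ t : T, ⁅t, a⁆ ∈ Subgroup.center T) : T →* Subgroup.center T :=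
  MonoidHom.mk' (fun t => ⟨⁅t, a⁆, ha t⟩) (by
    intro s t
    refine Subtype.ext ?_
    change ⁅s * t, a⁆ = ⁅s, a⁆ * ⁅t, a⁆
    have h1 : ⁅s * t, a⁆ = s * ⁅t, a⁆ * s⁻¹ * ⁅s, a⁆ := by
      simp only [commutatorElement_def]
      group
    have h2 := Subgroup.mem_center_iff.1 (ha t)
    rw [h1, h2 s, mul_inv_cancel_right, ← h2 ⁅s, a⁆])

theorem algHom_eq_one {a : T} {ha : ∀ t : T, ⁅t, a⁆ ∈ Subgroup.center T} {t : T} :
    algHom a ha t = 1 ↔ a * t = t * a := by
  constructor
  · intro h
    have h1 : ⁅t, a⁆ = 1 := congrArg Subtype.val h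
    exact (commutatorElement_eq_one_iff_mul_comm.1 h1).symm
  · intro h
    refine Subtype.ext ?_
    exact commutatorElement_eq_one_iff_mul_comm.2 h.symm

/-- PROOF. Let `x_1, ..., x_k`, `k = A.relIndex X ≤ N`, be representatives in `X` of the cosets of `A`. The map `t ↦ (⁅t, x_i⁆)_i` from `centralizer A` to the tuples of central elements is a homomorphism
(`⁅s * t, x⁆ = s * ⁅t, x⁆ * s⁻¹ * ⁅s, x⁆`), and its kernel centralizes `A` and all `x_i`, so `X`. -/
theorem relIndex_centralizer_le [Finite T] {e N : ℕ} (hZ : Nat.card (Subgroup.center T) ≤ e) (X A : Subgroup T)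
    (hX : ∀ x ∈ X, ∀ t : T, ⁅t, x⁆ ∈ Subgroup.center T) (hAX : A ≤ X) (hN : A.relIndex X ≤ N) :
    (Subgroup.centralizer (X : Set T)).relIndex (Subgroup.centralizer (A : Set T)) ≤ e ^ N := by
  obtain ⟨φ, hφ⟩ : ∃ φ : Subgroup.centralizer (A : Set T) →* ((X ⧸ A.subgroupOf X) → Subgroup.center T),
      ∀ t q, φ t q = algHom (q.out : T) (hX _ q.out.2) t :=
    ⟨MonoidHom.pi fun q => (algHom (q.out : T) (hX _ q.out.2)).comp (Subgroup.subtype _),
      fun _ _ => rfl⟩
  have hker : φ.ker ≤ (Subgroup.centralizer (X : Set T)).subgroupOf (Subgroup.centralizer (A : Set T)) := by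
    intro t ht
    rw [MonoidHom.mem_ker] at ht
    rw [Subgroup.mem_subgroupOf, Subgroup.mem_centralizer_iff]
    intro x hx
    have h1 := congrFun ht (QuotientGroup.mk (⟨x, hx⟩ : X))
    rw [hφ] at h1
    have h2 := algHom_eq_one.1 h1
    have h3 : (QuotientGroup.mk (Quotient.out (QuotientGroup.mk (⟨x, hx⟩ : X) : X ⧸ A.subgroupOf X)) :
        X ⧸ A.subgroupOf X) = QuotientGroup.mk (⟨x, hx⟩ : X) := Quotient.out_eq _
    rw [QuotientGroup.eq, Subgroup.mem_subgroupOf] at h3
    obtain ⟨y, hy⟩ : ∃ y : T, y =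
      ((Quotient.out (QuotientGroup.mk (⟨x, hx⟩ : X) : X ⧸ A.subgroupOf X) : X) : T) := ⟨_, rfl⟩
    rw [← hy] at h2
    have h4 : y⁻¹ * x ∈ A := by
      rw [hy]
      exact h3
    have h5 := Subgroup.mem_centralizer_iff.1 t.2 _ h4
    calc x * (t : T) = y * (y⁻¹ * x * t) := by group
      _ = y * (t * (y⁻¹ * x)) := by rw [h5]
      _ = (y * t) * (y⁻¹ * x) := by group
      _ = (t * y) * (y⁻¹ * x) := by rw [h2]
      _ = t * x := by group
  have hpos : φ.ker.index ≠ 0 := Subgroup.index_ne_zero_of_finite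
  have h1 : (Subgroup.centralizer (X : Set T)).relIndex (Subgroup.centralizer (A : Set T)) ≤ φ.ker.index :=
    Nat.le_of_dvd (Nat.pos_of_ne_zero hpos) (Subgroup.index_dvd_of_le hker)
  have h2 : Nat.card φ.range ≤ Nat.card ((X ⧸ A.subgroupOf X) → Subgroup.center T) :=
    Nat.card_le_card_of_injective _ Subtype.val_injective
  have h3 : Nat.card (X ⧸ A.subgroupOf X) = A.relIndex X := rfl
  have he : 1 ≤ e := le_trans Nat.card_pos hZ
  calc (Subgroup.centralizer (X : Set T)).relIndex (Subgroup.centralizer (A : Set T))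
      ≤ φ.ker.index := h1
    _ = Nat.card φ.range := Subgroup.index_ker φ
    _ ≤ Nat.card ((X ⧸ A.subgroupOf X) → Subgroup.center T) := h2
    _ = Nat.card (Subgroup.center T) ^ A.relIndex X := by rw [Nat.card_fun, h3]
    _ ≤ e ^ A.relIndex X := Nat.pow_le_pow_left hZ _
    _ ≤ e ^ N := Nat.pow_le_pow_right he hN

/-- for `a ∈ A` the map `t ↦ ⁅t, a⁆` is a homomorphism to the centre, so it kills commutators -/
theorem commutator_le_centralizer (A : Subgroup T) (hA : ∀ a ∈ A, ∀ t : T, ⁅t, a⁆ ∈ Subgroup.center T) :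
    commutator T ≤ Subgroup.centralizer (A : Set T) := by
  rw [commutator_def, Subgroup.commutator_le]
  intro s _ t _
  rw [Subgroup.mem_centralizer_iff]
  intro a ha
  refine algHom_eq_one.1 (?_ : algHom a (hA a ha) ⁅s, t⁆ = 1)
  rw [map_commutatorElement, commutatorElement_eq_one_iff_mul_comm]
  exact Subtype.ext (Subgroup.mem_center_iff.1 (algHom a (hA a ha) t).2 _)

/-- nilpotency class of subgroups and quotients, in the form used here -/
theorem lcs_subgroup {c : ℕ} (h : (⊤ : Subgroup T).lowerCentralSeries c = ⊥) (S : Subgroup T) :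
    (⊤ : Subgroup S).lowerCentralSeries c = ⊥ := by
  have h1 : S.lowerCentralSeries c = ⊥ :=
    le_bot_iff.1 ((Subgroup.lowerCentralSeries_mono c le_top).trans h.le)
  rw [← Subgroup.top_subtype_lowerCentralSeries] at h1
  exact (Subgroup.map_eq_bot_iff_of_injective _ (Subgroup.subtype_injective _)).1 h1

theorem lcs_surj {T' : Type} [Group T'] {c : ℕ} (h : (⊤ : Subgroup T).lowerCentralSeries c = ⊥)
    (f : T →* T') (hf : Function.Surjective f) : (⊤ : Subgroup T').lowerCentralSeries c = ⊥ := by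
  rw [← Subgroup.map_top_of_surjective f hf, ← Subgroup.map_lowerCentralSeries, h, Subgroup.map_bot]

theorem lcs_inj {T' : Type} [Group T'] {c : ℕ} (h : (⊤ : Subgroup T').lowerCentralSeries c = ⊥)
    (f : T →* T') (hf : Function.Injective f) : (⊤ : Subgroup T).lowerCentralSeries c = ⊥ := by
  refine (Subgroup.map_eq_bot_iff_of_injective _ hf).1 ?_
  rw [Subgroup.map_lowerCentralSeries]
  exact le_bot_iff.1 ((Subgroup.lowerCentralSeries_mono c le_top).trans h.le)

end Pool.Agent.HForm
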