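import Pool.Agent.Lib_MP_4009a7_al.RepT

/-!
# Piece REPU: representation theory tools II
-/

set_option autoImplicit false

open scoped commutatorElement TensorProduct

namespace Pool.Agent.HForm

section tools

/-- PROOF. Every `z` in the centre acts as a scalar `μ z` (`schur` with `U = ⊤`). `z ↦ μ z` is injective (`ρ` is) and the values are roots of
`X ^ e - 1`, which has at most `e` roots. -/
theorem center_card_le {K V H : Type} [Field K] [IsAlgClosed K] [AddCommGroup V] [Module K V]
    [FiniteDimensional K V] [Group H] [Finite H] {e : ℕ} (he : 0 < e) (hH : ∀ x : H, x ^ e = 1)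
    (ρ : H →* Module.End K V) (hρ : Function.Injective ρ) (hi : Irr ρ) :
    Nat.card (Subgroup.center H) ≤ e := by
  classical
  have hirr : IrrSub ρ ⊤ := irrSub_top_iff.2 hi
  obtain ⟨hnt, _⟩ := hi
  have h1 : ∀ z : Subgroup.center H, ∃ μ : K, ∀ v : V, ρ (z : H) v = μ • v := by
    intro z
    obtain ⟨μ, hμ⟩ := schur hirr (ρ (z : H)) (fun _ _ => trivial) (by
      intro h u _
      rw [← Module.End.mul_apply, ← Module.End.mul_apply, ← map_mul, ← map_mul,
        (Subgroup.mem_center_iff.1 z.2 h)])
    exact ⟨μ, fun v => hμ v trivial⟩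
  choose μ hμ using h1
  obtain ⟨v, hv⟩ := exists_ne (0 : V)
  have hpow : ∀ z : Subgroup.center H, ∀ n : ℕ, ρ ((z : H) ^ n) v = μ z ^ n • v := by
    intro z n
    induction n with
    | zero => simp
    | succ n ih =>
      rw [pow_succ, map_mul, Module.End.mul_apply, hμ z v, map_smul, ih, smul_smul, pow_succ,
        mul_comm]
  have hroot : ∀ z : Subgroup.center H, μ z ^ e = 1 := by
    intro z
    have h2 := hpow z e
    rw [hH, map_one, Module.End.one_apply] at h2
    have h3 : (μ z ^ e - 1) • v = 0 := by rw [sub_smul, one_smul, ← h2, sub_self]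
    rcases smul_eq_zero.1 h3 with h4 | h4
    · exact sub_eq_zero.1 h4
    · exact absurd h4 hv
  have hinj : Function.Injective (fun z : Subgroup.center H =>
      (⟨μ z, (Polynomial.mem_nthRootsFinset he 1).2 (hroot z)⟩ :
        {x : K // x ∈ Polynomial.nthRootsFinset e (1 : K)})) := by
    intro z z' hzz
    have h2 : μ z = μ z' := congrArg Subtype.val hzz
    apply Subtype.ext
    apply hρ
    refine LinearMap.ext fun u => ?_
    rw [hμ z u, hμ z' u, h2]
  refine (Nat.card_le_card_of_injective _ hinj).trans ?_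
  rw [Nat.card_eq_fintype_card, Fintype.card_coe]
  exact (Multiset.toFinset_card_le _).trans (Polynomial.card_nthRoots e 1)

/-- PROOF. `ρ c` maps `T`-translates: for `t : T` the space `t W` is invariant under the normal subgroup `S`, with kernel `t (kerOn W) t⁻¹`, of the same index in `S`, and `t W` only
depends on the coset `t S`. The sum of all `t W` is invariant and nonzero so it is `⊤`; hence the intersection of the kernels (of at most `S.index` subgroups of index at most
`B`) acts trivially and is trivial. So `Nat.card S ≤ B ^ S.index`. -/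
theorem card_le_of_translates {K V T : Type} [Field K] [AddCommGroup V] [Module K V] [Group T] [Finite T]
    (ρ : T →* Module.End K V) (hρ : Function.Injective ρ) (hi : Irr ρ) (S : Subgroup T) (hS : S.Normal)
    (W : Submodule K V) (hW : Inv (ρ.comp S.subtype) W) (hW0 : W ≠ ⊥) {B : ℕ}
    (hB : (kerOn (ρ.comp S.subtype) W).index ≤ B) : Nat.card S ≤ B ^ S.index := by
  classical
  have := Fintype.ofFinite (T ⧸ S)
  set Wq : T ⧸ S → Submodule K V := fun q => W.map (ρ q.out) with hWq
  have hle : ∀ t : T, W.map (ρ t) ≤ Wq (QuotientGroup.mk t) := by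
    intro t
    rintro _ ⟨v, hv, rfl⟩
    have h1 : (QuotientGroup.mk t : T ⧸ S).out⁻¹ * t ∈ S := by
      rw [← QuotientGroup.eq, QuotientGroup.out_eq']
    refine ⟨ρ ((QuotientGroup.mk t : T ⧸ S).out⁻¹ * t) v, hW ⟨_, h1⟩ v hv, ?_⟩
    rw [← Module.End.mul_apply, ← map_mul, mul_inv_cancel_left]
  have htop : (⨆ q, Wq q) = ⊤ := by
    rcases hi.2 (⨆ q, Wq q) (by
      intro g v hv
      have h2 : (⨆ q, Wq q) ≤ (⨆ q, Wq q).comap (ρ g) := by
        refine iSup_le fun q => ?_
        rintro _ ⟨w, hw, rfl⟩
        rw [Submodule.mem_comap, ← Module.End.mul_apply, ← map_mul]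
        exact (le_iSup Wq _) (hle (g * q.out) ⟨w, hw, rfl⟩)
      exact h2 hv) with h1 | h1
    · exfalso
      apply hW0
      rw [Submodule.eq_bot_iff]
      intro w hw
      have h2 : ρ (1 : T) w ∈ Wq (QuotientGroup.mk 1) := hle 1 ⟨w, hw, rfl⟩
      have h3 := (le_iSup Wq _) h2
      rw [h1, Submodule.mem_bot, map_one, Module.End.one_apply] at h3
      exact h3
    · exact h1
  set N : T ⧸ S → Subgroup S := fun q => kerOn (ρ.comp S.subtype) (Wq q) with hN
  have hbot : (⨅ q, N q) = ⊥ := by
    rw [Subgroup.eq_bot_iff_forall]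
    intro s hs
    rw [Subgroup.mem_iInf] at hs
    have h1 : (⨆ q, Wq q) ≤ LinearMap.ker (ρ (s : T) - (1 : Module.End K V)) := by
      refine iSup_le fun q v hv => ?_
      rw [LinearMap.mem_ker, LinearMap.sub_apply, Module.End.one_apply, sub_eq_zero]
      exact hs q v hv
    rw [htop] at h1
    apply Subtype.ext
    apply hρ
    refine LinearMap.ext fun v => ?_
    have h2 := h1 (show v ∈ (⊤ : Submodule K V) from trivial)
    rw [LinearMap.mem_ker, LinearMap.sub_apply, Module.End.one_apply, sub_eq_zero] at h2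
    rw [h2, Subgroup.coe_one, map_one, Module.End.one_apply]
  have hidx : ∀ q, (N q).index ≤ B := by
    intro q
    have h1 : N q = (kerOn (ρ.comp S.subtype) W).comap
        ((MulAut.conjNormal (H := S) q.out⁻¹ : MulAut S) : S →* S) := by
      ext s
      rw [Subgroup.mem_comap]
      have h3 : ∀ w : V, (ρ.comp S.subtype) ((MulAut.conjNormal (H := S) q.out⁻¹ : MulAut S) s) w =
          ρ q.out⁻¹ (ρ (s : T) (ρ q.out w)) := by
        intro w
        rw [MonoidHom.comp_apply, Subgroup.coe_subtype, MulAut.conjNormal_apply, inv_inv, map_mul,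
          map_mul]
        rfl
      have h4 : ∀ w : V, ρ q.out⁻¹ (ρ q.out w) = w := by
        intro w
        rw [← Module.End.mul_apply, ← map_mul, inv_mul_cancel, map_one, Module.End.one_apply]
      have h5 : ∀ w : V, ρ q.out (ρ q.out⁻¹ w) = w := by
        intro w
        rw [← Module.End.mul_apply, ← map_mul, mul_inv_cancel, map_one, Module.End.one_apply]
      constructor
      · intro h w hw
        have h6 : ρ (s : T) (ρ q.out w) = ρ q.out w := h _ ⟨w, hw, rfl⟩
        refine (h3 w).trans ?_
        rw [h6, h4]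
      · rintro h _ ⟨w, hw, rfl⟩
        have h6 : (ρ.comp S.subtype) ((MulAut.conjNormal (H := S) q.out⁻¹ : MulAut S) s) w = w :=
          h w hw
        rw [h3] at h6
        have h7 := congrArg (ρ q.out) h6
        rw [h5] at h7
        exact h7
    have hsurj : Function.Surjective
        ((MulAut.conjNormal (H := S) q.out⁻¹ : MulAut S) : S →* S) :=
      MulEquiv.surjective (MulAut.conjNormal (H := S) q.out⁻¹ : MulAut S)
    rw [h1]
    exact (Subgroup.index_comap_of_surjective _ hsurj).le.trans hB
  calc Nat.card S = (⊥ : Subgroup S).index := Subgroup.index_bot.symm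
    _ = (⨅ q, N q).index := by rw [hbot]
    _ ≤ ∏ q, (N q).index := Subgroup.index_iInf_le N
    _ ≤ ∏ _q : T ⧸ S, B := Finset.prod_le_prod' fun q _ => hidx q
    _ = B ^ S.index := by
        rw [Finset.prod_const, Finset.card_univ, Subgroup.index, Nat.card_eq_fintype_card]

variable {k K V H : Type} [Field k] [Field K] [Algebra k K] [AddCommGroup V] [Module k V] [Group H]

theorem repu_coord {ι : Type} [DecidableEq ι] (b : Module.Basis ι k K) (ρ : H →* Module.End k V) (h : H)
    (x : K ⊗[k] V) (i : ι) :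
    TensorProduct.equivFinsuppOfBasisLeft b (bcRep K ρ h x) i =
      ρ h (TensorProduct.equivFinsuppOfBasisLeft b x i) := by
  induction x with
  | zero => simp
  | tmul c v =>
    have h1 : bcRep K ρ h (c ⊗ₜ[k] v) = c ⊗ₜ[k] (ρ h v) := LinearMap.baseChange_tmul _ _ _
    rw [h1, TensorProduct.equivFinsuppOfBasisLeft_apply_tmul_apply,
      TensorProduct.equivFinsuppOfBasisLeft_apply_tmul_apply, map_smul]
  | add x y hx hy =>
    rw [map_add, map_add, Finsupp.add_apply, hx, hy, map_add, Finsupp.add_apply, map_add]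

/-- PROOF. Let `b` be a `k`-basis of `K`. `TensorProduct.equivFinsuppOfBasisLeft` (or similar): every `x : K ⊗ V` is uniquely `∑ b i ⊗ v i`, and
`bcRep K ρ h x = ∑ b i ⊗ ρ h (v i)`. So `x` is fixed iff all `v i` are, and `x ≠ 0` iff some `v i ≠ 0`. -/
theorem fixed_bc (ρ : H →* Module.End k V) (N : Subgroup H)
    (h : fixed (bcRep K ρ) N ≠ ⊥) : fixed ρ N ≠ ⊥ := by
  classical
  obtain ⟨x, hx, hx0⟩ := Submodule.exists_mem_ne_zero_of_ne_bot h
  let b := Module.Basis.ofVectorSpace k K
  have h1 : TensorProduct.equivFinsuppOfBasisLeft b x ≠ 0 := by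
    intro h2
    exact hx0 ((LinearEquiv.map_eq_zero_iff _).1 h2)
  obtain ⟨i, hi⟩ := Finsupp.ne_iff.1 h1
  rw [Finsupp.zero_apply] at hi
  intro hb
  apply hi
  have h3 : TensorProduct.equivFinsuppOfBasisLeft b x i ∈ fixed ρ N := by
    intro g hg
    rw [← repu_coord, hx g hg]
  rw [hb, Submodule.mem_bot] at h3
  exact h3

/-- PROOF. `N = kerOn (bcRep K ρ) U` is a normal subgroup with nonzero fixed points on `K ⊗ V` (they contain `U`), so `fixed ρ N ≠ ⊥` (`fixed_bc`). It is an
invariant subspace, so it is `⊤`, so `N ≤ ρ.ker`. The other inclusion is clear. -/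
theorem kerOn_bc {ρ : H →* Module.End k V} (hi : Irr ρ) {U : Submodule K (K ⊗[k] V)}
    (hU : Inv (bcRep K ρ) U) (hU0 : U ≠ ⊥) : kerOn (bcRep K ρ) U = ρ.ker := by
  have hN := kerOn_normal hU
  have h1 : fixed (bcRep K ρ) (kerOn (bcRep K ρ) U) ≠ ⊥ := by
    intro hb
    apply hU0
    rw [Submodule.eq_bot_iff]
    intro u hu
    have h2 : u ∈ fixed (bcRep K ρ) (kerOn (bcRep K ρ) U) := fun h hh => hh u hu
    rw [hb, Submodule.mem_bot] at h2
    exact h2
  have h2 := fixed_bc ρ _ h1
  rcases hi.2 _ (fixed_inv ρ hN) with h3 | h3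
  · exact absurd h3 h2
  · ext h
    rw [MonoidHom.mem_ker]
    constructor
    · intro hh
      refine LinearMap.ext fun v => ?_
      have h4 : v ∈ fixed ρ (kerOn (bcRep K ρ) U) := by rw [h3]; trivial
      exact h4 h hh
    · intro hh u _
      have h4 : bcRep K ρ h = LinearMap.baseChange K (ρ h) := rfl
      rw [h4, hh]
      have h5 : LinearMap.baseChange K (1 : Module.End k V) = LinearMap.id :=
        LinearMap.baseChange_id
      rw [h5]
      rfl

theorem bcRep_injective {ρ : H →* Module.End k V} (hρ : Function.Injective ρ) :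
    Function.Injective (bcRep K ρ) := by
  classical
  intro a c hac
  apply hρ
  let b := Module.Basis.ofVectorSpace k K
  have hne : Nonempty (Module.Basis.ofVectorSpaceIndex k K) := b.index_nonempty
  obtain ⟨i⟩ := hne
  refine LinearMap.ext fun v => ?_
  have h1 : ∀ g : H, TensorProduct.equivFinsuppOfBasisLeft b (bcRep K ρ g (b i ⊗ₜ[k] v)) i =
      ρ g v := by
    intro g
    rw [repu_coord, TensorProduct.equivFinsuppOfBasisLeft_apply_tmul_apply, b.repr_self,
      Finsupp.single_eq_same, one_smul]
  rw [← h1 a, ← h1 c, hac]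

end tools

end Pool.Agent.HForm
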