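import Pool.Agent.Lib_MP_4009a7_al.AlD
import Pool.Agent.Lib_MP_4009a7_al.AlG
import Pool.Agent.Lib_MP_4009a7_al.RepU

/-!
# Piece ALA: the alpha bound, reduction to faithful representations and the base case
-/

set_option autoImplicit false

open scoped commutatorElement

namespace Pool.Agent.HForm

variable {K : Type} [Field K] {q e n : ℕ} {w : FreeGroup (Fin n)}

/-- PROOF. Let `σ = subRep ρ U`, with kernel `kerOn ρ U` (`ker_subRep`), and let `σ' : T ⧸ σ.ker →* Module.End K U` be from `exists_quotRep`: it is injective, irreducible (`IrrSub.irr`, `Irr.of_surj`), and `Sat w σ'`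
(`Sat.sub`, `Sat.of_surj`). -/
theorem alphaB_of_alphaF {c B : ℕ} (h : AlphaF K q e w c B) : AlphaB K q e w c B := by
  intro T M _ _ _ _ _ ρ hT hexp hlcs hsat U hU
  obtain ⟨σ', h1, h2⟩ := exists_quotRep (subRep ρ U hU.1)
  have hcomp : σ'.comp (QuotientGroup.mk' (subRep ρ U hU.1).ker) = subRep ρ U hU.1 :=
    MonoidHom.ext fun x => h1 x
  have hsurj := QuotientGroup.mk'_surjective (subRep ρ U hU.1).ker
  have hexp' : ∀ x : T ⧸ (subRep ρ U hU.1).ker, x ^ e = 1 := by
    intro x
    obtain ⟨y, rfl⟩ := hsurj x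
    rw [← map_pow, hexp, map_one]
  have hsat' : Sat w σ' := by
    refine Sat.of_surj (QuotientGroup.mk' (subRep ρ U hU.1).ker) hsurj ?_
    rw [hcomp]
    exact hsat.sub U hU.1
  have hirr : Irr σ' := by
    refine Irr.of_surj (ρ' := subRep ρ U hU.1) (fun x => ⟨QuotientGroup.mk x, h1 x⟩) hU.irr ?_
    intro y
    obtain ⟨x, rfl⟩ := hsurj y
    exact ⟨x, (h1 x).symm⟩
  have h3 := h (T ⧸ (subRep ρ U hU.1).ker) U σ' (hT.to_quotient _) hexp'
    (lcs_surj hlcs _ hsurj) hsat' h2 hirr
  rw [← ker_subRep ρ U hU.1, Subgroup.index_eq_card]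
  exact h3

/-- abelian groups: `⊤.lowerCentralSeries 1 = ⊥` means that the centre is everything: `center_card_le` -/
theorem alphaF_one [IsAlgClosed K] (he : 0 < e) {c : ℕ} (hc : c ≤ 1) : AlphaF K q e w c e := by
  intro T M _ _ _ _ _ ρ _ hexp hlcs _ hinj hirr
  have h1 : commutator T = ⊥ := by
    rw [← Subgroup.top_lowerCentralSeries_one, eq_bot_iff, ← hlcs]
    exact Subgroup.lowerCentralSeries_antitone _ hc
  have h2 : Subgroup.center T = ⊤ := (commutator_eq_bot_iff_center_eq_top T).1 h1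
  have h3 := center_card_le he hexp ρ hinj hirr
  rwa [h2, Subgroup.card_top] at h3

end Pool.Agent.HForm
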