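import Pool.Agent.Lib_MP_4009a7_al.FoxL

/-!
# Piece EVC: the block evaluation lemma
-/

set_option autoImplicit false

open scoped commutatorElement

namespace Pool.Agent.HForm

open Classical in
/-- PROOF. Fix `g₀`. Enumerate the elements of `S` which are not equivalent to `g₀` injectively by (some of) the `l : Fin m` (`hm`; if all elements of
`S` are equivalent to `g₀` use the identity `hid` for the tests which are given by `hforget`, or let the construction run with `0` used blocks);
call `g_l` the element with the number `l`. For a used block `l` choose by `hsep` a test `s_l` with `(c, φ)(g_l) ≠ (c, φ)(g₀)`; for an unused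
block let `s_l` be any test (`hT`). Put `κ_l = φ l s_l g_l` if this is different from `φ l s_l g₀`, otherwise `κ_l = φ l s_l g₀ + 1` (`K` a field, `1 ≠ 0`); for unused
blocks `κ_l = φ l s_l g₀ + 1` too. In all cases `κ_l ≠ φ l s_l g₀`. For a subset
`I ⊆ Fin m` use `hid` with the tests `s_l` for `l ∈ I` and the forgetful test `s_l'` (`hforget`) for `l ∉ I`: as `c` is the same and `φ = 1` this gives
`∑_{g ∈ S, c(g) = c(g₀)} f g * ∏_{l ∈ I} φ_l g = 0` for all `I`. Multiply by `∏_{l ∉ I} (-κ_l)` and sum over `I`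
(`Finset.prod_add` or `Finset.prod_sub`): `∑_{g ∈ S, c(g) = c(g₀)} f g * ∏_l (φ_l g - κ_l) = 0`. If `g = g_l` for some used `l` then either `c_l g ≠ c_l g₀` and `g` does not
occur in the sum, or `φ_l g = κ_l`. So only the `g ∈ S` equivalent to `g₀` remain (they do occur in the sum by `hinv`), and for them the product
is `∏_l (φ_l g₀ - κ_l) ≠ 0`. -/
theorem evc {K Wd : Type} [Field K] {m : ℕ} (S : Finset Wd) (hm : S.card ≤ m) (f : Wd → K)
    (r : Wd → Wd → Prop) (hr : Equivalence r) (T ι : Fin m → Type) (hT : ∀ l, Nonempty (T l))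
    (c : ∀ l, T l → Wd → ι l) (φ : ∀ l, T l → Wd → K)
    (hinv : ∀ l s g g', r g g' → c l s g = c l s g' ∧ φ l s g = φ l s g')
    (hforget : ∀ l s, ∃ s', (∀ g, c l s' g = c l s g) ∧ ∀ g, φ l s' g = 1)
    (hsep : ∀ l g g', ¬ r g g' → ∃ s, ¬ (c l s g = c l s g' ∧ φ l s g = φ l s g'))
    (hid : ∀ (s : ∀ l, T l) (g₀ : Wd),
      ∑ g ∈ S.filter (fun g => ∀ l, c l (s l) g = c l (s l) g₀), f g * ∏ l, φ l (s l) g = 0) (g₀ : Wd) :
    ∑ g ∈ S.filter (fun g => r g g₀), f g = 0 := by
  -- the elements which are not equivalent to `g₀`, numbered by blocks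
  obtain ⟨e, he⟩ : ∃ e : Fin m → Option Wd, ∀ g ∈ S, ¬ r g g₀ → ∃ l, e l = some g := by
    let A := S.filter (fun g => ¬ r g g₀)
    have hA : A.card ≤ m := (Finset.card_le_card (Finset.filter_subset _ _)).trans hm
    refine ⟨fun l => if h : (l : ℕ) < A.card then some (A.equivFin.symm ⟨l, h⟩ : Wd) else none,
      fun g hg hr' => ?_⟩
    have hgA : g ∈ A := Finset.mem_filter.2 ⟨hg, hr'⟩
    have hlt := (A.equivFin ⟨g, hgA⟩).2
    refine ⟨⟨(A.equivFin ⟨g, hgA⟩ : Fin A.card), hlt.trans_le hA⟩, (dif_pos hlt).trans ?_⟩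
    have h2 : A.equivFin.symm (A.equivFin ⟨g, hgA⟩) = ⟨g, hgA⟩ := Equiv.symm_apply_apply _ _
    exact congrArg (fun x : A => some (x : Wd)) h2
  -- tests and values
  have hex : ∀ l, ∃ (s : T l) (κ : K), κ ≠ φ l s g₀ ∧ ∀ g, e l = some g → ¬ r g g₀ →
      c l s g ≠ c l s g₀ ∨ φ l s g = κ := by
    intro l
    obtain ⟨sd⟩ := hT l
    have hdef : ∀ s : T l, φ l s g₀ + 1 ≠ φ l s g₀ := fun s h => one_ne_zero (add_eq_left.1 h)
    rcases hel : e l with _ | g
    · exact ⟨sd, _, hdef sd, fun g hg => by simp at hg⟩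
    · by_cases hr' : r g g₀
      · exact ⟨sd, _, hdef sd, fun g' hg' hn => by
          cases hg'
          exact absurd hr' hn⟩
      · obtain ⟨s, hs⟩ := hsep l g g₀ hr'
        by_cases hc : c l s g = c l s g₀
        · refine ⟨s, φ l s g, fun h => hs ⟨hc, h⟩, fun g' hg' _ => ?_⟩
          cases hg'
          exact Or.inr rfl
        · refine ⟨s, _, hdef s, fun g' hg' _ => ?_⟩
          cases hg'
          exact Or.inl hc
  choose s κ hκ hs using hex
  choose s' hs'c hs'φ using fun l => hforget l (s l)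
  -- the identities for all subsets
  have hI : ∀ I : Finset (Fin m), ∑ g ∈ S.filter (fun g => ∀ l, c l (s l) g = c l (s l) g₀),
      f g * ∏ l ∈ I, φ l (s l) g = 0 := by
    intro I
    have h1 := hid (fun l => if l ∈ I then s l else s' l) g₀
    have h2 : ∀ l g, c l (if l ∈ I then s l else s' l) g = c l (s l) g := by
      intro l g
      by_cases h : l ∈ I
      · rw [if_pos h]
      · rw [if_neg h, hs'c]
    have h3 : ∀ g, ∏ l, φ l (if l ∈ I then s l else s' l) g = ∏ l ∈ I, φ l (s l) g := by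
      intro g
      rw [← Finset.prod_subset (Finset.subset_univ I)]
      · exact Finset.prod_congr rfl fun l hl => by rw [if_pos hl]
      · intro l _ hl
        rw [if_neg hl, hs'φ]
    simp only [h2, h3] at h1
    exact h1
  have key : ∑ g ∈ S.filter (fun g => ∀ l, c l (s l) g = c l (s l) g₀),
      f g * ∏ l, (φ l (s l) g - κ l) = 0 := by
    have h1 : ∀ g, f g * ∏ l, (φ l (s l) g - κ l) = ∑ I ∈ (Finset.univ : Finset (Fin m)).powerset,
        (∏ l ∈ Finset.univ \ I, (-κ l)) * (f g * ∏ l ∈ I, φ l (s l) g) := by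
      intro g
      have h2 : ∏ l, (φ l (s l) g - κ l) = ∏ l, (φ l (s l) g + (-κ l)) :=
        Finset.prod_congr rfl fun l _ => sub_eq_add_neg _ _
      rw [h2, Finset.prod_add, Finset.mul_sum]
      exact Finset.sum_congr rfl fun I _ => by ring
    simp only [h1]
    rw [Finset.sum_comm]
    refine Finset.sum_eq_zero fun I _ => ?_
    rw [← Finset.mul_sum, hI, mul_zero]
  have hP : ∏ l, (φ l (s l) g₀ - κ l) ≠ 0 :=
    Finset.prod_ne_zero_iff.2 fun l _ => sub_ne_zero.2 (hκ l).symm
  have key2 : ∑ g ∈ S.filter (fun g => r g g₀), f g * ∏ l, (φ l (s l) g₀ - κ l) =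
      ∑ g ∈ S.filter (fun g => ∀ l, c l (s l) g = c l (s l) g₀),
        f g * ∏ l, (φ l (s l) g - κ l) := by
    refine Finset.sum_subset_zero_on_sdiff ?_ ?_ ?_
    · intro g hg
      rw [Finset.mem_filter] at hg ⊢
      exact ⟨hg.1, fun l => (hinv l (s l) g g₀ hg.2).1⟩
    · intro g hg
      rw [Finset.mem_sdiff, Finset.mem_filter, Finset.mem_filter] at hg
      have hr' : ¬ r g g₀ := fun h => hg.2 ⟨hg.1.1, h⟩
      obtain ⟨l, hl⟩ := he g hg.1.1 hr'
      rcases hs l g hl hr' with h | h
      · exact absurd (hg.1.2 l) h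
      · rw [Finset.prod_eq_zero (Finset.mem_univ l) (sub_eq_zero.2 h), mul_zero]
    · intro g hg
      rw [Finset.mem_filter] at hg
      congr 1
      exact Finset.prod_congr rfl fun l _ => by rw [(hinv l (s l) g g₀ hg.2).2]
  rw [key, ← Finset.sum_mul] at key2
  exact (mul_eq_zero.1 key2).resolve_right hP

open Classical in
theorem evc_coeff {K M ι Wd : Type} [Field K] [AddCommGroup M] [Module K M] {b : ι → M}
    (hb : LinearIndependent K b) (S : Finset Wd) (a : Wd → K) (C : Wd → ι)
    (h : ∑ g ∈ S, a g • b (C g) = 0) (c₀ : ι) : ∑ g ∈ S.filter (fun g => C g = c₀), a g = 0 := by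
  have h1 : Finsupp.linearCombination K b (∑ g ∈ S, Finsupp.single (C g) (a g)) = 0 := by
    rw [map_sum, ← h]
    exact Finset.sum_congr rfl fun g _ => Finsupp.linearCombination_single K (a g) (C g)
  have h2 := linearIndependent_iff.1 hb _ h1
  have h3 := DFunLike.congr_fun h2 c₀
  rw [Finsupp.finsetSum_apply] at h3
  rw [Finset.sum_filter]
  refine Eq.trans (Finset.sum_congr rfl fun g _ => ?_) h3
  rw [Finsupp.single_apply]

theorem evc_inj {K M ι : Type} [Field K] [AddCommGroup M] [Module K M] {b : ι → M}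
    (hb : LinearIndependent K b) {a a' : K} {i j : ι} (h : a • b i = a' • b j)
    (hne : a • b i ≠ 0) : i = j ∧ a = a' := by
  have h1 : Finsupp.single i a = Finsupp.single j a' := by
    apply hb
    rw [Finsupp.linearCombination_single, Finsupp.linearCombination_single, h]
  rcases (Finsupp.single_eq_single_iff i j a a').1 h1 with h2 | h2
  · exact h2
  · exact absurd (by rw [h2.1, zero_smul]) hne

/-- THE BLOCK EVALUATION LEMMA.
PROOF. (a) Fox coefficients: fix `i` and apply `evc` with `S = (fox i w).support`, `f g = ((fox i w g : ℤ) : K)`, `r = Eqv E`. The identity `hid`: for `s` let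
`t` be given by `heval s`; `Sat` gives `ev ρ t (fox i w) = 0`; apply it to `v`: `∑_{g ∈ S} (fox i w g) • (∏ l, φ l (s l) g) • b (c(g)) = 0` (`ev` is a
`Finsupp.sum`; an integer multiple in `M` is the multiple by the cast into `K`). As `b` is linearly independent, for each `c₀` the sum of the coefficients of the `g`
with `c(g) = c₀` vanishes (e.g. apply the linear functional `Finsupp.lapply c₀ ∘ b.repr`, or group with `Finset.sum_fiberwise`). This gives
`∑ g ∈ S.filter .., ((fox i w g : ℤ) : K) = 0` and since `ZMod p → K` (`ZMod.castHom`/`algebraMap`, characteristic `p`) is injective also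
the sum in `ZMod p` is `0`.
(b) `Eqv E w 1`: otherwise take the block `l₀` (`1 ≤ m`) and by `hsep` a test `s₀` with `(c, φ)(w) ≠ (c, φ)(1)`; in the other blocks take forgetful tests
(`φ = 1`; choose by `hT` and `hforget`). `Sat` gives `ρ (lift t w) v = v = ρ (lift t 1) v`, so `(∏ φ w) • b (c w) = v = (∏ φ 1) • b (c 1)`, and `v ≠ 0`. If `c w ≠ c 1`, linear
independence gives `∏ φ 1 = 0`, so `v = 0`, a contradiction. If `c w = c 1` then (`b _ ≠ 0`) `∏ φ w = ∏ φ 1`, i.e. `φ l₀ s₀ w = φ l₀ s₀ 1`, and `c l₀ s₀ w = c l₀ s₀ 1`,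
a contradiction to the choice of `s₀`. -/
theorem block_kills {K : Type} [Field K] {p : ℕ} [Fact p.Prime] [CharP K p] {n : ℕ} (w : FreeGroup (Fin n))
    {G M : Type} [Group G] [AddCommGroup M] [Module K M] (ρ : G →* Module.End K M) (hw : Sat w ρ)
    (E : GClass) {m : ℕ} (hm1 : 1 ≤ m) (hm : ∀ i, (fox i w).support.card ≤ m) (T ι : Fin m → Type)
    (hT : ∀ l, Nonempty (T l))
    (c : ∀ l, T l → FreeGroup (Fin n) → ι l) (φ : ∀ l, T l → FreeGroup (Fin n) → K)
    (b : (∀ l, ι l) → M) (hb : LinearIndependent K b) (v : M) (hv : v ≠ 0)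
    (heval : ∀ s : ∀ l, T l, ∃ t : Fin n → G, ∀ g : FreeGroup (Fin n),
      ρ (FreeGroup.lift t g) v = (∏ l, φ l (s l) g) • b (fun l => c l (s l) g))
    (hinv : ∀ l s g g', Eqv E g g' → c l s g = c l s g' ∧ φ l s g = φ l s g')
    (hforget : ∀ l s, ∃ s', (∀ g, c l s' g = c l s g) ∧ ∀ g, φ l s' g = 1)
    (hsep : ∀ l g g', ¬ Eqv E g g' → ∃ s, ¬ (c l s g = c l s g' ∧ φ l s g = φ l s g')) :
    Kills p E w := by
  classical
  refine ⟨?_, fun i g₁ => ?_⟩
  · by_contra hne
    obtain ⟨s₀, hs₀⟩ := hsep ⟨0, hm1⟩ w 1 hne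
    choose τ' _ hτ' using fun l => hforget l (Classical.choice (hT l))
    obtain ⟨t, ht⟩ := heval (Function.update τ' ⟨0, hm1⟩ s₀)
    have h1 : ∀ g, ∏ l, φ l (Function.update τ' ⟨0, hm1⟩ s₀ l) g = φ ⟨0, hm1⟩ s₀ g := by
      intro g
      rw [Finset.prod_eq_single_of_mem (⟨0, hm1⟩ : Fin m) (Finset.mem_univ _)]
      · rw [Function.update_self]
      · intro l _ hl
        rw [Function.update_of_ne hl, hτ']
    have h2 := ht w
    have h3 := ht 1
    rw [(hw t).1, Module.End.one_apply] at h2
    rw [map_one, map_one, Module.End.one_apply] at h3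
    have h4 := evc_inj hb (h2.symm.trans h3) (by rw [← h2]; exact hv)
    rw [h1, h1] at h4
    have h5 := congr_fun h4.1 ⟨0, hm1⟩
    simp only [Function.update_self] at h5
    exact hs₀ ⟨h5, h4.2⟩
  · have hE : Equivalence (Eqv E (n := n)) :=
      ⟨fun g X _ _ t => rfl, fun h X _ hX t => (h X hX t).symm,
        fun h h' X _ hX t => (h X hX t).trans (h' X hX t)⟩
    have hmain := evc (fox i w).support (hm i) (fun g => ((fox i w g : ℤ) : K)) (Eqv E) hE T ι hT
      c φ hinv hforget hsep (fun s g₀ => by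
        obtain ⟨t, ht⟩ := heval s
        have h1 := (hw t).2 i
        have h2 : ∑ g ∈ (fox i w).support, (((fox i w g : ℤ) : K) * ∏ l, φ l (s l) g) •
            b (fun l => c l (s l) g) = 0 := by
          have h3 := LinearMap.congr_fun h1 v
          rw [ev, Finsupp.sum, LinearMap.zero_apply] at h3
          rw [LinearMap.sum_apply] at h3
          rw [← h3]
          refine Finset.sum_congr rfl fun g _ => ?_
          rw [mul_smul, ← ht g, Int.cast_smul_eq_zsmul, LinearMap.smul_apply]
        have h4 := evc_coeff hb (fox i w).support _ (fun g l => c l (s l) g) h2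
          (fun l => c l (s l) g₀)
        simp only [funext_iff] at h4
        convert h4) g₁
    have hinj := (ZMod.castHom (dvd_refl p) K).injective
    apply hinj
    rw [map_zero, map_sum, ← hmain]
    refine Finset.sum_congr ?_ fun g _ => map_intCast _ _
    congr!

end Pool.Agent.HForm
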