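import Pool.Agent.Lib_MP_4009a7_al.Pairs

/-!
# Piece PAIRS2: hyperbolic pairs of operators
-/

set_option autoImplicit false

open scoped commutatorElement

namespace Pool.Agent.HForm

section aux

variable {K G M : Type} [Field K] [Group G] [AddCommGroup M] [Module K M] (ρ : G →* Module.End K M)

theorem p2_inv_apply (g : G) (v : M) : ρ g⁻¹ (ρ g v) = v := by
  rw [← Module.End.mul_apply, ← map_mul, inv_mul_cancel, map_one, Module.End.one_apply]

theorem p2_apply_inv (g : G) (v : M) : ρ g (ρ g⁻¹ v) = v := by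
  rw [← Module.End.mul_apply, ← map_mul, mul_inv_cancel, map_one, Module.End.one_apply]

theorem p2_ne {g : G} {v : M} (hv : v ≠ 0) : ρ g v ≠ 0 := by
  intro h
  apply hv
  rw [← p2_inv_apply ρ g v, h, map_zero]

theorem p2_comm {g h : G} {μ : K} (hμ : ∀ v, ρ ⁅g, h⁆ v = μ • v) : ρ g * ρ h = μ • (ρ h * ρ g) := by
  have h1 : g * h = ⁅g, h⁆ * (h * g) := by
    rw [commutatorElement_def]
    group
  rw [← map_mul, h1, map_mul, map_mul]
  ext v
  rw [Module.End.mul_apply, hμ, LinearMap.smul_apply]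

theorem p2_uniq [Nontrivial M] {κ : G → G → K} (hκ : ∀ g h v, ρ ⁅g, h⁆ v = κ g h • v) {g h : G} {μ : K}
    (hμ : ρ g * ρ h = μ • (ρ h * ρ g)) : κ g h = μ := by
  obtain ⟨w, hw⟩ := exists_ne (0 : M)
  have h1 := (p2_comm ρ (hκ g h)).symm.trans hμ
  have h2 := congrArg (fun f : Module.End K M => f w) h1
  simp only [LinearMap.smul_apply, Module.End.mul_apply] at h2
  have h3 : ρ h (ρ g w) ≠ 0 := p2_ne ρ (p2_ne ρ hw)
  exact smul_left_injective K h3 h2

theorem p2_mul_left [Nontrivial M] {κ : G → G → K} (hκ : ∀ g h v, ρ ⁅g, h⁆ v = κ g h • v)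
    (g g' h : G) : κ (g * g') h = κ g h * κ g' h := by
  refine p2_uniq ρ hκ ?_
  rw [map_mul, mul_assoc, p2_comm ρ (hκ g' h), mul_smul_comm, ← mul_assoc, p2_comm ρ (hκ g h),
    smul_mul_assoc, smul_smul, mul_comm (κ g' h), mul_assoc]

theorem p2_mul_right [Nontrivial M] {κ : G → G → K} (hκ : ∀ g h v, ρ ⁅g, h⁆ v = κ g h • v)
    (g h h' : G) : κ g (h * h') = κ g h * κ g h' := by
  refine p2_uniq ρ hκ ?_
  rw [map_mul, ← mul_assoc, p2_comm ρ (hκ g h), smul_mul_assoc, mul_assoc, p2_comm ρ (hκ g h'),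
    mul_smul_comm, smul_smul, ← mul_assoc]

theorem p2_one_left [Nontrivial M] {κ : G → G → K} (hκ : ∀ g h v, ρ ⁅g, h⁆ v = κ g h • v)
    (h : G) : κ 1 h = 1 := by
  refine p2_uniq ρ hκ ?_
  rw [map_one, one_mul, mul_one, one_smul]

theorem p2_one_right [Nontrivial M] {κ : G → G → K} (hκ : ∀ g h v, ρ ⁅g, h⁆ v = κ g h • v)
    (g : G) : κ g 1 = 1 := by
  refine p2_uniq ρ hκ ?_
  rw [map_one, one_mul, mul_one, one_smul]

theorem p2_self [Nontrivial M] {κ : G → G → K} (hκ : ∀ g h v, ρ ⁅g, h⁆ v = κ g h • v)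
    (g : G) : κ g g = 1 := by
  refine p2_uniq ρ hκ ?_
  rw [one_smul]

theorem p2_pow_left [Nontrivial M] {κ : G → G → K} (hκ : ∀ g h v, ρ ⁅g, h⁆ v = κ g h • v)
    (g h : G) (n : ℕ) : κ (g ^ n) h = κ g h ^ n := by
  induction n with
  | zero => rw [pow_zero, pow_zero, p2_one_left ρ hκ]
  | succ n ih => rw [pow_succ, pow_succ, p2_mul_left ρ hκ, ih]

theorem p2_inv_left [Nontrivial M] {κ : G → G → K} (hκ : ∀ g h v, ρ ⁅g, h⁆ v = κ g h • v)
    (g h : G) : κ g⁻¹ h = (κ g h)⁻¹ := by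
  refine eq_inv_of_mul_eq_one_left ?_
  rw [← p2_mul_left ρ hκ, inv_mul_cancel, p2_one_left ρ hκ]

theorem p2_inv_right [Nontrivial M] {κ : G → G → K} (hκ : ∀ g h v, ρ ⁅g, h⁆ v = κ g h • v)
    (g h : G) : κ g h⁻¹ = (κ g h)⁻¹ := by
  refine eq_inv_of_mul_eq_one_left ?_
  rw [← p2_mul_right ρ hκ, inv_mul_cancel, p2_one_right ρ hκ]

theorem p2_swap [Nontrivial M] {κ : G → G → K} (hκ : ∀ g h v, ρ ⁅g, h⁆ v = κ g h • v)
    (g h : G) : κ h g = (κ g h)⁻¹ := by
  refine eq_inv_of_mul_eq_one_left ?_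
  have h1 := p2_self ρ hκ (g * h)
  rw [p2_mul_left ρ hκ, p2_mul_right ρ hκ, p2_mul_right ρ hκ, p2_self ρ hκ, p2_self ρ hκ, one_mul,
    mul_one] at h1
  rw [mul_comm]
  exact h1

end aux

/-- pigeonhole for the pairs of eigenvalues -/
theorem p2_pigeon {K : Type} [Field K] {e : ℕ} (he : 0 < e) (n : ℕ) (α β : Fin (e * e * n) → K)
    (hα : ∀ i, α i ^ e = 1) (hβ : ∀ i, β i ^ e = 1) :
    ∃ φ : Fin n → Fin (e * e * n), Function.Injective φ ∧
      ∃ α₀ β₀ : K, ∀ x, α (φ x) = α₀ ∧ β (φ x) = β₀ := by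
  classical
  have hone : (1 : K) ∈ Polynomial.nthRootsFinset e (1 : K) :=
    (Polynomial.mem_nthRootsFinset he 1).2 (one_pow e)
  have hcard : (Polynomial.nthRootsFinset e (1 : K)).card ≤ e := by
    unfold Polynomial.nthRootsFinset
    exact (Multiset.toFinset_card_le _).trans (Polynomial.card_nthRoots e 1)
  obtain ⟨y, -, hy⟩ := Finset.exists_le_card_fiber_of_mul_le_card_of_maps_to
    (s := (Finset.univ : Finset (Fin (e * e * n))))
    (t := Polynomial.nthRootsFinset e (1 : K) ×ˢ Polynomial.nthRootsFinset e (1 : K))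
    (f := fun i => (α i, β i)) (n := n)
    (fun i _ => Finset.mem_product.2 ⟨(Polynomial.mem_nthRootsFinset he 1).2 (hα i),
      (Polynomial.mem_nthRootsFinset he 1).2 (hβ i)⟩)
    ⟨(1, 1), Finset.mem_product.2 ⟨hone, hone⟩⟩ (by
      rw [Finset.card_product, Finset.card_univ, Fintype.card_fin]
      exact Nat.mul_le_mul_right n (Nat.mul_le_mul hcard hcard))
  refine ⟨fun x => Finset.orderEmbOfCardLe _ hy x, (Finset.orderEmbOfCardLe _ hy).injective,
    y.1, y.2, fun x => ?_⟩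
  have h1 := Finset.orderEmbOfCardLe_mem _ hy x
  have h2 := (Finset.mem_filter.1 h1).2
  exact ⟨congrArg Prod.fst h2, congrArg Prod.snd h2⟩

/-- a joint eigenspace -/
def p2_space {K M ι : Type} [Field K] [AddCommGroup M] [Module K M] (f g : ι → Module.End K M)
    (α β : K) : Submodule K M where
  carrier := {v | ∀ i, f i v = α • v ∧ g i v = β • v}
  add_mem' {v w} hv hw i := by
    rw [map_add, map_add, (hv i).1, (hv i).2, (hw i).1, (hw i).2, smul_add, smul_add]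
    exact ⟨rfl, rfl⟩
  zero_mem' i := by
    rw [map_zero, map_zero, smul_zero, smul_zero]
    exact ⟨rfl, rfl⟩
  smul_mem' c v hv i := by
    rw [map_smul, map_smul, (hv i).1, (hv i).2, smul_comm c α, smul_comm c β]
    exact ⟨rfl, rfl⟩

theorem p2_mem_space {K M ι : Type} [Field K] [AddCommGroup M] [Module K M]
    {f g : ι → Module.End K M} {α β : K} {v : M} :
    v ∈ p2_space f g α β ↔ ∀ i, f i v = α • v ∧ g i v = β • v := Iff.rfl

/-- the operators `ρ x` for which `κ` has `q`-th power one preserve the joint eigenspace -/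
theorem p2_space_inv {K G M ι : Type} [Field K] [Group G] [AddCommGroup M] [Module K M]
    [Nontrivial M] (ρ : G →* Module.End K M) {κ : G → G → K}
    (hκ : ∀ g h v, ρ ⁅g, h⁆ v = κ g h • v) {q : ℕ} (a b : ι → G) (α β : K) {x : G}
    (hx : ∀ i, κ (a i) x ^ q = 1 ∧ κ (b i) x ^ q = 1) {v : M}
    (hv : v ∈ p2_space (fun i => ρ (a i) ^ q) (fun i => ρ (b i) ^ q) α β) :
    ρ x v ∈ p2_space (fun i => ρ (a i) ^ q) (fun i => ρ (b i) ^ q) α β := by
  have key : ∀ y : G, κ y x ^ q = 1 → ∀ γ : K, (ρ y ^ q) v = γ • v →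
      (ρ y ^ q) (ρ x v) = γ • ρ x v := by
    intro y hy γ hγ
    have h1 : ρ (y ^ q) * ρ x = ρ x * ρ (y ^ q) := by
      rw [p2_comm ρ (hκ (y ^ q) x), p2_pow_left ρ hκ, hy, one_smul]
    rw [← map_pow, ← Module.End.mul_apply, h1, Module.End.mul_apply, map_pow, hγ, map_smul]
  intro i
  exact ⟨key (a i) (hx i).1 α (hv i).1, key (b i) (hx i).2 β (hv i).2⟩

/-- on the joint eigenspace `(ρ (x * y⁻¹)) ^ q = 1` -/
theorem p2_quot_pow {K G M : Type} [Field K] [Group G] [AddCommGroup M] [Module K M]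
    [Nontrivial M] (ρ : G →* Module.End K M) {κ : G → G → K}
    (hκ : ∀ g h v, ρ ⁅g, h⁆ v = κ g h • v) {q : ℕ} {x y : G} (hxy : κ x y = 1) {α : K}
    (hα : α ≠ 0) {v : M} (hx : (ρ x ^ q) v = α • v) (hy : (ρ y ^ q) v = α • v) :
    (ρ (x * y⁻¹) ^ q) v = v := by
  have h1 : Commute (ρ x) (ρ y⁻¹) := by
    show ρ x * ρ y⁻¹ = ρ y⁻¹ * ρ x
    rw [p2_comm ρ (hκ x y⁻¹), p2_inv_right ρ hκ, hxy, inv_one, one_smul]
  have h2 : (ρ y⁻¹ ^ q) v = α⁻¹ • v := by
    have h3 : (ρ y⁻¹ ^ q) ((ρ y ^ q) v) = v := by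
      rw [← map_pow, ← map_pow, inv_pow]
      exact p2_inv_apply ρ (y ^ q) v
    rw [hy, map_smul] at h3
    rw [← h3, smul_smul, inv_mul_cancel₀ hα, one_smul, h3]
  rw [map_mul, h1.mul_pow, Module.End.mul_apply, h2, map_smul, hx, smul_smul,
    inv_mul_cancel₀ hα, one_smul]

/-- PROOF. For `g, h : G` let `κ g h : K` be the scalar by which `ρ ⁅g, h⁆` acts (unique as `M` is nontrivial). `ρ g * ρ h = κ g h • (ρ h * ρ g)`, so `κ` is multiplicative in both variables, `κ g g = 1`,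
`κ g h ^ e = 1`. Let `m' = 3 * m * e ^ 2` and `N = pairsBound e m'`. If `rad.index > N`, `pairs` gives `a, b : Fin m' → G`. All operators `ρ (a i) ^ q`, `ρ (b i) ^ q` commute with all `ρ (a j)`, `ρ (b j)`
(because `ζ ^ q = 1`). Choose a joint eigenvector of the `ρ (a i) ^ q`, `ρ (b i) ^ q` (`exists_joint_eigenvector`), with eigenvalues `α i`, `β i` (`e`-th roots of unity), and let `M₁ ≠ ⊥` be the joint eigenspace
`{v | ρ (a i) ^ q v = α i • v, ρ (b i) ^ q v = β i • v}`; it is invariant under all `ρ (a j)`, `ρ (b j)`. There are at most `e ^ 2` pairs `(α i, β i)`, so (pigeonhole) there are `3 * m` indices with the same pair `(α, β)`.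
Group them in triples `(i, j, k)` of different indices, and for each triple let `a' = a i * (a j)⁻¹`, `b' = b i * (b k)⁻¹`. On `M₁`: `ρ a' ^ q = α * α⁻¹ = 1` (`ρ (a i)`, `ρ (a j)` commute), `ρ b' ^ q = 1`; `κ a' b' = κ (a i) (b i) = ζ`, and
for different triples all `κ` are `1`. `κ a'_x a'_y = 1`. -/
theorem pairs2 {K : Type} [Field K] [IsAlgClosed K] {q e : ℕ} (hq : q.Prime) (he : 0 < e) {ζ : K}
    (hζ : IsPrimitiveRoot ζ q) (m : ℕ) : ∃ N : ℕ, ∀ (G M : Type) [Group G] [Finite G] [AddCommGroup M] [Module K M]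
    [FiniteDimensional K M] [Nontrivial M] (ρ : G →* Module.End K M), IsPGroup q G → (∀ x : G, x ^ e = 1) →
    (∀ g h : G, ∃ μ : K, ∀ v, ρ ⁅g, h⁆ v = μ • v) → ∀ rad : Subgroup G, (∀ g, g ∈ rad ↔ ∀ h, ρ ⁅g, h⁆ = 1) →
    N < rad.index →
    ∃ (a b : Fin m → G) (M₁ : Submodule K M), M₁ ≠ ⊥ ∧
      (∀ i, ∀ v ∈ M₁, ρ (a i) v ∈ M₁ ∧ ρ (b i) v ∈ M₁ ∧ (ρ (a i) ^ q) v = v ∧ (ρ (b i) ^ q) v = v) ∧
      (∀ i, ∀ v, ρ ⁅a i, b i⁆ v = ζ • v) ∧
      (∀ i j, ρ (a i) * ρ (a j) = ρ (a j) * ρ (a i) ∧ ρ (b i) * ρ (b j) = ρ (b j) * ρ (b i)) ∧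
      (∀ i j, i ≠ j → ρ (a i) * ρ (b j) = ρ (b j) * ρ (a i)) := by
  classical
  refine ⟨pairsBound e (e * e * (m * 3)), ?_⟩
  intro G M _ _ _ _ _ _ ρ hG hexp hsc rad hrad hN
  choose κ hκ using hsc
  have hκe : ∀ g h, κ g h ^ e = 1 := by
    intro g h
    rw [← p2_pow_left ρ hκ, hexp, p2_one_left ρ hκ]
  have hrad' : ∀ g, g ∈ rad ↔ ∀ h, κ g h = 1 := by
    intro g
    rw [hrad]
    refine forall_congr' fun h => ?_
    constructor
    · intro h1
      obtain ⟨w, hw⟩ := exists_ne (0 : M)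
      have h2 := hκ g h w
      rw [h1, Module.End.one_apply] at h2
      have h3 : (κ g h) • w = (1 : K) • w := by rw [← h2, one_smul]
      exact smul_left_injective K hw h3
    · intro h1
      ext v
      rw [hκ, h1, one_smul, Module.End.one_apply]
  obtain ⟨a, b, hab⟩ := pairs hq he hζ (e * e * (m * 3)) G hG κ hκe (p2_mul_left ρ hκ)
    (p2_mul_right ρ hκ) (p2_self ρ hκ) rad hrad' hN
  have hζq : ζ ^ q = 1 := hζ.pow_eq_one
  have haa : ∀ i j, κ (a i) (a j) = 1 := fun i j => (hab i j).1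
  have hbb : ∀ i j, κ (b i) (b j) = 1 := fun i j => (hab i j).2.1
  have hab1 : ∀ i, κ (a i) (b i) = ζ := fun i => by rw [(hab i i).2.2, if_pos rfl]
  have hab0 : ∀ i j, i ≠ j → κ (a i) (b j) = 1 := fun i j h => by rw [(hab i j).2.2, if_neg h]
  have habq : ∀ i j, κ (a i) (b j) ^ q = 1 := by
    intro i j
    by_cases h : i = j
    · rw [h, hab1, hζq]
    · rw [hab0 i j h, one_pow]
  have hbaq : ∀ i j, κ (b i) (a j) ^ q = 1 := by
    intro i j
    rw [p2_swap ρ hκ (a j) (b i), inv_pow, habq, inv_one]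
  -- the operators `ρ (a i) ^ q`, `ρ (b i) ^ q`
  have hcomm1 : ∀ x y : G, κ x y ^ q = 1 → ρ (x ^ q) * ρ (y ^ q) = ρ (y ^ q) * ρ (x ^ q) := by
    intro x y hxy
    have h1 : κ (x ^ q) (y ^ q) = 1 := by
      rw [p2_swap ρ hκ (y ^ q) (x ^ q), p2_pow_left ρ hκ, p2_swap ρ hκ (x ^ q) y,
        p2_pow_left ρ hκ, hxy, inv_one, one_pow, inv_one]
    rw [p2_comm ρ (hκ (x ^ q) (y ^ q)), h1, one_smul]
  obtain ⟨v₀, -, hv₀, hev⟩ := exists_joint_eigenvector (R := K) (V := M)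
    (ι := Fin (e * e * (m * 3)) ⊕ Fin (e * e * (m * 3)))
    (fun i => Sum.elim (fun i => ρ (a i ^ q)) (fun i => ρ (b i ^ q)) i) (W := ⊤) top_ne_bot
    (fun _ _ _ => trivial) (by
      intro i j v _
      have h1 : ∀ x y : G, κ x y ^ q = 1 → ρ (x ^ q) (ρ (y ^ q) v) = ρ (y ^ q) (ρ (x ^ q) v) := by
        intro x y hxy
        rw [← Module.End.mul_apply, hcomm1 x y hxy, Module.End.mul_apply]
      rcases i with i | i <;> rcases j with j | j
      · exact h1 _ _ (by rw [haa, one_pow])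
      · exact h1 _ _ (habq i j)
      · exact h1 _ _ (hbaq i j)
      · exact h1 _ _ (by rw [hbb, one_pow]))
  have hev1 : ∀ i, ∃ μ : K, ρ (a i ^ q) v₀ = μ • v₀ := fun i => hev (Sum.inl i)
  have hev2 : ∀ i, ∃ μ : K, ρ (b i ^ q) v₀ = μ • v₀ := fun i => hev (Sum.inr i)
  choose α hα using hev1
  choose β hβ using hev2
  have hroot : ∀ (x : G) (μ : K), ρ x v₀ = μ • v₀ → μ ^ e = 1 := by
    intro x μ hμ
    have h1 : ∀ n : ℕ, ρ (x ^ n) v₀ = μ ^ n • v₀ := by
      intro n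
      induction n with
      | zero => rw [pow_zero, map_one, Module.End.one_apply, pow_zero, one_smul]
      | succ n ih =>
        rw [pow_succ, map_mul, Module.End.mul_apply, hμ, map_smul, ih, smul_smul, pow_succ' μ]
    have h2 := h1 e
    rw [hexp, map_one, Module.End.one_apply] at h2
    have h3 : (μ ^ e) • v₀ = (1 : K) • v₀ := by rw [← h2, one_smul]
    exact smul_left_injective K hv₀ h3
  obtain ⟨φ, hφ, α₀, β₀, hφe⟩ := p2_pigeon he (m * 3) α β (fun i => hroot _ _ (hα i))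
    (fun i => hroot _ _ (hβ i))
  -- the indices of the triples
  obtain ⟨idx, hidx, hidxe⟩ : ∃ idx : Fin m → Fin 3 → Fin (e * e * (m * 3)),
      (∀ x c y c', idx x c = idx y c' → x = y ∧ c = c') ∧
      ∀ x c, α (idx x c) = α₀ ∧ β (idx x c) = β₀ := by
    refine ⟨fun x c => φ (finProdFinEquiv (x, c)), ?_, fun x c => hφe _⟩
    intro x c y c' h
    have h1 := finProdFinEquiv.injective (hφ h)
    exact ⟨congrArg Prod.fst h1, congrArg Prod.snd h1⟩
  have hv₀mem : v₀ ∈ p2_space (fun p : Fin m × Fin 3 => ρ (a (idx p.1 p.2)) ^ q)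
      (fun p : Fin m × Fin 3 => ρ (b (idx p.1 p.2)) ^ q) α₀ β₀ := by
    intro p
    refine ⟨?_, ?_⟩
    · show (ρ (a (idx p.1 p.2)) ^ q) v₀ = α₀ • v₀
      rw [← map_pow, hα, (hidxe p.1 p.2).1]
    · show (ρ (b (idx p.1 p.2)) ^ q) v₀ = β₀ • v₀
      rw [← map_pow, hβ, (hidxe p.1 p.2).2]
  rcases Nat.eq_zero_or_pos m with hm0 | hm0
  · subst hm0
    refine ⟨fun i => i.elim0, fun i => i.elim0, ⊤, top_ne_bot, fun i => i.elim0, fun i => i.elim0,
      fun i => i.elim0, fun i => i.elim0⟩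
  have hα₀ : α₀ ≠ 0 := by
    intro h0
    have h1 := hroot _ _ (hα (idx ⟨0, hm0⟩ 0))
    rw [(hidxe _ _).1, h0, zero_pow he.ne'] at h1
    exact zero_ne_one h1
  have hβ₀ : β₀ ≠ 0 := by
    intro h0
    have h1 := hroot _ _ (hβ (idx ⟨0, hm0⟩ 0))
    rw [(hidxe _ _).2, h0, zero_pow he.ne'] at h1
    exact zero_ne_one h1
  have hne01 : (0 : Fin 3) ≠ 1 := by decide
  have hne02 : (0 : Fin 3) ≠ 2 := by decide
  have hne12 : (1 : Fin 3) ≠ 2 := by decide
  -- the new pairs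
  have hκab : ∀ x y, κ (a (idx x 0) * (a (idx x 1))⁻¹) (b (idx y 0) * (b (idx y 2))⁻¹) =
      if x = y then ζ else 1 := by
    intro x y
    rw [p2_mul_left ρ hκ, p2_mul_right ρ hκ, p2_mul_right ρ hκ, p2_inv_left ρ hκ,
      p2_inv_left ρ hκ, p2_inv_right ρ hκ, p2_inv_right ρ hκ]
    by_cases hxy : x = y
    · subst hxy
      rw [if_pos rfl, hab1, hab0 (idx x 0) (idx x 2) (fun h => hne02 (hidx _ _ _ _ h).2),
        hab0 (idx x 1) (idx x 0) (fun h => hne01.symm (hidx _ _ _ _ h).2),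
        hab0 (idx x 1) (idx x 2) (fun h => hne12 (hidx _ _ _ _ h).2)]
      simp
    · rw [if_neg hxy, hab0 (idx x 0) (idx y 0) (fun h => hxy (hidx _ _ _ _ h).1),
        hab0 (idx x 0) (idx y 2) (fun h => hxy (hidx _ _ _ _ h).1),
        hab0 (idx x 1) (idx y 0) (fun h => hxy (hidx _ _ _ _ h).1),
        hab0 (idx x 1) (idx y 2) (fun h => hxy (hidx _ _ _ _ h).1)]
      simp
  have hκaa : ∀ x y, κ (a (idx x 0) * (a (idx x 1))⁻¹) (a (idx y 0) * (a (idx y 1))⁻¹) = 1 := by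
    intro x y
    rw [p2_mul_left ρ hκ, p2_mul_right ρ hκ, p2_mul_right ρ hκ, p2_inv_left ρ hκ,
      p2_inv_left ρ hκ, p2_inv_right ρ hκ, p2_inv_right ρ hκ, haa, haa, haa, haa]
    simp
  have hκbb : ∀ x y, κ (b (idx x 0) * (b (idx x 2))⁻¹) (b (idx y 0) * (b (idx y 2))⁻¹) = 1 := by
    intro x y
    rw [p2_mul_left ρ hκ, p2_mul_right ρ hκ, p2_mul_right ρ hκ, p2_inv_left ρ hκ,
      p2_inv_left ρ hκ, p2_inv_right ρ hκ, p2_inv_right ρ hκ, hbb, hbb, hbb, hbb]
    simp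
  refine ⟨fun x => a (idx x 0) * (a (idx x 1))⁻¹, fun x => b (idx x 0) * (b (idx x 2))⁻¹,
    p2_space (fun p : Fin m × Fin 3 => ρ (a (idx p.1 p.2)) ^ q)
      (fun p : Fin m × Fin 3 => ρ (b (idx p.1 p.2)) ^ q) α₀ β₀, ?_, ?_, ?_, ?_, ?_⟩
  · intro h
    rw [h, Submodule.mem_bot] at hv₀mem
    exact hv₀ hv₀mem
  · intro x v hv
    refine ⟨p2_space_inv ρ hκ _ _ α₀ β₀ (fun p => ⟨?_, ?_⟩) hv,
      p2_space_inv ρ hκ _ _ α₀ β₀ (fun p => ⟨?_, ?_⟩) hv, ?_, ?_⟩
    · rw [p2_mul_right ρ hκ, p2_inv_right ρ hκ, haa, haa]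
      simp
    · rw [p2_mul_right ρ hκ, p2_inv_right ρ hκ, mul_pow, inv_pow, hbaq, hbaq]
      simp
    · rw [p2_mul_right ρ hκ, p2_inv_right ρ hκ, mul_pow, inv_pow, habq, habq]
      simp
    · rw [p2_mul_right ρ hκ, p2_inv_right ρ hκ, hbb, hbb]
      simp
    · exact p2_quot_pow ρ hκ (haa _ _) hα₀ (hv (x, 0)).1 (hv (x, 1)).1
    · exact p2_quot_pow ρ hκ (hbb _ _) hβ₀ (hv (x, 0)).2 (hv (x, 2)).2
  · intro x v
    rw [hκ, hκab, if_pos rfl]
  · intro x y
    refine ⟨?_, ?_⟩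
    · rw [p2_comm ρ (hκ _ _), hκaa, one_smul]
    · rw [p2_comm ρ (hκ _ _), hκbb, one_smul]
  · intro x y hxy
    rw [p2_comm ρ (hκ _ _), hκab, if_neg hxy, one_smul]

/-- PROOF. The operators `ρ (a i)` commute: take a joint eigenvector `v' ∈ M₁` (`exists_joint_eigenvector`), `ρ (a i) v' = ζ ^ (k i) • v'` (`ρ (a i) ^ q = 1` on `M₁`, so the eigenvalue is a
`q`-th root of unity, a power of `ζ`). `ρ (a i) ρ (b i) = ζ • ρ (b i) ρ (a i)`: so applying `ρ (b i)` changes `k i` into `k i + 1` and does not change the other `k j`. So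
`v = ∏ i, ρ (b i) ^ (q - k i) v'` (with `k i < q`) works; it is nonzero because the `ρ (b i)` are invertible. -/
theorem exists_fixed_vector {K : Type} [Field K] [IsAlgClosed K] {q : ℕ} (hq : q.Prime) {ζ : K}
    (hζ : IsPrimitiveRoot ζ q) {m : ℕ} {G M : Type} [Group G] [AddCommGroup M] [Module K M]
    [FiniteDimensional K M] (ρ : G →* Module.End K M) (a b : Fin m → G) (M₁ : Submodule K M) (hM : M₁ ≠ ⊥)
    (h1 : ∀ i, ∀ v ∈ M₁, ρ (a i) v ∈ M₁ ∧ ρ (b i) v ∈ M₁ ∧ (ρ (a i) ^ q) v = v ∧ (ρ (b i) ^ q) v = v)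
    (h2 : ∀ i, ∀ v, ρ ⁅a i, b i⁆ v = ζ • v)
    (h3 : ∀ i j, ρ (a i) * ρ (a j) = ρ (a j) * ρ (a i) ∧ ρ (b i) * ρ (b j) = ρ (b j) * ρ (b i))
    (h4 : ∀ i j, i ≠ j → ρ (a i) * ρ (b j) = ρ (b j) * ρ (a i)) :
    ∃ v ∈ M₁, v ≠ 0 ∧ ∀ i, ρ (a i) v = v := by
  classical
  have : NeZero q := ⟨hq.ne_zero⟩
  obtain ⟨v₀, hv₀, hne₀, hev₀⟩ := exists_joint_eigenvector (R := K) (V := M) (ι := Fin m)
    (fun i => ρ (a i)) hM (fun i v hv => (h1 i v hv).1) (by
      intro i j v _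
      rw [← Module.End.mul_apply, (h3 i j).1, Module.End.mul_apply])
  have key : ∀ s : Finset (Fin m), ∃ v ∈ M₁, v ≠ 0 ∧ (∀ i, ∃ μ : K, ρ (a i) v = μ • v) ∧
      ∀ i ∈ s, ρ (a i) v = v := by
    intro s
    induction s using Finset.induction_on with
    | empty => exact ⟨v₀, hv₀, hne₀, hev₀, fun i hi => by simp at hi⟩
    | insert i s _ ih =>
      obtain ⟨v, hv, hne, hev, hs⟩ := ih
      obtain ⟨μ, hμ⟩ := hev i
      have hμq : μ ^ q = 1 := by
        have e1 : ∀ n : ℕ, (ρ (a i) ^ n) v = μ ^ n • v := by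
          intro n
          induction n with
          | zero => rw [pow_zero, pow_zero, Module.End.one_apply, one_smul]
          | succ n ih =>
            rw [pow_succ, Module.End.mul_apply, hμ, map_smul, ih, smul_smul, pow_succ' μ]
        have e2 := e1 q
        rw [(h1 i v hv).2.2.1] at e2
        have e3 : (μ ^ q) • v = (1 : K) • v := by rw [← e2, one_smul]
        exact smul_left_injective K hne e3
      obtain ⟨k, hk, hζk⟩ := hζ.eq_pow_of_pow_eq_one hμq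
      -- powers of `ρ (b i)`
      have hmem : ∀ n : ℕ, (ρ (b i) ^ n) v ∈ M₁ := by
        intro n
        induction n with
        | zero => exact hv
        | succ n ih =>
          rw [pow_succ', Module.End.mul_apply]
          exact (h1 i _ ih).2.1
      have hnz : ∀ n : ℕ, (ρ (b i) ^ n) v ≠ 0 := by
        intro n
        rw [← map_pow]
        exact p2_ne ρ hne
      have hsame : ∀ n : ℕ, ρ (a i) ((ρ (b i) ^ n) v) = (ζ ^ n * μ) • (ρ (b i) ^ n) v := by
        intro n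
        induction n with
        | zero => rw [pow_zero, pow_zero, Module.End.one_apply, one_mul, hμ]
        | succ n ih =>
          rw [pow_succ', Module.End.mul_apply, ← Module.End.mul_apply (ρ (a i)),
            p2_comm ρ (h2 i), LinearMap.smul_apply, Module.End.mul_apply, ih, map_smul, smul_smul,
            pow_succ' ζ, mul_assoc]
      have hoth : ∀ j, j ≠ i → ∀ ν : K, ρ (a j) v = ν • v → ∀ n : ℕ,
          ρ (a j) ((ρ (b i) ^ n) v) = ν • (ρ (b i) ^ n) v := by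
        intro j hj ν hν n
        induction n with
        | zero => rw [pow_zero, Module.End.one_apply, hν]
        | succ n ih =>
          rw [pow_succ', Module.End.mul_apply, ← Module.End.mul_apply (ρ (a j)), h4 j i hj,
            Module.End.mul_apply, ih, map_smul]
      refine ⟨(ρ (b i) ^ (q - k)) v, hmem _, hnz _, fun j => ?_, fun j hj => ?_⟩
      · by_cases hji : j = i
        · subst hji
          exact ⟨_, hsame _⟩
        · obtain ⟨ν, hν⟩ := hev j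
          exact ⟨ν, hoth j hji ν hν _⟩
      · by_cases hji : j = i
        · subst hji
          have e1 : ζ ^ (q - k) * μ = 1 := by
            rw [← hζk, ← pow_add, Nat.sub_add_cancel hk.le, hζ.pow_eq_one]
          rw [hsame, e1, one_smul]
        · have hjs : j ∈ s := (Finset.mem_insert.1 hj).resolve_left hji
          have e1 := hoth j hji 1 (by rw [hs j hjs, one_smul]) (q - k)
          rw [e1, one_smul]
  obtain ⟨v, hv, hne, _, hs⟩ := key Finset.univ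
  exact ⟨v, hv, hne, fun i => hs i (Finset.mem_univ i)⟩

end Pool.Agent.HForm
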