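import Pool.Agent.Lib_MP_4009a7_al.Heis
import Pool.Agent.Lib_MP_4009a7_al.Pairs2
import Pool.Agent.Lib_MP_4009a7_al.EVC

/-!
# Piece CL: groups whose commutators act by scalars
-/

set_option autoImplicit false

open scoped commutatorElement

namespace Pool.Agent.HForm

private theorem cl_pow_val {R : Type*} [Monoid R] {q : ℕ} {u : R} (hu : u ^ q = 1)
    (n : ℕ) : u ^ ((n : ZMod q)).val = u ^ n := by
  rw [ZMod.val_natCast]
  conv_rhs => rw [← Nat.mod_add_div n q]
  rw [pow_add, pow_mul, hu, one_pow, mul_one]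

private theorem cl_val_add {R : Type*} [Monoid R] {q : ℕ} [NeZero q] {u : R} (hu : u ^ q = 1)
    (a b : ZMod q) : u ^ (a + b).val = u ^ a.val * u ^ b.val := by
  have h : a + b = ((a.val + b.val : ℕ) : ZMod q) := by
    push_cast
    rw [ZMod.natCast_zmod_val, ZMod.natCast_zmod_val]
  rw [h, cl_pow_val hu, pow_add]

private theorem cl_val_mul {R : Type*} [Monoid R] {q : ℕ} [NeZero q] {u : R} (hu : u ^ q = 1)
    (a b : ZMod q) : u ^ (a * b).val = u ^ (a.val * b.val) := by
  have h : a * b = ((a.val * b.val : ℕ) : ZMod q) := by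
    push_cast
    rw [ZMod.natCast_zmod_val, ZMod.natCast_zmod_val]
  rw [h, cl_pow_val hu]

private theorem cl_comm1 {K : Type} [Field K] {ζ : K} {M : Type} [AddCommGroup M] [Module K M]
    {A B : Module.End K M} (hAB : A * B = ζ • (B * A)) (y : ℕ) :
    A * B ^ y = ζ ^ y • (B ^ y * A) := by
  induction y with
  | zero => simp
  | succ y ih =>
    rw [pow_succ, ← mul_assoc, ih, smul_mul_assoc, mul_assoc, hAB, mul_smul_comm, smul_smul,
      ← pow_succ, ← mul_assoc]

private theorem cl_comm2 {K : Type} [Field K] {ζ : K} {M : Type} [AddCommGroup M] [Module K M]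
    {A B : Module.End K M} (hAB : A * B = ζ • (B * A)) (x y : ℕ) :
    A ^ x * B ^ y = ζ ^ (x * y) • (B ^ y * A ^ x) := by
  induction x with
  | zero => simp
  | succ x ih =>
    rw [pow_succ, mul_assoc, cl_comm1 hAB, mul_smul_comm, ← mul_assoc, ih, smul_mul_assoc,
      smul_smul, mul_assoc, ← pow_succ]
    congr 1
    rw [← pow_add]
    congr 1
    ring

/-- PROOF. With `A B = ζ B A` on `M₁`, `A ^ q = B ^ q = 1` on `M₁`, the map `⟨x, y, z⟩ ↦ ζ ^ z • B ^ y * A ^ x` (exponents: `ZMod.val`) is a homomorphism to `Module.End K M₁`: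
`(B ^ y A ^ x) (B ^ y' A ^ x') = ζ ^ (x y') • B ^ (y + y') A ^ (x + x')`. -/
theorem exists_heis_rep {K : Type} [Field K] {q : ℕ} (hq : q.Prime) {ζ : K} (hζ : ζ ^ q = 1) {M : Type}
    [AddCommGroup M] [Module K M] (A B : Module.End K M) (hA : A ^ q = 1) (hB : B ^ q = 1)
    (hAB : A * B = ζ • (B * A)) :
    ∃ Θ : Heis q →* Module.End K M, ∀ a : Heis q, Θ a = ζ ^ a.z.val • (B ^ a.y.val * A ^ a.x.val) := by
  have : NeZero q := ⟨hq.ne_zero⟩
  refine ⟨⟨⟨fun a => ζ ^ a.z.val • (B ^ a.y.val * A ^ a.x.val), ?_⟩, ?_⟩, fun a => rfl⟩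
  · simp
  · intro a b
    simp only [Heis.mul_x, Heis.mul_y, Heis.mul_z]
    rw [cl_val_add hA, cl_val_add hB, cl_val_add hζ, cl_val_add hζ, cl_val_mul hζ,
      smul_mul_smul_comm]
    have h1 : B ^ a.y.val * A ^ a.x.val * (B ^ b.y.val * A ^ b.x.val) =
        ζ ^ (a.x.val * b.y.val) • (B ^ a.y.val * B ^ b.y.val * (A ^ a.x.val * A ^ b.x.val)) := by
      calc B ^ a.y.val * A ^ a.x.val * (B ^ b.y.val * A ^ b.x.val)
          = B ^ a.y.val * (A ^ a.x.val * B ^ b.y.val) * A ^ b.x.val := by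
            simp only [mul_assoc]
        _ = _ := by
            rw [cl_comm2 hAB, mul_smul_comm, smul_mul_assoc]
            simp only [mul_assoc]
    rw [h1, smul_smul]

private theorem cl_lift_apply {n m : ℕ} {N : Type} [Group N] (σ : Fin n → Fin m → N)
    (g : FreeGroup (Fin n)) (l : Fin m) :
    FreeGroup.lift σ g l = FreeGroup.lift (fun k => σ k l) g := by
  have h : (Pi.evalMonoidHom (fun _ : Fin m => N) l).comp (FreeGroup.lift σ) =
      FreeGroup.lift (fun k => σ k l) := by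
    ext k
    simp
  exact DFunLike.congr_fun h g

/-- the projection `⟨x, y, z⟩ ↦ ⟨0, y, 0⟩` -/
private def clY (q : ℕ) : Heis q →* Heis q where
  toFun a := ⟨0, a.y, 0⟩
  map_one' := rfl
  map_mul' a b := by ext <;> simp

private theorem cl_lift_Y {q n : ℕ} (s : Fin n → Heis q) (g : FreeGroup (Fin n)) :
    FreeGroup.lift (fun k => (⟨0, (s k).y, 0⟩ : Heis q)) g = ⟨0, (FreeGroup.lift s g).y, 0⟩ := by
  have h : FreeGroup.lift (fun k => (⟨0, (s k).y, 0⟩ : Heis q)) =
      (clY q).comp (FreeGroup.lift s) := by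
    ext k <;> simp [clY]
  rw [h]
  rfl

/-- the main formula: the joint action of several commuting Heisenberg groups on a vector fixed by the
`⟨x, 0, 0⟩` -/
private theorem cl_main {K : Type} [Field K] {q m : ℕ} {ζ : K} (hζ1 : ζ ^ q = 1) [NeZero q]
    {M : Type} [AddCommGroup M] [Module K M] (A B : Fin m → Module.End K M)
    (Θ : ∀ _ : Fin m, Heis q →* Module.End K M)
    (hΘ : ∀ l a, Θ l a = ζ ^ a.z.val • (B l ^ a.y.val * A l ^ a.x.val))
    (hc : Pairwise fun i j : Fin m => ∀ x y : Heis q, Commute (Θ i x) (Θ j y))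
    {v : M} (hv : ∀ l, A l v = v) (τ : Fin m → Heis q) :
    MonoidHom.noncommPiCoprod Θ hc τ v = (∏ l, ζ ^ (τ l).z.val) •
      MonoidHom.noncommPiCoprod Θ hc (fun l => ⟨0, (τ l).y, 0⟩) v := by
  have hpow : ∀ l, ∀ k : ℕ, (A l ^ k) v = v := by
    intro l k
    induction k with
    | zero => simp
    | succ k ih => rw [pow_succ, Module.End.mul_apply, hv, ih]
  have hdec : τ = (fun l => (⟨0, 0, (τ l).z⟩ : Heis q)) * (fun l => (⟨0, (τ l).y, 0⟩ : Heis q)) *
      (fun l => (⟨(τ l).x, 0, 0⟩ : Heis q)) := by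
    funext l
    ext <;> simp
  have hX : MonoidHom.noncommPiCoprod Θ hc (fun l => (⟨(τ l).x, 0, 0⟩ : Heis q)) v = v := by
    change (Finset.univ.noncommProd (fun i => Θ i (⟨(τ i).x, 0, 0⟩ : Heis q))
      (fun _ _ _ _ h => hc h _ _)) v = v
    refine Finset.noncommProd_induction _ _ _ (fun E : Module.End K M => E v = v) ?_ ?_ ?_
    · intro E E' h1 h2
      rw [Module.End.mul_apply, h2, h1]
    · simp
    · intro l _
      rw [hΘ]
      simp [hpow]
  have hZ : MonoidHom.noncommPiCoprod Θ hc (fun l => (⟨0, 0, (τ l).z⟩ : Heis q)) =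
      (∏ l, ζ ^ (τ l).z.val) • (1 : Module.End K M) := by
    have h1 : (algebraMap K (Module.End K M)) (∏ l, ζ ^ (τ l).z.val) =
        (∏ l, ζ ^ (τ l).z.val) • (1 : Module.End K M) := Algebra.algebraMap_eq_smul_one _
    rw [← h1, ← Finset.noncommProd_eq_prod, Finset.map_noncommProd]
    change Finset.univ.noncommProd (fun i => Θ i (⟨0, 0, (τ i).z⟩ : Heis q))
      (fun _ _ _ _ h => hc h _ _) = _
    refine Finset.noncommProd_congr rfl ?_ _
    intro l _
    rw [hΘ, Algebra.algebraMap_eq_smul_one]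
    simp
  conv_lhs => rw [hdec]
  rw [map_mul, map_mul, Module.End.mul_apply, Module.End.mul_apply, hX, hZ]
  simp

/-- PROOF. Let `m` be at least `1` and at least all `(fox i w).support.card`. Let `N` be from `pairs2`. Suppose `N < rad.index`; we get `a`, `b`, `M₁` from `pairs2` and `v` from `exists_fixed_vector`. Restrict the operators to `M₁`:
`A l = ρ (a l)|M₁`, `B l = ρ (b l)|M₁`. By `exists_heis_rep` there are `Θ l : Heis q →* Module.End K M₁`; they commute for different `l`, so there is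
`Θ : (Fin m → Heis q) →* Module.End K M₁` (`MonoidHom.noncommPiCoprod`). For `σ : Fin n → (Fin m → Heis q)` there is `t : Fin n → G` with `ρ (t k)|M₁ = Θ (σ k)`: the product over `l` of
`⁅a l, b l⁆ ^ z * b l ^ y * a l ^ x`. So `ρ (lift t g) = Θ (lift σ g)` on `M₁` for all words `g` (the set of pairs `(h, τ)` with `ρ h = Θ τ` on `M₁` is a subgroup). As `A l v = v`:
`Θ τ v = (∏ l, ζ ^ (τ l).z.val) • (∏ l, B l ^ (τ l).y.val) v`. We apply `block_kills` with `E = TT q`, the tests `T l = (Fin n → Heis q)`, `ι l = ZMod q`, `c l σ g = (lift σ g).y`,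
`φ l σ g = ζ ^ (lift σ g).z.val`, `b c = (∏ l, B l ^ (c l).val) v`. Linear independence: `A l (b c) = ζ ^ (c l).val • b c` (`linearIndependent_of_weights`; `ζ` primitive). `hinv`: `heis_TT`.
`hforget`: `σ' k = ⟨0, (σ k).y, 0⟩`: `lift σ' g = ⟨0, (lift σ g).y, 0⟩` (the map `y ↦ ⟨0, y, 0⟩` is a homomorphism, as is `a ↦ a.y`). `hsep`: `heis_sep` (and `ζ ^ z.val` determines `z`, `ζ` primitive).
The conclusion `Kills p (TT q) w` contradicts the hypothesis. -/
theorem cl {K : Type} [Field K] [IsAlgClosed K] {p q : ℕ} [Fact p.Prime] [CharP K p] (hq : q.Prime) (hpq : p ≠ q)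
    {e : ℕ} (he : 0 < e) {n : ℕ} (w : FreeGroup (Fin n)) (hw : ¬ Kills p (TT q) w) : ∃ N : ℕ,
    ∀ (G M : Type) [Group G] [Finite G] [AddCommGroup M] [Module K M]
    [FiniteDimensional K M] [Nontrivial M] (ρ : G →* Module.End K M), IsPGroup q G → (∀ x : G, x ^ e = 1) →
    Sat w ρ → (∀ g h : G, ∃ μ : K, ∀ v, ρ ⁅g, h⁆ v = μ • v) →
    ∀ rad : Subgroup G, (∀ g, g ∈ rad ↔ ∀ h, ρ ⁅g, h⁆ = 1) → rad.index ≤ N := by
  classical
  have : NeZero q := ⟨hq.ne_zero⟩
  have hp : p.Prime := Fact.out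
  have : NeZero ((q : ℕ) : K) := by
    refine ⟨?_⟩
    intro h0
    rw [CharP.cast_eq_zero_iff K p] at h0
    rcases (Nat.dvd_prime hq).1 h0 with h1 | h1
    · exact hp.one_lt.ne' h1
    · exact hpq h1
  obtain ⟨ζ, hζ⟩ := HasEnoughRootsOfUnity.exists_primitiveRoot K q
  set m : ℕ := max 1 (Finset.univ.sup fun i : Fin n => (fox i w).support.card) with hm
  have hm1 : 1 ≤ m := le_max_left _ _
  have hmi : ∀ i, (fox i w).support.card ≤ m := fun i =>
    le_trans (Finset.le_sup (f := fun i : Fin n => (fox i w).support.card) (Finset.mem_univ i))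
      (le_max_right _ _)
  obtain ⟨N, hN⟩ := pairs2 hq he hζ m
  refine ⟨N, ?_⟩
  intro G M _ _ _ _ _ _ ρ hG hexp hsat hscal rad hrad
  by_contra hlt
  rw [not_le] at hlt
  obtain ⟨a, b, M₁, hM₁, h1, h2, h3, h4⟩ := hN G M ρ hG hexp hscal rad hrad hlt
  obtain ⟨v, hvM, hv0, hv⟩ := exists_fixed_vector hq hζ ρ a b M₁ hM₁ h1 h2 h3 h4
  apply hw
  have hζ1 : ζ ^ q = 1 := hζ.pow_eq_one
  let A : Fin m → Module.End K M₁ := fun l => (ρ (a l)).restrict (fun u hu => (h1 l u hu).1)
  let B : Fin m → Module.End K M₁ := fun l => (ρ (b l)).restrict (fun u hu => (h1 l u hu).2.1)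
  have hAc : ∀ l (u : M₁), ((A l u : M₁) : M) = ρ (a l) u := fun l u => rfl
  have hBc : ∀ l (u : M₁), ((B l u : M₁) : M) = ρ (b l) u := fun l u => rfl
  have hApow : ∀ l (k : ℕ) (u : M₁), (((A l ^ k) u : M₁) : M) = (ρ (a l) ^ k) u := by
    intro l k
    induction k with
    | zero => intro u; simp
    | succ k ih =>
      intro u
      rw [pow_succ, Module.End.mul_apply, ih, hAc, pow_succ, Module.End.mul_apply]
  have hBpow : ∀ l (k : ℕ) (u : M₁), (((B l ^ k) u : M₁) : M) = (ρ (b l) ^ k) u := by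
    intro l k
    induction k with
    | zero => intro u; simp
    | succ k ih =>
      intro u
      rw [pow_succ, Module.End.mul_apply, ih, hBc, pow_succ, Module.End.mul_apply]
  have hAq : ∀ l, A l ^ q = 1 := by
    intro l
    refine LinearMap.ext fun u => Subtype.ext ?_
    rw [hApow, (h1 l u u.2).2.2.1]
    rfl
  have hBq : ∀ l, B l ^ q = 1 := by
    intro l
    refine LinearMap.ext fun u => Subtype.ext ?_
    rw [hBpow, (h1 l u u.2).2.2.2]
    rfl
  have hABs : ∀ l, ∀ u : M, ρ (a l) (ρ (b l) u) = ζ • ρ (b l) (ρ (a l) u) := by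
    intro l u
    have h5 : ρ (a l) (ρ (b l) u) = ρ ⁅a l, b l⁆ (ρ (b l) (ρ (a l) u)) := by
      rw [← Module.End.mul_apply, ← Module.End.mul_apply, ← Module.End.mul_apply, ← map_mul,
        ← map_mul, ← map_mul]
      congr 2
      rw [commutatorElement_def]
      group
    rw [h5, h2]
  have hAB : ∀ l, A l * B l = ζ • (B l * A l) := by
    intro l
    refine LinearMap.ext fun u => Subtype.ext ?_
    change ρ (a l) (ρ (b l) u) = ζ • ρ (b l) (ρ (a l) u)
    exact hABs l u
  have hAA : ∀ i j, Commute (A i) (A j) := by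
    intro i j
    refine LinearMap.ext fun u => Subtype.ext ?_
    change (ρ (a i) * ρ (a j)) (u : M) = (ρ (a j) * ρ (a i)) (u : M)
    rw [(h3 i j).1]
  have hBB : ∀ i j, Commute (B i) (B j) := by
    intro i j
    refine LinearMap.ext fun u => Subtype.ext ?_
    change (ρ (b i) * ρ (b j)) (u : M) = (ρ (b j) * ρ (b i)) (u : M)
    rw [(h3 i j).2]
  have hABc : ∀ i j, i ≠ j → Commute (A i) (B j) := by
    intro i j hij
    refine LinearMap.ext fun u => Subtype.ext ?_
    change (ρ (a i) * ρ (b j)) (u : M) = (ρ (b j) * ρ (a i)) (u : M)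
    rw [h4 i j hij]
  choose Θ hΘ using fun l => exists_heis_rep hq hζ1 (A l) (B l) (hAq l) (hBq l) (hAB l)
  have hc : Pairwise fun i j : Fin m => ∀ x y : Heis q, Commute (Θ i x) (Θ j y) := by
    intro i j hij x y
    rw [hΘ, hΘ]
    refine Commute.smul_left (Commute.smul_right ?_ _) _
    refine Commute.mul_left ?_ ?_
    · refine Commute.mul_right ?_ ?_
      · exact (hBB i j).pow_pow _ _
      · exact ((hABc j i hij.symm).symm).pow_pow _ _
    · refine Commute.mul_right ?_ ?_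
      · exact (hABc i j hij).pow_pow _ _
      · exact (hAA i j).pow_pow _ _
  set Φ : (Fin m → Heis q) →* Module.End K M₁ := MonoidHom.noncommPiCoprod Θ hc with hΦ
  let v₁ : M₁ := ⟨v, hvM⟩
  have hv₁ : ∀ l, A l v₁ = v₁ := fun l => Subtype.ext (hv l)
  have hv₁0 : v₁ ≠ 0 := fun h => hv0 (congrArg Subtype.val h)
  have hMF : ∀ τ : Fin m → Heis q, Φ τ v₁ = (∏ l, ζ ^ (τ l).z.val) •
      Φ (fun l => ⟨0, (τ l).y, 0⟩) v₁ := fun τ =>
    cl_main hζ1 A B Θ hΘ hc hv₁ τ
  -- every operator `Φ τ` is given by a group element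
  have hex : ∀ τ : Fin m → Heis q, ∃ h : G, ∀ u : M₁, ρ h u = ((Φ τ u : M₁) : M) := by
    intro τ
    change ∃ h : G, ∀ u : M₁, ρ h u =
      (((Finset.univ.noncommProd (fun i => Θ i (τ i)) fun _ _ _ _ h => hc h _ _) u : M₁) : M)
    refine Finset.noncommProd_induction _ _ _
      (fun E : Module.End K M₁ => ∃ h : G, ∀ u : M₁, ρ h u = ((E u : M₁) : M)) ?_ ?_ ?_
    · rintro E E' ⟨h, hh⟩ ⟨h', hh'⟩
      refine ⟨h * h', fun u => ?_⟩
      rw [map_mul, Module.End.mul_apply, hh', hh]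
      rfl
    · exact ⟨1, fun u => by simp⟩
    · intro l _
      refine ⟨⁅a l, b l⁆ ^ (τ l).z.val * b l ^ (τ l).y.val * a l ^ (τ l).x.val, fun u => ?_⟩
      have hcz : ∀ (k : ℕ) (u : M), ρ (⁅a l, b l⁆ ^ k) u = ζ ^ k • u := by
        intro k
        induction k with
        | zero => intro u; simp
        | succ k ih =>
          intro u
          rw [pow_succ, map_mul, Module.End.mul_apply, h2, map_smul, ih, smul_smul, pow_succ,
            mul_comm]
      rw [map_mul, map_mul, Module.End.mul_apply, Module.End.mul_apply, hcz, map_pow, map_pow,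
        ← hApow, ← hBpow, hΘ]
      rfl
  choose γ hγ using hex
  -- words
  have hword : ∀ (σ : Fin n → Fin m → Heis q) (g : FreeGroup (Fin n)) (u : M₁),
      ρ (FreeGroup.lift (fun k => γ (σ k)) g) u = ((Φ (FreeGroup.lift σ g) u : M₁) : M) := by
    intro σ g
    induction g using FreeGroup.induction_on with
    | C1 => intro u; simp
    | of k => intro u; rw [FreeGroup.lift_apply_of, FreeGroup.lift_apply_of]; exact hγ _ u
    | inv_of k ih =>
      intro u
      have e1 : FreeGroup.lift (fun k => γ (σ k)) (FreeGroup.of k)⁻¹ = (γ (σ k))⁻¹ := by simp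
      have e2 : FreeGroup.lift σ (FreeGroup.of k)⁻¹ = (σ k)⁻¹ := by
        rw [MonoidHom.map_inv, FreeGroup.lift_apply_of]
      rw [e1, e2]
      have h5 : (u : M) = ρ (γ (σ k)) ((Φ (σ k)⁻¹ u : M₁) : M) := by
        rw [hγ]
        have : Φ (σ k) (Φ (σ k)⁻¹ u) = u := by
          rw [← Module.End.mul_apply, ← map_mul, mul_inv_cancel, map_one]
          rfl
        rw [this]
      conv_lhs => rw [h5]
      rw [← Module.End.mul_apply, ← map_mul, inv_mul_cancel, map_one]
      rfl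
    | mul x y hx hy =>
      intro u
      rw [MonoidHom.map_mul (FreeGroup.lift _), MonoidHom.map_mul (FreeGroup.lift σ), map_mul ρ,
        map_mul Φ, Module.End.mul_apply, Module.End.mul_apply, hy, hx]
  -- the vectors
  let bb : (Fin m → ZMod q) → M := fun y => ((Φ (fun l => ⟨0, y l, 0⟩) v₁ : M₁) : M)
  have hbb0 : ∀ y, bb y ≠ 0 := by
    intro y h0
    apply hv₁0
    have h5 : Φ (fun l => (⟨0, y l, 0⟩ : Heis q)) v₁ = 0 := Subtype.ext h0
    have h6 : v₁ = Φ (fun l => (⟨0, y l, 0⟩ : Heis q))⁻¹ (Φ (fun l => (⟨0, y l, 0⟩ : Heis q)) v₁) := by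
      rw [← Module.End.mul_apply, ← map_mul, inv_mul_cancel, map_one]
      rfl
    rw [h6, h5, map_zero]
  have hone : ((1 : ZMod q)).val = 1 := by
    have : Fact (1 < q) := ⟨hq.one_lt⟩
    exact ZMod.val_one q
  have heig : ∀ (y : Fin m → ZMod q) (l : Fin m), ρ (a l) (bb y) = ζ ^ (y l).val • bb y := by
    intro y l
    have h5 : A l = Φ (Pi.mulSingle l ⟨1, 0, 0⟩) := by
      rw [hΦ, MonoidHom.noncommPiCoprod_mulSingle, hΘ]
      simp [hone]
    have h6 : A l (Φ (fun l => (⟨0, y l, 0⟩ : Heis q)) v₁) = ζ ^ (y l).val •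
        Φ (fun l => (⟨0, y l, 0⟩ : Heis q)) v₁ := by
      rw [h5, ← Module.End.mul_apply, ← map_mul, hMF]
      have h7 : ∀ j, ((Pi.mulSingle l (⟨1, 0, 0⟩ : Heis q) * (fun l => (⟨0, y l, 0⟩ : Heis q)) :
          Fin m → Heis q) j).y = y j := by
        intro j
        rw [Pi.mul_apply, Heis.mul_y]
        by_cases hj : j = l
        · subst hj; simp
        · rw [Pi.mulSingle_eq_of_ne hj]; simp
      have h8 : ∀ j, ζ ^ ((Pi.mulSingle l (⟨1, 0, 0⟩ : Heis q) *
          (fun l => (⟨0, y l, 0⟩ : Heis q)) : Fin m → Heis q) j).z.val =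
          if j = l then ζ ^ (y l).val else 1 := by
        intro j
        rw [Pi.mul_apply, Heis.mul_z]
        by_cases hj : j = l
        · subst hj; simp
        · rw [Pi.mulSingle_eq_of_ne hj]; simp [hj]
      simp only [h7, h8]
      rw [Finset.prod_ite_eq' Finset.univ l]
      simp
    exact congrArg Subtype.val h6
  have hli : LinearIndependent K bb := by
    refine linearIndependent_of_weights (fun l => ρ (a l)) bb hbb0 (fun y l => ζ ^ (y l).val)
      heig ?_
    intro x y hxy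
    obtain ⟨j, hj⟩ := Function.ne_iff.1 hxy
    refine ⟨j, fun h5 => hj ?_⟩
    exact ZMod.val_injective q (hζ.pow_inj (ZMod.val_lt _) (ZMod.val_lt _) h5)
  refine block_kills (K := K) w ρ hsat (TT q) hm1 hmi (fun _ => Fin n → Heis q) (fun _ => ZMod q)
    (fun _ => inferInstance) (fun _ s g => (FreeGroup.lift s g).y)
    (fun _ s g => ζ ^ (FreeGroup.lift s g).z.val) bb hli v hv0 ?_ ?_ ?_ ?_
  · intro s
    refine ⟨fun k => γ (fun l => s l k), fun g => ?_⟩
    have h5 := hword (fun k l => s l k) g v₁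
    rw [hMF] at h5
    simp only [cl_lift_apply] at h5
    exact h5
  · intro l s g g' hgg
    have h5 := hgg (Heis q) (heis_TT hq) s
    simp only [h5, and_self]
  · intro l s
    refine ⟨fun k => ⟨0, (s k).y, 0⟩, fun g => ?_, fun g => ?_⟩
    · simp only [cl_lift_Y]
    · simp only [cl_lift_Y]
      simp
  · intro l g g' hgg
    by_contra hno
    push Not at hno
    apply hgg
    refine heis_sep hq g g' fun t => ?_
    obtain ⟨h5, h6⟩ := hno t
    exact ⟨h5, ZMod.val_injective q (hζ.pow_inj (ZMod.val_lt _) (ZMod.val_lt _) h6)⟩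

/-- the relative version: apply `cl` to the representation of `G` on `M₁`. -/
theorem cl' {K : Type} [Field K] [IsAlgClosed K] {p q : ℕ} [Fact p.Prime] [CharP K p] (hq : q.Prime) (hpq : p ≠ q)
    {e : ℕ} (he : 0 < e) {n : ℕ} (w : FreeGroup (Fin n)) (hw : ¬ Kills p (TT q) w) : ∃ N : ℕ,
    ∀ (T M : Type) [Group T] [Finite T] [AddCommGroup M] [Module K M]
    [FiniteDimensional K M] (ρ : T →* Module.End K M), IsPGroup q T → (∀ x : T, x ^ e = 1) →
    Sat w ρ → ∀ (G : Subgroup T) (M₁ : Submodule K M), M₁ ≠ ⊥ → (∀ g ∈ G, ∀ v ∈ M₁, ρ g v ∈ M₁) →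
    (∀ g ∈ G, ∀ h ∈ G, ∃ μ : K, ∀ v ∈ M₁, ρ ⁅g, h⁆ v = μ • v) →
    ∀ rad : Subgroup T, rad ≤ G → (∀ g ∈ G, (∀ h ∈ G, ∀ v ∈ M₁, ρ ⁅g, h⁆ v = v) → g ∈ rad) →
    rad.relIndex G ≤ N := by
  obtain ⟨N, hN⟩ := cl (K := K) hq hpq he w hw
  refine ⟨N, ?_⟩
  intro T M _ _ _ _ _ ρ hT hexp hsat G M₁ hM₁ hinv hscal rad hradG hrad
  have : Nontrivial M₁ := Submodule.nontrivial_iff_ne_bot.2 hM₁
  let ρ' : G →* Module.End K M₁ :=
    { toFun := fun g => (ρ g).restrict (fun v hv => hinv g g.2 v hv)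
      map_one' := by
        refine LinearMap.ext fun u => Subtype.ext ?_
        change ρ ((1 : G) : T) (u : M) = u
        simp
      map_mul' := by
        intro g h
        refine LinearMap.ext fun u => Subtype.ext ?_
        change ρ ((g * h : G) : T) (u : M) = ρ (g : T) (ρ (h : T) u)
        simp }
  have hρ' : ∀ (g : G) (u : M₁), ((ρ' g u : M₁) : M) = ρ (g : T) u := fun g u => rfl
  have hlift : ∀ (t : Fin n → G) (g : FreeGroup (Fin n)),
      ((FreeGroup.lift t g : G) : T) = FreeGroup.lift (fun k => (t k : T)) g := by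
    intro t g
    have h : (G.subtype).comp (FreeGroup.lift t) = FreeGroup.lift (fun k => (t k : T)) := by
      ext k
      simp
    exact DFunLike.congr_fun h g
  have hsat' : Sat w ρ' := by
    intro t
    obtain ⟨h1, h2⟩ := hsat (fun k => (t k : T))
    constructor
    · refine LinearMap.ext fun u => Subtype.ext ?_
      rw [hρ', hlift, h1]
      rfl
    · intro i
      refine LinearMap.ext fun u => Subtype.ext ?_
      have h3 : ∀ f : FreeGroup (Fin n) →₀ ℤ, ((ev ρ' t f u : M₁) : M) =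
          ev ρ (fun k => (t k : T)) f (u : M) := by
        intro f
        unfold ev
        rw [Finsupp.sum, Finsupp.sum, LinearMap.sum_apply, LinearMap.sum_apply,
          AddSubmonoidClass.coe_finsetSum]
        refine Finset.sum_congr rfl fun g _ => ?_
        rw [LinearMap.smul_apply, LinearMap.smul_apply, ← hlift]
        rfl
      rw [h3, h2 i]
      rfl
  let rad' : Subgroup G :=
    { carrier := {g | ∀ h, ρ' ⁅g, h⁆ = 1}
      one_mem' := by
        intro h
        rw [commutatorElement_one_left, map_one]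
      mul_mem' := by
        intro g g' hg hg' h
        have h1 : ⁅g * g', h⁆ = g * ⁅g', h⁆ * g⁻¹ * ⁅g, h⁆ := by
          simp only [commutatorElement_def]
          group
        rw [h1, map_mul, map_mul, map_mul, hg h, hg' h, mul_one, mul_one, ← map_mul,
          mul_inv_cancel, map_one]
      inv_mem' := by
        intro g hg h
        have h1 : ⁅g⁻¹, h⁆ = g⁻¹ * ⁅g, h⁆⁻¹ * g := by
          simp only [commutatorElement_def]
          group
        have h2 : ρ' ⁅g, h⁆⁻¹ = 1 := by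
          have h3 : ρ' ⁅g, h⁆⁻¹ * ρ' ⁅g, h⁆ = 1 := by rw [← map_mul, inv_mul_cancel, map_one]
          rwa [hg h, mul_one] at h3
        rw [h1, map_mul, map_mul, h2, mul_one, ← map_mul, inv_mul_cancel, map_one] }
  have hmem : ∀ g, g ∈ rad' ↔ ∀ h, ρ' ⁅g, h⁆ = 1 := fun g => Iff.rfl
  have h1 := hN G M₁ ρ' (hT.to_subgroup G) (fun x => by
    apply Subtype.ext
    rw [Subgroup.coe_pow, hexp]
    rfl) hsat' (fun g h => by
    obtain ⟨μ, hμ⟩ := hscal g g.2 h h.2
    refine ⟨μ, fun v => Subtype.ext ?_⟩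
    exact hμ v v.2) rad' hmem
  have h2 : rad' ≤ rad.subgroupOf G := by
    intro g hg
    rw [Subgroup.mem_subgroupOf]
    refine hrad g g.2 fun h hh v hv => ?_
    have h3 := hg ⟨h, hh⟩
    have h4 := congrArg (fun E : Module.End K M₁ => ((E ⟨v, hv⟩ : M₁) : M)) h3
    exact h4
  exact le_trans (Subgroup.index_antitone h2) h1

end Pool.Agent.HForm
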