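import Pool.Agent.Lib_MP_4009a7_al.IL

/-!
# Piece MC: the left normed commutator as a form; subgroups of smaller class
-/

set_option autoImplicit false

open scoped commutatorElement

namespace Pool.Agent.HForm

/-- left normed commutators `⁅⁅⁅x, y₁⁆, y₂⁆, ...⁆` -/
def mc {T : Type} [Group T] (x : T) : List T → T
  | [] => x
  | y :: ys => mc ⁅x, y⁆ ys

private theorem mc_cm {T : Type} [Group T] {j : ℕ} {x : T}
    (hx : x ∈ (⊤ : Subgroup T).lowerCentralSeries j) (y : T) :
    ⁅x, y⁆ ∈ (⊤ : Subgroup T).lowerCentralSeries (j + 1) :=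
  Subgroup.commutator_mem_commutator hx (Subgroup.mem_top y)

private theorem mc_cm' {T : Type} [Group T] {j : ℕ} {x : T}
    (hx : x ∈ (⊤ : Subgroup T).lowerCentralSeries j) (y : T) :
    ⁅y, x⁆ ∈ (⊤ : Subgroup T).lowerCentralSeries (j + 1) := by
  rw [← commutatorElement_inv]
  exact inv_mem (mc_cm hx y)

private theorem mc_mem0 {T : Type} [Group T] (ys : List T) : ∀ (j : ℕ) (x : T),
    x ∈ (⊤ : Subgroup T).lowerCentralSeries j →
    mc x ys ∈ (⊤ : Subgroup T).lowerCentralSeries (j + ys.length) := by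
  induction ys with
  | nil => intro j x hx; exact hx
  | cons y ys ih =>
    intro j x hx
    have h1 := ih (j + 1) ⁅x, y⁆ (mc_cm hx y)
    have h2 : j + (y :: ys).length = j + 1 + ys.length := by
      rw [List.length_cons]; omega
    rw [h2]
    exact h1

private theorem mc_central {T : Type} [Group T] {c : ℕ}
    (h : (⊤ : Subgroup T).lowerCentralSeries (c + 1) = ⊥) {x : T}
    (hx : x ∈ (⊤ : Subgroup T).lowerCentralSeries c) (y : T) : x * y = y * x := by
  have h1 := mc_cm hx y
  rw [h, Subgroup.mem_bot] at h1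
  exact commutatorElement_eq_one_iff_mul_comm.1 h1

private theorem mc_mul0 {T : Type} [Group T] {c : ℕ}
    (h : (⊤ : Subgroup T).lowerCentralSeries c = ⊥) (ys : List T) : ∀ (j : ℕ),
    j + ys.length + 1 = c → ∀ x y : T, x ∈ (⊤ : Subgroup T).lowerCentralSeries j →
    y ∈ (⊤ : Subgroup T).lowerCentralSeries j → mc (x * y) ys = mc x ys * mc y ys := by
  induction ys with
  | nil => intro j hj x y hx hy; rfl
  | cons z zs ih =>
    intro j hj x y hx hy
    rw [List.length_cons] at hj
    have hj' : (j + 1) + zs.length + 1 = c := by omega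
    change mc ⁅x * y, z⁆ zs = mc ⁅x, z⁆ zs * mc ⁅y, z⁆ zs
    have e1 : ⁅x * y, z⁆ = ⁅x, ⁅y, z⁆⁆ * ⁅y, z⁆ * ⁅x, z⁆ := by
      simp only [commutatorElement_def]
      group
    have hyz : ⁅y, z⁆ ∈ (⊤ : Subgroup T).lowerCentralSeries (j + 1) := mc_cm hy z
    have hxz : ⁅x, z⁆ ∈ (⊤ : Subgroup T).lowerCentralSeries (j + 1) := mc_cm hx z
    have h3 : ⁅x, ⁅y, z⁆⁆ ∈ (⊤ : Subgroup T).lowerCentralSeries (j + 2) := mc_cm' hyz x
    have h3' : ⁅x, ⁅y, z⁆⁆ ∈ (⊤ : Subgroup T).lowerCentralSeries (j + 1) :=
      (⊤ : Subgroup T).lowerCentralSeries_antitone (Nat.le_succ _) h3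
    have h4 : mc ⁅x, ⁅y, z⁆⁆ zs = 1 := by
      have h5 := mc_mem0 zs (j + 2) _ h3
      have h6 : j + 2 + zs.length = c := by omega
      rw [h6, h, Subgroup.mem_bot] at h5
      exact h5
    rw [e1, ih (j + 1) hj' _ _ (mul_mem h3' hyz) hxz, ih (j + 1) hj' _ _ h3' hyz, h4, one_mul]
    have h7 := mc_mem0 zs (j + 1) _ hyz
    obtain ⟨d, hd⟩ : ∃ d, c = d + 1 := ⟨j + 1 + zs.length, by omega⟩
    have h8 : j + 1 + zs.length = d := by omega
    rw [h8] at h7
    rw [hd] at h
    exact mc_central h h7 _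

private theorem mc_one {T : Type} [Group T] (ys : List T) : mc (1 : T) ys = 1 := by
  induction ys with
  | nil => rfl
  | cons y ys ih =>
    change mc ⁅(1 : T), y⁆ ys = 1
    rw [commutatorElement_one_left, ih]

private theorem mc_set {T : Type} [Group T] {c : ℕ}
    (h : (⊤ : Subgroup T).lowerCentralSeries c = ⊥) (y z : T) (ys : List T) : ∀ (j k : ℕ),
    k < ys.length → j + ys.length + 1 = c → ∀ x : T, x ∈ (⊤ : Subgroup T).lowerCentralSeries j →
    mc x (ys.set k (y * z)) = mc x (ys.set k y) * mc x (ys.set k z) := by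
  induction ys with
  | nil => intro j k hk; simp at hk
  | cons w ws ih =>
    intro j k hk hj x hx
    rw [List.length_cons] at hj hk
    cases k with
    | zero =>
      have hj' : (j + 1) + ws.length + 1 = c := by omega
      change mc ⁅x, y * z⁆ ws = mc ⁅x, y⁆ ws * mc ⁅x, z⁆ ws
      have e1 : ⁅x, y * z⁆ = ⁅x, y⁆ * ⁅y, ⁅x, z⁆⁆ * ⁅x, z⁆ := by
        simp only [commutatorElement_def]
        group
      have hxy : ⁅x, y⁆ ∈ (⊤ : Subgroup T).lowerCentralSeries (j + 1) := mc_cm hx y
      have hxz : ⁅x, z⁆ ∈ (⊤ : Subgroup T).lowerCentralSeries (j + 1) := mc_cm hx z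
      have h3 : ⁅y, ⁅x, z⁆⁆ ∈ (⊤ : Subgroup T).lowerCentralSeries (j + 2) := mc_cm' hxz y
      have h3' : ⁅y, ⁅x, z⁆⁆ ∈ (⊤ : Subgroup T).lowerCentralSeries (j + 1) :=
        (⊤ : Subgroup T).lowerCentralSeries_antitone (Nat.le_succ _) h3
      have h4 : mc ⁅y, ⁅x, z⁆⁆ ws = 1 := by
        have h5 := mc_mem0 ws (j + 2) _ h3
        have h6 : j + 2 + ws.length = c := by omega
        rw [h6, h, Subgroup.mem_bot] at h5
        exact h5
      rw [e1, mc_mul0 h ws (j + 1) hj' _ _ (mul_mem hxy h3') hxz,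
        mc_mul0 h ws (j + 1) hj' _ _ hxy h3', h4, mul_one]
    | succ k =>
      have hj' : (j + 1) + ws.length + 1 = c := by omega
      change mc ⁅x, w⁆ (ws.set k (y * z)) = mc ⁅x, w⁆ (ws.set k y) * mc ⁅x, w⁆ (ws.set k z)
      exact ih (j + 1) k (by omega) hj' _ (mc_cm hx w)

private theorem mc_ofFn {T : Type} {d : ℕ} (f : Fin d → T) (k : Fin d) (a : T) :
    List.ofFn (Function.update f k a) = (List.ofFn f).set k a := by
  apply List.ext_getElem
  · simp
  · intro n h1 h2
    rw [List.getElem_set, List.getElem_ofFn]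
    by_cases hk : (k : ℕ) = n
    · rw [if_pos hk]
      have : (⟨n, by simpa using h1⟩ : Fin d) = k := Fin.ext hk.symm
      rw [this, Function.update_self]
    · rw [if_neg hk, List.getElem_ofFn, Function.update_of_ne]
      intro h3
      exact hk (congrArg Fin.val h3).symm

private theorem mc_vanish {T : Type} [Group T] {d : ℕ}
    (h : (⊤ : Subgroup T).lowerCentralSeries (d + 1) = ⊥) (D : Subgroup T)
    (hD : ∀ x ∈ D, ∀ ys : List T, (∀ y ∈ ys, y ∈ D) → ys.length = d → mc x ys = 1) :
    ∀ i : ℕ, ∀ x ∈ D.lowerCentralSeries i, ∀ ys : List T, (∀ y ∈ ys, y ∈ D) →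
      i + ys.length = d → mc x ys = 1 := by
  intro i
  induction i with
  | zero =>
    intro x hx ys hys hl
    exact hD x hx ys hys (by omega)
  | succ i ih =>
    intro x hx ys hys hl
    have hle : D.lowerCentralSeries (i + 1) ≤ (⊤ : Subgroup T).lowerCentralSeries (i + 1) :=
      Subgroup.lowerCentralSeries_mono (i + 1) le_top
    rw [Subgroup.mem_lowerCentralSeries_succ_iff] at hx
    have key : x ∈ D.lowerCentralSeries (i + 1) ∧ mc x ys = 1 := by
      induction hx using Subgroup.closure_induction with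
      | mem x hx =>
        obtain ⟨p, hp, q, hq, rfl⟩ := hx
        refine ⟨Subgroup.commutator_mem_commutator hp hq, ?_⟩
        refine ih p hp (q :: ys) ?_ ?_
        · intro y hy
          rcases List.mem_cons.1 hy with rfl | hy
          · exact hq
          · exact hys y hy
        · rw [List.length_cons]; omega
      | one => exact ⟨one_mem _, mc_one ys⟩
      | mul x y _ _ hx hy =>
        refine ⟨mul_mem hx.1 hy.1, ?_⟩
        rw [mc_mul0 h ys (i + 1) (by omega) x y (hle hx.1) (hle hy.1), hx.2, hy.2, mul_one]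
      | inv x _ hx =>
        refine ⟨inv_mem hx.1, ?_⟩
        have h1 := mc_mul0 h ys (i + 1) (by omega) x⁻¹ x (inv_mem (hle hx.1)) (hle hx.1)
        rw [inv_mul_cancel, mc_one, hx.2, mul_one] at h1
        exact h1.symm
    exact key.2

/-- PROOF. Induction on the length of `ys` from `mc_hom` itself: `⁅x * x', y⁆ = (x * ⁅x', y⁆ * x⁻¹) * ⁅x, y⁆ = ⁅x, ⁅x', y⁆⁆ * ⁅x', y⁆ * ⁅x, y⁆`, all factors are in `lowerCentralSeries (j + 1)`,
the first one in `lowerCentralSeries (j + 2)`, where (with `ys.length = c - j - 2`) `mc _ ys` is trivial (next lemma) and the values are central (for `ys = []` the factors are in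
`lowerCentralSeries (c - 1)`, central). -/
theorem mc_mul {T : Type} [Group T] {c : ℕ} (h : (⊤ : Subgroup T).lowerCentralSeries c = ⊥) {j : ℕ}
    (ys : List T) (hj : j + ys.length + 1 = c) (x y : T) (hx : x ∈ (⊤ : Subgroup T).lowerCentralSeries j)
    (hy : y ∈ (⊤ : Subgroup T).lowerCentralSeries j) : mc (x * y) ys = mc x ys * mc y ys := by
  exact mc_mul0 h ys j hj x y hx hy

theorem mc_mem {T : Type} [Group T] {j : ℕ} (ys : List T) (x : T)
    (hx : x ∈ (⊤ : Subgroup T).lowerCentralSeries j) :
    mc x ys ∈ (⊤ : Subgroup T).lowerCentralSeries (j + ys.length) := by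
  exact mc_mem0 ys j x hx

/-- PROOF. Let `Z` be the centre of `T` (with the commutative group structure, see `IsMulCommutative` in Mathlib) and `j` the inclusion. `Ψ v = mc (v 0) [v 1, ..., v (c - 1)]`, which is in `lowerCentralSeries (c - 1)` (`mc_mem`), a central subgroup. Multiplicativity in the slot `0` is `mc_mul` with `j = 0`.
In the slot `i ≥ 1`: let `x = mc (v 0) [v 1, ..., v (i - 1)] ∈ lowerCentralSeries (i - 1)`; `⁅x, y * z⁆ = ⁅x, y⁆ * (y * ⁅x, z⁆ * y⁻¹) = ⁅x, y⁆ * ⁅y, ⁅x, z⁆⁆ * ⁅x, z⁆` with the middle factor in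
`lowerCentralSeries (i + 1)`; use `mc_mul` with `j = i` for the remaining list (and `mc` of an element of `lowerCentralSeries (i + 1)` is trivial by `mc_mem`).
If `Ψ` vanishes on `D`: show by induction on `i ≤ c - 1`: `mc x ys = 1` for all `x ∈ D.lowerCentralSeries i` and all `ys` in `D` of length `c - 1 - i`. `i = 0`: hypothesis.
Step: `D.lowerCentralSeries (i + 1)` is generated by the `⁅x, y⁆`, `x ∈ D.lowerCentralSeries i`, `y ∈ D`, for which `mc ⁅x, y⁆ ys = mc x (y :: ys) = 1`, and `mc _ ys` is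
multiplicative on `lowerCentralSeries (i + 1)` (`mc_mul`). For `i = c - 1`, `ys = []`: `x = 1`. -/
theorem exists_comm_form {T : Type} [Group T] {c : ℕ} (hc : 1 ≤ c)
    (h : (⊤ : Subgroup T).lowerCentralSeries c = ⊥) :
    ∃ (Z : Type) (_ : CommGroup Z) (j : Z →* T) (Ψ : (Fin c → T) → Z), Function.Injective j ∧
      (∀ z, j z ∈ Subgroup.center T) ∧ IsForm Finset.univ Ψ ∧
      ∀ D : Subgroup T, (∀ v : Fin c → T, (∀ j, v j ∈ D) → Ψ v = 1) →
        (⊤ : Subgroup D).lowerCentralSeries (c - 1) = ⊥ := by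
  obtain ⟨d, rfl⟩ : ∃ d, c = d + 1 := ⟨c - 1, by omega⟩
  have hcen : ∀ x ∈ (⊤ : Subgroup T).lowerCentralSeries d, x ∈ Subgroup.center T := by
    intro x hx
    rw [Subgroup.mem_center_iff]
    intro g
    exact (mc_central h hx g).symm
  have hval : ∀ v : Fin (d + 1) → T, mc (v 0) (List.ofFn fun i : Fin d => v i.succ) ∈
      (⊤ : Subgroup T).lowerCentralSeries d := by
    intro v
    have h1 := mc_mem0 (List.ofFn fun i : Fin d => v i.succ) 0 (v 0) (Subgroup.mem_top _)
    rwa [List.length_ofFn, Nat.zero_add] at h1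
  letI cg : CommGroup (Subgroup.center T) :=
    { (inferInstance : Group (Subgroup.center T)) with
      mul_comm := fun a b => Subtype.ext ((Subgroup.mem_center_iff.1 b.2 (a : T))) }
  refine ⟨Subgroup.center T, cg, (Subgroup.center T).subtype,
    fun v => ⟨mc (v 0) (List.ofFn fun i : Fin d => v i.succ), hcen _ (hval v)⟩,
    Subtype.val_injective, fun z => z.2, ⟨?_, ?_⟩, ?_⟩
  · intro v i _ x y
    apply Subtype.ext
    change mc (Function.update v i (x * y) 0)
        (List.ofFn fun k : Fin d => Function.update v i (x * y) k.succ) =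
      mc (Function.update v i x 0) (List.ofFn fun k : Fin d => Function.update v i x k.succ) *
      mc (Function.update v i y 0) (List.ofFn fun k : Fin d => Function.update v i y k.succ)
    refine Fin.cases ?_ (fun k => ?_) i
    · have e : ∀ a : T, (fun k : Fin d => Function.update v 0 a k.succ) =
          fun k : Fin d => v k.succ := by
        intro a
        funext k
        rw [Function.update_of_ne (Fin.succ_ne_zero k)]
      rw [e, e, e, Function.update_self, Function.update_self, Function.update_self]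
      exact mc_mul0 h _ 0 (by rw [List.length_ofFn]; omega) x y (Subgroup.mem_top _)
        (Subgroup.mem_top _)
    · have e : ∀ a : T, (fun l : Fin d => Function.update v k.succ a l.succ) =
          Function.update (fun l : Fin d => v l.succ) k a := by
        intro a
        funext l
        by_cases hl : l = k
        · subst hl
          rw [Function.update_self, Function.update_self]
        · rw [Function.update_of_ne hl, Function.update_of_ne]
          intro h1
          exact hl (Fin.succ_injective _ h1)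
      have e0 : ∀ a : T, Function.update v k.succ a 0 = v 0 := fun a =>
        Function.update_of_ne (Fin.succ_ne_zero k).symm _ _
      rw [e, e, e, e0, e0, e0, mc_ofFn, mc_ofFn, mc_ofFn]
      exact mc_set h x y _ 0 k (by rw [List.length_ofFn]; exact k.2)
        (by rw [List.length_ofFn]; omega) (v 0) (Subgroup.mem_top _)
  · intro v v' hv
    have : v = v' := funext fun i => hv i (Finset.mem_univ i)
    rw [this]
  · intro D hD
    have hD' : ∀ x ∈ D, ∀ ys : List T, (∀ y ∈ ys, y ∈ D) → ys.length = d → mc x ys = 1 := by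
      intro x hx ys hys hl
      subst hl
      have h1 := congrArg Subtype.val (hD (Fin.cons x fun i : Fin ys.length => ys.get i) (by
        intro j
        refine Fin.cases ?_ (fun k => ?_) j
        · exact hx
        · exact hys _ (List.get_mem _ _)))
      have h2 : mc ((Fin.cons x fun i : Fin ys.length => ys.get i : Fin (ys.length + 1) → T) 0)
          (List.ofFn fun i : Fin ys.length =>
            (Fin.cons x fun i : Fin ys.length => ys.get i : Fin (ys.length + 1) → T) i.succ) = 1 :=
        h1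
      simp only [Fin.cons_zero, Fin.cons_succ] at h2
      rwa [List.ofFn_get] at h2
    have h1 : D.lowerCentralSeries d = ⊥ := by
      rw [eq_bot_iff]
      intro x hx
      have h2 := mc_vanish h D hD' d x hx [] (by simp) (by simp)
      exact Subgroup.mem_bot.2 h2
    have h3 := Subgroup.top_subtype_lowerCentralSeries D d
    rw [h1] at h3
    exact (Subgroup.map_eq_bot_iff_of_injective _ Subtype.val_injective).1 h3

/-- `isotropic` with the one form of `exists_comm_form` (`k = c`, `N = 1`, `z = e`, `D = ⊤`) -/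
theorem exists_lower_class (e c L : ℕ) (he : 0 < e) (hc : 1 ≤ c) : ∃ K0 : ℕ, ∀ (T : Type) [Group T] [Finite T],
    (∀ x : T, x ^ e = 1) → (⊤ : Subgroup T).lowerCentralSeries c = ⊥ → Nat.card (Subgroup.center T) ≤ e →
    ∀ R : Subgroup T, commutator T ≤ R → K0 ≤ R.index →
    ∃ D : Subgroup T, L ≤ R.relIndex D ∧ (⊤ : Subgroup D).lowerCentralSeries (c - 1) = ⊥ := by
  obtain ⟨K0, hK0⟩ := isotropic e e he c 1 L
  refine ⟨K0, fun T _ _ hT h hcard R hR hRi => ?_⟩
  obtain ⟨Z, iZ, j, Ψ, hj, hjc, hΨ, hD⟩ := exists_comm_form hc h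
  haveI : Finite Z := Finite.of_injective j hj
  have hZe : ∀ x : Z, x ^ e = 1 := by
    intro x
    apply hj
    rw [map_pow, map_one]
    exact hT _
  have hZc : Nat.card Z ≤ e := by
    refine le_trans ?_ hcard
    exact Nat.card_le_card_of_injective (fun z => (⟨j z, hjc z⟩ : Subgroup.center T))
      fun a b hab => hj (congrArg Subtype.val hab)
  haveI : Nonempty (Fin c) := ⟨⟨0, hc⟩⟩
  obtain ⟨D', -, h1, h2⟩ := hK0 T Z c hT hZe hZc Unit (by simp) (fun _ => Finset.univ)
    (fun _ => Ψ) (fun _ => ⟨Finset.univ_nonempty, by simp⟩) (fun _ => hΨ) R ⊤ hR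
    (by rw [Subgroup.relIndex_top_right]; exact hRi)
  exact ⟨D', h1, hD D' fun v hv => h2 () v hv⟩

end Pool.Agent.HForm
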