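import Pool.Agent.Lib_MP_4009a7_al.AlD
import Pool.Agent.Lib_MP_4009a7_al.AlG
import Pool.Agent.Lib_MP_4009a7_al.RepU
import Pool.Agent.Lib_MP_4009a7_al.MC
import Pool.Agent.Lib_MP_4009a7_al.CL

/-!
# Piece ALC: the centralizer of an abelian subgroup of the second centre has bounded index
-/

set_option autoImplicit false

open scoped commutatorElement

namespace Pool.Agent.HForm

/-- commutators modulo the centre -/
private theorem alc_central {T : Type} [Group T] {a b x y : T}
    (ha : ∀ t : T, ⁅t, a⁆ ∈ Subgroup.center T) (hb : ∀ t : T, ⁅t, b⁆ ∈ Subgroup.center T) :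
    ⁅a * x, b * y⁆ * ⁅x, y⁆⁻¹ ∈ Subgroup.center T := by
  have hq : ∀ c : T, (∀ t : T, ⁅t, c⁆ ∈ Subgroup.center T) → ∀ t : T,
      (QuotientGroup.mk' (Subgroup.center T) t) * (QuotientGroup.mk' (Subgroup.center T) c) =
      (QuotientGroup.mk' (Subgroup.center T) c) * (QuotientGroup.mk' (Subgroup.center T) t) := by
    intro c hc t
    have h1 : QuotientGroup.mk' (Subgroup.center T) ⁅t, c⁆ = 1 :=
      (QuotientGroup.eq_one_iff _).2 (hc t)
    rw [map_commutatorElement] at h1
    exact commutatorElement_eq_one_iff_mul_comm.1 h1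
  have key : QuotientGroup.mk' (Subgroup.center T) (⁅a * x, b * y⁆ * ⁅x, y⁆⁻¹) = 1 := by
    rw [map_mul, map_inv, map_commutatorElement, map_commutatorElement, map_mul, map_mul,
      mul_inv_eq_one]
    generalize QuotientGroup.mk' (Subgroup.center T) = π at hq ⊢
    have h1 := hq a ha
    have h2 := hq b hb
    have h3 : π a * π x * (π b * π y) = π a * π b * (π x * π y) := by
      rw [mul_assoc, ← mul_assoc (π x), h2 x, mul_assoc (π b), mul_assoc]
    have h4 : π b * π y * (π a * π x) = π a * π b * (π y * π x) := by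
      rw [mul_assoc, ← mul_assoc (π y), h1 y, mul_assoc (π a), ← mul_assoc (π b), h1 b, mul_assoc]
    have e1 : ⁅π a * π x, π b * π y⁆ = (π a * π x * (π b * π y)) * (π b * π y * (π a * π x))⁻¹ := by
      simp only [commutatorElement_def, mul_inv_rev, mul_assoc]
    have e2 : ⁅π x, π y⁆ = (π x * π y) * (π y * π x)⁻¹ := by
      simp only [commutatorElement_def, mul_inv_rev, mul_assoc]
    rw [e1, e2, h3, h4]
    have h5 : ∀ u : T, Commute (π a * π b) (π u) := by
      intro u
      exact (Commute.mul_left (show Commute (π a) (π u) from (h1 u).symm)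
        (show Commute (π b) (π u) from (h2 u).symm))
    have h6 : Commute (π a * π b) ((π x * π y) * (π y * π x)⁻¹) :=
      ((h5 x).mul_right (h5 y)).mul_right ((h5 y).mul_right (h5 x)).inv_right
    calc π a * π b * (π x * π y) * (π a * π b * (π y * π x))⁻¹
        = (π a * π b) * ((π x * π y) * (π y * π x)⁻¹) * (π a * π b)⁻¹ := by
          rw [mul_inv_rev]
          simp only [mul_assoc]
      _ = π x * π y * (π y * π x)⁻¹ := by
          rw [h6.eq, mul_inv_cancel_right]
  exact (QuotientGroup.eq_one_iff _).1 key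

/-- PROOF. Let `N` be from `cl'`, `L = B * N + 1` and `K0` from `exists_lower_class e c L`. Let `R = centralizer A`; it is normal (`A` is) and contains `commutator T` (`commutator_le_centralizer`). Suppose `K0 < R.index`. As
`Nat.card (center T) ≤ e` (`center_card_le`) there is `D ≤ T` with `L ≤ R.relIndex D` and `(⊤ : Subgroup D).lowerCentralSeries (c - 1) = ⊥`. Let `W` be an irreducible subspace for `ρ.comp D.subtype` (`exists_irrSub`) and let
`C ≤ D` be the kernel of `D` on `W` (`(kerOn (ρ.comp D.subtype) W).map D.subtype`): `C.relIndex D ≤ B` by `hB`. As `R.relIndex D ≤ C.relIndex D * R.relIndex C` (`|D : D ∩ R| ≤ |D : C ∩ R| = |D : C| |C : C ∩ R|`) we get `N < R.relIndex C`.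
Let `M₁ = fixed ρ (C ⊓ R)`; it contains `W`, so it is not `⊥`. It is invariant under `C` (`C` normalises `C ⊓ R` since `R` is normal) and under `A` (`A` commutes with `R`), so under `G = A ⊔ C` (`fixed_map`). Elements of `G` are products `a x`,
`a ∈ A`, `x ∈ C` (`A` normal). Commutators: modulo the centre of `T` the elements of `A` are central, so `⁅a x, b y⁆ = z ⁅x, y⁆` with `z` central; `⁅x, y⁆ ∈ C ⊓ commutator T ≤ C ⊓ R` acts trivially on `M₁`, and `z` acts as a
scalar (`schur` with `U = ⊤`, `irrSub_top_iff`). Apply `cl'` to `G`, `M₁` and `rad = {g ∈ G | ∀ h ∈ G, ρ ⁅g, h⁆ = 1 on M₁}` (a subgroup): `rad.relIndex G ≤ N`, so `rad.relIndex C ≤ N`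
(`C ≤ G`; `relIndex` is monotone in this way for `rad ⊓ C`; use `Subgroup.relIndex_le_of_le_right` or similar). If `x ∈ C ⊓ rad` then for `a ∈ A` the central element `⁅x, a⁆` acts as a scalar, trivially on `M₁ ≠ ⊥`, so `ρ ⁅x, a⁆ = 1`, so `⁅x, a⁆ = 1`; hence `x ∈ R`. So
`C ⊓ rad ≤ R` and `R.relIndex C ≤ rad.relIndex C ≤ N`, a contradiction.
(`rad` is a subgroup: `G` acts on `M₁` with commutators acting as scalars; or define `rad` as the comap of the centre of the image of `G` in the endomorphisms of `M₁`.) -/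
theorem alpha_centralizer {K : Type} [Field K] [IsAlgClosed K] {p q : ℕ} [Fact p.Prime] [CharP K p] (hq : q.Prime)
    (hpq : p ≠ q) {e : ℕ} (he : 0 < e) {n : ℕ} (w : FreeGroup (Fin n)) (hw : ¬ Kills p (TT q) w) {c B : ℕ}
    (hc : 1 ≤ c) (hB : AlphaB K q e w (c - 1) B) : ∃ K0 : ℕ,
    ∀ (T M : Type) [Group T] [Finite T] [AddCommGroup M] [Module K M] [FiniteDimensional K M]
    (ρ : T →* Module.End K M), IsPGroup q T → (∀ x : T, x ^ e = 1) →
    (⊤ : Subgroup T).lowerCentralSeries c = ⊥ → Sat w ρ → Function.Injective ρ → Irr ρ →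
    ∀ A : Subgroup T, A.Normal → (∀ a ∈ A, ∀ b ∈ A, a * b = b * a) →
    (∀ a ∈ A, ∀ t : T, ⁅t, a⁆ ∈ Subgroup.center T) → (Subgroup.centralizer (A : Set T)).index ≤ K0 := by
  obtain ⟨N, hN⟩ := cl' (K := K) hq hpq he w hw
  obtain ⟨K0, hK0⟩ := exists_lower_class e c (B * N + 1) he hc
  refine ⟨K0, ?_⟩
  intro T M _ _ _ _ _ ρ hpT hT hcl hS hρ hi A hAn hAab hAc
  by_contra hlt
  push Not at hlt
  have hcomm : commutator T ≤ Subgroup.centralizer (A : Set T) := commutator_le_centralizer A hAc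
  have hcard : Nat.card (Subgroup.center T) ≤ e := center_card_le he hT ρ hρ hi
  obtain ⟨D, hD1, hD2⟩ := hK0 T hT hcl hcard (Subgroup.centralizer (A : Set T)) hcomm hlt.le
  have hRn : (Subgroup.centralizer (A : Set T)).Normal := inferInstance
  set R : Subgroup T := Subgroup.centralizer (A : Set T) with hR
  -- the centre acts by scalars
  have hscal : ∀ z ∈ Subgroup.center T, ∃ μ : K, ∀ v : M, ρ z v = μ • v := by
    intro z hz
    obtain ⟨μ, hμ⟩ := schur (irrSub_top_iff.2 hi) (ρ z) (fun _ _ => trivial) (fun h u _ => by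
      rw [← Module.End.mul_apply, ← Module.End.mul_apply, ← map_mul, ← map_mul,
        Subgroup.mem_center_iff.1 hz h])
    exact ⟨μ, fun v => hμ v trivial⟩
  -- the irreducible subspace for `D`
  obtain ⟨W, -, hW⟩ := exists_irrSub (ρ.comp D.subtype) (W := (⊤ : Submodule K M))
    (fun _ _ _ => trivial) (irrSub_top_iff.2 hi).2.1
  have hBW : (kerOn (ρ.comp D.subtype) W).index ≤ B := by
    refine hB D M (ρ.comp D.subtype) (hpT.to_subgroup D) (fun x => ?_) hD2 (hS.comp _) W hW
    exact Subtype.ext (hT x)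
  set C : Subgroup T := D ⊓ kerOn ρ W with hC
  have hCD : C ≤ D := inf_le_left
  have hCW : ∀ x ∈ C, ∀ v ∈ W, ρ x v = v := fun x hx => hx.2
  have hCi : C.relIndex D ≤ B := by
    have h1 : C.subgroupOf D = kerOn (ρ.comp D.subtype) W := by
      ext x
      rw [Subgroup.mem_subgroupOf]
      exact ⟨fun h => h.2, fun h => ⟨x.2, h⟩⟩
    rw [Subgroup.relIndex, h1]
    exact hBW
  have hfin : ∀ H L : Subgroup T, H.relIndex L ≠ 0 := fun H L => by
    rw [Subgroup.relIndex]
    exact Subgroup.index_ne_zero_of_finite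
  have hRC : N < R.relIndex C := by
    by_contra hh
    push Not at hh
    have h1 : R.relIndex D ≤ (R ⊓ C).relIndex D :=
      Subgroup.relIndex_le_of_le_left inf_le_left (hfin _ _)
    have h2 : (R ⊓ C).relIndex C * C.relIndex D = (R ⊓ C).relIndex D :=
      Subgroup.relIndex_mul_relIndex _ _ _ inf_le_right hCD
    rw [Subgroup.inf_relIndex_right] at h2
    have h3 : R.relIndex C * C.relIndex D ≤ N * B := Nat.mul_le_mul hh hCi
    have h4 : N * B = B * N := Nat.mul_comm N B
    omega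
  -- the fixed points of `C ⊓ R`
  set M₁ : Submodule K M := fixed ρ (C ⊓ R) with hM₁
  have hWM : W ≤ M₁ := fun v hv h hh => hCW h hh.1 v hv
  have hM0 : M₁ ≠ ⊥ := fun h => hW.2.1 (le_bot_iff.1 (h ▸ hWM))
  obtain ⟨v0, hv0, hv00⟩ := Submodule.exists_mem_ne_zero_of_ne_bot hM0
  have hAR : ∀ a ∈ A, ∀ n ∈ R, a⁻¹ * n * a = n := by
    intro a ha n hn
    have h1 := Subgroup.mem_centralizer_iff.1 hn a ha
    rw [mul_assoc, ← h1, inv_mul_cancel_left]
  have hinvA : ∀ a ∈ A, ∀ v ∈ M₁, ρ a v ∈ M₁ := by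
    intro a ha v hv
    refine fixed_map (fun n hn => ?_) hv
    rw [hAR a ha n hn.2]
    exact hn
  have hinvC : ∀ x ∈ C, ∀ v ∈ M₁, ρ x v ∈ M₁ := by
    intro x hx v hv
    refine fixed_map (x := x) (fun n hn => ?_) hv
    rw [Subgroup.mem_inf] at hn ⊢
    constructor
    · exact C.mul_mem (C.mul_mem (C.inv_mem hx) hn.1) hx
    · have h1 := hRn.conj_mem n hn.2 x⁻¹
      rwa [inv_inv] at h1
  have hG : ∀ g ∈ A ⊔ C, ∃ a ∈ A, ∃ x ∈ C, a * x = g := fun g hg =>
    Subgroup.mem_sup_of_normal_left.1 hg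
  have h1 := hN T M ρ hpT hT hS (A ⊔ C) M₁ hM0 (by
    intro g hg v hv
    obtain ⟨a, ha, x, hx, rfl⟩ := hG g hg
    rw [map_mul, Module.End.mul_apply]
    exact hinvA a ha _ (hinvC x hx v hv)) (by
    intro g hg h hh
    obtain ⟨a, ha, x, hx, rfl⟩ := hG g hg
    obtain ⟨b, hb, y, hy, rfl⟩ := hG h hh
    obtain ⟨μ, hμ⟩ := hscal _ (alc_central (x := x) (y := y) (hAc a ha) (hAc b hb))
    refine ⟨μ, fun v hv => ?_⟩
    have hxy : ⁅x, y⁆ ∈ C ⊓ R := by
      refine ⟨?_, hcomm (Subgroup.commutator_mem_commutator (Subgroup.mem_top x)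
        (Subgroup.mem_top y))⟩
      rw [commutatorElement_def]
      exact C.mul_mem (C.mul_mem (C.mul_mem hx hy) (C.inv_mem hx)) (C.inv_mem hy)
    have e1 : ⁅a * x, b * y⁆ = ⁅a * x, b * y⁆ * ⁅x, y⁆⁻¹ * ⁅x, y⁆ := by
      rw [inv_mul_cancel_right]
    rw [e1, map_mul, Module.End.mul_apply, hv _ hxy, hμ]) ((A ⊔ C) ⊓ R) inf_le_left (by
    intro g hg hgr
    refine ⟨hg, Subgroup.mem_centralizer_iff.2 fun a ha => ?_⟩
    obtain ⟨μ, hμ⟩ := hscal _ (hAc a ha g)
    have h2 := hgr a (Subgroup.mem_sup_left ha) v0 hv0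
    rw [hμ] at h2
    have h3 : μ = 1 := by
      have h4 : (μ - 1) • v0 = 0 := by rw [sub_smul, one_smul, h2, sub_self]
      rcases smul_eq_zero.1 h4 with h5 | h5
      · exact sub_eq_zero.1 h5
      · exact absurd h5 hv00
    have h4 : ρ ⁅g, a⁆ = ρ 1 := by
      rw [map_one]
      ext v
      rw [hμ, h3, one_smul, Module.End.one_apply]
    exact (commutatorElement_eq_one_iff_mul_comm.1 (hρ h4)).symm)
  rw [Subgroup.inf_relIndex_left] at h1
  have h2 : R.relIndex C ≤ R.relIndex (A ⊔ C) :=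
    Subgroup.relIndex_le_of_le_right le_sup_right (hfin _ _)
  omega

end Pool.Agent.HForm
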