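import Pool.Agent.Lib_MP_4009a7_al.Base

/-!
# the alpha bound, definitions (no sorry)
-/

set_option autoImplicit false

open scoped commutatorElement

namespace Pool.Agent.HForm

/-- the alpha bound for invariant irreducible subspaces -/
def AlphaB (K : Type) [Field K] (q e : ℕ) {n : ℕ} (w : FreeGroup (Fin n)) (c B : ℕ) : Prop :=
  ∀ (T M : Type) [Group T] [Finite T] [AddCommGroup M] [Module K M] [FiniteDimensional K M]
    (ρ : T →* Module.End K M), IsPGroup q T → (∀ x : T, x ^ e = 1) →
    (⊤ : Subgroup T).lowerCentralSeries c = ⊥ → Sat w ρ → ∀ U : Submodule K M, IrrSub ρ U →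
    (kerOn ρ U).index ≤ B

/-- the alpha bound for faithful irreducible representations -/
def AlphaF (K : Type) [Field K] (q e : ℕ) {n : ℕ} (w : FreeGroup (Fin n)) (c B : ℕ) : Prop :=
  ∀ (T M : Type) [Group T] [Finite T] [AddCommGroup M] [Module K M] [FiniteDimensional K M]
    (ρ : T →* Module.End K M), IsPGroup q T → (∀ x : T, x ^ e = 1) →
    (⊤ : Subgroup T).lowerCentralSeries c = ⊥ → Sat w ρ → Function.Injective ρ → Irr ρ →
    Nat.card T ≤ B

end Pool.Agent.HForm
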