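import Pool.Agent.Lib_MP_4009a7_al.PVBasic

/-!
# Piece BURN: restricted Burnside for bounded derived length; the universal group of bounded order
-/

set_option autoImplicit false

open scoped commutatorElement

namespace Pool.Agent.HForm

variable {F : GClass}

private def FinG (n : ℕ) : Type := Fin n

private theorem ab_bound {e n : ℕ} (he : 0 < e) {G : Type} [CommGroup G] (t : Fin n → G)
    (ht : Subgroup.closure (Set.range t) = ⊤) (hx : ∀ x : G, x ^ e = 1) :
    Finite G ∧ Nat.card G ≤ e ^ n := by
  have hsurj : Function.Surjective (fun k : Fin n → Fin e => ∏ i, t i ^ (k i).1) := by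
    intro g
    have hg : g ∈ Subgroup.closure (Set.range t) := by rw [ht]; trivial
    induction hg using Subgroup.closure_induction with
    | mem x hx' =>
      obtain ⟨j, rfl⟩ := hx'
      refine ⟨fun i => ⟨(if i = j then 1 else 0) % e, Nat.mod_lt _ he⟩, ?_⟩
      simp only
      have h1 : ∀ (x : G) (m : ℕ), x ^ (m % e) = x ^ m := by
        intro x m
        conv_rhs => rw [← Nat.div_add_mod m e, pow_add, pow_mul, hx, one_pow, one_mul]
      simp [h1]
    | one => exact ⟨fun _ => ⟨0, he⟩, by simp⟩
    | mul x y _ _ h1 h2 =>
      obtain ⟨k, rfl⟩ := h1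
      obtain ⟨l, rfl⟩ := h2
      refine ⟨fun i => ⟨((k i).1 + (l i).1) % e, Nat.mod_lt _ he⟩, ?_⟩
      have h1 : ∀ (x : G) (m : ℕ), x ^ (m % e) = x ^ m := by
        intro x m
        conv_rhs => rw [← Nat.div_add_mod m e, pow_add, pow_mul, hx, one_pow, one_mul]
      simp only [h1, pow_add, Finset.prod_mul_distrib]
    | inv x _ h1 =>
      obtain ⟨k, rfl⟩ := h1
      refine ⟨fun i => ⟨((k i).1 * (e - 1)) % e, Nat.mod_lt _ he⟩, ?_⟩
      have h1 : ∀ (x : G) (m : ℕ), x ^ (m % e) = x ^ m := by
        intro x m
        conv_rhs => rw [← Nat.div_add_mod m e, pow_add, pow_mul, hx, one_pow, one_mul]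
      simp only [h1, pow_mul, Finset.prod_pow]
      rw [eq_inv_iff_mul_eq_one, ← pow_succ, Nat.sub_add_cancel he, hx]
  refine ⟨Finite.of_surjective _ hsurj, ?_⟩
  have := Nat.card_le_card_of_surjective _ hsurj
  simpa using this

/-- PROOF. Induction on `l` (for all `n`, `G`). `l = 0`: `G` is trivial. Step: the abelianization of `G` is generated by `n` elements and has
exponent dividing `e`, so it has order `≤ e ^ n` (it is a quotient of `(ZMod e)^n`). So the commutator subgroup
`G'` has index `≤ e ^ n`, and it is generated by `e ^ n * n` elements (`Subgroup.exists_finset_card_le_mul`; pad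
the generating set to a tuple indexed by `Fin (e ^ n * n)` with ones); `derivedSeries G' l = ⊥` (`derivedSeries G (l+1) = ⊥`;
`derivedSeries G' l` is mapped into `derivedSeries G (l + 1)`). So `Nat.card G ≤ e ^ n * b(l, e ^ n * n)`. -/
theorem burn (e l n : ℕ) (he : 0 < e) : ∃ b : ℕ, ∀ (G : Type) [Group G] (t : Fin n → G),
    Subgroup.closure (Set.range t) = ⊤ → (∀ x : G, x ^ e = 1) → derivedSeries G l = ⊥ →
    Finite G ∧ Nat.card G ≤ b := by
  induction l generalizing n with
  | zero =>
    refine ⟨1, fun G _ t _ _ hl => ?_⟩
    have hs : Subsingleton G := by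
      rw [derivedSeries_zero] at hl
      exact Subgroup.subsingleton_iff.1 (subsingleton_of_bot_eq_top hl.symm)
    exact ⟨inferInstance, le_of_eq (Nat.card_of_subsingleton (1 : G))⟩
  | succ l ih =>
    obtain ⟨b, hb⟩ := ih (e ^ n * n)
    refine ⟨b * e ^ n, fun G _ t ht hx hl => ?_⟩
    obtain ⟨hfa, hca⟩ := ab_bound he (G := Abelianization G) (fun i => Abelianization.of (t i))
      (by
        have h1 : (Subgroup.closure (Set.range t)).map (Abelianization.of (G := G)) = ⊤ := by
          rw [ht, ← MonoidHom.range_eq_map]
          exact MonoidHom.range_eq_top.2 (QuotientGroup.mk'_surjective _)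
        rw [MonoidHom.map_closure, ← Set.range_comp] at h1
        exact h1)
      (by
        intro x
        obtain ⟨g, hg⟩ : ∃ g : G, Abelianization.of g = x := QuotientGroup.mk'_surjective _ x
        rw [← hg, ← map_pow, hx, map_one])
    have hfi : (commutator G).FiniteIndex := by
      have : Finite (G ⧸ commutator G) := hfa
      exact Subgroup.finiteIndex_of_finite_quotient
    have hidx : (commutator G).index ≤ e ^ n := by
      rw [Subgroup.index_eq_card]
      exact hca
    classical
    obtain ⟨T, hT, hTc⟩ := Subgroup.exists_finset_card_le_mul (commutator G)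
      (S := Finset.univ.image t) (by simpa using ht)
    have hTn : T.card ≤ e ^ n * n := by
      refine hT.trans (Nat.mul_le_mul hidx ?_)
      exact Finset.card_image_le.trans (by simp)
    obtain ⟨hf, hc⟩ := hb (commutator G)
      (fun i : Fin (e ^ n * n) => if h : i.1 < T.card then (T.equivFin.symm ⟨i.1, h⟩ : commutator G) else 1)
      (by
        rw [eq_top_iff, ← hTc]
        refine Subgroup.closure_mono ?_
        intro x hxT
        have hx' : x ∈ T := hxT
        refine ⟨⟨(T.equivFin ⟨x, hx'⟩).1, lt_of_lt_of_le (T.equivFin ⟨x, hx'⟩).2 hTn⟩, ?_⟩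
        simp)
      (fun x => by
        apply Subtype.ext
        simpa using hx x.1)
      (by
        have h1 : (derivedSeries (commutator G) l).map (commutator G).subtype ≤ derivedSeries G (l + 1) := by
          clear hb ih hl
          induction l with
          | zero =>
            rw [derivedSeries_one]
            intro x hx
            obtain ⟨y, _, rfl⟩ := hx
            exact y.2
          | succ l ih =>
            rw [derivedSeries_succ, Subgroup.map_commutator, derivedSeries_succ]
            exact Subgroup.commutator_mono ih ih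
        rw [hl, le_bot_iff] at h1
        exact (Subgroup.map_eq_bot_iff_of_injective _ (commutator G).subtype_injective).1 h1)
    have hcard : Nat.card (commutator G) * (commutator G).index = Nat.card G := Subgroup.card_mul_index _
    have hpos : Nat.card G ≠ 0 := by
      rw [← hcard]
      exact Nat.mul_ne_zero Nat.card_pos.ne' hfi.index_ne_zero
    refine ⟨Nat.finite_of_card_ne_zero hpos, ?_⟩
    rw [← hcard]
    exact Nat.mul_le_mul hc hidx

/-- `G` nilpotent of class at most `c` implies `derivedSeries G c = ⊥` (Mathlib has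
`derivedSeries_le_lowerCentralSeries` or similar) -/
theorem derived_of_nilp {G : Type} [Group G] {c : ℕ} (h : (⊤ : Subgroup G).lowerCentralSeries c = ⊥) :
    derivedSeries G c = ⊥ := by
  rw [eq_bot_iff, ← h]
  exact Subgroup.derived_le_lower_central c

/-- PROOF. Up to isomorphism there are finitely many groups of order at most `N`: consider the finite type
`Σ n : Fin (N+1), {μ : Group (Fin n) // F (Fin n) }` (`Group (Fin n)` is finite: a group structure on a finite type is determined
by its multiplication; if this is inconvenient, choose for each multiplication function `Fin n → Fin n → Fin n` a group structure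
which induces it, if there is one in the class), and let `G₀` be the product of all these groups (`PV.pi` is not available here: import PVBasic). -/
theorem exists_universal (hF : PV F) (N : ℕ) : ∃ (G₀ : Type) (_ : Group G₀), F G₀ ∧
    ∀ (G : Type) [Group G], F G → Nat.card G ≤ N → ∃ f : G →* G₀, Function.Injective f := by
  classical
  have key : ∀ x : (Σ n : Fin (N + 1), (FinG n → FinG n → FinG n)),
      ∃ (G : Type) (_ : Group G), F G ∧ ∀ (_ : Group (FinG x.1)), F (FinG x.1) →
        (∀ a b : FinG x.1, a * b = x.2 a b) → Nonempty (FinG x.1 ≃* G) := by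
    intro x
    by_cases h : ∃ (inst : Group (FinG x.1)), F (FinG x.1) ∧ (∀ a b : FinG x.1, a * b = x.2 a b)
    · obtain ⟨inst, hFi, hm⟩ := h
      refine ⟨FinG x.1, inst, hFi, fun inst' _ hm' => ⟨?_⟩⟩
      refine @MulEquiv.mk _ _ (_) (_) (Equiv.refl (FinG x.1)) ?_
      intro a b
      exact (hm' a b).trans (hm a b).symm
    · refine ⟨Unit, inferInstance, hF.one, fun inst' h1 h2 => ?_⟩
      exact absurd ⟨inst', h1, h2⟩ h
  choose G instG hFG hG using key
  have hfin : Finite (Σ n : Fin (N + 1), (FinG n → FinG n → FinG n)) := by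
    unfold FinG
    infer_instance
  refine ⟨∀ x, G x, inferInstance, hF.pi G hFG, ?_⟩
  intro H instH hH hN
  have : Finite H := hF.fin hH
  obtain ⟨inst2, ⟨e'⟩⟩ : ∃ inst2 : Group (FinG (Nat.card H)), Nonempty (FinG (Nat.card H) ≃* H) := by
    let e : H ≃ FinG (Nat.card H) := Finite.equivFin H
    refine ⟨e.symm.group, ⟨?_⟩⟩
    exact e.symm.mulEquiv
  have hF2 : F (FinG (Nat.card H)) := hF.inj e'.toMonoidHom e'.injective hH
  obtain ⟨e2⟩ := hG ⟨⟨Nat.card H, Nat.lt_succ_of_le hN⟩, fun a b => a * b⟩ inst2 hF2 (fun _ _ => rfl)
  refine ⟨(MonoidHom.mulSingle G ⟨⟨Nat.card H, Nat.lt_succ_of_le hN⟩, fun a b => a * b⟩).comp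
    (e2.toMonoidHom.comp e'.symm.toMonoidHom), ?_⟩
  exact (Pi.mulSingle_injective _).comp (e2.injective.comp e'.symm.injective)

end Pool.Agent.HForm
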