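import Pool.Agent.Lib_MP_4009a7_al.PVBasic

/-!
# Piece REL: separating a group from a class by a law
-/

set_option autoImplicit false

namespace Pool.Agent.HForm

variable {F : GClass}

private theorem rel_surj {n : ℕ} {G : Type} [Group G] {t : Fin n → G}
    (ht : Subgroup.closure (Set.range t) = ⊤) : Function.Surjective (FreeGroup.lift t) := by
  rw [← MonoidHom.range_eq_top, FreeGroup.range_lift_eq_closure, ht]

/-- the key step: maximality of `Nat.card G` -/
private theorem rel_law (hF : PV F) {n : ℕ} {G : Type} [Group G] (hG : F G) {t : Fin n → G}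
    (ht : Subgroup.closure (Set.range t) = ⊤)
    (hmax : ∀ (D : Type) [Group D] (d : Fin n → D), F D → Subgroup.closure (Set.range d) = ⊤ →
      Nat.card D ≤ Nat.card G)
    {w : FreeGroup (Fin n)} (hw : FreeGroup.lift t w = 1) (G' : Type) [Group G'] (hG' : F G') :
    Law w G' := by
  intro t'
  let T : FreeGroup (Fin n) →* G × G' := FreeGroup.lift fun i => (t i, t' i)
  have h1 : (MonoidHom.fst G G').comp T = FreeGroup.lift t := by
    ext i
    simp [T]
  have h2 : (MonoidHom.snd G G').comp T = FreeGroup.lift t' := by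
    ext i
    simp [T]
  have hD : F T.range := hF.inj T.range.subtype Subtype.val_injective (hF.prod hG hG')
  have hfin : Finite T.range := hF.fin hD
  have hd : Subgroup.closure (Set.range fun i : Fin n => T.rangeRestrict (FreeGroup.of i)) = ⊤ := by
    have hr : Set.range (fun i : Fin n => T.rangeRestrict (FreeGroup.of i)) =
        T.rangeRestrict '' Set.range (FreeGroup.of : Fin n → FreeGroup (Fin n)) :=
      Set.range_comp T.rangeRestrict FreeGroup.of
    rw [hr, ← MonoidHom.map_closure, FreeGroup.closure_range_of,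
      ← MonoidHom.range_eq_map, MonoidHom.range_eq_top]
    exact T.rangeRestrict_surjective
  have hc := hmax T.range (fun i => T.rangeRestrict (FreeGroup.of i)) hD hd
  have hs : Function.Surjective ((MonoidHom.fst G G').comp T.range.subtype) := by
    intro g
    obtain ⟨u, hu⟩ := rel_surj ht g
    refine ⟨T.rangeRestrict u, ?_⟩
    rw [← hu, ← h1]
    rfl
  have hb := Function.Surjective.bijective_of_nat_card_le hs hc
  have h3 : T.rangeRestrict w = 1 := by
    apply hb.1
    rw [map_one, ← hw, ← h1]
    rfl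
  have h4 : T w = 1 := congrArg Subtype.val h3
  rw [← h2, MonoidHom.comp_apply, h4, map_one]

/-- PROOF. Choose `G ∈ F` and a generating tuple `t : Fin n → G` with `Nat.card G` maximal (`≤ b`; the trivial group shows
existence). Let `K = ker (FreeGroup.lift t)`. For `G' ∈ F` and any `t' : Fin n → G'` let `D ≤ G × G'` be the subgroup
generated by the pairs `(t i, t' i)`: it is in `F` (`PV.prod`, `PV.inj`), generated by `n` elements, and it maps onto `G`, so
by maximality the projection `D → G` is bijective. Hence `lift t w = 1` implies `lift (t, t') w = 1` and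
`lift t' w = 1`. So all `w ∈ K` are laws of all groups in `F`. If all `w ∈ K` satisfied `lift x w = 1`, then `X` would be a
quotient of `FreeGroup (Fin n) ⧸ K ≃* G`, so in `F`. -/
theorem exists_law (hF : PV F) {n b : ℕ}
    (hb : ∀ (G : Type) [Group G] (t : Fin n → G), F G → Subgroup.closure (Set.range t) = ⊤ → Nat.card G ≤ b)
    {X : Type} [Group X] (x : Fin n → X) (hx : Subgroup.closure (Set.range x) = ⊤) (hX : ¬ F X) :
    ∃ w : FreeGroup (Fin n), (∀ (G : Type) [Group G], F G → Law w G) ∧ FreeGroup.lift x w ≠ 1 := by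
  let S : Set ℕ := {k | ∃ (G : Type) (_ : Group G) (t : Fin n → G),
    F G ∧ Subgroup.closure (Set.range t) = ⊤ ∧ Nat.card G = k}
  have hS1 : S.Nonempty := ⟨Nat.card Unit, Unit, inferInstance, fun _ => 1, hF.one,
    Subsingleton.elim _ _, rfl⟩
  have hS2 : BddAbove S := by
    refine ⟨b, ?_⟩
    rintro k ⟨G, _, t, hG, ht, rfl⟩
    exact hb G t hG ht
  obtain ⟨G, _, t, hG, ht, hk⟩ := Nat.sSup_mem hS1 hS2
  have hmax : ∀ (D : Type) [Group D] (d : Fin n → D), F D → Subgroup.closure (Set.range d) = ⊤ →
      Nat.card D ≤ Nat.card G := by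
    intro D _ d hD hd
    rw [hk]
    exact le_csSup hS2 ⟨D, inferInstance, d, hD, hd, rfl⟩
  by_contra hcon
  apply hX
  have hker : ∀ w ∈ (FreeGroup.lift t).ker, FreeGroup.lift x w = 1 := by
    intro w hw
    by_contra h
    exact hcon ⟨w, fun G' _ hG' => rel_law hF hG ht hmax hw G' hG', h⟩
  let φ : FreeGroup (Fin n) ⧸ (FreeGroup.lift t).ker →* X :=
    QuotientGroup.lift (FreeGroup.lift t).ker (FreeGroup.lift x) hker
  let ψ : FreeGroup (Fin n) ⧸ (FreeGroup.lift t).ker ≃* G :=
    QuotientGroup.quotientKerEquivOfSurjective (FreeGroup.lift t) (rel_surj ht)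
  refine hF.surj (φ.comp ψ.symm.toMonoidHom) ?_ hG
  intro y
  obtain ⟨w, hw⟩ := rel_surj hx y
  refine ⟨ψ (QuotientGroup.mk w), ?_⟩
  show φ (ψ.symm (ψ (QuotientGroup.mk w))) = y
  rw [MulEquiv.symm_apply_apply]
  exact hw

/-- a finite group is generated by `Nat.card X` elements -/
theorem exists_gen (X : Type) [Group X] [Finite X] :
    ∃ x : Fin (Nat.card X) → X, Subgroup.closure (Set.range x) = ⊤ := by
  refine ⟨(Finite.equivFin X).symm, ?_⟩
  rw [Equiv.range_eq_univ, Subgroup.closure_univ]

/-- `exists_law` for a finite group `X` and `n = Nat.card X` -/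
theorem exists_law' (hF : PV F)
    (hb : ∀ n : ℕ, ∃ b : ℕ, ∀ (G : Type) [Group G] (t : Fin n → G), F G →
      Subgroup.closure (Set.range t) = ⊤ → Nat.card G ≤ b)
    {X : Type} [Group X] [Finite X] (hX : ¬ F X) :
    ∃ (n : ℕ) (w : FreeGroup (Fin n)), (∀ (G : Type) [Group G], F G → Law w G) ∧ ¬ Law w X := by
  obtain ⟨x, hx⟩ := exists_gen X
  obtain ⟨b, hb⟩ := hb (Nat.card X)
  obtain ⟨w, hw, hw2⟩ := exists_law hF hb x hx hX
  exact ⟨Nat.card X, w, hw, fun h => hw2 (h x)⟩

end Pool.Agent.HForm
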