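import Pool.Agent.Lib_MP_4009a7_al.KK
import Pool.Agent.Lib_MP_4009a7_al.Rel
import Pool.Agent.Lib_MP_4009a7_al.Burn

/-!
# Piece WORDS: the laws used in the main argument
-/

set_option autoImplicit false

open scoped commutatorElement

namespace Pool.Agent.HForm

variable {F : GClass}

/-- groups in `F` with a normal elementary abelian `p`-subgroup such that the quotient is a `q`-group -/
def Fpq (F : GClass) (p q : ℕ) : GClass := fun G _ => F G ∧ ∃ (N : Subgroup G) (_ : N.Normal),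
  ElAb p N ∧ IsPGroup q (G ⧸ N)

/-- groups in `F` with normal subgroups `N ≤ M`, `N` elementary abelian `p`, `M / N` a `q`-group, `G / M` an `r`-group -/
def Fpqr (F : GClass) (p q r : ℕ) : GClass := fun G _ => F G ∧ ∃ (N : Subgroup G) (_ : N.Normal),
  ElAb p N ∧ ∃ (Q : Subgroup (G ⧸ N)) (_ : Q.Normal), IsPGroup q Q ∧ IsPGroup r ((G ⧸ N) ⧸ Q)

/-- classes closed under quotients, subgroups and products of two groups -/
private structure WCls (E : GClass) : Prop where
  one : E Unit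
  surj : ∀ {G H : Type} [Group G] [Group H] (f : G →* H), Function.Surjective f → E G → E H
  inj : ∀ {G H : Type} [Group G] [Group H] (f : G →* H), Function.Injective f → E H → E G
  prod : ∀ {G H : Type} [Group G] [Group H], E G → E H → E (G × H)

/-- extensions -/
private def wExt (E₁ E₂ : GClass) : GClass := fun G _ => ∃ (N : Subgroup G) (_ : N.Normal),
  E₁ N ∧ E₂ (G ⧸ N)

private theorem WCls.ext {E₁ E₂ : GClass} (h1 : WCls E₁) (h2 : WCls E₂) : WCls (wExt E₁ E₂) := by
  refine ⟨?_, ?_, ?_, ?_⟩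
  · refine ⟨⊤, inferInstance, h1.inj (Subgroup.subtype ⊤) Subtype.val_injective h1.one,
      h2.surj (QuotientGroup.mk' ⊤) (QuotientGroup.mk'_surjective ⊤) h2.one⟩
  · rintro G H _ _ f hf ⟨N, hN, hN1, hN2⟩
    have hM : (N.map f).Normal := hN.map f hf
    refine ⟨N.map f, hM, h1.surj (f.subgroupMap N) (f.subgroupMap_surjective N) hN1, ?_⟩
    refine h2.surj (QuotientGroup.map N (N.map f) f (Subgroup.le_comap_map f N)) ?_ hN2
    intro y
    obtain ⟨z, rfl⟩ := QuotientGroup.mk_surjective y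
    obtain ⟨x, rfl⟩ := hf z
    exact ⟨QuotientGroup.mk x, rfl⟩
  · rintro G H _ _ f hf ⟨N, hN, hN1, hN2⟩
    have hM : (N.comap f).Normal := hN.comap f
    refine ⟨N.comap f, hM, h1.inj (f.subgroupComap N) ?_ hN1, ?_⟩
    · intro a b hab
      apply Subtype.ext
      apply hf
      exact congrArg Subtype.val hab
    · refine h2.inj (QuotientGroup.map (N.comap f) N f le_rfl) ?_ hN2
      rw [injective_iff_map_eq_one]
      intro y hy
      obtain ⟨x, rfl⟩ := QuotientGroup.mk_surjective y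
      rw [QuotientGroup.map_mk, QuotientGroup.eq_one_iff] at hy
      rw [QuotientGroup.eq_one_iff]
      exact hy
  · rintro G H _ _ ⟨N, hN, hN1, hN2⟩ ⟨M, hM, hM1, hM2⟩
    have hNM : (N.prod M).Normal := Subgroup.prod_normal N M
    refine ⟨N.prod M, hNM, h1.inj (Subgroup.prodEquiv N M).toMonoidHom
      (Subgroup.prodEquiv N M).injective (h1.prod hN1 hM1), ?_⟩
    let φ : G × H →* (G ⧸ N) × (H ⧸ M) :=
      ((QuotientGroup.mk' N).comp (MonoidHom.fst G H)).prod
        ((QuotientGroup.mk' M).comp (MonoidHom.snd G H))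
    have hφ : ∀ x : G × H, φ x = 1 ↔ x ∈ N.prod M := by
      rintro ⟨x, y⟩
      rw [Subgroup.mem_prod]
      constructor
      · intro h
        have h3 : (QuotientGroup.mk x : G ⧸ N) = 1 := congrArg Prod.fst h
        have h4 : (QuotientGroup.mk y : H ⧸ M) = 1 := congrArg Prod.snd h
        exact ⟨(QuotientGroup.eq_one_iff _).1 h3, (QuotientGroup.eq_one_iff _).1 h4⟩
      · rintro ⟨h3, h4⟩
        exact Prod.ext ((QuotientGroup.eq_one_iff _).2 h3) ((QuotientGroup.eq_one_iff _).2 h4)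
    refine h2.inj (QuotientGroup.lift (N.prod M) φ (fun x hx => (hφ x).2 hx)) ?_ (h2.prod hN2 hM2)
    rw [injective_iff_map_eq_one]
    intro y hy
    obtain ⟨x, rfl⟩ := QuotientGroup.mk_surjective y
    rw [QuotientGroup.lift_mk] at hy
    rw [QuotientGroup.eq_one_iff]
    exact (hφ x).1 hy

private theorem wcls_elab (p : ℕ) : WCls (fun G _ => ElAb p G) := by
  refine ⟨⟨fun _ _ => rfl, fun _ => rfl⟩, ?_, ?_, ?_⟩
  · rintro G H _ _ f hf ⟨h1, h2⟩
    refine ⟨fun x y => ?_, fun x => ?_⟩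
    · obtain ⟨a, rfl⟩ := hf x
      obtain ⟨b, rfl⟩ := hf y
      rw [← map_mul, h1, map_mul]
    · obtain ⟨a, rfl⟩ := hf x
      rw [← map_pow, h2, map_one]
  · rintro G H _ _ f hf ⟨h1, h2⟩
    refine ⟨fun x y => hf ?_, fun x => hf ?_⟩
    · rw [map_mul, h1, map_mul]
    · rw [map_pow, h2, map_one]
  · rintro G H _ _ ⟨h1, h2⟩ ⟨h3, h4⟩
    exact ⟨fun x y => Prod.ext (h1 _ _) (h3 _ _), fun x => Prod.ext (h2 _) (h4 _)⟩

private theorem wcls_pgroup (q : ℕ) : WCls (fun G _ => IsPGroup q G) := by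
  refine ⟨fun x => ⟨0, rfl⟩, ?_, ?_, ?_⟩
  · intro G H _ _ f hf h
    exact h.of_surjective f hf
  · intro G H _ _ f hf h
    exact h.of_injective f hf
  · rintro G H _ _ h1 h2 ⟨x, y⟩
    obtain ⟨a, ha⟩ := h1 x
    obtain ⟨b, hb⟩ := h2 y
    refine ⟨a + b, Prod.ext ?_ ?_⟩
    · show x ^ q ^ (a + b) = 1
      rw [pow_add, pow_mul, ha, one_pow]
    · show y ^ q ^ (a + b) = 1
      rw [pow_add, mul_comm, pow_mul, hb, one_pow]

private theorem PV.wext (hF : PV F) {E : GClass} (hE : WCls E) : PV (fun G _ => F G ∧ E G) := by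
  refine ⟨fun {G} _ h => hF.fin h.1, ⟨hF.one, hE.one⟩, ?_, ?_, ?_⟩
  · intro G H _ _ f hf h
    exact ⟨hF.surj f hf h.1, hE.surj f hf h.2⟩
  · intro G H _ _ f hf h
    exact ⟨hF.inj f hf h.1, hE.inj f hf h.2⟩
  · intro G H _ _ h1 h2
    exact ⟨hF.prod h1.1 h2.1, hE.prod h1.2 h2.2⟩

/-- PROOF. For a homomorphic image take the image of `N`, for a subgroup the intersection, for a product the product. -/
theorem PV.fpq (hF : PV F) (p q : ℕ) : PV (Fpq F p q) :=
  hF.wext ((wcls_elab p).ext (wcls_pgroup q))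

theorem PV.fpqr (hF : PV F) (p q r : ℕ) : PV (Fpqr F p q r) :=
  hF.wext ((wcls_elab p).ext ((wcls_pgroup q).ext (wcls_pgroup r)))

/-- derived lengths of extensions -/
private theorem w_derived {G : Type} [Group G] (Q : Subgroup G) [Q.Normal] {a b : ℕ}
    (h1 : derivedSeries (G ⧸ Q) a = ⊥) (h2 : derivedSeries Q b = ⊥) :
    derivedSeries G (a + b) = ⊥ := by
  have h3 : ∀ k, derivedSeries G (a + k) ≤ (derivedSeries Q k).map Q.subtype := by
    intro k
    induction k with
    | zero =>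
      rw [add_zero, derivedSeries_zero, ← MonoidHom.range_eq_map, Subgroup.range_subtype]
      intro x hx
      have h4 : QuotientGroup.mk' Q x ∈ derivedSeries (G ⧸ Q) a :=
        map_derivedSeries_le_derivedSeries (QuotientGroup.mk' Q) a (Subgroup.mem_map_of_mem _ hx)
      rw [h1, Subgroup.mem_bot] at h4
      exact (QuotientGroup.eq_one_iff x).1 h4
    | succ k ih =>
      rw [← add_assoc, derivedSeries_succ, derivedSeries_succ, Subgroup.map_commutator]
      exact Subgroup.commutator_mono ih ih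
  have h4 := h3 b
  rw [h2, Subgroup.map_bot] at h4
  exact le_bot_iff.1 h4

private theorem w_derived_comm {G : Type} [Group G] (h : ∀ x y : G, x * y = y * x) :
    derivedSeries G 1 = ⊥ := by
  rw [derivedSeries_one, commutator_def, eq_bot_iff, Subgroup.commutator_le]
  intro x _ y _
  rw [Subgroup.mem_bot, commutatorElement_eq_one_iff_mul_comm]
  exact h x y

private theorem w_pgroup_derived (hF : PV F) {c : ℕ} (hcl : NilLe F c) {q : ℕ} (hq : q.Prime)
    {G : Type} [Group G] (hG : F G) (h : IsPGroup q G) : derivedSeries G c = ⊥ :=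
  derived_of_nilp (hcl G hG q hq h)

/-- the kernel of `SD ρ → T` is elementary abelian -/
private theorem w_ker_elab {p : ℕ} {T V : Type} [Group T] [AddCommGroup V] [Module (ZMod p) V]
    (ρ : T →* Module.End (ZMod p) V) : ElAb p (SD.toH ρ).ker := by
  have h0 : ∀ x : (SD.toH ρ).ker, (x : SD ρ).h = 1 := fun x => x.2
  refine ⟨fun x y => Subtype.ext ?_, fun x => Subtype.ext ?_⟩
  · show (x : SD ρ) * (y : SD ρ) = (y : SD ρ) * (x : SD ρ)
    ext
    · rw [SD.mul_v, SD.mul_v, h0 x, h0 y, map_one, Module.End.one_apply, Module.End.one_apply,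
        add_comm]
    · rw [SD.mul_h, SD.mul_h, h0 x, h0 y]
  · have h1 : ∀ k : ℕ, ((x : SD ρ) ^ k).v = k • (x : SD ρ).v ∧ ((x : SD ρ) ^ k).h = 1 := by
      intro k
      induction k with
      | zero => exact ⟨by rw [pow_zero, zero_smul]; rfl, rfl⟩
      | succ k ih =>
        rw [pow_succ]
        refine ⟨?_, ?_⟩
        · rw [SD.mul_v, ih.1, ih.2, map_one, Module.End.one_apply, succ_nsmul]
        · rw [SD.mul_h, ih.2, h0 x, one_mul]
    show (x : SD ρ) ^ p = 1
    ext
    · rw [(h1 p).1, ← Nat.cast_smul_eq_nsmul (ZMod p), ZMod.natCast_self, zero_smul]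
      rfl
    · exact (h1 p).2

/-- PROOF. Let `X` be in `AT p q` and not in `F`, so not in `Fpq F p q`. The groups in `Fpq F p q` have exponent dividing `e` and derived length at most `c + 1` (`G ⧸ N` is a `q`-group in `F`, so it has class
`≤ c`, so `derivedSeries (G ⧸ N) c = ⊥` (`derived_of_nilp`)); by `burn` they are locally bounded and by `exists_law'` (for `Fpq F p q`) there is a law `w` of `Fpq F p q` which is not a law of
`X`. By `law_of_kills` (`X` has a normal `N`, `ElAb p N`, with quotient in `TT q`) `¬ Kills p (TT q) w`. Finally `SD ρ` is in `Fpq F p q` with `N = {⟨v, 1⟩}`. -/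
theorem exists_word_pq (hF : PV F) {e c : ℕ} (he : 0 < e) (hexp : ExpLe F e) (hcl : NilLe F c) {p q : ℕ}
    (hp : p.Prime) (hq : q.Prime) (hAT : ¬ Le (AT p q) F) :
    ∃ (n : ℕ) (w : FreeGroup (Fin n)), ¬ Kills p (TT q) w ∧
      ∀ (T V : Type) [Group T] [AddCommGroup V] [Module (ZMod p) V] (ρ : T →* Module.End (ZMod p) V),
        IsPGroup q T → F (SD ρ) → Law w (SD ρ) := by
  unfold Le at hAT
  push Not at hAT
  obtain ⟨X, _, hX, hXF⟩ := hAT
  have hfin : Finite X := hX.1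
  have hb : ∀ n : ℕ, ∃ b : ℕ, ∀ (G : Type) [Group G] (t : Fin n → G), Fpq F p q G →
      Subgroup.closure (Set.range t) = ⊤ → Nat.card G ≤ b := by
    intro n
    obtain ⟨b, hb⟩ := burn e (c + 1) n he
    refine ⟨b, ?_⟩
    rintro G _ t ⟨hG, N, hN, hN1, hN2⟩ ht
    refine (hb G t ht (hexp G hG) (w_derived N ?_ (w_derived_comm hN1.1))).2
    exact w_pgroup_derived hF hcl hq (hF.surj (QuotientGroup.mk' N)
      (QuotientGroup.mk'_surjective N) hG) hN2
  obtain ⟨n, w, hw1, hw2⟩ := exists_law' (hF.fpq p q) hb (fun h => hXF h.1)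
  refine ⟨n, w, fun hk => ?_, ?_⟩
  · obtain ⟨N, hN, hN1, hN2⟩ := hX.2
    exact hw2 (law_of_kills hk N hN1 hN2)
  · intro T V _ _ _ ρ hT hS
    refine hw1 (SD ρ) ⟨hS, (SD.toH ρ).ker, inferInstance, w_ker_elab ρ, ?_⟩
    exact hT.of_injective (QuotientGroup.kerLift (SD.toH ρ)) (QuotientGroup.kerLift_injective _)

/-- the same with `Fpqr`, `A3 p q r` -/
theorem exists_word_pqr (hF : PV F) {e c : ℕ} (he : 0 < e) (hexp : ExpLe F e) (hcl : NilLe F c) {p q r : ℕ}
    (hp : p.Prime) (hq : q.Prime) (hr : r.Prime) (hA : ¬ Le (A3 p q r) F) :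
    ∃ (n : ℕ) (w : FreeGroup (Fin n)), ¬ Kills p (A2 q r) w ∧
      ∀ (T V : Type) [Group T] [AddCommGroup V] [Module (ZMod p) V] (ρ : T →* Module.End (ZMod p) V)
        (Q : Subgroup T) [Q.Normal], IsPGroup q Q → IsPGroup r (T ⧸ Q) → F (SD ρ) → Law w (SD ρ) := by
  unfold Le at hA
  push Not at hA
  obtain ⟨X, _, hX, hXF⟩ := hA
  have hfin : Finite X := hX.1
  have hb : ∀ n : ℕ, ∃ b : ℕ, ∀ (G : Type) [Group G] (t : Fin n → G), Fpqr F p q r G →
      Subgroup.closure (Set.range t) = ⊤ → Nat.card G ≤ b := by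
    intro n
    obtain ⟨b, hb⟩ := burn e (c + c + 1) n he
    refine ⟨b, ?_⟩
    rintro G _ t ⟨hG, N, hN, hN1, Q, hQ, hQ1, hQ2⟩ ht
    have hGN : F (G ⧸ N) := hF.surj (QuotientGroup.mk' N) (QuotientGroup.mk'_surjective N) hG
    have hGQ : F ((G ⧸ N) ⧸ Q) := hF.surj (QuotientGroup.mk' Q) (QuotientGroup.mk'_surjective Q) hGN
    have hQF : F Q := hF.inj Q.subtype Subtype.val_injective hGN
    refine (hb G t ht (hexp G hG) (w_derived N (w_derived Q ?_ ?_) (w_derived_comm hN1.1))).2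
    · exact w_pgroup_derived hF hcl hr hGQ hQ2
    · exact w_pgroup_derived hF hcl hq hQF hQ1
  obtain ⟨n, w, hw1, hw2⟩ := exists_law' (hF.fpqr p q r) hb (fun h => hXF h.1)
  refine ⟨n, w, fun hk => ?_, ?_⟩
  · obtain ⟨N, hN, hN1, hN2⟩ := hX.2
    exact hw2 (law_of_kills hk N hN1 hN2)
  · intro T V _ _ _ ρ Q _ hQ1 hQ2 hS
    refine hw1 (SD ρ) ⟨hS, (SD.toH ρ).ker, inferInstance, w_ker_elab ρ, ?_⟩
    exact ((wcls_pgroup q).ext (wcls_pgroup r)).inj (QuotientGroup.kerLift (SD.toH ρ))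
      (QuotientGroup.kerLift_injective _) ⟨Q, inferInstance, hQ1, hQ2⟩

end Pool.Agent.HForm
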