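import Pool.Agent.Lib_MP_4009a7_al.AlA
import Pool.Agent.Lib_MP_4009a7_al.AlC
import Pool.Agent.Lib_MP_4009a7_al.Words

/-!
# Piece ALS: the alpha bound
-/

set_option autoImplicit false

open scoped commutatorElement TensorProduct

namespace Pool.Agent.HForm

/-- PROOF. Induction on `c`. `c ≤ 1`: `alphaF_one`. `c ≥ 2`: let `B` be the bound for `c - 1` (`AlphaB` by `alphaB_of_alphaF`), `N` from `cl'`, `K0` from `alpha_centralizer`. Let `Z2 = upperCentralSeries T 2`,
`S = centralizer Z2`, `A = Z2 ⊓ S`, `R = centralizer A`. (1) `⁅t, x⁆` is central for `x ∈ Z2`, and central elements act as scalars (`schur`); `cl'` for the subgroup `Z2`, the subspace `⊤` and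
`rad = A` gives `A.relIndex Z2 ≤ N` (if `ρ ⁅g, h⁆ = 1` then `⁅g, h⁆ = 1`). (2) `S.relIndex R ≤ e ^ N` (`relIndex_centralizer_le`, `center_card_le`). (3) `R.index ≤ K0` (`alpha_centralizer`; `A` is normal, commutative, `≤ Z2`).
So `S.index ≤ e ^ N * K0`. (4) `S` has class `≤ c - 1` (`class_centralizer`). Let `W` be irreducible for `ρ.comp S.subtype`; the kernel has index `≤ B`, so `Nat.card S ≤ B ^ S.index` (`card_le_of_translates`).
So `Nat.card T = Nat.card S * S.index ≤ (max B 1) ^ (e ^ N * K0) * (e ^ N * K0)`. -/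
theorem alpha_all {K : Type} [Field K] [IsAlgClosed K] {p q : ℕ} [Fact p.Prime] [CharP K p] (hq : q.Prime)
    (hpq : p ≠ q) {e : ℕ} (he : 0 < e) {n : ℕ} (w : FreeGroup (Fin n)) (hw : ¬ Kills p (TT q) w) (c : ℕ) :
    ∃ B : ℕ, AlphaF K q e w c B := by
  induction c with
  | zero => exact ⟨e, alphaF_one he (by omega)⟩
  | succ c ih =>
    rcases Nat.eq_zero_or_pos c with hc | hc
    · exact ⟨e, alphaF_one he (by omega)⟩
    obtain ⟨B, hB⟩ := ih
    have hBB : AlphaB K q e w c B := alphaB_of_alphaF hB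
    obtain ⟨N, hN⟩ := cl' (K := K) hq hpq he w hw
    obtain ⟨K0, hK0⟩ := alpha_centralizer (K := K) hq hpq he w hw (c := c + 1) (B := B)
      (by omega) (by rw [Nat.add_sub_cancel]; exact hBB)
    refine ⟨(max B 1) ^ (e ^ N * K0) * (e ^ N * K0), ?_⟩
    intro T M _ _ _ _ _ ρ hT hexp hlcs hsat hinj hirr
    have hZ : Nat.card (Subgroup.center T) ≤ e := center_card_le he hexp ρ hinj hirr
    have hc2 := class_centralizer (T := T) (c := c + 1) (by omega) hlcs
    have hX : ∀ x ∈ Subgroup.upperCentralSeries T 2, ∀ t : T, ⁅t, x⁆ ∈ Subgroup.center T := by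
      intro x hx t
      have h1 : ⁅x, t⁆ ∈ Subgroup.center T := by
        rw [Subgroup.mem_upperCentralSeries_succ_iff] at hx
        have h2 := hx t
        rwa [Subgroup.upperCentralSeries_one] at h2
      rw [← commutatorElement_inv]
      exact (Subgroup.center T).inv_mem h1
    have hZn : (Subgroup.upperCentralSeries T 2).Normal := inferInstance
    generalize hZ2 : Subgroup.upperCentralSeries T 2 = X at *
    have hSn : (Subgroup.centralizer (X : Set T)).Normal := inferInstance
    have hAn : (X ⊓ Subgroup.centralizer (X : Set T)).Normal := inferInstance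
    have hAab : ∀ a ∈ X ⊓ Subgroup.centralizer (X : Set T),
        ∀ b ∈ X ⊓ Subgroup.centralizer (X : Set T), a * b = b * a := by
      intro a ha b hb
      exact Subgroup.mem_centralizer_iff.1 hb.2 a ha.1
    have h1 : (X ⊓ Subgroup.centralizer (X : Set T)).relIndex X ≤ N := by
      refine hN T M ρ hT hexp hsat X ⊤ (irrSub_top_iff.2 hirr).2.1 (fun _ _ _ _ => trivial) ?_
        (X ⊓ Subgroup.centralizer (X : Set T)) inf_le_left ?_
      · intro g hg h hh
        have hz : ⁅g, h⁆ ∈ Subgroup.center T := hX h hh g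
        obtain ⟨μ, hμ⟩ := schur (irrSub_top_iff.2 hirr) (ρ ⁅g, h⁆) (fun _ _ => trivial)
          (fun k u _ => by
            rw [← Module.End.mul_apply, ← Module.End.mul_apply, ← map_mul, ← map_mul,
              Subgroup.mem_center_iff.1 hz k])
        exact ⟨μ, hμ⟩
      · intro g hg hgr
        refine ⟨hg, Subgroup.mem_centralizer_iff.2 fun h hh => ?_⟩
        have h2 : ρ ⁅g, h⁆ = ρ 1 := by
          rw [map_one]
          ext v
          rw [hgr h hh v trivial, Module.End.one_apply]
        exact (commutatorElement_eq_one_iff_mul_comm.1 (hinj h2)).symm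
    have h2 := relIndex_centralizer_le hZ X (X ⊓ Subgroup.centralizer (X : Set T)) hX
      inf_le_left h1
    have h3 := hK0 T M ρ hT hexp hlcs hsat hinj hirr (X ⊓ Subgroup.centralizer (X : Set T)) hAn
      hAab (fun a ha t => hX a ha.1 t)
    have h4 : Subgroup.centralizer (X : Set T) ≤
        Subgroup.centralizer ((X ⊓ Subgroup.centralizer (X : Set T) : Subgroup T) : Set T) :=
      Subgroup.centralizer_le inf_le_left
    have h5 : (Subgroup.centralizer (X : Set T)).index ≤ e ^ N * K0 := by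
      rw [← Subgroup.relIndex_mul_index h4]
      exact Nat.mul_le_mul h2 h3
    obtain ⟨W, -, hW⟩ := exists_irrSub (ρ.comp (Subgroup.centralizer (X : Set T)).subtype)
      (W := (⊤ : Submodule K M)) (fun _ _ _ => trivial) (irrSub_top_iff.2 hirr).2.1
    have h6 : (kerOn (ρ.comp (Subgroup.centralizer (X : Set T)).subtype) W).index ≤ B := by
      refine hBB (Subgroup.centralizer (X : Set T)) M
        (ρ.comp (Subgroup.centralizer (X : Set T)).subtype) (hT.to_subgroup _)
        (fun x => Subtype.ext (hexp x)) ?_ (hsat.comp _) W hW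
      rw [Nat.add_sub_cancel] at hc2
      exact hc2
    have h7 := card_le_of_translates ρ hinj hirr (Subgroup.centralizer (X : Set T)) hSn W hW.1
      hW.2.1 h6
    have h8 : B ^ (Subgroup.centralizer (X : Set T)).index ≤ (max B 1) ^ (e ^ N * K0) :=
      (Nat.pow_le_pow_left (le_max_left _ _) _).trans
        (Nat.pow_le_pow_right (lt_of_lt_of_le Nat.one_pos (le_max_right _ _)) h5)
    rw [← Subgroup.card_mul_index (Subgroup.centralizer (X : Set T))]
    exact Nat.mul_le_mul (h7.trans h8) h5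

/-- THE ALPHA BOUND. PROOF. Let `w` be from `exists_word_pq`, `K = AlgebraicClosure (ZMod p)`, `B` from `alpha_all` and `alphaB_of_alphaF`. `T` is a homomorphic image of `SD ρ`, so it is in `F`, finite, of
exponent dividing `e` and class `≤ c`. `V` is finite (`SD ρ` is), so finite-dimensional. `σ = subRep ρ U` is irreducible, `Sat w σ` (`sat_of_law`, `Sat.sub`), so `Sat w (bcRep K σ)` (`Sat.bc`). Let `U'` be an irreducible
subspace for `bcRep K σ` (`exists_irrSub`, `⊤ ≠ ⊥`). Then `(kerOn (bcRep K σ) U').index ≤ B` and `kerOn (bcRep K σ) U' = σ.ker = kerOn ρ U` (`kerOn_bc`, `ker_subRep`). -/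
theorem alphaP {F : GClass} (hF : PV F) {e c : ℕ} (he : 0 < e) (hexp : ExpLe F e) (hcl : NilLe F c) {p q : ℕ}
    (hp : p.Prime) (hq : q.Prime) (hpq : p ≠ q) (hAT : ¬ Le (AT p q) F) : ∃ B : ℕ,
    ∀ (T V : Type) [Group T] [AddCommGroup V] [Module (ZMod p) V] (ρ : T →* Module.End (ZMod p) V),
      IsPGroup q T → F (SD ρ) → ∀ U : Submodule (ZMod p) V, IrrSub ρ U → (kerOn ρ U).index ≤ B := by
  have hpf : Fact p.Prime := ⟨hp⟩
  obtain ⟨n, w, hk, hlaw⟩ := exists_word_pq hF he hexp hcl hp hq hAT
  have hchar : CharP (AlgebraicClosure (ZMod p)) p :=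
    charP_of_injective_algebraMap (algebraMap (ZMod p) (AlgebraicClosure (ZMod p))).injective p
  obtain ⟨B, hB⟩ := alpha_all (K := AlgebraicClosure (ZMod p)) hq hpq he w hk c
  have hBB := alphaB_of_alphaF hB
  refine ⟨B, ?_⟩
  intro T V _ _ _ ρ hT hFS U hU
  have hFT : F T := hF.surj (SD.toH ρ) (fun h => ⟨⟨0, h⟩, rfl⟩) hFS
  have hfT : Finite T := hF.fin hFT
  have hfS : Finite (SD ρ) := hF.fin hFS
  have hfV : Finite V := Finite.of_injective (fun v : V => (⟨v, 1⟩ : SD ρ))
    (fun a b hab => congrArg SD.v hab)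
  have hfd : FiniteDimensional (ZMod p) V := Module.Finite.of_finite
  have hsat : Sat w ρ := sat_of_law (hlaw T V ρ hT hFS)
  have hirr := hU.irr
  have hnt : Nontrivial U := hirr.1
  have hne : (⊤ : Submodule (AlgebraicClosure (ZMod p)) (AlgebraicClosure (ZMod p) ⊗[ZMod p] U)) ≠ ⊥ := by
    have h1 : 0 < Module.finrank (AlgebraicClosure (ZMod p))
        (AlgebraicClosure (ZMod p) ⊗[ZMod p] U) := by
      rw [Module.finrank_baseChange]
      exact Module.finrank_pos
    have h2 := Module.nontrivial_of_finrank_pos h1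
    exact top_ne_bot
  obtain ⟨U', -, hU'⟩ := exists_irrSub (bcRep (AlgebraicClosure (ZMod p)) (subRep ρ U hU.1))
    (W := ⊤) (fun _ _ _ => trivial) hne
  have h3 := hBB T _ (bcRep (AlgebraicClosure (ZMod p)) (subRep ρ U hU.1)) hT (hexp T hFT)
    (hcl T hFT q hq hT) (hsat.sub U hU.1).bc U' hU'
  rwa [kerOn_bc hirr hU'.1 hU'.2.1, ker_subRep] at h3

end Pool.Agent.HForm
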