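import Pool.Agent.Lib_MP_4009a7_al.Defs

/-!
# MP_4009a7_al: working notions

`PV`: pseudovarieties (= hereditary formations), `Law`: laws, `SD ρ`: semidirect products, `fox`: Fox
derivatives, `Sat w ρ`: the representation `ρ` satisfies the word `w`; invariant subspaces.
-/

set_option autoImplicit false

open scoped commutatorElement

namespace Pool.Agent.HForm

/-- pseudovarieties of finite groups (the same as hereditary formations, see `pv_iff`) -/
structure PV (F : GClass) : Prop where
  fin : ∀ {G : Type} [Group G], F G → Finite G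
  one : F Unit
  surj : ∀ {G H : Type} [Group G] [Group H] (f : G →* H), Function.Surjective f → F G → F H
  inj : ∀ {G H : Type} [Group G] [Group H] (f : G →* H), Function.Injective f → F H → F G
  prod : ∀ {G H : Type} [Group G] [Group H], F G → F H → F (G × H)

/-- the word `w` is a law of `G` -/
def Law {n : ℕ} (w : FreeGroup (Fin n)) (G : Type) [Group G] : Prop :=
  ∀ t : Fin n → G, FreeGroup.lift t w = 1

/-- exponent dividing `e` in the whole class -/
def ExpLe (F : GClass) (e : ℕ) : Prop := ∀ (G : Type) [Group G], F G → ∀ x : G, x ^ e = 1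

/-- all `p`-groups in the class have nilpotency class at most `c`, for all primes `p` -/
def NilLe (F : GClass) (c : ℕ) : Prop := ∀ (G : Type) [Group G], F G → ∀ p : ℕ, p.Prime → IsPGroup p G →
  (⊤ : Subgroup G).lowerCentralSeries c = ⊥

section SDsec

variable {R V H : Type} [Semiring R] [AddCommGroup V] [Module R V] [Group H]

/-- the semidirect product `V ⋊ H` for a representation `ρ` -/
@[ext] structure SD (ρ : H →* Module.End R V) where
  v : V
  h : H

variable (ρ : H →* Module.End R V)

instance : Mul (SD ρ) := ⟨fun a b => ⟨a.v + ρ a.h b.v, a.h * b.h⟩⟩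
instance : One (SD ρ) := ⟨⟨0, 1⟩⟩
instance : Inv (SD ρ) := ⟨fun a => ⟨-(ρ a.h⁻¹ a.v), a.h⁻¹⟩⟩

@[simp] theorem SD.mul_v (a b : SD ρ) : (a * b).v = a.v + ρ a.h b.v := rfl
@[simp] theorem SD.mul_h (a b : SD ρ) : (a * b).h = a.h * b.h := rfl
@[simp] theorem SD.one_v : (1 : SD ρ).v = 0 := rfl
@[simp] theorem SD.one_h : (1 : SD ρ).h = 1 := rfl
@[simp] theorem SD.inv_v (a : SD ρ) : (a⁻¹).v = -(ρ a.h⁻¹ a.v) := rfl
@[simp] theorem SD.inv_h (a : SD ρ) : (a⁻¹).h = a.h⁻¹ := rfl

instance : Group (SD ρ) where
  mul_assoc a b c := by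
    ext
    · simp [add_assoc]
    · simp [mul_assoc]
  one_mul a := by ext <;> simp
  mul_one a := by ext <;> simp
  inv_mul_cancel a := by ext <;> simp

/-- `V ⋊ H → H` -/
def SD.toH : SD ρ →* H where
  toFun a := a.h
  map_one' := rfl
  map_mul' _ _ := rfl

/-- `H → V ⋊ H` -/
def SD.inr : H →* SD ρ where
  toFun h := ⟨0, h⟩
  map_one' := rfl
  map_mul' a b := by ext <;> simp

end SDsec

/-- left translations of the group ring of the free group -/
noncomputable def trRep (n : ℕ) : FreeGroup (Fin n) →* Module.End ℤ (FreeGroup (Fin n) →₀ ℤ) where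
  toFun g := Finsupp.lmapDomain ℤ ℤ (fun x => g * x)
  map_one' := by
    ext x : 2
    simp
  map_mul' a b := by
    ext x : 2
    simp [Finsupp.mapDomain_single, mul_assoc]

/-- Fox derivatives: `fox i (u * w) = fox i u + u * fox i w`, `fox i (x_j) = δ_ij` -/
noncomputable def fox {n : ℕ} (i : Fin n) (w : FreeGroup (Fin n)) : FreeGroup (Fin n) →₀ ℤ :=
  (FreeGroup.lift (fun j => (⟨if j = i then Finsupp.single 1 1 else 0, FreeGroup.of j⟩ :
    SD (trRep n))) w).v

section Satsec

variable {R V H : Type} [Ring R] [AddCommGroup V] [Module R V] [Group H]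

/-- evaluation of an element of the group ring of the free group -/
noncomputable def ev {n : ℕ} (ρ : H →* Module.End R V) (t : Fin n → H)
    (f : FreeGroup (Fin n) →₀ ℤ) : Module.End R V :=
  f.sum fun g c => c • ρ (FreeGroup.lift t g)

/-- the representation satisfies the word `w`: `w` is a law in `V ⋊ (H ⧸ ker ρ)` -/
def Sat {n : ℕ} (w : FreeGroup (Fin n)) (ρ : H →* Module.End R V) : Prop :=
  ∀ t : Fin n → H, ρ (FreeGroup.lift t w) = 1 ∧ ∀ i, ev ρ t (fox i w) = 0

/-- invariant subspaces -/
def Inv (ρ : H →* Module.End R V) (U : Submodule R V) : Prop := ∀ h : H, ∀ v ∈ U, ρ h v ∈ U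

/-- the restriction to an invariant subspace -/
def subRep (ρ : H →* Module.End R V) (U : Submodule R V) (hU : Inv ρ U) : H →* Module.End R U where
  toFun h := (ρ h).restrict (hU h)
  map_one' := by
    ext v
    simp
  map_mul' a b := by
    ext v
    simp

@[simp] theorem subRep_apply (ρ : H →* Module.End R V) (U : Submodule R V) (hU : Inv ρ U) (h : H) (v : U) :
    ((subRep ρ U hU h v : U) : V) = ρ h v := rfl

/-- irreducible (minimal) invariant subspaces -/
def IrrSub (ρ : H →* Module.End R V) (U : Submodule R V) : Prop :=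
  Inv ρ U ∧ U ≠ ⊥ ∧ ∀ U' : Submodule R V, Inv ρ U' → U' ≤ U → U' = ⊥ ∨ U' = U

/-- irreducible representations -/
def Irr (ρ : H →* Module.End R V) : Prop :=
  Nontrivial V ∧ ∀ U : Submodule R V, Inv ρ U → U = ⊥ ∨ U = ⊤

/-- the kernel of the action on `U` -/
def kerOn (ρ : H →* Module.End R V) (U : Submodule R V) : Subgroup H where
  carrier := {h | ∀ v ∈ U, ρ h v = v}
  mul_mem' {a b} ha hb v hv := by
    rw [map_mul, Module.End.mul_apply, hb v hv, ha v hv]
  one_mem' v _ := by simp
  inv_mem' {a} ha v hv := by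
    have h1 : ρ a⁻¹ (ρ a v) = v := by
      rw [← Module.End.mul_apply, ← map_mul]; simp
    rw [ha v hv] at h1
    exact h1

/-- the fixed points of a subgroup -/
def fixed (ρ : H →* Module.End R V) (N : Subgroup H) : Submodule R V where
  carrier := {v | ∀ h ∈ N, ρ h v = v}
  add_mem' {a b} ha hb h hh := by rw [map_add, ha h hh, hb h hh]
  zero_mem' h _ := by simp
  smul_mem' r v hv h hh := by rw [map_smul, hv h hh]

theorem mem_kerOn {ρ : H →* Module.End R V} {U : Submodule R V} {h : H} :
    h ∈ kerOn ρ U ↔ ∀ v ∈ U, ρ h v = v := Iff.rfl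

theorem mem_fixed {ρ : H →* Module.End R V} {N : Subgroup H} {v : V} :
    v ∈ fixed ρ N ↔ ∀ h ∈ N, ρ h v = v := Iff.rfl

end Satsec

/-- two words agree in all groups of the class -/
def Eqv (E : GClass) {n : ℕ} (g g' : FreeGroup (Fin n)) : Prop :=
  ∀ (X : Type) [Group X], E X → ∀ t : Fin n → X, FreeGroup.lift t g = FreeGroup.lift t g'

open Classical in
/-- `w` is a law of the class `E` and all Fox derivatives of `w` vanish modulo `p` in the group rings of the
relatively free groups of `E` (this implies that `w` is a law of `A_p E`, see `law_of_kills`) -/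
def Kills (p : ℕ) (E : GClass) {n : ℕ} (w : FreeGroup (Fin n)) : Prop :=
  Eqv E w 1 ∧ ∀ (i : Fin n) (g₁ : FreeGroup (Fin n)),
    ∑ g ∈ (fox i w).support.filter (fun g => Eqv E g g₁), ((fox i w g : ℤ) : ZMod p) = 0

/-! ### chief factors -/

section chief

variable {G : Type} [Group G]

/-- minimal normal subgroups -/
def IsMinNormal (N : Subgroup G) : Prop :=
  N.Normal ∧ N ≠ ⊥ ∧ ∀ M : Subgroup G, M.Normal → M ≤ N → M = ⊥ ∨ M = N

/-- chief factors `K / L` -/
def IsChief (L K : Subgroup G) : Prop :=
  L.Normal ∧ K.Normal ∧ L < K ∧ ∀ M : Subgroup G, M.Normal → L ≤ M → M ≤ K → M = L ∨ M = K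

/-- all chief factors have order at most `m` -/
def ChiefLe (F : GClass) (m : ℕ) : Prop := ∀ (G : Type) [Group G], F G → ∀ L K : Subgroup G,
  IsChief L K → L.relIndex K ≤ m

/-- the largest normal `p`-subgroup -/
def pcore (p : ℕ) (G : Type) [Group G] : Subgroup G :=
  ⨆ (N : Subgroup G) (_ : N.Normal ∧ IsPGroup p N), N

end chief

end Pool.Agent.HForm
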