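import Pool.Agent.Lib_MP_4009a7_al.FoxL

/-!
# Piece REPT: representation theory tools I
-/

set_option autoImplicit false

open scoped commutatorElement

namespace Pool.Agent.HForm

section tools

variable {R V H : Type} [Field R] [AddCommGroup V] [Module R V] [Group H]

/-- take a nonzero invariant subspace of `W` of minimal dimension -/
theorem exists_irrSub [FiniteDimensional R V] (ρ : H →* Module.End R V) {W : Submodule R V}
    (hW : Inv ρ W) (h : W ≠ ⊥) : ∃ U ≤ W, IrrSub ρ U := by
  obtain ⟨U, hU, hmin⟩ := exists_minimal_le_of_wellFoundedLT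
    (fun U : Submodule R V => Inv ρ U ∧ U ≠ ⊥) W ⟨hW, h⟩
  refine ⟨U, hU, hmin.prop.1, hmin.prop.2, fun U' h1 h2 => ?_⟩
  by_cases h3 : U' = ⊥
  · exact Or.inl h3
  · exact Or.inr (le_antisymm h2 (hmin.le_of_le ⟨h1, h3⟩ h2))

theorem irrSub_top_iff {ρ : H →* Module.End R V} : IrrSub ρ ⊤ ↔ Irr ρ := by
  constructor
  · rintro ⟨_, h2, h3⟩
    refine ⟨?_, fun U hU => h3 U hU le_top⟩
    rw [← Submodule.nontrivial_iff R]
    exact ⟨⊤, ⊥, h2⟩
  · rintro ⟨h1, h2⟩
    refine ⟨fun _ _ _ => trivial, ?_, fun U' hU' _ => h2 U' hU'⟩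
    have := (Submodule.nontrivial_iff R (M := V)).2 h1
    exact top_ne_bot

theorem IrrSub.irr {ρ : H →* Module.End R V} {U : Submodule R V} (h : IrrSub ρ U) :
    Irr (subRep ρ U h.1) := by
  obtain ⟨h1, h2, h3⟩ := h
  refine ⟨Submodule.nontrivial_iff_ne_bot.2 h2, fun W hW => ?_⟩
  have hW' : Inv ρ (W.map U.subtype) := by
    rintro g _ ⟨w, hw, rfl⟩
    exact ⟨subRep ρ U h1 g w, hW g w hw, rfl⟩
  rcases h3 _ hW' (Submodule.map_subtype_le U W) with h4 | h4
  · left
    rw [Submodule.eq_bot_iff]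
    intro w hw
    have h5 : U.subtype w ∈ W.map U.subtype := ⟨w, hw, rfl⟩
    rw [h4, Submodule.mem_bot] at h5
    exact Subtype.ext h5
  · right
    rw [eq_top_iff]
    rintro ⟨v, hv⟩ _
    have h5 : v ∈ W.map U.subtype := by rw [h4]; exact hv
    obtain ⟨w, hw, hwv⟩ := h5
    have h6 : w = ⟨v, hv⟩ := Subtype.ext hwv
    rw [← h6]
    exact hw

theorem ker_subRep (ρ : H →* Module.End R V) (U : Submodule R V) (hU : Inv ρ U) :
    (subRep ρ U hU).ker = kerOn ρ U := by
  ext h
  rw [MonoidHom.mem_ker, mem_kerOn]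
  constructor
  · intro h1 v hv
    have h2 := congrArg (fun f : Module.End R U => ((f ⟨v, hv⟩ : U) : V)) h1
    simpa using h2
  · intro h1
    ext ⟨v, hv⟩
    simpa using h1 v hv

theorem kerOn_normal {ρ : H →* Module.End R V} {U : Submodule R V} (hU : Inv ρ U) :
    (kerOn ρ U).Normal := by
  refine ⟨fun n hn g v hv => ?_⟩
  have h1 : ρ n (ρ g⁻¹ v) = ρ g⁻¹ v := hn _ (hU g⁻¹ v hv)
  rw [map_mul, map_mul, Module.End.mul_apply, Module.End.mul_apply, h1, ← Module.End.mul_apply,
    ← map_mul, mul_inv_cancel, map_one, Module.End.one_apply]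

/-- if `x` normalises `N` then `ρ x` maps the fixed points of `N` to fixed points -/
theorem fixed_map {ρ : H →* Module.End R V} {N : Subgroup H} {x : H} (hx : ∀ n ∈ N, x⁻¹ * n * x ∈ N)
    {v : V} (hv : v ∈ fixed ρ N) : ρ x v ∈ fixed ρ N := by
  intro h hh
  have h1 : ρ (x⁻¹ * h * x) v = v := hv _ (hx h hh)
  rw [← Module.End.mul_apply, ← map_mul]
  have h2 : h * x = x * (x⁻¹ * h * x) := by group
  rw [h2, map_mul, Module.End.mul_apply, h1]

theorem fixed_inv (ρ : H →* Module.End R V) {N : Subgroup H} (hN : N.Normal) : Inv ρ (fixed ρ N) := by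
  intro x v hv
  refine fixed_map (fun n hn => ?_) hv
  have := hN.conj_mem n hn x⁻¹
  rwa [inv_inv] at this

/-- the action of the factor group by the kernel -/
theorem exists_quotRep (ρ : H →* Module.End R V) : ∃ ρ' : H ⧸ ρ.ker →* Module.End R V,
    (∀ h : H, ρ' (QuotientGroup.mk h) = ρ h) ∧ Function.Injective ρ' := by
  refine ⟨QuotientGroup.lift ρ.ker ρ (fun x hx => hx), fun h => rfl, ?_⟩
  intro a b hab
  induction a using QuotientGroup.induction_on with
  | H a =>
    induction b using QuotientGroup.induction_on with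
    | H b =>
      have h1 : ρ a = ρ b := hab
      rw [QuotientGroup.eq, MonoidHom.mem_ker, map_mul, ← h1, ← map_mul, inv_mul_cancel, map_one]

/-- irreducibility only depends on the image of the group -/
theorem Irr.of_surj {H' : Type} [Group H'] {ρ : H →* Module.End R V} {ρ' : H' →* Module.End R V}
    (h : ∀ x : H', ∃ y : H, ρ y = ρ' x) (hi : Irr ρ') (h' : ∀ y : H, ∃ x : H', ρ' x = ρ y) : Irr ρ := by
  have _ := h'
  refine ⟨hi.1, fun U hU => hi.2 U fun x v hv => ?_⟩
  obtain ⟨y, hy⟩ := h x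
  rw [← hy]
  exact hU y v hv

/-- SCHUR'S LEMMA. An endomorphism `f` which maps an irreducible invariant subspace `U` to itself and commutes there with all `ρ h` is a scalar on `U`.
PROOF. `f` restricted to `U` (finite-dimensional, nonzero, `R` algebraically closed) has an eigenvalue `μ`; the eigenspace is an invariant subspace. -/
theorem schur [IsAlgClosed R] [FiniteDimensional R V] {ρ : H →* Module.End R V} {U : Submodule R V}
    (hU : IrrSub ρ U) (f : Module.End R V) (hf : ∀ u ∈ U, f u ∈ U)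
    (hcomm : ∀ h : H, ∀ u ∈ U, f (ρ h u) = ρ h (f u)) : ∃ μ : R, ∀ u ∈ U, f u = μ • u := by
  have hnt : Nontrivial U := Submodule.nontrivial_iff_ne_bot.2 hU.2.1
  obtain ⟨μ, hμ⟩ := Module.End.exists_eigenvalue (f.restrict hf)
  obtain ⟨⟨v, hvU⟩, hv⟩ := hμ.exists_hasEigenvector
  have hv1 : f v = μ • v := congrArg Subtype.val hv.apply_eq_smul
  have hv0 : v ≠ 0 := fun h => hv.2 (Subtype.ext h)
  refine ⟨μ, ?_⟩
  let E : Submodule R V := U ⊓ LinearMap.ker (f - μ • (1 : Module.End R V))
  have hE : ∀ u, u ∈ E ↔ u ∈ U ∧ f u = μ • u := by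
    intro u
    simp only [E, Submodule.mem_inf, LinearMap.mem_ker, LinearMap.sub_apply, LinearMap.smul_apply,
      Module.End.one_apply, sub_eq_zero]
  have hEinv : Inv ρ E := by
    intro h u hu
    rw [hE] at hu ⊢
    exact ⟨hU.1 h u hu.1, by rw [hcomm h u hu.1, hu.2, map_smul]⟩
  rcases hU.2.2 E hEinv (fun u hu => ((hE u).1 hu).1) with h1 | h1
  · exfalso
    have h2 : v ∈ E := (hE v).2 ⟨hvU, hv1⟩
    rw [h1] at h2
    exact hv0 ((Submodule.mem_bot R).1 h2)
  · intro u hu
    rw [← h1] at hu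
    exact ((hE u).1 hu).2

/-- commuting operators of finite order have a joint eigenvector in every nonzero subspace invariant under them -/
theorem exists_joint_eigenvector [IsAlgClosed R] [FiniteDimensional R V] {ι : Type} [Finite ι]
    (f : ι → Module.End R V) {W : Submodule R V} (hW : W ≠ ⊥) (hf : ∀ i, ∀ v ∈ W, f i v ∈ W)
    (hcomm : ∀ i j, ∀ v ∈ W, f i (f j v) = f j (f i v)) : ∃ v ∈ W, v ≠ 0 ∧ ∀ i, ∃ μ : R, f i v = μ • v := by
  classical
  have := Fintype.ofFinite ι
  have key : ∀ s : Finset ι, ∃ W' ≤ W, W' ≠ ⊥ ∧ (∀ i, ∀ v ∈ W', f i v ∈ W') ∧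
      ∀ i ∈ s, ∃ μ : R, ∀ v ∈ W', f i v = μ • v := by
    intro s
    induction s using Finset.induction_on with
    | empty => exact ⟨W, le_rfl, hW, hf, fun i hi => by simp at hi⟩
    | insert i s _ ih =>
      obtain ⟨W', hle, hne, hinv, hs⟩ := ih
      have hnt : Nontrivial W' := Submodule.nontrivial_iff_ne_bot.2 hne
      obtain ⟨μ, hμ⟩ := Module.End.exists_eigenvalue ((f i).restrict (hinv i))
      obtain ⟨⟨v, hvU⟩, hv⟩ := hμ.exists_hasEigenvector
      have hv1 : f i v = μ • v := congrArg Subtype.val hv.apply_eq_smul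
      have hv0 : v ≠ 0 := fun h => hv.2 (Subtype.ext h)
      let E : Submodule R V := W' ⊓ LinearMap.ker (f i - μ • (1 : Module.End R V))
      have hE : ∀ u, u ∈ E ↔ u ∈ W' ∧ f i u = μ • u := by
        intro u
        simp only [E, Submodule.mem_inf, LinearMap.mem_ker, LinearMap.sub_apply,
          LinearMap.smul_apply, Module.End.one_apply, sub_eq_zero]
      refine ⟨E, fun u hu => hle ((hE u).1 hu).1, ?_, ?_, ?_⟩
      · intro h1
        have h2 : v ∈ E := (hE v).2 ⟨hvU, hv1⟩
        rw [h1] at h2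
        exact hv0 ((Submodule.mem_bot R).1 h2)
      · intro j u hu
        rw [hE] at hu ⊢
        exact ⟨hinv j u hu.1, by rw [hcomm i j u (hle hu.1), hu.2, map_smul]⟩
      · intro j hj
        rcases Finset.mem_insert.1 hj with rfl | hj
        · exact ⟨μ, fun u hu => ((hE u).1 hu).2⟩
        · obtain ⟨ν, hν⟩ := hs j hj
          exact ⟨ν, fun u hu => hν u ((hE u).1 hu).1⟩
  obtain ⟨W', hle, hne, _, hs⟩ := key Finset.univ
  obtain ⟨v, hv, hv0⟩ := Submodule.exists_mem_ne_zero_of_ne_bot hne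
  refine ⟨v, hle hv, hv0, fun i => ?_⟩
  obtain ⟨μ, hμ⟩ := hs i (Finset.mem_univ i)
  exact ⟨μ, hμ v hv⟩

/-- vectors with different weights are linearly independent. PROOF. Mathlib: `Module.End.eigenvectors_linearIndependent'` for one operator; for a family: suppose a nontrivial
relation with minimal support, `x ≠ y` in the support, `j` with `μ x j ≠ μ y j`; apply `f j - μ x j`. -/
theorem linearIndependent_of_weights {ι κ : Type} (f : κ → Module.End R V) (b : ι → V) (hb : ∀ x, b x ≠ 0)
    (μ : ι → κ → R) (hμ : ∀ x j, f j (b x) = μ x j • b x) (hinj : ∀ x y, x ≠ y → ∃ j, μ x j ≠ μ y j) :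
    LinearIndependent R b := by
  classical
  rw [linearIndependent_iff']
  intro s
  induction s using Finset.strongInduction with
  | H s ih =>
    intro g hg x hx
    by_contra hgx
    by_cases h1 : ∃ y ∈ s, y ≠ x
    · obtain ⟨y, hy, hyx⟩ := h1
      obtain ⟨j, hj⟩ := hinj x y hyx.symm
      have h2 := congrArg (fun v => f j v - μ y j • v) hg
      simp only [map_sum, map_smul, hμ, map_zero, smul_zero, sub_zero, Finset.smul_sum] at h2
      rw [← Finset.sum_sub_distrib] at h2
      have h3 : ∑ i ∈ s.erase y, (g i * (μ i j - μ y j)) • b i = 0 := by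
        rw [← h2, ← Finset.sum_erase_add s _ hy]
        rw [show g y • μ y j • b y - μ y j • g y • b y = 0 by rw [smul_comm, sub_self], add_zero]
        apply Finset.sum_congr rfl
        intro i _
        rw [smul_smul, smul_smul, ← sub_smul]
        congr 1
        ring
      have h4 := ih (s.erase y) (Finset.erase_ssubset hy) (fun i => g i * (μ i j - μ y j)) h3 x
        (Finset.mem_erase.2 ⟨hyx.symm, hx⟩)
      rcases mul_eq_zero.1 h4 with h5 | h5
      · exact hgx h5
      · exact hj (sub_eq_zero.1 h5)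
    · push Not at h1
      have h2 : s = {x} := by
        ext y
        rw [Finset.mem_singleton]
        exact ⟨h1 y, fun e => e ▸ hx⟩
      rw [h2, Finset.sum_singleton] at hg
      rcases smul_eq_zero.1 hg with h3 | h3
      · exact hgx h3
      · exact hb x h3

end tools

end Pool.Agent.HForm
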