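import Pool.Agent.Lib_MP_4009a7_al.KernD
import Pool.Agent.Lib_MP_4009a7_al.RepT

/-!
# Piece IDEM: averaging idempotents and the kernels `Kern`
-/

set_option autoImplicit false

open scoped commutatorElement

namespace Pool.Agent.HForm

variable {p q : ℕ} {V H : Type} [AddCommGroup V] [Module (ZMod p) V] [Group H] [Finite H]
  {ρ : H →* Module.End (ZMod p) V}

theorem idm_avg_apply (K : Subgroup H) [Fintype K] (v : V) :
    avg ρ K v = ((Nat.card K : ZMod p)⁻¹) • ∑ k : K, ρ k v := by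
  unfold avg
  rw [LinearMap.smul_apply, finsum_eq_sum_of_fintype, LinearMap.sum_apply]

theorem idm_inv_apply (h : H) (v : V) : ρ h⁻¹ (ρ h v) = v := by
  rw [← Module.End.mul_apply, ← map_mul, inv_mul_cancel, map_one, Module.End.one_apply]

theorem idm_card_cj (h : H) (K : Subgroup H) : Nat.card (cj h K) = Nat.card K :=
  (Nat.card_congr ((MulAut.conj h).subgroupMap K).toEquiv).symm

theorem idm_cj_eq {Q K : Subgroup H} (hn : ∀ x ∈ Q, ∀ k ∈ K, x * k * x⁻¹ ∈ K) {x : H} (hx : x ∈ Q) :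
    cj x K = K := by
  apply Subgroup.eq_of_le_of_card_ge
  · intro y hy
    rw [mem_cj] at hy
    have h1 := hn x hx _ hy
    have h2 : x * (x⁻¹ * y * x) * x⁻¹ = y := by group
    rwa [h2] at h1
  · rw [idm_card_cj]

/-- the order of a `q`-group is invertible modulo `p` -/
theorem avg_mem_fixed (hp : p.Prime) (hq : q.Prime) (hpq : p ≠ q) {K : Subgroup H} (hK : IsPGroup q K) (v : V) :
    avg ρ K v ∈ fixed ρ K := by
  have := Fintype.ofFinite K
  intro h hh
  rw [idm_avg_apply, map_smul, map_sum]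
  congr 1
  rw [← Equiv.sum_comp (Equiv.mulLeft (⟨h, hh⟩ : K)) (fun k : K => ρ k v)]
  refine Finset.sum_congr rfl fun k _ => ?_
  rw [← Module.End.mul_apply, ← map_mul]
  rfl

theorem avg_of_fixed (hp : p.Prime) (hq : q.Prime) (hpq : p ≠ q) {K : Subgroup H} (hK : IsPGroup q K) {v : V}
    (hv : v ∈ fixed ρ K) : avg ρ K v = v := by
  have hf := Fintype.ofFinite K
  have hp' : Fact p.Prime := ⟨hp⟩
  have hq' : Fact q.Prime := ⟨hq⟩
  rw [idm_avg_apply]
  have h1 : ∑ k : K, ρ k v = ((Nat.card K : ℕ) : ZMod p) • v := by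
    rw [Finset.sum_congr rfl fun (k : K) _ => hv k k.2, Finset.sum_const, Finset.card_univ,
      Nat.card_eq_fintype_card, Nat.cast_smul_eq_nsmul]
  rw [h1, smul_smul]
  obtain ⟨n, hn⟩ := (IsPGroup.iff_card).1 hK
  have h2 : ((Nat.card K : ℕ) : ZMod p) ≠ 0 := by
    intro h0
    rw [ZMod.natCast_eq_zero_iff, hn] at h0
    exact hpq ((Nat.prime_dvd_prime_iff_eq hp hq).1 (hp.dvd_of_dvd_pow h0))
  rw [inv_mul_cancel₀ h2, one_smul]

theorem avg_cj (h : H) (K : Subgroup H) (v : V) : avg ρ (cj h K) (ρ h v) = ρ h (avg ρ K v) := by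
  have h1 := Fintype.ofFinite K
  have h2 := Fintype.ofFinite (cj h K)
  rw [idm_avg_apply, idm_avg_apply, idm_card_cj, map_smul, map_sum]
  congr 1
  let e : K ≃ cj h K := ((MulAut.conj h).subgroupMap K).toEquiv
  rw [← Equiv.sum_comp e (fun k : cj h K => ρ k (ρ h v))]
  refine Finset.sum_congr rfl fun k _ => ?_
  show ρ (h * (k : H) * h⁻¹) (ρ h v) = ρ h (ρ k v)
  rw [map_mul, Module.End.mul_apply, idm_inv_apply, map_mul, Module.End.mul_apply]

/-- subspaces invariant under `K` are invariant under `avg ρ K` -/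
theorem avg_mem_of_inv {K : Subgroup H} {W : Submodule (ZMod p) V} (hW : ∀ k ∈ K, ∀ v ∈ W, ρ k v ∈ W) {v : V}
    (hv : v ∈ W) : avg ρ K v ∈ W := by
  have h1 := Fintype.ofFinite K
  rw [idm_avg_apply]
  exact W.smul_mem _ (W.sum_mem fun k _ => hW k k.2 v hv)

theorem fixed_cj (h : H) (K : Subgroup H) (v : V) : ρ h v ∈ fixed ρ (cj h K) ↔ v ∈ fixed ρ K := by
  constructor
  · intro h1 k hk
    have h2 : h * k * h⁻¹ ∈ cj h K := by
      rw [mem_cj]
      have : h⁻¹ * (h * k * h⁻¹) * h = k := by group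
      rwa [this]
    have h3 := h1 _ h2
    rw [map_mul, Module.End.mul_apply, idm_inv_apply, map_mul, Module.End.mul_apply] at h3
    have h4 := congrArg (ρ h⁻¹) h3
    rwa [idm_inv_apply, idm_inv_apply] at h4
  · intro h1 k hk
    rw [mem_cj] at hk
    have h3 := h1 _ hk
    have h4 := congrArg (ρ h) h3
    rw [← Module.End.mul_apply, ← map_mul] at h4
    have h5 : h * (h⁻¹ * k * h) = k * h := by group
    rw [h5, map_mul, Module.End.mul_apply] at h4
    exact h4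

/-- two different kernels of the same order have no common fixed points. PROOF. `fixed ρ K ⊓ fixed ρ K' = fixed ρ (K ⊔ K')` and `K ⊔ K'` is a larger subgroup of `Q` normalised by `Q`. -/
theorem Kern.disjoint {Q K K' : Subgroup H} {B : ℕ} (h : Kern ρ Q K B) (h' : Kern ρ Q K' B)
    (hc : Nat.card K = Nat.card K') (hne : K ≠ K') : fixed ρ K ⊓ fixed ρ K' = ⊥ := by
  rw [eq_bot_iff]
  intro v hv
  have hX : K ⊔ K' ≤ Q := sup_le h.le h'.le
  have hn : ∀ x ∈ Q, ∀ k ∈ K ⊔ K', x * k * x⁻¹ ∈ K ⊔ K' := by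
    intro x hx k hk
    have h1 : cj x (K ⊔ K') = K ⊔ K' := by
      have h2 : cj x (K ⊔ K') = cj x K ⊔ cj x K' := Subgroup.map_sup _ _ _
      rw [h2, idm_cj_eq h.norm hx, idm_cj_eq h'.norm hx]
    have h3 : x * k * x⁻¹ ∈ cj x (K ⊔ K') := by
      rw [mem_cj]
      have : x⁻¹ * (x * k * x⁻¹) * x = k := by group
      rwa [this]
    rwa [h1] at h3
  have hlt : Nat.card K < Nat.card (K ⊔ K' : Subgroup H) := by
    by_contra hle
    push Not at hle
    have h1 : K = K ⊔ K' := Subgroup.eq_of_le_of_card_ge le_sup_left hle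
    have h2 : K' ≤ K := by
      rw [h1]
      exact le_sup_right
    exact hne (Subgroup.eq_of_le_of_card_ge h2 hc.le).symm
  have h1 := h.max _ hX hn hlt
  rw [← h1]
  intro k hk
  have h2 : K ⊔ K' ≤ kerOn ρ (Submodule.span (ZMod p) {v}) := by
    have aux : ∀ L : Subgroup H, v ∈ fixed ρ L → L ≤ kerOn ρ (Submodule.span (ZMod p) {v}) := by
      intro L hL y hy u hu
      obtain ⟨c, rfl⟩ := Submodule.mem_span_singleton.1 hu
      rw [map_smul, hL y hy]
    exact sup_le (aux K hv.1) (aux K' hv.2)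
  exact h2 hk v (Submodule.mem_span_singleton_self v)

theorem Kern.cj {Q K : Subgroup H} {B : ℕ} (hQ : Q.Normal) (h : Kern ρ Q K B) (x : H) :
    Kern ρ Q (cj x K) B ∧ Nat.card (HForm.cj x K) = Nat.card K := by
  have hcard : Nat.card (HForm.cj x K) = Nat.card K := idm_card_cj x K
  have hle : HForm.cj x K ≤ Q := by
    intro y hy
    rw [mem_cj] at hy
    have h1 := hQ.conj_mem _ (h.le hy) x
    have h2 : x * (x⁻¹ * y * x) * x⁻¹ = y := by group
    rwa [h2] at h1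
  refine ⟨⟨hle, ?_, ?_, ?_, ?_⟩, hcard⟩
  · intro y hy k hk
    rw [mem_cj] at hk ⊢
    have h1 : x⁻¹ * y * x ∈ Q := by
      have := hQ.conj_mem _ hy x⁻¹
      rwa [inv_inv] at this
    have h2 := h.norm _ h1 _ hk
    have h3 : x⁻¹ * y * x * (x⁻¹ * k * x) * (x⁻¹ * y * x)⁻¹ = x⁻¹ * (y * k * y⁻¹) * x := by group
    rwa [h3] at h2
  · have h1 := Subgroup.relIndex_mul_relIndex ⊥ (HForm.cj x K) Q bot_le hle
    have h2 := Subgroup.relIndex_mul_relIndex ⊥ K Q bot_le h.le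
    rw [Subgroup.relIndex_bot_left, Subgroup.relIndex_bot_left] at h1 h2
    rw [hcard, ← h2] at h1
    have h3 : (HForm.cj x K).relIndex Q = K.relIndex Q :=
      Nat.eq_of_mul_eq_mul_left Nat.card_pos h1
    rw [h3]
    exact h.idx
  · obtain ⟨v, hv, hv0⟩ := Submodule.exists_mem_ne_zero_of_ne_bot h.fix
    intro hb
    have h1 : ρ x v ∈ fixed ρ (HForm.cj x K) := (fixed_cj x K v).2 hv
    rw [hb, Submodule.mem_bot] at h1
    apply hv0
    have h2 := congrArg (ρ x⁻¹) h1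
    rwa [idm_inv_apply, map_zero] at h2
  · intro X hX hn hlt
    rw [hcard] at hlt
    exact h.max X hX hn hlt

/-- orthogonality: PROOF. `avg K v ∈ fixed K'`: `K` is normalised by `K' ≤ Q`, so `avg ρ K` commutes with the elements of `K'`. So `avg K (avg K' v) ∈ fixed K ⊓ fixed K' = ⊥`. -/
theorem Kern.avg_avg (hp : p.Prime) (hq : q.Prime) (hpq : p ≠ q) {Q K K' : Subgroup H} {B : ℕ}
    (hQ : IsPGroup q Q) (h : Kern ρ Q K B) (h' : Kern ρ Q K' B)
    (hc : Nat.card K = Nat.card K') (hne : K ≠ K') (v : V) : avg ρ K (avg ρ K' v) = 0 := by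
  have hKp : IsPGroup q K := hQ.to_le h.le
  have hKp' : IsPGroup q K' := hQ.to_le h'.le
  have h1 : avg ρ K (avg ρ K' v) ∈ fixed ρ K := avg_mem_fixed hp hq hpq hKp _
  have h2 : avg ρ K (avg ρ K' v) ∈ fixed ρ K' := by
    intro k hk
    have h3 := avg_cj (ρ := ρ) k K (avg ρ K' v)
    rw [idm_cj_eq h.norm (h'.le hk), avg_mem_fixed hp hq hpq hKp' v k hk] at h3
    exact h3.symm
  have h4 : avg ρ K (avg ρ K' v) ∈ fixed ρ K ⊓ fixed ρ K' := ⟨h1, h2⟩
  rw [Kern.disjoint h h' hc hne] at h4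
  exact (Submodule.mem_bot _).1 h4

/-- irreducible `Q`-subspaces of the fixed points of `K₀` have kernel `K₀`. PROOF. The kernel `X` of `Q` on `U` contains `K₀` and is normal in `Q`; if it were larger `fixed ρ X = ⊥`. -/
theorem Kern.kernel_eq {Q K₀ : Subgroup H} {B : ℕ} (h : Kern ρ Q K₀ B) {U : Submodule (ZMod p) V}
    (hU : Inv (ρ.comp Q.subtype) U) (hU0 : U ≠ ⊥) (hUK : U ≤ fixed ρ K₀) (x : H) (hx : x ∈ Q) :
    x ∈ K₀ ↔ ∀ u ∈ U, ρ x u = u := by
  constructor
  · intro hx0 u hu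
    exact hUK hu x hx0
  · intro hfix
    have hX : Q ⊓ kerOn ρ U ≤ Q := inf_le_left
    have hn : ∀ y ∈ Q, ∀ k ∈ Q ⊓ kerOn ρ U, y * k * y⁻¹ ∈ Q ⊓ kerOn ρ U := by
      intro y hy k hk
      refine ⟨Q.mul_mem (Q.mul_mem hy hk.1) (Q.inv_mem hy), fun u hu => ?_⟩
      have h1 : ρ y⁻¹ u ∈ U := hU (⟨y, hy⟩⁻¹ : Q) u hu
      rw [map_mul, map_mul, Module.End.mul_apply, Module.End.mul_apply, hk.2 _ h1,
        ← Module.End.mul_apply, ← map_mul, mul_inv_cancel, map_one, Module.End.one_apply]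
    have hK0 : K₀ ≤ Q ⊓ kerOn ρ U := fun y hy => ⟨h.le hy, fun u hu => hUK hu y hy⟩
    have hle : ¬ Nat.card K₀ < Nat.card (Q ⊓ kerOn ρ U : Subgroup H) := by
      intro hlt
      have h1 := h.max _ hX hn hlt
      apply hU0
      rw [eq_bot_iff, ← h1]
      intro u hu k hk
      exact hk.2 u hu
    have h2 : K₀ = Q ⊓ kerOn ρ U := Subgroup.eq_of_le_of_card_ge hK0 (not_lt.1 hle)
    rw [h2]
    exact ⟨hx, hfix⟩

end Pool.Agent.HForm
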