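import Pool.Agent.Lib_MP_4009a7_al.SDF
import Pool.Agent.Lib_MP_4009a7_al.Idem

/-!
# Piece KERNX: existence of kernels
-/

set_option autoImplicit false

open scoped commutatorElement

namespace Pool.Agent.HForm

variable {F : GClass}

/-- PROOF. Among the irreducible subspaces `U` for `ρ.comp Q.subtype` (they exist, `exists_irrSub`, `V` is finite and nontrivial) choose one for which the order of `K₀ = {x ∈ Q | x acts trivially on U}` is maximal (`K₀` as a subgroup of `H`). Index: `AlB` for `T = Q` and `PV.sd_comp`.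
`max`: if `fixed ρ X ≠ ⊥` then it is a `Q`-invariant subspace, so it contains an irreducible one, with kernel `≥ X`, of larger order. -/
theorem exists_kern (hF : PV F) {p q B : ℕ} (hp : p.Prime) (hB : AlB F p q B) {H V : Type} [Group H] [AddCommGroup V]
    [Module (ZMod p) V] [Nontrivial V] (ρ : H →* Module.End (ZMod p) V) (h : F (SD ρ)) (Q : Subgroup H)
    (hQ : IsPGroup q Q) : ∃ K₀ : Subgroup H, Kern ρ Q K₀ B := by
  have hp' : Fact p.Prime := ⟨hp⟩
  have hfin : Finite (SD ρ) := hF.fin h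
  have hH : Finite H := Finite.of_surjective (fun a : SD ρ => a.h) fun x => ⟨⟨0, x⟩, rfl⟩
  have hV : Finite V := Finite.of_surjective (fun a : SD ρ => a.v) fun v => ⟨⟨v, 1⟩, rfl⟩
  have hfd : FiniteDimensional (ZMod p) V := Module.Finite.of_finite
  have hne : {U : Submodule (ZMod p) V | IrrSub (ρ.comp Q.subtype) U}.Nonempty := by
    obtain ⟨U, -, hU⟩ := exists_irrSub (ρ.comp Q.subtype) (W := (⊤ : Submodule (ZMod p) V))
      (fun _ _ _ => trivial) top_ne_bot
    exact ⟨U, hU⟩
  have hfS : Finite (Submodule (ZMod p) V) := Finite.of_injective _ (SetLike.coe_injective)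
  obtain ⟨U, hU, hmax⟩ := Set.exists_max_image
    {U : Submodule (ZMod p) V | IrrSub (ρ.comp Q.subtype) U}
    (fun U => Nat.card (Q ⊓ kerOn ρ U : Subgroup H)) (Set.toFinite _) hne
  have hU' : IrrSub (ρ.comp Q.subtype) U := hU
  refine ⟨Q ⊓ kerOn ρ U, inf_le_left, ?_, ?_, ?_, ?_⟩
  · intro y hy k hk
    refine ⟨Q.mul_mem (Q.mul_mem hy hk.1) (Q.inv_mem hy), fun u hu => ?_⟩
    have h1 : ρ y⁻¹ u ∈ U := hU'.1 (⟨y, hy⟩⁻¹ : Q) u hu
    rw [map_mul, map_mul, Module.End.mul_apply, Module.End.mul_apply, hk.2 _ h1,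
      ← Module.End.mul_apply, ← map_mul, mul_inv_cancel, map_one, Module.End.one_apply]
  · have h1 : (Q ⊓ kerOn ρ U).subgroupOf Q = kerOn (ρ.comp Q.subtype) U := by
      ext x
      rw [Subgroup.mem_subgroupOf]
      exact ⟨fun h => h.2, fun h => ⟨x.2, h⟩⟩
    rw [Subgroup.relIndex, h1]
    exact hB Q V (ρ.comp Q.subtype) hQ (hF.sd_comp h Q.subtype Q.subtype_injective) U hU'
  · intro hb
    apply hU'.2.1
    rw [eq_bot_iff, ← hb]
    intro u hu k hk
    exact hk.2 u hu
  · intro X hX hn hlt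
    by_contra hf
    have hinv : Inv (ρ.comp Q.subtype) (fixed ρ X) := by
      intro x v hv k hk
      have h1 : (x : H)⁻¹ * k * x ∈ X := by
        have := hn (x : H)⁻¹ (Q.inv_mem x.2) k hk
        rwa [inv_inv] at this
      have h2 := hv _ h1
      show ρ k (ρ (x : H) v) = ρ (x : H) v
      have h3 : k * (x : H) = x * ((x : H)⁻¹ * k * x) := by group
      rw [← Module.End.mul_apply, ← map_mul, h3, map_mul, Module.End.mul_apply, h2]
    obtain ⟨W, hWX, hW⟩ := exists_irrSub (ρ.comp Q.subtype) hinv hf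
    have h1 := hmax W hW
    have h2 : X ≤ Q ⊓ kerOn ρ W := fun y hy => ⟨hX hy, fun u hu => hWX hu y hy⟩
    have h3 : Nat.card X ≤ Nat.card (Q ⊓ kerOn ρ W : Subgroup H) :=
      Nat.card_le_card_of_injective _ (Subgroup.inclusion_injective h2)
    omega

end Pool.Agent.HForm
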