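import Pool.Agent.Lib_MP_4009a7_al.SDF
import Pool.Agent.Lib_MP_4009a7_al.Idem

/-!
# Piece PCASE: the case `r = p`
-/

set_option autoImplicit false

open scoped commutatorElement

namespace Pool.Agent.HForm

variable {F : GClass}

private theorem pcase_cj_one {H : Type} [Group H] (K : Subgroup H) : cj 1 K = K := by
  ext x
  rw [mem_cj]
  simp

private theorem pcase_cj_mul {H : Type} [Group H] (a b : H) (K : Subgroup H) :
    cj (a * b) K = cj a (cj b K) := by
  ext x
  rw [mem_cj, mem_cj, mem_cj]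
  have : (a * b)⁻¹ * x * (a * b) = b⁻¹ * (a⁻¹ * x * a) * b := by group
  rw [this]

/-- the action of `D` on the subgroups by conjugation -/
@[reducible] private def pcaseAct {H : Type} [Group H] (D : Subgroup H) :
    MulAction D (Subgroup H) where
  smul d K := cj (d : H) K
  one_smul K := pcase_cj_one K
  mul_smul a b K := pcase_cj_mul (a : H) (b : H) K

private theorem pcase_index {H : Type} [Group H] (D K₀ : Subgroup H) :
    (Subgroup.normalizer (K₀ : Set H)).relIndex D =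
      {K : Subgroup H | ∃ d : D, cj (d : H) K₀ = K}.ncard := by
  letI := pcaseAct D
  have h1 : (Subgroup.normalizer (K₀ : Set H)).subgroupOf D = MulAction.stabilizer D K₀ := by
    ext d
    rw [Subgroup.mem_subgroupOf, MulAction.mem_stabilizer_iff, Subgroup.mem_normalizer_iff]
    constructor
    · intro h
      have h2 : cj (d : H) K₀ = K₀ := by
        ext x
        rw [mem_cj, h]
        have : (d : H) * ((d : H)⁻¹ * x * (d : H)) * (d : H)⁻¹ = x := by group
        rw [this]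
      exact h2
    · intro h x
      have h2 : cj (d : H) K₀ = K₀ := h
      have h3 : (d : H) * x * (d : H)⁻¹ ∈ cj (d : H) K₀ ↔ x ∈ K₀ := by
        rw [mem_cj]
        have : (d : H)⁻¹ * ((d : H) * x * (d : H)⁻¹) * (d : H) = x := by group
        rw [this]
      rw [h2] at h3
      exact h3.symm
  have h2 : MulAction.orbit D K₀ = {K : Subgroup H | ∃ d : D, cj (d : H) K₀ = K} := rfl
  rw [← h2, ← MulAction.index_stabilizer, ← h1]
  rfl

private theorem pcase_pow {p : ℕ} {H V : Type} [Group H] [AddCommGroup V] [Module (ZMod p) V]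
    (ρ : H →* Module.End (ZMod p) V) (w : V) (n : ℕ) :
    (⟨w, 1⟩ : SD ρ) ^ n = ⟨n • w, 1⟩ := by
  induction n with
  | zero =>
    rw [pow_zero, zero_smul]
    rfl
  | succ n ih =>
    rw [pow_succ, ih]
    ext
    · simp [succ_nsmul]
    · simp

private theorem pcase_toH_pow {p : ℕ} {H V : Type} [Group H] [AddCommGroup V] [Module (ZMod p) V]
    (ρ : H →* Module.End (ZMod p) V) (g : SD ρ) (n : ℕ) : (g ^ n).h = g.h ^ n :=
  map_pow (SD.toH ρ) g n

private theorem pcase_isPGroup {p : ℕ} {H V : Type} [Group H] [AddCommGroup V]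
    [Module (ZMod p) V] (ρ : H →* Module.End (ZMod p) V) (hH : IsPGroup p H) :
    IsPGroup p (SD ρ) := by
  intro g
  obtain ⟨k, hk⟩ := hH g.h
  refine ⟨k + 1, ?_⟩
  rw [pow_succ, pow_mul]
  have h1 : g ^ (p ^ k) = ⟨(g ^ (p ^ k)).v, 1⟩ := by
    ext
    · rfl
    · rw [pcase_toH_pow, hk]
  rw [h1, pcase_pow]
  ext
  · show p • (g ^ p ^ k).v = 0
    rw [← Nat.cast_smul_eq_nsmul (ZMod p), CharP.cast_eq_zero, zero_smul]
  · rfl

private theorem pcase_comm {p : ℕ} {H V : Type} [Group H] [AddCommGroup V]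
    [Module (ZMod p) V] (ρ : H →* Module.End (ZMod p) V) (v : V) (d : H) :
    ⁅(⟨v, 1⟩ : SD ρ), (⟨0, d⟩ : SD ρ)⁆ = ⟨v - ρ d v, 1⟩ := by
  rw [commutatorElement_def]
  ext
  · simp [sub_eq_add_neg]
  · simp

/-- THE CASE `r = p`. PROOF. Let `O` be the set of the conjugates `cj d K₀`, `d ∈ D`; `Nat.card O = (Subgroup.normalizer K₀).relIndex D`. For `v : V` let `supp v = {K ∈ O | avg ρ K v ≠ 0}`; `supp (ρ d v) = d (supp v) d⁻¹` (`avg_cj`). If `S = supp v` is
nonempty and `S ≠ O`, there is `d ∈ D` with `d S d⁻¹ ≠ S` (`D` is transitive on `O`), and then `v' = v - ρ d v` has `supp v' ≠ ∅` (it contains the symmetric difference) and `supp v' ⊆ S ∪ d S d⁻¹`. Start with `v₀ ∈ fixed ρ K₀`, `v₀ ≠ 0`, `supp v₀ = {K₀}`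
(`Kern.avg_avg`, `avg_of_fixed`). If `2 ^ c < Nat.card O` we get `v_1, ..., v_c` with `v_(i+1) = v_i - ρ d_i v_i`, supports of cardinality `≤ 2 ^ i` and nonempty; so `v_c ≠ 0`. But the subgroup `{⟨v, d⟩ | d ∈ D}` of `SD ρ` (e.g. `SD (ρ.comp D.subtype)`, `PV.sd_comp`) is a `p`-group in `F`, so of
class `≤ c`, and `⟨v_c, 1⟩` is an iterated commutator (`⁅⟨v, 1⟩, ⟨0, d⟩⁆ = ⟨v - ρ d v, 1⟩`) in `lowerCentralSeries c = ⊥`. So `v_c = 0`, a contradiction. -/
theorem pCase (hF : PV F) {p q B c : ℕ} (hp : p.Prime) (hq : q.Prime) (hpq : p ≠ q) (hcl : NilLe F c)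
    {H V : Type} [Group H] [Finite H] [AddCommGroup V] [Module (ZMod p) V] (ρ : H →* Module.End (ZMod p) V)
    (h : F (SD ρ)) (Q : Subgroup H) (hQn : Q.Normal) (hQ : IsPGroup q Q) (K₀ : Subgroup H) (hK : Kern ρ Q K₀ B)
    (D : Subgroup H) (hD : IsPGroup p D) : (Subgroup.normalizer (K₀ : Set H)).relIndex D ≤ 2 ^ c := by
  by_contra hcon
  rw [not_le, pcase_index D K₀] at hcon
  classical
  have hOfin : {K : Subgroup H | ∃ d : D, cj (d : H) K₀ = K}.Finite := Set.toFinite _
  rw [Set.ncard_eq_toFinset_card _ hOfin] at hcon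
  obtain ⟨O, hO⟩ : ∃ O : Finset (Subgroup H), O = hOfin.toFinset := ⟨_, rfl⟩
  rw [← hO] at hcon
  have hmem : ∀ K, K ∈ O ↔ ∃ d : D, cj (d : H) K₀ = K := by
    intro K
    rw [hO, Set.Finite.mem_toFinset]
    rfl
  have hOc : ∀ (d : D) (K : Subgroup H), K ∈ O → cj (d : H) K ∈ O := by
    intro d K hKO
    obtain ⟨e, rfl⟩ := (hmem K).1 hKO
    rw [hmem]
    exact ⟨d * e, pcase_cj_mul (d : H) (e : H) K₀⟩
  have htr : ∀ K ∈ O, ∀ K' ∈ O, ∃ d : D, cj (d : H) K = K' := by
    intro K hKO K' hKO'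
    obtain ⟨a, rfl⟩ := (hmem K).1 hKO
    obtain ⟨b, rfl⟩ := (hmem K').1 hKO'
    refine ⟨b * a⁻¹, ?_⟩
    rw [← pcase_cj_mul]
    congr 1
    simp
  obtain ⟨supp, hsupp⟩ : ∃ supp : V → Finset (Subgroup H),
      ∀ v K, K ∈ supp v ↔ K ∈ O ∧ avg ρ K v ≠ 0 :=
    ⟨fun v => O.filter fun K => avg ρ K v ≠ 0, fun v K => Finset.mem_filter⟩
  have hinj : ∀ (d : H) (x : V), ρ d x = 0 → x = 0 := by
    intro d x hx
    have h1 : ρ d⁻¹ (ρ d x) = x := by
      rw [← Module.End.mul_apply, ← map_mul, inv_mul_cancel, map_one, Module.End.one_apply]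
    rw [← h1, hx, map_zero]
  have hK₀q : IsPGroup q K₀ := hQ.to_le hK.le
  -- the iteration
  have key : ∀ i ≤ c, ∃ v : V, (supp v).Nonempty ∧ (supp v).card ≤ 2 ^ i ∧
      (⟨v, 1⟩ : SD (ρ.comp D.subtype)) ∈
        (⊤ : Subgroup (SD (ρ.comp D.subtype))).lowerCentralSeries i := by
    intro i
    induction i with
    | zero =>
      intro _
      obtain ⟨v₀, hv₀, hne⟩ := Submodule.exists_mem_ne_zero_of_ne_bot hK.fix
      have hav : avg ρ K₀ v₀ = v₀ := avg_of_fixed hp hq hpq hK₀q hv₀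
      refine ⟨v₀, ⟨K₀, ?_⟩, ?_, Subgroup.mem_top _⟩
      · rw [hsupp, hmem]
        refine ⟨⟨1, pcase_cj_one K₀⟩, ?_⟩
        rw [hav]
        exact hne
      · rw [pow_zero]
        have hsub : supp v₀ ⊆ {K₀} := by
          intro K hKs
          rw [Finset.mem_singleton]
          by_contra hKne
          obtain ⟨h1, h2⟩ := (hsupp v₀ K).1 hKs
          obtain ⟨d, rfl⟩ := (hmem K).1 h1
          obtain ⟨h3, h4⟩ := Kern.cj hQn hK (d : H)
          have h5 := Kern.avg_avg hp hq hpq hQ h3 hK h4 hKne v₀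
          rw [hav] at h5
          exact h2 h5
        exact (Finset.card_le_card hsub).trans (Finset.card_singleton K₀).le
    | succ i ih =>
      intro hi
      obtain ⟨v, ⟨K, hKs⟩, hcard, hlcs⟩ := ih (by omega)
      have hlt : (supp v).card < O.card := by
        refine lt_of_le_of_lt (hcard.trans ?_) hcon
        exact Nat.pow_le_pow_right (by norm_num) (by omega)
      obtain ⟨K', hK'O, hK'⟩ := Finset.exists_mem_notMem_of_card_lt_card hlt
      obtain ⟨hKO, hKv⟩ := (hsupp v K).1 hKs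
      obtain ⟨d, hd⟩ := htr K hKO K' hK'O
      refine ⟨v - ρ (d : H) v, ⟨K', ?_⟩, ?_, ?_⟩
      · rw [hsupp]
        refine ⟨hK'O, ?_⟩
        have h1 : avg ρ K' v = 0 := by
          by_contra h
          exact hK' ((hsupp v K').2 ⟨hK'O, h⟩)
        rw [map_sub, h1, zero_sub, neg_ne_zero, ← hd, avg_cj]
        intro h2
        exact hKv (hinj _ _ h2)
      · have hsub : supp (v - ρ (d : H) v) ⊆ supp v ∪ (supp v).image (fun K => cj (d : H) K) := by
          intro K₁ hK₁
          rw [Finset.mem_union, Finset.mem_image]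
          by_contra hcon2
          rw [not_or] at hcon2
          obtain ⟨hn1, hn2⟩ := hcon2
          obtain ⟨h1, h2⟩ := (hsupp _ K₁).1 hK₁
          apply h2
          have h3 : avg ρ K₁ v = 0 := by
            by_contra h
            exact hn1 ((hsupp v K₁).2 ⟨h1, h⟩)
          have h4 : cj (d : H) (cj ((d⁻¹ : D) : H) K₁) = K₁ := by
            rw [← pcase_cj_mul]
            simp [pcase_cj_one]
          have h5 : avg ρ (cj ((d⁻¹ : D) : H) K₁) v = 0 := by
            by_contra h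
            exact hn2 ⟨_, (hsupp v _).2 ⟨hOc d⁻¹ K₁ h1, h⟩, h4⟩
          rw [map_sub, h3, zero_sub, neg_eq_zero]
          rw [← h4, avg_cj, h5, map_zero]
        calc (supp (v - ρ (d : H) v)).card
            ≤ (supp v ∪ (supp v).image (fun K => cj (d : H) K)).card := Finset.card_le_card hsub
          _ ≤ (supp v).card + ((supp v).image (fun K => cj (d : H) K)).card :=
              Finset.card_union_le _ _
          _ ≤ 2 ^ i + 2 ^ i := add_le_add hcard (Finset.card_image_le.trans hcard)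
          _ = 2 ^ (i + 1) := by ring
      · have h1 := Subgroup.commutator_mem_commutator hlcs
          (Subgroup.mem_top (⟨0, d⟩ : SD (ρ.comp D.subtype)))
        rw [pcase_comm] at h1
        exact h1
  obtain ⟨v, ⟨K, hKs⟩, _, hlcs⟩ := key c le_rfl
  have hF' : F (SD (ρ.comp D.subtype)) := hF.sd_comp h D.subtype D.subtype_injective
  rw [hcl _ hF' p hp (pcase_isPGroup _ hD), Subgroup.mem_bot] at hlcs
  have hv : v = 0 := congrArg SD.v hlcs
  obtain ⟨_, h2⟩ := (hsupp v K).1 hKs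
  rw [hv, map_zero] at h2
  exact h2 rfl

end Pool.Agent.HForm
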