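import Pool.Agent.Lib_MP_4009a7_al.SDF
import Pool.Agent.Lib_MP_4009a7_al.Idem

/-!
# Piece QCASE: the case `r = q`
-/

set_option autoImplicit false

open scoped commutatorElement

namespace Pool.Agent.HForm

variable {F : GClass}

/-- THE CASE `r = q`. PROOF. `T = Q ⊔ D` is a `q`-group (`Q` normal). `W = ⨆ d ∈ D, fixed ρ (cj d K₀)` is `T`-invariant and nonzero. Let `U ≤ W` be irreducible for `ρ.comp T.subtype`; its kernel has index `≤ B` in `T`. Let `u ∈ U`, `u ≠ 0`. As `u ∈ W` there is `d ∈ D` with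
`u' = avg ρ K u ≠ 0`, `K = cj d K₀` (`u` is a sum of fixed vectors of different `K_i`, `Kern.avg_avg`, `avg_of_fixed`: `∑_K avg ρ K u = u`), and `u' ∈ U` (`avg_mem_of_inv`). If `x ∈ D` acts trivially on `U` then `u' = ρ x u' ∈ fixed ρ (cj x K) ⊓ fixed ρ K`, so `cj x K = K` (`Kern.disjoint`). So
the kernel of `D` on `U` is contained in the normalizer of `K = cj d K₀`, and `(normalizer K₀).relIndex D = (normalizer (cj d K₀)).relIndex D ≤ (kernel in T).index ≤ B`. -/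
theorem qCase (hF : PV F) {p q B : ℕ} (hp : p.Prime) (hq : q.Prime) (hpq : p ≠ q) (hB : AlB F p q B)
    {H V : Type} [Group H] [Finite H] [AddCommGroup V] [Module (ZMod p) V] (ρ : H →* Module.End (ZMod p) V)
    (h : F (SD ρ)) (Q : Subgroup H) (hQn : Q.Normal) (hQ : IsPGroup q Q) (K₀ : Subgroup H) (hK : Kern ρ Q K₀ B)
    (D : Subgroup H) (hD : IsPGroup q D) : (Subgroup.normalizer (K₀ : Set H)).relIndex D ≤ B := by
  classical
  have hpf : Fact p.Prime := ⟨hp⟩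
  have hfS : Finite (SD ρ) := hF.fin h
  have hfV : Finite V := Finite.of_injective (fun v : V => (⟨v, 1⟩ : SD ρ))
    (fun a b hab => congrArg SD.v hab)
  have hfd : FiniteDimensional (ZMod p) V := Module.Finite.of_finite
  have hT : IsPGroup q (Q ⊔ D : Subgroup H) := IsPGroup.to_sup_of_normal_left hQ hD
  -- conjugates of `K₀`
  have hcc : ∀ x y : H, cj (x * y) K₀ = cj x (cj y K₀) := by
    intro x y
    ext z
    rw [mem_cj, mem_cj, mem_cj, mul_inv_rev]
    simp only [mul_assoc]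
  have hcQ : ∀ x ∈ Q, ∀ y : H, cj x (cj y K₀) = cj y K₀ := by
    intro x hx y
    have h1 := (hK.cj hQn y).1
    ext z
    rw [mem_cj]
    constructor
    · intro hz
      have h2 := h1.norm x hx _ hz
      have h3 : x * (x⁻¹ * z * x) * x⁻¹ = z := by group
      rwa [h3] at h2
    · intro hz
      have h2 := h1.norm x⁻¹ (Q.inv_mem hx) _ hz
      rwa [inv_inv] at h2
  obtain ⟨W, hWd⟩ : ∃ W : Submodule (ZMod p) V, W = ⨆ d : D, fixed ρ (cj (d : H) K₀) := ⟨_, rfl⟩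
  have hKW : ∀ d : D, fixed ρ (cj (d : H) K₀) ≤ W := fun d => by
    rw [hWd]
    exact le_iSup (fun d : D => fixed ρ (cj (d : H) K₀)) d
  have hWinv : Inv (ρ.comp (Q ⊔ D).subtype) W := by
    rintro ⟨t, ht⟩ v hv
    show ρ t v ∈ W
    obtain ⟨x, hx, d', hd', rfl⟩ := Subgroup.mem_sup_of_normal_left.1 ht
    rw [hWd] at hv
    refine Submodule.iSup_induction (fun d : D => fixed ρ (cj (d : H) K₀))
      (motive := fun v => ρ (x * d') v ∈ W) hv ?_ ?_ ?_
    · intro d v hv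
      refine hKW ⟨d' * d, D.mul_mem hd' d.2⟩ ?_
      have h1 := (fixed_cj (ρ := ρ) (x * d') (cj (d : H) K₀) v).2 hv
      have h2 : cj (x * d') (cj (d : H) K₀) = cj (d' * (d : H)) K₀ := by
        rw [← hcc, mul_assoc, hcc, hcQ x hx]
      rw [h2] at h1
      exact h1
    · show ρ (x * d') 0 ∈ W
      rw [map_zero]
      exact W.zero_mem
    · intro a b ha hb
      show ρ (x * d') (a + b) ∈ W
      rw [map_add]
      exact W.add_mem ha hb
  have hW0 : W ≠ ⊥ := by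
    intro h0
    have h1 := hKW 1
    rw [h0] at h1
    have h2 : cj ((1 : D) : H) K₀ = K₀ := by
      ext z
      rw [mem_cj]
      simp
    rw [h2] at h1
    exact hK.fix (le_bot_iff.1 h1)
  obtain ⟨U, hUW, hU⟩ := exists_irrSub (ρ.comp (Q ⊔ D).subtype) hWinv hW0
  have hidx : (kerOn (ρ.comp (Q ⊔ D).subtype) U).index ≤ B :=
    hB (Q ⊔ D : Subgroup H) V (ρ.comp (Q ⊔ D).subtype) hT
      (hF.sd_comp h (Q ⊔ D).subtype (Subgroup.subtype_injective _)) U hU
  have hUinv : ∀ t ∈ Q ⊔ D, ∀ v ∈ U, ρ t v ∈ U := fun t ht v hv => hU.1 ⟨t, ht⟩ v hv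
  -- the projections
  have hKd : ∀ d : H, IsPGroup q (cj d K₀) := fun d => hQ.to_le (hK.cj hQn d).1.le
  obtain ⟨𝒦, h𝒦⟩ : ∃ 𝒦 : Finset (Subgroup H), ∀ K, K ∈ 𝒦 ↔ ∃ d : D, K = cj (d : H) K₀ := by
    refine ⟨(Set.toFinite {K | ∃ d : D, K = cj (d : H) K₀}).toFinset, fun K => ?_⟩
    rw [Set.Finite.mem_toFinset]
    rfl
  have hsum : ∀ w ∈ W, ∑ K ∈ 𝒦, avg ρ K w = w := by
    intro w hw
    rw [hWd] at hw
    refine Submodule.iSup_induction (fun d : D => fixed ρ (cj (d : H) K₀))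
      (motive := fun w => ∑ K ∈ 𝒦, avg ρ K w = w) hw ?_ ?_ ?_
    · intro d v hv
      show ∑ K ∈ 𝒦, avg ρ K v = v
      rw [Finset.sum_eq_single (cj (d : H) K₀)]
      · exact avg_of_fixed hp hq hpq (hKd d) hv
      · intro K hKm hne
        obtain ⟨d', rfl⟩ := (h𝒦 K).1 hKm
        have h1 := hK.cj hQn (d' : H)
        have h2 := hK.cj hQn (d : H)
        rw [← avg_of_fixed hp hq hpq (hKd d) hv]
        exact Kern.avg_avg hp hq hpq hQ h1.1 h2.1 (h1.2.trans h2.2.symm) hne v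
      · intro hn
        exact absurd ((h𝒦 _).2 ⟨d, rfl⟩) hn
    · show ∑ K ∈ 𝒦, avg ρ K (0 : V) = 0
      simp only [map_zero, Finset.sum_const_zero]
    · intro a b ha hb
      show ∑ K ∈ 𝒦, avg ρ K (a + b) = a + b
      simp only [map_add, Finset.sum_add_distrib]
      rw [ha, hb]
  obtain ⟨u, huU, hu0⟩ := Submodule.exists_mem_ne_zero_of_ne_bot hU.2.1
  obtain ⟨d, hd⟩ : ∃ d : D, avg ρ (cj (d : H) K₀) u ≠ 0 := by
    by_contra hcon
    push Not at hcon
    apply hu0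
    rw [← hsum u (hUW huU)]
    refine Finset.sum_eq_zero fun K hKm => ?_
    obtain ⟨d', rfl⟩ := (h𝒦 K).1 hKm
    exact hcon d'
  have hle : cj (d : H) K₀ ≤ Q := (hK.cj hQn (d : H)).1.le
  have hu'U : avg ρ (cj (d : H) K₀) u ∈ U :=
    avg_mem_of_inv (fun k hk v hv => hUinv k (Subgroup.mem_sup_left (hle hk)) v hv) huU
  have hu'f : avg ρ (cj (d : H) K₀) u ∈ fixed ρ (cj (d : H) K₀) :=
    avg_mem_fixed hp hq hpq (hKd d) u
  obtain ⟨z, hz⟩ : ∃ z, z = ρ ((d : H)⁻¹) (avg ρ (cj (d : H) K₀) u) := ⟨_, rfl⟩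
  have hdz : ρ (d : H) z = avg ρ (cj (d : H) K₀) u := by
    rw [hz, ← Module.End.mul_apply, ← map_mul, mul_inv_cancel, map_one, Module.End.one_apply]
  have hzU : z ∈ U := by
    rw [hz]
    exact hUinv _ (Subgroup.mem_sup_right (D.inv_mem d.2)) _ hu'U
  have hz0 : z ≠ 0 := by
    intro h0
    rw [h0, map_zero] at hdz
    exact hd hdz.symm
  have hzf : z ∈ fixed ρ K₀ := by
    rw [← fixed_cj (ρ := ρ) (d : H), hdz]
    exact hu'f
  -- elements of `D` acting trivially on `U`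
  have hker : kerOn ρ U ⊓ D ≤ Subgroup.normalizer (K₀ : Set H) := by
    intro x hx
    have h1 : ρ x z = z := hx.1 z hzU
    have h2 : z ∈ fixed ρ (cj x K₀) := by
      have h3 := (fixed_cj (ρ := ρ) x K₀ z).2 hzf
      rwa [h1] at h3
    have h3 : cj x K₀ = K₀ := by
      by_contra hne
      have h4 := hK.cj hQn x
      have h5 := Kern.disjoint h4.1 hK h4.2 hne
      have h6 : z ∈ fixed ρ (cj x K₀) ⊓ fixed ρ K₀ := ⟨h2, hzf⟩
      rw [h5] at h6
      exact hz0 ((Submodule.mem_bot _).1 h6)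
    rw [Subgroup.mem_normalizer_iff]
    intro y
    have h4 : x * y * x⁻¹ ∈ cj x K₀ ↔ y ∈ K₀ := by
      rw [mem_cj]
      have h5 : x⁻¹ * (x * y * x⁻¹) * x = y := by group
      rw [h5]
    rw [h3] at h4
    exact h4.symm
  have hfin : ∀ X L : Subgroup H, X.relIndex L ≠ 0 := fun X L => by
    rw [Subgroup.relIndex]
    exact Subgroup.index_ne_zero_of_finite
  have h1 : (kerOn ρ U).relIndex (Q ⊔ D) ≤ B := by
    have h2 : (kerOn ρ U).subgroupOf (Q ⊔ D) = kerOn (ρ.comp (Q ⊔ D).subtype) U := by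
      ext x
      rw [Subgroup.mem_subgroupOf]
      exact Iff.rfl
    rw [Subgroup.relIndex, h2]
    exact hidx
  calc (Subgroup.normalizer (K₀ : Set H)).relIndex D ≤ (kerOn ρ U ⊓ D).relIndex D :=
        Subgroup.relIndex_le_of_le_left hker (hfin _ _)
    _ = (kerOn ρ U).relIndex D := Subgroup.inf_relIndex_right _ _
    _ ≤ (kerOn ρ U).relIndex (Q ⊔ D) := Subgroup.relIndex_le_of_le_right le_sup_right (hfin _ _)
    _ ≤ B := h1

end Pool.Agent.HForm
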