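import Pool.Agent.Lib_MP_4009a7_al.Base

/-!
# Piece MINN: minimal normal subgroups and chief factors of finite soluble groups; `pcore`
-/

set_option autoImplicit false

open scoped commutatorElement

namespace Pool.Agent.HForm

variable {G : Type} [Group G]

theorem exists_isMinNormal_le [Finite G] {N : Subgroup G} (hN : N.Normal) (h : N ≠ ⊥) :
    ∃ M ≤ N, IsMinNormal M := by
  obtain ⟨M, hM, hmin⟩ := exists_minimal_le_of_wellFoundedLT
    (fun M : Subgroup G => M.Normal ∧ M ≠ ⊥) N ⟨hN, h⟩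
  refine ⟨M, hM, hmin.prop.1, hmin.prop.2, fun M' h1 h2 => ?_⟩
  by_cases h3 : M' = ⊥
  · exact Or.inl h3
  · exact Or.inr (le_antisymm h2 (hmin.le_of_le ⟨h1, h3⟩ h2))

/-- PROOF. `⁅N, N⁆` is normal in `G` and `< N` (soluble, `IsSolvable.commutator_lt_of_ne_bot`), so it is `⊥` and `N` is commutative. Let `p` be a prime divisor of
`Nat.card N`; `{x ∈ N | x ^ p = 1}` is a normal subgroup of `G` (closed under multiplication because `N` is commutative),
nontrivial by Cauchy's theorem, so it is `N`. -/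
theorem IsMinNormal.elemAb [Finite G] [Group.IsSolvable G] {N : Subgroup G} (hN : IsMinNormal N) :
    ∃ p : ℕ, p.Prime ∧ (∀ x ∈ N, x ^ p = 1) ∧ ∀ x ∈ N, ∀ y ∈ N, x * y = y * x := by
  obtain ⟨hn, hne, hmin⟩ := hN
  have h1 : ⁅N, N⁆ < N := Group.IsSolvable.commutator_lt_of_ne_bot hne
  have h2 : ⁅N, N⁆ = ⊥ := by
    rcases hmin ⁅N, N⁆ inferInstance h1.le with h | h
    · exact h
    · exact absurd h h1.ne
  have hcomm : ∀ x ∈ N, ∀ y ∈ N, x * y = y * x := by
    intro x hx y hy
    have h3 : ⁅x, y⁆ ∈ ⁅N, N⁆ := Subgroup.commutator_mem_commutator hx hy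
    rw [h2, Subgroup.mem_bot, commutatorElement_eq_one_iff_mul_comm] at h3
    exact h3
  have hcard : Nat.card N ≠ 1 := by
    rw [Ne, Subgroup.card_eq_one]
    exact hne
  obtain ⟨p, hp, hdvd⟩ := Nat.exists_prime_and_dvd hcard
  have : Fact p.Prime := ⟨hp⟩
  refine ⟨p, hp, ?_, hcomm⟩
  let P : Subgroup G :=
    { carrier := {x | x ∈ N ∧ x ^ p = 1}
      mul_mem' := by
        rintro a b ⟨ha, ha'⟩ ⟨hb, hb'⟩
        refine ⟨N.mul_mem ha hb, ?_⟩
        rw [Commute.mul_pow (hcomm a ha b hb), ha', hb', one_mul]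
      one_mem' := ⟨N.one_mem, one_pow p⟩
      inv_mem' := by
        rintro a ⟨ha, ha'⟩
        refine ⟨N.inv_mem ha, ?_⟩
        rw [inv_pow, ha', inv_one] }
  have hP : ∀ x, x ∈ P ↔ x ∈ N ∧ x ^ p = 1 := fun x => Iff.rfl
  have hPn : P.Normal := by
    refine ⟨fun x hx g => ?_⟩
    rw [hP] at hx ⊢
    refine ⟨hn.conj_mem x hx.1 g, ?_⟩
    rw [conj_pow, hx.2, mul_one, mul_inv_cancel]
  have hPN : P ≤ N := fun x hx => ((hP x).1 hx).1
  rcases hmin P hPn hPN with h | h
  · exfalso
    obtain ⟨x, hx⟩ := exists_prime_orderOf_dvd_card' (G := N) p hdvd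
    have h4 : (x : G) ∈ P := by
      rw [hP]
      refine ⟨x.2, ?_⟩
      have h5 : x ^ p = 1 := by
        rw [← hx]
        exact pow_orderOf_eq_one x
      have := congrArg (Subtype.val) h5
      simpa using this
    rw [h, Subgroup.mem_bot] at h4
    have h6 : x = 1 := Subtype.ext h4
    rw [h6, orderOf_one] at hx
    exact hp.ne_one hx.symm
  · intro x hx
    rw [← h] at hx
    exact ((hP x).1 hx).2

theorem isChief_iff {L K : Subgroup G} [L.Normal] (hLK : L ≤ K) :
    IsChief L K ↔ IsMinNormal (K.map (QuotientGroup.mk' L)) := by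
  have hker : (QuotientGroup.mk' L).ker = L := QuotientGroup.ker_mk' L
  have hsurj := QuotientGroup.mk'_surjective L
  have hcm : ∀ M : Subgroup G, L ≤ M →
      (M.map (QuotientGroup.mk' L)).comap (QuotientGroup.mk' L) = M := by
    intro M hM
    rw [Subgroup.comap_map_eq, hker, sup_eq_left.2 hM]
  constructor
  · rintro ⟨_, hK, hlt, hmin⟩
    refine ⟨hK.map _ hsurj, ?_, ?_⟩
    · intro h
      rw [Subgroup.map_eq_bot_iff, hker] at h
      exact absurd (lt_of_lt_of_le hlt h) (lt_irrefl _)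
    · intro M hM hMK
      have h1 : L ≤ M.comap (QuotientGroup.mk' L) :=
        hker.ge.trans ((QuotientGroup.mk' L).ker_le_comap M)
      have h2 : M.comap (QuotientGroup.mk' L) ≤ K := by
        rw [← hcm K hLK]
        exact Subgroup.comap_mono hMK
      have h3 : (M.comap (QuotientGroup.mk' L)).map (QuotientGroup.mk' L) = M :=
        Subgroup.map_comap_eq_self_of_surjective hsurj M
      rcases hmin _ (hM.comap _) h1 h2 with h | h
      · left
        rw [← h3, h, Subgroup.map_eq_bot_iff, hker]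
      · right
        rw [← h3, h]
  · rintro ⟨hK, hne, hmin⟩
    refine ⟨inferInstance, ?_, lt_of_le_of_ne hLK ?_, ?_⟩
    · rw [← hcm K hLK]
      exact hK.comap _
    · rintro rfl
      apply hne
      rw [Subgroup.map_eq_bot_iff, hker]
    · intro M hM h1 h2
      rcases hmin (M.map (QuotientGroup.mk' L)) (hM.map _ hsurj) (Subgroup.map_mono h2) with h | h
      · left
        rw [Subgroup.map_eq_bot_iff, hker] at h
        exact le_antisymm h h1
      · right
        rw [← hcm M h1, h, hcm K hLK]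

theorem IsChief.elemAb [Finite G] [Group.IsSolvable G] {L K : Subgroup G} (h : IsChief L K) :
    ∃ p : ℕ, p.Prime ∧ (∀ x ∈ K, x ^ p ∈ L) ∧ ∀ x ∈ K, ∀ y ∈ K, ⁅x, y⁆ ∈ L := by
  have := h.1
  obtain ⟨p, hp, h1, h2⟩ := ((isChief_iff h.2.2.1.le).1 h).elemAb
  refine ⟨p, hp, fun x hx => ?_, fun x hx y hy => ?_⟩
  · have h3 := h1 (QuotientGroup.mk' L x) (Subgroup.mem_map_of_mem _ hx)
    rw [← map_pow] at h3
    exact (QuotientGroup.eq_one_iff _).1 h3
  · have h3 := h2 (QuotientGroup.mk' L x) (Subgroup.mem_map_of_mem _ hx)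
      (QuotientGroup.mk' L y) (Subgroup.mem_map_of_mem _ hy)
    have h4 : QuotientGroup.mk' L ⁅x, y⁆ = 1 := by
      rw [map_commutatorElement, commutatorElement_eq_one_iff_mul_comm]
      exact h3
    exact (QuotientGroup.eq_one_iff _).1 h4

theorem exists_isChief_bot [Finite G] {L K : Subgroup G} (hL : L.Normal) (hK : K.Normal) (h : L < K) :
    ∃ K' ≤ K, IsChief L K' := by
  obtain ⟨M, hM, hmin⟩ := exists_minimal_le_of_wellFoundedLT
    (fun M : Subgroup G => M.Normal ∧ L < M) K ⟨hK, h⟩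
  refine ⟨M, hM, hL, hmin.prop.1, hmin.prop.2, fun M' h1 h2 h3 => ?_⟩
  by_cases h4 : M' = L
  · exact Or.inl h4
  · exact Or.inr (le_antisymm h3 (hmin.le_of_le ⟨h1, lt_of_le_of_ne h2 (Ne.symm h4)⟩ h3))

theorem exists_isChief_top [Finite G] {L K : Subgroup G} (hL : L.Normal) (hK : K.Normal) (h : L < K) :
    ∃ L', L ≤ L' ∧ IsChief L' K := by
  obtain ⟨M, hM, hmax⟩ := exists_maximal_ge_of_wellFoundedGT
    (fun M : Subgroup G => M.Normal ∧ M < K) L ⟨hL, h⟩
  refine ⟨M, hM, hmax.prop.1, hK, hmax.prop.2, fun M' h1 h2 h3 => ?_⟩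
  by_cases h4 : M' = K
  · exact Or.inr h4
  · exact Or.inl (le_antisymm (hmax.le_of_ge ⟨h1, lt_of_le_of_ne h3 h4⟩ h2) h2)

/-! ### the largest normal `p`-subgroup -/

theorem le_pcore {p : ℕ} {N : Subgroup G} (hN : N.Normal) (hp : IsPGroup p N) : N ≤ pcore p G :=
  le_iSup₂_of_le N ⟨hN, hp⟩ le_rfl

instance pcore_normal (p : ℕ) : (pcore p G).Normal := by
  unfold pcore
  have : ∀ N : Subgroup G, (⨆ (_ : N.Normal ∧ IsPGroup p N), N).Normal := by
    intro N
    by_cases h : N.Normal ∧ IsPGroup p N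
    · rw [iSup_pos h]
      exact h.1
    · rw [iSup_neg h]
      infer_instance
  infer_instance

/-- the product of two normal `p`-subgroups is a `p`-subgroup; `G` is finite, so the supremum is a finite one -/
theorem pcore_isPGroup [Finite G] {p : ℕ} (hp : p.Prime) : IsPGroup p (pcore p G) := by
  have : Fact p.Prime := ⟨hp⟩
  obtain ⟨M, hM, hmax⟩ := exists_maximal_ge_of_wellFoundedGT
    (fun M : Subgroup G => M.Normal ∧ IsPGroup p M) ⊥ ⟨inferInstance, IsPGroup.of_bot⟩
  refine hmax.prop.2.to_le ?_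
  refine iSup₂_le fun N hN => ?_
  have := hN.1
  have := hmax.prop.1
  have h1 : IsPGroup p (M ⊔ N : Subgroup G) := hmax.prop.2.to_sup_of_normal_right hN.2
  exact le_sup_right.trans (hmax.le_of_ge ⟨inferInstance, h1⟩ le_sup_left)

/-- a Sylow subgroup of a normal nilpotent subgroup is normal -/
theorem normal_of_sylow_of_nilpotent [Finite G] {p : ℕ} (hp : p.Prime) {N : Subgroup G} (hN : N.Normal)
    (hnil : Group.IsNilpotent N) (P : Sylow p N) : ((P : Subgroup N).map N.subtype).Normal := by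
  have : Fact p.Prime := ⟨hp⟩
  have h1 : (P : Subgroup N).Normal :=
    Sylow.normal_of_normalizerCondition Group.normalizerCondition_of_isNilpotent P
  have := Sylow.characteristic_of_normal P h1
  infer_instance

end Pool.Agent.HForm
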