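import Pool.Agent.Lib_MP_4009a7_al.PVBasic
import Pool.Agent.Lib_MP_4009a7_al.RepT

/-!
# Piece SDF: `F (SD ρ)` under restriction, subspaces and quotients
-/

set_option autoImplicit false

open scoped commutatorElement

namespace Pool.Agent.HForm

variable {F : GClass}

/-- a form of the alpha bound used as a hypothesis: irreducible representations of `q`-groups over `ZMod p` in `F` have kernels of index at most `B` -/
def AlB (F : GClass) (p q B : ℕ) : Prop :=
  ∀ (T V : Type) [Group T] [AddCommGroup V] [Module (ZMod p) V] (ρ : T →* Module.End (ZMod p) V),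
    IsPGroup q T → F (SD ρ) → ∀ U : Submodule (ZMod p) V, IrrSub ρ U → (kerOn ρ U).index ≤ B

/-- `F` is closed under restriction of the group -/
theorem PV.sd_comp (hF : PV F) {p : ℕ} {H V : Type} [Group H] [AddCommGroup V] [Module (ZMod p) V]
    {ρ : H →* Module.End (ZMod p) V} (h : F (SD ρ)) {H' : Type} [Group H'] (f : H' →* H)
    (hf : Function.Injective f) : F (SD (ρ.comp f)) := by
  let φ : SD (ρ.comp f) →* SD ρ :=
    { toFun := fun a => ⟨a.v, f a.h⟩
      map_one' := by
        ext
        · rfl
        · exact map_one f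
      map_mul' := fun a b => by
        ext
        · rfl
        · exact map_mul f a.h b.h }
  refine hF.inj φ ?_ h
  intro a b hab
  have h1 : (φ a).v = (φ b).v := congrArg SD.v hab
  have h2 : (φ a).h = (φ b).h := congrArg SD.h hab
  exact SD.ext h1 (hf h2)

theorem PV.sd_sub (hF : PV F) {p : ℕ} {H V : Type} [Group H] [AddCommGroup V] [Module (ZMod p) V]
    {ρ : H →* Module.End (ZMod p) V} (h : F (SD ρ)) (U : Submodule (ZMod p) V) (hU : Inv ρ U) :
    F (SD (subRep ρ U hU)) := by
  let φ : SD (subRep ρ U hU) →* SD ρ :=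
    { toFun := fun a => ⟨(a.v : V), a.h⟩
      map_one' := by
        ext
        · rfl
        · rfl
      map_mul' := fun a b => by
        ext
        · rfl
        · rfl }
  refine hF.inj φ ?_ h
  intro a b hab
  have h1 : (φ a).v = (φ b).v := congrArg SD.v hab
  have h2 : (φ a).h = (φ b).h := congrArg SD.h hab
  exact SD.ext (Subtype.ext h1) h2

theorem PV.sd_surj (hF : PV F) {p : ℕ} {H V : Type} [Group H] [AddCommGroup V] [Module (ZMod p) V]
    {H' : Type} [Group H'] {ρ' : H' →* Module.End (ZMod p) V} (f : H →* H') (hf : Function.Surjective f)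
    (h : F (SD (ρ'.comp f))) : F (SD ρ') := by
  let φ : SD (ρ'.comp f) →* SD ρ' :=
    { toFun := fun a => ⟨a.v, f a.h⟩
      map_one' := by
        ext
        · rfl
        · exact map_one f
      map_mul' := fun a b => by
        ext
        · rfl
        · exact map_mul f a.h b.h }
  refine hF.surj φ ?_ h
  intro b
  obtain ⟨x, hx⟩ := hf b.h
  exact ⟨⟨b.v, x⟩, SD.ext rfl hx⟩

end Pool.Agent.HForm
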