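import Pool.Agent.Lib_MP_4009a7_al.Sec
import Pool.Agent.Lib_MP_4009a7_al.MinN
import Pool.Agent.Lib_MP_4009a7_al.SDF
import Pool.Agent.Lib_MP_4009a7_al.RepU

/-!
# Piece RFAC: chief factors below a normal `q`-subgroup
-/

set_option autoImplicit false

open scoped commutatorElement

namespace Pool.Agent.HForm

variable {F : GClass}

/-- an element of a `q`-group with an `m`-th power in a subgroup, `m` prime to `q` -/
private theorem rfac_coprime {G : Type} [Group G] {q m j : ℕ} (L : Subgroup G) (x : G)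
    (h1 : x ^ (q ^ j) = 1) (h2 : x ^ m ∈ L) (hc : Nat.Coprime q m) : x ∈ L := by
  have h3 : Nat.Coprime (q ^ j) m := Nat.Coprime.pow_left j hc
  have h4 : orderOf x ∣ q ^ j := orderOf_dvd_of_pow_eq_one h1
  have h5 : (orderOf x).Coprime m := Nat.Coprime.coprime_dvd_left h4 h3
  obtain ⟨n, hn⟩ := exists_pow_eq_self_of_coprime h5.symm
  rw [← hn]
  exact L.pow_mem h2 n

private theorem rfac_pow {M : Type} [Group M] (a b y : M) (h1 : a * b = b * a) (h2 : a * y = b * y * a)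
    (n : ℕ) : a ^ n * y = b ^ n * y * a ^ n := by
  induction n with
  | zero => simp
  | succ n ih =>
    have h3 : a * b ^ n = b ^ n * a := (Commute.pow_right (show Commute a b from h1) n).eq
    calc a ^ (n + 1) * y = a * (a ^ n * y) := by rw [pow_succ', mul_assoc]
      _ = a * b ^ n * y * a ^ n := by rw [ih]; group
      _ = b ^ n * (a * y) * a ^ n := by rw [h3]; group
      _ = b ^ n * (b * y * a) * a ^ n := by rw [h2]
      _ = b ^ (n + 1) * y * a ^ (n + 1) := by rw [pow_succ b, pow_succ' a]; group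

/-- a `q`-group has nonzero fixed points on a finite nontrivial space of characteristic `q` -/
private theorem rfac_fixed {G V : Type} [Group G] {q : ℕ} [hq : Fact q.Prime] [AddCommGroup V]
    [Module (ZMod q) V] [Finite V] (ρ : G →* Module.End (ZMod q) V) (Q : Subgroup G) (hQ : IsPGroup q Q)
    (hV : Nontrivial V) : fixed ρ Q ≠ ⊥ := by
  intro hbot
  let inst : MulAction Q V :=
    { smul := fun g v => ρ (g : G) v
      one_smul := fun v => by
        change ρ ((1 : Q) : G) v = v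
        rw [Subgroup.coe_one, map_one]
        rfl
      mul_smul := fun a b v => by
        change ρ ((a * b : Q) : G) v = ρ (a : G) (ρ (b : G) v)
        rw [Subgroup.coe_mul, map_mul]
        rfl }
  have h1 := hQ.card_modEq_card_fixedPoints V
  have h2 : Nat.card (MulAction.fixedPoints Q V) = 1 := by
    rw [Nat.card_eq_one_iff_unique]
    constructor
    · constructor
      rintro ⟨a, ha⟩ ⟨b, hb⟩
      have key : ∀ a : V, a ∈ MulAction.fixedPoints Q V → a = 0 := by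
        intro a ha
        have h3 : a ∈ fixed ρ Q := fun h hh => ha ⟨h, hh⟩
        rw [hbot, Submodule.mem_bot] at h3
        exact h3
      exact Subtype.ext ((key a ha).trans (key b hb).symm)
    · refine ⟨⟨0, fun g => ?_⟩⟩
      change ρ (g : G) 0 = 0
      rw [map_zero]
  have h3 : q ∣ Nat.card V := by
    obtain ⟨v, hv⟩ := exists_ne (0 : V)
    have h4 : addOrderOf v = q := by
      apply addOrderOf_eq_prime _ hv
      have h5 : ((q : ZMod q)) • v = 0 := by rw [ZMod.natCast_self, zero_smul]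
      rw [← h5, Nat.cast_smul_eq_nsmul]
    rw [← h4]
    exact addOrderOf_dvd_natCard v
  rw [h2] at h1
  have h6 : Nat.card V ≡ 0 [MOD q] := (Nat.modEq_zero_iff_dvd).2 h3
  have h7 : 1 ≡ 0 [MOD q] := h1.symm.trans h6
  have h8 : q ∣ 1 := (Nat.modEq_zero_iff_dvd).1 h7
  exact hq.out.one_lt.ne' (Nat.dvd_one.1 h8)

/-- PROOF. Among the normal subgroups `L` of `G` with `J ≤ L ≤ Q` and `⁅d, y⁆ ∈ L` for all `y ∈ Q` (`Q` is one: `d` normalises `Q`) choose a minimal one (`G` finite). `L ≠ J` by hypothesis. Let `L'` with `J ≤ L'`, `IsChief L' L` (`exists_isChief_top`). Suppose `⁅d, x⁆ ∈ L'` for all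
`x ∈ L`. For `y ∈ Q`, `d y d⁻¹ = l y` with `l ∈ L` and `d l d⁻¹ ≡ l` modulo `L'`, so `d ^ k y d ^ (-k) ≡ l ^ k y` modulo `L'` (`L'` normal); with `k = orderOf d`, a power of `r`, `l ^ k ∈ L'`; `l` has order a power of `q` and `q ≠ r`, so `l ∈ L'`. So `L'`
contradicts the minimality of `L`. -/
theorem exists_factor {G : Type} [Group G] [Finite G] {q r : ℕ} (hq : q.Prime) (hr : r.Prime) (hqr : q ≠ r)
    (Q J : Subgroup G) (hQ : Q.Normal) (hQq : IsPGroup q Q) (hJ : J.Normal) (hJQ : J ≤ Q) (d : G)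
    (hd : ∃ k : ℕ, d ^ (r ^ k) = 1) (hdx : ∃ x ∈ Q, ⁅d, x⁆ ∉ J) :
    ∃ L K : Subgroup G, IsChief L K ∧ J ≤ L ∧ K ≤ Q ∧ ∃ x ∈ K, ⁅d, x⁆ ∉ L := by
  obtain ⟨k, hk⟩ := hd
  obtain ⟨x0, hx0, hx0'⟩ := hdx
  have hQ1 : ∀ y ∈ Q, ⁅d, y⁆ ∈ Q := fun y hy => by
    rw [commutatorElement_def]
    exact Q.mul_mem (hQ.conj_mem y hy d) (Q.inv_mem hy)
  obtain ⟨K, hKQ, hmin⟩ := exists_minimal_le_of_wellFoundedLT
    (fun L : Subgroup G => L.Normal ∧ J ≤ L ∧ ∀ y ∈ Q, ⁅d, y⁆ ∈ L) Q ⟨hQ, hJQ, hQ1⟩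
  obtain ⟨hKn, hJK, hK⟩ := hmin.prop
  have hJK' : J < K := by
    refine lt_of_le_of_ne hJK ?_
    rintro rfl
    exact hx0' (hK x0 hx0)
  obtain ⟨L, hJL, hLK⟩ := exists_isChief_top hJ hKn hJK'
  refine ⟨L, K, hLK, hJL, hKQ, ?_⟩
  by_contra hcon
  push Not at hcon
  have hLn := hLK.1
  have hlt := hLK.2.2.1
  have h1 : ∀ y ∈ Q, ⁅d, y⁆ ∈ L := by
    intro y hy
    have hl : ⁅d, y⁆ ∈ K := hK y hy
    obtain ⟨j, hj⟩ := hQq ⟨⁅d, y⁆, hKQ hl⟩
    have hj' : ⁅d, y⁆ ^ (q ^ j) = 1 := by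
      have := congrArg Subtype.val hj
      simpa using this
    have h2 : (QuotientGroup.mk' L) ⁅d, ⁅d, y⁆⁆ = 1 := by
      rw [QuotientGroup.mk'_apply, QuotientGroup.eq_one_iff]
      exact hcon _ hl
    have h3 : QuotientGroup.mk' L d * QuotientGroup.mk' L ⁅d, y⁆ =
        QuotientGroup.mk' L ⁅d, y⁆ * QuotientGroup.mk' L d := by
      rw [map_commutatorElement, commutatorElement_eq_one_iff_mul_comm] at h2
      exact h2
    have h4 : QuotientGroup.mk' L d * QuotientGroup.mk' L y =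
        QuotientGroup.mk' L ⁅d, y⁆ * QuotientGroup.mk' L y * QuotientGroup.mk' L d := by
      rw [← map_mul, ← map_mul, ← map_mul]
      congr 1
      rw [commutatorElement_def]
      group
    have h5 := rfac_pow _ _ _ h3 h4 (r ^ k)
    rw [← map_pow, hk, map_one, one_mul, mul_one] at h5
    have h6 : (QuotientGroup.mk' L) (⁅d, y⁆ ^ (r ^ k)) = 1 := by
      rw [map_pow]
      exact (mul_eq_right.1 h5.symm)
    rw [QuotientGroup.mk'_apply, QuotientGroup.eq_one_iff] at h6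
    exact rfac_coprime L _ hj' h6 (Nat.Coprime.pow_right k ((Nat.coprime_primes hq hr).2 hqr))
  have h2 := hmin.le_of_le ⟨hLn, hJL, h1⟩ hlt.le
  exact absurd (lt_of_lt_of_le hlt h2) (lt_irrefl _)

/-- PROOF. Work in the group `G = Q ⊔ D` (a subgroup of `H`, as a type), in which `Q` and `J` are normal; `F G` (`PV.inj`; `H` embeds into `SD ρ`, or `hH`). `d` has `r`-power order. By `exists_factor` there is a chief factor `K / L` of `G`, `J ≤ L`, `K ≤ Q`, with `⁅d, x⁆ ∉ L` for some `x ∈ K`.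
`K / L` is an elementary abelian `q`-group (`IsChief.elemAb`: `G` need not be soluble a priori, but `G ⧸ Q` and `Q` are nilpotent, so `G` is soluble; the prime is `q` as `K ≤ Q`). Let `ρ'` be from `exists_secRep` (for `q`), irreducible. `Q` acts trivially: the fixed points of `Q` on the
`q`-group `V` are nonzero (`Q` is a `q`-group, `V` finite nontrivial of characteristic `q`) and invariant. So the restriction of `ρ'` to `D` is irreducible; by `AlB F q r B` (for the subspace `⊤`) its kernel `N = {c ∈ D | ∀ x ∈ K, ⁅c, x⁆ ∈ L}` has index `≤ B` in `D`. -/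
theorem exists_bounded_normal (hF : PV F) {q r B : ℕ} (hq : q.Prime) (hr : r.Prime) (hqr : q ≠ r)
    (hB : AlB F q r B) {H : Type} [Group H] (hH : F H) (Q D J : Subgroup H) (hQ : Q.Normal)
    (hQq : IsPGroup q Q) (hD : IsPGroup r D) (hJQ : J ≤ Q) (hJ1 : ∀ x ∈ Q, ∀ k ∈ J, x * k * x⁻¹ ∈ J)
    (hJ2 : ∀ x ∈ D, ∀ k ∈ J, x * k * x⁻¹ ∈ J) (d : H) (hd : d ∈ D) (hdx : ∃ x ∈ Q, ⁅d, x⁆ ∉ J) :
    ∃ N ≤ D, (∀ y ∈ D, ∀ n ∈ N, y * n * y⁻¹ ∈ N) ∧ (∀ c ∈ D, (∀ x ∈ Q, ⁅c, x⁆ ∈ J) → c ∈ N) ∧ d ∉ N ∧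
      N.relIndex D ≤ B := by
  have : Finite H := hF.fin hH
  have hqf : Fact q.Prime := ⟨hq⟩
  have hrf : Fact r.Prime := ⟨hr⟩
  -- the group `G = Q ⊔ D`
  set S : Subgroup H := Q ⊔ D with hS
  have hQS : Q ≤ S := le_sup_left
  have hDS : D ≤ S := le_sup_right
  have hJS : J ≤ S := hJQ.trans hQS
  have hG : F S := hF.inj S.subtype (Subgroup.subtype_injective S) hH
  have hdec : ∀ g : S, ∃ y ∈ Q, ∃ c ∈ D, (g : H) = y * c := by
    intro g
    have h1 : (g : H) ∈ Q ⊔ D := g.2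
    rw [Subgroup.mem_sup_of_normal_left] at h1
    obtain ⟨y, hy, c, hc, h2⟩ := h1
    exact ⟨y, hy, c, hc, h2.symm⟩
  have hQn : (Q.subgroupOf S).Normal := inferInstance
  have hJn : (J.subgroupOf S).Normal := by
    refine ⟨fun n hn g => ?_⟩
    rw [Subgroup.mem_subgroupOf] at hn ⊢
    obtain ⟨y, hy, c, hc, h2⟩ := hdec g
    have h3 : ((g * n * g⁻¹ : S) : H) = y * (c * n * c⁻¹) * y⁻¹ := by
      rw [Subgroup.coe_mul, Subgroup.coe_mul, Subgroup.coe_inv, h2]
      group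
    rw [h3]
    exact hJ1 y hy _ (hJ2 c hc _ hn)
  have hQq' : IsPGroup q (Q.subgroupOf S) := hQq.comap_subtype
  have hsol : Group.IsSolvable S := by
    rw [Group.isSolvable_iff_subgroup_quotient (Q.subgroupOf S)]
    constructor
    · have := hQq'.isNilpotent
      infer_instance
    · have h1 : IsPGroup r (S ⧸ Q.subgroupOf S) := by
        intro g
        induction g using QuotientGroup.induction_on with
        | H g =>
          obtain ⟨y, hy, c, hc, h2⟩ := hdec g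
          obtain ⟨j, hj⟩ := hD ⟨c, hc⟩
          refine ⟨j, ?_⟩
          have h3 : g = ⟨y, hQS hy⟩ * ⟨c, hDS hc⟩ := Subtype.ext h2
          have h4 : (QuotientGroup.mk' (Q.subgroupOf S)) ⟨y, hQS hy⟩ = 1 := by
            rw [QuotientGroup.mk'_apply, QuotientGroup.eq_one_iff]
            exact hy
          have h5 : (⟨c, hDS hc⟩ : S) ^ (r ^ j) = 1 :=
            Subtype.ext (by simpa using congrArg Subtype.val hj)
          change (QuotientGroup.mk' (Q.subgroupOf S) g) ^ (r ^ j) = 1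
          rw [h3, map_mul, h4, one_mul, ← map_pow, h5, map_one]
      have := h1.isNilpotent
      infer_instance
  obtain ⟨m, hm⟩ := hD ⟨d, hd⟩
  obtain ⟨x0, hx0, hx0'⟩ := hdx
  obtain ⟨L, K, hch, hJL, hKQ, x1, hx1, hx1'⟩ := exists_factor (G := S) hq hr hqr (Q.subgroupOf S)
    (J.subgroupOf S) hQn hQq' hJn (Subgroup.comap_mono hJQ) ⟨d, hDS hd⟩
    ⟨m, Subtype.ext (by simpa using congrArg Subtype.val hm)⟩
    ⟨⟨x0, hQS hx0⟩, hx0, fun h => hx0' h⟩
  obtain ⟨p', hp', he1, he2⟩ := hch.elemAb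
  have hpq : p' = q := by
    by_contra hne
    have hlt := hch.2.2.1
    obtain ⟨x, hxK, hxL⟩ := SetLike.exists_of_lt hlt
    obtain ⟨j, hj⟩ := hQq' ⟨x, hKQ hxK⟩
    have hj' : x ^ (q ^ j) = 1 := by
      have := congrArg Subtype.val hj
      simpa using this
    exact hxL (rfac_coprime L x hj' (he1 x hxK) ((Nat.coprime_primes hq hp').2 (Ne.symm hne)))
  subst hpq
  obtain ⟨V, _, _, ρ, hSD, hker, hcard, hirr⟩ := exists_secRep hF hq hG L K hch.1 hch.2.1
    hch.2.2.1.le he1 he2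
  have hirr := hirr hch
  have hVfin : Finite V := by
    apply Nat.finite_of_card_ne_zero
    rw [hcard]
    have : L.IsFiniteRelIndex K := Subgroup.isFiniteRelIndex_of_finiteIndex
    exact Subgroup.relIndex_ne_zero
  have hfix : fixed ρ (Q.subgroupOf S) = ⊤ := by
    rcases hirr.2 _ (fixed_inv ρ hQn) with h | h
    · exfalso
      exact rfac_fixed ρ (Q.subgroupOf S) hQq' hirr.1 h
    · exact h
  have hQker : ∀ y ∈ Q.subgroupOf S, ρ y = 1 := by
    intro y hy
    refine LinearMap.ext fun v => ?_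
    have h1 : v ∈ fixed ρ (Q.subgroupOf S) := by rw [hfix]; trivial
    exact h1 y hy
  let f : D →* S := Subgroup.inclusion hDS
  have hf : Function.Injective f := Subgroup.inclusion_injective hDS
  have hSD' := hF.sd_comp hSD f hf
  have hirr' : Irr (ρ.comp f) := by
    refine Irr.of_surj (ρ' := ρ) (fun x => ?_) hirr (fun y => ⟨f y, rfl⟩)
    obtain ⟨y, hy, c, hc, h2⟩ := hdec x
    refine ⟨⟨c, hc⟩, ?_⟩
    have h3 : x = ⟨y, hQS hy⟩ * f ⟨c, hc⟩ := Subtype.ext h2
    rw [h3, map_mul, hQker ⟨y, hQS hy⟩ hy, one_mul]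
    rfl
  have hidx := hB D V (ρ.comp f) hD hSD' ⊤ (irrSub_top_iff.2 hirr')
  set M : Subgroup D := kerOn (ρ.comp f) ⊤ with hM
  have hMn : M.Normal := kerOn_normal (fun _ _ _ => trivial)
  have hMmem : ∀ c : D, c ∈ M ↔ ∀ x ∈ K, ⁅f c, x⁆ ∈ L := by
    intro c
    rw [← hker, MonoidHom.mem_ker, hM, mem_kerOn]
    constructor
    · intro h
      exact LinearMap.ext fun v => h v trivial
    · intro h v _
      rw [MonoidHom.comp_apply, h]
      rfl
  refine ⟨M.map D.subtype, Subgroup.map_subtype_le M, ?_, ?_, ?_, ?_⟩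
  · rintro y hy _ ⟨n, hn, rfl⟩
    exact ⟨⟨y, hy⟩ * n * ⟨y, hy⟩⁻¹, hMn.conj_mem n hn ⟨y, hy⟩, rfl⟩
  · intro c hc h
    refine ⟨⟨c, hc⟩, (hMmem _).2 fun x hx => hJL ?_, rfl⟩
    rw [Subgroup.mem_subgroupOf]
    exact h x (hKQ hx)
  · rintro ⟨n, hn, hnd⟩
    have h1 : n = ⟨d, hd⟩ := Subtype.ext hnd
    subst h1
    exact hx1' ((hMmem _).1 hn x1 hx1)
  · have h1 : (M.map D.subtype).relIndex D = M.index := by
      rw [Subgroup.relIndex, Subgroup.subgroupOf, Subgroup.comap_map_eq_self_of_injective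
        (Subgroup.subtype_injective D)]
    rw [h1]
    exact hidx

end Pool.Agent.HForm
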