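import Pool.Agent.Lib_MP_4009a7_al.CTr

/-!
# Piece YCOUNT: counting
-/

set_option autoImplicit false

open scoped commutatorElement

namespace Pool.Agent.HForm

/-- the subgroup `{x ∈ Q | y * x * y⁻¹ ∈ K₀}` of `Q` -/
private def ycK {G : Type} [Group G] (Q K₀ : Subgroup G) (y : G) : Subgroup Q :=
  K₀.comap ((MulAut.conj y).toMonoidHom.comp Q.subtype)

private theorem mem_ycK {G : Type} [Group G] {Q K₀ : Subgroup G} {y : G} {x : Q} :
    x ∈ ycK Q K₀ y ↔ y * x * y⁻¹ ∈ K₀ := by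
  unfold ycK
  rw [Subgroup.mem_comap]
  rfl

private theorem ycK_index {G : Type} [Group G] [Finite G] {Q K₀ : Subgroup G} {y : G} {B : ℕ}
    (hy : ∀ x ∈ Q, y * x * y⁻¹ ∈ Q) (hi : K₀.relIndex Q ≤ B) : (ycK Q K₀ y).index ≤ B := by
  unfold ycK
  rw [Subgroup.index_comap]
  refine le_trans (Subgroup.relIndex_le_of_le_right ?_ ?_) hi
  · rintro _ ⟨x, rfl⟩
    exact hy x x.2
  · exact Subgroup.index_ne_zero_of_finite

private theorem ycK_normal {G : Type} [Group G] {Q K₀ : Subgroup G} {y : G}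
    (hy : ∀ x ∈ Q, y * x * y⁻¹ ∈ Q) (hn : ∀ x ∈ Q, ∀ k ∈ K₀, x * k * x⁻¹ ∈ K₀) :
    (ycK Q K₀ y).Normal := by
  refine ⟨fun x hx g => ?_⟩
  rw [mem_ycK] at hx ⊢
  have h1 := hn _ (hy g g.2) _ hx
  have h2 : y * ((g * x * g⁻¹ : Q) : G) * y⁻¹ =
      y * (g : G) * y⁻¹ * (y * (x : G) * y⁻¹) * (y * (g : G) * y⁻¹)⁻¹ := by
    push_cast
    group
  rw [h2]
  exact h1

/-- PROOF. For `y ∈ Y` let `K^y = {x ∈ Q | y * x * y⁻¹ ∈ K₀}`, a normal subgroup of `Q` of index `≤ B`; the intersection over all `y ∈ Y` is trivial (`hcore`). By `center_trick` for the group `Q` and `E = A` (contains the centre of `Q`), `Nat.card Q ≤ B ^ Nat.card A`.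
`K^y ⊓ A` only depends on the coset `Y₀ * y` (for `y₀ ∈ Y₀`, `y₀⁻¹ (K₀ ⊓ A) y₀ = K₀ ⊓ A`, `G` is finite and `A` is normalised by `Y`), so the trivial group is the intersection of at most `t` subgroups of `A` of index `≤ B`: `Nat.card A ≤ B ^ t`. The map
`y ↦ K^y` from `Y` to the subsets of `Q` is injective (`hdist`: if `K^y = K^z` then `y * z⁻¹` normalises `K₀`), so `Nat.card Y ≤ 2 ^ Nat.card Q`. -/
theorem yc_count {G : Type} [Group G] [Finite G] {q B t : ℕ} (hq : q.Prime) (hB : 1 ≤ B) (Q Y K₀ : Subgroup G)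
    (hQ : IsPGroup q Q) (hYQ : ∀ y ∈ Y, ∀ x ∈ Q, y * x * y⁻¹ ∈ Q) (hK₀Q : K₀ ≤ Q)
    (hn : ∀ x ∈ Q, ∀ k ∈ K₀, x * k * x⁻¹ ∈ K₀) (hi : K₀.relIndex Q ≤ B)
    (hcore : ∀ x ∈ Q, (∀ y ∈ Y, y * x * y⁻¹ ∈ K₀) → x = 1)
    (hdist : ∀ y ∈ Y, (∀ k ∈ K₀, y * k * y⁻¹ ∈ K₀) → y = 1) (A Y₀ : Subgroup G)
    (hA : ∀ a, a ∈ A ↔ a ∈ Q ∧ ∀ x ∈ Q, a * x = x * a)
    (hY₀ : ∀ y, y ∈ Y₀ ↔ y ∈ Y ∧ ∀ a ∈ A, a ∈ K₀ → y * a * y⁻¹ ∈ K₀) (ht : Y₀.relIndex Y ≤ t) :
    Nat.card Y ≤ 2 ^ (B ^ (B ^ t)) := by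
  classical
  -- `A` is normalised by `Y`
  have hAY : ∀ y ∈ Y, ∀ a ∈ A, y * a * y⁻¹ ∈ A := by
    intro y hy a ha
    rw [hA] at ha ⊢
    refine ⟨hYQ y hy a ha.1, fun x hx => ?_⟩
    have h1 := ha.2 (y⁻¹ * x * y) (by
      have := hYQ y⁻¹ (inv_mem hy) x hx
      rwa [inv_inv] at this)
    calc y * a * y⁻¹ * x = y * (a * (y⁻¹ * x * y)) * y⁻¹ := by group
      _ = y * ((y⁻¹ * x * y) * a) * y⁻¹ := by rw [h1]
      _ = x * (y * a * y⁻¹) := by group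
  have hAQ : A ≤ Q := fun a ha => ((hA a).1 ha).1
  -- `card Q ≤ B ^ card A`
  have hcQ : Nat.card Q ≤ B ^ Nat.card A := by
    have h1 := center_trick (D := Q) hq hQ hB (fun x hx => by
      by_contra hcon
      refine hx (Subtype.ext (hcore x x.2 fun y hy => ?_))
      by_contra hxy
      exact hcon ⟨ycK Q K₀ y, ycK_normal (hYQ y hy) hn, fun h => hxy (mem_ycK.1 h),
        ycK_index (hYQ y hy) hi⟩) (A.subgroupOf Q) (fun x hx _ => by
      rw [Subgroup.mem_subgroupOf, hA]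
      refine ⟨x.2, fun z hz => ?_⟩
      have h2 := Subgroup.mem_center_iff.1 hx ⟨z, hz⟩
      exact (congrArg Subtype.val h2).symm)
    rwa [Nat.card_congr (Subgroup.subgroupOfEquivOfLe hAQ).toEquiv] at h1
  -- `card A ≤ B ^ t`
  have hcA : Nat.card A ≤ B ^ t := by
    let Y' : Subgroup Y := Y₀.subgroupOf Y
    let f : A → ((c : Y ⧸ Y') → Q ⧸ ycK Q K₀ ((c.out : Y) : G)⁻¹) :=
      fun a c => QuotientGroup.mk ⟨a, hAQ a.2⟩
    have hf : Function.Injective f := by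
      intro a a' haa
      have h1 : ∀ c : Y ⧸ Y', ((c.out : Y) : G)⁻¹ * ((a : G)⁻¹ * a') * ((c.out : Y) : G)⁻¹⁻¹ ∈ K₀ := by
        intro c
        have h2 := congrFun haa c
        have h3 := QuotientGroup.eq.1 h2
        exact mem_ycK.1 h3
      have h4 : (a : G)⁻¹ * a' ∈ A := mul_mem (inv_mem a.2) a'.2
      have h5 : (a : G)⁻¹ * a' = 1 := by
        refine hcore _ (hAQ h4) fun z hz => ?_
        obtain ⟨y₀, hy₀⟩ := QuotientGroup.mk_out_eq_mul Y' (⟨z, hz⟩ : Y)⁻¹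
        have h6 := h1 (QuotientGroup.mk (⟨z, hz⟩ : Y)⁻¹)
        have h7 : ((y₀ : Y) : G) ∈ Y₀ := Subgroup.mem_subgroupOf.1 y₀.2
        rw [hy₀] at h6
        have h8 : (((⟨z, hz⟩ : Y)⁻¹ * (y₀ : Y) : Y) : G) = z⁻¹ * ((y₀ : Y) : G) := by
          push_cast
          rfl
        rw [h8] at h6
        have h9 : (z⁻¹ * ((y₀ : Y) : G))⁻¹ ∈ Y := inv_mem (mul_mem (inv_mem hz) (y₀ : Y).2)
        have h10 := ((hY₀ _).1 h7).2 _ (hAY _ h9 _ h4) h6
        have h11 : ((y₀ : Y) : G) * ((z⁻¹ * ((y₀ : Y) : G))⁻¹ * ((a : G)⁻¹ * a') *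
            (z⁻¹ * ((y₀ : Y) : G))⁻¹⁻¹) * ((y₀ : Y) : G)⁻¹ = z * ((a : G)⁻¹ * a') * z⁻¹ := by
          group
        rwa [h11] at h10
      exact Subtype.ext (by rw [← mul_right_inj (a : G)⁻¹, h5, inv_mul_cancel])
    have h12 := Nat.card_le_card_of_injective f hf
    have hfin : Fintype (Y ⧸ Y') := Fintype.ofFinite _
    rw [Nat.card_pi] at h12
    refine h12.trans (le_trans (Finset.prod_le_pow_card _ _ B fun c _ => ?_) ?_)
    · exact ycK_index (hYQ _ (inv_mem (c.out : Y).2)) hi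
    · refine Nat.pow_le_pow_right hB ?_
      rw [Finset.card_univ, ← Nat.card_eq_fintype_card]
      exact ht
  -- `card Y ≤ 2 ^ card Q`
  have hcY : Nat.card Y ≤ 2 ^ Nat.card Q := by
    let g : Y → Set Q := fun y => (ycK Q K₀ (y : G) : Set Q)
    have hg : Function.Injective g := by
      intro y z hyz
      have h1 : ∀ x : Q, (y : G) * x * (y : G)⁻¹ ∈ K₀ ↔ (z : G) * x * (z : G)⁻¹ ∈ K₀ := fun x => by
        rw [← mem_ycK, ← mem_ycK]
        exact Set.ext_iff.1 hyz x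
      have h2 : (y : G) * (z : G)⁻¹ = 1 := by
        refine hdist _ (mul_mem y.2 (inv_mem z.2)) fun k hk => ?_
        have h3 : (z : G)⁻¹ * k * (z : G) ∈ Q := by
          have := hYQ (z : G)⁻¹ (inv_mem z.2) k (hK₀Q hk)
          rwa [inv_inv] at this
        have h4 := (h1 ⟨_, h3⟩).2 (by
          have : (z : G) * ((z : G)⁻¹ * k * (z : G)) * (z : G)⁻¹ = k := by group
          rw [this]
          exact hk)
        have h5 : (y : G) * ((z : G)⁻¹ * k * (z : G)) * (y : G)⁻¹ =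
            (y : G) * (z : G)⁻¹ * k * ((y : G) * (z : G)⁻¹)⁻¹ := by group
        rwa [h5] at h4
      exact Subtype.ext (mul_inv_eq_one.1 h2)
    have h13 := Nat.card_le_card_of_injective g hg
    have hfin : Fintype Q := Fintype.ofFinite _
    rw [Nat.card_eq_fintype_card (α := Set Q), Fintype.card_set] at h13
    rwa [Nat.card_eq_fintype_card (α := Q)]
  exact hcY.trans (Nat.pow_le_pow_right (by norm_num)
    (hcQ.trans (Nat.pow_le_pow_right hB hcA)))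

end Pool.Agent.HForm
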