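import Pool.Agent.Lib_MP_4009a7_al.YEval
import Pool.Agent.Lib_MP_4009a7_al.YCount

/-!
# Piece YC: the key bound
-/

set_option autoImplicit false

open scoped commutatorElement

namespace Pool.Agent.HForm

/-- the case where everything is faithful: `yc_eval` and `yc_count` with `t = r ^ m`, `m` at least `1` and at least all `(fox i w).support.card` -/
theorem yc_faithful {p q r : ℕ} (hp : p.Prime) (hq : q.Prime) (hr : r.Prime) (hpq : p ≠ q) (hpr : p ≠ r)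
    (hqr : q ≠ r) {n : ℕ} (w : FreeGroup (Fin n)) (hk : ¬ Kills p (A2 q r) w) (B : ℕ) : ∃ N : ℕ,
    ∀ (G V : Type) [Group G] [Finite G] [AddCommGroup V] [Module (ZMod p) V] [Finite V]
    (ρ : G →* Module.End (ZMod p) V), Sat w ρ → ∀ (Q Y K₀ : Subgroup G)
    (U : Submodule (ZMod p) V), IsPGroup q Q → (∀ y ∈ Y, ∀ x ∈ Q, y * x * y⁻¹ ∈ Q) →
    (∀ y ∈ Y, ∀ y' ∈ Y, y * y' = y' * y) → (∀ y ∈ Y, y ^ r = 1) → K₀ ≤ Q →
    (∀ x ∈ Q, ∀ k ∈ K₀, x * k * x⁻¹ ∈ K₀) → K₀.relIndex Q ≤ B →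
    IrrSub (ρ.comp Q.subtype) U → (∀ x ∈ Q, x ∈ K₀ ↔ ∀ u ∈ U, ρ x u = u) →
    (∀ x ∈ Q, (∀ y ∈ Y, y * x * y⁻¹ ∈ K₀) → x = 1) →
    (∀ y ∈ Y, (∀ k ∈ K₀, y * k * y⁻¹ ∈ K₀) → y = 1) → Nat.card Y ≤ N := by
  classical
  set m : ℕ := 1 + ∑ i, (fox i w).support.card with hm
  have hm1 : 1 ≤ m := Nat.le_add_right _ _
  have hm2 : ∀ i, (fox i w).support.card ≤ m := fun i =>
    (Finset.single_le_sum (f := fun i => (fox i w).support.card) (fun _ _ => Nat.zero_le _)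
      (Finset.mem_univ i)).trans (Nat.le_add_left _ _)
  refine ⟨2 ^ ((max B 1) ^ ((max B 1) ^ (r ^ m))), ?_⟩
  intro G V _ _ _ _ _ ρ hw Q Y K₀ U hQ hYQ hYc hYr hK₀Q hKn hi hU hUK hcore hdist
  let A : Subgroup G :=
    { carrier := {a | a ∈ Q ∧ ∀ x ∈ Q, a * x = x * a}
      mul_mem' := by
        rintro a b ⟨ha, ha'⟩ ⟨hb, hb'⟩
        refine ⟨Q.mul_mem ha hb, fun x hx => ?_⟩
        rw [mul_assoc, hb' x hx, ← mul_assoc, ha' x hx, mul_assoc]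
      one_mem' := ⟨Q.one_mem, fun x _ => by rw [one_mul, mul_one]⟩
      inv_mem' := by
        rintro a ⟨ha, ha'⟩
        refine ⟨Q.inv_mem ha, fun x hx => ?_⟩
        rw [inv_mul_eq_iff_eq_mul, ← mul_assoc, ha' x hx, mul_inv_cancel_right] }
  have hA : ∀ a, a ∈ A ↔ a ∈ Q ∧ ∀ x ∈ Q, a * x = x * a := fun a => Iff.rfl
  have hYA : ∀ y ∈ Y, ∀ a ∈ A, y * a * y⁻¹ ∈ A := by
    intro y hy a ha
    rw [hA]
    refine ⟨hYQ y hy a ha.1, fun x hx => ?_⟩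
    have h1 : y⁻¹ * x * y ∈ Q := by
      have := hYQ y⁻¹ (Y.inv_mem hy) x hx
      rwa [inv_inv] at this
    have h2 := ha.2 _ h1
    calc y * a * y⁻¹ * x = y * (a * (y⁻¹ * x * y)) * y⁻¹ := by group
      _ = y * ((y⁻¹ * x * y) * a) * y⁻¹ := by rw [h2]
      _ = x * (y * a * y⁻¹) := by group
  have hmul : ∀ {y z : G}, (y ∈ Y ∧ ∀ a ∈ A, a ∈ K₀ → y * a * y⁻¹ ∈ K₀) →
      (z ∈ Y ∧ ∀ a ∈ A, a ∈ K₀ → z * a * z⁻¹ ∈ K₀) →
      (y * z ∈ Y ∧ ∀ a ∈ A, a ∈ K₀ → y * z * a * (y * z)⁻¹ ∈ K₀) := by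
    rintro y z ⟨hy, hy'⟩ ⟨hz, hz'⟩
    refine ⟨Y.mul_mem hy hz, fun a ha hak => ?_⟩
    have h1 := hy' _ (hYA z hz a ha) (hz' a ha hak)
    have h2 : y * z * a * (y * z)⁻¹ = y * (z * a * z⁻¹) * y⁻¹ := by group
    rw [h2]
    exact h1
  have hone : (1 : G) ∈ Y ∧ ∀ a ∈ A, a ∈ K₀ → 1 * a * 1⁻¹ ∈ K₀ :=
    ⟨Y.one_mem, fun a _ hak => by simpa using hak⟩
  let Y₀ : Subgroup G :=
    { carrier := {y | y ∈ Y ∧ ∀ a ∈ A, a ∈ K₀ → y * a * y⁻¹ ∈ K₀}
      mul_mem' := fun h1 h2 => hmul h1 h2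
      one_mem' := hone
      inv_mem' := by
        intro y hy
        have h1 : y⁻¹ = y ^ (orderOf y - 1) := by
          refine inv_eq_of_mul_eq_one_left ?_
          rw [← pow_succ, Nat.sub_add_cancel (orderOf_pos y), pow_orderOf_eq_one]
        rw [h1]
        generalize orderOf y - 1 = k
        induction k with
        | zero =>
          rw [pow_zero]
          exact hone
        | succ k ih =>
          rw [pow_succ]
          exact hmul ih hy }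
  have hY₀ : ∀ y, y ∈ Y₀ ↔ y ∈ Y ∧ ∀ a ∈ A, a ∈ K₀ → y * a * y⁻¹ ∈ K₀ := fun y => Iff.rfl
  have ht := yc_eval hp hq hr hpq hpr hqr w hk hm1 hm2 ρ hw Q Y K₀ U hQ hYQ hYc hYr hK₀Q hU hUK hcore
    A Y₀ hA hY₀
  exact yc_count hq (le_max_right B 1) Q Y K₀ hQ hYQ hK₀Q hKn (hi.trans (le_max_left _ _)) hcore hdist
    A Y₀ hA hY₀ ht

/-- PROOF. Let `G₂ = Q ⊔ Y`, `V₂ = ⨆ y ∈ Y, ρ y U`, invariant under `G₂` (`Q` is normal and `U` is `Q`-invariant), `σ` the representation of `G₂` on `V₂`, `Γ = G₂ ⧸ σ.ker` with the faithful representation `σ'` (`exists_quotRep`), `Sat w σ'` (`Sat.comp`, `Sat.sub`, `Sat.of_surj`). Let `Q'`, `Y'`, `K'` be the images of `Q`, `Y`,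
`K₀` in `Γ` and `U' ⊆ V₂` the subspace `U`. Check the hypotheses of `yc_faithful`: (a) `y ∈ Y` trivial on `V₂` implies `y ∈ ρ.ker`: for `k ∈ K₀`, `y k y⁻¹ ∈ Q` acts trivially on `U`, so it is in `K₀`; use `hdist`. Elements of `ρ.ker` act trivially on `V₂`. So `Y'` is commutative of exponent `r` and `Nat.card Y' = ρ.ker.relIndex Y`.
(b) `z ∈ Q` trivial on `V₂` is in `K₀` (`U ⊆ V₂`, `hUK`). So `x' ∈ K'` iff `x ∈ K₀` for `x ∈ Q` with image `x'`. (c) core: if `y x y⁻¹ ∈ K₀` for all `y ∈ Y` then `x` acts trivially on `ρ y⁻¹ U` for all `y`, so on `V₂`. (d) distinctness from `hdist` and (b). (e) `U'` is irreducible for `Q'` and `x' ∈ K' ↔` trivial on `U'`. -/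
theorem yCase {p q r : ℕ} (hp : p.Prime) (hq : q.Prime) (hr : r.Prime) (hpq : p ≠ q) (hpr : p ≠ r)
    (hqr : q ≠ r) {n : ℕ} (w : FreeGroup (Fin n)) (hk : ¬ Kills p (A2 q r) w) (B : ℕ) : ∃ N : ℕ,
    ∀ (G V : Type) [Group G] [Finite G] [AddCommGroup V] [Module (ZMod p) V] [Finite V]
    (ρ : G →* Module.End (ZMod p) V), Sat w ρ → ∀ (Q Y K₀ : Subgroup G)
    (U : Submodule (ZMod p) V), Q.Normal → IsPGroup q Q → (∀ y ∈ Y, y ^ r ∈ ρ.ker) →
    (∀ y ∈ Y, ∀ y' ∈ Y, ⁅y, y'⁆ ∈ ρ.ker) → K₀ ≤ Q → (∀ x ∈ Q, ∀ k ∈ K₀, x * k * x⁻¹ ∈ K₀) →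
    K₀.relIndex Q ≤ B → IrrSub (ρ.comp Q.subtype) U → (∀ x ∈ Q, x ∈ K₀ ↔ ∀ u ∈ U, ρ x u = u) →
    (∀ y ∈ Y, (∀ k ∈ K₀, y * k * y⁻¹ ∈ K₀) → y ∈ ρ.ker) → ρ.ker.relIndex Y ≤ N := by
  classical
  have hpF : Fact p.Prime := ⟨hp⟩
  obtain ⟨N, hN⟩ := yc_faithful hp hq hr hpq hpr hqr w hk B
  refine ⟨N, ?_⟩
  intro G V _ _ _ _ _ ρ hw Q Y K₀ U hQn hQ hYr hYc hK₀Q hKn hi hU hUK hdist
  set V₂ : Submodule (ZMod p) V := ⨆ y : Y, U.map (ρ (y : G)) with hV₂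
  have hVy : ∀ y ∈ Y, ∀ u ∈ U, ρ y u ∈ V₂ := fun y hy u hu =>
    Submodule.mem_iSup_of_mem (⟨y, hy⟩ : Y) ⟨u, hu, rfl⟩
  have hUV : U ≤ V₂ := by
    intro u hu
    have h1 := hVy 1 Y.one_mem u hu
    rwa [map_one, Module.End.one_apply] at h1
  have hind : ∀ (f : Module.End (ZMod p) V) (W : Submodule (ZMod p) V),
      (∀ y ∈ Y, ∀ u ∈ U, f (ρ y u) ∈ W) → ∀ v ∈ V₂, f v ∈ W := by
    intro f W h
    have h1 : V₂ ≤ W.comap f := by
      rw [hV₂]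
      refine iSup_le fun y => ?_
      rintro _ ⟨u, hu, rfl⟩
      exact h y y.2 u hu
    exact fun v hv => h1 hv
  have hindeq : ∀ (f : Module.End (ZMod p) V),
      (∀ y ∈ Y, ∀ u ∈ U, f (ρ y u) = ρ y u) → ∀ v ∈ V₂, f v = v := by
    intro f h v hv
    have h1 := hind (f - 1) ⊥ (fun y hy u hu => by
      rw [Submodule.mem_bot, LinearMap.sub_apply, Module.End.one_apply, h y hy u hu, sub_self]) v hv
    rw [Submodule.mem_bot, LinearMap.sub_apply, Module.End.one_apply, sub_eq_zero] at h1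
    exact h1
  let G₂ : Subgroup G :=
    { carrier := {g | (∀ v ∈ V₂, ρ g v ∈ V₂) ∧ ∀ v ∈ V₂, ρ g⁻¹ v ∈ V₂}
      mul_mem' := by
        rintro a b ⟨ha, ha'⟩ ⟨hb, hb'⟩
        refine ⟨fun v hv => ?_, fun v hv => ?_⟩
        · rw [map_mul, Module.End.mul_apply]
          exact ha _ (hb v hv)
        · rw [mul_inv_rev, map_mul, Module.End.mul_apply]
          exact hb' _ (ha' v hv)
      one_mem' := ⟨fun v hv => by simpa using hv, fun v hv => by simpa using hv⟩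
      inv_mem' := by
        rintro a ⟨ha, ha'⟩
        exact ⟨ha', by rw [inv_inv]; exact ha⟩ }
  have hQV : ∀ x ∈ Q, ∀ v ∈ V₂, ρ x v ∈ V₂ := by
    intro x hx
    refine hind (ρ x) V₂ fun y hy u hu => ?_
    have h1 : y⁻¹ * x * y ∈ Q := by
      have := hQn.conj_mem x hx y⁻¹
      rwa [inv_inv] at this
    have h2 : ρ (y⁻¹ * x * y) u ∈ U := hU.1 ⟨_, h1⟩ u hu
    have h3 : ρ x (ρ y u) = ρ y (ρ (y⁻¹ * x * y) u) := by
      rw [← Module.End.mul_apply, ← Module.End.mul_apply, ← map_mul, ← map_mul]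
      congr 2
      group
    rw [h3]
    exact hVy y hy _ h2
  have hYV : ∀ x ∈ Y, ∀ v ∈ V₂, ρ x v ∈ V₂ := by
    intro x hx
    refine hind (ρ x) V₂ fun y hy u hu => ?_
    rw [← Module.End.mul_apply, ← map_mul]
    exact hVy _ (Y.mul_mem hx hy) u hu
  have hQG : Q ≤ G₂ := fun x hx => ⟨hQV x hx, hQV x⁻¹ (Q.inv_mem hx)⟩
  have hYG : Y ≤ G₂ := fun x hx => ⟨hYV x hx, hYV x⁻¹ (Y.inv_mem hx)⟩
  have hinv : Inv (ρ.comp G₂.subtype) V₂ := fun g v hv => g.2.1 v hv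
  set σ := subRep (ρ.comp G₂.subtype) V₂ hinv with hσdef
  obtain ⟨σ', hσ', hσi⟩ := exists_quotRep σ
  have hsat : Sat w σ' := by
    refine Sat.of_surj (QuotientGroup.mk' σ.ker) (QuotientGroup.mk'_surjective _) ?_
    have h1 : σ'.comp (QuotientGroup.mk' σ.ker) = σ := by
      refine MonoidHom.ext fun g => ?_
      exact hσ' g
    rw [h1]
    exact (hw.comp G₂.subtype).sub V₂ hinv
  -- the projection
  have hact : ∀ (g : G) (hg : g ∈ G₂) (v : V₂),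
      ((σ' (QuotientGroup.mk' σ.ker ⟨g, hg⟩) v : V₂) : V) = ρ g v := by
    intro g hg v
    rw [QuotientGroup.mk'_apply, hσ']
    rfl
  have hf1 : ∀ (g : G) (hg : g ∈ G₂), QuotientGroup.mk' σ.ker ⟨g, hg⟩ = 1 ↔ ∀ v ∈ V₂, ρ g v = v := by
    intro g hg
    constructor
    · intro h v hv
      have h1 := hact g hg ⟨v, hv⟩
      rw [h, map_one, Module.End.one_apply] at h1
      exact h1.symm
    · intro h
      apply hσi
      rw [map_one]
      refine LinearMap.ext fun v => Subtype.ext ?_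
      rw [hact g hg v, Module.End.one_apply]
      exact h v v.2
  let fQ : Q →* G₂ ⧸ σ.ker := (QuotientGroup.mk' σ.ker).comp (Subgroup.inclusion hQG)
  let fY : Y →* G₂ ⧸ σ.ker := (QuotientGroup.mk' σ.ker).comp (Subgroup.inclusion hYG)
  have hfQ : ∀ x : Q, fQ x = QuotientGroup.mk' σ.ker ⟨x, hQG x.2⟩ := fun x => rfl
  have hfY : ∀ x : Y, fY x = QuotientGroup.mk' σ.ker ⟨x, hYG x.2⟩ := fun x => rfl
  let K' : Subgroup (G₂ ⧸ σ.ker) := (K₀.subgroupOf Q).map fQ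
  let U' : Submodule (ZMod p) V₂ := U.comap V₂.subtype
  -- the kernel of `fY`
  have hkY : ∀ y : Y, fY y = 1 ↔ (y : G) ∈ ρ.ker := by
    intro y
    rw [hfY, hf1]
    constructor
    · intro h
      refine hdist y y.2 fun k hk => ?_
      have h1 : (y : G) * k * (y : G)⁻¹ ∈ Q := hQn.conj_mem k (hK₀Q hk) y
      rw [hUK _ h1]
      intro u hu
      have h2 : ρ (y : G)⁻¹ u = u := by
        have h3 := congrArg (ρ (y : G)⁻¹) (h u (hUV hu))
        rw [← Module.End.mul_apply, ← map_mul, inv_mul_cancel, map_one, Module.End.one_apply] at h3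
        exact h3.symm
      rw [map_mul, map_mul, Module.End.mul_apply, Module.End.mul_apply, h2,
        (hUK k (hK₀Q hk)).1 hk u hu, h u (hUV hu)]
    · intro h v _
      rw [MonoidHom.mem_ker] at h
      rw [h, Module.End.one_apply]
  -- membership in `K'`
  have hK' : ∀ (x : G) (hx : x ∈ Q), fQ ⟨x, hx⟩ ∈ K' ↔ x ∈ K₀ := by
    intro x hx
    constructor
    · rintro ⟨k, hk, hkx⟩
      have hk' : (k : G) ∈ K₀ := hk
      rw [hUK x hx]
      intro u hu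
      have h1 := hact k (hQG k.2) ⟨u, hUV hu⟩
      have h2 := hact x (hQG hx) ⟨u, hUV hu⟩
      have h3 : QuotientGroup.mk' σ.ker ⟨(k : G), hQG k.2⟩ = QuotientGroup.mk' σ.ker ⟨x, hQG hx⟩ := hkx
      rw [h3, h2] at h1
      rw [h1]
      exact (hUK k k.2).1 hk' u hu
    · intro h
      exact ⟨⟨x, hx⟩, h, rfl⟩
  have hconj : ∀ (y : Y) (x : Q), fY y * fQ x * (fY y)⁻¹ =
      fQ ⟨(y : G) * x * (y : G)⁻¹, hQn.conj_mem x x.2 y⟩ := by
    intro y x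
    rw [hfY, hfQ, hfQ, ← map_inv, ← map_mul, ← map_mul]
    rfl
  have hconjQ : ∀ (y : Q) (x : Q), fQ y * fQ x * (fQ y)⁻¹ = fQ (y * x * y⁻¹) := by
    intro y x
    rw [← map_inv, ← map_mul, ← map_mul]
  have hactU : ∀ (x : G) (hx : x ∈ Q), (∀ u ∈ U', σ' (fQ ⟨x, hx⟩) u = u) ↔ ∀ u ∈ U, ρ x u = u := by
    intro x hx
    constructor
    · intro h u hu
      have h1 := h ⟨u, hUV hu⟩ hu
      have h2 := hact x (hQG hx) ⟨u, hUV hu⟩
      have h3 := congrArg Subtype.val h1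
      exact h2.symm.trans h3
    · intro h u hu
      refine Subtype.ext ?_
      have h2 := hact x (hQG hx) u
      exact h2.trans (h u hu)
  have hmain := hN (G₂ ⧸ σ.ker) V₂ σ' hsat fQ.range fY.range K' U' ?_ ?_ ?_ ?_ ?_ ?_ ?_ ?_ ?_ ?_ ?_
  · have h1 : ρ.ker.subgroupOf Y = fY.ker := by
      ext y
      exact (hkY y).symm
    rw [Subgroup.relIndex, h1, Subgroup.index_ker]
    exact hmain
  · exact hQ.of_surjective fQ.rangeRestrict fQ.rangeRestrict_surjective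
  · rintro _ ⟨y, rfl⟩ _ ⟨x, rfl⟩
    rw [hconj]
    exact ⟨_, rfl⟩
  · rintro _ ⟨y, rfl⟩ _ ⟨z, rfl⟩
    have h1 : fY ⁅y, z⁆ = 1 := (hkY _).2 (hYc y y.2 z z.2)
    rw [map_commutatorElement, commutatorElement_eq_one_iff_mul_comm] at h1
    exact h1
  · rintro _ ⟨y, rfl⟩
    rw [← map_pow]
    exact (hkY _).2 (hYr y y.2)
  · rintro _ ⟨k, _, rfl⟩
    exact ⟨k, rfl⟩
  · rintro _ ⟨x, rfl⟩ _ ⟨k, hk, rfl⟩
    rw [hconjQ]
    exact ⟨x * k * x⁻¹, hKn x x.2 k hk, rfl⟩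
  · refine le_trans ?_ hi
    have h1 : K'.subgroupOf fQ.range = (K₀.subgroupOf Q).map fQ.rangeRestrict := by
      ext x
      rw [Subgroup.mem_subgroupOf]
      constructor
      · rintro ⟨k, hk, hkx⟩
        exact ⟨k, hk, Subtype.ext hkx⟩
      · rintro ⟨k, hk, rfl⟩
        exact ⟨k, hk, rfl⟩
    rw [Subgroup.relIndex, h1, Subgroup.relIndex]
    exact Nat.le_of_dvd (Nat.pos_of_ne_zero Subgroup.index_ne_zero_of_finite)
      (Subgroup.index_map_dvd _ fQ.rangeRestrict_surjective)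
  · refine ⟨?_, ?_, ?_⟩
    · rintro ⟨_, ⟨x, rfl⟩⟩ v hv
      show ((σ' (fQ x) v : V₂) : V) ∈ U
      rw [hfQ, hact]
      exact hU.1 x v hv
    · intro h
      apply hU.2.1
      rw [Submodule.eq_bot_iff]
      intro u hu
      have h1 : (⟨u, hUV hu⟩ : V₂) ∈ U' := hu
      rw [h, Submodule.mem_bot] at h1
      exact congrArg Subtype.val h1
    · intro W hW hWU
      have h1 : Inv (ρ.comp Q.subtype) (W.map V₂.subtype) := by
        rintro x _ ⟨v, hv, rfl⟩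
        refine ⟨σ' (fQ x) v, hW ⟨fQ x, ⟨x, rfl⟩⟩ v hv, ?_⟩
        exact hact x (hQG x.2) v
      have h2 : W.map V₂.subtype ≤ U := by
        rintro _ ⟨v, hv, rfl⟩
        exact hWU hv
      rcases hU.2.2 _ h1 h2 with h3 | h3
      · left
        rw [Submodule.eq_bot_iff]
        intro v hv
        have h4 : (v : V) ∈ W.map V₂.subtype := ⟨v, hv, rfl⟩
        rw [h3, Submodule.mem_bot] at h4
        exact Subtype.ext h4
      · right
        refine le_antisymm hWU fun v hv => ?_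
        have h4 : (v : V) ∈ W.map V₂.subtype := by
          rw [h3]
          exact hv
        obtain ⟨v', hv', h5⟩ := h4
        have h6 : v' = v := Subtype.ext h5
        rw [← h6]
        exact hv'
  · rintro _ ⟨x, rfl⟩
    rw [show fQ x = fQ ⟨x, x.2⟩ from rfl, hK', hactU, hUK x x.2]
  · rintro _ ⟨x, rfl⟩ h
    rw [hfQ, hf1]
    refine hindeq (ρ x) fun y hy u hu => ?_
    have h1 := h _ ⟨(⟨y, hy⟩ : Y)⁻¹, rfl⟩
    rw [hconj, hK', hUK _ (hQn.conj_mem x x.2 _)] at h1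
    have h2 := h1 u hu
    have h3 := congrArg (ρ y) h2
    rw [← Module.End.mul_apply, ← map_mul] at h3
    rw [← Module.End.mul_apply, ← map_mul]
    rw [← h3]
    congr 2
    simp only [Subgroup.coe_inv, inv_inv]
    group
  · rintro _ ⟨y, rfl⟩ h
    rw [hkY]
    refine hdist y y.2 fun k hk => ?_
    have h1 := h (fQ ⟨k, hK₀Q hk⟩) ⟨⟨k, hK₀Q hk⟩, hk, rfl⟩
    rw [hconj, hK'] at h1
    exact h1

end Pool.Agent.HForm
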