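import Pool.Agent.Lib_MP_4009a7_al.RC1
import Pool.Agent.Lib_MP_4009a7_al.RFac
import Pool.Agent.Lib_MP_4009a7_al.YC
import Pool.Agent.Lib_MP_4009a7_al.Idem

/-!
# Piece RC: the third prime
-/

set_option autoImplicit false

open scoped commutatorElement

namespace Pool.Agent.HForm

section aux

variable {p q : ℕ} {V H : Type} [AddCommGroup V] [Module (ZMod p) V] [Group H] [Finite H]
  {ρ : H →* Module.End (ZMod p) V}

private theorem rc_cc (x y : H) (K : Subgroup H) : cj (x * y) K = cj x (cj y K) := by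
  ext z
  rw [mem_cj, mem_cj, mem_cj, mul_inv_rev]
  simp only [mul_assoc]

private theorem rc_cj_norm {x : H} {K : Subgroup H} (h : cj x K = K) :
    x ∈ Subgroup.normalizer (K : Set H) := by
  rw [Subgroup.mem_normalizer_iff]
  intro y
  have h4 : x * y * x⁻¹ ∈ cj x K ↔ y ∈ K := by
    rw [mem_cj]
    have h5 : x⁻¹ * (x * y * x⁻¹) * x = y := by group
    rw [h5]
  rw [h] at h4
  exact h4.symm

/-- the subspace `W` generated by the fixed points of the conjugates of `K₀` -/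
private theorem rc_W (hp : p.Prime) (hq : q.Prime) (hpq : p ≠ q) {B : ℕ} (Q D K₀ : Subgroup H)
    (hQn : Q.Normal) (hQ : IsPGroup q Q) (hK : Kern ρ Q K₀ B) :
    ∃ W : Submodule (ZMod p) V, W ≠ ⊥ ∧ (∀ x ∈ Q, ∀ v ∈ W, ρ x v ∈ W) ∧
      (∀ d ∈ D, ∀ v ∈ W, ρ d v ∈ W) ∧
      (∀ x : H, (∀ d ∈ D, d * x * d⁻¹ ∈ K₀) → ∀ v ∈ W, ρ x v = v) ∧
      (∀ w ∈ W, w ≠ 0 → ∃ d ∈ D, avg ρ (cj d K₀) w ≠ 0) := by
  classical
  have hcQ : ∀ x ∈ Q, ∀ y : H, cj x (cj y K₀) = cj y K₀ := by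
    intro x hx y
    exact idm_cj_eq (hK.cj hQn y).1.norm hx
  obtain ⟨W, hWd⟩ : ∃ W : Submodule (ZMod p) V, W = ⨆ d : D, fixed ρ (cj (d : H) K₀) := ⟨_, rfl⟩
  have hKW : ∀ d : D, fixed ρ (cj (d : H) K₀) ≤ W := fun d => by
    rw [hWd]
    exact le_iSup (fun d : D => fixed ρ (cj (d : H) K₀)) d
  have hinv : ∀ g : H, (∀ d : D, ∃ d' : D, cj g (cj (d : H) K₀) = cj (d' : H) K₀) →
      ∀ v ∈ W, ρ g v ∈ W := by
    intro g hg v hv
    rw [hWd] at hv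
    refine Submodule.iSup_induction (fun d : D => fixed ρ (cj (d : H) K₀))
      (motive := fun v => ρ g v ∈ W) hv ?_ ?_ ?_
    · intro d v hv
      obtain ⟨d', hd'⟩ := hg d
      refine hKW d' ?_
      have h1 := (fixed_cj (ρ := ρ) g (cj (d : H) K₀) v).2 hv
      rw [hd'] at h1
      exact h1
    · show ρ g 0 ∈ W
      rw [map_zero]
      exact W.zero_mem
    · intro a b ha hb
      show ρ g (a + b) ∈ W
      rw [map_add]
      exact W.add_mem ha hb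
  have hKd : ∀ d : H, IsPGroup q (cj d K₀) := fun d => hQ.to_le (hK.cj hQn d).1.le
  obtain ⟨𝒦, h𝒦⟩ : ∃ 𝒦 : Finset (Subgroup H), ∀ K, K ∈ 𝒦 ↔ ∃ d : D, K = cj (d : H) K₀ := by
    refine ⟨(Set.toFinite {K | ∃ d : D, K = cj (d : H) K₀}).toFinset, fun K => ?_⟩
    rw [Set.Finite.mem_toFinset]
    rfl
  have hsum : ∀ w ∈ W, ∑ K ∈ 𝒦, avg ρ K w = w := by
    intro w hw
    rw [hWd] at hw
    refine Submodule.iSup_induction (fun d : D => fixed ρ (cj (d : H) K₀))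
      (motive := fun w => ∑ K ∈ 𝒦, avg ρ K w = w) hw ?_ ?_ ?_
    · intro d v hv
      show ∑ K ∈ 𝒦, avg ρ K v = v
      rw [Finset.sum_eq_single (cj (d : H) K₀)]
      · exact avg_of_fixed hp hq hpq (hKd d) hv
      · intro K hKm hne
        obtain ⟨d', rfl⟩ := (h𝒦 K).1 hKm
        have h1 := hK.cj hQn (d' : H)
        have h2 := hK.cj hQn (d : H)
        rw [← avg_of_fixed hp hq hpq (hKd d) hv]
        exact Kern.avg_avg hp hq hpq hQ h1.1 h2.1 (h1.2.trans h2.2.symm) hne v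
      · intro hn
        exact absurd ((h𝒦 _).2 ⟨d, rfl⟩) hn
    · show ∑ K ∈ 𝒦, avg ρ K (0 : V) = 0
      simp only [map_zero, Finset.sum_const_zero]
    · intro a b ha hb
      show ∑ K ∈ 𝒦, avg ρ K (a + b) = a + b
      simp only [map_add, Finset.sum_add_distrib]
      rw [ha, hb]
  refine ⟨W, ?_, ?_, ?_, ?_, ?_⟩
  · intro h0
    have h1 := hKW 1
    rw [h0] at h1
    have h2 : cj ((1 : D) : H) K₀ = K₀ := by
      ext z
      rw [mem_cj]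
      simp
    rw [h2] at h1
    exact hK.fix (le_bot_iff.1 h1)
  · intro x hx
    exact hinv x fun d => ⟨d, hcQ x hx d⟩
  · intro d hd
    exact hinv d fun d' => ⟨⟨d * d', D.mul_mem hd d'.2⟩, (rc_cc d d' K₀).symm⟩
  · intro x hx v hv
    rw [hWd] at hv
    refine Submodule.iSup_induction (fun d : D => fixed ρ (cj (d : H) K₀))
      (motive := fun v => ρ x v = v) hv ?_ ?_ ?_
    · intro d v hv
      refine hv x ?_
      rw [mem_cj]
      have h1 := hx (d : H)⁻¹ (D.inv_mem d.2)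
      rwa [inv_inv] at h1
    · show ρ x 0 = 0
      rw [map_zero]
    · intro a b ha hb
      show ρ x (a + b) = a + b
      rw [map_add, ha, hb]
  · intro w hw hw0
    by_contra hcon
    push Not at hcon
    apply hw0
    rw [← hsum w hw]
    refine Finset.sum_eq_zero fun K hKm => ?_
    obtain ⟨d', rfl⟩ := (h𝒦 K).1 hKm
    exact hcon d' d'.2

/-- the subgroup `E` -/
private theorem rc_E (r : ℕ) (D R : Subgroup H) (hRn : ∀ d ∈ D, ∀ x ∈ R, d * x * d⁻¹ ∈ R) :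
    ∃ E : Subgroup H, ∀ x, x ∈ E ↔ x ∈ D ∧ x ^ r ∈ R ∧ ∀ d ∈ D, ⁅x, d⁆ ∈ R := by
  have hn : (R.subgroupOf D).Normal := by
    refine ⟨fun x hx d => ?_⟩
    rw [Subgroup.mem_subgroupOf] at hx ⊢
    exact hRn d d.2 x hx
  let φ := QuotientGroup.mk' (R.subgroupOf D)
  have hφs : Function.Surjective φ := QuotientGroup.mk'_surjective _
  have hφ : ∀ x : D, φ x = 1 ↔ (x : H) ∈ R := by
    intro x
    rw [QuotientGroup.mk'_apply, QuotientGroup.eq_one_iff, Subgroup.mem_subgroupOf]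
  let S : Subgroup (D ⧸ R.subgroupOf D) :=
    { carrier := {z | z ∈ Subgroup.center (D ⧸ R.subgroupOf D) ∧ z ^ r = 1}
      mul_mem' := by
        rintro a b ⟨ha, ha'⟩ ⟨hb, hb'⟩
        refine ⟨Subgroup.mul_mem _ ha hb, ?_⟩
        have hc : Commute a b := (Subgroup.mem_center_iff.1 hb a)
        rw [hc.mul_pow, ha', hb', one_mul]
      one_mem' := ⟨Subgroup.one_mem _, one_pow _⟩
      inv_mem' := by
        rintro a ⟨ha, ha'⟩
        refine ⟨Subgroup.inv_mem _ ha, ?_⟩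
        rw [inv_pow, ha', inv_one] }
  have hS : ∀ z, z ∈ S ↔ z ∈ Subgroup.center (D ⧸ R.subgroupOf D) ∧ z ^ r = 1 := fun z => Iff.rfl
  refine ⟨(S.comap φ).map D.subtype, fun x => ?_⟩
  constructor
  · rintro ⟨y, hy, rfl⟩
    have hy' := (hS _).1 (Subgroup.mem_comap.1 hy)
    refine ⟨y.2, ?_, fun d hd => ?_⟩
    · have h1 : φ (y ^ r) = 1 := by rw [map_pow]; exact hy'.2
      exact (hφ _).1 h1
    · have h1 : φ ⁅y, ⟨d, hd⟩⁆ = 1 := by
        rw [map_commutatorElement, commutatorElement_eq_one_iff_mul_comm]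
        exact ((Subgroup.mem_center_iff.1 hy'.1) (φ ⟨d, hd⟩)).symm
      exact (hφ _).1 h1
  · rintro ⟨hxD, hxr, hxc⟩
    refine ⟨⟨x, hxD⟩, ?_, rfl⟩
    rw [SetLike.mem_coe, Subgroup.mem_comap, hS]
    refine ⟨?_, ?_⟩
    · rw [Subgroup.mem_center_iff]
      intro g
      obtain ⟨d, rfl⟩ := hφs g
      have h1 : φ ⁅(⟨x, hxD⟩ : D), d⁆ = 1 := (hφ _).2 (hxc d d.2)
      rw [map_commutatorElement, commutatorElement_eq_one_iff_mul_comm] at h1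
      exact h1.symm
    · rw [← map_pow]
      exact (hφ _).2 hxr

/-- the subgroup `J` -/
private theorem rc_J (Q D K₀ : Subgroup H) :
    ∃ J : Subgroup H, ∀ x, x ∈ J ↔ x ∈ Q ∧ ∀ d ∈ D, d * x * d⁻¹ ∈ K₀ := by
  refine ⟨Q ⊓ ⨅ d : D, cj (d : H)⁻¹ K₀, fun x => ?_⟩
  rw [Subgroup.mem_inf, Subgroup.mem_iInf]
  refine and_congr Iff.rfl ⟨fun h d hd => ?_, fun h d => ?_⟩
  · have h1 := h ⟨d, hd⟩
    rw [mem_cj, inv_inv] at h1
    exact h1
  · rw [mem_cj, inv_inv]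
    exact h d d.2

/-- the subgroup `R` -/
private theorem rc_R (Q D J M : Subgroup H) (hMD : M ≤ D) (hJD : ∀ d ∈ D, ∀ x ∈ J, d * x * d⁻¹ ∈ J)
    (hDQ : ∀ d ∈ D, ∀ x ∈ Q, d * x * d⁻¹ ∈ Q) (hMn : ∀ d ∈ D, ∀ x ∈ M, d * x * d⁻¹ ∈ M) :
    ∃ R : Subgroup H, (∀ x, x ∈ R ↔ x ∈ M ∧ ∀ y ∈ Q, ⁅x, y⁆ ∈ J) ∧
      ∀ d ∈ D, ∀ x ∈ R, d * x * d⁻¹ ∈ R := by
  let R : Subgroup H :=
    { carrier := {x | x ∈ M ∧ ∀ y ∈ Q, ⁅x, y⁆ ∈ J}
      mul_mem' := by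
        rintro a b ⟨ha, ha'⟩ ⟨hb, hb'⟩
        refine ⟨M.mul_mem ha hb, fun y hy => ?_⟩
        have h1 : ⁅a * b, y⁆ = (a * ⁅b, y⁆ * a⁻¹) * ⁅a, y⁆ := by
          simp only [commutatorElement_def]
          group
        rw [h1]
        exact J.mul_mem (hJD a (hMD ha) _ (hb' y hy)) (ha' y hy)
      one_mem' := by
        refine ⟨M.one_mem, fun y _ => ?_⟩
        rw [commutatorElement_one_left]
        exact J.one_mem
      inv_mem' := by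
        rintro a ⟨ha, ha'⟩
        refine ⟨M.inv_mem ha, fun y hy => ?_⟩
        have h1 : ⁅a⁻¹, y⁆ = a⁻¹ * ⁅a, y⁆⁻¹ * (a⁻¹)⁻¹ := by
          simp only [commutatorElement_def]
          group
        rw [h1]
        exact hJD _ (D.inv_mem (hMD ha)) _ (J.inv_mem (ha' y hy)) }
  have hR : ∀ x, x ∈ R ↔ x ∈ M ∧ ∀ y ∈ Q, ⁅x, y⁆ ∈ J := fun x => Iff.rfl
  refine ⟨R, hR, fun d hd x hx => ?_⟩
  obtain ⟨hx1, hx2⟩ := (hR x).1 hx
  refine (hR _).2 ⟨hMn d hd x hx1, fun y hy => ?_⟩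
  have h1 : ⁅d * x * d⁻¹, y⁆ = d * ⁅x, d⁻¹ * y * d⁆ * d⁻¹ := by
    simp only [commutatorElement_def]
    group
  rw [h1]
  refine hJD d hd _ (hx2 _ ?_)
  have h2 := hDQ d⁻¹ (D.inv_mem hd) y hy
  rwa [inv_inv] at h2

end aux

variable {F : GClass}

/-- THE CASE OF A THIRD PRIME `r`. PROOF. Let `N` be from `yCase` (for `w`, `B`), and `L = B ^ (N * (B * B !))`. The group `H` is in `F` (image of `SD ρ`), `V` is finite.
DEFINITIONS: `J = {x ∈ Q | ∀ d ∈ D, d x d⁻¹ ∈ K₀}`, a subgroup, normalised by `Q` (`K₀` is normal in `Q`, `D` normalises `Q`) and by `D`; it acts trivially on all `fixed ρ (cj d K₀)`, `d ∈ D`. `W = ⨆ d ∈ D, fixed ρ (cj d K₀)`, invariant under `Q` and `D`, nonzero. `U ≤ W`: an irreducible subspace for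
`ρ.comp D.subtype`. `M = {d ∈ D | ρ d = 1 on U}`, `M.relIndex D ≤ B` by `hpr`. `R = {x ∈ M | ∀ y ∈ Q, ⁅x, y⁆ ∈ J}`, normalised by `D`. `E = {x ∈ D | x ^ r ∈ R ∧ ∀ d ∈ D, ⁅x, d⁆ ∈ R}`, a subgroup (the preimage of the elements of order dividing `r` of the centre of `D ⧸ R`). `E₀ = {x ∈ E | x` normalises `K₀}`; `R ≤ E₀` (for
`s ∈ R`, `k ∈ K₀`: `s k s⁻¹ = ⁅s, k⁆ k ∈ J K₀ = K₀`).
(1) `center_trick_sub`: let `x ∈ D`, `x ∉ R`. If `x ∉ M`, take `N = M`. Otherwise `⁅x, y⁆ ∉ J` for some `y ∈ Q` and `exists_bounded_normal` gives `N` (`R ≤ N` by its third property). So `R.relIndex D ≤ B ^ R.relIndex E`.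
(2) `stab_bound`: `R.relIndex E₀ ≤ B * B !`.
(3) `exists_complement_rel` for `R ≤ E₀ ≤ E`: get `Y`, `R ≤ Y ≤ E`, `Y ⊓ E₀ = R`, `R.relIndex E = R.relIndex Y * R.relIndex E₀`.
(4) Let `V₁ = W ⊓ fixed ρ R ≥ U`. It is invariant under `D` (`fixed_map`) and under `Q`: for `v ∈ V₁`, `x ∈ Q`, `s ∈ R`: `ρ s (ρ x v) = ρ x (ρ (x⁻¹ s x) v)` and `x⁻¹ s x ∈ s J` (`⁅s⁻¹, x⁻¹⁆ ∈ J`; `R` is a group), `J` acts trivially on `W`. Let `G₁ = Q ⊔ D` and `ρ₁` the representation of `G₁` on `V₁`.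
(5) `V₁ ⊓ fixed ρ K₀ ≠ ⊥`: let `u ∈ U`, `u ≠ 0`; for some `d ∈ D`, `u' = avg ρ (cj d K₀) u ≠ 0` (as in `qCase`), `u' ∈ V₁` (`avg_mem_of_inv`), and `ρ d⁻¹ u' ∈ V₁ ⊓ fixed ρ K₀`. Let `U₁ ≤ V₁ ⊓ fixed ρ K₀` be irreducible for `Q`. By `Kern.kernel_eq` the kernel of `Q` on `U₁` is `K₀`.
(6) `yCase` for the group `G₁`, `ρ₁`, `Q`, `Y`, `K₀`, `U₁` (as subgroups of `G₁` and subspace of `V₁`): `y ^ r ∈ R`, `⁅y, y'⁆ ∈ R` and `R` acts trivially on `V₁`; if `y ∈ Y` normalises `K₀` then `y ∈ Y ⊓ E₀ = R`, so `y ∈ ρ₁.ker`. `Sat w ρ₁`: `hlaw` (with `Q` in `G₁`: `G₁ ⧸ Q` is an image of `D`, an `r`-group; `F (SD (ρ.comp ..))`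
by `PV.sd_comp`), `sat_of_law`, `Sat.sub`. So `ρ₁.ker.relIndex Y ≤ N`. If `y ∈ Y` acts trivially on `V₁` then `U₁ ≤ fixed ρ K₀ ⊓ fixed ρ (cj y K₀)`, so `cj y K₀ = K₀` (`Kern.disjoint`, `Kern.cj`), so `y ∈ R`. So `R.relIndex Y ≤ N`.
(7) `R.relIndex E ≤ N * (B * B !)`, `(normalizer K₀).relIndex D ≤ R.relIndex D ≤ L` (`R ≤ normalizer K₀`). -/
theorem rCase (hF : PV F) {p q r B : ℕ} (hp : p.Prime) (hq : q.Prime) (hr : r.Prime) (hpq : p ≠ q)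
    (hpr : p ≠ r) (hqr : q ≠ r) (hB1 : 1 ≤ B) (hBqr : AlB F q r B) (hBpr : AlB F p r B) {n : ℕ}
    (w : FreeGroup (Fin n)) (hk : ¬ Kills p (A2 q r) w)
    (hlaw : ∀ (T V : Type) [Group T] [AddCommGroup V] [Module (ZMod p) V] (ρ : T →* Module.End (ZMod p) V)
        (Q : Subgroup T) [Q.Normal], IsPGroup q Q → IsPGroup r (T ⧸ Q) → F (SD ρ) → Law w (SD ρ)) :
    ∃ L : ℕ, ∀ (H V : Type) [Group H] [Finite H] [AddCommGroup V] [Module (ZMod p) V]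
      (ρ : H →* Module.End (ZMod p) V), F (SD ρ) → ∀ Q : Subgroup H, Q.Normal → IsPGroup q Q →
      ∀ K₀ : Subgroup H, Kern ρ Q K₀ B → ∀ D : Subgroup H, IsPGroup r D →
      (Subgroup.normalizer (K₀ : Set H)).relIndex D ≤ L := by
  obtain ⟨N, hN⟩ := yCase hp hq hr hpq hpr hqr w hk B
  refine ⟨B ^ (N * (B * B.factorial)), ?_⟩
  intro H V _ _ _ _ ρ hFS Q hQn hQ K₀ hK D hD
  classical
  have hpf : Fact p.Prime := ⟨hp⟩
  have hFH : F H := hF.surj (SD.toH ρ) (fun h => ⟨⟨0, h⟩, rfl⟩) hFS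
  have hfS : Finite (SD ρ) := hF.fin hFS
  have hfV : Finite V := Finite.of_injective (fun v : V => (⟨v, 1⟩ : SD ρ))
    (fun a b hab => congrArg SD.v hab)
  have hfd : FiniteDimensional (ZMod p) V := Module.Finite.of_finite
  have hfin : ∀ X L : Subgroup H, X.relIndex L ≠ 0 := fun X L => by
    rw [Subgroup.relIndex]
    exact Subgroup.index_ne_zero_of_finite
  have hDQ : ∀ d ∈ D, ∀ x ∈ Q, d * x * d⁻¹ ∈ Q := fun d _ x hx => hQn.conj_mem x hx d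
  obtain ⟨J, hJ⟩ := rc_J Q D K₀
  have hJK : J ≤ K₀ := by
    intro x hx
    have h1 := ((hJ x).1 hx).2 1 D.one_mem
    rwa [one_mul, inv_one, mul_one] at h1
  have hJQ : J ≤ Q := fun x hx => ((hJ x).1 hx).1
  have hJD : ∀ d ∈ D, ∀ x ∈ J, d * x * d⁻¹ ∈ J := by
    intro d hd x hx
    obtain ⟨h1, h2⟩ := (hJ x).1 hx
    refine (hJ _).2 ⟨hDQ d hd x h1, fun d' hd' => ?_⟩
    have h3 := h2 (d' * d) (D.mul_mem hd' hd)
    have h4 : d' * d * x * (d' * d)⁻¹ = d' * (d * x * d⁻¹) * d'⁻¹ := by group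
    rwa [h4] at h3
  have hJQn : ∀ x ∈ Q, ∀ k ∈ J, x * k * x⁻¹ ∈ J := by
    intro x hx k hk'
    obtain ⟨h1, h2⟩ := (hJ k).1 hk'
    refine (hJ _).2 ⟨Q.mul_mem (Q.mul_mem hx h1) (Q.inv_mem hx), fun d hd => ?_⟩
    have h3 := hK.norm _ (hDQ d hd x hx) _ (h2 d hd)
    have h4 : d * x * d⁻¹ * (d * k * d⁻¹) * (d * x * d⁻¹)⁻¹ = d * (x * k * x⁻¹) * d⁻¹ := by group
    rwa [h4] at h3
  obtain ⟨W, hW0, hWQ, hWD, hWJ, hWavg⟩ := rc_W (ρ := ρ) hp hq hpq Q D K₀ hQn hQ hK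
  obtain ⟨U, hUW, hU⟩ := exists_irrSub (ρ.comp D.subtype) (W := W)
    (fun d v hv => hWD d d.2 v hv) hW0
  -- the subgroup `M`
  have hMidx : (kerOn (ρ.comp D.subtype) U).index ≤ B :=
    hBpr D V (ρ.comp D.subtype) hD (hF.sd_comp hFS D.subtype (Subgroup.subtype_injective _)) U hU
  have hMn' : (kerOn (ρ.comp D.subtype) U).Normal := kerOn_normal hU.1
  obtain ⟨M, hM⟩ : ∃ M : Subgroup H, M = (kerOn (ρ.comp D.subtype) U).map D.subtype := ⟨_, rfl⟩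
  have hMD : M ≤ D := by rw [hM]; exact Subgroup.map_subtype_le _
  have hMmem : ∀ x ∈ M, ∀ u ∈ U, ρ x u = u := by
    rw [hM]
    rintro _ ⟨y, hy, rfl⟩ u hu
    exact hy u hu
  have hMB : M.relIndex D ≤ B := by
    rw [hM, Subgroup.relIndex, Subgroup.subgroupOf, Subgroup.comap_map_eq_self_of_injective
      (Subgroup.subtype_injective D)]
    exact hMidx
  have hMn : ∀ d ∈ D, ∀ x ∈ M, d * x * d⁻¹ ∈ M := by
    rw [hM]
    rintro d hd _ ⟨y, hy, rfl⟩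
    exact ⟨⟨d, hd⟩ * y * ⟨d, hd⟩⁻¹, hMn'.conj_mem y hy _, rfl⟩
  obtain ⟨R, hR, hRn⟩ := rc_R Q D J M hMD hJD hDQ hMn
  have hRM : R ≤ M := fun x hx => ((hR x).1 hx).1
  have hRD : R ≤ D := hRM.trans hMD
  obtain ⟨E, hE⟩ := rc_E r D R hRn
  have hED : E ≤ D := fun x hx => ((hE x).1 hx).1
  have hRE : R ≤ E := by
    intro x hx
    refine (hE x).2 ⟨hRD hx, R.pow_mem hx r, fun d hd => ?_⟩
    have h1 : ⁅x, d⁆ = x * (d * x⁻¹ * d⁻¹) := by
      rw [commutatorElement_def]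
      group
    rw [h1]
    exact R.mul_mem hx (hRn d hd _ (R.inv_mem hx))
  have hRK : ∀ s ∈ R, ∀ k ∈ K₀, s * k * s⁻¹ ∈ K₀ := by
    intro s hs k hk'
    have h1 : s * k * s⁻¹ = ⁅s, k⁆ * k := by
      rw [commutatorElement_def]
      group
    rw [h1]
    exact K₀.mul_mem (hJK (((hR s).1 hs).2 k (hK.le hk'))) hk'
  have hRnorm : R ≤ Subgroup.normalizer (K₀ : Set H) := by
    intro s hs
    rw [Subgroup.mem_normalizer_iff]
    intro k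
    refine ⟨hRK s hs k, fun h1 => ?_⟩
    have h2 := hRK s⁻¹ (R.inv_mem hs) _ h1
    have h3 : s⁻¹ * (s * k * s⁻¹) * s⁻¹⁻¹ = k := by group
    rwa [h3] at h2
  obtain ⟨E₀, hE₀⟩ : ∃ E₀ : Subgroup H, E₀ = E ⊓ Subgroup.normalizer (K₀ : Set H) := ⟨_, rfl⟩
  have hRE₀ : R ≤ E₀ := by rw [hE₀]; exact le_inf hRE hRnorm
  have hE₀E : E₀ ≤ E := by rw [hE₀]; exact inf_le_left
  have hE₀N : ∀ x ∈ E₀, ∀ k ∈ K₀, x * k * x⁻¹ ∈ K₀ := by
    intro x hx k hk'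
    rw [hE₀] at hx
    exact ((Subgroup.mem_normalizer_iff.1 hx.2) k).1 hk'
  -- (1)
  have hstep1 : R.relIndex D ≤ B ^ (R.relIndex E) := by
    refine center_trick_sub hr hB1 D R E hD hRD hRn ?_ hRE hED
      (fun x hx h1 h2 => (hE x).2 ⟨hx, h1, h2⟩)
    intro x hx hxR
    by_cases hxM : x ∈ M
    · have h1 : ∃ y ∈ Q, ⁅x, y⁆ ∉ J := by
        by_contra hcon
        push Not at hcon
        exact hxR ((hR x).2 ⟨hxM, hcon⟩)
      obtain ⟨N', h2, h3, h4, h5, h6⟩ := exists_bounded_normal hF hq hr hqr hBqr hFH Q D J hQn hQ hD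
        hJQ hJQn hJD x hx h1
      exact ⟨N', h2, h3, fun s hs => h4 s (hRD hs) ((hR s).1 hs).2, h5, h6⟩
    · exact ⟨M, hMD, hMn, hRM, hxM, hMB⟩
  -- (2)
  have hstep2 : R.relIndex E₀ ≤ B * B.factorial :=
    stab_bound Q D K₀ J M R E₀ hK.le hK.idx hK.norm hDQ hJ hMD hMB hR (hE₀E.trans hED) hRE₀
      (fun x hx => ((hE x).1 (hE₀E hx)).2.2) hE₀N
  -- (3)
  obtain ⟨Y, hRY, hYE, hYE₀, hYidx⟩ := exists_complement_rel hr R E₀ E hRE₀ hE₀E
    (fun x hx y hy => hRn x (hED hx) y hy) (fun x hx => ((hE x).1 hx).2.1)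
    (fun x hx y hy => ((hE x).1 hx).2.2 y (hED hy))
  -- (4)
  obtain ⟨V₁, hV₁⟩ : ∃ V₁ : Submodule (ZMod p) V, V₁ = W ⊓ fixed ρ R := ⟨_, rfl⟩
  have hV₁D : ∀ d ∈ D, ∀ v ∈ V₁, ρ d v ∈ V₁ := by
    rw [hV₁]
    rintro d hd v ⟨hv1, hv2⟩
    refine ⟨hWD d hd v hv1, fixed_map (fun n hn => ?_) hv2⟩
    have h1 := hRn d⁻¹ (D.inv_mem hd) n hn
    rwa [inv_inv] at h1
  have hV₁Q : ∀ x ∈ Q, ∀ v ∈ V₁, ρ x v ∈ V₁ := by
    rw [hV₁]
    rintro x hx v ⟨hv1, hv2⟩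
    refine ⟨hWQ x hx v hv1, fun s hs => ?_⟩
    have h1 : ⁅s⁻¹, x⁻¹⁆ ∈ J := ((hR _).1 (R.inv_mem hs)).2 _ (Q.inv_mem hx)
    have h2 : ρ ⁅s⁻¹, x⁻¹⁆ v = v := hWJ _ ((hJ _).1 h1).2 v hv1
    have h3 : s * x = x * s * ⁅s⁻¹, x⁻¹⁆ := by
      rw [commutatorElement_def]
      group
    rw [← Module.End.mul_apply, ← map_mul, h3, map_mul, map_mul, Module.End.mul_apply, h2,
      Module.End.mul_apply, hv2 s hs]
  have hV₁R : ∀ s ∈ R, ∀ v ∈ V₁, ρ s v = v := by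
    rw [hV₁]
    rintro s hs v ⟨-, hv2⟩
    exact hv2 s hs
  have hUV₁ : U ≤ V₁ := by
    rw [hV₁]
    exact fun u hu => ⟨hUW hu, fun s hs => hMmem s (hRM hs) u hu⟩
  obtain ⟨G₁, hG₁⟩ : ∃ G₁ : Subgroup H, G₁ = Q ⊔ D := ⟨_, rfl⟩
  have hQG : Q ≤ G₁ := by rw [hG₁]; exact le_sup_left
  have hDG : D ≤ G₁ := by rw [hG₁]; exact le_sup_right
  have hG₁mem : ∀ t ∈ G₁, ∃ x ∈ Q, ∃ d ∈ D, x * d = t := by
    rw [hG₁]
    intro t ht
    exact Subgroup.mem_sup_of_normal_left.1 ht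
  have hV₁G : Inv (ρ.comp G₁.subtype) V₁ := by
    rintro ⟨t, ht⟩ v hv
    show ρ t v ∈ V₁
    obtain ⟨x, hx, d, hd, rfl⟩ := hG₁mem t ht
    rw [map_mul, Module.End.mul_apply]
    exact hV₁Q x hx _ (hV₁D d hd v hv)
  -- (5)
  have hne : V₁ ⊓ fixed ρ K₀ ≠ ⊥ := by
    obtain ⟨u, huU, hu0⟩ := Submodule.exists_mem_ne_zero_of_ne_bot hU.2.1
    obtain ⟨d, hd, hdu⟩ := hWavg u (hUW huU) hu0
    have hle : cj d K₀ ≤ Q := (hK.cj hQn d).1.le
    have hu'V : avg ρ (cj d K₀) u ∈ V₁ :=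
      avg_mem_of_inv (fun k hk' v hv => hV₁Q k (hle hk') v hv) (hUV₁ huU)
    have hu'f : avg ρ (cj d K₀) u ∈ fixed ρ (cj d K₀) :=
      avg_mem_fixed hp hq hpq (hQ.to_le hle) u
    intro hbot
    have h1 : ρ d (ρ d⁻¹ (avg ρ (cj d K₀) u)) = avg ρ (cj d K₀) u := by
      rw [← Module.End.mul_apply, ← map_mul, mul_inv_cancel, map_one, Module.End.one_apply]
    have h2 : ρ d⁻¹ (avg ρ (cj d K₀) u) ∈ V₁ ⊓ fixed ρ K₀ := by
      refine ⟨hV₁D _ (D.inv_mem hd) _ hu'V, ?_⟩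
      rw [SetLike.mem_coe, ← fixed_cj (ρ := ρ) d, h1]
      exact hu'f
    rw [hbot, Submodule.mem_bot] at h2
    rw [h2, map_zero] at h1
    exact hdu h1.symm
  obtain ⟨U₁, hU₁le, hU₁⟩ := exists_irrSub (ρ.comp Q.subtype) (W := V₁ ⊓ fixed ρ K₀) (by
    rintro ⟨x, hx⟩ v ⟨hv1, hv2⟩
    refine ⟨hV₁Q x hx v hv1, fixed_map (fun n hn => ?_) hv2⟩
    have h1 := hK.norm x⁻¹ (Q.inv_mem hx) n hn
    rwa [inv_inv] at h1) hne
  have hU₁V : U₁ ≤ V₁ := hU₁le.trans inf_le_left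
  have hU₁K : U₁ ≤ fixed ρ K₀ := hU₁le.trans inf_le_right
  have hker := fun x hx => hK.kernel_eq hU₁.1 hU₁.2.1 hU₁K x hx
  -- (6)
  have hYD : Y ≤ D := hYE.trans hED
  have hYG : Y ≤ G₁ := hYD.trans hDG
  obtain ⟨ρ₁, hρ₁⟩ : ∃ ρ₁ : G₁ →* Module.End (ZMod p) V₁,
      ρ₁ = subRep (ρ.comp G₁.subtype) V₁ hV₁G := ⟨_, rfl⟩
  have hρ₁a : ∀ (g : G₁) (v : V₁), ((ρ₁ g v : V₁) : V) = ρ g v := by
    intro g v
    rw [hρ₁]
    rfl
  have hρ₁k : ∀ g : G₁, g ∈ ρ₁.ker ↔ ∀ v ∈ V₁, ρ g v = v := by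
    intro g
    rw [hρ₁, ker_subRep]
    exact Iff.rfl
  have hQ₁n : (Q.subgroupOf G₁).Normal := inferInstance
  have hsat : Sat w ρ₁ := by
    rw [hρ₁]
    refine Sat.sub (sat_of_law (hlaw G₁ V (ρ.comp G₁.subtype) (Q.subgroupOf G₁)
      hQ.comap_subtype ?_ (hF.sd_comp hFS G₁.subtype (Subgroup.subtype_injective _)))) V₁ hV₁G
    refine hD.of_surjective ((QuotientGroup.mk' (Q.subgroupOf G₁)).comp (Subgroup.inclusion hDG)) ?_
    intro z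
    obtain ⟨⟨t, ht⟩, rfl⟩ := QuotientGroup.mk'_surjective _ z
    obtain ⟨x, hx, d, hd, rfl⟩ := hG₁mem t ht
    refine ⟨⟨d, hd⟩, ?_⟩
    rw [MonoidHom.comp_apply, QuotientGroup.mk'_apply, QuotientGroup.mk'_apply, QuotientGroup.eq,
      Subgroup.mem_subgroupOf]
    have h1 := hQn.conj_mem x hx d⁻¹
    have h2 : d⁻¹ * x * d⁻¹⁻¹ = d⁻¹ * (x * d) := by group
    rw [h2] at h1
    exact h1
  have hstep6 : ρ₁.ker.relIndex (Y.subgroupOf G₁) ≤ N := by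
    refine hN G₁ V₁ ρ₁ hsat (Q.subgroupOf G₁) (Y.subgroupOf G₁) (K₀.subgroupOf G₁)
      (U₁.comap V₁.subtype) hQ₁n hQ.comap_subtype ?_ ?_ ?_ ?_ ?_ ?_ ?_ ?_
    · intro y hy
      rw [Subgroup.mem_subgroupOf] at hy
      rw [hρ₁k]
      exact hV₁R _ ((hE _).1 (hYE hy)).2.1
    · intro y hy y' hy'
      rw [Subgroup.mem_subgroupOf] at hy hy'
      rw [hρ₁k]
      exact hV₁R _ (((hE _).1 (hYE hy)).2.2 y' (hYD hy'))
    · intro x hx
      rw [Subgroup.mem_subgroupOf] at hx ⊢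
      exact hK.le hx
    · intro x hx k hk'
      rw [Subgroup.mem_subgroupOf] at hx hk' ⊢
      exact hK.norm x hx k hk'
    · rw [Subgroup.relIndex_subgroupOf hQG]
      exact hK.idx
    · refine ⟨?_, ?_, ?_⟩
      · intro x v hv
        show ((ρ₁ (x : G₁) v : V₁) : V) ∈ U₁
        rw [hρ₁a]
        exact hU₁.1 ⟨((x : G₁) : H), Subgroup.mem_subgroupOf.1 x.2⟩ v hv
      · intro hbot
        obtain ⟨u, huU, hu0⟩ := Submodule.exists_mem_ne_zero_of_ne_bot hU₁.2.1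
        have h1 : (⟨u, hU₁V huU⟩ : V₁) ∈ U₁.comap V₁.subtype := huU
        rw [hbot, Submodule.mem_bot] at h1
        exact hu0 (congrArg Subtype.val h1)
      · intro U' hU' hle
        have h1 : Inv (ρ.comp Q.subtype) (U'.map V₁.subtype) := by
          rintro ⟨x, hx⟩ _ ⟨v, hv, rfl⟩
          refine ⟨ρ₁ ⟨x, hQG hx⟩ v, hU' ⟨⟨x, hQG hx⟩, Subgroup.mem_subgroupOf.2 hx⟩ v hv, ?_⟩
          exact hρ₁a _ v
        have h2 : U'.map V₁.subtype ≤ U₁ := by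
          rintro _ ⟨v, hv, rfl⟩
          exact hle hv
        rcases hU₁.2.2 _ h1 h2 with h3 | h3
        · left
          rw [eq_bot_iff]
          intro v hv
          have h4 : V₁.subtype v ∈ U'.map V₁.subtype := ⟨v, hv, rfl⟩
          rw [h3, Submodule.mem_bot] at h4
          rw [Submodule.mem_bot]
          exact Subtype.ext h4
        · right
          refine le_antisymm hle fun v hv => ?_
          have h4 : V₁.subtype v ∈ U'.map V₁.subtype := by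
            rw [h3]
            exact hv
          obtain ⟨v', hv', h5⟩ := h4
          have h6 : v' = v := Subtype.ext h5
          rwa [h6] at hv'
    · intro x hx
      rw [Subgroup.mem_subgroupOf] at hx ⊢
      rw [hker _ hx]
      constructor
      · intro h1 u hu
        exact Subtype.ext ((hρ₁a x u).trans (h1 u hu))
      · intro h1 u hu
        have h2 := congrArg Subtype.val (h1 ⟨u, hU₁V hu⟩ hu)
        rw [hρ₁a] at h2
        exact h2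
    · intro y hy hyK
      rw [Subgroup.mem_subgroupOf] at hy
      have h1 : ∀ k ∈ K₀, (y : H) * k * (y : H)⁻¹ ∈ K₀ := by
        intro k hk'
        exact Subgroup.mem_subgroupOf.1 (hyK ⟨k, hQG (hK.le hk')⟩ (Subgroup.mem_subgroupOf.2 hk'))
      have h2 : (y : H) ∈ Y ⊓ E₀ := by
        refine ⟨hy, ?_⟩
        rw [hE₀]
        refine ⟨hYE hy, rc_cj_norm ?_⟩
        apply Subgroup.eq_of_le_of_card_ge
        · intro z hz
          rw [mem_cj] at hz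
          have h3 := h1 _ hz
          have h4 : (y : H) * ((y : H)⁻¹ * z * y) * (y : H)⁻¹ = z := by group
          rwa [h4] at h3
        · rw [idm_card_cj]
      rw [hYE₀] at h2
      rw [hρ₁k]
      exact hV₁R _ h2
  have hstep7 : R.relIndex Y ≤ N := by
    refine le_trans ?_ hstep6
    rw [← Subgroup.relIndex_subgroupOf hYG, ← Subgroup.inf_relIndex_right ρ₁.ker]
    refine Subgroup.relIndex_le_of_le_left ?_ ?_
    · rintro y ⟨hy1', hy2⟩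
      have hy1 := (hρ₁k y).1 hy1'
      have hy2' : (y : H) ∈ Y := Subgroup.mem_subgroupOf.1 hy2
      obtain ⟨z, hzU, hz0⟩ := Submodule.exists_mem_ne_zero_of_ne_bot hU₁.2.1
      have h1 : ρ y z = z := hy1 z (hU₁V hzU)
      have h2 : z ∈ fixed ρ (cj (y : H) K₀) := by
        have h3 := (fixed_cj (ρ := ρ) (y : H) K₀ z).2 (hU₁K hzU)
        rwa [h1] at h3
      have h3 : cj (y : H) K₀ = K₀ := by
        by_contra hne'
        have h4 := hK.cj hQn (y : H)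
        have h5 := Kern.disjoint h4.1 hK h4.2 hne'
        have h6 : z ∈ fixed ρ (cj (y : H) K₀) ⊓ fixed ρ K₀ := ⟨h2, hU₁K hzU⟩
        rw [h5] at h6
        exact hz0 ((Submodule.mem_bot _).1 h6)
      have h4 : (y : H) ∈ Y ⊓ E₀ := by
        refine ⟨hy2', ?_⟩
        rw [hE₀]
        exact ⟨hYE hy2', rc_cj_norm h3⟩
      rw [hYE₀] at h4
      exact Subgroup.mem_subgroupOf.2 h4
    · rw [Subgroup.relIndex]
      exact Subgroup.index_ne_zero_of_finite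
  calc (Subgroup.normalizer (K₀ : Set H)).relIndex D ≤ R.relIndex D :=
        Subgroup.relIndex_le_of_le_left hRnorm (hfin _ _)
    _ ≤ B ^ (R.relIndex E) := hstep1
    _ ≤ B ^ (N * (B * B.factorial)) := by
        refine Nat.pow_le_pow_right hB1 ?_
        rw [hYidx]
        exact Nat.mul_le_mul hstep7 hstep2

end Pool.Agent.HForm
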