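import Pool.Agent.Lib_MP_4009a7_al.Core
import Pool.Agent.Lib_MP_4009a7_al.RC
import Pool.Agent.Lib_MP_4009a7_al.KernX
import Pool.Agent.Lib_MP_4009a7_al.PCase
import Pool.Agent.Lib_MP_4009a7_al.QCase
import Pool.Agent.Lib_MP_4009a7_al.AlS

/-!
# Piece BETA: the bound for normal `q`-subgroups
-/

set_option autoImplicit false

open scoped commutatorElement

namespace Pool.Agent.HForm

variable {F : GClass}

private theorem beta_triv {G : Type} [Group G] {e q : ℕ} (he : 0 < e) (hq : q.Prime) (hqe : e < q)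
    (hexp : ∀ x : G, x ^ e = 1) (hG : IsPGroup q G) (x : G) : x = 1 := by
  obtain ⟨k, hk⟩ := hG x
  have h1 : orderOf x ∣ e := orderOf_dvd_of_pow_eq_one (hexp x)
  have h2 : orderOf x ∣ q ^ k := orderOf_dvd_of_pow_eq_one hk
  have h3 : Nat.Coprime e (q ^ k) := by
    apply Nat.Coprime.pow_right
    exact ((Nat.Prime.coprime_iff_not_dvd hq).2
      (fun h => absurd (Nat.le_of_dvd he h) (not_le.2 hqe))).symm
  exact orderOf_eq_one_iff.1 (Nat.eq_one_of_dvd_coprimes h3 h1 h2)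

private theorem beta_vtriv {e p : ℕ} (he : 0 < e) (hp : p.Prime) (hpe : e < p) {H V : Type} [Group H]
    [AddCommGroup V] [Module (ZMod p) V] (ρ : H →* Module.End (ZMod p) V)
    (hexp : ∀ x : SD ρ, x ^ e = 1) (v : V) : v = 0 := by
  have hpf : Fact p.Prime := ⟨hp⟩
  have hpow : ∀ n : ℕ, (⟨v, 1⟩ : SD ρ) ^ n = ⟨n • v, 1⟩ := by
    intro n
    induction n with
    | zero =>
      rw [pow_zero, zero_smul]
      rfl
    | succ n ih =>
      rw [pow_succ, ih]
      ext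
      · simp [succ_nsmul]
      · simp
  have h1 := hexp ⟨v, 1⟩
  rw [hpow] at h1
  have h2 : e • v = 0 := congrArg SD.v h1
  have h3 : ((e : ℕ) : ZMod p) ≠ 0 := by
    rw [Ne, ZMod.natCast_eq_zero_iff]
    exact fun h => absurd (Nat.le_of_dvd he h) (not_le.2 hpe)
  rw [← Nat.cast_smul_eq_nsmul (ZMod p)] at h2
  exact (smul_eq_zero.1 h2).resolve_left h3

/-- a uniform bound for the pairs of primes up to `e` -/
private theorem beta_max (e : ℕ) (f : ∀ p q : ℕ, p.Prime → q.Prime → p ≠ q → ℕ) : ∃ B : ℕ, 1 ≤ B ∧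
    ∀ (p q : ℕ) (hp : p.Prime) (hq : q.Prime) (hpq : p ≠ q), p ≤ e → q ≤ e → f p q hp hq hpq ≤ B := by
  classical
  refine ⟨(∑ x ∈ Finset.range (e + 1) ×ˢ Finset.range (e + 1),
    if hx : x.1.Prime ∧ x.2.Prime ∧ x.1 ≠ x.2 then f x.1 x.2 hx.1 hx.2.1 hx.2.2 else 0) + 1,
    by omega, ?_⟩
  intro p q hp hq hpq hpe hqe
  have h1 : (p, q) ∈ Finset.range (e + 1) ×ˢ Finset.range (e + 1) := by
    rw [Finset.mem_product, Finset.mem_range, Finset.mem_range]
    exact ⟨by omega, by omega⟩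
  have h2 := Finset.single_le_sum (f := fun x : ℕ × ℕ =>
    if hx : x.1.Prime ∧ x.2.Prime ∧ x.1 ≠ x.2 then f x.1 x.2 hx.1 hx.2.1 hx.2.2 else 0)
    (fun _ _ => Nat.zero_le _) h1
  simp only [hp, hq, hpq, ne_eq, not_false_eq_true, and_self, dif_pos] at h2
  exact h2.trans (Nat.le_succ _)

/-- uniform alpha bound. PROOF. `alphaP` for the finitely many pairs of primes `p, q ≤ e`; take the maximum (and `1`). If `q > e`, a `q`-group in `F` is trivial (exponent dividing `e`), index `1`. If `p > e` then `V` is trivial (elements `⟨v, 1⟩` of order `p`), so there is no irreducible subspace. -/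
theorem exists_alB (hF : PV F) {e c : ℕ} (he : 0 < e) (hexp : ExpLe F e) (hcl : NilLe F c)
    (hAT : ∀ p q : ℕ, p.Prime → q.Prime → p ≠ q → ¬ Le (AT p q) F) :
    ∃ B : ℕ, 1 ≤ B ∧ ∀ p q : ℕ, p.Prime → q.Prime → p ≠ q → AlB F p q B := by
  have h := fun (p q : ℕ) (hp : p.Prime) (hq : q.Prime) (hpq : p ≠ q) =>
    alphaP hF he hexp hcl hp hq hpq (hAT p q hp hq hpq)
  choose f hf using h
  obtain ⟨B, hB1, hB⟩ := beta_max e f
  refine ⟨B, hB1, ?_⟩
  intro p q hp hq hpq T V _ _ _ ρ hT hFS U hU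
  by_cases hpe : e < p
  · exfalso
    apply hU.2.1
    rw [eq_bot_iff]
    intro v _
    rw [Submodule.mem_bot]
    exact beta_vtriv he hp hpe ρ (hexp _ hFS) v
  by_cases hqe : e < q
  · have hFT : F T := hF.surj (SD.toH ρ) (fun h => ⟨⟨0, h⟩, rfl⟩) hFS
    have h1 : ∀ x : T, x = 1 := beta_triv he hq hqe (hexp T hFT) hT
    have h2 : kerOn ρ U = ⊤ := by
      rw [eq_top_iff]
      intro x _
      rw [h1 x]
      exact Subgroup.one_mem _
    rw [h2, Subgroup.index_top]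
    exact hB1
  · exact (hf p q hp hq hpq T V ρ hT hFS U hU).trans (hB p q hp hq hpq (by omega) (by omega))

/-- PROOF for given `p`, `q`. Let `B` be from `exists_alB`. For the primes `r ≤ e` different from `p, q` let `L_r` be from `rCase` with `w` from `exists_word_pqr`; let `L` be the maximum of the `L_r`, of `2 ^ c`, `B` and `1`. Let `K₀` be from `exists_kern`. For every prime `r` and every `r`-subgroup `D`,
`(normalizer K₀).relIndex D ≤ L` (`pCase`, `qCase`, `rCase`; if `r > e`, `D` is trivial). By `index_le_of_sylow` `(normalizer K₀).index ≤ L ^ e` and by `card_le_core` `Nat.card Q ≤ B ^ (L ^ e)`. -/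
theorem beta_pq (hF : PV F) {e c : ℕ} (he : 0 < e) (hexp : ExpLe F e) (hcl : NilLe F c)
    (hAT : ∀ p q : ℕ, p.Prime → q.Prime → p ≠ q → ¬ Le (AT p q) F)
    (hA3 : ∀ p q r : ℕ, p.Prime → q.Prime → r.Prime → p ≠ q → p ≠ r → q ≠ r → ¬ Le (A3 p q r) F)
    {p q : ℕ} (hp : p.Prime) (hq : q.Prime) (hpq : p ≠ q) : ∃ B : ℕ,
    ∀ (H V : Type) [Group H] [AddCommGroup V] [Module (ZMod p) V] (ρ : H →* Module.End (ZMod p) V), F (SD ρ) →
      Irr ρ → Function.Injective ρ → ∀ Q : Subgroup H, Q.Normal → IsPGroup q Q → Nat.card Q ≤ B := by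
  obtain ⟨B, hB1, hB⟩ := exists_alB hF he hexp hcl hAT
  have hL : ∀ r : ℕ, ∃ L : ℕ, r.Prime → p ≠ r → q ≠ r → ∀ (H V : Type) [Group H] [Finite H]
      [AddCommGroup V] [Module (ZMod p) V]
      (ρ : H →* Module.End (ZMod p) V), F (SD ρ) → ∀ Q : Subgroup H, Q.Normal → IsPGroup q Q →
      ∀ K₀ : Subgroup H, Kern ρ Q K₀ B → ∀ D : Subgroup H, IsPGroup r D →
      (Subgroup.normalizer (K₀ : Set H)).relIndex D ≤ L := by
    intro r
    by_cases hr : r.Prime ∧ p ≠ r ∧ q ≠ r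
    · obtain ⟨n, w, hk, hlaw⟩ := exists_word_pqr hF he hexp hcl hp hq hr.1
        (hA3 p q r hp hq hr.1 hpq hr.2.1 hr.2.2)
      obtain ⟨L, hL⟩ := rCase hF hp hq hr.1 hpq hr.2.1 hr.2.2 hB1 (hB q r hq hr.1 hr.2.2)
        (hB p r hp hr.1 hr.2.1) w hk hlaw
      exact ⟨L, fun _ _ _ => hL⟩
    · exact ⟨0, fun h1 h2 h3 => absurd ⟨h1, h2, h3⟩ hr⟩
  choose L hL using hL
  obtain ⟨M2, hM2⟩ : ∃ M2 : ℕ, M2 = 2 ^ c := ⟨_, rfl⟩
  obtain ⟨M, hM⟩ : ∃ M : ℕ, M = (∑ r ∈ Finset.range (e + 1), L r) + M2 + B + 1 := ⟨_, rfl⟩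
  refine ⟨B ^ (M ^ e), ?_⟩
  intro H V _ _ _ ρ hFS hirr hinj Q hQn hQ
  have hFH : F H := hF.surj (SD.toH ρ) (fun h => ⟨⟨0, h⟩, rfl⟩) hFS
  have hfH : Finite H := hF.fin hFH
  have hnt : Nontrivial V := hirr.1
  obtain ⟨K₀, hK⟩ := exists_kern hF hp (hB p q hp hq hpq) ρ hFS Q hQ
  have h1 : ∀ r : ℕ, r.Prime → ∀ D : Subgroup H, IsPGroup r D →
      (Subgroup.normalizer (K₀ : Set H)).relIndex D ≤ M := by
    intro r hr D hD
    by_cases hrp : p = r
    · subst hrp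
      refine (pCase hF hp hq hpq hcl ρ hFS Q hQn hQ K₀ hK D hD).trans ?_
      rw [← hM2]
      omega
    by_cases hrq : q = r
    · subst hrq
      exact (qCase hF hp hq hpq (hB p q hp hq hpq) ρ hFS Q hQn hQ K₀ hK D hD).trans (by omega)
    by_cases hre : e < r
    · have hD1 : D = ⊥ := by
        rw [eq_bot_iff]
        intro x hx
        rw [Subgroup.mem_bot]
        have h2 : (⟨x, hx⟩ : D) = 1 := beta_triv he hr hre (fun y => by
          apply Subtype.ext
          simpa using hexp H hFH y) hD ⟨x, hx⟩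
        exact congrArg Subtype.val h2
      rw [hD1, Subgroup.relIndex_bot_right]
      omega
    · have h2 := Finset.single_le_sum (f := L) (fun _ _ => Nat.zero_le _)
        (Finset.mem_range.2 (show r < e + 1 by omega))
      exact (hL r hr hrp hrq H V ρ hFS Q hQn hQ K₀ hK D hD).trans (by omega)
  have h2 := index_le_of_sylow he (hexp H hFH) (Subgroup.normalizer (K₀ : Set H)) h1
  have h3 := card_le_core ρ hirr hinj Q hQn hB1 K₀ hK
  exact h3.trans (Nat.pow_le_pow_right hB1 h2)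

/-- uniform: only the primes `p, q ≤ e` matter -/
theorem beta (hF : PV F) {e c : ℕ} (he : 0 < e) (hexp : ExpLe F e) (hcl : NilLe F c)
    (hAT : ∀ p q : ℕ, p.Prime → q.Prime → p ≠ q → ¬ Le (AT p q) F)
    (hA3 : ∀ p q r : ℕ, p.Prime → q.Prime → r.Prime → p ≠ q → p ≠ r → q ≠ r → ¬ Le (A3 p q r) F) :
    ∃ B : ℕ, ∀ p q : ℕ, p.Prime → q.Prime → p ≠ q →
    ∀ (H V : Type) [Group H] [AddCommGroup V] [Module (ZMod p) V] (ρ : H →* Module.End (ZMod p) V), F (SD ρ) →
      Irr ρ → Function.Injective ρ → ∀ Q : Subgroup H, Q.Normal → IsPGroup q Q → Nat.card Q ≤ B := by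
  have h := fun (p q : ℕ) (hp : p.Prime) (hq : q.Prime) (hpq : p ≠ q) =>
    beta_pq hF he hexp hcl hAT hA3 hp hq hpq
  choose f hf using h
  obtain ⟨B, hB1, hB⟩ := beta_max e f
  refine ⟨B, ?_⟩
  intro p q hp hq hpq H V _ _ _ ρ hFS hirr hinj Q hQn hQ
  by_cases hpe : e < p
  · exfalso
    have hnt : Nontrivial V := hirr.1
    obtain ⟨v, hv⟩ := exists_ne (0 : V)
    exact hv (beta_vtriv he hp hpe ρ (hexp _ hFS) v)
  by_cases hqe : e < q
  · have hFH : F H := hF.surj (SD.toH ρ) (fun h => ⟨⟨0, h⟩, rfl⟩) hFS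
    have h1 : ∀ x : Q, x = 1 := beta_triv he hq hqe (fun y => by
      apply Subtype.ext
      simpa using hexp H hFH y) hQ
    have h2 : Subsingleton Q := ⟨fun x y => (h1 x).trans (h1 y).symm⟩
    rw [Nat.card_unique]
    exact hB1
  · exact (hf p q hp hq hpq H V ρ hFS hirr hinj Q hQn hQ).trans
      (hB p q hp hq hpq (by omega) (by omega))

end Pool.Agent.HForm
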