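import Pool.Agent.Lib_MP_4009a7_al.Base

/-!
# Piece CTR: the centre trick
-/

set_option autoImplicit false

open scoped commutatorElement

namespace Pool.Agent.HForm

private theorem exists_central_of_ne_bot {D : Type} [Group D] [Finite D] {r : ℕ} (hr : r.Prime)
    (hD : IsPGroup r D) (N : Subgroup D) [hN : N.Normal] (hne : N ≠ ⊥) :
    ∃ c ∈ N, c ≠ 1 ∧ c ^ r = 1 ∧ c ∈ Subgroup.center D := by
  have : Fact r.Prime := ⟨hr⟩
  have hcard : r ∣ Nat.card N := by
    rcases (hD.to_subgroup N).card_eq_or_dvd with h | h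
    · exact absurd (Subgroup.card_eq_one.1 h) hne
    · exact h
  have hfix : (1 : N) ∈ MulAction.fixedPoints (ConjAct D) N := by
    intro g
    exact smul_one g
  obtain ⟨b, hb, hb1⟩ := (hD.of_equiv ConjAct.toConjAct).exists_fixed_point_of_prime_dvd_card_of_fixed_point
    N hcard hfix
  have hbc : (b : D) ∈ Subgroup.center D := by
    rw [Subgroup.mem_center_iff]
    intro g
    have h1 := congrArg Subtype.val (hb (ConjAct.toConjAct g))
    rw [ConjAct.Subgroup.val_conj_smul, ConjAct.toConjAct_smul] at h1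
    calc g * (b : D) = (g * b * g⁻¹) * g := by group
      _ = b * g := by rw [h1]
  have hbne : (b : D) ≠ 1 := fun h => hb1 (Subtype.ext (by rw [h]; rfl))
  obtain ⟨k, hk⟩ := (IsPGroup.iff_orderOf.1 hD) (b : D)
  rcases k with _ | k
  · rw [pow_zero, orderOf_eq_one_iff] at hk
    exact absurd hk hbne
  refine ⟨(b : D) ^ r ^ k, N.pow_mem b.2 _, ?_, ?_, (Subgroup.center D).pow_mem hbc _⟩
  · intro h
    have h2 := orderOf_dvd_of_pow_eq_one h
    rw [hk] at h2
    have h3 := Nat.le_of_dvd (pow_pos hr.pos _) h2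
    have h4 : r ^ k < r ^ (k + 1) := Nat.pow_lt_pow_right hr.one_lt (Nat.lt_succ_self k)
    omega
  · rw [← pow_mul, ← pow_succ, ← hk, pow_orderOf_eq_one]

/-- PROOF. For every `x ∈ E`, `x ≠ 1` choose a normal subgroup `N x` of index `≤ B` with `x ∉ N x`; let `N` be the intersection, a normal subgroup of index at most `B ^ (Nat.card E)`. `N ⊓ E = ⊥`. If `N ≠ ⊥`, then `N` contains a nontrivial central
element of `D` (a nontrivial normal subgroup of a finite `r`-group), so one of order `r` (a power of it), which is in `E`, a contradiction. So `N = ⊥`. -/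
theorem center_trick {D : Type} [Group D] [Finite D] {r : ℕ} (hr : r.Prime) (hD : IsPGroup r D) {B : ℕ}
    (hB : 1 ≤ B) (h : ∀ x : D, x ≠ 1 → ∃ N : Subgroup D, N.Normal ∧ x ∉ N ∧ N.index ≤ B) (E : Subgroup D)
    (hE : ∀ x ∈ Subgroup.center D, x ^ r = 1 → x ∈ E) : Nat.card D ≤ B ^ (Nat.card E) := by
  classical
  have := Fintype.ofFinite E
  have hex : ∀ x : E, ∃ N : Subgroup D, N.Normal ∧ ((x : D) ≠ 1 → (x : D) ∉ N) ∧ N.index ≤ B := by
    intro x
    by_cases hx : (x : D) = 1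
    · refine ⟨⊤, inferInstance, fun h => absurd hx h, ?_⟩
      rw [Subgroup.index_top]
      exact hB
    · obtain ⟨N, h1, h2, h3⟩ := h x hx
      exact ⟨N, h1, fun _ => h2, h3⟩
  choose M hMn hMx hMi using hex
  have hNn : (⨅ x : E, M x).Normal := Subgroup.normal_iInf_normal hMn
  have hbot : (⨅ x : E, M x) = ⊥ := by
    by_contra hne
    obtain ⟨c, hcN, hc1, hcr, hcc⟩ := exists_central_of_ne_bot hr hD _ hne
    have hcE : c ∈ E := hE c hcc hcr
    have h1 : c ∈ M ⟨c, hcE⟩ := (Subgroup.mem_iInf.1 hcN) ⟨c, hcE⟩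
    exact hMx ⟨c, hcE⟩ hc1 h1
  calc Nat.card D = (⨅ x : E, M x).index := by rw [hbot, Subgroup.index_bot]
    _ ≤ ∏ x : E, (M x).index := Subgroup.index_iInf_le _
    _ ≤ ∏ _x : E, B := Finset.prod_le_prod' fun x _ => hMi x
    _ = B ^ (Nat.card E) := by
        rw [Finset.prod_const, Finset.card_univ, Nat.card_eq_fintype_card]

/-- the relative version: apply `center_trick` to `D ⧸ R` -/
theorem center_trick_rel {D : Type} [Group D] [Finite D] {r : ℕ} (hr : r.Prime) (hD : IsPGroup r D) {B : ℕ}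
    (hB : 1 ≤ B) (R : Subgroup D) (hR : R.Normal)
    (h : ∀ x : D, x ∉ R → ∃ N : Subgroup D, N.Normal ∧ R ≤ N ∧ x ∉ N ∧ N.index ≤ B) (E : Subgroup D)
    (hRE : R ≤ E) (hE : ∀ x : D, x ^ r ∈ R → (∀ d : D, ⁅x, d⁆ ∈ R) → x ∈ E) :
    R.index ≤ B ^ (R.relIndex E) := by
  have := hR
  have hker : (QuotientGroup.mk' R).ker = R := QuotientGroup.ker_mk' R
  have hsurj : Function.Surjective (QuotientGroup.mk' R) := QuotientGroup.mk'_surjective R
  have hcard : R.relIndex E = Nat.card (E.map (QuotientGroup.mk' R)) := by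
    rw [← Subgroup.relIndex_ker, hker]
  rw [hcard, Subgroup.index_eq_card]
  refine center_trick hr (hD.to_quotient R) hB ?_ (E.map (QuotientGroup.mk' R)) ?_
  · intro x
    obtain ⟨y, rfl⟩ := hsurj x
    intro hy
    have hyR : y ∉ R := fun h => hy (by
      rw [← MonoidHom.mem_ker, hker]; exact h)
    obtain ⟨N, hN, hRN, hyN, hi⟩ := h y hyR
    refine ⟨N.map (QuotientGroup.mk' R), hN.map _ hsurj, ?_, ?_⟩
    · rintro ⟨z, hz, hzy⟩
      apply hyN
      have h1 : z⁻¹ * y ∈ R := QuotientGroup.eq.1 hzy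
      have h2 : y = z * (z⁻¹ * y) := by group
      rw [h2]
      exact N.mul_mem hz (hRN h1)
    · rw [Subgroup.index_map_eq _ hsurj (by rw [hker]; exact hRN)]
      exact hi
  · intro x
    obtain ⟨y, rfl⟩ := hsurj x
    intro hc hp
    refine ⟨y, hE y ?_ ?_, rfl⟩
    · rw [← hker, MonoidHom.mem_ker, map_pow]
      exact hp
    · intro d
      rw [← hker, MonoidHom.mem_ker, map_commutatorElement, commutatorElement_eq_one_iff_mul_comm]
      exact ((Subgroup.mem_center_iff.1 hc) (QuotientGroup.mk' R d)).symm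

private theorem exists_compl_add {r : ℕ} (hr : r.Prime) {A : Type} [AddCommGroup A]
    (hexp : ∀ x : A, r • x = 0) (S : AddSubgroup A) :
    ∃ T : AddSubgroup A, (∀ x ∈ T, x ∈ S → x = 0) ∧ ∀ x : A, ∃ a ∈ T, ∃ b ∈ S, a + b = x := by
  have : Fact r.Prime := ⟨hr⟩
  let _ : Module (ZMod r) A := AddCommGroup.zmodModule (n := r) hexp
  obtain ⟨Q, hQ⟩ := Submodule.exists_isCompl (AddSubgroup.toZModSubmodule r S)
  refine ⟨Q.toAddSubgroup, ?_, ?_⟩
  · intro x hx1 hx2
    exact (Submodule.disjoint_def.1 hQ.disjoint) x hx2 hx1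
  · intro x
    have h1 : x ∈ (⊤ : Submodule (ZMod r) A) := Submodule.mem_top
    rw [← hQ.sup_eq_top, Submodule.mem_sup] at h1
    obtain ⟨a, ha, b, hb, hab⟩ := h1
    exact ⟨b, hb, a, ha, by rw [add_comm]; exact hab⟩

private theorem exists_compl_aux_comm {r : ℕ} (hr : r.Prime) {G : Type} [CommGroup G]
    (hexp : ∀ x : G, x ^ r = 1) (E₀ : Subgroup G) :
    ∃ Y : Subgroup G, Y ⊓ E₀ = ⊥ ∧ Nat.card G = Nat.card Y * Nat.card E₀ := by
  obtain ⟨T, hT1, hT2⟩ := exists_compl_add hr (A := Additive G)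
    (fun x => hexp x.toMul) (Subgroup.toAddSubgroup E₀)
  let Y : Subgroup G :=
    { carrier := {x : G | Additive.ofMul x ∈ T}
      mul_mem' := fun {a b} ha hb => T.add_mem ha hb
      one_mem' := T.zero_mem
      inv_mem' := fun {a} ha => T.neg_mem ha }
  have hbot : Y ⊓ E₀ = ⊥ := by
    rw [eq_bot_iff]
    rintro x ⟨hx1, hx2⟩
    rw [Subgroup.mem_bot]
    exact hT1 (Additive.ofMul x) hx1 hx2
  refine ⟨Y, hbot, ?_⟩
  have hc : Subgroup.IsComplement' Y E₀ := by
    refine Subgroup.isComplement'_of_disjoint_and_mul_eq_univ (disjoint_iff.2 hbot) ?_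
    rw [Set.eq_univ_iff_forall]
    intro g
    obtain ⟨a, ha, b, hb, hab⟩ := hT2 (Additive.ofMul g)
    exact Set.mem_mul.2 ⟨a.toMul, ha, b.toMul, hb, hab⟩
  exact hc.card_mul_card.symm

private theorem exists_compl_aux {r : ℕ} (hr : r.Prime) {G : Type} [Group G]
    (hcomm : ∀ x y : G, x * y = y * x) (hexp : ∀ x : G, x ^ r = 1) (E₀ : Subgroup G) :
    ∃ Y : Subgroup G, Y ⊓ E₀ = ⊥ ∧ Nat.card G = Nat.card Y * Nat.card E₀ :=
  @exists_compl_aux_comm r hr G { (inferInstance : Group G) with mul_comm := hcomm } hexp E₀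

/-- complements: PROOF. `E ⧸ R` is an elementary abelian `r`-group, a vector space over `ZMod r`; take the preimage of a complement of the image of `E₀`. Alternatively: let `Y` be maximal among the subgroups with `R ≤ Y ≤ E` and `Y ⊓ E₀ ≤ R`.
If `Y ⊔ E₀ ≠ E`, choose `x ∈ E` not in it; then `Y ⊔ zpowers x` (all these subgroups are normal in `E`, they contain `R`) contradicts maximality: if `y x^i ∈ E₀` with `y ∈ Y`, then `x ^ i ∈ Y ⊔ E₀`, so `r ∣ i`, `x ^ i ∈ R`, so `y x ^ i ∈ Y ⊓ E₀ ≤ R`. Hence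
`R.relIndex Y = E₀.relIndex E` and `R.relIndex E = E₀.relIndex E * R.relIndex E₀`. -/
theorem exists_complement_rel {G : Type} [Group G] [Finite G] {r : ℕ} (hr : r.Prime) (R E₀ E : Subgroup G)
    (h1 : R ≤ E₀) (h2 : E₀ ≤ E) (hR : ∀ x ∈ E, ∀ y ∈ R, x * y * x⁻¹ ∈ R) (hEr : ∀ x ∈ E, x ^ r ∈ R)
    (hEc : ∀ x ∈ E, ∀ y ∈ E, ⁅x, y⁆ ∈ R) :
    ∃ Y : Subgroup G, R ≤ Y ∧ Y ≤ E ∧ Y ⊓ E₀ = R ∧ R.relIndex E = R.relIndex Y * R.relIndex E₀ := by
  have hRE : R ≤ E := h1.trans h2
  have hRn : (R.subgroupOf E).Normal := by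
    constructor
    intro y hy x
    rw [Subgroup.mem_subgroupOf] at hy ⊢
    exact hR x x.2 y hy
  have hker : (QuotientGroup.mk' (R.subgroupOf E)).ker = R.subgroupOf E := QuotientGroup.ker_mk' _
  have hsurj : Function.Surjective (QuotientGroup.mk' (R.subgroupOf E)) :=
    QuotientGroup.mk'_surjective _
  obtain ⟨Y', hY1, hY2⟩ := exists_compl_aux hr (G := E ⧸ R.subgroupOf E)
    (by
      intro x y
      obtain ⟨a, rfl⟩ := hsurj x
      obtain ⟨b, rfl⟩ := hsurj y
      rw [← commutatorElement_eq_one_iff_mul_comm, ← map_commutatorElement, ← MonoidHom.mem_ker,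
        hker, Subgroup.mem_subgroupOf]
      exact hEc a a.2 b b.2)
    (by
      intro x
      obtain ⟨a, rfl⟩ := hsurj x
      rw [← map_pow, ← MonoidHom.mem_ker, hker, Subgroup.mem_subgroupOf]
      exact hEr a a.2)
    ((E₀.subgroupOf E).map (QuotientGroup.mk' (R.subgroupOf E)))
  set φ := QuotientGroup.mk' (R.subgroupOf E) with hφ
  have hRY : R ≤ (Y'.comap φ).map E.subtype := by
    intro x hx
    refine ⟨⟨x, hRE hx⟩, ?_, rfl⟩
    have hk : φ ⟨x, hRE hx⟩ = 1 := by
      rw [← MonoidHom.mem_ker, hker, Subgroup.mem_subgroupOf]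
      exact hx
    rw [SetLike.mem_coe, Subgroup.mem_comap, hk]
    exact Y'.one_mem
  have hYE : (Y'.comap φ).map E.subtype ≤ E := by
    rintro _ ⟨x, -, rfl⟩
    exact x.2
  have hsub : ((Y'.comap φ).map E.subtype).subgroupOf E = Y'.comap φ := by
    rw [Subgroup.subgroupOf, Subgroup.comap_map_eq_self_of_injective E.subtype_injective]
  refine ⟨(Y'.comap φ).map E.subtype, hRY, hYE, ?_, ?_⟩
  · apply le_antisymm
    · rintro x ⟨⟨y, hy, rfl⟩, hx⟩
      have h3 : φ y ∈ Y' ⊓ (E₀.subgroupOf E).map φ :=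
        ⟨hy, ⟨y, (Subgroup.mem_subgroupOf).2 hx, rfl⟩⟩
      rw [hY1, Subgroup.mem_bot, ← MonoidHom.mem_ker, hker, Subgroup.mem_subgroupOf] at h3
      exact h3
    · exact le_inf hRY h1
  · have e1 : R.relIndex E = Nat.card (E ⧸ R.subgroupOf E) := by
      rw [Subgroup.relIndex, Subgroup.index_eq_card]
    have e2 : R.relIndex ((Y'.comap φ).map E.subtype) = Nat.card Y' := by
      have e4 := Subgroup.relIndex_ker (f := φ) (K := Y'.comap φ)
      rw [hker, Subgroup.map_comap_eq_self_of_surjective hsurj] at e4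
      rw [← Subgroup.relIndex_subgroupOf hYE, hsub, e4]
    have e3 : R.relIndex E₀ = Nat.card ((E₀.subgroupOf E).map φ) := by
      have e4 := Subgroup.relIndex_ker (f := φ) (K := E₀.subgroupOf E)
      rw [hker] at e4
      rw [← Subgroup.relIndex_subgroupOf h2, e4]
    rw [e1, e2, e3]
    exact hY2

end Pool.Agent.HForm
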