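import Pool.Agent.Lib_MP_4009a7_al.MinCls

/-!
# Piece CASES: the classification
-/

set_option autoImplicit false

open scoped commutatorElement

namespace Pool.Agent.HForm

variable {F : GClass}

/-- a pseudovariety contained in a minimal non-one-generated one, which is not one-generated, is equal to it -/
theorem MinNonOneGen.same (h : MinNonOneGen F) {X : GClass} (hX : PV X) (hXF : Le X F) (hno : ¬ OneGen X) :
    Same F X := by
  have h1 : Le F X := by
    by_contra hcon
    exact hno (h.minimal X (pv_iff.2 hX).1 (pv_iff.2 hX).2 hXF hcon)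
  intro G _
  exact ⟨h1 G, hXF G⟩

private theorem cases_pv (h : MinNonOneGen F) : PV F := pv_iff.1 ⟨h.form, h.hered⟩

private theorem cases_same_eq {F' : GClass} (h : Same F F') : F = F' := by
  funext G i
  exact propext (@h G i)

/-- PROOF. `{p | F C_p}` is finite: if `p` is in it, the class `{G ∈ F | p ∤ Nat.card G}` (`PV.coprime`) is a pseudovariety which does not contain `C_p`, so it is one-generated by minimality, so it has bounded exponent `e'` (`OneGen.exp`), so the primes `p' ≠ p` with `C_p' ∈ F` divide `e'`.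
So by `exp_trichotomy` there is a prime `p` with all cyclic `p`-groups in `F`; `abP_le`, `MinNonOneGen.same`, `abP_not_oneGen`. -/
theorem case_unbounded (h : MinNonOneGen F) (he : ¬ ∃ e : ℕ, 0 < e ∧ ExpLe F e) :
    ∃ p : ℕ, p.Prime ∧ Same F (AbP p) := by
  have hF := cases_pv h
  have hcard : ∀ l : ℕ, Nat.card (Multiplicative (ZMod l)) = l := by
    intro l
    have : Nat.card (Multiplicative (ZMod l)) = Nat.card (ZMod l) :=
      Nat.card_congr Multiplicative.toAdd
    rw [this, Nat.card_zmod]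
  rcases exp_trichotomy hF with h1 | ⟨p, hp, hk⟩ | hinf
  · exact absurd h1 he
  · exact ⟨p, hp, h.same (pv_abP p) (abP_le hF hp hk) (abP_not_oneGen hp)⟩
  · exfalso
    obtain ⟨p, hp, hpF⟩ := hinf.nonempty
    have hX : PV (fun G _ => F G ∧ ¬ p ∣ Nat.card G) := hF.coprime hp
    have hog : OneGen (fun G _ => F G ∧ ¬ p ∣ Nat.card G) := by
      by_contra hno
      have h2 := h.same hX (fun G _ hG => hG.1) hno
      have h3 := ((h2 (Multiplicative (ZMod p))).1 hpF).2
      exact h3 (by rw [hcard])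
    obtain ⟨e', he', hexp⟩ := hog.exp
    refine hinf ?_
    refine Set.Finite.subset ((Finset.finite_toSet e'.primeFactors).insert p) ?_
    rintro q ⟨hq, hqF⟩
    by_cases hqp : q = p
    · exact Or.inl hqp
    · right
      have h2 : ¬ p ∣ Nat.card (Multiplicative (ZMod q)) := by
        rw [hcard]
        intro hd
        exact hqp ((Nat.prime_dvd_prime_iff_eq hp hq).1 hd).symm
      have h3 := hexp (Multiplicative (ZMod q)) ⟨hqF, h2⟩ (Multiplicative.ofAdd 1)
      have h4 : ((e' : ℕ) : ZMod q) = 0 := by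
        have h5 : Multiplicative.ofAdd ((e' : ℕ) • (1 : ZMod q)) = Multiplicative.ofAdd (0 : ZMod q) := by
          rw [ofAdd_nsmul]
          exact h3
        have h6 := Multiplicative.ofAdd.injective h5
        simpa using h6
      have h5 : q ∣ e' := (ZMod.natCast_eq_zero_iff e' q).1 h4
      exact Finset.mem_coe.2 (Nat.mem_primeFactors.2 ⟨hq, h5, he'.ne'⟩)

/-- PROOF. For every prime `p ≤ e` suppose first that the class of the `p`-groups in `F` is bounded: then with the maximum `c` of the bounds `NilLe F c` (for `p > e` the `p`-groups in `F` are trivial). So for some prime `p` the `p`-groups in `F` have unbounded class. `X = {G ∈ F | IsPGroup p G}` (`PV.pgroups`) is not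
one-generated: `OneGen.laws` gives a `p`-group `G₀ ∈ X`, nilpotent of some class `c`, and `nilp_of_laws` bounds the class of all groups in `X`. So `F = X` (`MinNonOneGen.same`): all groups in `F` are `p`-groups. If `Le (A2 p p) F` then `Same F (A2 p p)` (`a2_not_oneGen`). Otherwise `Exotic F`: the derived length is
unbounded by `thmD`; for a proper hereditary subformation `H` (a pseudovariety, `pv_iff`) `OneGen H`, so as before the class is bounded. -/
theorem case_class (h : MinNonOneGen F) {e : ℕ} (he : 0 < e) (hexp : ExpLe F e) (hc : ¬ ∃ c : ℕ, NilLe F c) :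
    (∃ p : ℕ, p.Prime ∧ Same F (A2 p p)) ∨ Exotic F := by
  classical
  have hF := cases_pv h
  -- one-generated classes of `p`-groups have bounded class
  have key : ∀ (X : GClass) (p : ℕ), p.Prime → PV X → (∀ (G : Type) [Group G], X G → IsPGroup p G) →
      OneGen X → ∃ c : ℕ, ∀ (G : Type) [Group G], X G → (⊤ : Subgroup G).lowerCentralSeries c = ⊥ := by
    intro X p hp hX hpg hog
    have : Fact p.Prime := ⟨hp⟩
    obtain ⟨G₀, _, hfin, h0, hlaws⟩ := hog.laws
    have hnil : Group.IsNilpotent G₀ := (hpg G₀ h0).isNilpotent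
    obtain ⟨c, hc⟩ := Subgroup.nilpotent_iff_lowerCentralSeries.1 hnil
    refine ⟨c, fun G _ hG => ?_⟩
    have : Finite G := hX.fin hG
    exact nilp_of_laws (hlaws G hG) hc
  obtain ⟨p, hp, hunb⟩ : ∃ p : ℕ, p.Prime ∧ ¬ ∃ c : ℕ, ∀ (G : Type) [Group G], F G → IsPGroup p G →
      (⊤ : Subgroup G).lowerCentralSeries c = ⊥ := by
    by_contra hcon
    push Not at hcon
    choose! c hcc using hcon
    refine hc ⟨(Finset.range (e + 1)).sup c, ?_⟩
    intro G _ hG p hp hpG
    by_cases hpe : p ≤ e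
    · have h1 := hcc p hp G hG hpG
      have h2 : c p ≤ (Finset.range (e + 1)).sup c :=
        Finset.le_sup (Finset.mem_range.2 (by omega))
      rw [eq_bot_iff, ← h1]
      exact Subgroup.lowerCentralSeries_antitone _ h2
    · have htriv : ∀ x : G, x = 1 := by
        intro x
        have : Fact p.Prime := ⟨hp⟩
        obtain ⟨k, hk⟩ := (IsPGroup.iff_orderOf.1 hpG) x
        have h1 : orderOf x ∣ e := orderOf_dvd_of_pow_eq_one (hexp G hG x)
        rcases Nat.eq_zero_or_pos k with hk0 | hk0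
        · rw [hk0, pow_zero] at hk
          exact orderOf_eq_one_iff.1 hk
        · exfalso
          have h2 : p ∣ e := (dvd_pow_self p hk0.ne').trans (hk ▸ h1)
          exact hpe (Nat.le_of_dvd he h2)
      have : Subsingleton G := ⟨fun a b => by rw [htriv a, htriv b]⟩
      exact Subsingleton.elim _ _
  have hX : PV (fun G _ => F G ∧ IsPGroup p G) := hF.pgroups p
  have hno : ¬ OneGen (fun G _ => F G ∧ IsPGroup p G) := by
    intro hog
    obtain ⟨c, hc⟩ := key _ p hp hX (fun G _ hG => hG.2) hog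
    exact hunb ⟨c, fun G _ hG hpG => hc G ⟨hG, hpG⟩⟩
  have hsame := h.same hX (fun G _ hG => hG.1) hno
  have hpg : ∀ (G : Type) [Group G], F G → IsPGroup p G := fun G _ hG => ((hsame G).1 hG).2
  by_cases hA : Le (A2 p p) F
  · exact Or.inl ⟨p, hp, h.same (pv_A2 p p) hA (a2_not_oneGen hp)⟩
  · right
    refine ⟨h.form, h.hered, p, hp, hpg, ⟨e, he, hexp⟩, ?_, ?_⟩
    · rintro ⟨d, hd⟩
      obtain ⟨c, hc'⟩ := thmD hF hp hpg he hexp hd hA
      exact hunb ⟨c, fun G _ hG _ => hc' G hG⟩
    · intro H hH1 hH2 hHF hFH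
      have hog := h.minimal H hH1 hH2 hHF hFH
      exact key H p hp (pv_iff.1 ⟨hH1, hH2⟩) (fun G _ hG => hpg G (hHF G hG)) hog

/-- PROOF. `thmC` and `MinNonOneGen.same`, `at_not_oneGen`, `a3_not_oneGen`. -/
theorem case_bounded (h : MinNonOneGen F) (hs : Soluble F) {e c : ℕ} (he : 0 < e) (hexp : ExpLe F e)
    (hc : NilLe F c) :
    (∃ p q r : ℕ, p.Prime ∧ q.Prime ∧ r.Prime ∧ p ≠ q ∧ p ≠ r ∧ q ≠ r ∧ Same F (A3 p q r)) ∨
    (∃ p q : ℕ, p.Prime ∧ q.Prime ∧ p ≠ q ∧ Same F (AT p q)) := by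
  have hF := cases_pv h
  by_contra hcon
  rw [not_or] at hcon
  obtain ⟨h3, h2⟩ := hcon
  refine h.not_oneGen (thmC hF hs he hexp hc ?_ ?_)
  · intro p q hp hq hpq hle
    exact h2 ⟨p, q, hp, hq, hpq, h.same (pv_AT p q) hle (at_not_oneGen hp hq)⟩
  · intro p q r hp hq hr hpq hpr hqr hle
    exact h3 ⟨p, q, r, hp, hq, hr, hpq, hpr, hqr,
      h.same (pv_A3 p q r) hle (a3_not_oneGen hp hq hr)⟩

/-- THE CLASSIFICATION -/
theorem classification (F : GClass) : (MinNonOneGen F ∧ Soluble F) ↔
    (∃ p : ℕ, p.Prime ∧ Same F (AbP p)) ∨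
    (∃ p : ℕ, p.Prime ∧ Same F (A2 p p)) ∨
    (∃ p q r : ℕ, p.Prime ∧ q.Prime ∧ r.Prime ∧ p ≠ q ∧ p ≠ r ∧ q ≠ r ∧ Same F (A3 p q r)) ∨
    (∃ p q : ℕ, p.Prime ∧ q.Prime ∧ p ≠ q ∧ Same F (AT p q)) ∨
    Exotic F := by
  constructor
  · rintro ⟨h, hs⟩
    by_cases he : ∃ e : ℕ, 0 < e ∧ ExpLe F e
    · obtain ⟨e, he, hexp⟩ := he
      by_cases hc : ∃ c : ℕ, NilLe F c
      · obtain ⟨c, hc⟩ := hc
        rcases case_bounded h hs he hexp hc with h1 | h1
        · exact Or.inr (Or.inr (Or.inl h1))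
        · exact Or.inr (Or.inr (Or.inr (Or.inl h1)))
      · rcases case_class h he hexp hc with h1 | h1
        · exact Or.inr (Or.inl h1)
        · exact Or.inr (Or.inr (Or.inr (Or.inr h1)))
    · exact Or.inl (case_unbounded h he)
  · rintro (⟨p, hp, h⟩ | ⟨p, hp, h⟩ | ⟨p, q, r, hp, hq, hr, hpq, hpr, hqr, h⟩ | ⟨p, q, hp, hq, hpq, h⟩ | h)
    · rw [cases_same_eq h]
      exact ⟨min_abP hp, soluble_abP p⟩
    · rw [cases_same_eq h]
      exact ⟨min_A2 hp, soluble_A2 p p⟩
    · rw [cases_same_eq h]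
      exact ⟨min_A3 hp hq hr hpq hpr hqr, soluble_A3 p q r⟩
    · rw [cases_same_eq h]
      exact ⟨min_AT hp hq hpq, soluble_AT p q⟩
    · exact ⟨min_exotic h, soluble_exotic h⟩

end Pool.Agent.HForm
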