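import Pool.Agent.Lib_MP_4009a7_al.Cube

/-!
# Piece KN: the lemma of Kovacs and Newman
-/

set_option autoImplicit false

open scoped commutatorElement

namespace Pool.Agent.HForm

/-- the three subgroups lemma modulo a normal subgroup -/
private theorem three_le {G : Type} [Group G] (H₁ H₂ H₃ N : Subgroup G) [N.Normal]
    (h1 : ⁅⁅H₂, H₃⁆, H₁⁆ ≤ N) (h2 : ⁅⁅H₃, H₁⁆, H₂⁆ ≤ N) : ⁅⁅H₁, H₂⁆, H₃⁆ ≤ N := by
  have key : ∀ K : Subgroup G, K ≤ N ↔ K.map (QuotientGroup.mk' N) = ⊥ := by
    intro K
    rw [Subgroup.map_eq_bot_iff, QuotientGroup.ker_mk']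
  rw [key] at h1 h2 ⊢
  rw [Subgroup.map_commutator, Subgroup.map_commutator] at h1 h2 ⊢
  exact Subgroup.commutator_commutator_eq_bot_of_rotate h1 h2

private theorem lcs_normal {G : Type} [Group G] (P : Subgroup G) [P.Normal] (k : ℕ) :
    (P.lowerCentralSeries k).Normal := by
  induction k with
  | zero => simpa using (inferInstance : P.Normal)
  | succ k ih =>
    rw [Subgroup.lowerCentralSeries_succ]
    infer_instance

private theorem lcs_comm {G : Type} [Group G] (P : Subgroup G) [P.Normal] (j : ℕ) : ∀ i : ℕ,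
    ⁅P.lowerCentralSeries i, P.lowerCentralSeries j⁆ ≤ P.lowerCentralSeries (i + j + 1) := by
  induction j with
  | zero =>
    intro i
    rw [Subgroup.lowerCentralSeries_zero, add_zero, Subgroup.lowerCentralSeries_succ]
  | succ j ih =>
    intro i
    have := lcs_normal P (i + (j + 1) + 1)
    rw [Subgroup.commutator_comm, Subgroup.lowerCentralSeries_succ P j]
    apply three_le
    · rw [Subgroup.commutator_comm P, ← Subgroup.lowerCentralSeries_succ]
      have := ih (i + 1)
      rwa [show i + 1 + j + 1 = i + (j + 1) + 1 from by ring] at this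
    · have h1 := Subgroup.commutator_mono (ih i) (le_refl P)
      rw [← Subgroup.lowerCentralSeries_succ] at h1
      rwa [show i + j + 1 + 1 = i + (j + 1) + 1 from by ring] at h1

private theorem decomp {G : Type} [Group G] (H : Subgroup G) (m : ℕ) : ∀ (N : Fin m → Subgroup G),
    (∀ i, (N i).Normal) → ∀ x ∈ H ⊔ ⨆ i, N i,
      ∃ h ∈ H, ∃ a : Fin m → G, (∀ i, a i ∈ N i) ∧ x = h * (List.ofFn a).prod := by
  induction m with
  | zero =>
    intro N hN x hx
    refine ⟨x, ?_, Fin.elim0, fun i => Fin.elim0 i, ?_⟩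
    · simpa using hx
    · simp
  | succ m ih =>
    intro N hN x hx
    have h1 : (⨆ i, N i) = (⨆ i : Fin m, N i.castSucc) ⊔ N (Fin.last m) := by
      apply le_antisymm
      · apply iSup_le
        intro i
        induction i using Fin.lastCases with
        | last => exact le_sup_right
        | cast i => exact le_sup_of_le_left (le_iSup (fun i : Fin m => N i.castSucc) i)
      · apply sup_le
        · exact iSup_le fun i => le_iSup N _
        · exact le_iSup N _
    rw [h1, ← sup_assoc] at hx
    have hn := hN (Fin.last m)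
    obtain ⟨y, hy, b, hb, rfl⟩ := Subgroup.mem_sup_of_normal_right.mp hx
    obtain ⟨h, hh, a, ha, rfl⟩ := ih (fun i => N i.castSucc) (fun i => hN _) y hy
    refine ⟨h, hh, Fin.snoc a b, ?_, ?_⟩
    · intro i
      induction i using Fin.lastCases with
      | last => simpa using hb
      | cast i => simpa using ha i
    · rw [List.ofFn_succ']
      simp [mul_assoc]

/-- PROOF. Use `cube_corner` with the filtration `Γ 0 = ⊤`, `Γ (k+1) = P.lowerCentralSeries k` (normal in `G` because `P` is;
`⁅P.lowerCentralSeries i, P.lowerCentralSeries j⁆ ≤ P.lowerCentralSeries (i+j+1)` is standard, search Mathlib's `Nilpotent.lean` or prove it with the three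
subgroups lemma). Let `t : Fin n → G`. As `H ⊔ ⨆ i, N i = ⊤` and the `N i` are normal, each `t k` is
`h k * ∏_i a k i` (in the order of `Fin (s+1)`) with `h k ∈ H`, `a k i ∈ N i ≤ P = Γ 1`. For a proper subset `S` of `Fin (s+1)`, `i ∉ S`, the elements
`h k * ∏_{j ∈ S} a k j` are in `H ⊔ ⨆ j ≠ i, N j`, so `w` vanishes there. Hence `w(t) ∈ Γ (s+1) = P.lowerCentralSeries s = ⊥`. -/
theorem kn {G : Type} [Group G] (P : Subgroup G) [P.Normal] (s : ℕ) (hP : P.lowerCentralSeries s = ⊥)
    (H : Subgroup G) (N : Fin (s + 1) → Subgroup G) (hN : ∀ i, (N i).Normal) (hNP : ∀ i, N i ≤ P)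
    (hG : H ⊔ ⨆ i, N i = ⊤) {n : ℕ} (w : FreeGroup (Fin n))
    (hw : ∀ i, Law w ↥(H ⊔ ⨆ (j : Fin (s + 1)) (_ : j ≠ i), N j)) : Law w G := by
  intro t
  have hdec : ∀ k, ∃ h ∈ H, ∃ a : Fin (s + 1) → G, (∀ i, a i ∈ N i) ∧ t k = h * (List.ofFn a).prod := by
    intro k
    apply decomp H (s + 1) N hN
    rw [hG]
    trivial
  choose h hh a ha hta using hdec
  let Γ : ℕ → Subgroup G := fun k => match k with
    | 0 => ⊤
    | k + 1 => P.lowerCentralSeries k
  have hΓ0 : Γ 0 = ⊤ := rfl
  have hΓs : ∀ k, Γ (k + 1) = P.lowerCentralSeries k := fun _ => rfl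
  have hanti : Antitone Γ := by
    apply antitone_nat_of_succ_le
    intro k
    cases k with
    | zero => rw [hΓ0]; exact le_top
    | succ k => rw [hΓs, hΓs]; exact P.lowerCentralSeries_antitone (Nat.le_succ k)
  have hcomm : ∀ i j, ∀ x ∈ Γ i, ∀ y ∈ Γ j, ⁅x, y⁆ ∈ Γ (i + j) := by
    intro i j x hx y hy
    cases i with
    | zero =>
      rw [zero_add]
      cases j with
      | zero => rw [hΓ0]; trivial
      | succ j =>
        rw [hΓs] at hy ⊢
        have := lcs_normal P j
        rw [commutatorElement_def]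
        exact Subgroup.mul_mem _ (this.conj_mem _ hy x) (Subgroup.inv_mem _ hy)
    | succ i =>
      cases j with
      | zero =>
        rw [add_zero]
        rw [hΓs] at hx ⊢
        have := lcs_normal P i
        rw [commutatorElement_def, mul_assoc, mul_assoc, ← mul_assoc y]
        exact Subgroup.mul_mem _ hx (this.conj_mem _ (Subgroup.inv_mem _ hx) y)
      | succ j =>
        rw [hΓs] at hx hy
        rw [show i + 1 + (j + 1) = (i + j + 1) + 1 from by ring, hΓs]
        exact lcs_comm P j i (Subgroup.commutator_mem_commutator hx hy)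
  have hmain := cube_corner Γ hΓ0 hanti hcomm (s + 1) w h a
    (fun k j => by rw [hΓs]; exact hNP j (ha k j)) ?_
  · rw [hΓs, hP, Subgroup.mem_bot] at hmain
    rw [← hmain]
    congr 2
    funext k
    exact hta k
  · intro S hS
    obtain ⟨i, hi⟩ : ∃ i, i ∉ S := by
      by_contra hcon
      push Not at hcon
      exact hS (Finset.eq_univ_iff_forall.mpr hcon)
    have hmem : ∀ k, h k * (List.ofFn (fun j => if j ∈ S then a k j else 1)).prod ∈
        H ⊔ ⨆ (j : Fin (s + 1)) (_ : j ≠ i), N j := by
      intro k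
      apply Subgroup.mul_mem
      · exact (le_sup_left : H ≤ _) (hh k)
      · apply Subgroup.list_prod_mem
        intro x hx
        rw [List.mem_ofFn'] at hx
        obtain ⟨j, rfl⟩ := hx
        dsimp only
        split_ifs with hj
        · have hji : j ≠ i := fun e => hi (e ▸ hj)
          exact (le_sup_right : _ ≤ H ⊔ _) ((le_iSup₂_of_le j hji le_rfl :
            N j ≤ ⨆ (j : Fin (s + 1)) (_ : j ≠ i), N j) (ha k j))
        · exact Subgroup.one_mem _
    have h2 := hw i (fun k => ⟨_, hmem k⟩)
    have h3 := congrArg (Subgroup.subtype _) h2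
    rw [map_one] at h3
    refine Eq.trans ?_ h3
    rw [← MonoidHom.comp_apply]
    congr 1
    apply FreeGroup.ext_hom
    intro k
    rw [FreeGroup.lift_apply_of, MonoidHom.comp_apply, FreeGroup.lift_apply_of]
    rfl

end Pool.Agent.HForm
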