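import Pool.Agent.Lib_MP_4009a7_al.MaxN
import Pool.Agent.Lib_MP_4009a7_al.KN

/-!
# Piece INDEP: many independent maximal subgroups
-/

set_option autoImplicit false

open scoped commutatorElement

namespace Pool.Agent.HForm

variable {G : Type} [Group G]

/-- PROOF. For all `i`, `¬ P ≤ M i` (by `hind i`), so `P ⊓ M i` is normal (`maxN`). Let `H = ⨅ i, M i` and
`N i = P ⊓ ⨅ j ≠ i, M j`, the infimum of `P` and of the `P ⊓ M j`, `j ≠ i`, so normal (`N i = P` if `c = 0`). By hypothesis `¬ N i ≤ M i`, so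
`N i ⊔ M i = ⊤`. CLAIM: `H ⊔ ⨆ i, N i = ⊤`: for `k ≤ c + 1` let `H k = ⨅ i < k, M i` (`H 0 = ⊤`). `H k = N k ⊔ H (k+1)`: as
`N k ≤ H k` and `N k ⊔ M k = ⊤`, by Dedekind's law `H k = N k ⊔ (M k ⊓ H k)` (for `x ∈ H k` write `x = n * m` with
`n ∈ N k`, `m ∈ M k`, then `m ∈ H k`). By induction `⊤ = H 0 = N 0 ⊔ ... ⊔ N (k-1) ⊔ H k`. For each `i`,
`H ⊔ ⨆ j ≠ i, N j ≤ M i < ⊤`, so `w` is a law there. Apply `kn` with `s = c`. -/
theorem law_of_indep [Finite G] {p : ℕ} (hp : p.Prime) (P : Subgroup G) (hPn : P.Normal)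
    (hP : IsPGroup p P) (c : ℕ) (hc : P.lowerCentralSeries c = ⊥) (M : Fin (c + 1) → Subgroup G)
    (hM : ∀ i, IsCoatom (M i)) (hind : ∀ i, ¬ (P ⊓ ⨅ (j : Fin (c + 1)) (_ : j ≠ i), M j) ≤ M i)
    {n : ℕ} (w : FreeGroup (Fin n)) (hw : ∀ K : Subgroup G, K < ⊤ → Law w K) : Law w G := by
  classical
  have hPM : ∀ i, ¬ P ≤ M i := fun i h => hind i (inf_le_left.trans h)
  have hnor : ∀ i, (P ⊓ M i).Normal := fun i => (maxN hp P hPn hP (M i) (hM i) (hPM i)).1
  have hNn : ∀ i, (P ⊓ ⨅ (j : Fin (c + 1)) (_ : j ≠ i), M j).Normal := by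
    intro i
    constructor
    intro x hx g
    rw [Subgroup.mem_inf] at hx ⊢
    refine ⟨hPn.conj_mem x hx.1 g, ?_⟩
    simp only [Subgroup.mem_iInf] at hx ⊢
    intro j hj
    exact ((hnor j).conj_mem x (Subgroup.mem_inf.mpr ⟨hx.1, hx.2 j hj⟩) g).2
  have hNM : ∀ i j : Fin (c + 1), j ≠ i →
      (P ⊓ ⨅ (l : Fin (c + 1)) (_ : l ≠ j), M l) ≤ M i := fun i j hij =>
    inf_le_right.trans (iInf₂_le i hij.symm)
  have hclaim : ∀ T : Finset (Fin (c + 1)),
      (⨅ i ∈ T, M i) ⊔ ⨆ i, (P ⊓ ⨅ (j : Fin (c + 1)) (_ : j ≠ i), M j) = ⊤ := by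
    intro T
    induction T using Finset.induction_on with
    | empty => simp
    | insert a T ha ih =>
      rw [eq_top_iff, ← ih]
      refine sup_le ?_ le_sup_right
      intro x hx
      have htop : (P ⊓ ⨅ (j : Fin (c + 1)) (_ : j ≠ a), M j) ⊔ M a = ⊤ := by
        refine (hM a).2 _ (lt_of_le_of_ne le_sup_right ?_)
        intro h
        exact hind a (h ▸ le_sup_left)
      have hxt : x ∈ (P ⊓ ⨅ (j : Fin (c + 1)) (_ : j ≠ a), M j) ⊔ M a := htop ▸ Subgroup.mem_top x
      obtain ⟨u, hu, v, hv, huv⟩ := (@Subgroup.mem_sup_of_normal_left G _ _ _ (hNn a) x).mp hxt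
      have huT : u ∈ ⨅ i ∈ T, M i := by
        simp only [Subgroup.mem_iInf]
        intro i hi
        exact hNM i a (fun h => ha (h ▸ hi)) hu
      have hvT : v ∈ ⨅ i ∈ T, M i := by
        have : v = u⁻¹ * x := by rw [← huv]; group
        rw [this]
        exact Subgroup.mul_mem _ (Subgroup.inv_mem _ huT) hx
      rw [← huv]
      refine Subgroup.mul_mem _ ?_ ?_
      · refine Subgroup.mem_sup_right ?_
        exact Subgroup.mem_iSup_of_mem a hu
      · refine Subgroup.mem_sup_left ?_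
        rw [Finset.iInf_insert]
        exact Subgroup.mem_inf.mpr ⟨hv, hvT⟩
  have htop := hclaim Finset.univ
  simp only [Finset.mem_univ, iInf_pos] at htop
  have _ := hPn
  refine kn P c hc (⨅ i, M i) (fun i => P ⊓ ⨅ (j : Fin (c + 1)) (_ : j ≠ i), M j) hNn
    (fun i => inf_le_left) htop w (fun i => hw _ ?_)
  refine lt_of_le_of_lt ?_ (hM i).lt_top
  refine sup_le (iInf_le _ i) (iSup₂_le fun j hj => hNM i j hj)

/-- PROOF. Let `𝓜` be the (finite) set of the coatoms and let `T ⊆ 𝓜` be a finite set of minimal cardinality with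
`P ⊓ ⨅ M ∈ T, M = P ⊓ frattini G` (`frattini G` is the infimum of the coatoms). By minimality for each `M₀ ∈ T`: `¬ (P ⊓ ⨅ M ∈ T \ {M₀}, M) ≤ M₀`. If `T` has
at least `c + 1` elements, choose `c + 1` of them: they are independent as in `law_of_indep` (the infimum over fewer subgroups is larger).
Otherwise `T` has at most `c` elements; for `M ∈ T`, `(P ⊓ M).relIndex P ≤ m` (it is a chief factor by `maxN`), so the index of the
intersection is at most `m ^ c` (`Subgroup.relIndex_inf_le` and induction; `1 ≤ m`). -/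
theorem indep_or_small [Finite G] {p : ℕ} (hp : p.Prime) (P : Subgroup G) (hPn : P.Normal)
    (hP : IsPGroup p P) (c m : ℕ) (hm1 : 1 ≤ m) (hm : ∀ L K : Subgroup G, IsChief L K → L.relIndex K ≤ m) :
    (∃ M : Fin (c + 1) → Subgroup G, (∀ i, IsCoatom (M i)) ∧
      ∀ i, ¬ (P ⊓ ⨅ (j : Fin (c + 1)) (_ : j ≠ i), M j) ≤ M i) ∨
    (P ⊓ frattini G).relIndex P ≤ m ^ c := by
  classical
  have hfin : Finite (Subgroup G) := inferInstance
  have hex : ∃ k : ℕ, ∃ T : Finset (Subgroup G), T.card = k ∧ (∀ M ∈ T, IsCoatom M) ∧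
      (P ⊓ ⨅ M ∈ T, M) = P ⊓ frattini G := by
    have hS : {M : Subgroup G | IsCoatom M}.Finite := Set.toFinite _
    refine ⟨_, hS.toFinset, rfl, fun M hM => by simpa using hM, ?_⟩
    congr 1
    simp [frattini, Order.radical]
  have hspec := Nat.find_spec hex
  have hmin := fun k hk => Nat.find_min (H := hex) (m := k) hk
  obtain ⟨T, hTc, hTM, hTi⟩ := hspec
  have hirr : ∀ M₀ ∈ T, ¬ (P ⊓ ⨅ M ∈ T.erase M₀, M) ≤ M₀ := by
    intro M₀ hM₀ h
    refine hmin (T.erase M₀).card ?_ ⟨T.erase M₀, rfl,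
      fun M hM => hTM M (Finset.mem_of_mem_erase hM), ?_⟩
    · rw [← hTc]; exact Finset.card_erase_lt_of_mem hM₀
    · rw [← hTi]
      conv_rhs => rw [← Finset.insert_erase hM₀]
      rw [Finset.iInf_insert]
      refine le_antisymm ?_ (inf_le_inf_left _ inf_le_right)
      exact le_inf inf_le_left (le_inf h inf_le_right)
  by_cases hcard : c + 1 ≤ T.card
  · left
    obtain ⟨T', hT', hT'c⟩ := Finset.exists_subset_card_eq hcard
    let e := T'.equivFinOfCardEq hT'c
    refine ⟨fun i => (e.symm i : Subgroup G), fun i => hTM _ (hT' (e.symm i).2), ?_⟩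
    intro i h
    refine hirr _ (hT' (e.symm i).2) (le_trans ?_ h)
    refine inf_le_inf_left _ ?_
    refine le_iInf₂ fun j hj => iInf₂_le _ ?_
    refine Finset.mem_erase.mpr ⟨fun hh => hj ?_, hT' (e.symm j).2⟩
    exact e.symm.injective (Subtype.ext hh)
  · right
    rw [← hTi]
    have hone : ∀ M : Subgroup G, IsCoatom M → (P ⊓ M).relIndex P ≤ m := by
      intro M hM
      by_cases hPM : P ≤ M
      · rw [inf_eq_left.mpr hPM, Subgroup.relIndex_self]; exact hm1
      · exact hm _ _ (maxN hp P hPn hP M hM hPM)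
    have hind : ∀ U : Finset (Subgroup G), (∀ M ∈ U, IsCoatom M) →
        (P ⊓ ⨅ M ∈ U, M).relIndex P ≤ m ^ U.card := by
      intro U
      induction U using Finset.induction_on with
      | empty => intro _; simp
      | insert a U ha ih =>
        intro hU
        rw [Finset.iInf_insert, Finset.card_insert_of_notMem ha]
        have e1 : P ⊓ (a ⊓ ⨅ M ∈ U, M) = (P ⊓ a) ⊓ (P ⊓ ⨅ M ∈ U, M) := by
          rw [inf_inf_distrib_left]
        rw [e1, pow_succ']
        exact Subgroup.relIndex_inf_le.trans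
          (Nat.mul_le_mul (hone a (hU a (Finset.mem_insert_self _ _)))
            (ih fun M hM => hU M (Finset.mem_insert_of_mem hM)))
    exact (hind T hTM).trans (Nat.pow_le_pow_right hm1 (by omega))

end Pool.Agent.HForm
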