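import Pool.Agent.Lib_MP_4009a7_al.MinN

/-!
# Piece FITC: self-centralizing normal subgroups
-/

set_option autoImplicit false

open scoped commutatorElement

namespace Pool.Agent.HForm

variable {G : Type} [Group G]

/-- PROOF. Let `C` be the centralizer of `N`, a normal subgroup, and suppose `C` is not contained in `N`. Let
`Z = C ⊓ N`; it is central in `C` (all elements of `C` centralize `N ≥ Z`). By `exists_isChief_bot` there is `L ≤ C` with
`IsChief Z L`. By `IsChief.elemAb`, `L ⧸ Z` is an `r`-group for a prime `r`. `L` is nilpotent (`Z` central in `L`, and the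
quotient is abelian). Let `S` be a Sylow `r`-subgroup of `L`; it is normal in `G` (`normal_of_sylow_of_nilpotent`), so `S ≤ N` by
hypothesis. As `L ⧸ Z` is an `r`-group, `L = Z ⊔ S` (the index of `Z ⊔ S` in `L` is a power of `r` and prime to
`r`). So `L ≤ N`, `L ≤ C ⊓ N = Z`, contradiction. -/
theorem centralizer_le [Finite G] [Group.IsSolvable G] (N : Subgroup G) (hN : N.Normal)
    (h : ∀ r : ℕ, r.Prime → ∀ M : Subgroup G, M.Normal → IsPGroup r M → M ≤ N) :
    Subgroup.centralizer (N : Set G) ≤ N := by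
  by_contra hcon
  set C := Subgroup.centralizer (N : Set G) with hC
  have hCn : C.Normal := by rw [hC]; infer_instance
  set Z := C ⊓ N with hZ
  have hZn : Z.Normal := by rw [hZ]; infer_instance
  have hZC : Z < C := by
    refine lt_of_le_of_ne inf_le_left ?_
    intro e
    exact hcon (inf_eq_left.mp e)
  obtain ⟨L, hLC, hL⟩ := exists_isChief_bot hZn hCn hZC
  obtain ⟨r, hr, hpow, hcomm⟩ := hL.elemAb
  have hLn : L.Normal := hL.2.1
  have hZL : Z < L := hL.2.2.1
  have hnil : Group.IsNilpotent L := by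
    rw [Subgroup.isNilpotent_iff_lowerCentralSeries]
    refine ⟨2, ?_⟩
    rw [Subgroup.lowerCentralSeries_succ, Subgroup.lowerCentralSeries_succ,
      Subgroup.lowerCentralSeries_zero, eq_bot_iff, Subgroup.commutator_le]
    intro x hx y hy
    have hx' : x ∈ Z := by
      have : ⁅L, L⁆ ≤ Z := by
        rw [Subgroup.commutator_le]
        exact fun a ha b hb => hcomm a ha b hb
      exact this hx
    rw [Subgroup.mem_bot, commutatorElement_eq_one_iff_mul_comm]
    have hy' : y ∈ Subgroup.centralizer (N : Set G) := hLC hy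
    rw [Subgroup.mem_centralizer_iff] at hy'
    exact hy' x hx'.2
  have hrel : ∀ y ∈ L, ∀ k : ℕ, y ^ r ^ k = 1 → y ∈ Z := by
    intro y hy k hk
    have : Fact r.Prime := ⟨hr⟩
    have hP : IsPGroup r (Subgroup.zpowers (⟨y, hy⟩ : L)) := by
      rw [IsPGroup.iff_orderOf]
      rintro ⟨z, hz⟩
      obtain ⟨i, rfl⟩ := Subgroup.mem_zpowers_iff.mp hz
      have h1 : orderOf (⟨(⟨y, hy⟩ : L) ^ i, hz⟩ : Subgroup.zpowers (⟨y, hy⟩ : L)) ∣ r ^ k := by
        apply orderOf_dvd_of_pow_eq_one
        apply Subtype.ext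
        apply Subtype.ext
        simp only [SubmonoidClass.coe_pow, SubgroupClass.coe_zpow, OneMemClass.coe_one]
        rw [← zpow_natCast, ← zpow_mul, mul_comm, zpow_mul, zpow_natCast, hk, one_zpow]
      obtain ⟨j, _, hj⟩ := (Nat.dvd_prime_pow hr).mp h1
      exact ⟨j, hj⟩
    obtain ⟨Q, hQ⟩ := hP.exists_le_sylow
    have hQn := normal_of_sylow_of_nilpotent hr hLn hnil Q
    have hQp : IsPGroup r ((Q : Subgroup L).map L.subtype) := Q.isPGroup'.map _
    have hQN := h r hr _ hQn hQp
    have hyN : y ∈ N := by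
      apply hQN
      refine ⟨⟨y, hy⟩, ?_, rfl⟩
      exact hQ (Subgroup.mem_zpowers _)
    exact ⟨hLC hy, hyN⟩
  apply hZL.not_ge
  intro x hx
  obtain ⟨a, m, hm, hxm⟩ := Nat.exists_eq_pow_mul_and_not_dvd (orderOf_pos x).ne' r hr.ne_one
  have h1 : x ^ m ∈ Z := by
    apply hrel _ (L.pow_mem hx m) a
    rw [← pow_mul, mul_comm, ← hxm]
    exact pow_orderOf_eq_one x
  have h2 : x ^ r ∈ Z := hpow x hx
  have h3 : (x : G ⧸ Z) ^ m = 1 := by
    rw [← QuotientGroup.mk_pow, QuotientGroup.eq_one_iff]
    exact h1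
  have h4 : (x : G ⧸ Z) ^ r = 1 := by
    rw [← QuotientGroup.mk_pow, QuotientGroup.eq_one_iff]
    exact h2
  have h5 : (x : G ⧸ Z) ^ (Nat.gcd r m) = 1 := pow_gcd_eq_one.mpr ⟨h4, h3⟩
  rw [(Nat.Prime.coprime_iff_not_dvd hr).mpr hm, pow_one, QuotientGroup.eq_one_iff] at h5
  exact h5

open Pointwise in
private theorem card_sup_le [Finite G] (A B : Subgroup G) [B.Normal] :
    Nat.card ↥(A ⊔ B) ≤ Nat.card A * Nat.card B := by
  have h1 : ((A ⊔ B : Subgroup G) : Set G) = (A : Set G) * (B : Set G) := by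
    rw [Subgroup.mul_normal]
  have h2 : Nat.card ↥(A ⊔ B) = Nat.card ((A : Set G) * (B : Set G) : Set G) := by
    rw [← h1]; rfl
  rw [h2]
  exact Set.natCard_mul_le

private theorem card_iSup_pcore_le [Finite G] (B : ℕ) (hB : 1 ≤ B)
    (h : ∀ r : ℕ, r.Prime → ∀ M : Subgroup G, M.Normal → IsPGroup r M → Nat.card M ≤ B) (e : ℕ) :
    ∃ N : Subgroup G, N.Normal ∧ Nat.card N ≤ B ^ e ∧
      ∀ r : ℕ, r.Prime → r < e → ∀ M : Subgroup G, M.Normal → IsPGroup r M → M ≤ N := by
  induction e with
  | zero =>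
    refine ⟨⊥, inferInstance, by simp, ?_⟩
    intro r _ hr
    omega
  | succ e ih =>
    obtain ⟨N, hN, hcard, hmem⟩ := ih
    by_cases he : e.Prime
    · refine ⟨N ⊔ pcore e G, inferInstance, ?_, ?_⟩
      · refine (card_sup_le _ _).trans ?_
        rw [pow_succ]
        exact Nat.mul_le_mul hcard (h e he _ inferInstance (pcore_isPGroup he))
      · intro r hr hre M hM hMp
        rcases Nat.lt_succ_iff_lt_or_eq.mp hre with h1 | h1
        · exact (hmem r hr h1 M hM hMp).trans le_sup_left
        · subst h1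
          exact (le_pcore hM hMp).trans le_sup_right
    · refine ⟨N, hN, ?_, ?_⟩
      · refine hcard.trans ?_
        rw [pow_succ]
        exact Nat.le_mul_of_pos_right _ hB
      · intro r hr hre M hM hMp
        rcases Nat.lt_succ_iff_lt_or_eq.mp hre with h1 | h1
        · exact hmem r hr h1 M hM hMp
        · subst h1
          exact absurd hr he

/-- PROOF. Let `N = ⨆ r ∈ range (e+1), r prime, pcore r G`, a normal subgroup of order at most `B ^ e`. Every normal
`r`-subgroup is contained in `N` (if `r` divides the order then `r ≤ e` since an element of order `r` exists; otherwise it is trivial).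
By `centralizer_le` the kernel of the conjugation action `G → Equiv.Perm N` is contained in `N`. So
`Nat.card G ≤ Nat.card N * (Nat.card N)!`. -/
theorem card_le_of_pcore (e B : ℕ) : ∃ b : ℕ, ∀ (G : Type) [Group G], Finite G → Group.IsSolvable G →
    0 < e → (∀ x : G, x ^ e = 1) →
    (∀ r : ℕ, r.Prime → ∀ M : Subgroup G, M.Normal → IsPGroup r M → Nat.card M ≤ B) → Nat.card G ≤ b := by
  refine ⟨((max B 1) ^ (e + 1)).factorial * (max B 1) ^ (e + 1), ?_⟩
  intro G _ hfin hsol he hexp hB
  obtain ⟨N, hN, hcard, hmem⟩ := card_iSup_pcore_le (G := G) (max B 1) (le_max_right _ _)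
    (fun r hr M hM hMp => (hB r hr M hM hMp).trans (le_max_left _ _)) (e + 1)
  have hall : ∀ r : ℕ, r.Prime → ∀ M : Subgroup G, M.Normal → IsPGroup r M → M ≤ N := by
    intro r hr M hM hMp
    by_cases hre : r < e + 1
    · exact hmem r hr hre M hM hMp
    · intro x hx
      have : Fact r.Prime := ⟨hr⟩
      obtain ⟨k, hk⟩ := hMp ⟨x, hx⟩
      have hk' : x ^ r ^ k = 1 := by
        have := congrArg Subtype.val hk
        simpa using this
      have h1 : x ^ (Nat.gcd (r ^ k) e) = 1 := pow_gcd_eq_one.mpr ⟨hk', hexp x⟩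
      have h2 : Nat.gcd (r ^ k) e = 1 := by
        apply Nat.Coprime.pow_left
        rw [Nat.Prime.coprime_iff_not_dvd hr]
        intro hdvd
        have := Nat.le_of_dvd he hdvd
        omega
      rw [h2, pow_one] at h1
      rw [h1]
      exact N.one_mem
  have hcent := centralizer_le N hN hall
  let f : G →* Equiv.Perm N := (MulAut.toPerm N).comp MulAut.conjNormal
  have hker : f.ker ≤ N := by
    refine le_trans ?_ hcent
    intro x hx
    rw [Subgroup.mem_centralizer_iff]
    intro y hy
    have h1 : f x ⟨y, hy⟩ = ⟨y, hy⟩ := by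
      rw [MonoidHom.mem_ker.mp hx]
      rfl
    have h2 : x * y * x⁻¹ = y := congrArg Subtype.val h1
    calc y * x = (x * y * x⁻¹) * x := by rw [h2]
      _ = x * y := by group
  have h1 : f.ker.index ≤ (Nat.card N).factorial := by
    rw [Subgroup.index_ker, ← Nat.card_perm]
    exact Subgroup.card_le_card_group _
  have h2 : Nat.card f.ker ≤ Nat.card N :=
    Nat.card_le_card_of_injective _ (Subgroup.inclusion_injective hker)
  rw [← Subgroup.index_mul_card f.ker]
  exact Nat.mul_le_mul (h1.trans (Nat.factorial_le hcard)) (h2.trans hcard)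

end Pool.Agent.HForm
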