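import Pool.Agent.Lib_MP_4009a7_al.MaxN
import Pool.Agent.Lib_MP_4009a7_al.FitC

/-!
# Piece PHIP: the action on `P / (P ⊓ Frattini)`
-/

set_option autoImplicit false

open scoped commutatorElement

namespace Pool.Agent.HForm

variable {G : Type} [Group G]

/-- If `Φ` is normal and contained in the Frattini subgroup, then the normal `r`-subgroups of `G ⧸ Φ` come from
normal `r`-subgroups. -/
theorem phiP_lift [Finite G] {r : ℕ} (hr : r.Prime) (Q : Subgroup G) [Q.Normal]
    (hQ : Q ≤ frattini G) (M : Subgroup (G ⧸ Q)) (hM : M.Normal) (hMr : IsPGroup r M) :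
    ∃ R : Subgroup G, R.Normal ∧ IsPGroup r R ∧ M ≤ R.map (QuotientGroup.mk' Q) := by
  have : Fact r.Prime := ⟨hr⟩
  have hker : (QuotientGroup.mk' Q).ker = Q := QuotientGroup.ker_mk' Q
  have hsurj := QuotientGroup.mk'_surjective Q
  -- the preimage of `M`
  obtain ⟨L, hL, hLn, hQL⟩ : ∃ L : Subgroup G, L.map (QuotientGroup.mk' Q) = M ∧ L.Normal ∧ Q ≤ L :=
    ⟨M.comap (QuotientGroup.mk' Q), Subgroup.map_comap_eq_self_of_surjective hsurj M, hM.comap _,
      hker.ge.trans ((QuotientGroup.mk' Q).ker_le_comap M)⟩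
  obtain ⟨R⟩ : Nonempty (Sylow r L) := inferInstance
  have hRr : IsPGroup r ((R : Subgroup L).map L.subtype) := R.isPGroup'.map _
  -- `L = Q ⊔ R`
  have h1 : (Q.subgroupOf L ⊔ (R : Subgroup L)).index ∣ (Q.subgroupOf L).index :=
    Subgroup.index_dvd_of_le le_sup_left
  have h2 : (Q.subgroupOf L ⊔ (R : Subgroup L)).index ∣ (R : Subgroup L).index :=
    Subgroup.index_dvd_of_le le_sup_right
  have h3 : (Q.subgroupOf L).index = Nat.card M := by
    have h4 := Subgroup.relIndex_ker L (QuotientGroup.mk' Q)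
    rw [hker, hL] at h4
    exact h4
  obtain ⟨n, hn⟩ := IsPGroup.iff_card.1 hMr
  have h5 : (Q.subgroupOf L ⊔ (R : Subgroup L)).index = 1 := by
    rw [h3, hn] at h1
    obtain ⟨m, _, hm⟩ := (Nat.dvd_prime_pow hr).1 h1
    rcases Nat.eq_zero_or_pos m with h0 | h0
    · rw [hm, h0, pow_zero]
    · exfalso
      apply Sylow.not_dvd_index R
      refine dvd_trans ?_ h2
      rw [hm]
      exact dvd_pow_self r (by omega)
  have h6 : Q.subgroupOf L ⊔ (R : Subgroup L) = ⊤ := Subgroup.index_eq_one.1 h5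
  have h7 : L = Q ⊔ (R : Subgroup L).map L.subtype := by
    have h8 := congrArg (Subgroup.map L.subtype) h6
    rw [Subgroup.map_sup, Subgroup.subgroupOf_map_subtype, inf_eq_left.2 hQL,
      ← MonoidHom.range_eq_map, Subgroup.range_subtype] at h8
    exact h8.symm
  -- Frattini's argument
  have h9 := Sylow.normalizer_sup_eq_top R
  have h10 : Subgroup.normalizer (((R : Subgroup L).map L.subtype : Subgroup G) : Set G) ⊔
      frattini G = ⊤ := by
    rw [eq_top_iff, ← h9]
    exact sup_le le_sup_left (h7.le.trans (sup_le (hQ.trans le_sup_right)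
      (Subgroup.le_normalizer.trans le_sup_left)))
  have h11 := frattini_nongenerating h10
  refine ⟨(R : Subgroup L).map L.subtype, Subgroup.normalizer_eq_top_iff.1 h11, hRr, ?_⟩
  rw [← hL]
  refine (Subgroup.map_mono h7.le).trans ?_
  rw [Subgroup.map_sup]
  refine sup_le ?_ ?_
  · rw [(Subgroup.map_eq_bot_iff Q).2 hker.ge]
    exact bot_le
  · exact le_rfl

/-- Let `P` be a normal `p`-subgroup containing all normal subgroups of prime power order (so `P` is the Fitting subgroup). Then an element which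
centralizes `P / Φ`, `Φ = P ⊓ frattini G`, is in `P`.
PROOF. Let `Φ = P ⊓ frattini G` (normal) and `C = {g | ∀ x ∈ P, ⁅g, x⁆ ∈ Φ}`, a normal subgroup (`⁅g, x⁆ ∈ P` is automatic). `P ≤ C`: for each coatom
`M` with `¬ P ≤ M`, `P / (P ⊓ M)` is a chief factor (`maxN`), so abelian (`IsChief.elemAb`), so `⁅P, P⁆ ≤ M`; if `P ≤ M` this is clear; so
`⁅P, P⁆ ≤ frattini G` (the infimum of the coatoms). Suppose `C` is not contained in `P`. Let `L ≤ C`, `IsChief P L` (`exists_isChief_bot`), an `r`-group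
modulo `P`. If `r = p`, `L` is a normal `p`-subgroup, so `L ≤ P`, contradiction. So `r ≠ p`. Let `R` be a Sylow
`r`-subgroup of `L` (as a subgroup of `G`): `L = P ⊔ R`. As `R ≤ C`, `⁅R, P⁆ ≤ Φ`, so `P` normalises `R ⊔ Φ`. By Frattini's argument
`G = L ⊔ N_G(R) = P ⊔ N_G(R)` (`Sylow.normalizer_sup_eq_top`), and `N_G(R)` normalises `R ⊔ Φ`. So `R ⊔ Φ` is normal in `G`, `R` is a
Sylow `r`-subgroup of it (`Φ` is a `p`-group), and again by Frattini's argument `G = (R ⊔ Φ) ⊔ N_G(R) = Φ ⊔ N_G(R)`. As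
`Φ ≤ frattini G` this gives `N_G(R) = ⊤` (otherwise `N_G(R)` is contained in a coatom, which also contains `Φ`). So `R` is a
normal `r`-subgroup, so `R ≤ P` by hypothesis, so `R = ⊥` and `L = P`, contradiction. -/
theorem mem_of_centralizes [Finite G] [Group.IsSolvable G] {p : ℕ} (hp : p.Prime) (P : Subgroup G)
    (hPn : P.Normal) (hP : IsPGroup p P)
    (h : ∀ r : ℕ, r.Prime → ∀ M : Subgroup G, M.Normal → IsPGroup r M → M ≤ P)
    (g : G) (hg : ∀ x ∈ P, ⁅g, x⁆ ∈ frattini G) : g ∈ P := by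
  obtain ⟨Q, hQ⟩ : ∃ Q : Subgroup G, Q = P ⊓ frattini G := ⟨_, rfl⟩
  have hQn : Q.Normal := by
    rw [hQ]
    infer_instance
  have hker : (QuotientGroup.mk' Q).ker = Q := QuotientGroup.ker_mk' Q
  have hsurj := QuotientGroup.mk'_surjective Q
  have hN : (P.map (QuotientGroup.mk' Q)).Normal := hPn.map _ hsurj
  have h1 := centralizer_le (P.map (QuotientGroup.mk' Q)) hN (fun r hr M hM hMr => by
    obtain ⟨R, hR1, hR2, hR3⟩ := phiP_lift hr Q (by rw [hQ]; exact inf_le_right) M hM hMr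
    exact hR3.trans (Subgroup.map_mono (h r hr R hR1 hR2)))
  have h2 : QuotientGroup.mk' Q g ∈ Subgroup.centralizer (P.map (QuotientGroup.mk' Q) : Set (G ⧸ Q)) := by
    rw [Subgroup.mem_centralizer_iff]
    rintro _ ⟨x, hx, rfl⟩
    have h3 : ⁅g, x⁆ ∈ Q := by
      rw [hQ]
      refine ⟨?_, hg x hx⟩
      rw [commutatorElement_def]
      exact P.mul_mem (hPn.conj_mem x hx g) (P.inv_mem hx)
    have h4 : QuotientGroup.mk' Q ⁅g, x⁆ = 1 := (QuotientGroup.eq_one_iff _).2 h3
    rw [map_commutatorElement, commutatorElement_eq_one_iff_mul_comm] at h4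
    exact h4.symm
  obtain ⟨x, hx, hxg⟩ := h1 h2
  have h5 : x⁻¹ * g ∈ Q := by
    rw [← QuotientGroup.eq_one_iff (N := Q)]
    have : QuotientGroup.mk' Q (x⁻¹ * g) = 1 := by
      rw [map_mul, map_inv, hxg, inv_mul_cancel]
    exact this
  have h6 : x⁻¹ * g ∈ P := by
    rw [hQ] at h5
    exact h5.1
  have := P.mul_mem hx h6
  rwa [mul_inv_cancel_left] at this

/-- the index bound. PROOF. `Φ = P ⊓ frattini G`; `G` acts on `P ⧸ Φ` by conjugation, the kernel is contained in `P` by
`mem_of_centralizes`; so `P.index ≤ (Φ.relIndex P)!`. -/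
theorem index_le_factorial [Finite G] [Group.IsSolvable G] {p : ℕ} (hp : p.Prime) (P : Subgroup G)
    (hPn : P.Normal) (hP : IsPGroup p P)
    (h : ∀ r : ℕ, r.Prime → ∀ M : Subgroup G, M.Normal → IsPGroup r M → M ≤ P) :
    P.index ≤ ((P ⊓ frattini G).relIndex P).factorial := by
  obtain ⟨Q, hQ⟩ : ∃ Q : Subgroup G, Q = P ⊓ frattini G := ⟨_, rfl⟩
  have hQn : Q.Normal := by
    rw [hQ]
    infer_instance
  rw [← hQ]
  have hker : (QuotientGroup.mk' Q).ker = Q := QuotientGroup.ker_mk' Q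
  have hsurj := QuotientGroup.mk'_surjective Q
  have hN : (P.map (QuotientGroup.mk' Q)).Normal := hPn.map _ hsurj
  have hcard : Q.relIndex P = Nat.card (P.map (QuotientGroup.mk' Q)) := by
    have h4 := Subgroup.relIndex_ker P (QuotientGroup.mk' Q)
    rwa [hker] at h4
  let f : G →* Equiv.Perm (P.map (QuotientGroup.mk' Q)) :=
    (MulAut.toPerm _).comp ((MulAut.conjNormal (H := P.map (QuotientGroup.mk' Q))).comp
      (QuotientGroup.mk' Q))
  have hf : f.ker ≤ P := by
    intro g hg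
    refine mem_of_centralizes hp P hPn hP h g fun x hx => ?_
    rw [MonoidHom.mem_ker] at hg
    have h1 := congrArg (fun e : Equiv.Perm (P.map (QuotientGroup.mk' Q)) =>
      ((e ⟨QuotientGroup.mk' Q x, Subgroup.mem_map_of_mem _ hx⟩ :
        P.map (QuotientGroup.mk' Q)) : G ⧸ Q)) hg
    have h2 : QuotientGroup.mk' Q g * QuotientGroup.mk' Q x * (QuotientGroup.mk' Q g)⁻¹ =
        QuotientGroup.mk' Q x := h1
    have h3 : QuotientGroup.mk' Q ⁅g, x⁆ = 1 := by
      rw [commutatorElement_def, map_mul, map_mul, map_mul, map_inv, map_inv, h2, mul_inv_cancel]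
    have h4 : ⁅g, x⁆ ∈ Q := (QuotientGroup.eq_one_iff _).1 h3
    rw [hQ] at h4
    exact h4.2
  calc P.index ≤ f.ker.index :=
        Nat.le_of_dvd (Nat.pos_of_ne_zero Subgroup.index_ne_zero_of_finite)
          (Subgroup.index_dvd_of_le hf)
    _ = Nat.card f.range := Subgroup.index_ker f
    _ ≤ Nat.card (Equiv.Perm (P.map (QuotientGroup.mk' Q))) :=
        Nat.card_le_card_of_injective _ Subtype.val_injective
    _ = (Q.relIndex P).factorial := by rw [Nat.card_perm, hcard]

end Pool.Agent.HForm
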