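import Pool.Agent.Lib_MP_4009a7_al.OG
import Pool.Agent.Lib_MP_4009a7_al.Burn
import Pool.Agent.Lib_MP_4009a7_al.PhiP
import Pool.Agent.Lib_MP_4009a7_al.Indep

/-!
# Piece CRIT: bounded chief factors, class and exponent imply one-generated
-/

set_option autoImplicit false

open scoped commutatorElement

namespace Pool.Agent.HForm

variable {F : GClass}

/-- generators modulo a subgroup of the Frattini subgroup -/
theorem crit_gens {G : Type} [Group G] [Finite G] (Φ : Subgroup G) (hΦ : Φ ≤ frattini G) :
    ∃ S : Finset G, S.card ≤ Φ.index ∧ Subgroup.closure (S : Set G) = ⊤ := by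
  classical
  have : Fintype (G ⧸ Φ) := Fintype.ofFinite _
  refine ⟨Finset.univ.image (fun q : G ⧸ Φ => q.out), ?_, ?_⟩
  · refine Finset.card_image_le.trans ?_
    rw [Finset.card_univ, ← Nat.card_eq_fintype_card]
    exact le_rfl
  · apply frattini_nongenerating
    rw [eq_top_iff]
    intro g _
    have h1 : (QuotientGroup.mk (s := Φ) g).out⁻¹ * g ∈ Φ := by
      rw [← QuotientGroup.eq]
      exact Quotient.out_eq _
    have h2 : (QuotientGroup.mk (s := Φ) g).out ∈
        Subgroup.closure ((Finset.univ.image (fun q : G ⧸ Φ => q.out) : Finset G) : Set G) := by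
      apply Subgroup.subset_closure
      rw [Finset.coe_image]
      exact ⟨_, Finset.mem_coe.2 (Finset.mem_univ _), rfl⟩
    have h3 := Subgroup.mul_mem_sup h2 (hΦ h1)
    rwa [mul_inv_cancel_left] at h3

/-- a tuple from a finite set, padded with ones -/
theorem crit_tuple {P : Type} [Group P] (T : Finset P) {N : ℕ} (h : T.card ≤ N)
    (hT : Subgroup.closure (T : Set P) = ⊤) : ∃ t : Fin N → P, Subgroup.closure (Set.range t) = ⊤ := by
  classical
  refine ⟨fun i => if hi : (i : ℕ) < T.card then (T.equivFin.symm ⟨i, hi⟩ : P) else 1, ?_⟩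
  rw [eq_top_iff, ← hT]
  refine Subgroup.closure_mono fun x hx => ?_
  have hi : ((T.equivFin ⟨x, hx⟩ : Fin T.card) : ℕ) < T.card := (T.equivFin ⟨x, hx⟩).2
  refine ⟨⟨(T.equivFin ⟨x, hx⟩ : Fin T.card), lt_of_lt_of_le hi h⟩, ?_⟩
  simp only [hi, dif_pos, Fin.eta, Equiv.symm_apply_apply]

theorem crit_lcs_top {G : Type} [Group G] {P : Subgroup G} {c : ℕ} :
    P.lowerCentralSeries c = ⊥ ↔ (⊤ : Subgroup P).lowerCentralSeries c = ⊥ := by
  rw [← Subgroup.top_subtype_lowerCentralSeries, Subgroup.map_eq_bot_iff_of_injective _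
    P.subtype_injective]

/-- PROOF. Monolithic groups without `c + 1` independent coatoms are small. Let `B = m ^ c`. The index of `Φ = P ⊓ frattini G` in `P` is `≤ B`, so
`P.index ≤ B!` (`index_le_factorial`) and `Φ.index ≤ B * B!`. A set of representatives of the cosets of `Φ` generates `G` modulo
`Φ ≤ frattini G`, so it generates `G` (`frattini_nongenerating` or: otherwise the generated subgroup is contained in a coatom which
contains `Φ`). So `G` is generated by `B * B!` elements, so `P` is generated by `(B * B!)^2` elements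
(`Subgroup.exists_finset_card_le_mul`), it has class `≤ c`, so derived length `≤ c` (`derived_of_nilp`) and
exponent dividing `e`; by `burn` its order is bounded. -/
theorem crit_small (c m e : ℕ) (he : 0 < e) : ∃ b : ℕ, ∀ (G : Type) [Group G], Finite G → Group.IsSolvable G →
    (∀ x : G, x ^ e = 1) → ∀ (p : ℕ), p.Prime → ∀ (P : Subgroup G), P.Normal → IsPGroup p P →
    P.lowerCentralSeries c = ⊥ →
    (∀ r : ℕ, r.Prime → ∀ M : Subgroup G, M.Normal → IsPGroup r M → M ≤ P) →
    (P ⊓ frattini G).relIndex P ≤ m ^ c → Nat.card G ≤ b := by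
  set B := m ^ c with hB
  obtain ⟨b', hb'⟩ := burn e c (B.factorial * (B * B.factorial)) he
  refine ⟨b' * B.factorial, ?_⟩
  intro G _ hfin hsol hexp p hp P hPn hP hlc hmax hidx
  have h1 : P.index ≤ B.factorial :=
    (index_le_factorial hp P hPn hP hmax).trans (Nat.factorial_le hidx)
  have h2 : (P ⊓ frattini G).index ≤ B * B.factorial := by
    rw [← Subgroup.relIndex_mul_index (inf_le_left : P ⊓ frattini G ≤ P)]
    exact Nat.mul_le_mul hidx h1
  obtain ⟨S, hS1, hS2⟩ := crit_gens (P ⊓ frattini G) inf_le_right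
  obtain ⟨T, hT1, hT2⟩ := Subgroup.exists_finset_card_le_mul P hS2
  obtain ⟨t, ht⟩ := crit_tuple T (hT1.trans (Nat.mul_le_mul h1 (hS1.trans h2))) hT2
  obtain ⟨-, h3⟩ := hb' P t ht (fun x => by
    have := hexp x
    apply Subtype.ext
    simpa using this) (derived_of_nilp (crit_lcs_top.1 hlc))
  rw [← Subgroup.card_mul_index P]
  exact Nat.mul_le_mul h3 h1

theorem crit_lift {G H : Type} [Group G] [Group H] {n : ℕ} (w : FreeGroup (Fin n)) (f : G →* H)
    (t : Fin n → G) : FreeGroup.lift (fun i => f (t i)) w = f (FreeGroup.lift t w) := by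
  have h : FreeGroup.lift (fun i => f (t i)) = f.comp (FreeGroup.lift t) := by
    apply FreeGroup.ext_hom
    intro i
    simp
  rw [h]
  rfl

/-- PROOF. Let `b` be from `crit_small` (with `max m 1`) and `G₀ ∈ F` from `exists_universal` for `N = b`. By `oneGen_of_laws` it is enough
to show that every `G ∈ F` satisfies every law `w` of `G₀`. Strong induction on `Nat.card G`. If `Nat.card G ≤ b`, `G` embeds
into `G₀`. Let `Nat.card G > b ≥ 1`. All proper subgroups and proper quotients satisfy `w` by induction. If `G` has two different minimal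
normal subgroups `N₁`, `N₂` then `N₁ ⊓ N₂ = ⊥` and `G` embeds into `G ⧸ N₁ × G ⧸ N₂`, so `w` is a law of `G`. Otherwise
let `N` be the unique minimal normal subgroup, a `p`-group (`IsMinNormal.elemAb`), and `P = pcore p G`. A normal `r`-subgroup `M ≠ ⊥` contains
`N`, so `r = p` and `M ≤ P`. `P` is in `F` (`PV.inj`) so it has class `≤ c` (`hcl`; translate between `P.lowerCentralSeries` and
`(⊤ : Subgroup P).lowerCentralSeries`). By `indep_or_small` either there are
`c + 1` independent coatoms and `law_of_indep` applies, or `crit_small` gives `Nat.card G ≤ b`, a contradiction. -/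
theorem crit (hF : PV F) (hs : Soluble F) {e c m : ℕ} (he : 0 < e) (hexp : ExpLe F e)
    (hcl : NilLe F c) (hch : ChiefLe F m) : OneGen F := by
  obtain ⟨b, hb⟩ := crit_small c (max m 1) e he
  obtain ⟨G₀, _, h₀, hemb⟩ := exists_universal hF b
  refine oneGen_of_laws hF h₀ ?_
  suffices H : ∀ (N : ℕ) (G : Type) [Group G], F G → Nat.card G = N →
      ∀ (n : ℕ) (w : FreeGroup (Fin n)), Law w G₀ → Law w G from
    fun G _ hG n w hw => H (Nat.card G) G hG rfl n w hw
  intro N
  induction N using Nat.strong_induction_on with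
  | _ N ih =>
    intro G _ hG hN n w hw
    have hfin : Finite G := hF.fin hG
    have hsol : Group.IsSolvable G := hs G hG
    by_cases hcard : Nat.card G ≤ b
    · obtain ⟨f, hf⟩ := hemb G hG hcard
      intro t
      apply hf
      rw [← crit_lift, map_one]
      exact hw _
    by_cases htriv : (⊤ : Subgroup G) = ⊥
    · intro t
      have : FreeGroup.lift t w ∈ (⊤ : Subgroup G) := Subgroup.mem_top _
      rw [htriv, Subgroup.mem_bot] at this
      exact this
    -- proper quotients
    have hquot : ∀ (M : Subgroup G), M.Normal → M ≠ ⊥ → ∀ t : Fin n → G, FreeGroup.lift t w ∈ M := by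
      intro M hM hM1 t
      have hFq : F (G ⧸ M) := hF.surj (QuotientGroup.mk' M) (QuotientGroup.mk'_surjective M) hG
      have hlt : Nat.card (G ⧸ M) < N := by
        have h1 := Subgroup.card_eq_card_quotient_mul_card_subgroup M
        have h2 : 1 < Nat.card M := (Subgroup.one_lt_card_iff_ne_bot M).2 hM1
        have h3 : 0 < Nat.card (G ⧸ M) := Nat.card_pos
        rw [← hN, h1]
        exact lt_mul_of_one_lt_right h3 h2
      have h4 := ih _ hlt (G ⧸ M) hFq rfl n w hw (fun i => QuotientGroup.mk' M (t i))
      rw [crit_lift] at h4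
      exact (QuotientGroup.eq_one_iff _).1 h4
    -- proper subgroups
    have hsub : ∀ K : Subgroup G, K < ⊤ → Law w K := by
      intro K hK
      have hFK : F K := hF.inj K.subtype K.subtype_injective hG
      refine ih (Nat.card K) ?_ K hFK rfl n w hw
      rw [← hN]
      refine lt_of_le_of_ne (Subgroup.card_le_card_group K) fun h => ?_
      exact hK.ne (Subgroup.eq_top_of_card_eq K h)
    obtain ⟨N₁, -, hN₁⟩ := exists_isMinNormal_le (N := (⊤ : Subgroup G)) inferInstance htriv
    by_cases huniq : ∃ N₂ : Subgroup G, IsMinNormal N₂ ∧ N₂ ≠ N₁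
    · obtain ⟨N₂, hN₂, hne⟩ := huniq
      have hinf : N₁ ⊓ N₂ = ⊥ := by
        have hn : (N₁ ⊓ N₂).Normal := by
          have := hN₁.1
          have := hN₂.1
          infer_instance
        rcases hN₁.2.2 _ hn inf_le_left with h | h
        · exact h
        · have h1 : N₁ ≤ N₂ := by rw [← h]; exact inf_le_right
          rcases hN₂.2.2 _ hN₁.1 h1 with h2 | h2
          · exact absurd h2 hN₁.2.1
          · exact absurd h2.symm hne
      intro t
      have h1 := hquot N₁ hN₁.1 hN₁.2.1 t
      have h2 := hquot N₂ hN₂.1 hN₂.2.1 t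
      have h3 : FreeGroup.lift t w ∈ N₁ ⊓ N₂ := ⟨h1, h2⟩
      rw [hinf, Subgroup.mem_bot] at h3
      exact h3
    · push Not at huniq
      obtain ⟨p, hp, hpN, -⟩ := hN₁.elemAb
      have hpfact : Fact p.Prime := ⟨hp⟩
      have hN₁p : IsPGroup p N₁ := fun x => ⟨1, by
        apply Subtype.ext
        simpa using hpN x x.2⟩
      set P := pcore p G with hPdef
      have hPp : IsPGroup p P := pcore_isPGroup hp
      have hPn : P.Normal := pcore_normal p
      have hmax : ∀ r : ℕ, r.Prime → ∀ M : Subgroup G, M.Normal → IsPGroup r M → M ≤ P := by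
        intro r hr M hM hMr
        by_cases hM1 : M = ⊥
        · rw [hM1]; exact bot_le
        obtain ⟨N', hN'1, hN'2⟩ := exists_isMinNormal_le hM hM1
        have h1 : N' = N₁ := huniq N' hN'2
        subst h1
        have h2 : IsPGroup r N' := hMr.to_le hN'1
        by_cases hrp : r = p
        · subst hrp
          exact le_pcore hM hMr
        · exfalso
          have hrfact : Fact r.Prime := ⟨hr⟩
          have h3 := IsPGroup.disjoint_of_ne r p hrp N' N' h2 hN₁p
          exact hN₁.2.1 (disjoint_self.1 h3)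
      have hFP : F P := hF.inj P.subtype P.subtype_injective hG
      have hlc : P.lowerCentralSeries c = ⊥ := crit_lcs_top.2 (hcl P hFP p hp hPp)
      rcases indep_or_small hp P hPn hPp c (max m 1) (le_max_right _ _)
        (fun L K hLK => (hch G hG L K hLK).trans (le_max_left _ _)) with ⟨M, hM, hind⟩ | hsm
      · exact law_of_indep hp P hPn hPp c hlc M hM hind w hsub
      · exact absurd (hb G hfin hsol (hexp G hG) p hp P hPn hPp hlc hmax hsm) hcard

end Pool.Agent.HForm
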