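import Pool.Agent.Lib_MP_4009a7_al.Beta
import Pool.Agent.Lib_MP_4009a7_al.Crit

/-!
# Piece CHIEF: chief factors have bounded order; Theorem C
-/

set_option autoImplicit false

open scoped commutatorElement

namespace Pool.Agent.HForm

variable {F : GClass}

/-- a normal `p`-subgroup acts trivially in an irreducible representation in characteristic `p`. PROOF. The fixed points of a finite `p`-group on a nontrivial finite `p`-group are nontrivial, and they form an invariant subspace. -/
theorem normal_p_trivial {p : ℕ} (hp : p.Prime) {H V : Type} [Group H] [Finite H] [AddCommGroup V]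
    [Module (ZMod p) V] [Finite V] {ρ : H →* Module.End (ZMod p) V} (hi : Irr ρ) (M : Subgroup H)
    (hM : M.Normal) (hMp : IsPGroup p M) : M ≤ ρ.ker := by
  have : Fact p.Prime := ⟨hp⟩
  have hne : fixed ρ M ≠ ⊥ := by
    intro h0
    let _ : MulAction M V :=
      { smul := fun m v => ρ m v
        one_smul := fun v => by
          change ρ ((1 : M) : H) v = v
          rw [Subgroup.coe_one, map_one, Module.End.one_apply]
        mul_smul := fun a b v => by
          change ρ ((a * b : M) : H) v = ρ a (ρ b v)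
          rw [Subgroup.coe_mul, map_mul, Module.End.mul_apply] }
    obtain ⟨v, hv⟩ := @exists_ne V hi.1 0
    have hpv : p • v = 0 := by
      rw [← Nat.cast_smul_eq_nsmul (ZMod p), CharP.cast_eq_zero, zero_smul]
    have hord : addOrderOf v = p := addOrderOf_eq_prime hpv hv
    have hdvd : p ∣ Nat.card V := by
      rw [← hord]
      exact addOrderOf_dvd_natCard v
    have h0m : (0 : V) ∈ MulAction.fixedPoints M V := fun m => map_zero (ρ m)
    obtain ⟨b, hb, hb0⟩ := hMp.exists_fixed_point_of_prime_dvd_card_of_fixed_point V hdvd h0m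
    have hbm : b ∈ fixed ρ M := fun h hh => hb ⟨h, hh⟩
    rw [h0, Submodule.mem_bot] at hbm
    exact hb0 hbm.symm
  rcases hi.2 _ (fixed_inv ρ hM) with h1 | h1
  · exact absurd h1 hne
  · intro h hh
    rw [MonoidHom.mem_ker]
    refine LinearMap.ext fun v => ?_
    have hv : v ∈ fixed ρ M := by
      rw [h1]
      exact Submodule.mem_top
    exact hv h hh

/-- PROOF. `V` is spanned by the orbit of any nonzero vector, so `Nat.card V ≤ p ^ Nat.card H`. -/
theorem card_le_of_irr {p : ℕ} (hp : p.Prime) {H V : Type} [Group H] [Finite H] [AddCommGroup V]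
    [Module (ZMod p) V] {ρ : H →* Module.End (ZMod p) V} (hi : Irr ρ) : Nat.card V ≤ p ^ Nat.card H := by
  classical
  have : Fact p.Prime := ⟨hp⟩
  have : Fintype H := Fintype.ofFinite H
  obtain ⟨v, hv⟩ := @exists_ne V hi.1 0
  have hinv : Inv ρ (Submodule.span (ZMod p) (Set.range fun h : H => ρ h v)) := by
    intro h u hu
    induction hu using Submodule.span_induction with
    | mem x hx =>
      obtain ⟨g, rfl⟩ := hx
      refine Submodule.subset_span ⟨h * g, ?_⟩
      change ρ (h * g) v = ρ h (ρ g v)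
      rw [map_mul, Module.End.mul_apply]
    | zero =>
      rw [map_zero]
      exact Submodule.zero_mem _
    | add x y _ _ hx hy =>
      rw [map_add]
      exact Submodule.add_mem _ hx hy
    | smul c x _ hx =>
      rw [map_smul]
      exact Submodule.smul_mem _ c hx
  have htop : Submodule.span (ZMod p) (Set.range fun h : H => ρ h v) = ⊤ := by
    rcases hi.2 _ hinv with h1 | h1
    · exfalso
      have h2 : v ∈ Submodule.span (ZMod p) (Set.range fun h : H => ρ h v) := by
        refine Submodule.subset_span ⟨1, ?_⟩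
        change ρ 1 v = v
        rw [map_one, Module.End.one_apply]
      rw [h1, Submodule.mem_bot] at h2
      exact hv h2
    · exact h1
  have hsurj : Function.Surjective
      (Fintype.linearCombination (ZMod p) (fun h : H => ρ h v)) := by
    rw [← LinearMap.range_eq_top, Fintype.range_linearCombination]
    exact htop
  have h3 := Nat.card_le_card_of_surjective _ hsurj
  rwa [Nat.card_fun, Nat.card_zmod] at h3

/-- PROOF. Let `B` be from `beta` (at least `1`) and `b` from `card_le_of_pcore e B`; the bound is `e ^ b` (and at least `1`). Let `K / L` be a chief factor of `G ∈ F`; `IsChief.elab` gives a prime `p` (`p ∣ e` as `K ≠ L`), `exists_secRep` gives `V`, `ρ` irreducible with `F (SD ρ)`. Let `H = G ⧸ ρ.ker` with the faithful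
representation `ρ'` (`exists_quotRep`), irreducible, `F (SD ρ')` (`PV.sd_surj`), `F H`. Normal `r`-subgroups of `H` have order `≤ B` (`beta` for `r ≠ p`; trivial for `r = p` by `normal_p_trivial`). So `Nat.card H ≤ b` and `L.relIndex K = Nat.card V ≤ p ^ b ≤ e ^ b`. -/
theorem exists_chiefLe (hF : PV F) (hs : Soluble F) {e c : ℕ} (he : 0 < e) (hexp : ExpLe F e) (hcl : NilLe F c)
    (hAT : ∀ p q : ℕ, p.Prime → q.Prime → p ≠ q → ¬ Le (AT p q) F)
    (hA3 : ∀ p q r : ℕ, p.Prime → q.Prime → r.Prime → p ≠ q → p ≠ r → q ≠ r → ¬ Le (A3 p q r) F) :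
    ∃ m : ℕ, ChiefLe F m := by
  obtain ⟨B, hB⟩ := beta hF he hexp hcl hAT hA3
  obtain ⟨b, hb⟩ := card_le_of_pcore e (max B 1)
  refine ⟨e ^ b, ?_⟩
  intro G _ hG L K hLK
  have hfin : Finite G := hF.fin hG
  have hsol : Group.IsSolvable G := hs G hG
  obtain ⟨p, hp, h1, h2⟩ := hLK.elemAb
  have : Fact p.Prime := ⟨hp⟩
  have hpe : p ≤ e := by
    refine Nat.le_of_dvd he ?_
    by_contra hnd
    refine hLK.2.2.1.not_ge fun x hx => ?_
    have hcop : Nat.gcd p e = 1 := (Nat.Prime.coprime_iff_not_dvd hp).mpr hnd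
    have hLn : L.Normal := hLK.1
    have h3 : (QuotientGroup.mk' L x) ^ p = 1 := by
      rw [← map_pow]
      exact (QuotientGroup.eq_one_iff _).2 (h1 x hx)
    have h4 : (QuotientGroup.mk' L x) ^ e = 1 := by
      rw [← map_pow, hexp G hG x, map_one]
    have h5 := pow_gcd_eq_one.mpr ⟨h3, h4⟩
    rw [hcop, pow_one] at h5
    exact (QuotientGroup.eq_one_iff _).1 h5
  obtain ⟨V, iV, mV, ρ, hρF, -, hcard, hirr⟩ :=
    exists_secRep hF hp hG L K hLK.1 hLK.2.1 hLK.2.2.1.le h1 h2
  have hir : Irr ρ := hirr hLK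
  obtain ⟨ρ', hρ', hinj⟩ := exists_quotRep ρ
  have hcomp : ρ'.comp (QuotientGroup.mk' ρ.ker) = ρ := MonoidHom.ext fun x => hρ' x
  have hsurj := QuotientGroup.mk'_surjective ρ.ker
  have hir' : Irr ρ' := by
    refine Irr.of_surj (ρ := ρ') (ρ' := ρ) (fun x => ⟨QuotientGroup.mk x, hρ' x⟩) hir fun y => ?_
    obtain ⟨x, rfl⟩ := hsurj y
    exact ⟨x, (hρ' x).symm⟩
  have hSD' : F (SD ρ') := by
    refine hF.sd_surj (QuotientGroup.mk' ρ.ker) hsurj ?_
    rw [hcomp]
    exact hρF
  have hH : F (G ⧸ ρ.ker) := hF.surj (QuotientGroup.mk' ρ.ker) hsurj hG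
  have hHfin : Finite (G ⧸ ρ.ker) := hF.fin hH
  have hHsol : Group.IsSolvable (G ⧸ ρ.ker) := hs _ hH
  have hVfin : Finite V := by
    have h3 : Finite (SD ρ) := hF.fin hρF
    refine Finite.of_injective (fun v : V => (⟨v, 1⟩ : SD ρ)) fun v w hvw => ?_
    exact congrArg SD.v hvw
  have hHcard : Nat.card (G ⧸ ρ.ker) ≤ b := by
    refine hb _ hHfin hHsol he (hexp _ hH) ?_
    intro r hr M hM hMr
    by_cases hrp : p = r
    · subst hrp
      have h3 := normal_p_trivial hp hir' M hM hMr
      have h4 : M = ⊥ := by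
        rw [eq_bot_iff]
        intro x hx
        rw [Subgroup.mem_bot]
        have h5 := MonoidHom.mem_ker.mp (h3 hx)
        exact hinj (h5.trans (map_one ρ').symm)
      rw [h4, Subgroup.card_bot]
      exact le_max_right _ _
    · exact (hB p r hp hr hrp _ V ρ' hSD' hir' hinj M hM hMr).trans (le_max_left _ _)
  rw [← hcard]
  calc Nat.card V ≤ p ^ Nat.card (G ⧸ ρ.ker) := card_le_of_irr hp hir'
    _ ≤ p ^ b := Nat.pow_le_pow_right hp.pos hHcard
    _ ≤ e ^ b := Nat.pow_le_pow_left hpe b

/-- THEOREM C: `exists_chiefLe` and `crit` -/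
theorem thmC (hF : PV F) (hs : Soluble F) {e c : ℕ} (he : 0 < e) (hexp : ExpLe F e) (hcl : NilLe F c)
    (hAT : ∀ p q : ℕ, p.Prime → q.Prime → p ≠ q → ¬ Le (AT p q) F)
    (hA3 : ∀ p q r : ℕ, p.Prime → q.Prime → r.Prime → p ≠ q → p ≠ r → q ≠ r → ¬ Le (A3 p q r) F) :
    OneGen F := by
  obtain ⟨m, hm⟩ := exists_chiefLe hF hs he hexp hcl hAT hA3
  exact crit hF hs he hexp hcl hm

end Pool.Agent.HForm
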