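import Pool.Agent.Lib_MP_4009a7_al.Idem

/-!
# Piece CORE: counting with Sylow subgroups; the bound for `Q`
-/

set_option autoImplicit false

open scoped commutatorElement

namespace Pool.Agent.HForm

/-- PROOF. For a prime `r` let `D` be a Sylow `r`-subgroup of `H`. The `r`-part of `N.index` is `r`-part of `Nat.card H` divided by the `r`-part of `Nat.card N`, and `Nat.card (N ⊓ D)` divides the latter; so the `r`-part of `N.index` divides (is at most) `N.relIndex D ≤ L`.
The primes dividing `N.index` divide `Nat.card H`, so they divide `e` (Cauchy), so there are at most `e` of them (`1 ≤ L`: take `D = ⊥`). `N.index` is the product of its `r`-parts (`Nat.factorization_prod_pow_eq_self`). -/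
theorem index_le_of_sylow {H : Type} [Group H] [Finite H] {e L : ℕ} (he : 0 < e) (hexp : ∀ x : H, x ^ e = 1)
    (N : Subgroup H) (h : ∀ r : ℕ, r.Prime → ∀ D : Subgroup H, IsPGroup r D → N.relIndex D ≤ L) :
    N.index ≤ L ^ e := by
  classical
  have hN0 : N.index ≠ 0 := Subgroup.FiniteIndex.index_ne_zero
  have hL : 1 ≤ L := by
    have h1 := h 2 Nat.prime_two ⊥ (IsPGroup.of_bot)
    rwa [Subgroup.relIndex_bot_right] at h1
  have hr : ∀ r ∈ N.index.primeFactors, r ^ N.index.factorization r ≤ L := by
    intro r hr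
    have hrp : r.Prime := Nat.prime_of_mem_primeFactors hr
    haveI : Fact r.Prime := ⟨hrp⟩
    let D : Sylow r H := default
    have h1 := h r hrp D D.isPGroup'
    refine le_trans ?_ h1
    have ha : Nat.card (N.subgroupOf (D : Subgroup H)) * N.relIndex (D : Subgroup H) =
        Nat.card (D : Subgroup H) := Subgroup.card_mul_index _
    have hDc : Nat.card (D : Subgroup H) = r ^ (Nat.card H).factorization r :=
      Sylow.card_eq_multiplicity D
    have hb0 : N.relIndex (D : Subgroup H) ≠ 0 := Subgroup.FiniteIndex.index_ne_zero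
    have ha0 : Nat.card (N.subgroupOf (D : Subgroup H)) ≠ 0 := Nat.card_pos.ne'
    have hNc : Nat.card N * N.index = Nat.card H := Subgroup.card_mul_index _
    have hNc0 : Nat.card N ≠ 0 := Nat.card_pos.ne'
    have hdvd : Nat.card (N.subgroupOf (D : Subgroup H)) ∣ Nat.card N := by
      have h2 : Nat.card ((N.subgroupOf (D : Subgroup H)).map (D : Subgroup H).subtype) =
          Nat.card (N.subgroupOf (D : Subgroup H)) :=
        Nat.card_congr (Subgroup.equivMapOfInjective _ _
          (Subgroup.subtype_injective _)).symm.toEquiv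
      rw [← h2]
      refine Subgroup.card_dvd_of_le ?_
      rintro _ ⟨y, hy, rfl⟩
      exact Subgroup.mem_subgroupOf.1 hy
    have f1 : (Nat.card (N.subgroupOf (D : Subgroup H)) * N.relIndex (D : Subgroup H)).factorization r =
        (Nat.card (D : Subgroup H)).factorization r := by rw [ha]
    have f2 : (Nat.card N * N.index).factorization r = (Nat.card H).factorization r := by rw [hNc]
    rw [Nat.factorization_mul ha0 hb0, hDc, Nat.factorization_pow, Finsupp.add_apply,
      Finsupp.smul_apply, hrp.factorization_self, smul_eq_mul, mul_one] at f1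
    rw [Nat.factorization_mul hNc0 hN0, Finsupp.add_apply] at f2
    have f3 : (Nat.card (N.subgroupOf (D : Subgroup H))).factorization r ≤
        (Nat.card N).factorization r := (Nat.factorization_le_iff_dvd ha0 hNc0).2 hdvd r
    refine Nat.le_of_dvd (Nat.pos_of_ne_zero hb0) ?_
    rw [hrp.pow_dvd_iff_le_factorization hb0]
    omega
  have hcard : N.index.primeFactors.card ≤ e := by
    have h1 : N.index.primeFactors ⊆ Finset.Icc 1 e := by
      intro r hr
      have hrp : r.Prime := Nat.prime_of_mem_primeFactors hr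
      haveI : Fact r.Prime := ⟨hrp⟩
      have h2 : r ∣ Nat.card H :=
        (Nat.dvd_of_mem_primeFactors hr).trans (Subgroup.index_dvd_card N)
      obtain ⟨x, hx⟩ := exists_prime_orderOf_dvd_card' r h2
      have h3 : r ∣ e := by
        rw [← hx]
        exact orderOf_dvd_of_pow_eq_one (hexp x)
      exact Finset.mem_Icc.2 ⟨hrp.one_le, Nat.le_of_dvd he h3⟩
    have h2 := Finset.card_le_card h1
    rwa [Nat.card_Icc, Nat.add_sub_cancel] at h2
  calc N.index = N.index.factorization.prod (· ^ ·) :=
        (Nat.prod_factorization_pow_eq_self hN0).symm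
    _ = ∏ r ∈ N.index.primeFactors, r ^ N.index.factorization r := rfl
    _ ≤ ∏ _r ∈ N.index.primeFactors, L := Finset.prod_le_prod' hr
    _ = L ^ N.index.primeFactors.card := Finset.prod_const _
    _ ≤ L ^ e := Nat.pow_le_pow_right hL hcard

/-- PROOF. `⨆ h, fixed ρ (cj h K₀)` is an invariant subspace (`fixed_cj`) and nonzero, so it is `⊤`. The intersection `X` of all `cj h K₀` acts trivially on it, so `X = ⊥` (`ρ` is injective). There are `(normalizer K₀).index` conjugates, each is contained in `Q` (`Q` normal)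
with relative index `≤ B`. -/
theorem card_le_core {p B : ℕ} {H V : Type} [Group H] [Finite H] [AddCommGroup V] [Module (ZMod p) V]
    (ρ : H →* Module.End (ZMod p) V) (hi : Irr ρ) (hρ : Function.Injective ρ) (Q : Subgroup H)
    (hQ : Q.Normal) (hB : 1 ≤ B) (K₀ : Subgroup H) (hK : Kern ρ Q K₀ B) :
    Nat.card Q ≤ B ^ (Subgroup.normalizer (K₀ : Set H)).index := by
  classical
  set N : Subgroup H := Subgroup.normalizer (K₀ : Set H) with hNdef
  have hcj1 : cj 1 K₀ = K₀ := by
    ext x
    rw [mem_cj, inv_one, one_mul, mul_one]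
  have hcjcj : ∀ g h : H, cj g (cj h K₀) = cj (g * h) K₀ := by
    intro g h
    ext x
    rw [mem_cj, mem_cj, mem_cj]
    have h1 : h⁻¹ * (g⁻¹ * x * g) * h = (g * h)⁻¹ * x * (g * h) := by group
    rw [h1]
  have hcjn : ∀ n ∈ N, cj n K₀ = K₀ := by
    intro n hn
    ext x
    rw [mem_cj]
    have h1 := (Subgroup.mem_normalizer_iff.1 hn) (n⁻¹ * x * n)
    have h2 : n * (n⁻¹ * x * n) * n⁻¹ = x := by group
    rw [h2] at h1
    exact h1
  have hout : ∀ h : H, cj h K₀ = cj (QuotientGroup.mk h : H ⧸ N).out K₀ := by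
    intro h
    have h1 : (QuotientGroup.mk h : H ⧸ N).out⁻¹ * h ∈ N := by
      rw [← QuotientGroup.eq, QuotientGroup.out_eq']
    have h2 := hcjcj (QuotientGroup.mk h : H ⧸ N).out ((QuotientGroup.mk h : H ⧸ N).out⁻¹ * h)
    rw [hcjn _ h1, mul_inv_cancel_left] at h2
    exact h2.symm
  have hW : (⨆ h : H, fixed ρ (cj h K₀)) = ⊤ := by
    rcases hi.2 (⨆ h : H, fixed ρ (cj h K₀)) (by
      intro g v hv
      have h2 : (⨆ h : H, fixed ρ (cj h K₀)) ≤
          (⨆ h : H, fixed ρ (cj h K₀)).comap (ρ g) := by
        refine iSup_le fun h w hw => ?_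
        rw [Submodule.mem_comap]
        have h3 : ρ g w ∈ fixed ρ (cj g (cj h K₀)) := (fixed_cj g _ w).2 hw
        rw [hcjcj] at h3
        exact (le_iSup (fun h : H => fixed ρ (cj h K₀)) (g * h)) h3
      exact h2 hv) with h1 | h1
    · exfalso
      apply hK.fix
      rw [eq_bot_iff, ← h1]
      have h2 := le_iSup (fun h : H => fixed ρ (cj h K₀)) 1
      simp only [hcj1] at h2
      exact h2
    · exact h1
  have : Fintype (H ⧸ N) := Fintype.ofFinite _
  have hbot : (⨅ q : H ⧸ N, cj q.out K₀) = ⊥ := by
    rw [Subgroup.eq_bot_iff_forall]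
    intro x hx
    rw [Subgroup.mem_iInf] at hx
    have h1 : (⨆ h : H, fixed ρ (cj h K₀)) ≤ LinearMap.ker (ρ x - (1 : Module.End (ZMod p) V)) := by
      refine iSup_le fun h v hv => ?_
      rw [LinearMap.mem_ker, LinearMap.sub_apply, Module.End.one_apply, sub_eq_zero]
      refine hv x ?_
      rw [hout h]
      exact hx _
    rw [hW] at h1
    apply hρ
    refine LinearMap.ext fun v => ?_
    have h2 := h1 (show v ∈ (⊤ : Submodule (ZMod p) V) from trivial)
    rw [LinearMap.mem_ker, LinearMap.sub_apply, Module.End.one_apply, sub_eq_zero] at h2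
    rw [h2, map_one, Module.End.one_apply]
  calc Nat.card Q = (⊥ : Subgroup H).relIndex Q := (Subgroup.relIndex_bot_left Q).symm
    _ = (⨅ q : H ⧸ N, cj q.out K₀).relIndex Q := by rw [hbot]
    _ ≤ ∏ q : H ⧸ N, (cj q.out K₀).relIndex Q := Subgroup.relIndex_iInf_le _
    _ ≤ ∏ _q : H ⧸ N, B := Finset.prod_le_prod' fun q _ => (hK.cj hQ q.out).1.idx
    _ = B ^ N.index := by
        rw [Finset.prod_const, Finset.card_univ, Subgroup.index, Nat.card_eq_fintype_card]

end Pool.Agent.HForm
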