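import Pool.Agent.Lib_MP_4009a7_al.NilB
import Pool.Agent.Lib_MP_4009a7_al.AlG
import Pool.Agent.Lib_MP_4009a7_al.Burn

/-!
# Piece ZORNP: minimal classes of `p`-groups of unbounded class
-/

set_option autoImplicit false

open scoped commutatorElement

namespace Pool.Agent.HForm

variable {F : GClass}

/-- unbounded nilpotency class -/
def Unb (F : GClass) : Prop := ∀ c : ℕ, ∃ (G : Type) (_ : Group G), F G ∧ (⊤ : Subgroup G).lowerCentralSeries c ≠ ⊥

private theorem zp_stab {G : Type} [Group G] {c : ℕ} (hn : Group.IsNilpotent G)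
    (h : (⊤ : Subgroup G).lowerCentralSeries c ≤ (⊤ : Subgroup G).lowerCentralSeries (c + 1)) :
    (⊤ : Subgroup G).lowerCentralSeries c = ⊥ := by
  have heq : (⊤ : Subgroup G).lowerCentralSeries (c + 1) = (⊤ : Subgroup G).lowerCentralSeries c :=
    le_antisymm ((⊤ : Subgroup G).lowerCentralSeries_antitone (Nat.le_succ c)) h
  have h1 : ∀ k : ℕ, (⊤ : Subgroup G).lowerCentralSeries (c + k) =
      (⊤ : Subgroup G).lowerCentralSeries c := by
    intro k
    induction k with
    | zero => rfl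
    | succ k ih =>
      rw [← add_assoc, Subgroup.lowerCentralSeries_succ, ih, ← Subgroup.lowerCentralSeries_succ, heq]
  obtain ⟨n, hn⟩ := Subgroup.nilpotent_iff_lowerCentralSeries.1 hn
  rw [← h1 n, eq_bot_iff, ← hn]
  exact (⊤ : Subgroup G).lowerCentralSeries_antitone (Nat.le_add_left n c)

private theorem zp_transport {X : GClass} (hX : PV X) {D A : Type} [Group D] (hD : X D) {c : ℕ}
    (hc : (⊤ : Subgroup D).lowerCentralSeries c ≠ ⊥) (e : D ≃ A) :
    ∃ μ : Group A, X A ∧ (⊤ : Subgroup A).lowerCentralSeries c ≠ ⊥ := by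
  letI : Group A := e.symm.group
  refine ⟨inferInstance, ?_, ?_⟩
  · exact hX.iso e.symm.mulEquiv.symm hD
  · intro h
    exact hc (lcs_inj h e.symm.mulEquiv.symm.toMonoidHom e.symm.mulEquiv.symm.injective)

private theorem zp_finite (A : Type) [Finite A] : Finite (Group A) := by
  refine Finite.of_injective (fun μ : Group A => ((letI := μ; fun a b => a * b) : A → A → A)) ?_
  intro μ ν h
  exact Group.ext h

/-- a test set. PROOF. Let `b` be from `burn e (c + 1) (c + 1)`. Let `G ∈ X` with `lowerCentralSeries c ≠ ⊥`, nilpotent (`hnil`). `T = G ⧸ lowerCentralSeries (c + 1)` has class exactly `c + 1` (`lowerCentralSeries c ≠ lowerCentralSeries (c + 1)` because `G` is nilpotent). By `exists_gen_class` there is a subgroup `D` of `T` generated by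
`c + 1` elements with `lowerCentralSeries c ≠ ⊥`; derived length `≤ c + 1` (`derived_of_nilp`), so `Nat.card D ≤ b`, and `D ∈ X`. -/
theorem exists_small_test (e c : ℕ) (he : 0 < e) : ∃ b : ℕ, ∀ X : GClass, PV X → ExpLe X e →
    (∀ (G : Type) [Group G], X G → Group.IsNilpotent G) →
    (∃ (G : Type) (_ : Group G), X G ∧ (⊤ : Subgroup G).lowerCentralSeries c ≠ ⊥) →
    ∃ (n : ℕ) (_ : n ≤ b) (μ : Group (Fin n)), X (Fin n) ∧ (⊤ : Subgroup (Fin n)).lowerCentralSeries c ≠ ⊥ := by
  obtain ⟨b, hb⟩ := burn e (c + 1) (c + 1) he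
  refine ⟨b, ?_⟩
  rintro X hX hexp hnil ⟨G, _, hG, hc⟩
  have hN : ((⊤ : Subgroup G).lowerCentralSeries (c + 1)).Normal := inferInstance
  obtain ⟨N, hNe⟩ : ∃ N : Subgroup G, N = (⊤ : Subgroup G).lowerCentralSeries (c + 1) := ⟨_, rfl⟩
  rw [← hNe] at hN
  have hT : X (G ⧸ N) := hX.surj (QuotientGroup.mk' N) (QuotientGroup.mk'_surjective N) hG
  have hmap : ∀ k, (⊤ : Subgroup (G ⧸ N)).lowerCentralSeries k =
      ((⊤ : Subgroup G).lowerCentralSeries k).map (QuotientGroup.mk' N) := by
    intro k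
    rw [Subgroup.map_lowerCentralSeries,
      Subgroup.map_top_of_surjective _ (QuotientGroup.mk'_surjective N)]
  have h1 : (⊤ : Subgroup (G ⧸ N)).lowerCentralSeries (c + 1) = ⊥ := by
    rw [hmap, ← hNe, Subgroup.map_eq_bot_iff, QuotientGroup.ker_mk']
  have h2 : (⊤ : Subgroup (G ⧸ N)).lowerCentralSeries c ≠ ⊥ := by
    intro h3
    rw [hmap, Subgroup.map_eq_bot_iff, QuotientGroup.ker_mk', hNe] at h3
    exact hc (zp_stab (hnil G hG) h3)
  obtain ⟨v, hv⟩ := exists_gen_class h1 h2
  obtain ⟨D, hD⟩ : ∃ D : Subgroup (G ⧸ N), D = Subgroup.closure (Set.range v) := ⟨_, rfl⟩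
  rw [← hD] at hv
  have hXD : X D := hX.inj D.subtype (Subgroup.subtype_injective D) hT
  have hvD : ∀ i, v i ∈ D := fun i => by
    rw [hD]
    exact Subgroup.subset_closure ⟨i, rfl⟩
  have hcl : Subgroup.closure (Set.range (fun i => (⟨v i, hvD i⟩ : D))) = ⊤ := by
    have h3 : (Subgroup.closure (Set.range (fun i => (⟨v i, hvD i⟩ : D)))).map D.subtype =
        (⊤ : Subgroup D).map D.subtype := by
      rw [MonoidHom.map_closure, ← MonoidHom.range_eq_map, Subgroup.range_subtype, ← Set.range_comp]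
      exact hD.symm
    exact Subgroup.map_injective (Subgroup.subtype_injective D) h3
  obtain ⟨hfin, hcard⟩ := hb D _ hcl (hexp D hXD) (derived_of_nilp (lcs_subgroup h1 D))
  obtain ⟨μ, h4, h5⟩ := zp_transport hX hXD hv (Finite.equivFin D)
  exact ⟨Nat.card D, hcard, μ, h4, h5⟩

/-- ZORN. PROOF. Apply Zorn's lemma (downwards) to the set `S` of the `X : GClass` with `PV X`, `Le X F`, `Unb X`, ordered by `Le` (a partial order on functions into `Prop`). Let `C ⊆ S` be a nonempty chain, and `Y G = ∀ X ∈ C, X G`: a pseudovariety, `Le Y F`. `Unb Y`: given `c`, let `b` be from `exists_small_test`. For each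
`X ∈ C` there is a test group `(n, μ)`, `n ≤ b`. There are finitely many pairs `(n, μ)` with `n ≤ b` (group structures on `Fin n` are determined by their multiplication). If for each test pair `t` (with `lowerCentralSeries c ≠ ⊥`) there were `X_t ∈ C` not containing it, let `X` be the smallest of the finitely many `X_t` (a chain): it contains no test pair,
a contradiction. So some test pair is in all `X ∈ C`, so in `Y`. -/
theorem exists_minimal_unb (hF : PV F) {e : ℕ} (he : 0 < e) (hexp : ExpLe F e)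
    (hnil : ∀ (G : Type) [Group G], F G → Group.IsNilpotent G) (hu : Unb F) :
    ∃ X : GClass, PV X ∧ Le X F ∧ Unb X ∧ ∀ H : GClass, PV H → Le H X → Unb H → Le X H := by
  classical
  have hne : Nonempty {X : GClass // PV X ∧ Le X F ∧ Unb X} := ⟨⟨F, hF, fun _ _ h => h, hu⟩⟩
  have hch : ∀ C : Set {X : GClass // PV X ∧ Le X F ∧ Unb X},
      IsChain (fun X Y => Le Y.1 X.1) C → C.Nonempty →
      ∃ Y : {X : GClass // PV X ∧ Le X F ∧ Unb X}, ∀ X ∈ C, Le Y.1 X.1 := by
    rintro C hC ⟨X₀, hX₀⟩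
    refine ⟨⟨fun G _ => ∀ X ∈ C, X.1 G, ?_, ?_, ?_⟩, fun X hX G _ hG => hG X hX⟩
    · refine ⟨fun h => X₀.2.1.fin (h X₀ hX₀), fun X _ => X.2.1.one, ?_, ?_, ?_⟩
      · intro G H _ _ f hf h X hX
        exact X.2.1.surj f hf (h X hX)
      · intro G H _ _ f hf h X hX
        exact X.2.1.inj f hf (h X hX)
      · intro G H _ _ h1 h2 X hX
        exact X.2.1.prod (h1 X hX) (h2 X hX)
    · intro G _ h
      exact X₀.2.2.1 G (h X₀ hX₀)
    · intro c
      obtain ⟨b, hb⟩ := exists_small_test e c he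
      have htest : ∀ X : {X : GClass // PV X ∧ Le X F ∧ Unb X},
          ∃ (n : ℕ) (_ : n ≤ b) (μ : Group (Fin n)), X.1 (Fin n) ∧
            (⊤ : Subgroup (Fin n)).lowerCentralSeries c ≠ ⊥ := fun X =>
        hb X.1 X.2.1 (fun G _ h => hexp G (X.2.2.1 G h)) (fun G _ h => hnil G (X.2.2.1 G h)) (X.2.2.2 c)
      by_contra hcon
      have hbad : ∀ τ : Σ n : Fin (b + 1), Group (Fin n), ∃ X : {X : GClass // PV X ∧ Le X F ∧ Unb X},
          X ∈ C ∧ ((letI := τ.2; (⊤ : Subgroup (Fin τ.1)).lowerCentralSeries c ≠ ⊥) →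
            ¬ (letI := τ.2; X.1 (Fin τ.1))) := by
        intro τ
        by_contra h1
        push Not at h1
        apply hcon
        refine ⟨Fin τ.1, τ.2, fun X hX => (h1 X hX).2, (h1 X₀ hX₀).1⟩
      choose f hfC hf using hbad
      have hall : ∀ s : Finset (Σ n : Fin (b + 1), Group (Fin n)),
          ∃ Z ∈ C, ∀ τ ∈ s, Le Z.1 (f τ).1 := by
        intro s
        induction s using Finset.induction_on with
        | empty => exact ⟨X₀, hX₀, fun τ hτ => absurd hτ (Finset.notMem_empty τ)⟩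
        | insert a s has ih =>
          obtain ⟨Z, hZ, hZs⟩ := ih
          have htot : Le Z.1 (f a).1 ∨ Le (f a).1 Z.1 := by
            by_cases heq : Z = f a
            · left
              rw [heq]
              exact fun _ _ h => h
            · exact (hC hZ (hfC a) heq).symm
          rcases htot with h1 | h1
          · refine ⟨Z, hZ, fun τ hτ => ?_⟩
            rcases Finset.mem_insert.1 hτ with rfl | hτ
            · exact h1
            · exact hZs τ hτ
          · refine ⟨f a, hfC a, fun τ hτ => ?_⟩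
            rcases Finset.mem_insert.1 hτ with rfl | hτ
            · exact fun _ _ h => h
            · exact fun G _ h => hZs τ hτ G (h1 G h)
      have hfin : Finite (Σ n : Fin (b + 1), Group (Fin n)) := by
        have := fun n : Fin (b + 1) => zp_finite (Fin n)
        infer_instance
      have hft := Fintype.ofFinite (Σ n : Fin (b + 1), Group (Fin n))
      obtain ⟨Z, hZ, hZs⟩ := hall Finset.univ
      obtain ⟨n, hn, μ, h1, h2⟩ := htest Z
      exact hf ⟨⟨n, Nat.lt_succ_of_le hn⟩, μ⟩ h2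
        (hZs ⟨⟨n, Nat.lt_succ_of_le hn⟩, μ⟩ (Finset.mem_univ _) (Fin n) h1)
  obtain ⟨m, hm⟩ := exists_maximal_of_nonempty_chains_bounded hch
    (fun {X Y Z} h1 h2 G _ h => h1 G (h2 G h))
  refine ⟨m.1, m.2.1, m.2.2.1, m.2.2.2, ?_⟩
  intro H hH hHm hHu
  exact hm ⟨H, hH, fun G _ h => m.2.2.1 G (hHm G h), hHu⟩ hHm

end Pool.Agent.HForm
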