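import Pool.Agent.Lib_MP_4009a7_al.Cases
import Pool.Agent.Lib_MP_4009a7_al.ZornP

/-!
# Piece CRIT2: the criterion for one-generated formations
-/

set_option autoImplicit false

open scoped commutatorElement

namespace Pool.Agent.HForm

variable {F : GClass}

/-- PROOF. `Unb F`; `exists_minimal_unb` gives `X`. If `Le (A2 p p) X` we are done. Otherwise `Exotic X`: the derived length is unbounded (`thmD`), and a proper hereditary subformation `H` (`pv_iff`) is not `Unb` (otherwise `Le X H`). -/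
theorem exists_A2_or_exotic (hF : PV F) {p e : ℕ} (hp : p.Prime) (he : 0 < e) (hexp : ExpLe F e)
    (h : ∀ (G : Type) [Group G], F G → IsPGroup p G)
    (hc : ¬ ∃ c : ℕ, ∀ (G : Type) [Group G], F G → (⊤ : Subgroup G).lowerCentralSeries c = ⊥) :
    Le (A2 p p) F ∨ ∃ X : GClass, Exotic X ∧ Le X F := by
  have hfp : Fact p.Prime := ⟨hp⟩
  have hu : Unb F := by
    intro c
    by_contra hcon
    push Not at hcon
    exact hc ⟨c, fun G _ hG => hcon G _ hG⟩
  have hnil : ∀ (G : Type) [Group G], F G → Group.IsNilpotent G := by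
    intro G _ hG
    have : Finite G := hF.fin hG
    exact (h G hG).isNilpotent
  obtain ⟨X, hX, hXF, hXu, hmin⟩ := exists_minimal_unb hF he hexp hnil hu
  by_cases hA : Le (A2 p p) X
  · exact Or.inl fun G _ hG => hXF G (hA G hG)
  · refine Or.inr ⟨X, ?_, hXF⟩
    obtain ⟨hX1, hX2⟩ := pv_iff.2 hX
    have hXp : ∀ (G : Type) [Group G], X G → IsPGroup p G := fun G _ hG => h G (hXF G hG)
    have hXe : ExpLe X e := fun G _ hG => hexp G (hXF G hG)
    refine ⟨hX1, hX2, p, hp, hXp, ⟨e, he, hXe⟩, ?_, ?_⟩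
    · rintro ⟨d, hd⟩
      obtain ⟨c, hc'⟩ := thmD hX hp hXp he hXe hd hA
      obtain ⟨G, _, hG, hne⟩ := hXu c
      exact hne (hc' G hG)
    · intro H hH1 hH2 hHX hnXH
      have hHPV : PV H := pv_iff.1 ⟨hH1, hH2⟩
      by_contra hcon
      apply hnXH
      refine hmin H hHPV hHX ?_
      intro c
      by_contra hcon2
      push Not at hcon2
      exact hcon ⟨c, fun G _ hG => hcon2 G _ hG⟩

/-- the list of the minimal ones -/
def InList (X : GClass) : Prop :=
    (∃ p : ℕ, p.Prime ∧ Same X (AbP p)) ∨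
    (∃ p : ℕ, p.Prime ∧ Same X (A2 p p)) ∨
    (∃ p q r : ℕ, p.Prime ∧ q.Prime ∧ r.Prime ∧ p ≠ q ∧ p ≠ r ∧ q ≠ r ∧ Same X (A3 p q r)) ∨
    (∃ p q : ℕ, p.Prime ∧ q.Prime ∧ p ≠ q ∧ Same X (AT p q)) ∨
    Exotic X

private theorem same_refl (X : GClass) : Same X X := fun _ _ => Iff.rfl

/-- PROOF. Suppose `¬ OneGen F`. By `exp_trichotomy` (finitely many primes) either there is a prime `p` with all cyclic `p`-groups in `F` and `AbP p` is contained in `F` (`abP_le`), or the exponent is bounded. In this case, if `NilLe F c` for some `c`, `thmC` shows that `F` contains some `AT p q` or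
`A3 p q r`. Otherwise there is a prime `p ≤ e` such that the `p`-groups in `F` have unbounded class; apply `exists_A2_or_exotic` to `PV.pgroups`. -/
theorem exists_inList (hF : PV F) (hs : Soluble F) (hpr : {p : ℕ | p.Prime ∧ F (Multiplicative (ZMod p))}.Finite)
    (hno : ¬ OneGen F) : ∃ X : GClass, InList X ∧ Le X F := by
  rcases exp_trichotomy hF with ⟨e, he, hexp⟩ | ⟨p, hp, hcyc⟩ | hinf
  · by_cases hnl : ∃ c : ℕ, NilLe F c
    · obtain ⟨c, hc⟩ := hnl
      by_contra hcon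
      apply hno
      refine thmC hF hs he hexp hc ?_ ?_
      · intro p q hp hq hpq hle
        exact hcon ⟨AT p q, Or.inr (Or.inr (Or.inr (Or.inl ⟨p, q, hp, hq, hpq, same_refl _⟩))), hle⟩
      · intro p q r hp hq hr hpq hpr hqr hle
        exact hcon ⟨A3 p q r, Or.inr (Or.inr (Or.inl
          ⟨p, q, r, hp, hq, hr, hpq, hpr, hqr, same_refl _⟩)), hle⟩
    · obtain ⟨p, hp, hunb⟩ : ∃ p : ℕ, p.Prime ∧ ¬ ∃ c : ℕ, ∀ (G : Type) [Group G],
          (F G ∧ IsPGroup p G) → (⊤ : Subgroup G).lowerCentralSeries c = ⊥ := by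
        by_contra hcon
        push Not at hcon
        have hcon' : ∀ p : ℕ, ∃ c : ℕ, p.Prime → ∀ (G : Type) [Group G],
            (F G ∧ IsPGroup p G) → (⊤ : Subgroup G).lowerCentralSeries c = ⊥ := by
          intro p
          by_cases hp : p.Prime
          · obtain ⟨c, hc⟩ := hcon p hp
            exact ⟨c, fun _ => hc⟩
          · exact ⟨0, fun h => absurd h hp⟩
        choose cf hcf using hcon'
        apply hnl
        refine ⟨(Finset.range (e + 1)).sup cf, ?_⟩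
        intro G _ hG p hp hpG
        by_cases hpe : p ≤ e
        · have h1 := hcf p hp G ⟨hG, hpG⟩
          have h2 : cf p ≤ (Finset.range (e + 1)).sup cf :=
            Finset.le_sup (Finset.mem_range.2 (Nat.lt_succ_of_le hpe))
          rw [eq_bot_iff, ← h1]
          exact Subgroup.lowerCentralSeries_antitone _ h2
        · have hfp : Fact p.Prime := ⟨hp⟩
          have hsub : Subsingleton G := by
            refine ⟨fun a b => ?_⟩
            have hone : ∀ x : G, x = 1 := by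
              intro x
              obtain ⟨k, hk⟩ := (IsPGroup.iff_orderOf.1 hpG) x
              have h3 : orderOf x ∣ e := orderOf_dvd_of_pow_eq_one (hexp G hG x)
              rcases k with _ | k
              · rwa [pow_zero, orderOf_eq_one_iff] at hk
              · exfalso
                rw [hk] at h3
                have h4 : p ∣ e := (dvd_pow_self p (Nat.succ_ne_zero k)).trans h3
                exact hpe (Nat.le_of_dvd he h4)
            rw [hone a, hone b]
          exact Subsingleton.elim _ _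
      rcases exists_A2_or_exotic (hF.pgroups p) hp he (fun G _ hG => hexp G hG.1)
          (fun G _ hG => hG.2) hunb with hle | ⟨X, hX, hXF⟩
      · exact ⟨A2 p p, Or.inr (Or.inl ⟨p, hp, same_refl _⟩), fun G _ hG => (hle G hG).1⟩
      · exact ⟨X, Or.inr (Or.inr (Or.inr (Or.inr hX))), fun G _ hG => (hXF G hG).1⟩
  · exact ⟨AbP p, Or.inl ⟨p, hp, same_refl _⟩, abP_le hF hp hcyc⟩
  · exact absurd hpr hinf

private theorem c2_bound (b m : ℕ) : b ^ (b ^ m) ≤ 2 ^ (2 ^ (b + b * m)) := by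
  have h1 : b ≤ 2 ^ b := Nat.lt_two_pow_self.le
  calc b ^ (b ^ m) ≤ (2 ^ b) ^ (b ^ m) := Nat.pow_le_pow_left h1 _
    _ = 2 ^ (b * b ^ m) := (pow_mul 2 b _).symm
    _ ≤ 2 ^ (2 ^ b * (2 ^ b) ^ m) := by
        refine Nat.pow_le_pow_right two_pos ?_
        exact Nat.mul_le_mul h1 (Nat.pow_le_pow_left h1 m)
    _ = 2 ^ (2 ^ (b + b * m)) := by rw [← pow_mul, ← pow_add]

private theorem c2_elAb_iso {p : ℕ} {G H : Type} [Group G] [Group H] (e : G ≃* H)
    (h : ElAb p H) : ElAb p G := by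
  refine ⟨fun x y => e.injective ?_, fun x => e.injective ?_⟩
  · rw [map_mul, map_mul, h.1]
  · rw [map_pow, map_one, h.2]

private theorem c2_tower {p q : ℕ} (hp : p.Prime) (hq : q.Prime) (a : ℕ) :
    2 ^ (2 ^ a) ≤ p ^ (q ^ a) :=
  (Nat.pow_le_pow_right two_pos (Nat.pow_le_pow_left hq.two_le a)).trans
    (Nat.pow_le_pow_left hp.two_le _)

private theorem c2_base {r : ℕ} (hr : r.Prime) (n : ℕ) :
    ∃ (E : Type) (_ : Group E) (t : Fin n → E), Finite E ∧
      Subgroup.closure (Set.range t) = ⊤ ∧ Nat.card E = r ^ n ∧ ElAb r E := by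
  have : NeZero r := ⟨hr.ne_zero⟩
  have hc : Nat.card (Multiplicative (ZMod r)) = r := by
    rw [Nat.card_congr Multiplicative.toAdd, Nat.card_zmod]
  have hfin : Finite (Multiplicative (ZMod r)) :=
    Finite.of_equiv (ZMod r) Multiplicative.ofAdd
  refine ⟨Fin n → Multiplicative (ZMod r), inferInstance,
    fun i => Pi.mulSingle i (Multiplicative.ofAdd (1 : ZMod r)), inferInstance, ?_, ?_, ?_⟩
  · rw [eq_top_iff]
    intro x _
    rw [← Finset.univ_prod_mulSingle x]
    refine Subgroup.prod_mem _ fun i _ => ?_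
    have h1 : (Pi.mulSingle i (x i) : Fin n → Multiplicative (ZMod r)) =
        (Pi.mulSingle i (Multiplicative.ofAdd (1 : ZMod r))) ^ (Multiplicative.toAdd (x i)).val := by
      rw [← Pi.mulSingle_pow, ← ofAdd_nsmul, nsmul_eq_mul, mul_one, ZMod.natCast_zmod_val]
      rfl
    rw [h1]
    exact Subgroup.pow_mem _ (Subgroup.subset_closure (Set.mem_range_self i)) _
  · rw [Nat.card_fun, Nat.card_fin, hc]
  · refine ⟨fun x y => mul_comm x y, fun x => funext fun i => ?_⟩
    show (x i) ^ r = 1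
    have h1 : (x i) ^ Nat.card (Multiplicative (ZMod r)) = 1 := pow_card_eq_one'
    rwa [hc] at h1

/-- the laws of a finite group do not bound `A_p A_q A_r` -/
private theorem c2_a3_not_laws {p q r : ℕ} (hp : p.Prime) (hq : q.Prime) (hr : r.Prime)
    {G₀ : Type} [Group G₀] [Finite G₀]
    (hl : ∀ (G : Type) [Group G], A3 p q r G → ∀ (n : ℕ) (w : FreeGroup (Fin n)), Law w G₀ → Law w G) :
    False := by
  obtain ⟨n, hn⟩ := growth1 (Nat.card G₀)
  obtain ⟨E₀, _, t, hE₀, ht, hcard, hel⟩ := c2_base hr n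
  obtain ⟨E₁, _, s₁, hE₁, hgen₁, hcard₁, N₁, hN₁, hel₁, ⟨e₁⟩⟩ := exists_wreath hq t ht
  obtain ⟨G, _, s, hG, hgen, hcard₂, N, hN, hel₂, ⟨e⟩⟩ := exists_wreath hp s₁ hgen₁
  have hA2 : A2 q r E₁ := ⟨hE₁, N₁, hN₁, hel₁, c2_elAb_iso e₁ hel⟩
  have hA3 : A3 p q r G := ⟨hG, N, hN, hel₂, (pv_A2 q r).iso e.symm hA2⟩
  have h1 := (card_le_of_laws (fun k w hw => hl G hA3 k w hw) s hgen).2
  have h2 : 2 ^ (2 ^ (2 ^ n)) ≤ Nat.card G := by
    refine le_trans ?_ hcard₂
    refine le_trans ?_ (Nat.pow_le_pow_right hp.pos hcard₁)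
    rw [hcard]
    refine le_trans ?_ (c2_tower hp hq _)
    exact Nat.pow_le_pow_right two_pos (Nat.pow_le_pow_right two_pos
      (Nat.pow_le_pow_left hr.two_le n))
  exact absurd (h2.trans h1) (not_le.mpr hn)

/-- the laws of a finite group do not bound `A_p T_q` -/
private theorem c2_at_not_laws {p q : ℕ} (hp : p.Prime) (hq : q.Prime)
    {G₀ : Type} [Group G₀] [Finite G₀]
    (hl : ∀ (G : Type) [Group G], AT p q G → ∀ (n : ℕ) (w : FreeGroup (Fin n)), Law w G₀ → Law w G) :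
    False := by
  obtain ⟨n, hn⟩ := growth2 (Nat.card G₀)
  obtain ⟨E, _, t, hE, ht, hcard⟩ := exists_large_TT hq n
  have hEf : Finite E := hE.1
  obtain ⟨G, _, s, hG, hgen, hcard₂, N, hN, hel₂, ⟨e⟩⟩ := exists_wreath hp t ht
  have hAT : AT p q G := ⟨hG, N, hN, hel₂, (pv_TT q).iso e.symm hE⟩
  have h1 := (card_le_of_laws (fun k w hw => hl G hAT k w hw) s hgen).2
  have h2 : 2 ^ (2 ^ (n * (n - 1) / 2)) ≤ Nat.card G := by
    refine le_trans ?_ hcard₂
    refine le_trans ?_ (Nat.pow_le_pow_right hp.pos hcard)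
    exact c2_tower hp hq _
  exact absurd (h2.trans h1) (not_le.mpr hn)

private theorem c2_pgroup {p : ℕ} {G : Type} [Group G] (h : A2 p p G) : IsPGroup p G := by
  obtain ⟨_, N, hN, ⟨_, h1⟩, _, h2⟩ := h
  intro x
  refine ⟨2, ?_⟩
  have h3 : x ^ p ∈ N := by
    rw [← QuotientGroup.eq_one_iff, QuotientGroup.mk_pow]
    exact h2 _
  have h4 := h1 ⟨x ^ p, h3⟩
  have h5 : (x ^ p) ^ p = 1 := congrArg Subtype.val h4
  rw [pow_two, pow_mul]
  exact h5

/-- PROOF. `OneGen F` and `Le X F`. `X = AbP p` contradicts `OneGen.exp`. `X = A2 p p`: `OneGen.nil` and `a2_unbounded` (`A2 p p` consists of `p`-groups). `X = A3 p q r`, `AT p q`: `a3_not_laws`, `at_not_laws` with `OneGen.laws`. `Exotic X`: `OneGen.nil` bounds the class, hence the derived length (`derived_of_nilp`). -/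
theorem not_oneGen_of_inList (h : OneGen F) {X : GClass} (hX : InList X) (hXF : Le X F) : False := by
  obtain ⟨e, he, hexp⟩ := h.exp
  obtain ⟨c, hc⟩ := h.nil
  obtain ⟨G₀, i₀, hfin, -, hl⟩ := h.laws
  rcases hX with ⟨p, hp, hS⟩ | ⟨p, hp, hS⟩ | ⟨p, q, r, hp, hq, hr, -, -, -, hS⟩ |
    ⟨p, q, hp, hq, -, hS⟩ | ⟨-, -, p, hp, hpg, -, hd, -⟩
  · have : NeZero (p ^ e) := ⟨(pow_pos hp.pos e).ne'⟩
    have hfin : Finite (Multiplicative (ZMod (p ^ e))) := Finite.of_equiv _ Multiplicative.ofAdd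
    have hpow : ∀ (x : Multiplicative (ZMod (p ^ e))) (n : ℕ),
        x ^ n = Multiplicative.ofAdd ((n : ZMod (p ^ e)) * Multiplicative.toAdd x) := by
      intro x n
      rw [← nsmul_eq_mul, ofAdd_nsmul, ofAdd_toAdd]
    have hmem : AbP p (Multiplicative (ZMod (p ^ e))) := by
      refine ⟨hfin, fun x y => mul_comm x y, fun x => ⟨e, ?_⟩⟩
      rw [hpow, CharP.cast_eq_zero, zero_mul]
      rfl
    have h1 := hexp _ (hXF _ ((hS _).2 hmem)) (Multiplicative.ofAdd (1 : ZMod (p ^ e)))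
    rw [hpow, toAdd_ofAdd, mul_one] at h1
    have h2 : ((e : ℕ) : ZMod (p ^ e)) = 0 := Multiplicative.ofAdd.injective h1
    rw [ZMod.natCast_eq_zero_iff] at h2
    exact absurd (Nat.le_of_dvd he h2) (not_le.2 (Nat.lt_pow_self hp.one_lt))
  · obtain ⟨G, _, hG, hne⟩ := a2_unbounded hp c
    exact hne (hc G (hXF G ((hS G).2 hG)) p hp (c2_pgroup hG))
  · exact c2_a3_not_laws hp hq hr (G₀ := G₀) fun G _ hG n w hw => hl G (hXF G ((hS G).2 hG)) n w hw
  · exact c2_at_not_laws hp hq (G₀ := G₀) fun G _ hG n w hw => hl G (hXF G ((hS G).2 hG)) n w hw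
  · refine hd ⟨c, fun G _ hG => derived_of_nilp (hc G (hXF G hG) p hp (hpg G hG))⟩

/-- a one-generated formation has bounded exponent so finitely many primes -/
theorem oneGen_finite_primes (h : OneGen F) : {p : ℕ | p.Prime ∧ F (Multiplicative (ZMod p))}.Finite := by
  obtain ⟨e, he, hexp⟩ := h.exp
  refine (Set.finite_Iic e).subset ?_
  rintro p ⟨hp, hF⟩
  have h1 := hexp _ hF (Multiplicative.ofAdd (1 : ZMod p))
  rw [← ofAdd_nsmul] at h1
  have h2 : e • (1 : ZMod p) = 0 := Multiplicative.ofAdd.injective h1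
  rw [nsmul_eq_mul, mul_one, ZMod.natCast_eq_zero_iff] at h2
  exact Nat.le_of_dvd he h2

/-- THE CRITERION -/
theorem criterion (hF : IsFormation F) (hh : Hereditary F) (hs : Soluble F) :
    OneGen F ↔ {p : ℕ | p.Prime ∧ F (Multiplicative (ZMod p))}.Finite ∧
      ¬ ∃ X : GClass, InList X ∧ Le X F := by
  constructor
  · intro h
    exact ⟨oneGen_finite_primes h, fun ⟨X, hX, hXF⟩ => not_oneGen_of_inList h hX hXF⟩
  · rintro ⟨h1, h2⟩
    by_contra hno
    exact h2 (exists_inList (pv_iff.1 ⟨hF, hh⟩) hs h1 hno)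

/-- for bounded derived length there are no exotic subformations -/
theorem criterion_soluble_length (hF : IsFormation F) (hh : Hereditary F) {d : ℕ}
    (hd : ∀ (G : Type) [Group G], F G → derivedSeries G d = ⊥) :
    OneGen F ↔ {p : ℕ | p.Prime ∧ F (Multiplicative (ZMod p))}.Finite ∧
      (∀ p : ℕ, p.Prime → ¬ Le (AbP p) F) ∧ (∀ p : ℕ, p.Prime → ¬ Le (A2 p p) F) ∧
      (∀ p q r : ℕ, p.Prime → q.Prime → r.Prime → p ≠ q → p ≠ r → q ≠ r → ¬ Le (A3 p q r) F) ∧
      (∀ p q : ℕ, p.Prime → q.Prime → p ≠ q → ¬ Le (AT p q) F) := by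
  have hs : Soluble F := fun G _ hG => ⟨⟨d, hd G hG⟩⟩
  rw [criterion hF hh hs]
  refine and_congr_right fun _ => ?_
  constructor
  · intro h
    refine ⟨fun p hp hle => h ⟨_, Or.inl ⟨p, hp, same_refl _⟩, hle⟩,
      fun p hp hle => h ⟨_, Or.inr (Or.inl ⟨p, hp, same_refl _⟩), hle⟩,
      fun p q r hp hq hr h1 h2 h3 hle => h ⟨_, Or.inr (Or.inr (Or.inl
        ⟨p, q, r, hp, hq, hr, h1, h2, h3, same_refl _⟩)), hle⟩,
      fun p q hp hq h1 hle => h ⟨_, Or.inr (Or.inr (Or.inr (Or.inl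
        ⟨p, q, hp, hq, h1, same_refl _⟩))), hle⟩⟩
  · rintro ⟨h1, h2, h3, h4⟩ ⟨X, hX, hXF⟩
    rcases hX with ⟨p, hp, hS⟩ | ⟨p, hp, hS⟩ | ⟨p, q, r, hp, hq, hr, a1, a2, a3, hS⟩ |
      ⟨p, q, hp, hq, a1, hS⟩ | ⟨-, -, p, hp, hpg, -, hd', -⟩
    · exact h1 p hp fun G _ hG => hXF G ((hS G).2 hG)
    · exact h2 p hp fun G _ hG => hXF G ((hS G).2 hG)
    · exact h3 p q r hp hq hr a1 a2 a3 fun G _ hG => hXF G ((hS G).2 hG)
    · exact h4 p q hp hq a1 fun G _ hG => hXF G ((hS G).2 hG)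
    · exact hd' ⟨d, fun G _ hG => hd G (hXF G hG)⟩

end Pool.Agent.HForm
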