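import Pool.Agent.Lib_MP_4009a7_al.Base

/-!
# Piece CUBE: the corner of a Host-Kra cube
-/

set_option autoImplicit false

open scoped commutatorElement

namespace Pool.Agent.HForm

/-- one step of the Host-Kra construction: pairs `(x, y)` with `x ∈ Γ k`, `x⁻¹ * y ∈ Γ (k + 1)` -/
private def hk {G : Type} [Group G] (Γ : ℕ → Subgroup G) (hanti : Antitone Γ)
    (hcomm : ∀ i j, ∀ x ∈ Γ i, ∀ y ∈ Γ j, ⁅x, y⁆ ∈ Γ (i + j)) (k : ℕ) : Subgroup (G × G) where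
  carrier := {f | f.1 ∈ Γ k ∧ f.1⁻¹ * f.2 ∈ Γ (k + 1)}
  one_mem' := ⟨(Γ k).one_mem, by simp [(Γ (k + 1)).one_mem]⟩
  mul_mem' := by
    rintro ⟨f₀, f₁⟩ ⟨g₀, g₁⟩ ⟨hf, hf'⟩ ⟨hg, hg'⟩
    refine ⟨(Γ k).mul_mem hf hg, ?_⟩
    change (f₀ * g₀)⁻¹ * (f₁ * g₁) ∈ Γ (k + 1)
    change f₀⁻¹ * f₁ ∈ Γ (k + 1) at hf'
    change g₀⁻¹ * g₁ ∈ Γ (k + 1) at hg'
    have h1 : ⁅g₀⁻¹, f₀⁻¹ * f₁⁆ ∈ Γ (k + (k + 1)) := hcomm _ _ _ ((Γ k).inv_mem hg) _ hf'
    have h2 : ⁅g₀⁻¹, f₀⁻¹ * f₁⁆ ∈ Γ (k + 1) := hanti (by omega) h1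
    have h3 : (f₀ * g₀)⁻¹ * (f₁ * g₁) = ⁅g₀⁻¹, f₀⁻¹ * f₁⁆ * (f₀⁻¹ * f₁) * (g₀⁻¹ * g₁) := by
      rw [commutatorElement_def]; group
    rw [h3]
    exact (Γ (k + 1)).mul_mem ((Γ (k + 1)).mul_mem h2 hf') hg'
  inv_mem' := by
    rintro ⟨f₀, f₁⟩ ⟨hf, hf'⟩
    refine ⟨(Γ k).inv_mem hf, ?_⟩
    change (f₀⁻¹)⁻¹ * f₁⁻¹ ∈ Γ (k + 1)
    change f₀⁻¹ * f₁ ∈ Γ (k + 1) at hf'
    have h1 : ⁅f₀, (f₀⁻¹ * f₁)⁻¹⁆ ∈ Γ (k + (k + 1)) := hcomm _ _ _ hf _ ((Γ (k + 1)).inv_mem hf')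
    have h2 : ⁅f₀, (f₀⁻¹ * f₁)⁻¹⁆ ∈ Γ (k + 1) := hanti (by omega) h1
    have h3 : (f₀⁻¹)⁻¹ * f₁⁻¹ = ⁅f₀, (f₀⁻¹ * f₁)⁻¹⁆ * (f₀⁻¹ * f₁)⁻¹ := by
      rw [commutatorElement_def]; group
    rw [h3]
    exact (Γ (k + 1)).mul_mem h2 ((Γ (k + 1)).inv_mem hf')

private theorem mem_hk {G : Type} [Group G] {Γ : ℕ → Subgroup G} {hanti : Antitone Γ}
    {hcomm : ∀ i j, ∀ x ∈ Γ i, ∀ y ∈ Γ j, ⁅x, y⁆ ∈ Γ (i + j)} {k : ℕ} {f : G × G} :
    f ∈ hk Γ hanti hcomm k ↔ f.1 ∈ Γ k ∧ f.1⁻¹ * f.2 ∈ Γ (k + 1) := Iff.rfl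

private theorem hk_anti {G : Type} [Group G] (Γ : ℕ → Subgroup G) (hanti : Antitone Γ)
    (hcomm : ∀ i j, ∀ x ∈ Γ i, ∀ y ∈ Γ j, ⁅x, y⁆ ∈ Γ (i + j)) : Antitone (hk Γ hanti hcomm) := by
  intro k l hkl f hf
  rw [mem_hk] at hf ⊢
  exact ⟨hanti hkl hf.1, hanti (by omega) hf.2⟩

private theorem hk_comm {G : Type} [Group G] (Γ : ℕ → Subgroup G) (hanti : Antitone Γ)
    (hcomm : ∀ i j, ∀ x ∈ Γ i, ∀ y ∈ Γ j, ⁅x, y⁆ ∈ Γ (i + j)) :
    ∀ i j, ∀ x ∈ hk Γ hanti hcomm i, ∀ y ∈ hk Γ hanti hcomm j, ⁅x, y⁆ ∈ hk Γ hanti hcomm (i + j) := by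
  rintro k l ⟨f₀, f₁⟩ hf ⟨g₀, g₁⟩ hg
  rw [mem_hk] at hf hg ⊢
  obtain ⟨hf, hf'⟩ := hf
  obtain ⟨hg, hg'⟩ := hg
  dsimp only at hf hf' hg hg'
  refine ⟨hcomm k l _ hf _ hg, ?_⟩
  change ⁅f₀, g₀⁆⁻¹ * ⁅f₁, g₁⁆ ∈ Γ (k + l + 1)
  -- conjugation by elements of `Γ m`
  have hconj : ∀ (m m' : ℕ) (c x : G), c ∈ Γ m' → x ∈ Γ m → c * x * c⁻¹ ∈ Γ m := by
    intro m m' c x hc hx
    have h1 : ⁅c, x⁆ ∈ Γ (m' + m) := hcomm _ _ _ hc _ hx
    have h2 : ⁅c, x⁆ ∈ Γ m := hanti (by omega) h1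
    have h3 : c * x * c⁻¹ = ⁅c, x⁆ * x := by rw [commutatorElement_def]; group
    rw [h3]
    exact (Γ m).mul_mem h2 hx
  have hg₁ : g₁ ∈ Γ l := by
    have h1 : g₁ = g₀ * (g₀⁻¹ * g₁) := by group
    rw [h1]
    exact (Γ l).mul_mem hg (hanti (by omega) hg')
  have h1 : ⁅f₀⁻¹ * f₁, g₁⁆ ∈ Γ (k + l + 1) := by
    have := hcomm (k + 1) l _ hf' _ hg₁
    have he : k + 1 + l = k + l + 1 := by ring
    rw [he] at this
    exact this
  have h2 : ⁅f₀, g₀⁻¹ * g₁⁆ ∈ Γ (k + l + 1) := hcomm k (l + 1) _ hf _ hg'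
  have h3 : ⁅f₀, g₀⁆⁻¹ * ⁅f₁, g₁⁆ =
      (⁅f₀, g₀⁆⁻¹ * (f₀ * ⁅f₀⁻¹ * f₁, g₁⁆ * f₀⁻¹) * (⁅f₀, g₀⁆⁻¹)⁻¹) *
        (g₀ * ⁅f₀, g₀⁻¹ * g₁⁆ * g₀⁻¹) := by
    simp only [commutatorElement_def]
    group
  rw [h3]
  exact (Γ (k + l + 1)).mul_mem
    (hconj _ (k + l) _ _ ((Γ (k + l)).inv_mem (hcomm k l _ hf _ hg)) (hconj _ k _ _ hf h1))
    (hconj _ l _ _ hg h2)

private theorem lift_mem {G : Type} [Group G] {n : ℕ} (K : Subgroup G) (t : Fin n → G)
    (ht : ∀ k, t k ∈ K) (w : FreeGroup (Fin n)) : FreeGroup.lift t w ∈ K := by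
  have h : FreeGroup.lift t = K.subtype.comp (FreeGroup.lift (fun k => (⟨t k, ht k⟩ : K))) := by
    ext j
    simp
  rw [h]
  exact SetLike.coe_mem _

private theorem lift_pair {G : Type} [Group G] {n : ℕ} (t u : Fin n → G)
    (w : FreeGroup (Fin n)) :
    FreeGroup.lift (fun k => (t k, u k)) w = (FreeGroup.lift t w, FreeGroup.lift u w) := by
  have h : FreeGroup.lift (fun k => (t k, u k)) = (FreeGroup.lift t).prod (FreeGroup.lift u) := by
    ext j <;> simp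
  rw [h]
  rfl

private theorem list_pair {G : Type} [Group G] {s : ℕ} (t : Fin s → G) :
    (List.ofFn (fun j => ((t j, t j) : G × G))).prod = ((List.ofFn t).prod, (List.ofFn t).prod) := by
  induction s with
  | zero => simp; rfl
  | succ s ih =>
    rw [List.ofFn_succ, List.prod_cons, ih, List.ofFn_succ, List.prod_cons]
    rfl

private theorem corner_aux (s : ℕ) : ∀ {G : Type} [Group G] (Γ : ℕ → Subgroup G) (hanti : Antitone Γ)
    (hcomm : ∀ i j, ∀ x ∈ Γ i, ∀ y ∈ Γ j, ⁅x, y⁆ ∈ Γ (i + j)) {n : ℕ}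
    (w : FreeGroup (Fin n)) (h : Fin n → G) (a : Fin n → Fin s → G) (hh : ∀ k, h k ∈ Γ 0)
    (ha : ∀ k j, a k j ∈ Γ 1)
    (hw : ∀ S : Finset (Fin s), S ≠ Finset.univ →
      FreeGroup.lift (fun k => h k * (List.ofFn (fun j => if j ∈ S then a k j else 1)).prod) w = 1),
    FreeGroup.lift (fun k => h k * (List.ofFn (a k)).prod) w ∈ Γ s := by
  induction s with
  | zero =>
    intro G _ Γ hanti hcomm n w h a hh ha hw
    refine lift_mem _ _ (fun k => ?_) w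
    simp only [List.ofFn_zero, List.prod_nil, mul_one]
    exact hh k
  | succ s ih =>
    intro G _ Γ hanti hcomm n w h a hh ha hw
    have hval : ∀ S : Finset (Fin s),
        FreeGroup.lift (fun k => ((h k, h k * a k 0) : G × G) *
          (List.ofFn (fun j : Fin s => if j ∈ S then ((a k j.succ, a k j.succ) : G × G) else 1)).prod) w =
        (FreeGroup.lift (fun k => h k * (List.ofFn (fun j : Fin (s + 1) =>
            if j ∈ S.map (Fin.succEmb s) then a k j else 1)).prod) w,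
          FreeGroup.lift (fun k => h k * (List.ofFn (fun j : Fin (s + 1) =>
            if j ∈ insert 0 (S.map (Fin.succEmb s)) then a k j else 1)).prod) w) := by
      intro S
      rw [← lift_pair]
      congr 2
      funext k
      have h1 : (fun j : Fin s => if j ∈ S then ((a k j.succ, a k j.succ) : G × G) else 1) =
          fun j => ((if j ∈ S then a k j.succ else 1, if j ∈ S then a k j.succ else 1) : G × G) := by
        funext j
        split_ifs <;> rfl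
      rw [h1, list_pair, List.ofFn_succ, List.ofFn_succ, List.prod_cons, List.prod_cons]
      have h2 : (0 : Fin (s + 1)) ∉ S.map (Fin.succEmb s) := by
        simp [Fin.succ_ne_zero]
      have h3 : ∀ j : Fin s, j.succ ∈ S.map (Fin.succEmb s) ↔ j ∈ S := by
        intro j
        simp
      have h4 : ∀ j : Fin s, j.succ ∈ insert 0 (S.map (Fin.succEmb s)) ↔ j ∈ S := by
        intro j
        simp [Fin.succ_ne_zero]
      simp only [h2, h3, h4, if_false, Finset.mem_insert_self, if_true, one_mul]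
      rw [Prod.mk_mul_mk, mul_assoc]
    have key := ih (G := G × G) (hk Γ hanti hcomm) (hk_anti Γ hanti hcomm) (hk_comm Γ hanti hcomm) w
      (fun k => (h k, h k * a k 0)) (fun k j => (a k j.succ, a k j.succ))
      (fun k => by
        rw [mem_hk]
        refine ⟨hh k, ?_⟩
        dsimp only
        rw [inv_mul_cancel_left]
        exact ha k 0)
      (fun k j => by
        rw [mem_hk]
        refine ⟨ha k _, ?_⟩
        dsimp only
        rw [inv_mul_cancel]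
        exact (Γ (1 + 1)).one_mem)
      (fun S hS => by
        rw [hval S]
        rw [hw _ ?_, hw _ ?_]
        · rfl
        · intro he
          apply hS
          rw [Finset.eq_univ_iff_forall] at he ⊢
          intro j
          have h5 := he j.succ
          simpa [Fin.succ_ne_zero] using h5
        · intro he
          rw [Finset.eq_univ_iff_forall] at he
          have h5 := he 0
          simp [Fin.succ_ne_zero] at h5)
    have hval' := hval Finset.univ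
    simp only [Finset.mem_univ, if_true] at hval'
    rw [hval', mem_hk] at key
    have hfirst : FreeGroup.lift (fun k => h k * (List.ofFn (fun j : Fin (s + 1) =>
            if j ∈ (Finset.univ : Finset (Fin s)).map (Fin.succEmb s) then a k j else 1)).prod) w = 1 := by
      apply hw
      intro he
      rw [Finset.eq_univ_iff_forall] at he
      have h5 := he 0
      simp [Fin.succ_ne_zero] at h5
    have h6 := key.2
    dsimp only at h6
    rw [hfirst, inv_one, one_mul] at h6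
    have h7 : (insert 0 ((Finset.univ : Finset (Fin s)).map (Fin.succEmb s)) : Finset (Fin (s + 1))) =
        Finset.univ := by
      rw [Finset.eq_univ_iff_forall]
      intro j
      refine Fin.cases ?_ (fun j => ?_) j
      · simp
      · simp
    rw [h7] at h6
    simpa using h6


/-- Let `Γ` be a filtration of `G` (`Γ 0 = ⊤`). If the word `w` vanishes at `h k * ∏_{j ∈ S} a k j` for all proper
subsets `S` of `Fin s`, then its value for `S = univ` lies in `Γ s`.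
PROOF. Define types of cubes recursively: `Cb 0 = G`, `Cb (s+1) = Cb s × Cb s` (groups). Define subgroups
`HK s k` of `Cb s` (`s, k : ℕ`) recursively: `HK 0 k = Γ k`, and `(f₀, f₁) ∈ HK (s+1) k` iff `f₀ ∈ HK s k` and
`f₀⁻¹ * f₁ ∈ HK s (k+1)`. By induction on `s` one shows (simultaneously, for all `k, l`):
(1) `HK s k` is a subgroup, (2) `HK s (k+1) ≤ HK s k`, (3) for `f ∈ HK s k`, `g ∈ HK s l`: `⁅f, g⁆ ∈ HK s (k+l)`.
[E.g. closure under products: `(f₀g₀)⁻¹ f₁g₁ = g₀⁻¹ (f₀⁻¹ f₁) g₀ * (g₀⁻¹ g₁)` and `HK s (k+1)` is normalised by `HK s 0 ∋ g₀` because of (3)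
with `l = 0`. (3): `f₁ = f₀ a`, `g₁ = g₀ b` with `a ∈ HK s (k+1)`, `b ∈ HK s (l+1)`; `⁅f₀ a, g₀ b⁆` is `⁅f₀, g₀⁆` times
conjugates (by elements of `HK s 0`) of `⁅a, g₀⁆`, `⁅f₀, b⁆`, `⁅a, b⁆ ∈ HK s (k+l+1)`.]
Constant cubes `x` are in `HK s k` for `x ∈ Γ k` (induction: `f₀ = f₁`). For `j : Fin s` and `x ∈ Γ 1` the cube which is
`x` on the face `ω_j = 1` and `1` on the face `ω_j = 0` is in `HK s 0` (for the first coordinate: `f₀ = 1`, `f₁` constant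
`x`, in `HK (s-1) 1`; for the other coordinates `f₀ = f₁`). So the tuple of cubes
`g k = h k * ∏_j (face cube of a k j)` is in `HK s 0`, and so is `w(g)`, whose vertex at `ω = 1_S` is the value of `w` at
`h k * ∏_{j ∈ S} a k j`. So all vertices of `w(g)` except the last one are `1`. If `f ∈ HK s k` has all vertices equal to `1`
except the last one, then the last one is in `Γ (k + s)`: induction on `s`: `f₀ = 1`, and `f₁ = f₀⁻¹ f₁ ∈ HK (s-1) (k+1)`. -/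
theorem cube_corner {G : Type} [Group G] (Γ : ℕ → Subgroup G) (h0 : Γ 0 = ⊤) (hanti : Antitone Γ)
    (hcomm : ∀ i j, ∀ x ∈ Γ i, ∀ y ∈ Γ j, ⁅x, y⁆ ∈ Γ (i + j)) (s : ℕ) {n : ℕ}
    (w : FreeGroup (Fin n)) (h : Fin n → G) (a : Fin n → Fin s → G) (ha : ∀ k j, a k j ∈ Γ 1)
    (hw : ∀ S : Finset (Fin s), S ≠ Finset.univ →
      FreeGroup.lift (fun k => h k * (List.ofFn (fun j => if j ∈ S then a k j else 1)).prod) w = 1) :
    FreeGroup.lift (fun k => h k * (List.ofFn (a k)).prod) w ∈ Γ s := by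
  exact corner_aux s Γ hanti hcomm w h a (fun k => by rw [h0]; trivial) ha hw

end Pool.Agent.HForm
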