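import Pool.Agent.Lib_MP_4009a7_al.ExtPV

/-!
# Piece CYC: cyclic groups and exponents
-/

set_option autoImplicit false

open scoped commutatorElement

namespace Pool.Agent.HForm

variable {F : GClass}

/-- if `x ∈ G`, `G ∈ F` and `k ∣ orderOf x` then the cyclic group of order `k` is in `F` -/
theorem PV.cyc (hF : PV F) {G : Type} [Group G] (hG : F G) (x : G) {k : ℕ} (hk : k ∣ orderOf x) :
    F (Multiplicative (ZMod k)) := by
  have hfin : Finite G := hF.fin hG
  have h0 : orderOf x ≠ 0 := (orderOf_pos x).ne'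
  have h1 : orderOf (x ^ (orderOf x / k)) = k := orderOf_pow_orderOf_div h0 hk
  have h2 : F (Subgroup.zpowers (x ^ (orderOf x / k))) :=
    hF.inj (Subgroup.subtype _) (Subgroup.subtype_injective _) hG
  have h3 : Nat.card (Subgroup.zpowers (x ^ (orderOf x / k))) = k := by
    rw [Nat.card_zpowers, h1]
  have h4 : F (Multiplicative (ZMod (Nat.card (Subgroup.zpowers (x ^ (orderOf x / k)))))) :=
    hF.iso (zmodCyclicMulEquiv inferInstance).symm h2
  rwa [h3] at h4

/-- PROOF. A finite abelian `p`-group is a finite direct product of cyclic groups of order `p ^ k` (`CommGroup.equiv_prod_multiplicative_zmod_of_finite` or similar). -/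
theorem abP_le (hF : PV F) {p : ℕ} (hp : p.Prime) (h : ∀ k : ℕ, F (Multiplicative (ZMod (p ^ k)))) :
    Le (AbP p) F := by
  intro G hG0 hG
  obtain ⟨hfin, hcomm, hpG⟩ := hG
  have hp' : Fact p.Prime := ⟨hp⟩
  let _ : CommGroup G := { hG0 with mul_comm := hcomm }
  obtain ⟨ι, hι, n, hn, ⟨e⟩⟩ := CommGroup.equiv_prod_multiplicative_zmod_of_finite G
  have h1 : ∀ i, F (Multiplicative (ZMod (n i))) := by
    intro i
    have : NeZero (n i) := ⟨by have := hn i; omega⟩
    have h2 : IsPGroup p (Multiplicative (ZMod (n i))) := by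
      refine hpG.of_surjective ((Pi.evalMonoidHom (fun i => Multiplicative (ZMod (n i))) i).comp
        e.toMonoidHom) ?_
      exact (Function.surjective_eval i).comp e.surjective
    obtain ⟨k, hk⟩ := IsPGroup.iff_card.1 h2
    have h3 : Nat.card (Multiplicative (ZMod (n i))) = n i := by
      rw [Nat.card_congr Multiplicative.toAdd, Nat.card_zmod]
    rw [h3] at hk
    rw [hk]
    exact h k
  exact hF.iso e.symm (hF.pi _ h1)

/-- PROOF. Suppose that the second and the third alternative do not hold: let `S` be the finite set of the primes with `F (Multiplicative (ZMod p))`, and for `p ∈ S` let `k p` with `¬ F (Multiplicative (ZMod (p ^ k p)))`. Let `e = ∏ p ∈ S, p ^ k p`. For `x ∈ G ∈ F`: all primes dividing `orderOf x` are in `S` and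
`p ^ k p` does not divide `orderOf x` (`PV.cyc`), so `orderOf x ∣ e`. -/
theorem exp_trichotomy (hF : PV F) : (∃ e : ℕ, 0 < e ∧ ExpLe F e) ∨
    (∃ p : ℕ, p.Prime ∧ ∀ k : ℕ, F (Multiplicative (ZMod (p ^ k)))) ∨
    {p : ℕ | p.Prime ∧ F (Multiplicative (ZMod p))}.Infinite := by
  by_contra hcon
  push Not at hcon
  obtain ⟨h1, h2, h3⟩ := hcon
  have hS : {p : ℕ | p.Prime ∧ F (Multiplicative (ZMod p))}.Finite := h3
  have h2' : ∀ p : ℕ, ∃ k : ℕ, p.Prime → ¬ F (Multiplicative (ZMod (p ^ k))) := by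
    intro p
    by_cases hp : p.Prime
    · obtain ⟨k, hk⟩ := h2 p hp
      exact ⟨k, fun _ => hk⟩
    · exact ⟨0, fun h => absurd h hp⟩
  choose k hk using h2'
  refine h1 (∏ p ∈ hS.toFinset, p ^ k p) (Finset.prod_pos fun p hp => ?_) ?_
  · rw [Set.Finite.mem_toFinset] at hp
    exact pow_pos hp.1.pos _
  · intro G _ hG x
    have hfin : Finite G := hF.fin hG
    rw [← orderOf_dvd_iff_pow_eq_one, Nat.dvd_iff_prime_pow_dvd_dvd]
    intro p j hp hj
    rcases Nat.eq_zero_or_pos j with h0 | h0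
    · rw [h0, pow_zero]
      exact one_dvd _
    · have hpS : p ∈ hS.toFinset := by
        rw [Set.Finite.mem_toFinset]
        exact ⟨hp, hF.cyc hG x ((dvd_pow_self p h0.ne').trans hj)⟩
      have hjk : j ≤ k p := by
        by_contra hlt
        push Not at hlt
        exact hk p hp (hF.cyc hG x ((pow_dvd_pow p hlt.le).trans hj))
      exact (pow_dvd_pow p hjk).trans (Finset.dvd_prod_of_mem (fun p => p ^ k p) hpS)

/-- classes of `p`-groups: bounded exponent or all cyclic `p`-groups -/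
theorem exp_dichotomy (hF : PV F) {p : ℕ} (hp : p.Prime) (h : ∀ (G : Type) [Group G], F G → IsPGroup p G)
    (hc : ¬ ∀ k : ℕ, F (Multiplicative (ZMod (p ^ k)))) : ∃ e : ℕ, 0 < e ∧ ExpLe F e := by
  push Not at hc
  obtain ⟨k, hk⟩ := hc
  have hp' : Fact p.Prime := ⟨hp⟩
  refine ⟨p ^ k, pow_pos hp.pos _, fun G _ hG x => ?_⟩
  have hfin : Finite G := hF.fin hG
  obtain ⟨j, hj⟩ := (IsPGroup.iff_orderOf.1 (h G hG)) x
  rw [← orderOf_dvd_iff_pow_eq_one, hj]
  refine pow_dvd_pow p ?_
  by_contra hlt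
  push Not at hlt
  refine hk (hF.cyc hG x ?_)
  rw [hj]
  exact pow_dvd_pow p hlt.le

end Pool.Agent.HForm
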