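import Mathlib

/-!
# MP_4009a7_al: classes of finite groups, formations, the explicit classes

All groups are in `Type`; the members of a formation are finite.
-/

set_option autoImplicit false

open scoped commutatorElement

namespace Pool.Agent.HForm

/-- classes of groups -/
abbrev GClass := ∀ (G : Type) [Group G], Prop

/-- inclusion of classes -/
def Le (F F' : GClass) : Prop := ∀ (G : Type) [Group G], F G → F' G

/-- a formation: a nonempty class of finite groups, closed under isomorphisms, quotients, and such that
`G ⧸ N₁, G ⧸ N₂ ∈ F` imply `G ⧸ (N₁ ⊓ N₂) ∈ F` -/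
structure IsFormation (F : GClass) : Prop where
  fin : ∀ (G : Type) [Group G], F G → Finite G
  iso : ∀ (G H : Type) [Group G] [Group H], (G ≃* H) → F G → F H
  nonempty : ∃ (G : Type) (_ : Group G), F G
  quot : ∀ (G : Type) [Group G] (N : Subgroup G) [N.Normal], F G → F (G ⧸ N)
  inter : ∀ (G : Type) [Group G] [Finite G] (N₁ N₂ : Subgroup G) [N₁.Normal] [N₂.Normal],
    F (G ⧸ N₁) → F (G ⧸ N₂) → F (G ⧸ (N₁ ⊓ N₂))

/-- closed under subgroups -/
def Hereditary (F : GClass) : Prop := ∀ (G : Type) [Group G] (H : Subgroup G), F G → F H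

/-- all members are soluble -/
def Soluble (F : GClass) : Prop := ∀ (G : Type) [Group G], F G → Group.IsSolvable G

/-- the smallest formation containing `G` -/
def form (G : Type) [Group G] : GClass := fun H _ => ∀ F : GClass, IsFormation F → F G → F H

/-- one-generated formations: `F = form G` for some finite group `G` -/
def OneGen (F : GClass) : Prop :=
  ∃ (G : Type) (_ : Group G), Finite G ∧ ∀ (H : Type) [Group H], F H ↔ form G H

/-- minimal non-one-generated hereditary formations: `F` is a hereditary formation which is not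
one-generated, and every proper hereditary subformation of `F` is one-generated -/
structure MinNonOneGen (F : GClass) : Prop where
  form : IsFormation F
  hered : Hereditary F
  not_oneGen : ¬ OneGen F
  minimal : ∀ H : GClass, IsFormation H → Hereditary H → Le H F → ¬ Le F H → OneGen H

/-- elementary abelian: commutative and `x ^ p = 1` -/
def ElAb (p : ℕ) (G : Type) [Group G] : Prop := (∀ x y : G, x * y = y * x) ∧ ∀ x : G, x ^ p = 1

/-- the finite abelian `p`-groups -/
def AbP (p : ℕ) : GClass := fun G _ => Finite G ∧ (∀ x y : G, x * y = y * x) ∧ IsPGroup p G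

/-- `A_p A_q`: the finite extensions of elementary abelian `p`-groups by elementary abelian `q`-groups -/
def A2 (p q : ℕ) : GClass := fun G _ => Finite G ∧ ∃ (N : Subgroup G) (_ : N.Normal),
  ElAb p N ∧ ElAb q (G ⧸ N)

/-- `A_p A_q A_r` -/
def A3 (p q r : ℕ) : GClass := fun G _ => Finite G ∧ ∃ (N : Subgroup G) (_ : N.Normal),
  ElAb p N ∧ A2 q r (G ⧸ N)

/-- `T_q` (with `q` prime): nilpotency class at most two, `q`-th powers central, exponent `q` (`4` if `q = 2`).
For odd `q` this is the class of the groups of exponent `q` and class at most two, for `q = 2` the class of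
the groups of exponent four with central squares. -/
def TT (q : ℕ) : GClass := fun G _ => Finite G ∧ (∀ x y z : G, ⁅⁅x, y⁆, z⁆ = 1) ∧
  (∀ x y : G, ⁅x ^ q, y⁆ = 1) ∧ ∀ x : G, x ^ (q * Nat.gcd 2 q) = 1

/-- `A_p T_q` -/
def AT (p q : ℕ) : GClass := fun G _ => Finite G ∧ ∃ (N : Subgroup G) (_ : N.Normal),
  ElAb p N ∧ TT q (G ⧸ N)

/-- the exceptional formations: hereditary formations of `p`-groups of bounded exponent and unbounded derived
length, all of whose proper hereditary subformations are nilpotent of bounded class -/
def Exotic (F : GClass) : Prop := IsFormation F ∧ Hereditary F ∧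
  ∃ p : ℕ, p.Prime ∧ (∀ (G : Type) [Group G], F G → IsPGroup p G) ∧
    (∃ e : ℕ, 0 < e ∧ ∀ (G : Type) [Group G], F G → ∀ x : G, x ^ e = 1) ∧
    (¬ ∃ d : ℕ, ∀ (G : Type) [Group G], F G → derivedSeries G d = ⊥) ∧
    ∀ H : GClass, IsFormation H → Hereditary H → Le H F → ¬ Le F H →
      ∃ c : ℕ, ∀ (G : Type) [Group G], H G → (⊤ : Subgroup G).lowerCentralSeries c = ⊥

/-- two classes are equal -/
def Same (F F' : GClass) : Prop := ∀ (G : Type) [Group G], F G ↔ F' G

end Pool.Agent.HForm
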