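import Pool.Agent.Lib_MP_4009a7_al.PVBasic

/-!
# Piece ETT: large groups in `T_q`
-/

set_option autoImplicit false

open scoped commutatorElement

namespace Pool.Agent.HForm

/-- the group `W` -/
@[ext] structure EttW (q n : ℕ) where
  a : Fin n → ZMod q
  M : Fin n → Fin n → ZMod q

section EttWsec

variable {q n : ℕ}

instance : Mul (EttW q n) :=
  ⟨fun x y => ⟨fun i => x.a i + y.a i, fun i j => x.M i j + y.M i j + x.a i * y.a j⟩⟩
instance : One (EttW q n) := ⟨⟨fun _ => 0, fun _ _ => 0⟩⟩
instance : _root_.Inv (EttW q n) :=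
  ⟨fun x => ⟨fun i => -x.a i, fun i j => -x.M i j + x.a i * x.a j⟩⟩

@[simp] theorem EttW.mul_a (x y : EttW q n) (i : Fin n) : (x * y).a i = x.a i + y.a i := rfl
@[simp] theorem EttW.mul_M (x y : EttW q n) (i j : Fin n) :
    (x * y).M i j = x.M i j + y.M i j + x.a i * y.a j := rfl
@[simp] theorem EttW.one_a (i : Fin n) : (1 : EttW q n).a i = 0 := rfl
@[simp] theorem EttW.one_M (i j : Fin n) : (1 : EttW q n).M i j = 0 := rfl
@[simp] theorem EttW.inv_a (x : EttW q n) (i : Fin n) : (x⁻¹).a i = -x.a i := rfl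
@[simp] theorem EttW.inv_M (x : EttW q n) (i j : Fin n) :
    (x⁻¹).M i j = -x.M i j + x.a i * x.a j := rfl

private theorem ew_ext {x y : EttW q n} (h1 : ∀ i, x.a i = y.a i) (h2 : ∀ i j, x.M i j = y.M i j) :
    x = y :=
  EttW.ext (funext h1) (funext fun i => funext (h2 i))

instance : Group (EttW q n) where
  mul_assoc x y z := by
    refine ew_ext (fun i => ?_) (fun i j => ?_)
    · simp only [EttW.mul_a]; ring
    · simp only [EttW.mul_a, EttW.mul_M]; ring
  one_mul x := by
    refine ew_ext (fun i => ?_) (fun i j => ?_)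
    · simp
    · simp
  mul_one x := by
    refine ew_ext (fun i => ?_) (fun i j => ?_)
    · simp
    · simp
  inv_mul_cancel x := by
    refine ew_ext (fun i => ?_) (fun i j => ?_)
    · simp
    · simp only [EttW.mul_M, EttW.inv_M, EttW.inv_a, EttW.one_M]; ring

private theorem ew_finite [NeZero q] : Finite (EttW q n) := by
  have : Function.Injective (fun x : EttW q n => (x.a, x.M)) := by
    intro x y h
    simp only [Prod.mk.injEq] at h
    exact EttW.ext h.1 h.2
  exact Finite.of_injective _ this

private theorem ew_pow (x : EttW q n) (k : ℕ) :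
    x ^ k = ⟨fun i => k * x.a i, fun i j => k * x.M i j + (k.choose 2 : ℕ) * (x.a i * x.a j)⟩ := by
  induction k with
  | zero =>
    refine ew_ext (fun i => ?_) (fun i j => ?_)
    · simp
    · simp
  | succ k ih =>
    rw [pow_succ, ih]
    have h : (k + 1).choose 2 = k + k.choose 2 := by
      rw [Nat.choose_succ_succ' k 1, Nat.choose_one_right]
    refine ew_ext (fun i => ?_) (fun i j => ?_)
    · simp only [EttW.mul_a]; push_cast; ring
    · simp only [EttW.mul_M, h]; push_cast; ring

private theorem ew_central {c : EttW q n} (hc : ∀ i, c.a i = 0) (x : EttW q n) : ⁅c, x⁆ = 1 := by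
  rw [commutatorElement_eq_one_iff_mul_comm]
  refine ew_ext (fun i => ?_) (fun i j => ?_)
  · simp only [EttW.mul_a]; ring
  · simp only [EttW.mul_M, hc]; ring

private theorem ew_TT (hq : q.Prime) : TT q (EttW q n) := by
  have : NeZero q := ⟨hq.ne_zero⟩
  refine ⟨ew_finite, fun x y z => ?_, fun x y => ?_, fun x => ?_⟩
  · apply ew_central
    intro i
    simp only [commutatorElement_def, EttW.mul_a, EttW.inv_a]; ring
  · apply ew_central
    intro i
    rw [ew_pow]
    simp
  · rw [ew_pow]
    have h1 : ((q * Nat.gcd 2 q : ℕ) : ZMod q) = 0 := by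
      rw [Nat.cast_mul, ZMod.natCast_self, zero_mul]
    have h2 : (((q * Nat.gcd 2 q).choose 2 : ℕ) : ZMod q) = 0 := by
      rw [ZMod.natCast_eq_zero_iff]
      rcases hq.eq_two_or_odd' with h | h
      · subst h
        decide
      · have hg : Nat.gcd 2 q = 1 := Nat.coprime_two_left.2 h
        rw [hg, mul_one, Nat.choose_two_right]
        obtain ⟨r, hr⟩ := h
        have e : q * (q - 1) / 2 = q * r := by
          have : q - 1 = 2 * r := by omega
          rw [this]
          have : q * (2 * r) = 2 * (q * r) := by ring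
          rw [this]
          exact Nat.mul_div_cancel_left _ (by norm_num)
        rw [e]
        exact dvd_mul_right _ _
    refine ew_ext (fun i => ?_) (fun i j => ?_)
    · simp only [h1, zero_mul, EttW.one_a]
    · simp only [h1, h2, zero_mul, add_zero, EttW.one_M]

private theorem tt_sub {W : Type} [Group W] (h : TT q W) (H : Subgroup W) : TT q H := by
  obtain ⟨h0, h1, h2, h3⟩ := h
  have hi := Subgroup.subtype_injective H
  refine ⟨inferInstance, fun x y z => hi ?_, fun x y => hi ?_, fun x => hi ?_⟩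
  · rw [map_commutatorElement, map_commutatorElement, h1, map_one]
  · rw [map_commutatorElement, map_pow, h2, map_one]
  · rw [map_pow, h3, map_one]

end EttWsec

/-- PROOF. Let `W` be the set of pairs `(a, M)` with `a : Fin n → ZMod q`, `M : Fin n → Fin n → ZMod q` and `(a, M) (a', M') = (a + a', M + M' + a ⊗ a')`, `(a ⊗ a') i j = a i * a' j`: a group. `(a, M)⁻¹ = (- a, - M + a ⊗ a)`, commutators are `(0, a ⊗ a' - a' ⊗ a)`, central;
`(a, M) ^ k = (k a, k M + (k (k - 1) / 2) a ⊗ a)`: so `W` is in `TT q`. Let `E` be the subgroup generated by `t i = (e_i, 0)`. The commutators `⁅t i, t j⁆ = (0, E_ij - E_ji)` generate a subgroup containing all `(0, ∑_{i < j} m_ij (E_ij - E_ji))`, of order `q ^ (n (n - 1) / 2)`. `E` is in `TT q`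
(a subgroup of `W`). -/
theorem exists_large_TT {q : ℕ} (hq : q.Prime) (n : ℕ) :
    ∃ (E : Type) (_ : Group E) (t : Fin n → E), TT q E ∧ Subgroup.closure (Set.range t) = ⊤ ∧
      q ^ (n * (n - 1) / 2) ≤ Nat.card E := by
  classical
  have : NeZero q := ⟨hq.ne_zero⟩
  let t : Fin n → EttW q n := fun i => ⟨fun k => if k = i then 1 else 0, fun _ _ => 0⟩
  let H : Subgroup (EttW q n) := Subgroup.closure (Set.range t)
  have ht : ∀ i, t i ∈ H := fun i => Subgroup.subset_closure ⟨i, rfl⟩
  have hfin : Finite (EttW q n) := ew_finite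
  refine ⟨H, inferInstance, fun i => ⟨t i, ht i⟩, tt_sub (ew_TT hq) H, ?_, ?_⟩
  · have h1 := Subgroup.closure_closure_coe_preimage (k := Set.range t)
    rw [eq_top_iff, ← h1]
    refine Subgroup.closure_mono ?_
    rintro ⟨x, hx⟩ ⟨i, hi⟩
    exact ⟨i, Subtype.ext hi⟩
  · -- the matrices
    let S : AddSubgroup (Fin n → Fin n → ZMod q) :=
      { carrier := {M | (⟨fun _ => 0, M⟩ : EttW q n) ∈ H}
        add_mem' := fun {M M'} h h' => by
          have h1 := H.mul_mem h h'
          have h2 : (⟨fun _ => 0, M⟩ : EttW q n) * ⟨fun _ => 0, M'⟩ = ⟨fun _ => 0, M + M'⟩ :=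
            ew_ext (fun i => by simp) (fun i j => by simp)
          rw [h2] at h1
          exact h1
        zero_mem' := H.one_mem
        neg_mem' := fun {M} h => by
          have h1 := H.inv_mem h
          have h2 : (⟨fun _ => 0, M⟩ : EttW q n)⁻¹ = ⟨fun _ => 0, -M⟩ :=
            ew_ext (fun i => by simp) (fun i j => by simp)
          rw [h2] at h1
          exact h1 }
    let B : Fin n → Fin n → (Fin n → Fin n → ZMod q) := fun i j a b =>
      (if a = i then 1 else 0) * (if b = j then 1 else 0) -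
        (if a = j then 1 else 0) * (if b = i then 1 else 0)
    have hB : ∀ i j, B i j ∈ S := by
      intro i j
      have h1 : (t j * t i)⁻¹ * (t i * t j) ∈ H :=
        H.mul_mem (H.inv_mem (H.mul_mem (ht j) (ht i))) (H.mul_mem (ht i) (ht j))
      have h2 : (t j * t i)⁻¹ * (t i * t j) = ⟨fun _ => 0, B i j⟩ := by
        rw [inv_mul_eq_iff_eq_mul]
        refine ew_ext (fun a => ?_) (fun a b => ?_)
        · simp only [EttW.mul_a]; ring
        · simp only [EttW.mul_a, EttW.mul_M, t, B]; ring
      rw [h2] at h1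
      exact h1
    let f : ((Σ j : Fin n, Fin j.val) → ZMod q) → H := fun φ =>
      ⟨⟨fun _ => 0, ∑ p : (Σ j : Fin n, Fin j.val),
        (φ p).val • B ⟨p.2.val, p.2.isLt.trans p.1.isLt⟩ p.1⟩,
        (S.sum_mem fun p _ => S.nsmul_mem (hB _ _) _ : _ ∈ S)⟩
    have hf : Function.Injective f := by
      intro φ ψ h
      have h1 : (∑ p : (Σ j : Fin n, Fin j.val),
        (φ p).val • B ⟨p.2.val, p.2.isLt.trans p.1.isLt⟩ p.1) = ∑ p : (Σ j : Fin n, Fin j.val),
        (ψ p).val • B ⟨p.2.val, p.2.isLt.trans p.1.isLt⟩ p.1 :=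
        congrArg (fun x : H => (x : EttW q n).M) h
      have key : ∀ (χ : (Σ j : Fin n, Fin j.val) → ZMod q) (p₀ : Σ j : Fin n, Fin j.val),
          (∑ p : (Σ j : Fin n, Fin j.val),
            (χ p).val • B ⟨p.2.val, p.2.isLt.trans p.1.isLt⟩ p.1)
            ⟨p₀.2.val, p₀.2.isLt.trans p₀.1.isLt⟩ p₀.1 = χ p₀ := by
        intro χ p₀
        rw [Finset.sum_apply, Finset.sum_apply, Finset.sum_eq_single p₀]
        · have hlt : (p₀.2 : ℕ) < p₀.1 := p₀.2.isLt
          have hne : (⟨p₀.2.val, p₀.2.isLt.trans p₀.1.isLt⟩ : Fin n) ≠ p₀.1 := by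
            intro h2
            have := congrArg Fin.val h2
            simp only at this
            omega
          simp only [B, Pi.smul_apply, if_true, mul_one, hne, if_false, zero_mul, sub_zero,
            nsmul_eq_mul]
          exact ZMod.natCast_zmod_val _
        · intro p _ hp
          have hlt : (p₀.2 : ℕ) < p₀.1 := p₀.2.isLt
          have hlt' : (p.2 : ℕ) < p.1 := p.2.isLt
          have h3 : ¬ ((⟨p₀.2.val, p₀.2.isLt.trans p₀.1.isLt⟩ : Fin n) =
              ⟨p.2.val, p.2.isLt.trans p.1.isLt⟩ ∧ p₀.1 = p.1) := by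
            rintro ⟨h4, h5⟩
            apply hp
            obtain ⟨j, i⟩ := p
            obtain ⟨j₀, i₀⟩ := p₀
            simp only at h5
            subst h5
            congr 1
            have h9 : (i₀ : ℕ) = (i : ℕ) := Fin.mk.inj h4
            exact Fin.ext h9.symm
          have h4 : ¬ ((⟨p₀.2.val, p₀.2.isLt.trans p₀.1.isLt⟩ : Fin n) = p.1 ∧
              p₀.1 = ⟨p.2.val, p.2.isLt.trans p.1.isLt⟩) := by
            rintro ⟨h5, h6⟩
            have h7 := congrArg Fin.val h5
            have h8 := congrArg Fin.val h6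
            simp only at h7 h8
            omega
          simp only [B, Pi.smul_apply, ← ite_and, mul_ite, mul_one, mul_zero]
          rw [if_neg (fun h => h3 ⟨h.2, h.1⟩), if_neg (fun h => h4 ⟨h.2, h.1⟩), sub_zero, smul_zero]
        · intro h2
          exact absurd (Finset.mem_univ _) h2
      funext p₀
      rw [← key φ p₀, ← key ψ p₀, h1]
    have h3 := Nat.card_le_card_of_injective f hf
    have h4 : Nat.card ((Σ j : Fin n, Fin j.val) → ZMod q) = q ^ (n * (n - 1) / 2) := by
      rw [Nat.card_fun, Nat.card_zmod, Nat.card_eq_fintype_card, Fintype.card_sigma]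
      congr 1
      simp only [Fintype.card_fin]
      rw [Fin.sum_univ_eq_sum_range (fun i => i) n, Finset.sum_range_id]
    rw [h4] at h3
    exact h3

end Pool.Agent.HForm
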