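import Pool.Agent.Lib_MP_4009a7_al.KK

/-!
# Piece EQVA2: words modulo `A_q A_r`
-/

set_option autoImplicit false

open scoped commutatorElement

namespace Pool.Agent.HForm

/-- the exponent sums modulo `r` -/
noncomputable def expSum {n : ℕ} (r : ℕ) (g : FreeGroup (Fin n)) : Fin n → ZMod r :=
  Multiplicative.toAdd (FreeGroup.lift (fun j => Multiplicative.ofAdd (Pi.single j (1 : ZMod r) : Fin n → ZMod r)) g)

/-- words in an elementary abelian group depend only on the exponent sums -/
private theorem exists_psi {E : Type} [Group E] {r n : ℕ} (hr : r.Prime) (hE : ElAb r E)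
    (t : Fin n → E) : ∃ Ψ : (Fin n → ZMod r) → E, ∀ v, FreeGroup.lift t v = Ψ (expSum r v) := by
  have : Fact r.Prime := ⟨hr⟩
  let _ : CommGroup E := { (inferInstance : Group E) with mul_comm := hE.1 }
  let ψ : Multiplicative (Fin n → ZMod r) →* E :=
    { toFun := fun μ => ∏ j, t j ^ ((Multiplicative.toAdd μ) j).val
      map_one' := by simp
      map_mul' := by
        intro a b
        rw [← Finset.prod_mul_distrib]
        refine Finset.prod_congr rfl fun j _ => ?_
        rw [← pow_add, toAdd_mul, Pi.add_apply, ZMod.val_add]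
        exact (pow_eq_pow_mod _ (hE.2 (t j))).symm }
  have hψ : FreeGroup.lift t = ψ.comp (FreeGroup.lift (fun j =>
      Multiplicative.ofAdd (Pi.single j (1 : ZMod r) : Fin n → ZMod r))) := by
    apply FreeGroup.ext_hom
    intro j
    rw [FreeGroup.lift_apply_of, MonoidHom.comp_apply, FreeGroup.lift_apply_of]
    change t j = ∏ i, t i ^ ((Pi.single j (1 : ZMod r) : Fin n → ZMod r) i).val
    rw [Finset.prod_eq_single j]
    · rw [Pi.single_eq_same, ZMod.val_one, pow_one]
    · intro b _ hb
      rw [Pi.single_eq_of_ne hb, ZMod.val_zero, pow_zero]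
    · intro h
      exact absurd (Finset.mem_univ j) h
  refine ⟨fun μ => ψ (Multiplicative.ofAdd μ), fun v => ?_⟩
  rw [hψ]
  rfl

/-- the sum over a fibre -/
private noncomputable def fib {α β : Type} (q : ℕ) (F : α → β) (b : β) (f : α →₀ ℤ) : ZMod q :=
  f.sum (fun u c => open Classical in if F u = b then ((c : ℤ) : ZMod q) else 0)

private theorem fib_add {α β : Type} {q : ℕ} (F : α → β) (b : β) (f g : α →₀ ℤ) :
    fib q F b (f + g) = fib q F b f + fib q F b g := by
  unfold fib
  refine Finsupp.sum_add_index' (fun a => ?_) (fun a c d => ?_)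
  · by_cases h : F a = b
    · rw [if_pos h, Int.cast_zero]
    · rw [if_neg h]
  · by_cases h : F a = b
    · rw [if_pos h, if_pos h, if_pos h, Int.cast_add]
    · rw [if_neg h, if_neg h, if_neg h, add_zero]

private theorem fib_neg {α β : Type} {q : ℕ} (F : α → β) (b : β) (f : α →₀ ℤ) :
    fib q F b (-f) = - fib q F b f := by
  have h := fib_add (q := q) F b f (-f)
  rw [add_neg_cancel] at h
  have h0 : fib q F b (0 : α →₀ ℤ) = 0 := Finsupp.sum_zero_index
  rw [h0] at h
  exact (neg_eq_of_add_eq_zero_right h.symm).symm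

private theorem fib_tr {E : Type} [Group E] {q n : ℕ} (t : Fin n → E) (ε : E)
    (w : FreeGroup (Fin n)) (f : FreeGroup (Fin n) →₀ ℤ) :
    fib q (fun v => FreeGroup.lift t v) ε (trRep n w f) =
      fib q (fun v => FreeGroup.lift t v) ((FreeGroup.lift t w)⁻¹ * ε) f := by
  unfold fib
  change (Finsupp.mapDomain (fun x => w * x) f).sum _ = _
  rw [Finsupp.sum_mapDomain_index]
  · refine Finsupp.sum_congr fun v _ => ?_
    by_cases h : FreeGroup.lift t v = (FreeGroup.lift t w)⁻¹ * ε
    · rw [if_pos h, if_pos]
      change FreeGroup.lift t (w * v) = ε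
      rw [map_mul, h, mul_inv_cancel_left]
    · rw [if_neg h, if_neg]
      intro h'
      apply h
      have h'' : FreeGroup.lift t (w * v) = ε := h'
      rw [map_mul] at h''
      rw [← h'', inv_mul_cancel_left]
  · intro a
    split_ifs <;> simp
  · intro a c d
    split_ifs
    · rw [Int.cast_add]
    · rw [add_zero]

/-- sums over fibres of a composition -/
private theorem fib_comp {α β γ : Type} [Fintype β] {q : ℕ} (F : α → β) (Ψ : β → γ) (c : γ)
    (f g : α →₀ ℤ) (h : ∀ b, fib q F b f = fib q F b g) :
    fib q (fun v => Ψ (F v)) c f = fib q (fun v => Ψ (F v)) c g := by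
  classical
  have key : ∀ f : α →₀ ℤ, fib q (fun v => Ψ (F v)) c f =
      ∑ b, if Ψ b = c then fib q F b f else 0 := by
    intro f
    unfold fib Finsupp.sum
    have e : ∀ b, (if Ψ b = c then ∑ a ∈ f.support, (if F a = b then ((f a : ℤ) : ZMod q) else 0)
        else 0) = ∑ a ∈ f.support, if Ψ b = c then (if F a = b then ((f a : ℤ) : ZMod q) else 0)
        else 0 := by
      intro b
      by_cases hb : Ψ b = c
      · simp only [if_pos hb]
      · simp only [if_neg hb, Finset.sum_const_zero]
    have e2 : ∑ b, (if Ψ b = c then ∑ a ∈ f.support, (if F a = b then ((f a : ℤ) : ZMod q) else 0)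
        else 0) = ∑ a ∈ f.support, ∑ b, if Ψ b = c then
          (if F a = b then ((f a : ℤ) : ZMod q) else 0) else 0 := by
      rw [Finset.sum_congr rfl fun b _ => e b, Finset.sum_comm]
    refine Eq.trans ?_ e2.symm
    refine Finset.sum_congr rfl fun a _ => ?_
    rw [Finset.sum_eq_single (F a)]
    · by_cases h1 : Ψ (F a) = c
      · simp only [if_pos h1]; simp
      · simp only [if_neg h1]
    · intro b _ hb
      have hb' : ¬ F a = b := fun h => hb h.symm
      simp only [if_neg hb', ite_self]
    · intro h
      exact absurd (Finset.mem_univ _) h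
  rw [key, key]
  refine Finset.sum_congr rfl fun b _ => ?_
  rw [h b]

/-- two words agree in `A2 q r` if their exponent sums agree modulo `r` and the images of their Fox derivatives in the group ring of `(Z/r)^n` over `F_q` agree.
PROOF. Let `X` be in `A2 q r` with `N`, `t : Fin n → X`, and `u = g'⁻¹ * g`. `lift t u ∈ N` because `X ⧸ N` is commutative of exponent `r` and the exponent sums of `u` vanish modulo `r`. `fox k u = fox k g'⁻¹ + g'⁻¹ • fox k g = g'⁻¹ • (fox k g - fox k g')`
(`fox_mul`, `fox_inv`). The value of a word in `X ⧸ N` only depends on its exponent sums modulo `r`. So the hypothesis `h2` of `foxx` holds (translate by the image of `g'`; group the sum over the words with a given image by the exponent sums). So `lift t u = 1`. -/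
theorem eqv_A2_of_fox {q r n : ℕ} (hq : q.Prime) (hr : r.Prime) (g g' : FreeGroup (Fin n))
    (h1 : expSum r g = expSum r g')
    (h2 : ∀ (k : Fin n) (μ : Fin n → ZMod r), open Classical in
      (fox k g).sum (fun u c => if expSum r u = μ then ((c : ℤ) : ZMod q) else 0) =
      (fox k g').sum (fun u c => if expSum r u = μ then ((c : ℤ) : ZMod q) else 0)) : Eqv (A2 q r) g g' := by
  intro X _ hX t
  obtain ⟨-, N, hNn, hN, hr'⟩ := hX
  have : Fact r.Prime := ⟨hr⟩
  set tb : Fin n → X ⧸ N := fun j => (QuotientGroup.mk (t j) : X ⧸ N) with htb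
  have hbar : ∀ v : FreeGroup (Fin n), (QuotientGroup.mk (FreeGroup.lift t v) : X ⧸ N) =
      FreeGroup.lift tb v := by
    intro v
    have h3 : (QuotientGroup.mk' N).comp (FreeGroup.lift t) = FreeGroup.lift tb := by
      apply FreeGroup.ext_hom
      intro j
      simp [htb]
    exact DFunLike.congr_fun h3 v
  obtain ⟨Ψ, hΨ⟩ := exists_psi hr hr' tb
  have hgg : FreeGroup.lift tb g = FreeGroup.lift tb g' := by
    rw [hΨ, hΨ, h1]
  have hone : FreeGroup.lift t (g'⁻¹ * g) = 1 := by
    refine foxx N hN t (g'⁻¹ * g) ?_ ?_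
    · rw [← QuotientGroup.eq_one_iff, hbar, map_mul, map_inv, hgg, inv_mul_cancel]
    · intro i ε
      have e1 : (fox i (g'⁻¹ * g)).sum (fun v c => open Classical in
          if (QuotientGroup.mk (FreeGroup.lift t v) : X ⧸ N) = ε then ((c : ℤ) : ZMod q) else 0) =
          fib q (fun v => FreeGroup.lift tb v) ε (fox i (g'⁻¹ * g)) := by
        unfold fib
        refine Finsupp.sum_congr fun v _ => ?_
        by_cases h : FreeGroup.lift tb v = ε
        · rw [if_pos h, if_pos ((hbar v).trans h)]
        · rw [if_neg h, if_neg fun h' => h ((hbar v).symm.trans h')]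
      rw [e1, fox_mul, fox_inv, fib_add, fib_neg, fib_tr, fib_tr]
      have e2 : ∀ ε' : X ⧸ N, fib q (fun v => FreeGroup.lift tb v) ε' (fox i g) =
          fib q (fun v => FreeGroup.lift tb v) ε' (fox i g') := by
        intro ε'
        have e3 : (fun v => FreeGroup.lift tb v) = fun v => Ψ (expSum r v) := funext hΨ
        rw [e3]
        refine fib_comp (expSum r) Ψ ε' _ _ fun μ => ?_
        have e4 : ∀ w : FreeGroup (Fin n), fib q (expSum r) μ (fox i w) =
            (fox i w).sum (fun u c => if expSum r u = μ then ((c : ℤ) : ZMod q) else 0) := by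
          intro w
          unfold fib
          refine Finsupp.sum_congr fun v _ => ?_
          by_cases h : expSum r v = μ
          · rw [if_pos h, if_pos h]
          · rw [if_neg h, if_neg h]
        rw [e4, e4]
        exact h2 i μ
      rw [e2]
      exact neg_add_cancel _
  rw [map_mul, map_inv, inv_mul_eq_one] at hone
  exact hone.symm

end Pool.Agent.HForm
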