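import Pool.Agent.Lib_MP_4009a7_al.SepA
import Pool.Agent.Lib_MP_4009a7_al.EVC
import Pool.Agent.Lib_MP_4009a7_al.RepT

/-!
# Piece EV3: evaluation in `A ⋊ Y` with many weights
-/

set_option autoImplicit false

open scoped commutatorElement

namespace Pool.Agent.HForm

section ev3aux

variable {r : ℕ} {Y A : Type} [AddCommGroup Y] [Module (ZMod r) Y] [AddCommGroup A]

theorem ev3_mul (τ : Multiplicative Y →* Module.End ℤ A) (y z : Y) (a : A) :
    τ (Multiplicative.ofAdd (y + z)) a =
      τ (Multiplicative.ofAdd y) (τ (Multiplicative.ofAdd z) a) := by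
  rw [ofAdd_add, map_mul, Module.End.mul_apply]

theorem ev3_comm (τ : Multiplicative Y →* Module.End ℤ A) (y z : Y) (a : A) :
    τ (Multiplicative.ofAdd y) (τ (Multiplicative.ofAdd z) a) =
      τ (Multiplicative.ofAdd z) (τ (Multiplicative.ofAdd y) a) := by
  rw [← ev3_mul, ← ev3_mul, add_comm]

theorem ev3_zero (τ : Multiplicative Y →* Module.End ℤ A) (a : A) :
    τ (Multiplicative.ofAdd 0) a = a := by
  rw [ofAdd_zero, map_one, Module.End.one_apply]

/-- the stabiliser of an element -/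
def ev3stab (τ : Multiplicative Y →* Module.End ℤ A) (a : A) : AddSubgroup Y where
  carrier := {y | τ (Multiplicative.ofAdd y) a = a}
  add_mem' {y z} hy hz := by
    show τ (Multiplicative.ofAdd (y + z)) a = a
    rw [ev3_mul]
    rw [show τ (Multiplicative.ofAdd z) a = a from hz]
    exact hy
  zero_mem' := ev3_zero τ a
  neg_mem' {y} hy := by
    show τ (Multiplicative.ofAdd (-y)) a = a
    have h1 : τ (Multiplicative.ofAdd (-y)) (τ (Multiplicative.ofAdd y) a) = a := by
      rw [← ev3_mul, neg_add_cancel, ev3_zero]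
    rw [show τ (Multiplicative.ofAdd y) a = a from hy] at h1
    exact h1

theorem ev3_smul_mem (S : AddSubgroup Y) (z : ZMod r) {y : Y} (hy : y ∈ S) : z • y ∈ S := by
  have h : y ∈ AddSubgroup.toZModSubmodule r S := hy
  exact (AddSubgroup.toZModSubmodule r S).smul_mem z h

/-- only the block `l` acts on an element fixed by the others -/
theorem ev3_sum {d : ℕ} (τ : Multiplicative Y →* Module.End ℤ A) (y : Fin d → Y) (l : Fin d)
    {x : A} (hx : ∀ j, j ≠ l → τ (Multiplicative.ofAdd (y j)) x = x) (z : Fin d → ZMod r) :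
    τ (Multiplicative.ofAdd (∑ j, z j • y j)) x = τ (Multiplicative.ofAdd (z l • y l)) x := by
  have h1 : ∑ j, z j • y j = z l • y l + ∑ j ∈ Finset.univ.erase l, z j • y j :=
    (Finset.add_sum_erase _ _ (Finset.mem_univ l)).symm
  rw [h1, ev3_mul]
  congr 1
  have h2 : ∑ j ∈ Finset.univ.erase l, z j • y j ∈ ev3stab τ x :=
    AddSubgroup.sum_mem _ fun j hj => ev3_smul_mem _ _ (hx j (Finset.ne_of_mem_erase hj))
  exact h2

/-- restriction of the action of one block -/
def ev3tau (τ : Multiplicative Y →* Module.End ℤ A) (y : Y) (P : AddSubgroup A)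
    (hinv : ∀ x ∈ P, ∀ j : ZMod r, τ (Multiplicative.ofAdd (j • y)) x ∈ P) :
    Multiplicative (ZMod r) →* Module.End ℤ P where
  toFun j :=
    { toFun := fun x => ⟨τ (Multiplicative.ofAdd (Multiplicative.toAdd j • y)) x,
        hinv x x.2 (Multiplicative.toAdd j)⟩
      map_add' := fun x x' => Subtype.ext (map_add _ _ _)
      map_smul' := fun c x => Subtype.ext (map_smul _ c (x : A)) }
  map_one' := by
    ext x
    show τ (Multiplicative.ofAdd (Multiplicative.toAdd (1 : Multiplicative (ZMod r)) • y)) x = x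
    rw [toAdd_one, zero_smul, ev3_zero]
  map_mul' i j := by
    ext x
    show τ (Multiplicative.ofAdd (Multiplicative.toAdd (i * j) • y)) x =
      τ (Multiplicative.ofAdd (Multiplicative.toAdd i • y))
        (τ (Multiplicative.ofAdd (Multiplicative.toAdd j • y)) x)
    rw [toAdd_mul, add_smul, ev3_mul]

theorem ev3tau_coe (τ : Multiplicative Y →* Module.End ℤ A) (y : Y) (P : AddSubgroup A)
    (hinv : ∀ x ∈ P, ∀ j : ZMod r, τ (Multiplicative.ofAdd (j • y)) x ∈ P)
    (j : Multiplicative (ZMod r)) (x : P) :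
    ((ev3tau τ y P hinv j x : P) : A) =
      τ (Multiplicative.ofAdd (Multiplicative.toAdd j • y)) x := rfl

end ev3aux

/-- BLOCKS. PROOF. Take `y`, `b` from `exists_blocks` (a `q`-power kills `A`, prime to `r`). Let `c = τ y_l b_l - b_l` and `P' l` the additive subgroup generated by the `τ (j • y_l) c`, `j : ZMod r`. It is invariant under `y_l`, fixed elementwise by
`y_j`, `j ≠ l` (`b_l` is, and `Y` is commutative), the norm `∑ j, τ (j • y_l)` kills `c` so it kills `P' l`; `P' l ≠ ⊥` because `χ c ≠ 1`. Let `P l = {x ∈ P' l | q • x = 0}`; it is not `⊥` (`P' l` is a nontrivial group killed by a power of `q`). If `x ∈ P l`, `x ≠ 0`, then by `hfaith` there is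
`z : Y` with `χ (τ z x) ≠ 1`; `z = ∑ z_j • y_j` and `τ z x = τ (z_l • y_l) x`. -/
theorem exists_block_modules {q r : ℕ} (hq : q.Prime) (hr : r.Prime) (hqr : q ≠ r) {Y A K : Type} [AddCommGroup Y]
    [Module (ZMod r) Y] [Finite Y] [AddCommGroup A] [Field K] (τ : Multiplicative Y →* Module.End ℤ A)
    (χ : Multiplicative A →* K) (hA : ∃ k : ℕ, ∀ a : A, (q ^ k) • a = 0)
    (hdist : ∀ y : Y, y ≠ 0 → ∃ a : A,
      χ (Multiplicative.ofAdd (τ (Multiplicative.ofAdd y) a)) ≠ χ (Multiplicative.ofAdd a))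
    (hfaith : ∀ a : A, a ≠ 0 → ∃ y : Multiplicative Y, χ (Multiplicative.ofAdd (τ y a)) ≠ 1) :
    ∃ (y : Module.Basis (Fin (Module.finrank (ZMod r) Y)) (ZMod r) Y)
      (P : Fin (Module.finrank (ZMod r) Y) → AddSubgroup A),
      (∀ l, P l ≠ ⊥) ∧ (∀ l, ∀ x ∈ P l, q • x = 0) ∧
      (∀ j l, j ≠ l → ∀ x ∈ P l, τ (Multiplicative.ofAdd (y j)) x = x) ∧
      (∀ l, ∀ x ∈ P l, ∀ j : ZMod r, τ (Multiplicative.ofAdd (j • y l)) x ∈ P l) ∧
      (∀ l, ∀ x ∈ P l, ∑ᶠ j : ZMod r, τ (Multiplicative.ofAdd (j • y l)) x = 0) ∧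
      (∀ l, ∀ x ∈ P l, x ≠ 0 → ∃ j : ZMod r, χ (Multiplicative.ofAdd (τ (Multiplicative.ofAdd (j • y l)) x)) ≠ 1) := by
  classical
  obtain ⟨k, hk⟩ := hA
  have : Fact r.Prime := ⟨hr⟩
  have hne : NeZero r := ⟨hr.ne_zero⟩
  have hcop : Nat.Coprime (q ^ k) r := Nat.Coprime.pow_left k ((Nat.coprime_primes hq hr).2 hqr)
  obtain ⟨y, b, hyb, hχb⟩ := exists_blocks hr τ χ ⟨q ^ k, hcop, hk⟩ hdist
  let c : Fin (Module.finrank (ZMod r) Y) → A := fun l => τ (Multiplicative.ofAdd (y l)) (b l) - b l
  have hc0 : ∀ l, c l ≠ 0 := by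
    intro l h0
    apply hχb l
    have : τ (Multiplicative.ofAdd (y l)) (b l) - b l = 0 := h0
    rw [this, ofAdd_zero, map_one]
  let P' : Fin (Module.finrank (ZMod r) Y) → AddSubgroup A := fun l =>
    AddSubgroup.closure (Set.range fun j : ZMod r => τ (Multiplicative.ofAdd (j • y l)) (c l))
  have hcP : ∀ l, c l ∈ P' l := by
    intro l
    apply AddSubgroup.subset_closure
    refine ⟨0, ?_⟩
    show τ (Multiplicative.ofAdd ((0 : ZMod r) • y l)) (c l) = c l
    rw [zero_smul, ev3_zero]
  have hfixc : ∀ j l, j ≠ l → τ (Multiplicative.ofAdd (y j)) (c l) = c l := by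
    intro j l hjl
    show τ (Multiplicative.ofAdd (y j)) (τ (Multiplicative.ofAdd (y l)) (b l) - b l) =
      τ (Multiplicative.ofAdd (y l)) (b l) - b l
    rw [map_sub, ev3_comm, hyb j l hjl]
  have hfix' : ∀ j l, j ≠ l → ∀ x ∈ P' l, τ (Multiplicative.ofAdd (y j)) x = x := by
    intro j l hjl x hx
    induction hx using AddSubgroup.closure_induction with
    | mem x hx =>
      obtain ⟨i, rfl⟩ := hx
      show τ (Multiplicative.ofAdd (y j)) (τ (Multiplicative.ofAdd (i • y l)) (c l)) =
        τ (Multiplicative.ofAdd (i • y l)) (c l)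
      rw [ev3_comm, hfixc j l hjl]
    | zero => rw [map_zero]
    | add a b _ _ ha hb => rw [map_add, ha, hb]
    | neg a _ ha => rw [map_neg, ha]
  have hinv' : ∀ l, ∀ x ∈ P' l, ∀ j : ZMod r, τ (Multiplicative.ofAdd (j • y l)) x ∈ P' l := by
    intro l x hx j
    induction hx using AddSubgroup.closure_induction with
    | mem x hx =>
      obtain ⟨i, rfl⟩ := hx
      apply AddSubgroup.subset_closure
      refine ⟨j + i, ?_⟩
      show τ (Multiplicative.ofAdd ((j + i) • y l)) (c l) =
        τ (Multiplicative.ofAdd (j • y l)) (τ (Multiplicative.ofAdd (i • y l)) (c l))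
      rw [add_smul, ev3_mul]
    | zero => rw [map_zero]; exact AddSubgroup.zero_mem _
    | add a b _ _ ha hb => rw [map_add]; exact AddSubgroup.add_mem _ ha hb
    | neg a _ ha => rw [map_neg]; exact AddSubgroup.neg_mem _ ha
  have hnormb : ∀ l (i : ZMod r) (a : A), ∑ j : ZMod r, τ (Multiplicative.ofAdd (j • y l))
      (τ (Multiplicative.ofAdd (i • y l)) a) =
      ∑ j : ZMod r, τ (Multiplicative.ofAdd (j • y l)) a := by
    intro l i a
    rw [← Equiv.sum_comp (Equiv.addRight i) (fun j => τ (Multiplicative.ofAdd (j • y l)) a)]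
    refine Finset.sum_congr rfl fun j _ => ?_
    show _ = τ (Multiplicative.ofAdd ((j + i) • y l)) a
    rw [add_smul, ev3_mul]
  have hnorm' : ∀ l, ∀ x ∈ P' l, ∑ j : ZMod r, τ (Multiplicative.ofAdd (j • y l)) x = 0 := by
    intro l x hx
    induction hx using AddSubgroup.closure_induction with
    | mem x hx =>
      obtain ⟨i, rfl⟩ := hx
      have h1 := hnormb l i (c l)
      refine h1.trans ?_
      have h2 := hnormb l 1 (b l)
      rw [one_smul] at h2
      show ∑ j : ZMod r, τ (Multiplicative.ofAdd (j • y l))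
        (τ (Multiplicative.ofAdd (y l)) (b l) - b l) = 0
      simp only [map_sub, Finset.sum_sub_distrib]
      rw [h2, sub_self]
    | zero => simp
    | add a b _ _ ha hb =>
      simp only [map_add, Finset.sum_add_distrib]
      rw [ha, hb, add_zero]
    | neg a _ ha =>
      simp only [map_neg, Finset.sum_neg_distrib]
      rw [ha, neg_zero]
  let P : Fin (Module.finrank (ZMod r) Y) → AddSubgroup A := fun l =>
    { carrier := {x | x ∈ P' l ∧ q • x = 0}
      add_mem' := fun {a b} ha hb => ⟨AddSubgroup.add_mem _ ha.1 hb.1, by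
        rw [smul_add, ha.2, hb.2, add_zero]⟩
      zero_mem' := ⟨AddSubgroup.zero_mem _, smul_zero _⟩
      neg_mem' := fun {a} ha => ⟨AddSubgroup.neg_mem _ ha.1, by rw [smul_neg, ha.2, neg_zero]⟩ }
  refine ⟨y, P, ?_, fun l x hx => hx.2, fun j l hjl x hx => hfix' j l hjl x hx.1, ?_, ?_, ?_⟩
  · intro l
    have h1 : ∃ i : ℕ, (q ^ i) • c l = 0 := ⟨k, hk _⟩
    have h2 := Nat.find_spec h1
    have h3 : Nat.find h1 ≠ 0 := by
      intro h0
      rw [h0, pow_zero, one_smul] at h2
      exact hc0 l h2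
    obtain ⟨i, hi⟩ := Nat.exists_eq_succ_of_ne_zero h3
    have h4 : (q ^ i) • c l ≠ 0 := Nat.find_min h1 (by omega)
    intro hbot
    have h5 : (q ^ i) • c l ∈ P l := by
      refine ⟨AddSubgroup.nsmul_mem _ (hcP l) _, ?_⟩
      rw [← mul_smul, ← pow_succ', ← Nat.succ_eq_add_one, ← hi]
      exact h2
    rw [hbot, AddSubgroup.mem_bot] at h5
    exact h4 h5
  · intro l x hx j
    refine ⟨hinv' l x hx.1 j, ?_⟩
    rw [← map_nsmul, hx.2, map_zero]
  · intro l x hx
    rw [finsum_eq_sum_of_fintype]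
    exact hnorm' l x hx.1
  · intro l x hx hx0
    obtain ⟨z, hz⟩ := hfaith x hx0
    refine ⟨y.repr (Multiplicative.toAdd z) l, ?_⟩
    have h1 : Multiplicative.toAdd z = ∑ j, y.repr (Multiplicative.toAdd z) j • y j :=
      (y.sum_repr _).symm
    have h2 : z = Multiplicative.ofAdd (∑ j, y.repr (Multiplicative.toAdd z) j • y j) := by
      rw [← h1]
      rfl
    have h3 := ev3_sum τ y l (fun j hj => hfix' j l hj x hx.1) (fun j => y.repr (Multiplicative.toAdd z) j)
    rw [← h3, ← h2]
    exact hz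

/-- THE EVALUATION. PROOF. Take `y`, `P` from `exists_block_modules`; let `m = finrank Y`, `τ l : Multiplicative (ZMod r) →* Module.End ℤ (P l)`, `τ l j x = τ (j • y l) x`, and `χ l` the restriction of `χ` to `P l`. The map
`Θ l : SD (τ l) →* G`, `⟨a, j⟩ ↦ jA a * jY (j • y l)` is a homomorphism (`hτ`), and for different `l` the images commute elementwise (`jA` and `jY` have commutative domains and `τ (y j)` fixes `P l` for `j ≠ l`). So there is
`Θ : (∀ l, SD (τ l)) →* G` (`MonoidHom.noncommPiCoprod`). We apply `block_kills` with `E = A2 q r`, `T l = (Fin n → SD (τ l))`, `ι l = Multiplicative (ZMod r)`, `c l t g = (lift t g).h`,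
`φ l t g = χ l (τ l (lift t g).h⁻¹ (lift t g).v)`, `b c = ρ (jY (∑ l, (c l) • y l)) v₀`. `heval`: for `s` take `t k = Θ (fun l => s l k)`, so `lift t g = Θ (fun l => lift (s l) g)`. As `⟨a, j⟩ = ⟨0, j⟩ * ⟨τ j⁻¹ a, 1⟩`, `Θ l ⟨a, j⟩ = jY (j • y l) * jA (τ j⁻¹ a)`, and for
different blocks everything commutes: `ρ (Θ x) v₀ = (∏ l, χ l (τ l (x l).h⁻¹ (x l).v)) • ρ (jY (∑ l, (x l).h • y l)) v₀`. Linear independence of `b`: `ρ (jA a) (ρ (jY z) v₀) = χ (τ z⁻¹ a) • ρ (jY z) v₀`, different `z` have different weights by `hdist`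
(`linearIndependent_of_weights`; `y` is a basis). `hinv`: `sd_A2` (evaluation in `SD (τ l)`). `hforget`: replace `t k = ⟨a, j⟩` by `⟨0, j⟩`: then `lift t' g = ⟨0, (lift t g).h⟩` (the map `⟨a, j⟩ ↦ ⟨0, j⟩` is a homomorphism). `hsep`: `sep_A2`. -/
theorem eval3 {K : Type} [Field K] {p q r : ℕ} [Fact p.Prime] [CharP K p] (hq : q.Prime) (hr : r.Prime)
    (hqr : q ≠ r) {n : ℕ} (w : FreeGroup (Fin n)) {m : ℕ} (hm1 : 1 ≤ m) (hm : ∀ i, (fox i w).support.card ≤ m)
    {G M A Y : Type} [Group G] [AddCommGroup M] [Module K M] [AddCommGroup A] [Finite A] [AddCommGroup Y]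
    [Module (ZMod r) Y] [Finite Y] (ρ : G →* Module.End K M) (hw : Sat w ρ)
    (jA : Multiplicative A →* G) (jY : Multiplicative Y →* G) (τ : Multiplicative Y →* Module.End ℤ A)
    (hτ : ∀ (y : Multiplicative Y) (a : A), jA (Multiplicative.ofAdd (τ y a)) =
      jY y * jA (Multiplicative.ofAdd a) * (jY y)⁻¹)
    (χ : Multiplicative A →* K) (v₀ : M) (hv₀ : v₀ ≠ 0) (hχ : ∀ a, ρ (jA a) v₀ = χ a • v₀)
    (hA : ∃ k : ℕ, ∀ a : A, (q ^ k) • a = 0)
    (hdist : ∀ y : Y, y ≠ 0 → ∃ a : A,
      χ (Multiplicative.ofAdd (τ (Multiplicative.ofAdd y) a)) ≠ χ (Multiplicative.ofAdd a))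
    (hfaith : ∀ a : A, a ≠ 0 → ∃ y : Multiplicative Y, χ (Multiplicative.ofAdd (τ y a)) ≠ 1)
    (hrank : m ≤ Module.finrank (ZMod r) Y) : Kills p (A2 q r) w := by
  classical
  have hFr : Fact r.Prime := ⟨hr⟩
  have hne : NeZero r := ⟨hr.ne_zero⟩
  obtain ⟨y, P, hP0, hPq, hPfix, hPinv, hPnorm, hPfaith⟩ :=
    exists_block_modules hq hr hqr τ χ hA hdist hfaith
  let τl : ∀ l : Fin (Module.finrank (ZMod r) Y), Multiplicative (ZMod r) →* Module.End ℤ (P l) := fun l =>
    ev3tau τ (y l) (P l) (hPinv l)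
  let χl : ∀ l : Fin (Module.finrank (ZMod r) Y), Multiplicative (P l) →* K := fun l =>
    χ.comp (AddMonoidHom.toMultiplicative (P l).subtype)
  have hχl : ∀ l (x : P l), χl l (Multiplicative.ofAdd x) = χ (Multiplicative.ofAdd (x : A)) :=
    fun l x => rfl
  -- the total element of `Y`
  let Z : (∀ l : Fin (Module.finrank (ZMod r) Y), Multiplicative (ZMod r)) → Y := fun h =>
    ∑ l, Multiplicative.toAdd (h l) • y l
  have hZmul : ∀ h h', Z (h * h') = Z h + Z h' := by
    intro h h'
    show ∑ l, Multiplicative.toAdd (h l * h' l) • y l = _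
    simp only [toAdd_mul, add_smul, Finset.sum_add_distrib]
    rfl
  have hZact : ∀ (h : ∀ l : Fin (Module.finrank (ZMod r) Y), Multiplicative (ZMod r)) (l : Fin (Module.finrank (ZMod r) Y)) (x : P l),
      τ (Multiplicative.ofAdd (Z h)) x = (τl l (h l) x : P l) := fun h l x =>
    ev3_sum τ y l (fun j hj => hPfix j l hj x x.2) (fun j => Multiplicative.toAdd (h j))
  have hZinv : ∀ (h : ∀ l : Fin (Module.finrank (ZMod r) Y), Multiplicative (ZMod r)), Z h⁻¹ = -Z h := by
    intro h
    have h1 := hZmul h⁻¹ h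
    rw [inv_mul_cancel] at h1
    have h2 : Z 1 = 0 := by
      show ∑ l, Multiplicative.toAdd (1 : Multiplicative (ZMod r)) • y l = 0
      simp
    rw [h2] at h1
    exact eq_neg_of_add_eq_zero_left h1.symm
  let Θ : (∀ l : Fin (Module.finrank (ZMod r) Y), SD (τl l)) →* G :=
    { toFun := fun x => jA (Multiplicative.ofAdd (∑ l, ((x l).v : A))) *
        jY (Multiplicative.ofAdd (Z fun l => (x l).h))
      map_one' := by
        have h1 : (∑ l : Fin (Module.finrank (ZMod r) Y), (((1 : ∀ l : Fin (Module.finrank (ZMod r) Y), SD (τl l)) l).v : A)) = 0 := by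
          refine Finset.sum_eq_zero fun l _ => ?_
          rfl
        have h2 : (Z fun l => ((1 : ∀ l : Fin (Module.finrank (ZMod r) Y), SD (τl l)) l).h) = 0 := by
          show ∑ l, Multiplicative.toAdd (1 : Multiplicative (ZMod r)) • y l = 0
          simp
        rw [h1, h2, ofAdd_zero, ofAdd_zero, map_one, map_one, mul_one]
      map_mul' := fun x x' => by
        have h1 : (∑ l : Fin (Module.finrank (ZMod r) Y), (((x * x') l).v : A)) = ∑ l, ((x l).v : A) +
            τ (Multiplicative.ofAdd (Z fun l => (x l).h)) (∑ l, ((x' l).v : A)) := by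
          rw [map_sum, ← Finset.sum_add_distrib]
          refine Finset.sum_congr rfl fun l _ => ?_
          rw [hZact]
          rfl
        have h2 : (Z fun l => ((x * x') l).h) = (Z fun l => (x l).h) + Z fun l => (x' l).h :=
          hZmul (fun l => (x l).h) (fun l => (x' l).h)
        rw [h1, h2, ofAdd_add, ofAdd_add, map_mul, map_mul, hτ]
        group }
  have hΘ : ∀ x : ∀ l : Fin (Module.finrank (ZMod r) Y), SD (τl l), Θ x = jA (Multiplicative.ofAdd (∑ l, ((x l).v : A))) *
        jY (Multiplicative.ofAdd (Z fun l => (x l).h)) := fun x => rfl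
  have hconj : ∀ (z : Y) (a : A), jA (Multiplicative.ofAdd a) * jY (Multiplicative.ofAdd z) =
      jY (Multiplicative.ofAdd z) *
        jA (Multiplicative.ofAdd (τ (Multiplicative.ofAdd (-z)) a)) := by
    intro z a
    rw [hτ, ofAdd_neg, map_inv]
    group
  have hact : ∀ (z : Y) (a : A), ρ (jA (Multiplicative.ofAdd a)) (ρ (jY (Multiplicative.ofAdd z)) v₀) =
      χ (Multiplicative.ofAdd (τ (Multiplicative.ofAdd (-z)) a)) •
        ρ (jY (Multiplicative.ofAdd z)) v₀ := by
    intro z a
    rw [← Module.End.mul_apply, ← map_mul, hconj, map_mul, Module.End.mul_apply, hχ, map_smul]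
  have hFin : ∀ l, Finite (P l) := fun l => inferInstance
  refine block_kills w ρ hw (A2 q r) (m := Module.finrank (ZMod r) Y) (hm1.trans hrank) (fun i => (hm i).trans hrank)
    (fun l => Fin n → SD (τl l)) (fun _ => Multiplicative (ZMod r)) (fun l => ⟨fun _ => 1⟩)
    (fun l t g => (FreeGroup.lift t g).h)
    (fun l t g => χl l (Multiplicative.ofAdd (τl l (FreeGroup.lift t g).h⁻¹ (FreeGroup.lift t g).v)))
    (fun c => ρ (jY (Multiplicative.ofAdd (Z c))) v₀) ?_ v₀ hv₀ ?_ ?_ ?_ ?_
  · -- linear independence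
    refine linearIndependent_of_weights (κ := A) (fun a => ρ (jA (Multiplicative.ofAdd a))) _ ?_
      (fun c a => χ (Multiplicative.ofAdd (τ (Multiplicative.ofAdd (-(Z c))) a))) ?_ ?_
    · intro c h0
      apply hv₀
      have h1 : ρ (jY (Multiplicative.ofAdd (Z c)))⁻¹ (ρ (jY (Multiplicative.ofAdd (Z c))) v₀) = v₀ := by
        rw [← Module.End.mul_apply, ← map_mul, inv_mul_cancel, map_one, Module.End.one_apply]
      rw [← h1]
      have h2 : ρ (jY (Multiplicative.ofAdd (Z c))) v₀ = 0 := h0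
      rw [h2, map_zero]
    · intro c a
      exact hact _ _
    · intro c c' hcc
      have hz : Z c' - Z c ≠ 0 := by
        intro h0
        apply hcc
        have h1 : Z c = Z c' := (sub_eq_zero.1 h0).symm
        funext l
        have h2 : ∀ c : (∀ l : Fin (Module.finrank (ZMod r) Y), Multiplicative (ZMod r)), y.repr (Z c) l =
            Multiplicative.toAdd (c l) := by
          intro c
          show y.repr (∑ l, Multiplicative.toAdd (c l) • y l) l = _
          exact congrFun (y.repr_sum_self fun l => Multiplicative.toAdd (c l)) l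
        have h3 := h2 c
        rw [h1, h2 c'] at h3
        exact Multiplicative.toAdd.injective h3.symm
      obtain ⟨a, ha⟩ := hdist _ hz
      refine ⟨τ (Multiplicative.ofAdd (Z c')) a, ?_⟩
      rw [← ev3_mul, ← ev3_mul, neg_add_cancel, ev3_zero]
      have h4 : -Z c + Z c' = Z c' - Z c := by abel
      rw [h4]
      exact ha
  · -- evaluation
    intro s
    refine ⟨fun k => Θ (fun l => s l k), fun g => ?_⟩
    have h1 : FreeGroup.lift (fun k => Θ (fun l => s l k)) g =
        Θ (fun l => FreeGroup.lift (s l) g) := by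
      have h2 : FreeGroup.lift (fun k => Θ (fun l => s l k)) =
          Θ.comp (MonoidHom.pi fun l => FreeGroup.lift (s l)) := by
        ext k
        simp only [FreeGroup.lift_apply_of, MonoidHom.comp_apply]
        congr 1
        funext l
        show s l k = FreeGroup.lift (s l) (FreeGroup.of k)
        rw [FreeGroup.lift_apply_of]
      rw [h2]
      rfl
    rw [h1, hΘ, hconj, map_mul, Module.End.mul_apply, hχ, map_smul]
    congr 1
    rw [map_sum, ofAdd_sum, map_prod]
    refine Finset.prod_congr rfl fun l _ => ?_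
    rw [hχl]
    have h5 := hZinv (fun l => (FreeGroup.lift (s l) g).h)
    rw [← h5]
    congr 2
    exact hZact (fun l => (FreeGroup.lift (s l) g).h)⁻¹ l _
  · -- invariance
    intro l s g g' hgg
    have hA2 : A2 q r (SD (τl l)) := sd_A2 hr (fun x => Subtype.ext (hPq l x x.2)) (τl l)
    have h1 : FreeGroup.lift s g = FreeGroup.lift s g' := hgg (SD (τl l)) hA2 s
    simp only [h1, and_self]
  · -- forgetting
    intro l s
    refine ⟨fun k => SD.inr (τl l) (s k).h, ?_⟩
    have h1 : ∀ g, FreeGroup.lift (fun k => SD.inr (τl l) (s k).h) g =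
        SD.inr (τl l) (FreeGroup.lift s g).h := by
      intro g
      have h2 : FreeGroup.lift (fun k => SD.inr (τl l) (s k).h) =
          ((SD.inr (τl l)).comp (SD.toH (τl l))).comp (FreeGroup.lift s) := by
        ext k
        · simp [SD.toH]
        · simp [SD.toH]
      rw [h2]
      rfl
    refine ⟨fun g => ?_, fun g => ?_⟩
    · show (FreeGroup.lift (fun k => SD.inr (τl l) (s k).h) g).h = _
      rw [h1]
      rfl
    · show χl l (Multiplicative.ofAdd (τl l (FreeGroup.lift (fun k => SD.inr (τl l) (s k).h) g).h⁻¹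
        (FreeGroup.lift (fun k => SD.inr (τl l) (s k).h) g).v)) = 1
      rw [h1]
      have h3 : (SD.inr (τl l) (FreeGroup.lift s g).h).v = 0 := rfl
      rw [h3, map_zero, ofAdd_zero, map_one]
  · -- separation
    intro l g g' hgg
    by_contra hcon
    push Not at hcon
    apply hgg
    have hnt : Nontrivial (P l) := (AddSubgroup.nontrivial_iff_ne_bot _).2 (hP0 l)
    refine sep_A2 hq hr hqr (fun x => Subtype.ext (hPq l x x.2)) (τl l) ?_ (χl l) ?_ g g' ?_
    · intro x
      apply Subtype.ext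
      have h1 := hPnorm l x x.2
      rw [finsum_eq_sum_of_fintype] at h1 ⊢
      rw [AddSubgroup.val_finset_sum]
      exact h1
    · intro x hx
      obtain ⟨j, hj⟩ := hPfaith l x x.2 (fun h => hx (Subtype.ext h))
      exact ⟨Multiplicative.ofAdd j, hj⟩
    · intro t
      exact hcon t

end Pool.Agent.HForm
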