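import Pool.Agent.Lib_MP_4009a7_al.PVBasic

/-!
# Piece EXTPV: the explicit classes are soluble pseudovarieties
-/

set_option autoImplicit false

open scoped commutatorElement

namespace Pool.Agent.HForm

variable {F : GClass}

private theorem ea_iff {p : ℕ} {G : Type} [Group G] (N : Subgroup G) :
    ElAb p N ↔ (∀ x ∈ N, ∀ y ∈ N, x * y = y * x) ∧ ∀ x ∈ N, x ^ p = 1 := by
  constructor
  · rintro ⟨h1, h2⟩
    refine ⟨fun x hx y hy => ?_, fun x hx => ?_⟩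
    · exact congrArg Subtype.val (h1 ⟨x, hx⟩ ⟨y, hy⟩)
    · exact congrArg Subtype.val (h2 ⟨x, hx⟩)
  · rintro ⟨h1, h2⟩
    exact ⟨fun x y => Subtype.ext (h1 x x.2 y y.2), fun x => Subtype.ext (h2 x x.2)⟩

private theorem ext_iff' (hE : PV F) (p : ℕ) (G : Type) [Group G] :
    (Finite G ∧ ∃ (N : Subgroup G) (_ : N.Normal), ElAb p N ∧ F (G ⧸ N)) ↔
      Finite G ∧ ∃ (Q : Type) (_ : Group Q) (f : G →* Q), F Q ∧
        (∀ x y, f x = 1 → f y = 1 → x * y = y * x) ∧ ∀ x, f x = 1 → x ^ p = 1 := by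
  constructor
  · rintro ⟨hG, N, hN, hp, hF⟩
    rw [ea_iff] at hp
    refine ⟨hG, G ⧸ N, inferInstance, QuotientGroup.mk' N, hF, ?_, ?_⟩
    · intro x y hx hy
      exact hp.1 x ((QuotientGroup.eq_one_iff x).1 hx) y ((QuotientGroup.eq_one_iff y).1 hy)
    · intro x hx
      exact hp.2 x ((QuotientGroup.eq_one_iff x).1 hx)
  · rintro ⟨hG, Q, hQ, f, hF, h1, h2⟩
    refine ⟨hG, f.ker, inferInstance, ?_, ?_⟩
    · rw [ea_iff]
      exact ⟨fun x hx y hy => h1 x y hx hy, fun x hx => h2 x hx⟩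
    · exact hE.inj (QuotientGroup.kerLift f) (QuotientGroup.kerLift_injective f) hF

private theorem pv_congr {F F' : GClass} (h : ∀ (G : Type) [Group G], F G ↔ F' G) (hF : PV F) :
    PV F' := by
  have : F = F' := by
    funext G inst
    exact propext (h G)
  rw [← this]
  exact hF

/-- extensions of elementary abelian `p`-groups by groups in `E`. PROOF. For a homomorphic image take the image of `N`, for a subgroup (an injective homomorphism) the preimage, for a product the product. -/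
theorem PV.ext (hE : PV F) (p : ℕ) : PV (fun G _ => Finite G ∧ ∃ (N : Subgroup G) (_ : N.Normal),
    ElAb p N ∧ F (G ⧸ N)) := by
  refine ⟨fun {G} _ h => h.1, ?_, ?_, ?_, ?_⟩
  · rw [ext_iff' hE]
    exact ⟨inferInstance, Unit, inferInstance, 1, hE.one, fun x y _ _ => rfl, fun x _ => rfl⟩
  · rintro G H _ _ φ hφ ⟨hG, N, hN, hp, hF⟩
    rw [ea_iff] at hp
    have hM : (N.map φ).Normal := hN.map φ hφ
    refine ⟨Finite.of_surjective φ hφ, N.map φ, hM, ?_, ?_⟩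
    · rw [ea_iff]
      refine ⟨?_, ?_⟩
      · rintro _ ⟨x, hx, rfl⟩ _ ⟨y, hy, rfl⟩
        rw [← map_mul, ← map_mul, hp.1 x hx y hy]
      · rintro _ ⟨x, hx, rfl⟩
        rw [← map_pow, hp.2 x hx, map_one]
    · have hle : N ≤ (N.map φ).comap φ := Subgroup.le_comap_map φ N
      refine hE.surj (QuotientGroup.map N (N.map φ) φ hle) ?_ hF
      intro y
      obtain ⟨y, rfl⟩ := QuotientGroup.mk'_surjective _ y
      obtain ⟨x, rfl⟩ := hφ y
      exact ⟨QuotientGroup.mk' N x, rfl⟩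
  · intro G H _ _ φ hφ h
    rw [ext_iff' hE] at h ⊢
    obtain ⟨hH, Q, hQ, f, hF, h1, h2⟩ := h
    refine ⟨Finite.of_injective φ hφ, Q, hQ, f.comp φ, hF, ?_, ?_⟩
    · intro x y hx hy
      apply hφ
      rw [map_mul, map_mul]
      exact h1 _ _ hx hy
    · intro x hx
      apply hφ
      rw [map_pow, map_one]
      exact h2 _ hx
  · intro G H _ _ h h'
    rw [ext_iff' hE] at h h' ⊢
    obtain ⟨hG, Q, hQ, f, hF, h1, h2⟩ := h
    obtain ⟨hH, Q', hQ', f', hF', h1', h2'⟩ := h'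
    refine ⟨inferInstance, Q × Q', inferInstance, f.prodMap f', hE.prod hF hF', ?_, ?_⟩
    · rintro ⟨x, x'⟩ ⟨y, y'⟩ hx hy
      rw [MonoidHom.prodMap_def] at hx hy
      exact Prod.ext (h1 x y (congrArg Prod.fst hx) (congrArg Prod.fst hy))
        (h1' x' y' (congrArg Prod.snd hx) (congrArg Prod.snd hy))
    · rintro ⟨x, x'⟩ hx
      rw [MonoidHom.prodMap_def] at hx
      exact Prod.ext (h2 x (congrArg Prod.fst hx)) (h2' x' (congrArg Prod.snd hx))

theorem pv_elAb (p : ℕ) : PV (fun G _ => Finite G ∧ ElAb p G) := by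
  refine ⟨fun {G} _ h => h.1, ⟨inferInstance, fun x y => rfl, fun x => rfl⟩, ?_, ?_, ?_⟩
  · rintro G H _ _ f hf ⟨hG, h1, h2⟩
    refine ⟨Finite.of_surjective f hf, fun x y => ?_, fun x => ?_⟩
    · obtain ⟨x, rfl⟩ := hf x
      obtain ⟨y, rfl⟩ := hf y
      rw [← map_mul, h1, map_mul]
    · obtain ⟨x, rfl⟩ := hf x
      rw [← map_pow, h2, map_one]
  · rintro G H _ _ f hf ⟨hG, h1, h2⟩
    refine ⟨Finite.of_injective f hf, fun x y => hf ?_, fun x => hf ?_⟩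
    · rw [map_mul, h1, map_mul]
    · rw [map_pow, h2, map_one]
  · rintro G H _ _ ⟨hG, h1, h2⟩ ⟨hH, h1', h2'⟩
    exact ⟨inferInstance, fun x y => Prod.ext (h1 _ _) (h1' _ _), fun x => Prod.ext (h2 _) (h2' _)⟩

private theorem pg_prod {p : ℕ} {G H : Type} [Group G] [Group H] (hG : IsPGroup p G)
    (hH : IsPGroup p H) : IsPGroup p (G × H) := by
  rintro ⟨x, y⟩
  obtain ⟨k, hk⟩ := hG x
  obtain ⟨l, hl⟩ := hH y
  refine ⟨k + l, Prod.ext ?_ ?_⟩
  · show x ^ p ^ (k + l) = 1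
    rw [pow_add, pow_mul, hk, one_pow]
  · show y ^ p ^ (k + l) = 1
    rw [pow_add, mul_comm, pow_mul, hl, one_pow]

theorem pv_abP (p : ℕ) : PV (AbP p) := by
  refine ⟨fun {G} _ h => h.1, ⟨inferInstance, fun x y => rfl, fun x => ⟨0, rfl⟩⟩, ?_, ?_, ?_⟩
  · rintro G H _ _ f hf ⟨hG, h1, h2⟩
    refine ⟨Finite.of_surjective f hf, fun x y => ?_, h2.of_surjective f hf⟩
    obtain ⟨x, rfl⟩ := hf x
    obtain ⟨y, rfl⟩ := hf y
    rw [← map_mul, h1, map_mul]
  · rintro G H _ _ f hf ⟨hG, h1, h2⟩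
    refine ⟨Finite.of_injective f hf, fun x y => hf ?_, h2.of_injective f hf⟩
    rw [map_mul, h1, map_mul]
  · rintro G H _ _ ⟨hG, h1, h2⟩ ⟨hH, h1', h2'⟩
    exact ⟨inferInstance, fun x y => Prod.ext (h1 _ _) (h1' _ _), pg_prod h2 h2'⟩

/-- `A2 p q` is `PV.ext` of `pv_elAb q` -/
theorem pv_A2 (p q : ℕ) : PV (A2 p q) := by
  refine pv_congr (fun G _ => ?_) ((pv_elAb q).ext p)
  constructor
  · rintro ⟨hG, N, hN, h1, h2⟩
    exact ⟨hG, N, hN, h1, h2.2⟩
  · rintro ⟨hG, N, hN, h1, h2⟩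
    exact ⟨hG, N, hN, h1, inferInstance, h2⟩

theorem pv_A3 (p q r : ℕ) : PV (A3 p q r) :=
  (pv_A2 q r).ext p

theorem pv_TT (q : ℕ) : PV (TT q) := by
  refine ⟨fun {G} _ h => h.1, ⟨inferInstance, fun x y z => rfl, fun x y => rfl, fun x => rfl⟩,
    ?_, ?_, ?_⟩
  · rintro G H _ _ f hf ⟨hG, h1, h2, h3⟩
    refine ⟨Finite.of_surjective f hf, fun x y z => ?_, fun x y => ?_, fun x => ?_⟩
    · obtain ⟨x, rfl⟩ := hf x
      obtain ⟨y, rfl⟩ := hf y
      obtain ⟨z, rfl⟩ := hf z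
      rw [← map_commutatorElement, ← map_commutatorElement, h1, map_one]
    · obtain ⟨x, rfl⟩ := hf x
      obtain ⟨y, rfl⟩ := hf y
      rw [← map_pow, ← map_commutatorElement, h2, map_one]
    · obtain ⟨x, rfl⟩ := hf x
      rw [← map_pow, h3, map_one]
  · rintro G H _ _ f hf ⟨hG, h1, h2, h3⟩
    refine ⟨Finite.of_injective f hf, fun x y z => hf ?_, fun x y => hf ?_, fun x => hf ?_⟩
    · rw [map_commutatorElement, map_commutatorElement, h1, map_one]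
    · rw [map_commutatorElement, map_pow, h2, map_one]
    · rw [map_pow, h3, map_one]
  · rintro G H _ _ ⟨hG, h1, h2, h3⟩ ⟨hH, h1', h2', h3'⟩
    exact ⟨inferInstance, fun x y z => Prod.ext (h1 _ _ _) (h1' _ _ _),
      fun x y => Prod.ext (h2 _ _) (h2' _ _), fun x => Prod.ext (h3 _) (h3' _)⟩

theorem pv_AT (p q : ℕ) : PV (AT p q) :=
  (pv_TT q).ext p

/-- the `p`-groups in `F` -/
theorem PV.pgroups (hF : PV F) (p : ℕ) : PV (fun G _ => F G ∧ IsPGroup p G) := by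
  refine ⟨fun {G} _ h => hF.fin h.1, ⟨hF.one, fun x => ⟨0, rfl⟩⟩, ?_, ?_, ?_⟩
  · rintro G H _ _ f hf ⟨h1, h2⟩
    exact ⟨hF.surj f hf h1, h2.of_surjective f hf⟩
  · rintro G H _ _ f hf ⟨h1, h2⟩
    exact ⟨hF.inj f hf h1, h2.of_injective f hf⟩
  · rintro G H _ _ ⟨h1, h2⟩ ⟨h1', h2'⟩
    exact ⟨hF.prod h1 h1', pg_prod h2 h2'⟩

/-- the groups in `F` of order prime to `p` -/
theorem PV.coprime (hF : PV F) {p : ℕ} (hp : p.Prime) : PV (fun G _ => F G ∧ ¬ p ∣ Nat.card G) := by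
  refine ⟨fun {G} _ h => hF.fin h.1, ⟨hF.one, ?_⟩, ?_, ?_, ?_⟩
  · rw [Nat.card_unique]
    exact hp.one_lt.ne' ∘ Nat.dvd_one.1
  · rintro G H _ _ f hf ⟨h1, h2⟩
    exact ⟨hF.surj f hf h1, fun h => h2 (h.trans (Subgroup.card_dvd_of_surjective f hf))⟩
  · rintro G H _ _ f hf ⟨h1, h2⟩
    exact ⟨hF.inj f hf h1, fun h => h2 (h.trans (Subgroup.card_dvd_of_injective f hf))⟩
  · rintro G H _ _ ⟨h1, h2⟩ ⟨h1', h2'⟩
    refine ⟨hF.prod h1 h1', fun h => ?_⟩
    rw [Nat.card_prod] at h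
    rcases hp.dvd_mul.1 h with h | h
    · exact h2 h
    · exact h2' h

theorem soluble_abP (p : ℕ) : Soluble (AbP p) := fun _ _ h => Group.isSolvable_of_comm h.2.1

private theorem sol_ext {p : ℕ} {G : Type} [Group G] (N : Subgroup G) [N.Normal] (h : ElAb p N)
    (h2 : Group.IsSolvable (G ⧸ N)) : Group.IsSolvable G := by
  rw [Group.isSolvable_iff_subgroup_quotient N]
  exact ⟨Group.isSolvable_of_comm h.1, h2⟩

private theorem sol_TT {q : ℕ} {G : Type} [Group G] (h : TT q G) : Group.IsSolvable G := by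
  rw [Group.isSolvable_iff_subgroup_quotient (Subgroup.center G)]
  refine ⟨Group.isSolvable_of_comm fun a b =>
    Subtype.ext (Subgroup.mem_center_iff.1 b.2 (a : G)), Group.isSolvable_of_comm ?_⟩
  intro a b
  obtain ⟨x, rfl⟩ := QuotientGroup.mk'_surjective _ a
  obtain ⟨y, rfl⟩ := QuotientGroup.mk'_surjective _ b
  rw [← map_mul, ← map_mul]
  refine QuotientGroup.eq.2 ?_
  rw [Subgroup.mem_center_iff]
  intro g
  have h1 := h.2.1 y⁻¹ x⁻¹ g
  rw [commutatorElement_eq_one_iff_mul_comm, commutatorElement_def] at h1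
  have h2 : (x * y)⁻¹ * (y * x) = y⁻¹ * x⁻¹ * y⁻¹⁻¹ * x⁻¹⁻¹ := by group
  rw [h2]
  exact h1.symm

theorem soluble_A2 (p q : ℕ) : Soluble (A2 p q) := by
  rintro G _ ⟨_, N, hN, h1, h2⟩
  exact sol_ext N h1 (Group.isSolvable_of_comm h2.1)

theorem soluble_A3 (p q r : ℕ) : Soluble (A3 p q r) := by
  rintro G _ ⟨_, N, hN, h1, h2⟩
  exact sol_ext N h1 (soluble_A2 q r _ h2)

theorem soluble_AT (p q : ℕ) : Soluble (AT p q) := by
  rintro G _ ⟨_, N, hN, h1, h2⟩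
  exact sol_ext N h1 (sol_TT h2)

/-- finite `p`-groups are soluble -/
theorem soluble_pgroups (hF : PV F) {p : ℕ} (hp : p.Prime) (h : ∀ (G : Type) [Group G], F G → IsPGroup p G) :
    Soluble F := by
  intro G _ hG
  have : Fact p.Prime := ⟨hp⟩
  have : Finite G := hF.fin hG
  have : Group.IsNilpotent G := (h G hG).isNilpotent
  infer_instance

end Pool.Agent.HForm
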