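import Pool.Agent.Lib_MP_4009a7_al.Base

/-!
# Piece FOX: Fox derivatives and laws of semidirect products
-/

set_option autoImplicit false

open scoped commutatorElement TensorProduct

namespace Pool.Agent.HForm

section fox

variable {n : ℕ}

private theorem fox_h (i : Fin n) (w : FreeGroup (Fin n)) :
    (FreeGroup.lift (fun j => (⟨if j = i then Finsupp.single 1 1 else 0, FreeGroup.of j⟩ :
      SD (trRep n))) w).h = w := by
  have h : (SD.toH (trRep n)).comp (FreeGroup.lift (fun j =>
      (⟨if j = i then Finsupp.single 1 1 else 0, FreeGroup.of j⟩ : SD (trRep n)))) =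
      MonoidHom.id (FreeGroup (Fin n)) := by
    ext j
    simp [SD.toH]
  exact DFunLike.congr_fun h w

theorem fox_one (i : Fin n) : fox i (1 : FreeGroup (Fin n)) = 0 := by
  unfold fox
  rw [map_one]
  rfl

theorem fox_of (i j : Fin n) : fox i (FreeGroup.of j) = if j = i then Finsupp.single 1 1 else 0 := by
  unfold fox
  rw [FreeGroup.lift_apply_of]

theorem fox_mul (i : Fin n) (u w : FreeGroup (Fin n)) :
    fox i (u * w) = fox i u + trRep n u (fox i w) := by
  unfold fox
  rw [map_mul, SD.mul_v, fox_h]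

theorem fox_inv (i : Fin n) (u : FreeGroup (Fin n)) : fox i u⁻¹ = - trRep n u⁻¹ (fox i u) := by
  unfold fox
  rw [map_inv, SD.inv_v, fox_h]

private theorem tr_sum (u : FreeGroup (Fin n)) (f : FreeGroup (Fin n) →₀ ℤ) :
    (trRep n u f).sum (fun _ c => c) = f.sum (fun _ c => c) := by
  change (Finsupp.mapDomain (fun x => u * x) f).sum (fun _ c => c) = f.sum (fun _ c => c)
  rw [Finsupp.sum_mapDomain_index]
  · intro _; rfl
  · intro _ _ _; rfl

private theorem sum_add (f g : FreeGroup (Fin n) →₀ ℤ) :
    (f + g).sum (fun _ c => c) = f.sum (fun _ c => c) + g.sum (fun _ c => c) :=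
  Finsupp.sum_add_index' (fun _ => rfl) (fun _ _ _ => rfl)

private theorem sum_neg (f : FreeGroup (Fin n) →₀ ℤ) :
    (-f).sum (fun _ c => c) = - f.sum (fun _ c => c) := by
  have h := sum_add f (-f)
  rw [add_neg_cancel, Finsupp.sum_zero_index] at h
  linarith

/-- the augmentation of `fox i w` is the exponent sum of `x i` in `w` -/
theorem fox_sum (i : Fin n) (w : FreeGroup (Fin n)) : (fox i w).sum (fun _ c => c) =
    Multiplicative.toAdd (FreeGroup.lift (fun j => Multiplicative.ofAdd (if j = i then (1 : ℤ) else 0)) w) := by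
  let φ : FreeGroup (Fin n) →* Multiplicative ℤ :=
    { toFun := fun w => Multiplicative.ofAdd ((fox i w).sum (fun _ c => c))
      map_one' := by
        rw [fox_one, Finsupp.sum_zero_index]; rfl
      map_mul' := fun u v => by
        rw [fox_mul, sum_add, tr_sum]; rfl }
  have h : φ = FreeGroup.lift (fun j => Multiplicative.ofAdd (if j = i then (1 : ℤ) else 0)) := by
    ext j
    rw [FreeGroup.lift_apply_of]
    change Multiplicative.ofAdd ((fox i (FreeGroup.of j)).sum (fun _ c => c)) = _
    rw [fox_of]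
    split_ifs with hj
    · rw [Finsupp.sum_single_index rfl]; rfl
    · rw [Finsupp.sum_zero_index]; rfl
  rw [← h]
  rfl

end fox

section sat

variable {R V H H' : Type} [Ring R] [AddCommGroup V] [Module R V] [Group H] [Group H'] {n : ℕ}

theorem ev_add (ρ : H →* Module.End R V) (t : Fin n → H) (f g : FreeGroup (Fin n) →₀ ℤ) :
    ev ρ t (f + g) = ev ρ t f + ev ρ t g := by
  unfold ev
  exact Finsupp.sum_add_index' (fun _ => zero_smul _ _) (fun _ _ _ => add_smul _ _ _)

private theorem ev_zero (ρ : H →* Module.End R V) (t : Fin n → H) :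
    ev ρ t (0 : FreeGroup (Fin n) →₀ ℤ) = 0 := by
  unfold ev
  exact Finsupp.sum_zero_index

private theorem ev_neg (ρ : H →* Module.End R V) (t : Fin n → H) (f : FreeGroup (Fin n) →₀ ℤ) :
    ev ρ t (-f) = - ev ρ t f := by
  have h := ev_add ρ t f (-f)
  rw [add_neg_cancel, ev_zero] at h
  exact (neg_eq_of_add_eq_zero_right h.symm).symm

theorem ev_tr (ρ : H →* Module.End R V) (t : Fin n → H) (u : FreeGroup (Fin n))
    (f : FreeGroup (Fin n) →₀ ℤ) : ev ρ t (trRep n u f) = ρ (FreeGroup.lift t u) * ev ρ t f := by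
  unfold ev
  change (Finsupp.mapDomain (fun x => u * x) f).sum (fun g c => c • ρ (FreeGroup.lift t g)) = _
  rw [Finsupp.sum_mapDomain_index (h := fun g c => c • ρ (FreeGroup.lift t g))
    (fun _ => zero_smul _ _) (fun _ _ _ => add_smul _ _ _)]
  unfold Finsupp.sum
  rw [Finset.mul_sum]
  refine Finset.sum_congr rfl fun g _ => ?_
  beta_reduce
  rw [map_mul, map_mul, mul_smul_comm]

private theorem ev_single (ρ : H →* Module.End R V) (t : Fin n → H) (g : FreeGroup (Fin n)) (c : ℤ) :
    ev ρ t (Finsupp.single g c) = c • ρ (FreeGroup.lift t g) := by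
  unfold ev
  rw [Finsupp.sum_single_index (h := fun g c => c • ρ (FreeGroup.lift t g)) (zero_smul _ _)]

/-- the fundamental formula: induction on `w` (`FreeGroup.induction_on`), with `fox_mul`, `fox_inv` -/
theorem sd_lift (ρ : H →* Module.End R V) (t : Fin n → H) (v : Fin n → V) (w : FreeGroup (Fin n)) :
    FreeGroup.lift (fun j => (⟨v j, t j⟩ : SD ρ)) w =
      ⟨∑ i, ev ρ t (fox i w) (v i), FreeGroup.lift t w⟩ := by
  let φ : FreeGroup (Fin n) →* SD ρ :=
    { toFun := fun w => ⟨∑ i, ev ρ t (fox i w) (v i), FreeGroup.lift t w⟩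
      map_one' := by
        ext
        · change ∑ i, ev ρ t (fox i 1) (v i) = 0
          refine Finset.sum_eq_zero fun i _ => ?_
          rw [fox_one, ev_zero]; rfl
        · change FreeGroup.lift t 1 = 1
          rw [map_one]
      map_mul' := fun u w => by
        ext
        · change ∑ i, ev ρ t (fox i (u * w)) (v i) =
            (∑ i, ev ρ t (fox i u) (v i)) + ρ (FreeGroup.lift t u) (∑ i, ev ρ t (fox i w) (v i))
          rw [map_sum, ← Finset.sum_add_distrib]
          refine Finset.sum_congr rfl fun i _ => ?_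
          rw [fox_mul, ev_add, ev_tr, LinearMap.add_apply, Module.End.mul_apply]
        · change FreeGroup.lift t (u * w) = FreeGroup.lift t u * FreeGroup.lift t w
          rw [map_mul] }
  have h : FreeGroup.lift (fun j => (⟨v j, t j⟩ : SD ρ)) = φ := by
    ext j
    · rw [FreeGroup.lift_apply_of]
      change v j = ∑ i, ev ρ t (fox i (FreeGroup.of j)) (v i)
      rw [Finset.sum_eq_single j]
      · rw [fox_of, if_pos rfl, ev_single, map_one, map_one, one_smul]; rfl
      · intro b _ hb
        rw [fox_of, if_neg (fun h => hb h.symm), ev_zero]; rfl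
      · intro hj; exact absurd (Finset.mem_univ j) hj
    · rw [FreeGroup.lift_apply_of]
      change t j = FreeGroup.lift t (FreeGroup.of j)
      rw [FreeGroup.lift_apply_of]
  rw [h]
  rfl

/-- take `v = Pi.single i x` in `sd_lift` -/
theorem sat_of_law {w : FreeGroup (Fin n)} {ρ : H →* Module.End R V} (h : Law w (SD ρ)) : Sat w ρ := by
  intro t
  have h1 : FreeGroup.lift t w = 1 := by
    have h2 := h (fun j => (⟨0, t j⟩ : SD ρ))
    rw [sd_lift ρ t (fun _ => 0) w] at h2
    exact congrArg SD.h h2
  refine ⟨by rw [h1, map_one], fun i => ?_⟩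
  ext x
  have h2 := h (fun j => (⟨Pi.single (M := fun _ => V) i x j, t j⟩ : SD ρ))
  rw [sd_lift ρ t (Pi.single (M := fun _ => V) i x) w] at h2
  have h3 := congrArg SD.v h2
  change ∑ j, ev ρ t (fox j w) (Pi.single (M := fun _ => V) i x j) = 0 at h3
  rw [Finset.sum_eq_single i] at h3
  · rw [Pi.single_eq_same] at h3
    exact h3
  · intro b _ hb
    rw [Pi.single_eq_of_ne hb, map_zero]
  · intro hj; exact absurd (Finset.mem_univ i) hj

theorem Sat.comp {w : FreeGroup (Fin n)} {ρ : H →* Module.End R V} (h : Sat w ρ) (f : H' →* H) :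
    Sat w (ρ.comp f) := by
  intro t
  have hl : ∀ g : FreeGroup (Fin n), f (FreeGroup.lift t g) = FreeGroup.lift (fun j => f (t j)) g := by
    intro g
    have h1 : f.comp (FreeGroup.lift t) = FreeGroup.lift (fun j => f (t j)) := by
      ext j
      simp
    exact DFunLike.congr_fun h1 g
  obtain ⟨h1, h2⟩ := h (fun j => f (t j))
  refine ⟨?_, fun i => ?_⟩
  · rw [MonoidHom.comp_apply, hl]; exact h1
  · rw [← h2 i]
    unfold ev
    refine Finsupp.sum_congr fun g _ => ?_
    rw [MonoidHom.comp_apply, hl]

theorem Sat.sub {w : FreeGroup (Fin n)} {ρ : H →* Module.End R V} (h : Sat w ρ) (U : Submodule R V)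
    (hU : Inv ρ U) : Sat w (subRep ρ U hU) := by
  intro t
  obtain ⟨h1, h2⟩ := h t
  refine ⟨?_, fun i => ?_⟩
  · ext v
    rw [subRep_apply, h1]
    rfl
  · ext v
    have h3 : ∀ f : FreeGroup (Fin n) →₀ ℤ, ((ev (subRep ρ U hU) t f v : U) : V) = ev ρ t f v := by
      intro f
      unfold ev Finsupp.sum
      rw [LinearMap.sum_apply, LinearMap.sum_apply, AddSubmonoidClass.coe_finsetSum]
      refine Finset.sum_congr rfl fun g _ => ?_
      rw [LinearMap.smul_apply, LinearMap.smul_apply]
      rfl
    rw [h3, h2 i]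
    rfl

/-- `Sat` passes to homomorphic images of the acting group: if `ρ' ∘ f = ρ` with `f` surjective -/
theorem Sat.of_surj {w : FreeGroup (Fin n)} {ρ' : H' →* Module.End R V} (f : H →* H')
    (hf : Function.Surjective f) (h : Sat w (ρ'.comp f)) : Sat w ρ' := by
  intro t
  choose s hs using fun j => hf (t j)
  have hl : ∀ g : FreeGroup (Fin n), f (FreeGroup.lift s g) = FreeGroup.lift t g := by
    intro g
    have h1 : f.comp (FreeGroup.lift s) = FreeGroup.lift t := by
      ext j
      simp [hs]
    exact DFunLike.congr_fun h1 g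
  obtain ⟨h1, h2⟩ := h s
  refine ⟨?_, fun i => ?_⟩
  · rw [MonoidHom.comp_apply, hl] at h1; exact h1
  · rw [← h2 i]
    unfold ev
    refine Finsupp.sum_congr fun g _ => ?_
    rw [MonoidHom.comp_apply, hl]

end sat

section bc

variable {k K V H : Type} [Field k] [Field K] [Algebra k K] [AddCommGroup V] [Module k V] [Group H]

/-- extension of scalars -/
noncomputable def bcRep (K : Type) [Field K] [Algebra k K] (ρ : H →* Module.End k V) :
    H →* Module.End K (K ⊗[k] V) where
  toFun h := LinearMap.baseChange K (ρ h)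
  map_one' := by
    rw [map_one]; exact LinearMap.baseChange_id
  map_mul' a b := by
    rw [map_mul]; exact LinearMap.baseChange_comp _ _

/-- `ev` commutes with base change -/
theorem Sat.bc {n : ℕ} {w : FreeGroup (Fin n)} {ρ : H →* Module.End k V} (h : Sat w ρ) :
    Sat w (bcRep K ρ) := by
  intro t
  obtain ⟨h1, h2⟩ := h t
  have hsmul : ∀ (c : ℤ) (f : Module.End k V), LinearMap.baseChange K (c • f) =
      c • LinearMap.baseChange K f := by
    intro c f
    exact map_zsmul (LinearMap.baseChangeHom k K V V).toAddMonoidHom c f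
  have h3 : ∀ f : FreeGroup (Fin n) →₀ ℤ, ev (bcRep K ρ) t f = LinearMap.baseChange K (ev ρ t f) := by
    intro f
    unfold ev Finsupp.sum
    have h4 : LinearMap.baseChange K (∑ g ∈ f.support, f g • ρ (FreeGroup.lift t g)) =
        ∑ g ∈ f.support, LinearMap.baseChange K (f g • ρ (FreeGroup.lift t g)) := by
      exact map_sum (LinearMap.baseChangeHom k K V V) _ _
    rw [h4]
    refine Finset.sum_congr rfl fun g _ => ?_
    rw [hsmul]
    rfl
  refine ⟨?_, fun i => ?_⟩
  · change LinearMap.baseChange K (ρ (FreeGroup.lift t w)) = 1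
    rw [h1]; exact LinearMap.baseChange_id
  · rw [h3, h2 i]; exact LinearMap.baseChange_zero

end bc

end Pool.Agent.HForm
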