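import Pool.Agent.Lib_MP_4009a7_al.Base

/-!
# Piece GAS: Gaschuetz' lemma on lifting generators
-/

set_option autoImplicit false

namespace Pool.Agent.HForm

section gas

variable {G H : Type} [Group G] [Group H] [Fintype G] (ρ : G →* H) {n : ℕ}

open Classical in
private noncomputable def gT (K : Subgroup G) (t : Fin n → H) : Finset (Fin n → G) :=
  Finset.univ.filter (fun s : Fin n → G => (∀ i, s i ∈ K) ∧ ∀ i, ρ (s i) = t i)

open Classical in
private noncomputable def gC (K : Subgroup G) (t : Fin n → H) : Finset (Fin n → G) :=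
  Finset.univ.filter (fun s : Fin n → G => Subgroup.closure (Set.range s) = K ∧ ∀ i, ρ (s i) = t i)

private theorem gT_le (K : Subgroup G) (hK : K.map ρ = ⊤) (t t' : Fin n → H) :
    (gT ρ K t).card ≤ (gT ρ K t').card := by
  have h1 : ∀ x : H, ∃ k ∈ K, ρ k = x := by
    intro x
    have : x ∈ K.map ρ := by rw [hK]; trivial
    exact this
  choose k hk hρk using fun i => h1 (t i)
  choose k' hk' hρk' using fun i => h1 (t' i)
  apply Finset.card_le_card_of_injOn (fun s i => s i * (k i)⁻¹ * k' i)
  · intro s hs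
    simp only [gT, Finset.coe_filter, Finset.mem_univ, true_and, Set.mem_ofPred_eq] at hs ⊢
    refine ⟨fun i => K.mul_mem (K.mul_mem (hs.1 i) (K.inv_mem (hk i))) (hk' i), fun i => ?_⟩
    rw [map_mul, map_mul, map_inv, hs.2 i, hρk, hρk']
    simp
  · intro s _ s' _ hss
    funext i
    have := congrFun hss i
    simpa using this

open Classical in
private theorem gT_card (K : Subgroup G) (t : Fin n → H) :
    (gT ρ K t).card = ∑ L ∈ (Finset.univ.filter (fun L : Subgroup G => L ≤ K)), (gC ρ L t).card := by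
  rw [Finset.card_eq_sum_card_fiberwise (f := fun s : Fin n → G => Subgroup.closure (Set.range s))
    (t := Finset.univ.filter (fun L : Subgroup G => L ≤ K))]
  · apply Finset.sum_congr rfl
    intro L hL
    congr 1
    ext s
    simp only [gT, gC, Finset.mem_filter, Finset.mem_univ, true_and] at hL ⊢
    constructor
    · rintro ⟨⟨_, h2⟩, h3⟩
      exact ⟨h3, h2⟩
    · rintro ⟨h3, h2⟩
      refine ⟨⟨fun i => hL ?_, h2⟩, h3⟩
      rw [← h3]
      exact Subgroup.subset_closure ⟨i, rfl⟩
  · intro s hs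
    simp only [gT, Finset.coe_filter, Finset.mem_univ, true_and, Set.mem_ofPred_eq] at hs ⊢
    rw [Subgroup.closure_le]
    rintro _ ⟨i, rfl⟩
    exact hs.1 i

private theorem gC_zero (K : Subgroup G) (hK : K.map ρ ≠ ⊤) (t : Fin n → H)
    (ht : Subgroup.closure (Set.range t) = ⊤) : (gC ρ K t).card = 0 := by
  rw [Finset.card_eq_zero, Finset.eq_empty_iff_forall_notMem]
  intro s hs
  simp only [gC, Finset.mem_filter, Finset.mem_univ, true_and] at hs
  apply hK
  rw [← hs.1, MonoidHom.map_closure, ← Set.range_comp, ← ht]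
  congr 2
  funext i
  exact hs.2 i

private theorem gC_eq (t t' : Fin n → H) (ht : Subgroup.closure (Set.range t) = ⊤)
    (ht' : Subgroup.closure (Set.range t') = ⊤) :
    ∀ K : Subgroup G, K.map ρ = ⊤ → (gC ρ K t).card = (gC ρ K t').card := by
  classical
  intro K
  induction K using (wellFounded_lt (α := Subgroup G)).induction with
  | _ K ih =>
    intro hK
    have h1 : (gT ρ K t).card = (gT ρ K t').card :=
      le_antisymm (gT_le ρ K hK t t') (gT_le ρ K hK t' t)
    rw [gT_card, gT_card] at h1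
    have hmem : K ∈ (Finset.univ.filter (fun L : Subgroup G => L ≤ K)) := by simp
    rw [← Finset.add_sum_erase _ (fun L => (gC ρ L t).card) hmem,
      ← Finset.add_sum_erase _ (fun L => (gC ρ L t').card) hmem] at h1
    have h2 : ∑ L ∈ (Finset.univ.filter (fun L : Subgroup G => L ≤ K)).erase K, (gC ρ L t).card
        = ∑ L ∈ (Finset.univ.filter (fun L : Subgroup G => L ≤ K)).erase K, (gC ρ L t').card := by
      apply Finset.sum_congr rfl
      intro L hL
      simp only [Finset.mem_erase, Finset.mem_filter, Finset.mem_univ, true_and] at hL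
      by_cases hLt : L.map ρ = ⊤
      · exact ih L (lt_of_le_of_ne hL.2 hL.1) hLt
      · rw [gC_zero ρ L hLt t ht, gC_zero ρ L hLt t' ht']
    omega

end gas

/-- GASCHUETZ' LEMMA. PROOF. For a subgroup `K ≤ G` with `K.map ρ = ⊤` and a generating tuple `t` of `H` let
`c K t` be the number of tuples `s : Fin n → G` with `closure (range s) = K` and `ρ ∘ s = t`. CLAIM: `c K t`
does not depend on the generating tuple `t`. Strong induction on `Nat.card K`: the number of tuples `s`
with all entries in `K` and `ρ ∘ s = t` is `(Nat.card (K ⊓ ρ.ker)) ^ n` (each `t i` has a lift in `K`, the lifts in `K`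
form a coset of `K ⊓ ρ.ker`), and it is the sum of `c L t` over the subgroups `L ≤ K` with `L.map ρ = ⊤` (the
subgroup `L` generated by `s` maps onto the subgroup generated by `t`, which is `⊤`). So
`c K t = (Nat.card (K ⊓ ρ.ker)) ^ n - ∑_{L < K, L.map ρ = ⊤} c L t`.
Now `c ⊤ (ρ ∘ s₀) ≥ 1`, so `c ⊤ t ≥ 1`. -/
theorem gaschutz {G H : Type} [Group G] [Group H] [Finite G] (ρ : G →* H)
    (hρ : Function.Surjective ρ) {n : ℕ} (s₀ : Fin n → G) (hs₀ : Subgroup.closure (Set.range s₀) = ⊤)
    (t : Fin n → H) (ht : Subgroup.closure (Set.range t) = ⊤) :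
    ∃ s : Fin n → G, Subgroup.closure (Set.range s) = ⊤ ∧ ∀ i, ρ (s i) = t i := by
  classical
  have := Fintype.ofFinite G
  have hmap : (⊤ : Subgroup G).map ρ = ⊤ := Subgroup.map_top_of_surjective ρ hρ
  have ht' : Subgroup.closure (Set.range (fun i => ρ (s₀ i))) = ⊤ := by
    rw [← hmap, ← hs₀, MonoidHom.map_closure, ← Set.range_comp]
    rfl
  have h1 := gC_eq ρ t (fun i => ρ (s₀ i)) ht ht' ⊤ hmap
  have h2 : s₀ ∈ gC ρ ⊤ (fun i => ρ (s₀ i)) := by
    simp [gC, hs₀]
  have h3 : 0 < (gC ρ ⊤ t).card := by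
    rw [h1]
    exact Finset.card_pos.mpr ⟨_, h2⟩
  obtain ⟨s, hs⟩ := Finset.card_pos.mp h3
  simp only [gC, Finset.mem_filter, Finset.mem_univ, true_and] at hs
  exact ⟨s, hs⟩

end Pool.Agent.HForm
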