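import Pool.Agent.Lib_MP_4009a7_al.HeisD

/-!
# Piece HEIS: the Heisenberg group generates `T_q`
-/

set_option autoImplicit false

open scoped commutatorElement

namespace Pool.Agent.HForm

variable {q : ℕ}

private theorem hs_pow (a : Heis q) (n : ℕ) :
    a ^ n = ⟨n * a.x, n * a.y, n * a.z + (n.choose 2 : ℕ) * (a.x * a.y)⟩ := by
  induction n with
  | zero => ext <;> simp
  | succ n ih =>
    rw [pow_succ, ih]
    have h : (n + 1).choose 2 = n + n.choose 2 := by
      rw [Nat.choose_succ_succ' n 1, Nat.choose_one_right]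
    ext
    · simp only [Heis.mul_x]; push_cast; ring
    · simp only [Heis.mul_y]; push_cast; ring
    · simp only [Heis.mul_z, h]; push_cast; ring

private theorem hs_central {c : Heis q} (hx : c.x = 0) (hy : c.y = 0) (a : Heis q) :
    ⁅c, a⁆ = 1 := by
  rw [commutatorElement_eq_one_iff_mul_comm]
  ext
  · simp only [Heis.mul_x]; ring
  · simp only [Heis.mul_y]; ring
  · simp only [Heis.mul_z, hx, hy]; ring

/-- `Heis q` is in `T_q`: commutators are `⟨0, 0, _⟩`, `x ^ q = ⟨0, 0, _⟩`, `x ^ q = 1` for odd `q` and `x ^ 4 = 1` for `q = 2` (`⟨x, y, z⟩ ^ n = ⟨n x, n y, n z + (n (n - 1) / 2) x y⟩`) -/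
theorem heis_TT (hq : q.Prime) : TT q (Heis q) := by
  have : NeZero q := ⟨hq.ne_zero⟩
  refine ⟨inferInstance, fun x y z => ?_, fun x y => ?_, fun x => ?_⟩
  · apply hs_central
    · simp only [commutatorElement_def, Heis.mul_x, Heis.inv_x]; ring
    · simp only [commutatorElement_def, Heis.mul_y, Heis.inv_y]; ring
  · apply hs_central <;> rw [hs_pow] <;> simp
  · rw [hs_pow]
    have h1 : ((q * Nat.gcd 2 q : ℕ) : ZMod q) = 0 := by
      rw [Nat.cast_mul, ZMod.natCast_self, zero_mul]
    have h2 : (((q * Nat.gcd 2 q).choose 2 : ℕ) : ZMod q) = 0 := by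
      rw [ZMod.natCast_eq_zero_iff]
      rcases hq.eq_two_or_odd' with h | h
      · subst h
        decide
      · have hg : Nat.gcd 2 q = 1 := Nat.coprime_two_left.2 h
        rw [hg, mul_one, Nat.choose_two_right]
        obtain ⟨r, hr⟩ := h
        have e : q * (q - 1) / 2 = q * r := by
          have : q - 1 = 2 * r := by omega
          rw [this]
          have : q * (2 * r) = 2 * (q * r) := by ring
          rw [this]
          exact Nat.mul_div_cancel_left _ (by norm_num)
        rw [e]
        exact dvd_mul_right _ _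
    ext <;> simp [h1, h2]

/-! ### groups of class two -/

section classTwo

variable {X : Type} [Group X]

private theorem hs_mem_center (hX : ∀ x y z : X, ⁅⁅x, y⁆, z⁆ = 1) (x y : X) :
    ⁅x, y⁆ ∈ Subgroup.center X := by
  rw [Subgroup.mem_center_iff]
  intro g
  exact (commutatorElement_eq_one_iff_mul_comm.1 (hX x y g)).symm

/-- the commutator as an element of the center -/
private def zc (hX : ∀ x y z : X, ⁅⁅x, y⁆, z⁆ = 1) (x y : X) : Subgroup.center X :=
  ⟨⁅x, y⁆, hs_mem_center hX x y⟩

private theorem hs_swap (hX : ∀ x y z : X, ⁅⁅x, y⁆, z⁆ = 1) (x y : X) :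
    x * y = y * x * (zc hX x y : X) := by
  have h : (zc hX x y : X) = x * y * x⁻¹ * y⁻¹ := rfl
  have hc := (Subgroup.mem_center_iff.1 (zc hX x y).2 (y * x))
  rw [hc, h]
  group

private theorem hs_uniq {X : Type} [Group X] {x y c : X} (hc : x * y = y * x * c)
    (hcc : ∀ g, g * c = c * g) : ⁅x, y⁆ = c := by
  rw [commutatorElement_def, hc, hcc (y * x)]
  group

private theorem hs_zc_mul_left (hX : ∀ x y z : X, ⁅⁅x, y⁆, z⁆ = 1) (x x' y : X) :
    zc hX (x * x') y = zc hX x y * zc hX x' y := by
  apply Subtype.ext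
  change ⁅x * x', y⁆ = (zc hX x y : X) * (zc hX x' y : X)
  apply hs_uniq
  · have c1 := fun g => Subgroup.mem_center_iff.1 (zc hX x y).2 g
    have h1 := hs_swap hX x y
    have h2 := hs_swap hX x' y
    calc x * x' * y = x * (x' * y) := by group
      _ = x * (y * x' * (zc hX x' y : X)) := by rw [h2]
      _ = (x * y) * x' * (zc hX x' y : X) := by group
      _ = (y * x * (zc hX x y : X)) * x' * (zc hX x' y : X) := by rw [h1]
      _ = y * x * ((zc hX x y : X) * x') * (zc hX x' y : X) := by group
      _ = y * x * (x' * (zc hX x y : X)) * (zc hX x' y : X) := by rw [← c1 x']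
      _ = _ := by group
  · intro g
    exact Subgroup.mem_center_iff.1 (zc hX x y * zc hX x' y).2 g

private theorem hs_zc_inv (hX : ∀ x y z : X, ⁅⁅x, y⁆, z⁆ = 1) (x y : X) :
    zc hX y x = (zc hX x y)⁻¹ := by
  apply Subtype.ext
  change ⁅y, x⁆ = (⁅x, y⁆)⁻¹
  rw [commutatorElement_inv]

/-- the commutator with `y` as a homomorphism to the center -/
private def zhom (hX : ∀ x y z : X, ⁅⁅x, y⁆, z⁆ = 1) (y : X) : X →* Subgroup.center X :=
  MonoidHom.mk' (fun x => zc hX x y) (fun a b => hs_zc_mul_left hX a b y)

private theorem hs_zc_zpow_left (hX : ∀ x y z : X, ⁅⁅x, y⁆, z⁆ = 1) (x y : X) (n : ℤ) :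
    zc hX (x ^ n) y = zc hX x y ^ n :=
  map_zpow (zhom hX y) x n

private theorem hs_zc_zpow_right (hX : ∀ x y z : X, ⁅⁅x, y⁆, z⁆ = 1) (x y : X) (n : ℤ) :
    zc hX x (y ^ n) = zc hX x y ^ n := by
  rw [hs_zc_inv hX (y ^ n) x, hs_zc_zpow_left, hs_zc_inv hX x y, inv_zpow, inv_inv]

/-- moving a power to the left -/
private theorem hs_moveA (hX : ∀ x y z : X, ⁅⁅x, y⁆, z⁆ = 1) {n : ℕ} (t : Fin n → X)
    (m : Fin n → ℤ) (j : Fin n) (e : ℤ) (L : List (Fin n)) :
    (L.map (fun k => t k ^ m k)).prod * t j ^ e =
      t j ^ e * (L.map (fun k => t k ^ m k)).prod *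
        ((L.map (fun l => zc hX (t j) (t l) ^ (-(m l * e)))).prod : Subgroup.center X) := by
  induction L with
  | nil => simp
  | cons a L ih =>
    rw [List.map_cons, List.prod_cons, List.map_cons, List.prod_cons, mul_assoc, ih,
      Subgroup.coe_mul]
    have h1 := hs_swap hX (t a ^ m a) (t j ^ e)
    have h2 : zc hX (t a ^ m a) (t j ^ e) = zc hX (t j) (t a) ^ (-(m a * e)) := by
      rw [hs_zc_zpow_left, hs_zc_zpow_right, hs_zc_inv hX (t j) (t a), ← zpow_mul, inv_zpow,
        ← zpow_neg]
      congr 1
      ring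
    rw [h2] at h1
    set c := ((zc hX (t j) (t a) ^ (-(m a * e)) : Subgroup.center X) : X) with hc
    set d := (((L.map (fun l => zc hX (t j) (t l) ^ (-(m l * e)))).prod : Subgroup.center X) : X)
      with hd
    set Q := (L.map (fun k => t k ^ m k)).prod with hQ
    have hcc : ∀ g, g * c = c * g := fun g =>
      Subgroup.mem_center_iff.1 (zc hX (t j) (t a) ^ (-(m a * e))).2 g
    calc t a ^ m a * (t j ^ e * Q * d) = (t a ^ m a * t j ^ e) * Q * d := by group
      _ = (t j ^ e * t a ^ m a * c) * Q * d := by rw [h1]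
      _ = t j ^ e * t a ^ m a * (c * Q) * d := by group
      _ = t j ^ e * t a ^ m a * (Q * c) * d := by rw [hcc Q]
      _ = t j ^ e * (t a ^ m a * Q) * (c * d) := by group

private theorem hs_moveB (hX : ∀ x y z : X, ⁅⁅x, y⁆, z⁆ = 1) {n : ℕ} (t : Fin n → X)
    (m : Fin n → ℤ) (j : Fin n) (e : ℤ) (L : List (Fin n)) (hL : L.Pairwise (· < ·)) (hj : j ∈ L) :
    (L.map (fun k => t k ^ m k)).prod * t j ^ e =
      (L.map (fun k => t k ^ (m k + if k = j then e else 0))).prod *
        ((L.map (fun l => if j < l then zc hX (t j) (t l) ^ (-(m l * e)) else 1)).prod :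
          Subgroup.center X) := by
  induction L with
  | nil => simp at hj
  | cons a L ih =>
    rw [List.pairwise_cons] at hL
    rw [List.map_cons, List.prod_cons, List.map_cons, List.prod_cons, List.map_cons,
      List.prod_cons]
    by_cases haj : a = j
    · subst haj
      rw [mul_assoc, hs_moveA hX t m a e L, if_pos rfl, if_neg (lt_irrefl a), one_mul]
      have h1 : L.map (fun k => t k ^ (m k + if k = a then e else 0)) =
          L.map (fun k => t k ^ m k) := by
        refine List.map_congr_left (fun k hk => ?_)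
        rw [if_neg (hL.1 k hk).ne', add_zero]
      have h2 : L.map (fun l => if a < l then zc hX (t a) (t l) ^ (-(m l * e)) else 1) =
          L.map (fun l => zc hX (t a) (t l) ^ (-(m l * e))) := by
        refine List.map_congr_left (fun k hk => ?_)
        rw [if_pos (hL.1 k hk)]
      rw [h1, h2, zpow_add]
      group
    · have hjL : j ∈ L := by
        rcases List.mem_cons.1 hj with h | h
        · exact absurd h.symm haj
        · exact h
      have haj' : a < j := hL.1 j hjL
      rw [mul_assoc, ih hL.2 hjL, if_neg haj, add_zero, if_neg haj'.not_gt, one_mul]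
      group

end classTwo

private instance hsCG {X : Type} [Group X] : CommGroup (Subgroup.center X) :=
  { (inferInstance : Group (Subgroup.center X)) with
    mul_comm := fun a b => Subtype.ext (Subgroup.mem_center_iff.1 b.2 a) }

/-- the product of powers -/
private def PP {n : ℕ} {X : Type} [Group X] (m : Fin n → ℤ) (t : Fin n → X) : X :=
  (List.ofFn (fun k => t k ^ m k)).prod

/-- the product of commutators -/
private def CC {n : ℕ} {X : Type} [Group X] (c : Fin n → Fin n → ℤ) (t : Fin n → X) : X :=
  (List.ofFn (fun k => (List.ofFn (fun l => if k < l then ⁅t k, t l⁆ ^ c k l else 1)).prod)).prod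

private theorem hs_CC {n : ℕ} {X : Type} [Group X] (hX : ∀ x y z : X, ⁅⁅x, y⁆, z⁆ = 1)
    (c : Fin n → Fin n → ℤ) (t : Fin n → X) :
    CC c t = ((∏ k, ∏ l, if k < l then zc hX (t k) (t l) ^ c k l else 1 : Subgroup.center X) : X) := by
  have h1 : ∀ k, (List.ofFn (fun l => if k < l then ⁅t k, t l⁆ ^ c k l else 1)).prod =
      ((∏ l, if k < l then zc hX (t k) (t l) ^ c k l else 1 : Subgroup.center X) : X) := by
    intro k
    rw [← List.prod_ofFn, ← Subgroup.coe_subtype, map_list_prod, List.map_ofFn]
    congr 2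
    funext l
    simp only [Function.comp]
    split
    · simp [zc]
    · simp
  rw [CC, ← List.prod_ofFn, ← Subgroup.coe_subtype, map_list_prod, List.map_ofFn]
  congr 2
  funext k
  rw [h1]
  rfl

/-- one more letter -/
private theorem hs_step {n : ℕ} (m : Fin n → ℤ) (c : Fin n → Fin n → ℤ) (j : Fin n) (e : ℤ) :
    ∃ (m' : Fin n → ℤ) (c' : Fin n → Fin n → ℤ), ∀ (X : Type) [Group X],
      (∀ x y z : X, ⁅⁅x, y⁆, z⁆ = 1) → ∀ t : Fin n → X,
        PP m t * CC c t * t j ^ e = PP m' t * CC c' t := by
  refine ⟨fun k => m k + if k = j then e else 0,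
    fun k l => c k l + if k = j then -(m l * e) else 0, fun X _ hX t => ?_⟩
  have hc := hs_CC hX c t
  have hcen : ∀ g, g * CC c t = CC c t * g := by
    intro g
    rw [hc]
    exact Subgroup.mem_center_iff.1 (Subtype.property _) g
  have hP := hs_moveB hX t m j e (List.finRange n) (List.pairwise_lt_finRange n)
    (List.mem_finRange j)
  rw [mul_assoc, ← hcen (t j ^ e), ← mul_assoc]
  have e1 : PP m t = ((List.finRange n).map (fun k => t k ^ m k)).prod := by
    rw [PP, List.ofFn_eq_map]
  have e2 : PP (fun k => m k + if k = j then e else 0) t =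
      ((List.finRange n).map (fun k => t k ^ (m k + if k = j then e else 0))).prod := by
    rw [PP, List.ofFn_eq_map]
  rw [e1, hP, e2, mul_assoc]
  congr 1
  rw [hc, hs_CC hX, ← Subgroup.coe_mul, ← List.ofFn_eq_map, List.prod_ofFn]
  congr 1
  have h3 : (∏ k, ∏ l, if k < l then zc hX (t k) (t l) ^ (if k = j then -(m l * e) else 0) else 1) =
      ∏ l, if j < l then zc hX (t j) (t l) ^ (-(m l * e)) else 1 := by
    rw [Finset.prod_eq_single j]
    · simp
    · intro k _ hk
      simp [hk]
    · intro h
      exact absurd (Finset.mem_univ j) h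
  rw [← h3, ← Finset.prod_mul_distrib]
  refine Finset.prod_congr rfl (fun k _ => ?_)
  rw [← Finset.prod_mul_distrib]
  refine Finset.prod_congr rfl (fun l _ => ?_)
  by_cases hkl : k < l
  · simp only [if_pos hkl]
    rw [← zpow_add, add_comm]
  · simp only [if_neg hkl, mul_one]

/-- NORMAL FORM in groups of class two. PROOF. `FreeGroup.induction_on`, or: the set of the `u` for which the statement holds contains `1` and the generators and is closed under products and
inverses: with commutators central, `(∏ k, t k ^ m k) * (∏ k, t k ^ m' k) = (∏ k, t k ^ (m k + m' k)) * ∏ (k < l), ⁅t l, t k⁆ ^ (m l * m' k)` (lists indexed by `Fin n` in increasing order). It is enough to treat the products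
`u * of j` and `u * (of j)⁻¹`. -/
theorem class_two_normal_form {n : ℕ} (u : FreeGroup (Fin n)) : ∃ (m : Fin n → ℤ) (c : Fin n → Fin n → ℤ),
    ∀ (X : Type) [Group X], (∀ x y z : X, ⁅⁅x, y⁆, z⁆ = 1) → ∀ t : Fin n → X,
      FreeGroup.lift t u = (List.ofFn (fun k => t k ^ m k)).prod *
        (List.ofFn (fun k => (List.ofFn (fun l => if k < l then ⁅t k, t l⁆ ^ c k l else 1)).prod)).prod := by
  have key : ∀ L : List (Fin n × Bool), ∃ (m : Fin n → ℤ) (c : Fin n → Fin n → ℤ),
      ∀ (X : Type) [Group X], (∀ x y z : X, ⁅⁅x, y⁆, z⁆ = 1) → ∀ t : Fin n → X,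
        FreeGroup.lift t (FreeGroup.mk L) = PP m t * CC c t := by
    intro L
    induction L using List.reverseRecOn with
    | nil =>
      refine ⟨fun _ => 0, fun _ _ => 0, fun X _ hX t => ?_⟩
      have h1 : FreeGroup.mk ([] : List (Fin n × Bool)) = 1 := rfl
      rw [h1, map_one, hs_CC hX]
      simp [PP]
    | append_singleton L a ih =>
      obtain ⟨m, c, h⟩ := ih
      obtain ⟨j, b⟩ := a
      obtain ⟨m', c', h'⟩ := hs_step m c j (if b then 1 else -1)
      refine ⟨m', c', fun X _ hX t => ?_⟩
      rw [← h' X hX t, ← h X hX t, ← FreeGroup.mul_mk, map_mul]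
      congr 1
      cases b <;> simp
  obtain ⟨m, c, h⟩ := key u.toWord
  refine ⟨m, c, fun X _ hX t => ?_⟩
  have := h X hX t
  rw [FreeGroup.mk_toWord] at this
  exact this

private theorem hs_zpow_x (a : Heis q) (n : ℤ) : (a ^ n).x = n * a.x := by
  let f : Heis q →* Multiplicative (ZMod q) :=
    MonoidHom.mk' (fun b => Multiplicative.ofAdd b.x) (fun _ _ => rfl)
  have h : f (a ^ n) = f a ^ n := map_zpow f a n
  have h2 : Multiplicative.toAdd (f (a ^ n)) = n • Multiplicative.toAdd (f a) := by
    rw [h]
    exact toAdd_zpow _ _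
  change (a ^ n).x = n • a.x at h2
  rw [h2, zsmul_eq_mul]

private theorem hs_zpow_z (z : ZMod q) (n : ℤ) : ((⟨0, 0, z⟩ : Heis q) ^ n).z = n * z := by
  let f : Multiplicative (ZMod q) →* Heis q :=
    MonoidHom.mk' (fun b => ⟨0, 0, Multiplicative.toAdd b⟩) (fun a b => by
      ext <;> simp)
  have h : f (Multiplicative.ofAdd z ^ n) = f (Multiplicative.ofAdd z) ^ n := map_zpow f _ n
  have h1 : (f (Multiplicative.ofAdd z) ^ n).z = (f (Multiplicative.ofAdd z ^ n)).z := by rw [h]
  have h2 : (f (Multiplicative.ofAdd z ^ n)).z = n • z := by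
    change Multiplicative.toAdd (Multiplicative.ofAdd z ^ n) = n • z
    rw [toAdd_zpow, toAdd_ofAdd]
  have h3 : f (Multiplicative.ofAdd z) = ⟨0, 0, z⟩ := rfl
  rw [h3] at h1
  rw [h1, h2, zsmul_eq_mul]

/-- THE LAWS OF `Heis q` ARE LAWS OF `T_q`. PROOF. Take `m`, `c` from `class_two_normal_form`. Put `t k = ⟨1, 1, 0⟩`, all other `t l = 1`: `⟨1, 1, 0⟩ ^ m k = 1` in `Heis q`, so `q * gcd 2 q ∣ m k`
(the element has order `q` for odd `q` and `4` for `q = 2`). So `t k ^ m k = 1` in all groups in `T_q`, and also in `Heis q`. Put `t k = ⟨1, 0, 0⟩`, `t l = ⟨0, 1, 0⟩` (`k < l`), the others `1`: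
`⁅t k, t l⁆ ^ c k l = ⟨0, 0, c k l⟩ = 1`, so `q ∣ c k l`. In `X` in `T_q`: `⁅x, y⁆ ^ q = ⁅x ^ q, y⁆ = 1` (class two). So `lift t u = 1`. -/
theorem TT_law_of_heis (hq : q.Prime) {n : ℕ} (u : FreeGroup (Fin n)) (h : Law u (Heis q)) :
    Eqv (TT q) u 1 := by
  obtain ⟨m, c, hmc⟩ := class_two_normal_form u
  have hH := (heis_TT hq).2.1
  have hH2 := (heis_TT hq).2.2.2
  -- the exponents `m`
  have hm : ∀ k, ((q * Nat.gcd 2 q : ℕ) : ℤ) ∣ m k := by
    intro k
    set a : Heis q := ⟨1, 1, 0⟩ with ha
    set t : Fin n → Heis q := fun l => if l = k then a else 1 with ht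
    have h1 : PP m t * CC c t = 1 := by
      have := hmc (Heis q) hH t
      rw [h t] at this
      exact this.symm
    have hC : CC c t = 1 := by
      rw [hs_CC hH]
      have : (∏ k', ∏ l, if k' < l then zc hH (t k') (t l) ^ c k' l else 1 :
          Subgroup.center (Heis q)) = 1 := by
        refine Finset.prod_eq_one (fun k' _ => Finset.prod_eq_one (fun l _ => ?_))
        by_cases hkl : k' < l
        · rw [if_pos hkl]
          have hz : zc hH (t k') (t l) = 1 := by
            apply Subtype.ext
            change ⁅t k', t l⁆ = 1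
            by_cases h1 : k' = k
            · have : l ≠ k := by
                rintro rfl
                exact hkl.ne h1
              have : t l = 1 := by simp [ht, this]
              rw [this, commutatorElement_one_right]
            · have : t k' = 1 := by simp [ht, h1]
              rw [this, commutatorElement_one_left]
          rw [hz, one_zpow]
        · rw [if_neg hkl]
      rw [this]
      rfl
    have hP : PP m t = a ^ m k := by
      have : ∀ L : List (Fin n), L.Nodup → (L.map (fun l => t l ^ m l)).prod =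
          if k ∈ L then a ^ m k else 1 := by
        intro L
        induction L with
        | nil => simp
        | cons b L ih =>
          intro hnd
          rw [List.nodup_cons] at hnd
          rw [List.map_cons, List.prod_cons, ih hnd.2]
          by_cases hb : b = k
          · subst hb
            simp [ht, hnd.1]
          · have hb' : k ≠ b := fun h => hb h.symm
            simp [ht, hb, hb']
      rw [PP, List.ofFn_eq_map, this _ (List.nodup_finRange n), if_pos (List.mem_finRange k)]
    rw [hC, mul_one, hP] at h1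
    have hx : ((m k : ℤ) : ZMod q) = 0 := by
      have := congrArg Heis.x h1
      rw [hs_zpow_x, ha] at this
      simpa using this
    rw [ZMod.intCast_zmod_eq_zero_iff_dvd] at hx
    rcases hq.eq_two_or_odd' with h2 | h2
    · subst h2
      obtain ⟨r, hr⟩ := hx
      have h3 : a ^ (2 : ℤ) = ⟨0, 0, 1⟩ := by
        have : a ^ (2 : ℤ) = a ^ 2 := by norm_cast
        rw [this, hs_pow]
        ext <;> simp [ha] <;> decide
      rw [hr] at h1
      have h4 : a ^ ((2 : ℕ) * r : ℤ) = (⟨0, 0, 1⟩ : Heis 2) ^ r := by
        rw [← h3, ← zpow_mul]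
        norm_cast
      rw [h4] at h1
      have h5 := congrArg Heis.z h1
      rw [hs_zpow_z] at h5
      have h6 : ((r : ℤ) : ZMod 2) = 0 := by simpa using h5
      rw [ZMod.intCast_zmod_eq_zero_iff_dvd] at h6
      rw [hr]
      obtain ⟨r', hr'⟩ := h6
      refine ⟨r', ?_⟩
      rw [hr']
      norm_num
      ring
    · have hg : Nat.gcd 2 q = 1 := Nat.coprime_two_left.2 h2
      rw [hg, mul_one]
      exact hx
  have hqm : ∀ k, ((q : ℕ) : ℤ) ∣ m k := fun k => by
    refine dvd_trans ?_ (hm k)
    rw [Nat.cast_mul]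
    exact dvd_mul_right _ _
  -- the exponents `c`
  have hc : ∀ k l, k < l → ((q : ℕ) : ℤ) ∣ c k l := by
    intro k l hkl
    set a : Heis q := ⟨1, 0, 0⟩ with ha
    set b : Heis q := ⟨0, 1, 0⟩ with hb
    set t : Fin n → Heis q := fun i => if i = k then a else if i = l then b else 1 with ht
    have h1 : PP m t * CC c t = 1 := by
      have := hmc (Heis q) hH t
      rw [h t] at this
      exact this.symm
    have haq : a ^ q = 1 := by
      rw [hs_pow]
      ext <;> simp [ha]
    have hbq : b ^ q = 1 := by
      rw [hs_pow]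
      ext <;> simp [hb]
    have hP : PP m t = 1 := by
      rw [PP, List.ofFn_eq_map]
      apply List.prod_eq_one
      intro x hx
      rw [List.mem_map] at hx
      obtain ⟨i, _, rfl⟩ := hx
      obtain ⟨r, hr⟩ := hqm i
      rw [hr, zpow_mul, zpow_natCast]
      have : t i ^ q = 1 := by
        by_cases h1 : i = k
        · simp [ht, h1, haq]
        · by_cases h2 : i = l
          · have : l ≠ k := hkl.ne'
            simp [ht, h2, this, hbq]
          · simp [ht, h1, h2]
      rw [this, one_zpow]
    have hC : CC c t = ⁅a, b⁆ ^ c k l := by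
      rw [hs_CC hH, Finset.prod_eq_single k, Finset.prod_eq_single l]
      · rw [if_pos hkl]
        have e1 : t k = a := by simp [ht]
        have e2 : t l = b := by
          have : l ≠ k := hkl.ne'
          simp [ht, this]
        rw [e1, e2]
        rfl
      · intro l' _ hl'
        by_cases h3 : k < l'
        · rw [if_pos h3]
          have : t l' = 1 := by
            have : l' ≠ k := h3.ne'
            simp [ht, this, hl']
          have hz : zc hH (t k) (t l') = 1 := by
            apply Subtype.ext
            change ⁅t k, t l'⁆ = 1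
            rw [this, commutatorElement_one_right]
          rw [hz, one_zpow]
        · rw [if_neg h3]
      · intro h3
        exact absurd (Finset.mem_univ _) h3
      · intro k' _ hk'
        refine Finset.prod_eq_one (fun l' _ => ?_)
        by_cases h3 : k' < l'
        · rw [if_pos h3]
          have hz : zc hH (t k') (t l') = 1 := by
            apply Subtype.ext
            change ⁅t k', t l'⁆ = 1
            by_cases h4 : k' = l
            · have h5 : l' ≠ l := fun h => h3.ne (h4.trans h.symm)
              have h6 : l' ≠ k := by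
                rintro rfl
                rw [h4] at h3
                exact absurd (h3.trans hkl) (lt_irrefl _)
              have : t l' = 1 := by simp [ht, h5, h6]
              rw [this, commutatorElement_one_right]
            · have : t k' = 1 := by simp [ht, hk', h4]
              rw [this, commutatorElement_one_left]
          rw [hz, one_zpow]
        · rw [if_neg h3]
      · intro h3
        exact absurd (Finset.mem_univ _) h3
    rw [hP, one_mul, hC] at h1
    have hab : ⁅a, b⁆ = ⟨0, 0, 1⟩ := by
      rw [commutatorElement_def]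
      ext <;> simp [ha, hb]
    rw [hab] at h1
    have h5 := congrArg Heis.z h1
    rw [hs_zpow_z] at h5
    have h6 : ((c k l : ℤ) : ZMod q) = 0 := by simpa using h5
    rwa [ZMod.intCast_zmod_eq_zero_iff_dvd] at h6
  -- conclusion
  intro X _ hX t
  obtain ⟨_, hX1, hX2, hX3⟩ := hX
  rw [map_one, hmc X hX1 t]
  have hP : (List.ofFn (fun k => t k ^ m k)).prod = 1 := by
    rw [List.ofFn_eq_map]
    apply List.prod_eq_one
    intro x hx
    rw [List.mem_map] at hx
    obtain ⟨i, _, rfl⟩ := hx
    obtain ⟨r, hr⟩ := hm i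
    rw [hr, zpow_mul, zpow_natCast, hX3, one_zpow]
  have hC : (List.ofFn (fun k => (List.ofFn
      (fun l => if k < l then ⁅t k, t l⁆ ^ c k l else 1)).prod)).prod = 1 := by
    have := hs_CC hX1 c t
    rw [CC] at this
    rw [this]
    have h2 : (∏ k', ∏ l, if k' < l then zc hX1 (t k') (t l) ^ c k' l else 1 :
        Subgroup.center X) = 1 := by
      refine Finset.prod_eq_one (fun k' _ => Finset.prod_eq_one (fun l _ => ?_))
      by_cases hkl : k' < l
      · rw [if_pos hkl]
        obtain ⟨r, hr⟩ := hc k' l hkl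
        have h7 : zc hX1 (t k') (t l) ^ ((q : ℕ) : ℤ) = 1 := by
          rw [← hs_zc_zpow_left]
          apply Subtype.ext
          change ⁅t k' ^ ((q : ℕ) : ℤ), t l⁆ = 1
          rw [zpow_natCast]
          exact hX2 _ _
        rw [hr, zpow_mul, h7, one_zpow]
      · rw [if_neg hkl]
    rw [h2]
    rfl
  rw [hP, hC, mul_one]

/-- SEPARATION. PROOF. The `y`-coordinate of `lift t g` is `∑ m k * (t k).y` with `m k` the exponent sums, and the `x`-coordinate is `∑ m k * (t k).x` with the same `m k`. So equality of the `y`-coordinates for all `t` implies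
equality of the `x`-coordinates (formally: use the automorphism-free trick: for `t` let `t' k = ⟨0, (t k).x, 0⟩`; `(lift t' g).y = (lift t g).x`, by induction on the word or with homomorphisms). So
`lift t g = lift t g'` for all `t : Fin n → Heis q`, so `g * g'⁻¹` is a law of `Heis q`, so of `T_q`. -/
theorem heis_sep (hq : q.Prime) {n : ℕ} (g g' : FreeGroup (Fin n))
    (h : ∀ t : Fin n → Heis q, (FreeGroup.lift t g).y = (FreeGroup.lift t g').y ∧
      (FreeGroup.lift t g).z = (FreeGroup.lift t g').z) : Eqv (TT q) g g' := by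
  have hxy : ∀ (t : Fin n → Heis q) (w : FreeGroup (Fin n)),
      (FreeGroup.lift (fun k => (⟨0, (t k).x, 0⟩ : Heis q)) w).y = (FreeGroup.lift t w).x := by
    intro t w
    let fx : Heis q →* Multiplicative (ZMod q) :=
      MonoidHom.mk' (fun b => Multiplicative.ofAdd b.x) (fun _ _ => rfl)
    let fy : Heis q →* Multiplicative (ZMod q) :=
      MonoidHom.mk' (fun b => Multiplicative.ofAdd b.y) (fun _ _ => rfl)
    have he : fy.comp (FreeGroup.lift (fun k => (⟨0, (t k).x, 0⟩ : Heis q))) =
        fx.comp (FreeGroup.lift t) := by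
      ext k
      simp [fx, fy]
    have := congrArg (fun f => f w) he
    exact Multiplicative.ofAdd.injective this
  have heq : ∀ t : Fin n → Heis q, FreeGroup.lift t g = FreeGroup.lift t g' := by
    intro t
    ext
    · rw [← hxy t g, ← hxy t g']
      exact (h _).1
    · exact (h t).1
    · exact (h t).2
  have hlaw : Law (g * g'⁻¹) (Heis q) := by
    intro t
    rw [map_mul, map_inv, heq t, mul_inv_cancel]
  have := TT_law_of_heis hq _ hlaw
  intro X _ hX t
  have h2 := this X hX t
  rw [map_one, map_mul, map_inv, mul_inv_eq_one] at h2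
  exact h2

end Pool.Agent.HForm
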