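import Pool.Agent.Lib_MP_4009a7_al.FoxL

/-!
# the Heisenberg group modulo `q` (definitions, no sorry)
-/

set_option autoImplicit false

open scoped commutatorElement

namespace Pool.Agent.HForm

/-- the Heisenberg group modulo `q` -/
@[ext] structure Heis (q : ℕ) where
  x : ZMod q
  y : ZMod q
  z : ZMod q

variable {q : ℕ}

instance : Mul (Heis q) := ⟨fun a b => ⟨a.x + b.x, a.y + b.y, a.z + b.z + a.x * b.y⟩⟩
instance : One (Heis q) := ⟨⟨0, 0, 0⟩⟩
instance : _root_.Inv (Heis q) := ⟨fun a => ⟨-a.x, -a.y, -a.z + a.x * a.y⟩⟩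

@[simp] theorem Heis.mul_x (a b : Heis q) : (a * b).x = a.x + b.x := rfl
@[simp] theorem Heis.mul_y (a b : Heis q) : (a * b).y = a.y + b.y := rfl
@[simp] theorem Heis.mul_z (a b : Heis q) : (a * b).z = a.z + b.z + a.x * b.y := rfl
@[simp] theorem Heis.one_x : (1 : Heis q).x = 0 := rfl
@[simp] theorem Heis.one_y : (1 : Heis q).y = 0 := rfl
@[simp] theorem Heis.one_z : (1 : Heis q).z = 0 := rfl
@[simp] theorem Heis.inv_x (a : Heis q) : (a⁻¹).x = -a.x := rfl
@[simp] theorem Heis.inv_y (a : Heis q) : (a⁻¹).y = -a.y := rfl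
@[simp] theorem Heis.inv_z (a : Heis q) : (a⁻¹).z = -a.z + a.x * a.y := rfl

instance : Group (Heis q) where
  mul_assoc a b c := by ext <;> simp <;> ring
  one_mul a := by ext <;> simp
  mul_one a := by ext <;> simp
  inv_mul_cancel a := by ext <;> simp

instance [NeZero q] : Finite (Heis q) := by
  have : Function.Injective (fun a : Heis q => (a.x, a.y, a.z)) := by
    intro a b h
    simp only [Prod.mk.injEq] at h
    exact Heis.ext h.1 h.2.1 h.2.2
  exact Finite.of_injective _ this

end Pool.Agent.HForm
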