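import Pool.Agent.Lib_MP_4009a7_al.Base

/-!
# Piece HYP: norms over hyperplanes
-/

set_option autoImplicit false

open scoped commutatorElement

namespace Pool.Agent.HForm

section HypAux

variable {r : ℕ} {Y A : Type} [AddCommGroup Y] [Module (ZMod r) Y] [Fintype Y] [AddCommGroup A]

open Classical in
private theorem sum_sup [Fact r.Prime] (f : Y → A) (W : Submodule (ZMod r) Y) {u : Y} (hu : u ∉ W) :
    ∑ y ∈ Finset.univ.filter (· ∈ W ⊔ Submodule.span (ZMod r) {u}), f y =
      ∑ i : ZMod r, ∑ y ∈ Finset.univ.filter (· ∈ W), f (y + i • u) := by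
  rw [← Finset.sum_product' (s := Finset.univ) (t := Finset.univ.filter (· ∈ W))
    (f := fun (i : ZMod r) (y : Y) => f (y + i • u))]
  symm
  refine Finset.sum_bij (fun (q : ZMod r × Y) _ => q.2 + q.1 • u) ?_ ?_ ?_ ?_
  · rintro ⟨i, y⟩ h
    simp only [Finset.mem_product, Finset.mem_filter, Finset.mem_univ, true_and] at h ⊢
    exact Submodule.add_mem_sup h (Submodule.smul_mem _ _ (Submodule.mem_span_singleton_self u))
  · rintro ⟨i, y⟩ h ⟨i', y'⟩ h' heq
    simp only [Finset.mem_product, Finset.mem_filter, Finset.mem_univ, true_and] at h h' heq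
    have h1 : (i - i') • u ∈ W := by
      have h2 : (i - i') • u = y' - y := by
        have h3 : i • u - i' • u = y' - y := by
          rw [sub_eq_sub_iff_add_eq_add, add_comm (i • u) y, heq]
        rw [sub_smul, h3]
      rw [h2]
      exact W.sub_mem h' h
    have h2 : i = i' := by
      by_contra hne
      exact hu ((Submodule.smul_mem_iff W (sub_ne_zero.2 hne)).1 h1)
    subst h2
    exact Prod.ext rfl (add_right_cancel heq)
  · intro z hz
    simp only [Finset.mem_filter, Finset.mem_univ, true_and] at hz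
    obtain ⟨w, hw, v, hv, rfl⟩ := Submodule.mem_sup.1 hz
    obtain ⟨i, rfl⟩ := Submodule.mem_span_singleton.1 hv
    exact ⟨(i, w), by simp [hw], rfl⟩
  · intros
    rfl

open Classical in
private theorem hyp_aux [Fact r.Prime] (f : Y → A) (X : AddSubgroup A) (k : ℕ)
    (hk : Nat.Coprime k r) (hf : ∀ y, k • f y = 0)
    (h : ∀ l : Y →ₗ[ZMod r] ZMod r, (∑ y ∈ Finset.univ.filter (fun y => l y = 0), f y) ∈ X)
    (W : Submodule (ZMod r) Y) : (∑ y ∈ Finset.univ.filter (· ∈ W), f y) ∈ X := by
  induction W using WellFoundedGT.induction with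
  | _ W ih =>
  by_cases hW : ∃ l : Y →ₗ[ZMod r] ZMod r, W = LinearMap.ker l
  · obtain ⟨l, rfl⟩ := hW
    have h1 := h l
    have h2 : Finset.univ.filter (fun y => y ∈ LinearMap.ker l) =
        Finset.univ.filter (fun y => l y = 0) := by
      ext y
      simp
    rw [h2]
    exact h1
  · push Not at hW
    have hlt : W < ⊤ := lt_top_iff_ne_top.2 (fun h0 => hW 0 (by rw [h0, LinearMap.ker_zero]))
    obtain ⟨l, hl0, hl⟩ := Submodule.exists_le_ker_of_lt_top W hlt
    have hlt2 : W < LinearMap.ker l := lt_of_le_of_ne hl (hW l)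
    obtain ⟨u, hu, huW⟩ := Set.exists_of_ssubset hlt2
    have hu' : l u = 0 := hu
    have huW' : u ∉ W := huW
    obtain ⟨v, hv⟩ : ∃ v, l v ≠ 0 := by
      by_contra hcon
      push Not at hcon
      exact hl0 (LinearMap.ext hcon)
    have hW1 : W ⊔ Submodule.span (ZMod r) {u} ≤ LinearMap.ker l := by
      refine sup_le hl (Submodule.span_le.2 ?_)
      rintro x rfl
      exact hu'
    have hv1 : v ∉ W ⊔ Submodule.span (ZMod r) {u} := fun h0 => hv (hW1 h0)
    have hvj : ∀ j : ZMod r, v + j • u ∉ W := by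
      intro j h0
      have h1 : l (v + j • u) = 0 := hl h0
      rw [map_add, map_smul, hu', smul_zero, add_zero] at h1
      exact hv h1
    have hlt3 : ∀ x : Y, x ∉ W → W < W ⊔ Submodule.span (ZMod r) {x} := by
      intro x hx
      refine lt_of_le_of_ne le_sup_left (fun h0 => hx ?_)
      rw [h0]
      exact Submodule.mem_sup_right (Submodule.mem_span_singleton_self x)
    let g : ZMod r → ZMod r → A := fun i j =>
      ∑ y ∈ Finset.univ.filter (· ∈ W), f (y + j • u + i • v)
    have e0 : ∑ y ∈ Finset.univ.filter (· ∈ W), f y = g 0 0 := by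
      simp [g]
    have e1 : ∑ y ∈ Finset.univ.filter (· ∈ W ⊔ Submodule.span (ZMod r) {u}), f y = ∑ j, g 0 j := by
      rw [sum_sup f W huW']
      simp [g]
    have e2 : ∀ j : ZMod r, ∑ y ∈ Finset.univ.filter (· ∈ W ⊔ Submodule.span (ZMod r) {v + j • u}), f y =
        ∑ i, g i (i * j) := by
      intro j
      rw [sum_sup f W (hvj j)]
      refine Finset.sum_congr rfl fun i _ => Finset.sum_congr rfl fun y _ => ?_
      congr 1
      rw [smul_add, smul_smul]
      abel
    have e3 : ∑ y ∈ Finset.univ.filter (· ∈ (W ⊔ Submodule.span (ZMod r) {u}) ⊔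
        Submodule.span (ZMod r) {v}), f y = ∑ i, ∑ j, g i j := by
      rw [sum_sup f _ hv1]
      refine Finset.sum_congr rfl fun i _ => ?_
      exact sum_sup (fun y => f (y + i • v)) W huW'
    have key : (∑ j, ∑ i, g i (i * j)) + ∑ j, g 0 j = r • g 0 0 + ∑ i, ∑ j, g i j := by
      rw [Finset.sum_comm,
        ← Finset.add_sum_erase Finset.univ (fun i => ∑ j, g i (i * j)) (Finset.mem_univ 0),
        ← Finset.add_sum_erase Finset.univ (fun i => ∑ j, g i j) (Finset.mem_univ 0)]
      have h1 : ∑ j : ZMod r, g 0 (0 * j) = r • g 0 0 := by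
        simp [ZMod.card]
      have h2 : ∑ i ∈ Finset.univ.erase (0 : ZMod r), ∑ j, g i (i * j) =
          ∑ i ∈ Finset.univ.erase (0 : ZMod r), ∑ j, g i j := by
        refine Finset.sum_congr rfl fun i hi => ?_
        have hi0 : i ≠ 0 := (Finset.mem_erase.1 hi).1
        exact Fintype.sum_bijective (fun j => i * j) (mulLeft_bijective₀ i hi0) _ _ (fun _ => rfl)
      rw [h1, h2]
      abel
    have hX : r • g 0 0 ∈ X := by
      have h1 : r • g 0 0 = (∑ j, ∑ i, g i (i * j)) + ∑ j, g 0 j - ∑ i, ∑ j, g i j := by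
        rw [key]
        abel
      rw [h1, ← e1, ← e3]
      refine X.sub_mem (X.add_mem (X.sum_mem fun j _ => ?_) (ih _ (hlt3 u huW'))) (ih _ ?_)
      · rw [← e2 j]
        exact ih _ (hlt3 _ (hvj j))
      · exact lt_of_lt_of_le (hlt3 u huW') le_sup_left
    rw [e0]
    have hk0 : k • g 0 0 = 0 := by
      simp only [g, Finset.smul_sum]
      exact Finset.sum_eq_zero fun y _ => hf _
    obtain ⟨p, q, hpq⟩ := Nat.isCoprime_iff_coprime.2 hk
    have h1 : g 0 0 = p • (k • g 0 0) + q • (r • g 0 0) := by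
      rw [← natCast_zsmul (g 0 0) k, ← natCast_zsmul (g 0 0) r, smul_smul, smul_smul, ← add_smul,
        hpq, one_smul]
    rw [h1, hk0, smul_zero, zero_add]
    exact X.zsmul_mem hX q

end HypAux

open Classical in
/-- PROOF. For a subspace `W` of `Y` (`Y` is a finite vector space over `ZMod r`) let `N W = ∑ y ∈ W, τ y`. Suppose `a ∉ X`. Choose a subspace `W` of maximal dimension with `N W a ∉ X` (`W = ⊥` has the property). If `W` has
codimension `≤ 1`, it is the kernel of a linear functional `l` (`l = 0` for `W = ⊤`), a contradiction to `h`. Otherwise there are `u, v` linearly independent modulo `W`; let `P = W ⊔ span {u, v}`, and let `L_j = W ⊔ span {u + j v}` (`j : ZMod r`) and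
`L_∞ = W ⊔ span {v}` be the `r + 1` subspaces between `W` and `P`. Every element of `P` outside of `W` is in exactly one of them, the elements of `W` are in all of them:
`∑_j N (L_j) + N (L_∞) = r • N W + N P`. By maximality `N (L_j) a, N (L_∞) a, N P a ∈ X`, so `r • N W a ∈ X`. As `k • N W a = 0` with `k` prime to `r`, `N W a ∈ X`, a contradiction. -/
theorem hyp {r : ℕ} (hr : r.Prime) {Y A : Type} [AddCommGroup Y] [Module (ZMod r) Y] [Fintype Y]
    [AddCommGroup A] (τ : Multiplicative Y →* Module.End ℤ A) (X : AddSubgroup A) (a : A)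
    (ha : ∃ k : ℕ, Nat.Coprime k r ∧ k • a = 0)
    (h : ∀ l : Y →ₗ[ZMod r] ZMod r,
      (∑ y ∈ Finset.univ.filter (fun y => l y = 0), τ (Multiplicative.ofAdd y) a) ∈ X) : a ∈ X := by
  have := Fact.mk hr
  obtain ⟨k, hk, hka⟩ := ha
  have h1 := hyp_aux (fun y => τ (Multiplicative.ofAdd y) a) X k hk
    (fun y => by rw [← map_nsmul, hka, map_zero]) (fun l => by convert h l) ⊥
  have h2 : Finset.univ.filter (fun y : Y => y ∈ (⊥ : Submodule (ZMod r) Y)) = {0} := by
    ext y
    simp
  rw [h2, Finset.sum_singleton, ofAdd_zero, map_one] at h1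
  exact h1

/-- PROOF. Let `X = {x | χ x = 1}`. Let `S` be the set of the linear functionals `l` on `Y` for which there are `b : A` fixed by all `τ y`, `l y = 0`, and `y` with `χ (τ y b - b) ≠ 1`. CLAIM: `S` spans the dual space. Otherwise there is `y₀ ≠ 0` in `Y` with `l y₀ = 0` for
all `l ∈ S`. By `hdist` there is `a` with `χ (τ y₀ a) ≠ χ a`; let `a' = τ y₀ a - a ∉ X`. By `hyp` there is `l` with `χ (∑_{l y = 0} τ y a') ≠ 1`; let `b = ∑_{l y = 0} τ y a`, fixed by the kernel of `l`, and `∑_{l y = 0} τ y a' = τ y₀ b - b` (`Y` is commutative).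
If `l y₀ = 0` then `τ y₀ b = b`, a contradiction. So `l y₀ ≠ 0` and `l ∈ S`, a contradiction. So `S` contains a basis `l_j` of the dual space (`j : Fin (finrank Y)`); let `y_j` be the dual basis of `Y`. For `j` let `b`, `y` be as in the definition of `S` for `l_j`.
`y = i • y_j + y'` with `l_j y' = 0`, `i : ℕ`, so `τ y b - b = τ (i y_j) b - b = τ y_j b' - b'` with `b' = ∑_{s < i} τ (s y_j) b`, which is also fixed by the kernel of `l_j`, so by all `y_k`, `k ≠ j`. -/
theorem exists_blocks {r : ℕ} (hr : r.Prime) {Y A K : Type} [AddCommGroup Y] [Module (ZMod r) Y] [Finite Y]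
    [AddCommGroup A] [Field K] (τ : Multiplicative Y →* Module.End ℤ A) (χ : Multiplicative A →* K)
    (hA : ∃ k : ℕ, Nat.Coprime k r ∧ ∀ a : A, k • a = 0)
    (hdist : ∀ y : Y, y ≠ 0 → ∃ a : A,
      χ (Multiplicative.ofAdd (τ (Multiplicative.ofAdd y) a)) ≠ χ (Multiplicative.ofAdd a)) :
    ∃ (y : Module.Basis (Fin (Module.finrank (ZMod r) Y)) (ZMod r) Y) (b : Fin (Module.finrank (ZMod r) Y) → A),
      (∀ j l, j ≠ l → τ (Multiplicative.ofAdd (y j)) (b l) = b l) ∧
      ∀ l, χ (Multiplicative.ofAdd (τ (Multiplicative.ofAdd (y l)) (b l) - b l)) ≠ 1 := by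
  classical
  have := Fact.mk hr
  have := Fintype.ofFinite Y
  obtain ⟨k, hk, hkA⟩ := hA
  have : FiniteDimensional (ZMod r) Y := Module.Finite.of_finite
  -- the kernel of the character
  let X : AddSubgroup A :=
    { carrier := {x | χ (Multiplicative.ofAdd x) = 1}
      add_mem' := by
        intro a b ha hb
        simp only [Set.mem_ofPred_eq] at ha hb ⊢
        rw [ofAdd_add, map_mul, ha, hb, one_mul]
      zero_mem' := by
        simp only [Set.mem_ofPred_eq]
        rw [ofAdd_zero, map_one]
      neg_mem' := by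
        intro a ha
        simp only [Set.mem_ofPred_eq] at ha ⊢
        have h1 : χ (Multiplicative.ofAdd (-a)) * χ (Multiplicative.ofAdd a) = 1 := by
          rw [← map_mul, ← ofAdd_add, neg_add_cancel, ofAdd_zero, map_one]
        rwa [ha, mul_one] at h1 }
  have hX : ∀ x, x ∈ X ↔ χ (Multiplicative.ofAdd x) = 1 := fun x => Iff.rfl
  have hadd : ∀ (y z : Y) (a : A), τ (Multiplicative.ofAdd (y + z)) a =
      τ (Multiplicative.ofAdd y) (τ (Multiplicative.ofAdd z) a) := by
    intro y z a
    rw [ofAdd_add, map_mul, Module.End.mul_apply]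
  have hcomm : ∀ (y z : Y) (a : A), τ (Multiplicative.ofAdd y) (τ (Multiplicative.ofAdd z) a) =
      τ (Multiplicative.ofAdd z) (τ (Multiplicative.ofAdd y) a) := by
    intro y z a
    rw [← hadd, ← hadd, add_comm]
  let S : Set (Module.Dual (ZMod r) Y) := {l | ∃ b : A,
    (∀ y, l y = 0 → τ (Multiplicative.ofAdd y) b = b) ∧
      ∃ y, χ (Multiplicative.ofAdd (τ (Multiplicative.ofAdd y) b - b)) ≠ 1}
  -- `S` separates
  have hsep : ∀ y₀ : Y, (∀ l ∈ S, l y₀ = 0) → y₀ = 0 := by
    intro y₀ hy₀
    by_contra hne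
    obtain ⟨a, ha⟩ := hdist y₀ hne
    have ha' : τ (Multiplicative.ofAdd y₀) a - a ∉ X := by
      rw [hX]
      intro h1
      apply ha
      have h2 : τ (Multiplicative.ofAdd y₀) a = (τ (Multiplicative.ofAdd y₀) a - a) + a := by abel
      rw [h2, ofAdd_add, map_mul, h1, one_mul]
    have h1 : ∃ l : Y →ₗ[ZMod r] ZMod r,
        (∑ y ∈ Finset.univ.filter (fun y => l y = 0),
          τ (Multiplicative.ofAdd y) (τ (Multiplicative.ofAdd y₀) a - a)) ∉ X := by
      by_contra hcon
      push Not at hcon
      exact ha' (hyp hr τ X _ ⟨k, hk, hkA _⟩ (fun l => by convert hcon l))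
    obtain ⟨l, hl⟩ := h1
    let b : A := ∑ y ∈ Finset.univ.filter (fun y => l y = 0), τ (Multiplicative.ofAdd y) a
    have hb : ∀ z, l z = 0 → τ (Multiplicative.ofAdd z) b = b := by
      intro z hz
      simp only [b]
      rw [map_sum]
      refine Finset.sum_bij' (fun y _ => z + y) (fun y _ => y - z) ?_ ?_ ?_ ?_ ?_
      · intro y hy
        simp only [Finset.mem_filter, Finset.mem_univ, true_and] at hy ⊢
        rw [map_add, hz, hy, add_zero]
      · intro y hy
        simp only [Finset.mem_filter, Finset.mem_univ, true_and] at hy ⊢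
        rw [map_sub, hz, hy, sub_zero]
      · intro y _
        abel
      · intro y _
        abel
      · intro y _
        exact (hadd z y a).symm
    have h2 : (∑ y ∈ Finset.univ.filter (fun y => l y = 0),
          τ (Multiplicative.ofAdd y) (τ (Multiplicative.ofAdd y₀) a - a)) =
        τ (Multiplicative.ofAdd y₀) b - b := by
      simp only [b]
      rw [map_sum, ← Finset.sum_sub_distrib]
      refine Finset.sum_congr rfl fun y _ => ?_
      rw [map_sub, hcomm]
    rw [h2] at hl
    have h3 : l ∈ S := ⟨b, hb, y₀, hl⟩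
    have h4 := hy₀ l h3
    apply hl
    rw [hb y₀ h4, sub_self]
    exact X.zero_mem
  -- `S` spans
  have hspan : Submodule.span (ZMod r) S = ⊤ := by
    have h1 : (Submodule.span (ZMod r) S).dualCoannihilator = ⊥ := by
      rw [eq_bot_iff]
      intro y hy
      rw [Submodule.mem_dualCoannihilator] at hy
      exact hsep y (fun l hl => hy l (Submodule.subset_span hl))
    have h2 := Subspace.dualCoannihilator_dualAnnihilator_eq (W := Submodule.span (ZMod r) S)
    rw [h1] at h2
    rw [← h2, Submodule.dualAnnihilator_bot]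
  -- a basis of the dual space in `S`
  let B := Module.Basis.ofSpan hspan.ge
  have hB : ∀ i, B i ∈ S := fun i => by
    have := Module.Basis.ofSpan_subset hspan.ge
    exact this ⟨i, rfl⟩
  have : Fintype _ := FiniteDimensional.fintypeBasisIndex B
  have hcard := Module.finrank_eq_card_basis B
  rw [Subspace.dual_finrank_eq] at hcard
  let e := (Fintype.equivFinOfCardEq hcard.symm).symm
  let L : Fin (Module.finrank (ZMod r) Y) → Module.Dual (ZMod r) Y := fun j => B (e j)
  have hLS : ∀ j, L j ∈ S := fun j => hB _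
  let E : Y →ₗ[ZMod r] (Fin (Module.finrank (ZMod r) Y) → ZMod r) := LinearMap.pi L
  have hE : Function.Injective E := by
    rw [← LinearMap.ker_eq_bot, eq_bot_iff]
    intro y hy
    have hy1 : ∀ j, L j y = 0 := fun j => congrFun (LinearMap.mem_ker.1 hy) j
    have hy2 : ∀ i, B i y = 0 := fun i => by
      have := hy1 (e.symm i)
      simpa [L] using this
    have hy3 : ∀ l : Module.Dual (ZMod r) Y, l y = 0 := by
      intro l
      rw [← B.sum_repr l, LinearMap.sum_apply]
      refine Finset.sum_eq_zero fun i _ => ?_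
      rw [LinearMap.smul_apply, hy2 i, smul_zero]
    exact (Module.forall_dual_apply_eq_zero_iff (ZMod r) y).1 hy3
  let E' : Y ≃ₗ[ZMod r] (Fin (Module.finrank (ZMod r) Y) → ZMod r) :=
    LinearEquiv.ofInjectiveOfFinrankEq E hE (by simp)
  let y := Module.Basis.ofEquivFun E'
  have hE' : ∀ z j, E' z j = L j z := fun z j => rfl
  have hy : ∀ i j, L i (y j) = if i = j then 1 else 0 := by
    intro i j
    rw [← hE']
    have h1 : E' (y j) = Pi.single j 1 := by
      simp [y]
    rw [h1, Pi.single_apply]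
  -- the elements
  have hmain : ∀ l, ∃ b : A, (∀ j, j ≠ l → τ (Multiplicative.ofAdd (y j)) b = b) ∧
      χ (Multiplicative.ofAdd (τ (Multiplicative.ofAdd (y l)) b - b)) ≠ 1 := by
    intro l
    obtain ⟨b, hb, z, hz⟩ := hLS l
    let i : ℕ := (L l z).val
    have hzi : L l (z - i • y l) = 0 := by
      rw [map_sub, map_nsmul, hy, if_pos rfl, nsmul_eq_mul, mul_one]
      simp [i]
    have hfix : τ (Multiplicative.ofAdd z) b = τ (Multiplicative.ofAdd (i • y l)) b := by
      have h1 : z = i • y l + (z - i • y l) := by abel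
      rw [h1, hadd, hb _ hzi]
    let b' : A := ∑ s ∈ Finset.range i, τ (Multiplicative.ofAdd (s • y l)) b
    have hb' : τ (Multiplicative.ofAdd (y l)) b' - b' = τ (Multiplicative.ofAdd z) b - b := by
      simp only [b']
      rw [map_sum, ← Finset.sum_sub_distrib, hfix]
      have h1 : ∀ s, τ (Multiplicative.ofAdd (y l)) (τ (Multiplicative.ofAdd (s • y l)) b) =
          τ (Multiplicative.ofAdd ((s + 1) • y l)) b := by
        intro s
        rw [← hadd, add_smul, one_smul, add_comm]
      simp_rw [h1]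
      rw [Finset.sum_range_sub (fun s => τ (Multiplicative.ofAdd (s • y l)) b)]
      simp
    refine ⟨b', ?_, ?_⟩
    · intro j hj
      simp only [b']
      rw [map_sum]
      refine Finset.sum_congr rfl fun s _ => ?_
      rw [hcomm, hb (y j) (by rw [hy, if_neg (Ne.symm hj)])]
    · rw [hb']
      exact hz
  choose b hb1 hb2 using hmain
  exact ⟨y, b, fun j l hjl => hb1 l j hjl, hb2⟩

end Pool.Agent.HForm
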