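import Pool.Agent.Lib_MP_4009a7_al.Hyp

/-!
# Piece HYPINV: inversion from hyperplanes
-/

set_option autoImplicit false

open scoped commutatorElement

namespace Pool.Agent.HForm

/-- PROOF. For `m : Fin n → ZMod r` let `S m = ∑_{μ : m ⬝ μ = 0} C μ`. Sum the hypothesis for `t • m` over `t : ZMod r`, `t ≠ 0`: as `∑_{t ≠ 0} τ (t s) = - 1` for `s ≠ 0` (norm zero) and `(r - 1) • 1` for `s = 0`,
`(r • S m - ∑ μ, C μ) • 1 = 0` on `P`; so `S m = 0` (`P ≠ 0`, `q` prime, `q ∤ r`). The hypotheses also hold for the translates `μ ↦ C (μ + μ₀)` (`τ (m ⬝ μ₀)` is invertible), so all sums of `C` over affine hyperplanes vanish (and the sum over the whole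
space). Apply `hyp` with `Y = Fin n → ZMod r`, `A = (Fin n → ZMod r) → ZMod q` with the action by translations, `X = ⊥`, `a = C`, `k = q`: the norms of `C` over the kernels of linear functionals (`l μ = m ⬝ μ`) vanish. So `C = 0`. -/
theorem hyper_inv {q r n : ℕ} (hq : q.Prime) (hr : r.Prime) (hqr : q ≠ r) {P : Type} [AddCommGroup P]
    [Nontrivial P] (hP : ∀ x : P, q • x = 0) (τ : Multiplicative (ZMod r) →* Module.End ℤ P)
    (hnorm : ∀ x : P, ∑ᶠ j : ZMod r, τ (Multiplicative.ofAdd j) x = 0)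
    (C : (Fin n → ZMod r) → ZMod q) (hC : ∑ᶠ μ, C μ = 0)
    (h : ∀ (m : Fin n → ZMod r) (x : P),
      ∑ᶠ μ : Fin n → ZMod r, (C μ).val • τ (Multiplicative.ofAdd (m ⬝ᵥ μ)) x = 0) : C = 0 := by
  classical
  have : Fact q.Prime := ⟨hq⟩
  have : Fact r.Prime := ⟨hr⟩
  let _ : Module (ZMod q) P := AddCommGroup.zmodModule hP
  have hval : ∀ (c : ZMod q) (y : P), c.val • y = c • y := by
    intro c y
    conv_rhs => rw [← ZMod.natCast_zmod_val c]
    rw [Nat.cast_smul_eq_nsmul]
  have hn : ∀ x : P, ∑ j : ZMod r, τ (Multiplicative.ofAdd j) x = 0 := fun x => by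
    rw [← finsum_eq_sum_of_fintype]
    exact hnorm x
  have hh : ∀ (m : Fin n → ZMod r) (x : P),
      ∑ μ : Fin n → ZMod r, C μ • τ (Multiplicative.ofAdd (m ⬝ᵥ μ)) x = 0 := by
    intro m x
    have h1 := h m x
    rw [finsum_eq_sum_of_fintype] at h1
    simpa only [hval] using h1
  obtain ⟨x, hx⟩ := exists_ne (0 : P)
  -- the sums over the affine hyperplanes
  have key : ∀ m μ₀ : Fin n → ZMod r,
      ∑ μ ∈ Finset.univ.filter (fun μ : Fin n → ZMod r => m ⬝ᵥ μ = 0), C (μ₀ + μ) = 0 := by
    intro m μ₀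
    have h1 : ∀ m' : Fin n → ZMod r,
        ∑ μ : Fin n → ZMod r, C (μ₀ + μ) • τ (Multiplicative.ofAdd (m' ⬝ᵥ μ)) x = 0 := by
      intro m'
      have h2 := hh m' (τ (Multiplicative.ofAdd (-(m' ⬝ᵥ μ₀))) x)
      rw [← Equiv.sum_comp (Equiv.addLeft μ₀)] at h2
      rw [← h2]
      refine Finset.sum_congr rfl fun μ _ => ?_
      rw [← Module.End.mul_apply, ← map_mul, ← ofAdd_add, Equiv.coe_addLeft, dotProduct_add]
      congr 4
      ring
    have h3 : ∑ t : ZMod r, ∑ μ : Fin n → ZMod r,
        C (μ₀ + μ) • τ (Multiplicative.ofAdd ((t • m) ⬝ᵥ μ)) x = 0 :=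
      Finset.sum_eq_zero fun t _ => h1 _
    rw [Finset.sum_comm] at h3
    have h4 : ∀ μ : Fin n → ZMod r,
        ∑ t : ZMod r, C (μ₀ + μ) • τ (Multiplicative.ofAdd ((t • m) ⬝ᵥ μ)) x =
          if m ⬝ᵥ μ = 0 then C (μ₀ + μ) • ((r : ZMod q) • x) else 0 := by
      intro μ
      rw [← Finset.smul_sum]
      split_ifs with h0
      · congr 1
        have h5 : ∀ t : ZMod r, τ (Multiplicative.ofAdd ((t • m) ⬝ᵥ μ)) x = x := by
          intro t
          rw [smul_dotProduct, h0, smul_zero, ofAdd_zero, map_one]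
          rfl
        rw [Finset.sum_congr rfl fun t _ => h5 t, Finset.sum_const, Finset.card_univ, ZMod.card,
          Nat.cast_smul_eq_nsmul]
      · have h5 := Equiv.sum_comp (Equiv.mulRight₀ (m ⬝ᵥ μ) h0)
          fun j => τ (Multiplicative.ofAdd j) x
        rw [hn x] at h5
        have h6 : ∑ t : ZMod r, τ (Multiplicative.ofAdd ((t • m) ⬝ᵥ μ)) x = 0 := by
          rw [← h5]
          refine Finset.sum_congr rfl fun t _ => ?_
          rw [smul_dotProduct, smul_eq_mul]
          rfl
        rw [h6, smul_zero]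
    rw [Finset.sum_congr rfl fun μ _ => h4 μ, ← Finset.sum_filter, ← Finset.sum_smul] at h3
    have hrq : (r : ZMod q) ≠ 0 := by
      intro h0
      rw [ZMod.natCast_eq_zero_iff] at h0
      exact hqr ((Nat.prime_dvd_prime_iff_eq hq hr).mp h0)
    by_contra hne
    have h7 : (r : ZMod q) • x = 0 := by
      have h8 := congrArg (fun z => (∑ μ ∈ Finset.univ.filter
        (fun μ : Fin n → ZMod r => m ⬝ᵥ μ = 0), C (μ₀ + μ))⁻¹ • z) h3
      simpa only [smul_zero, inv_smul_smul₀ hne] using h8
    have h9 := congrArg (fun z => (r : ZMod q)⁻¹ • z) h7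
    simp only [smul_zero, inv_smul_smul₀ hrq] at h9
    exact hx h9
  -- the translations
  let T : Multiplicative (Fin n → ZMod r) →* Module.End ℤ ((Fin n → ZMod r) → ZMod q) :=
    { toFun := fun y =>
        { toFun := fun a μ => a (μ + Multiplicative.toAdd y)
          map_add' := fun a b => rfl
          map_smul' := fun c a => rfl }
      map_one' := by
        refine LinearMap.ext fun a => funext fun μ => ?_
        change a (μ + 0) = a μ
        rw [add_zero]
      map_mul' := fun y z => by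
        refine LinearMap.ext fun a => funext fun μ => ?_
        change a (μ + (Multiplicative.toAdd y + Multiplicative.toAdd z)) =
          a (μ + Multiplicative.toAdd y + Multiplicative.toAdd z)
        rw [add_assoc] }
  have hT : ∀ (y μ : Fin n → ZMod r) (a : (Fin n → ZMod r) → ZMod q),
      T (Multiplicative.ofAdd y) a μ = a (μ + y) := fun _ _ _ => rfl
  have hb : C ∈ (⊥ : AddSubgroup ((Fin n → ZMod r) → ZMod q)) := by
    refine hyp hr T ⊥ C ⟨q, (Nat.coprime_primes hq hr).mpr hqr, ?_⟩ ?_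
    · funext μ
      simp
    · intro l
      rw [AddSubgroup.mem_bot]
      funext μ₀
      have h1 := key (fun i => l (Pi.single i 1)) μ₀
      have hl : ∀ y : Fin n → ZMod r, l y = (fun i => l (Pi.single i 1)) ⬝ᵥ y := by
        intro y
        conv_lhs => rw [← Finset.univ_sum_single y]
        rw [map_sum]
        refine Finset.sum_congr rfl fun i _ => ?_
        have h2 : (Pi.single i (y i) : Fin n → ZMod r) = y i • Pi.single i 1 := by
          rw [← Pi.single_smul, smul_eq_mul, mul_one]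
        rw [h2, map_smul, smul_eq_mul, mul_comm]
      rw [Finset.sum_apply, Pi.zero_apply, ← h1]
      refine Finset.sum_congr ?_ fun y _ => hT y μ₀ C
      ext y
      simp only [Finset.mem_filter, Finset.mem_univ, true_and]
      rw [hl y]
  exact (AddSubgroup.mem_bot).mp hb

end Pool.Agent.HForm
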