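import Pool.Agent.Lib_MP_4009a7_al.Base

/-!
# Piece IL: large isotropic subgroups for multiplicative forms
-/

set_option autoImplicit false

open scoped commutatorElement

namespace Pool.Agent.HForm

/-- `Ψ` is multiplicative in the slots in `S` and does not depend on the other slots -/
def IsForm {T Z : Type} [Group T] [CommGroup Z] {d : ℕ} (S : Finset (Fin d)) (Ψ : (Fin d → T) → Z) : Prop :=
  (∀ v, ∀ i ∈ S, ∀ x y, Ψ (Function.update v i (x * y)) = Ψ (Function.update v i x) * Ψ (Function.update v i y)) ∧
    ∀ v v' : Fin d → T, (∀ i ∈ S, v i = v' i) → Ψ v = Ψ v'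

/-- fixing the slots in `P` -/
theorem IsForm.plug {T Z : Type} [Group T] [CommGroup Z] {d : ℕ} {S : Finset (Fin d)} {Ψ : (Fin d → T) → Z}
    (h : IsForm S Ψ) (P : Finset (Fin d)) (u : T) :
    IsForm (S \ P) (fun v => Ψ (fun j => if j ∈ P then u else v j)) := by
  refine ⟨?_, ?_⟩
  · intro v i hi x y
    rw [Finset.mem_sdiff] at hi
    have key : ∀ a : T, (fun j => if j ∈ P then u else Function.update v i a j) =
        Function.update (fun j => if j ∈ P then u else v j) i a := by
      intro a
      funext j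
      by_cases hj : j = i
      · subst hj
        simp [hi.2]
      · simp [Function.update_of_ne hj]
    simp only [key]
    exact h.1 _ i hi.1 x y
  · intro v v' hv
    refine h.2 _ _ fun i hi => ?_
    by_cases hp : i ∈ P
    · simp [hp]
    · simp only [hp, if_false]
      exact hv i (Finset.mem_sdiff.2 ⟨hi, hp⟩)

section ILaux

variable {T Z : Type} [Group T] [CommGroup Z] {d : ℕ} {S : Finset (Fin d)} {Ψ : (Fin d → T) → Z}

/-- the homomorphism given by one slot -/
def il_hom (h : IsForm S Ψ) (v : Fin d → T) (i : Fin d) (hi : i ∈ S) : T →* Z :=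
  MonoidHom.mk' (fun x => Ψ (Function.update v i x)) (fun x y => h.1 v i hi x y)

theorem il_hom_apply (h : IsForm S Ψ) (v : Fin d → T) (i : Fin d) (hi : i ∈ S) (x : T) :
    il_hom h v i hi x = Ψ (Function.update v i x) := rfl

theorem il_closure (h : IsForm S Ψ) (A : Fin d → Set T)
    (hA : ∀ v : Fin d → T, (∀ s ∈ S, v s ∈ A s) → Ψ v = 1) :
    ∀ v : Fin d → T, (∀ s ∈ S, v s ∈ Subgroup.closure (A s)) → Ψ v = 1 := by
  have key : ∀ P : Finset (Fin d), P ⊆ S → ∀ v : Fin d → T,
      (∀ s ∈ S, if s ∈ P then v s ∈ Subgroup.closure (A s) else v s ∈ A s) → Ψ v = 1 := by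
    intro P
    induction P using Finset.induction_on with
    | empty =>
      intro _ v hv
      exact hA v (fun s hs => by simpa using hv s hs)
    | insert i P hiP ih =>
      intro hPS v hv
      have hiS : i ∈ S := hPS (Finset.mem_insert_self i P)
      have hsub : Subgroup.closure (A i) ≤ (il_hom h v i hiS).ker := by
        rw [Subgroup.closure_le]
        intro x hx
        rw [SetLike.mem_coe, MonoidHom.mem_ker, il_hom_apply]
        refine ih (fun j hj => hPS (Finset.mem_insert_of_mem hj)) _ ?_
        intro s hs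
        by_cases hsi : s = i
        · subst hsi
          rw [if_neg hiP, Function.update_self]
          exact hx
        · rw [Function.update_of_ne hsi]
          have h1 := hv s hs
          by_cases hsP : s ∈ P
          · rw [if_pos hsP]
            rwa [if_pos (Finset.mem_insert_of_mem hsP)] at h1
          · rw [if_neg hsP]
            rwa [if_neg (by simp [hsi, hsP])] at h1
      have hv' : v i ∈ (il_hom h v i hiS).ker := hsub (by
        have h1 := hv i hiS
        rwa [if_pos (Finset.mem_insert_self i P)] at h1)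
      rw [MonoidHom.mem_ker, il_hom_apply, Function.update_eq_self] at hv'
      exact hv'
  intro v hv
  exact key S subset_rfl v (fun s hs => by rw [if_pos hs]; exact hv s hs)

theorem il_mixed (h : IsForm S Ψ) (hS : S.Nonempty) (W x : T)
    (hm : ∀ (v : Fin d → T) (i r : Fin d), i ∈ S → r ∈ S → i ≠ r → v i = x → v r = W →
      (∀ s ∈ S, v s = W ∨ v s = x ∨ v s = W * x) → Ψ v = 1) :
    Ψ (fun _ => W * x) = Ψ (fun _ => W) * Ψ (fun _ => x) := by
  obtain ⟨i, hi⟩ := hS
  have claimA : ∀ Q : Finset (Fin d), Q ⊆ S.erase i →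
      Ψ (fun s => if s ∈ Q then W * x else W) = Ψ (fun _ => W) := by
    intro Q
    induction Q using Finset.induction_on with
    | empty => intro _; simp
    | insert j Q hjQ ih =>
      intro hQ
      have hj := Finset.mem_erase.1 (hQ (Finset.mem_insert_self j Q))
      have hiQ : i ∉ insert j Q := fun hh => (Finset.mem_erase.1 (hQ hh)).1 rfl
      have e1 : ∀ a : T, Function.update (fun s => if s ∈ Q then W * x else W) j a =
          fun s => if s = j then a else if s ∈ Q then W * x else W := by
        intro a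
        funext s
        by_cases hs : s = j
        · subst hs; simp
        · simp [hs]
      have e2 : (fun s => if s ∈ insert j Q then W * x else W) =
          Function.update (fun s => if s ∈ Q then W * x else W) j (W * x) := by
        rw [e1]
        funext s
        by_cases hs : s = j <;> simp [hs]
      have e3 : Function.update (fun s => if s ∈ Q then W * x else W) j W =
          fun s => if s ∈ Q then W * x else W := by
        rw [e1]
        funext s
        by_cases hs : s = j
        · subst hs; simp [hjQ]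
        · simp [hs]
      rw [e2, h.1 _ j hj.2 W x, e3, ih (fun s hs => hQ (Finset.mem_insert_of_mem hs))]
      have e4 : Ψ (Function.update (fun s => if s ∈ Q then W * x else W) j x) = 1 := by
        refine hm _ j i hj.2 hi hj.1 (by simp) ?_ ?_
        · rw [e1]
          have : i ∉ Q := fun hh => hiQ (Finset.mem_insert_of_mem hh)
          simp [hj.1.symm, this]
        · intro s _
          rw [e1]
          by_cases hs : s = j
          · simp [hs]
          · by_cases hs' : s ∈ Q <;> simp [hs, hs']
      rw [e4, mul_one]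
  have claimB : ∀ Q : Finset (Fin d), Q ⊆ S.erase i →
      Ψ (fun s => if s ∈ Q then W * x else x) = Ψ (fun _ => x) := by
    intro Q
    induction Q using Finset.induction_on with
    | empty => intro _; simp
    | insert j Q hjQ ih =>
      intro hQ
      have hj := Finset.mem_erase.1 (hQ (Finset.mem_insert_self j Q))
      have hiQ : i ∉ insert j Q := fun hh => (Finset.mem_erase.1 (hQ hh)).1 rfl
      have e1 : ∀ a : T, Function.update (fun s => if s ∈ Q then W * x else x) j a =
          fun s => if s = j then a else if s ∈ Q then W * x else x := by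
        intro a
        funext s
        by_cases hs : s = j
        · subst hs; simp
        · simp [hs]
      have e2 : (fun s => if s ∈ insert j Q then W * x else x) =
          Function.update (fun s => if s ∈ Q then W * x else x) j (W * x) := by
        rw [e1]
        funext s
        by_cases hs : s = j <;> simp [hs]
      have e3 : Function.update (fun s => if s ∈ Q then W * x else x) j x =
          fun s => if s ∈ Q then W * x else x := by
        rw [e1]
        funext s
        by_cases hs : s = j
        · subst hs; simp [hjQ]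
        · simp [hs]
      rw [e2, h.1 _ j hj.2 W x, e3, ih (fun s hs => hQ (Finset.mem_insert_of_mem hs))]
      have e4 : Ψ (Function.update (fun s => if s ∈ Q then W * x else x) j W) = 1 := by
        refine hm _ i j hi hj.2 hj.1.symm ?_ (by simp) ?_
        · rw [e1]
          have : i ∉ Q := fun hh => hiQ (Finset.mem_insert_of_mem hh)
          simp [hj.1.symm, this]
        · intro s _
          rw [e1]
          by_cases hs : s = j
          · simp [hs]
          · by_cases hs' : s ∈ Q <;> simp [hs, hs']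
      rw [e4, one_mul]
  have f1 : Ψ (fun _ => W * x) =
      Ψ (Function.update (fun s => if s ∈ S.erase i then W * x else W) i (W * x)) := by
    refine h.2 _ _ fun s hs => ?_
    by_cases hsi : s = i
    · subst hsi; simp
    · simp [hsi, hs]
  have f2 : Ψ (Function.update (fun s => if s ∈ S.erase i then W * x else W) i W) =
      Ψ (fun s => if s ∈ S.erase i then W * x else W) := by
    refine h.2 _ _ fun s _ => ?_
    by_cases hsi : s = i
    · subst hsi; simp
    · simp [Function.update_of_ne hsi]
  have f3 : Ψ (Function.update (fun s => if s ∈ S.erase i then W * x else W) i x) =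
      Ψ (fun s => if s ∈ S.erase i then W * x else x) := by
    refine h.2 _ _ fun s hs => ?_
    by_cases hsi : s = i
    · subst hsi; simp
    · simp [hsi, hs]
  rw [f1, h.1 _ i hi W x, f2, f3, claimA _ subset_rfl, claimB _ subset_rfl]

theorem il_prod_mem (x : ℕ → T) (m : ℕ) (K : Subgroup T) (h : ∀ b < m, x b ∈ K) :
    ((List.range m).map x).prod ∈ K := by
  refine Subgroup.list_prod_mem _ ?_
  intro y hy
  obtain ⟨b, hb, rfl⟩ := List.mem_map.1 hy
  exact h b (List.mem_range.1 hb)

theorem il_pow (h : IsForm S Ψ) (hS : S.Nonempty) (x : ℕ → T) (e : ℕ) (δ : Z)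
    (hx : ∀ β : Fin d → ℕ, (∀ s, β s < e) → (∃ s ∈ S, ∃ s' ∈ S, β s ≠ β s') →
      Ψ (fun s => x (β s)) = 1)
    (hδ : ∀ b < e, Ψ (fun _ => x b) = δ) :
    ∀ m ≤ e, Ψ (fun _ => ((List.range m).map x).prod) = δ ^ m := by
  intro m
  induction m with
  | zero =>
    intro _
    obtain ⟨i, hi⟩ := hS
    have h1 := map_one (il_hom h (fun _ => 1) i hi)
    rw [il_hom_apply] at h1
    have h2 : Function.update (fun _ : Fin d => (1 : T)) i 1 = fun _ => 1 := by
      funext s
      by_cases hs : s = i
      · subst hs; simp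
      · simp [Function.update_of_ne hs]
    rw [h2] at h1
    simpa using h1
  | succ m ih =>
    intro hm
    have hprod : ((List.range (m + 1)).map x).prod = ((List.range m).map x).prod * x m := by
      rw [List.range_succ, List.map_append, List.prod_append]
      simp
    rw [hprod]
    rw [il_mixed h hS, ih (by omega), hδ m (by omega), pow_succ]
    intro v i r hi hr hir hvi hvr hv
    refine il_closure h (fun s => if s = i then {x m} else if s = r then x '' {b | b < m}
      else x '' {b | b ≤ m}) ?_ v ?_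
    · intro v' hv'
      have hb : ∀ s, ∃ b, b < e ∧ (s ∈ S → v' s = x b) ∧ (s = i → b = m) ∧ (s = r → b < m) := by
        intro s
        by_cases hsi : s = i
        · subst hsi
          have h1 := hv' s hi
          rw [if_pos rfl] at h1
          exact ⟨m, by omega, fun _ => h1, fun _ => rfl, fun h2 => absurd h2 hir⟩
        · by_cases hsr : s = r
          · subst hsr
            have h1 := hv' s hr
            rw [if_neg hsi, if_pos rfl] at h1
            obtain ⟨b, hb, hb'⟩ := h1
            have hb2 : b < m := hb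
            exact ⟨b, by omega, fun _ => hb'.symm, fun h2 => absurd h2 hsi, fun _ => hb2⟩
          · by_cases hsS : s ∈ S
            · have h1 := hv' s hsS
              rw [if_neg hsi, if_neg hsr] at h1
              obtain ⟨b, hb, hb'⟩ := h1
              have hb2 : b ≤ m := hb
              exact ⟨b, by omega, fun _ => hb'.symm, fun h2 => absurd h2 hsi,
                fun h2 => absurd h2 hsr⟩
            · exact ⟨m, by omega, fun h2 => absurd h2 hsS, fun _ => rfl,
                fun h2 => absurd h2 hsr⟩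
      choose β hβ1 hβ2 hβ3 hβ4 using hb
      rw [h.2 v' (fun s => x (β s)) (fun s hs => hβ2 s hs)]
      refine hx β hβ1 ⟨i, hi, r, hr, ?_⟩
      rw [hβ3 i rfl]
      exact (hβ4 r rfl).ne'
    · intro s hs
      by_cases hsi : s = i
      · subst hsi
        rw [if_pos rfl, hvi]
        exact Subgroup.subset_closure rfl
      · by_cases hsr : s = r
        · subst hsr
          rw [if_neg hsi, if_pos rfl, hvr]
          exact il_prod_mem x m _ fun b hb => Subgroup.subset_closure ⟨b, hb, rfl⟩
        · rw [if_neg hsi, if_neg hsr]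
          have k1 : ((List.range m).map x).prod ∈ Subgroup.closure (x '' {b | b ≤ m}) :=
            il_prod_mem x m _ fun b hb => Subgroup.subset_closure ⟨b, le_of_lt hb, rfl⟩
          have k2 : x m ∈ Subgroup.closure (x '' {b | b ≤ m}) :=
            Subgroup.subset_closure ⟨m, le_refl m, rfl⟩
          rcases hv s hs with h1 | h1 | h1
          · rw [h1]; exact k1
          · rw [h1]; exact k2
          · rw [h1]; exact mul_mem k1 k2

theorem il_ri_ne_zero [Finite T] (H K : Subgroup T) : H.relIndex K ≠ 0 := by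
  intro h
  have h1 : H.relIndex K ∣ Nat.card K := Subgroup.relIndex_dvd_card H K
  rw [h, zero_dvd_iff] at h1
  exact Nat.card_pos.ne' h1

theorem il_chain [Finite T] (R : Subgroup T) [R.Normal] (w : ℕ → T) (n : ℕ)
    (hw : ∀ a < n, w a ∉ R ⊔ Subgroup.closure (w '' {a' | a' < a})) :
    2 ^ n ≤ R.relIndex (Subgroup.closure (w '' {a | a < n})) := by
  rw [← Subgroup.relIndex_sup_left]
  induction n with
  | zero =>
    have h1 : 0 < R.relIndex (R ⊔ Subgroup.closure (w '' {a | a < 0})) :=
      Nat.pos_of_ne_zero (il_ri_ne_zero _ _)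
    rw [pow_zero]
    exact h1
  | succ n ih =>
    have h1 : R ⊔ Subgroup.closure (w '' {a | a < n}) ≤
        R ⊔ Subgroup.closure (w '' {a | a < n + 1}) := by
      refine sup_le_sup_left (Subgroup.closure_mono ?_) _
      rintro _ ⟨a, ha, rfl⟩
      have ha' : a < n := ha
      exact ⟨a, Nat.lt_succ_of_lt ha', rfl⟩
    have h2 := Subgroup.relIndex_mul_relIndex _ _ _ (le_sup_left (a := R)) h1
    rw [← h2, pow_succ]
    refine Nat.mul_le_mul (ih fun a ha => hw a (by omega)) ?_
    have h3 := il_ri_ne_zero (R ⊔ Subgroup.closure (w '' {a | a < n}))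
      (R ⊔ Subgroup.closure (w '' {a | a < n + 1}))
    have h4 : (R ⊔ Subgroup.closure (w '' {a | a < n})).relIndex
        (R ⊔ Subgroup.closure (w '' {a | a < n + 1})) ≠ 1 := by
      rw [Ne, Subgroup.relIndex_eq_one]
      intro hle
      refine hw n (by omega) (hle (Subgroup.mem_sup_right (Subgroup.subset_closure ?_)))
      exact ⟨n, Nat.lt_succ_self n, rfl⟩
    omega

theorem il_normal {R : Subgroup T} (hR : commutator T ≤ R) : R.Normal := by
  refine ⟨fun n hn g => ?_⟩
  have h1 : ⁅g, n⁆ ∈ R :=
    hR (Subgroup.commutator_mem_commutator (Subgroup.mem_top g) (Subgroup.mem_top n))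
  have h2 : g * n * g⁻¹ = ⁅g, n⁆ * n := by
    rw [commutatorElement_def]
    group
  rw [h2]
  exact mul_mem h1 hn

end ILaux

/-- degree one: the common kernel of `N` homomorphisms to groups of order at most `z` has index at most `z ^ N`; see `isotropic` -/
theorem isotropic_one (z N L : ℕ) : ∃ K0 : ℕ, ∀ (T Z : Type) [Group T] [Finite T] [CommGroup Z] [Finite Z]
    (d : ℕ), Nat.card Z ≤ z → ∀ (ι : Type) [Finite ι], Nat.card ι ≤ N →
    ∀ (S : ι → Finset (Fin d)) (Ψ : ι → (Fin d → T) → Z), (∀ i, (S i).card = 1) → (∀ i, IsForm (S i) (Ψ i)) →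
    ∀ (R D : Subgroup T), K0 ≤ R.relIndex D →
    ∃ D' ≤ D, L ≤ R.relIndex D' ∧ ∀ i, ∀ v : Fin d → T, (∀ j, v j ∈ D') → Ψ i v = 1 := by
  refine ⟨z ^ N * L, ?_⟩
  intro T Z _ _ _ _ d hz ι _ hι S Ψ hS hΨ R D hRD
  classical
  have hs : ∀ i, ∃ s, S i = {s} := fun i => Finset.card_eq_one.1 (hS i)
  choose s hs using hs
  have hmem : ∀ i, s i ∈ S i := fun i => by rw [hs i]; exact Finset.mem_singleton_self _
  let Φ : T →* (ι → Z) := MonoidHom.mk' (fun x i => il_hom (hΨ i) (fun _ => 1) (s i) (hmem i) x)
    (fun x y => funext fun i => map_mul _ x y)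
  have hΦ : ∀ x i, Φ x i = Ψ i (Function.update (fun _ => 1) (s i) x) := fun _ _ => rfl
  refine ⟨D ⊓ Φ.ker, inf_le_left, ?_, ?_⟩
  · have hz1 : 0 < z := lt_of_lt_of_le Nat.card_pos hz
    have h1 : (D ⊓ Φ.ker).relIndex D ≤ z ^ N := by
      rw [Subgroup.inf_relIndex_left, Subgroup.relIndex_ker]
      let _ := Fintype.ofFinite ι
      let _ := Fintype.ofFinite Z
      calc Nat.card (D.map Φ) ≤ Nat.card (ι → Z) :=
            Nat.card_le_card_of_injective Subtype.val Subtype.val_injective
        _ = Nat.card Z ^ Nat.card ι := by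
            rw [Nat.card_eq_fintype_card, Fintype.card_fun, Nat.card_eq_fintype_card,
              Nat.card_eq_fintype_card]
        _ ≤ z ^ Nat.card ι := Nat.pow_le_pow_left hz _
        _ ≤ z ^ N := Nat.pow_le_pow_right hz1 hι
    have h2 : R.relIndex D ≤ (R ⊓ (D ⊓ Φ.ker)).relIndex D :=
      Subgroup.relIndex_le_of_le_left inf_le_left (il_ri_ne_zero _ _)
    have h3 := Subgroup.relIndex_mul_relIndex (R ⊓ (D ⊓ Φ.ker)) (D ⊓ Φ.ker) D inf_le_right inf_le_left
    rw [Subgroup.inf_relIndex_right] at h3
    rw [← h3] at h2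
    have h4 : z ^ N * L ≤ z ^ N * R.relIndex (D ⊓ Φ.ker) :=
      calc z ^ N * L ≤ R.relIndex D := hRD
        _ ≤ R.relIndex (D ⊓ Φ.ker) * (D ⊓ Φ.ker).relIndex D := h2
        _ ≤ R.relIndex (D ⊓ Φ.ker) * z ^ N := Nat.mul_le_mul_left _ h1
        _ = _ := mul_comm _ _
    exact Nat.le_of_mul_le_mul_left h4 (Nat.pow_pos hz1)
  · intro i v hv
    have h1 : v (s i) ∈ Φ.ker := (Subgroup.mem_inf.1 (hv (s i))).2
    rw [MonoidHom.mem_ker] at h1
    have h2 := congrFun h1 i
    rw [hΦ] at h2
    rw [(hΨ i).2 v (Function.update (fun _ => 1) (s i) (v (s i))) ?_]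
    · exact h2
    · intro j hj
      rw [hs i, Finset.mem_singleton] at hj
      subst hj
      simp

/-- the statement of `isotropic` for given parameters -/
def IlStmt (e z k N L K0 : ℕ) : Prop := ∀ (T Z : Type) [Group T] [Finite T]
    [CommGroup Z] [Finite Z] (d : ℕ), (∀ x : T, x ^ e = 1) → (∀ x : Z, x ^ e = 1) → Nat.card Z ≤ z →
    ∀ (ι : Type) [Finite ι], Nat.card ι ≤ N → ∀ (S : ι → Finset (Fin d)) (Ψ : ι → (Fin d → T) → Z),
    (∀ i, (S i).Nonempty ∧ (S i).card ≤ k) → (∀ i, IsForm (S i) (Ψ i)) →
    ∀ (R D : Subgroup T), commutator T ≤ R → K0 ≤ R.relIndex D →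
    ∃ D' ≤ D, L ≤ R.relIndex D' ∧ ∀ i, ∀ v : Fin d → T, (∀ j, v j ∈ D') → Ψ i v = 1

theorem il_Q {e z k : ℕ} (he : 0 < e) (IH : ∀ N L, ∃ K0, IlStmt e z k N L K0) (N : ℕ) :
    ∀ M : ℕ, ∃ K : ℕ, ∀ (T Z : Type) [Group T] [Finite T] [CommGroup Z] [Finite Z] (d : ℕ),
    (∀ x : T, x ^ e = 1) → (∀ x : Z, x ^ e = 1) → Nat.card Z ≤ z →
    ∀ (ι : Type) [Finite ι], Nat.card ι ≤ N → ∀ (S : ι → Finset (Fin d)) (Ψ : ι → (Fin d → T) → Z),
    (∀ i, (S i).Nonempty ∧ (S i).card ≤ k + 1) → (∀ i, IsForm (S i) (Ψ i)) →
    ∀ (R D : Subgroup T), commutator T ≤ R → K ≤ R.relIndex D →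
    ∃ u : ℕ → T, (∀ j < M, u j ∈ D) ∧
      (∀ j < M, u j ∉ R ⊔ Subgroup.closure (u '' {i | i < j})) ∧
      ∀ i, ∀ c : Fin d → ℕ, (∀ s, c s < M) → (∃ s ∈ S i, ∃ s' ∈ S i, c s ≠ c s') →
        Ψ i (fun s => u (c s)) = 1 := by
  intro M
  induction M with
  | zero =>
    refine ⟨0, ?_⟩
    intro T Z _ _ _ _ d _ _ _ ι _ _ S Ψ _ _ R D _ _
    refine ⟨fun _ => 1, fun j hj => absurd hj (Nat.not_lt_zero _),
      fun j hj => absurd hj (Nat.not_lt_zero _), ?_⟩
    rintro i c hc ⟨s, -, -⟩
    exact absurd (hc s) (Nat.not_lt_zero _)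
  | succ M ihM =>
    obtain ⟨KM, hKM⟩ := ihM
    obtain ⟨K1, hK1⟩ := IH (N * 2 ^ (k + 1)) KM
    refine ⟨max 2 (e * K1), ?_⟩
    intro T Z _ _ _ _ d hT hZ hz ι _ hι S Ψ hS hΨ R D hR hK
    have h2 : 2 ≤ R.relIndex D := (le_max_left _ _).trans hK
    have hne : ¬ D ≤ R := fun h => by
      rw [Subgroup.relIndex_eq_one.2 h] at h2
      omega
    obtain ⟨u₀, hu0D, hu0R⟩ := SetLike.not_le_iff_exists.1 hne
    have hRn : R.Normal := il_normal hR
    have hR1c : commutator T ≤ R ⊔ Subgroup.zpowers u₀ := hR.trans le_sup_left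
    have hR1n : (R ⊔ Subgroup.zpowers u₀).Normal := il_normal hR1c
    have hcount : R.relIndex D ≤ e * (R ⊔ Subgroup.zpowers u₀).relIndex D := by
      have a1 : R.relIndex (R ⊔ D) = R.relIndex D := Subgroup.relIndex_sup_left _ _
      have a2 : R ⊔ Subgroup.zpowers u₀ ≤ R ⊔ D :=
        sup_le_sup_left (Subgroup.zpowers_le.2 hu0D) R
      have a3 : (R ⊔ Subgroup.zpowers u₀) ⊔ D = R ⊔ D :=
        le_antisymm (sup_le a2 le_sup_right) (sup_le_sup_right le_sup_left D)
      have a4 := Subgroup.relIndex_mul_relIndex R (R ⊔ Subgroup.zpowers u₀) (R ⊔ D) le_sup_left a2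
      have a5 : (R ⊔ Subgroup.zpowers u₀).relIndex (R ⊔ D) =
          (R ⊔ Subgroup.zpowers u₀).relIndex D := by
        rw [← a3]
        exact Subgroup.relIndex_sup_left _ _
      have a6 : R.relIndex (R ⊔ Subgroup.zpowers u₀) = R.relIndex (Subgroup.zpowers u₀) :=
        Subgroup.relIndex_sup_left _ _
      have a7 : R.relIndex (Subgroup.zpowers u₀) ≤ e := by
        refine (Nat.le_of_dvd Nat.card_pos (Subgroup.relIndex_dvd_card _ _)).trans ?_
        rw [Nat.card_zpowers]
        exact Nat.le_of_dvd he (orderOf_dvd_of_pow_eq_one (hT u₀))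
      rw [← a1, ← a4, a5, a6]
      exact Nat.mul_le_mul_right _ a7
    have hK1' : K1 ≤ (R ⊔ Subgroup.zpowers u₀).relIndex D :=
      Nat.le_of_mul_le_mul_left (((le_max_right _ _).trans hK).trans hcount) he
    have hcard : Nat.card (Σ i : ι, {P : Finset (Fin d) // P ⊆ S i ∧ P.Nonempty ∧ P ≠ S i}) ≤
        N * 2 ^ (k + 1) := by
      let _ := Fintype.ofFinite ι
      rw [Nat.card_sigma]
      have h3 : ∀ i : ι, Nat.card {P : Finset (Fin d) // P ⊆ S i ∧ P.Nonempty ∧ P ≠ S i} ≤
          2 ^ (k + 1) := by
        intro i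
        have h4 : Nat.card {P : Finset (Fin d) // P ⊆ S i ∧ P.Nonempty ∧ P ≠ S i} ≤
            Nat.card ((S i).powerset) :=
          Nat.card_le_card_of_injective (fun P => ⟨P.1, Finset.mem_powerset.2 P.2.1⟩)
            (fun P Q h => by
              have h5 := congrArg (fun X : (S i).powerset => X.1) h
              exact Subtype.ext h5)
        refine h4.trans ?_
        rw [Nat.card_eq_fintype_card, Fintype.card_coe, Finset.card_powerset]
        exact Nat.pow_le_pow_right (by norm_num) (hS i).2
      refine (Finset.sum_le_sum fun i _ => h3 i).trans ?_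
      rw [Finset.sum_const, smul_eq_mul, Finset.card_univ, ← Nat.card_eq_fintype_card]
      exact Nat.mul_le_mul_right _ hι
    obtain ⟨D₁, hD₁, hKM', hvan⟩ := hK1 T Z d hT hZ hz
      (Σ i : ι, {P : Finset (Fin d) // P ⊆ S i ∧ P.Nonempty ∧ P ≠ S i}) hcard
      (fun q => S q.1 \ q.2.1) (fun q v => Ψ q.1 (fun j => if j ∈ q.2.1 then u₀ else v j))
      (fun q => by
        refine ⟨?_, ?_⟩
        · rw [Finset.sdiff_nonempty]
          intro h
          exact q.2.2.2.2 (Finset.Subset.antisymm q.2.2.1 h)
        · rw [Finset.card_sdiff_of_subset q.2.2.1]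
          have h3 := (hS q.1).2
          have h4 := Finset.card_pos.2 q.2.2.2.1
          omega)
      (fun q => (hΨ q.1).plug q.2.1 u₀) (R ⊔ Subgroup.zpowers u₀) D hR1c hK1'
    obtain ⟨u', hu'D, hu'R, hu'v⟩ := hKM T Z d hT hZ hz ι hι S Ψ hS hΨ
      (R ⊔ Subgroup.zpowers u₀) D₁ hR1c hKM'
    have hu0 : ∀ j, (if j + 1 = 0 then u₀ else u' (j + 1 - 1)) = u' j := fun j => by simp
    refine ⟨fun j => if j = 0 then u₀ else u' (j - 1), ?_, ?_, ?_⟩
    · intro j hj
      rcases Nat.eq_zero_or_pos j with rfl | hj0
      · simpa using hu0D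
      · have hj1 : j ≠ 0 := hj0.ne'
        simp only [hj1, if_false]
        exact hD₁ (hu'D (j - 1) (by omega))
    · intro j hj
      rcases Nat.eq_zero_or_pos j with rfl | hj0
      · simpa using hu0R
      · obtain ⟨j, rfl⟩ : ∃ j', j = j' + 1 := ⟨j - 1, by omega⟩
        intro hmem
        have hmem' : u' j ∈ R ⊔ Subgroup.closure
            ((fun j => if j = 0 then u₀ else u' (j - 1)) '' {i | i < j + 1}) := by
          simpa using hmem
        refine hu'R j (by omega) ((?_ : R ⊔ Subgroup.closure
            ((fun j => if j = 0 then u₀ else u' (j - 1)) '' {i | i < j + 1}) ≤ _) hmem')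
        refine sup_le (le_sup_of_le_left le_sup_left) ?_
        rw [Subgroup.closure_le]
        rintro _ ⟨i, hi, rfl⟩
        have hi' : i < j + 1 := hi
        rcases Nat.eq_zero_or_pos i with rfl | hi0
        · refine Subgroup.mem_sup_left (Subgroup.mem_sup_right ?_)
          simp
        · refine Subgroup.mem_sup_right (Subgroup.subset_closure ?_)
          have hi1 : i ≠ 0 := hi0.ne'
          simp only [hi1, if_false]
          refine ⟨i - 1, ?_, rfl⟩
          change i - 1 < j
          omega
    · rintro i c hc ⟨s, hs, s', hs', hss⟩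
      have hM : 0 < M := by
        have h3 := hc s
        have h4 := hc s'
        omega
      by_cases hP : ((S i).filter fun r => c r = 0).Nonempty
      · have hPS : (S i).filter (fun r => c r = 0) ≠ S i := by
          intro h
          rw [← h] at hs hs'
          exact hss ((Finset.mem_filter.1 hs).2.trans (Finset.mem_filter.1 hs').2.symm)
        have h3 := hvan ⟨i, ⟨(S i).filter fun r => c r = 0, Finset.filter_subset _ _, hP, hPS⟩⟩
          (fun r => if c r = 0 then 1 else u' (c r - 1)) (fun r => by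
            by_cases hr : c r = 0
            · simp only [hr, if_true]
              exact one_mem _
            · simp only [hr, if_false]
              have h4 := hc r
              exact hu'D _ (by omega))
        rw [← h3]
        refine (hΨ i).2 _ _ fun r hr => ?_
        by_cases hr0 : c r = 0
        · simp [hr0, hr]
        · simp [hr0]
      · have hall : ∀ r ∈ S i, c r ≠ 0 := by
          intro r hr h
          exact hP ⟨r, Finset.mem_filter.2 ⟨hr, h⟩⟩
        rw [(hΨ i).2 _ (fun r => u' (c r - 1)) (fun r hr => by simp [hall r hr])]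
        refine hu'v i (fun r => c r - 1) (fun r => ?_) ⟨s, hs, s', hs', ?_⟩
        · have h4 := hc r
          change c r - 1 < M
          omega
        · have h4 := hall s hs
          have h5 := hall s' hs'
          change c s - 1 ≠ c s' - 1
          omega

/-- ISOTROPIC SUBGROUPS. PROOF. Induction on `k` (for all `N`, `L`). `k = 0`: there are no forms (`ι` is empty); `D' = D`, `K0 = L`.
Step from `k - 1` to `k ≥ 1` (for `k = 1` there is also `isotropic_one`).
CLAIM `Q M` (induction on `M`, for all `N`): there is `K` such that if `K ≤ R.relIndex D` then there is `u : Fin M → T` with `u j ∈ D`, `u j ∉ R ⊔ closure {u i | i < j}` and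
`Ψ i v = 1` for every `i` and every `v` with entries in `{u j}` which is not constant on the slots `S i`.
`M = 0` is trivial. Step: choose `u₀ ∈ D`, `u₀ ∉ R` (as `R.relIndex D > 1`). `R₁ = R ⊔ zpowers u₀`: it contains `commutator T`, so it is normal,
and `R.relIndex D ≤ e * R₁.relIndex D` (`R.relIndex R₁ ≤ e` as `R₁ ⧸ R` is cyclic of exponent dividing `e`). Apply the induction hypothesis (`k - 1`) to the forms obtained from the
`Ψ i` by plugging in `u₀` in a set `P ⊂ S i` of slots with `P ≠ ∅`, `P ≠ S i` (`IsForm.plug`; at most `N * 2 ^ k` forms, with slots `S i \ P`, nonempty of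
cardinality `≤ k - 1`), and `R₁`: there is `D₁ ≤ D` with `R₁.relIndex D₁` large (as large as necessary for `Q (M - 1)`) on which all these forms vanish. Apply `Q (M - 1)` to
`D₁`, `R₁` and the forms `Ψ i`: get `u₁, ..., u_{M-1} ∈ D₁`. A tuple with entries in `u₀, ..., u_{M-1}`, not constant on `S i`, either
does not involve `u₀` (use `Q (M - 1)`) or it involves `u₀` in a proper nonempty subset of `S i`, and the other entries are in `D₁`, so `Ψ i` vanishes.
PROOF OF THE STEP. Let `M = e * L' * z ^ N` where `2 ^ L' ≥ L`, and take `u` from `Q M`. The map `j ↦ (Ψ i (fun _ => u j))_i` has at most `z ^ N` values, so there are `e * L'` indices (in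
increasing order) with the same value `(δ i)_i`. Group them in `L'` consecutive groups of `e` and let `w_1, ..., w_{L'}` be the products (in order) of the `u j` in each group, `D' = closure {w_1, ..., w_{L'}}`.
For tuples `v` with entries in `{w_a}`, expand `Ψ i v` multiplicatively: tuples of `u`'s not constant on `S i` contribute `1`; constant tuples occur only if `v` is constant on `S i`, and they contribute
`(δ i) ^ e = 1`. By multiplicativity in each slot `Ψ i` vanishes on `D'` (the elements of a slot for which it vanishes form a subgroup; change one slot after the other). Finally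
`w_(a+1) ∉ R ⊔ closure {w_1, ..., w_a}`: with `R' = R ⊔ closure {u i | i < j}` where `u j` is the last factor of `w_(a+1)`: the other factors, and `w_1, ..., w_a`, are in `R'`, and `u j ∉ R'`. So
`R < R ⊔ ⟨w_1⟩ < R ⊔ ⟨w_1, w_2⟩ < ...` and `R.relIndex D' = R.relIndex (R ⊔ D') ≥ 2 ^ L'`. -/
theorem isotropic (e z : ℕ) (he : 0 < e) : ∀ k N L : ℕ, ∃ K0 : ℕ, ∀ (T Z : Type) [Group T] [Finite T]
    [CommGroup Z] [Finite Z] (d : ℕ), (∀ x : T, x ^ e = 1) → (∀ x : Z, x ^ e = 1) → Nat.card Z ≤ z →
    ∀ (ι : Type) [Finite ι], Nat.card ι ≤ N → ∀ (S : ι → Finset (Fin d)) (Ψ : ι → (Fin d → T) → Z),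
    (∀ i, (S i).Nonempty ∧ (S i).card ≤ k) → (∀ i, IsForm (S i) (Ψ i)) →
    ∀ (R D : Subgroup T), commutator T ≤ R → K0 ≤ R.relIndex D →
    ∃ D' ≤ D, L ≤ R.relIndex D' ∧ ∀ i, ∀ v : Fin d → T, (∀ j, v j ∈ D') → Ψ i v = 1 := by
  intro k
  induction k with
  | zero =>
    intro N L
    refine ⟨L, ?_⟩
    intro T Z _ _ _ _ d _ _ _ ι _ _ S Ψ hS _ R D _ hRD
    refine ⟨D, le_refl D, hRD, fun i => ?_⟩
    exfalso
    have h1 := Finset.card_pos.2 (hS i).1
    have h2 := (hS i).2
    omega
  | succ k IH =>
    intro N L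
    obtain ⟨K, hK⟩ := il_Q he (fun N L => IH N L) N (e * L * z ^ N)
    refine ⟨K, ?_⟩
    intro T Z _ _ _ _ d hT hZ hz ι _ hι S Ψ hS hΨ R D hR hRD
    obtain ⟨u, huD, huR, huv⟩ := hK T Z d hT hZ hz ι hι S Ψ hS hΨ R D hR hRD
    classical
    let _ := Fintype.ofFinite ι
    let _ := Fintype.ofFinite Z
    have hz1 : 0 < z := lt_of_lt_of_le Nat.card_pos hz
    have hcard : Fintype.card (ι → Z) ≤ z ^ N := by
      rw [Fintype.card_fun, ← Nat.card_eq_fintype_card, ← Nat.card_eq_fintype_card]
      exact (Nat.pow_le_pow_left hz _).trans (Nat.pow_le_pow_right hz1 hι)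
    obtain ⟨δ, -, hδ⟩ := Finset.exists_le_card_fiber_of_mul_le_card_of_maps_to
      (s := Finset.range (e * L * z ^ N)) (t := (Finset.univ : Finset (ι → Z)))
      (f := fun j i => Ψ i (fun _ => u j)) (n := e * L) (fun _ _ => Finset.mem_univ _)
      Finset.univ_nonempty (by
        rw [Finset.card_univ, Finset.card_range, mul_comm (e * L)]
        exact Nat.mul_le_mul_right _ hcard)
    obtain ⟨G, hG1, hG2, hG3⟩ : ∃ G : ℕ → ℕ, (∀ m < e * L, G m < e * L * z ^ N) ∧
        (∀ m < e * L, ∀ i, Ψ i (fun _ => u (G m)) = δ i) ∧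
        (∀ m m', m < m' → m' < e * L → G m < G m') := by
      refine ⟨fun m => if h : m < e * L then Finset.orderEmbOfCardLe _ hδ ⟨m, h⟩ else 0, ?_, ?_, ?_⟩
      · intro m hm
        simp only [hm, dif_pos]
        exact Finset.mem_range.1 (Finset.mem_filter.1 (Finset.orderEmbOfCardLe_mem _ hδ ⟨m, hm⟩)).1
      · intro m hm i
        simp only [hm, dif_pos]
        exact congrFun (Finset.mem_filter.1 (Finset.orderEmbOfCardLe_mem _ hδ ⟨m, hm⟩)).2 i
      · intro m m' hmm hm'
        have hm : m < e * L := hmm.trans hm'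
        simp only [hm, hm', dif_pos]
        exact (Finset.orderEmbOfCardLe _ hδ).strictMono (show (⟨m, hm⟩ : Fin (e * L)) < ⟨m', hm'⟩ from hmm)
    have hidx : ∀ a b, a < L → b < e → a * e + b < e * L := by
      intro a b ha hb
      calc a * e + b < a * e + e := by omega
        _ = (a + 1) * e := by ring
        _ ≤ L * e := Nat.mul_le_mul_right _ ha
        _ = e * L := mul_comm _ _
    have hidx2 : ∀ a b a' b', a < a' → b < e → a * e + b < a' * e + b' := by
      intro a b a' b' ha hb
      calc a * e + b < a * e + e := by omega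
        _ = (a + 1) * e := by ring
        _ ≤ a' * e := Nat.mul_le_mul_right _ ha
        _ ≤ a' * e + b' := Nat.le_add_right _ _
    obtain ⟨w, hw⟩ : ∃ w : ℕ → T, ∀ a, w a = ((List.range e).map (fun b => u (G (a * e + b)))).prod :=
      ⟨_, fun _ => rfl⟩
    have hRn : R.Normal := il_normal hR
    refine ⟨Subgroup.closure (w '' {a | a < L}), ?_, ?_, ?_⟩
    · rw [Subgroup.closure_le]
      rintro _ ⟨a, ha, rfl⟩
      have ha' : a < L := ha
      rw [SetLike.mem_coe, hw]
      exact il_prod_mem _ e D fun b hb => huD _ (hG1 _ (hidx a b ha' hb))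
    · refine (Nat.lt_two_pow_self (n := L)).le.trans (il_chain R w L ?_)
      intro a ha hmem
      have hlt : a * e + (e - 1) < e * L := hidx a _ ha (by omega)
      have hle : R ⊔ Subgroup.closure (w '' {a' | a' < a}) ≤
          R ⊔ Subgroup.closure (u '' {i | i < G (a * e + (e - 1))}) := by
        refine sup_le le_sup_left ?_
        rw [Subgroup.closure_le]
        rintro _ ⟨a', ha', rfl⟩
        have ha2 : a' < a := ha'
        rw [SetLike.mem_coe, hw]
        refine il_prod_mem _ e _ fun b hb => Subgroup.mem_sup_right (Subgroup.subset_closure ?_)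
        exact ⟨G (a' * e + b), hG3 _ _ (hidx2 a' b a (e - 1) ha2 hb) hlt, rfl⟩
      have h1 := hle hmem
      have h2 : w a = ((List.range (e - 1)).map (fun b => u (G (a * e + b)))).prod *
          u (G (a * e + (e - 1))) := by
        rw [hw]
        conv_lhs => rw [show e = (e - 1) + 1 by omega]
        rw [List.range_succ, List.map_append, List.prod_append]
        simp only [List.map_cons, List.map_nil, List.prod_cons, List.prod_nil, mul_one]
        rw [show e - 1 + 1 = e by omega]
      rw [h2] at h1
      have h3 : ((List.range (e - 1)).map (fun b => u (G (a * e + b)))).prod ∈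
          R ⊔ Subgroup.closure (u '' {i | i < G (a * e + (e - 1))}) := by
        refine il_prod_mem _ (e - 1) _ fun b hb =>
          Subgroup.mem_sup_right (Subgroup.subset_closure ?_)
        exact ⟨G (a * e + b), hG3 _ _ (by omega) hlt, rfl⟩
      exact huR _ (hG1 _ hlt) ((Subgroup.mul_mem_cancel_left _ h3).1 h1)
    · intro i v hv
      refine il_closure (hΨ i) (fun _ => w '' {a | a < L}) ?_ v (fun s _ => hv s)
      intro v hv
      have hc : ∀ s, ∃ a, s ∈ S i → (a < L ∧ w a = v s) := by
        intro s
        by_cases hs : s ∈ S i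
        · obtain ⟨a, ha, ha'⟩ := hv s hs
          exact ⟨a, fun _ => ⟨ha, ha'⟩⟩
        · exact ⟨0, fun h => absurd h hs⟩
      choose c hc using hc
      by_cases hnc : ∃ s ∈ S i, ∃ s' ∈ S i, c s ≠ c s'
      · obtain ⟨s₀, hs₀, s₁, hs₁, h01⟩ := hnc
        refine il_closure (hΨ i) (fun s => (fun b => u (G (c s * e + b))) '' {b | b < e}) ?_ v ?_
        · intro v' hv'
          have hb : ∀ s, ∃ b, s ∈ S i → (b < e ∧ u (G (c s * e + b)) = v' s) := by
            intro s
            by_cases hs : s ∈ S i
            · obtain ⟨b, hb, hb'⟩ := hv' s hs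
              exact ⟨b, fun _ => ⟨hb, hb'⟩⟩
            · exact ⟨0, fun h => absurd h hs⟩
          choose β hβ using hb
          rw [(hΨ i).2 v' (fun s => u (if s ∈ S i then G (c s * e + β s)
            else G (c s₀ * e + β s₀))) (fun s hs => by
              simp only [hs, if_true]
              exact (hβ s hs).2.symm)]
          refine huv i (fun s => if s ∈ S i then G (c s * e + β s) else G (c s₀ * e + β s₀)) ?_
            ⟨s₀, hs₀, s₁, hs₁, ?_⟩
          · intro s
            by_cases hs : s ∈ S i
            · simp only [hs, if_true]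
              exact hG1 _ (hidx _ _ (hc s hs).1 (hβ s hs).1)
            · simp only [hs, if_false]
              exact hG1 _ (hidx _ _ (hc s₀ hs₀).1 (hβ s₀ hs₀).1)
          · simp only [hs₀, hs₁, if_true]
            rcases Nat.lt_or_gt_of_ne h01 with h | h
            · exact (hG3 _ _ (hidx2 _ _ _ _ h (hβ s₀ hs₀).1)
                (hidx _ _ (hc s₁ hs₁).1 (hβ s₁ hs₁).1)).ne
            · exact (hG3 _ _ (hidx2 _ _ _ _ h (hβ s₁ hs₁).1)
                (hidx _ _ (hc s₀ hs₀).1 (hβ s₀ hs₀).1)).ne'
        · intro s hs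
          rw [← (hc s hs).2, hw]
          exact il_prod_mem _ e _ fun b hb => Subgroup.subset_closure ⟨b, hb, rfl⟩
      · push Not at hnc
        obtain ⟨s₀, hs₀⟩ := (hS i).1
        have hconst : ∀ s ∈ S i, c s = c s₀ := fun s hs => hnc s hs s₀ hs₀
        have ha := (hc s₀ hs₀).1
        rw [(hΨ i).2 v (fun _ => w (c s₀)) (fun s hs => by
          rw [← (hc s hs).2, hconst s hs])]
        rw [hw, il_pow (hΨ i) (hS i).1 (fun b => u (G (c s₀ * e + b))) e (δ i) ?_ ?_ e (le_refl e)]
        · exact hZ _
        · rintro β hβ ⟨s, hs, s', hs', hss⟩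
          refine huv i (fun s => G (c s₀ * e + β s)) (fun s => hG1 _ (hidx _ _ ha (hβ s)))
            ⟨s, hs, s', hs', ?_⟩
          rcases Nat.lt_or_gt_of_ne hss with h | h
          · exact (hG3 _ _ (by omega) (hidx _ _ ha (hβ s'))).ne
          · exact (hG3 _ _ (by omega) (hidx _ _ ha (hβ s))).ne'
        · intro b hb
          exact hG2 _ (hidx _ _ ha hb) i

end Pool.Agent.HForm
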