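import Pool.Agent.Lib_MP_4009a7_al.FoxL

/-!
# Piece KK: Krasner-Kaloujnine embedding and Fox derivatives
-/

set_option autoImplicit false

open scoped commutatorElement

namespace Pool.Agent.HForm

/-- left translations of functions on a group -/
private def kkRep (E A : Type) [Group E] [AddCommGroup A] : E →* Module.End ℤ (E → A) where
  toFun ε := LinearMap.funLeft ℤ A (fun δ => ε⁻¹ * δ)
  map_one' := by
    ext φ δ
    simp [LinearMap.funLeft_apply]
  map_mul' a b := by
    ext φ δ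
    simp [LinearMap.funLeft_apply, mul_assoc]

private theorem kkRep_apply {E A : Type} [Group E] [AddCommGroup A] (ε : E) (φ : E → A) (δ : E) :
    kkRep E A ε φ δ = φ (ε⁻¹ * δ) := rfl

/-- the evaluation vanishes if the sums over the fibres vanish modulo `p` -/
private theorem kk_ev {E A : Type} [Group E] [AddCommGroup A] {p : ℕ} (hA : ∀ a : A, (p : ℤ) • a = 0)
    {n : ℕ} (t : Fin n → E) (f : FreeGroup (Fin n) →₀ ℤ)
    (h : ∀ ε : E, f.sum (fun g c => open Classical in
      if FreeGroup.lift t g = ε then ((c : ℤ) : ZMod p) else 0) = 0) :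
    ev (kkRep E A) t f = 0 := by
  classical
  apply LinearMap.ext
  intro φ
  funext δ
  have h1 : (ev (kkRep E A) t f) φ δ = ∑ g ∈ f.support, f g • φ ((FreeGroup.lift t g)⁻¹ * δ) := by
    unfold ev
    rw [Finsupp.sum, LinearMap.sum_apply, Finset.sum_apply]
    refine Finset.sum_congr rfl fun g _ => ?_
    rw [LinearMap.smul_apply, Pi.smul_apply, kkRep_apply]
  rw [h1, ← Finset.sum_fiberwise_of_maps_to (s := f.support)
    (t := f.support.image fun g => FreeGroup.lift t g) (g := fun g => FreeGroup.lift t g)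
    (fun g hg => Finset.mem_image_of_mem _ hg)]
  refine Finset.sum_eq_zero fun ε _ => ?_
  have h2 : ∑ g ∈ f.support with FreeGroup.lift t g = ε, f g • φ ((FreeGroup.lift t g)⁻¹ * δ) =
      (∑ g ∈ f.support with FreeGroup.lift t g = ε, f g) • φ (ε⁻¹ * δ) := by
    rw [Finset.sum_smul]
    refine Finset.sum_congr rfl fun g hg => ?_
    rw [(Finset.mem_filter.1 hg).2]
  rw [h2]
  have h3 : ((∑ g ∈ f.support with FreeGroup.lift t g = ε, f g : ℤ) : ZMod p) = 0 := by
    rw [← h ε, Finsupp.sum, Finset.sum_filter, Int.cast_sum]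
    refine Finset.sum_congr rfl fun g _ => ?_
    split_ifs <;> simp
  rw [ZMod.intCast_zmod_eq_zero_iff_dvd] at h3
  obtain ⟨c, hc⟩ := h3
  rw [hc, mul_comm, mul_smul, hA, smul_zero]

/-- PROOF. Let `E = X ⧸ N`, `V = E → Additive N` with the `E`-action `(ε • φ) δ = φ (ε⁻¹ δ)`, a representation `ρ` over `ℤ`
(`Additive N` is an additive commutative group: build the instance from `hN.1`, or let `V` be the type of all functions
`E → Additive N` with the pointwise structure from `CommGroup N`). Let `s : E → X` be a section of the quotient map. The map `Φ : X →* SD ρ`,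
`Φ x = ⟨fun δ => (s δ)⁻¹ * x * s (x̄⁻¹ δ), x̄⟩` (the values are in `N`) is a homomorphism:
`(s δ)⁻¹ x y s (ȳ⁻¹ x̄⁻¹ δ) = [(s δ)⁻¹ x s (x̄⁻¹ δ)] [(s (x̄⁻¹ δ))⁻¹ y s (ȳ⁻¹ x̄⁻¹ δ)]`, and it is injective (if `x̄ = 1` then
`(s δ)⁻¹ x s δ = 1` gives `x = 1`). By `sd_lift`, `Φ (lift x w) = lift (Φ ∘ x) w = ⟨∑ i, ev ρ x̄ (fox i w) (φ i), lift x̄ w⟩` with
`Φ (x i) = ⟨φ i, x̄ i⟩`, and `ev ρ x̄ (fox i w) φ = ∑_ε (∑_{g : lift x̄ g = ε} fox i w g) • ρ ε φ = 0` by `h2`, because `V` is annihilated
by `p` (group the sum over `g` by the value `ε` of `g`; `(lift x g : X ⧸ N) = lift x̄ g`). So `Φ (lift x w) = 1`. -/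
theorem foxx {X : Type} [Group X] (N : Subgroup X) [N.Normal] {p : ℕ} (hN : ElAb p N) {n : ℕ}
    (x : Fin n → X) (w : FreeGroup (Fin n)) (h1 : FreeGroup.lift x w ∈ N)
    (h2 : ∀ (i : Fin n) (ε : X ⧸ N), (fox i w).sum (fun g c =>
      open Classical in if (QuotientGroup.mk (FreeGroup.lift x g) : X ⧸ N) = ε then ((c : ℤ) : ZMod p) else 0) = 0) :
    FreeGroup.lift x w = 1 := by
  classical
  let _ : CommGroup N := { (inferInstance : Group N) with mul_comm := hN.1 }
  have hA : ∀ a : Additive N, (p : ℤ) • a = 0 := by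
    intro a
    have h3 := hN.2 (Additive.toMul a)
    rw [natCast_zsmul]
    exact h3
  have hs : ∀ δ : X ⧸ N, (QuotientGroup.mk (Quotient.out δ) : X ⧸ N) = δ := fun δ =>
    Quotient.out_eq' δ
  have hmem : ∀ (y : X) (δ : X ⧸ N), (Quotient.out δ)⁻¹ * y *
      Quotient.out ((QuotientGroup.mk y : X ⧸ N)⁻¹ * δ) ∈ N := by
    intro y δ
    rw [← QuotientGroup.eq_one_iff]
    rw [QuotientGroup.mk_mul, QuotientGroup.mk_mul, QuotientGroup.mk_inv, hs, hs]
    group
  let Φ : X →* SD (kkRep (X ⧸ N) (Additive N)) :=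
    { toFun := fun y => ⟨fun δ => Additive.ofMul ⟨_, hmem y δ⟩, QuotientGroup.mk y⟩
      map_one' := by
        ext δ
        · show (Quotient.out δ)⁻¹ * 1 * Quotient.out ((QuotientGroup.mk (1 : X) : X ⧸ N)⁻¹ * δ) = 1
          rw [QuotientGroup.mk_one, inv_one, one_mul, mul_one, inv_mul_cancel]
        · rfl
      map_mul' := by
        intro y z
        ext δ
        · show (Quotient.out δ)⁻¹ * (y * z) * Quotient.out ((QuotientGroup.mk (y * z) : X ⧸ N)⁻¹ * δ) =
            ((Quotient.out δ)⁻¹ * y * Quotient.out ((QuotientGroup.mk y : X ⧸ N)⁻¹ * δ)) *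
            ((Quotient.out ((QuotientGroup.mk y : X ⧸ N)⁻¹ * δ))⁻¹ * z *
              Quotient.out ((QuotientGroup.mk z : X ⧸ N)⁻¹ * ((QuotientGroup.mk y : X ⧸ N)⁻¹ * δ)))
          rw [QuotientGroup.mk_mul, mul_inv_rev, mul_assoc (QuotientGroup.mk z : X ⧸ N)⁻¹]
          group
        · rfl }
  have hΦ : ∀ u : FreeGroup (Fin n), Φ (FreeGroup.lift x u) = FreeGroup.lift (fun j => Φ (x j)) u := by
    intro u
    have h3 : Φ.comp (FreeGroup.lift x) = FreeGroup.lift (fun j => Φ (x j)) := by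
      apply FreeGroup.ext_hom
      intro j
      simp
    exact DFunLike.congr_fun h3 u
  have hbar : ∀ u : FreeGroup (Fin n), (QuotientGroup.mk (FreeGroup.lift x u) : X ⧸ N) =
      FreeGroup.lift (fun j => (QuotientGroup.mk (x j) : X ⧸ N)) u := by
    intro u
    have h3 : (QuotientGroup.mk' N).comp (FreeGroup.lift x) =
        FreeGroup.lift (fun j => (QuotientGroup.mk (x j) : X ⧸ N)) := by
      apply FreeGroup.ext_hom
      intro j
      simp
    exact DFunLike.congr_fun h3 u
  have h4 : Φ (FreeGroup.lift x w) = 1 := by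
    rw [hΦ]
    have h5 := sd_lift (kkRep (X ⧸ N) (Additive N)) (fun j => (QuotientGroup.mk (x j) : X ⧸ N))
      (fun j => (Φ (x j)).v) w
    have h6 : (fun j => Φ (x j)) = fun j => (⟨(Φ (x j)).v, (QuotientGroup.mk (x j) : X ⧸ N)⟩ :
      SD (kkRep (X ⧸ N) (Additive N))) := rfl
    rw [h6, h5, ← hbar, (QuotientGroup.eq_one_iff _).2 h1]
    ext δ
    · have h7 : ∀ i, ev (kkRep (X ⧸ N) (Additive N))
          (fun j => (QuotientGroup.mk (x j) : X ⧸ N)) (fox i w) = 0 := by
        intro i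
        refine kk_ev hA _ _ fun ε => ?_
        refine (Finsupp.sum_congr fun g _ => ?_).trans (h2 i ε)
        by_cases hg : FreeGroup.lift (fun j => (QuotientGroup.mk (x j) : X ⧸ N)) g = ε
        · rw [if_pos hg, if_pos ((hbar g).trans hg)]
        · rw [if_neg hg, if_neg fun h' => hg ((hbar g).symm.trans h')]
      simp only [h7]
      simp
    · rfl
  have h5 : (Φ (FreeGroup.lift x w)).v 1 = 0 := by
    rw [h4]
    rfl
  have h6 : (Quotient.out (1 : X ⧸ N))⁻¹ * (FreeGroup.lift x w) *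
      Quotient.out ((QuotientGroup.mk (FreeGroup.lift x w) : X ⧸ N)⁻¹ * 1) = 1 :=
    congrArg Subtype.val (Additive.ofMul.injective h5)
  rw [(QuotientGroup.eq_one_iff _).2 h1, inv_one, one_mul] at h6
  have h7 : FreeGroup.lift x w = Quotient.out (1 : X ⧸ N) * ((Quotient.out (1 : X ⧸ N))⁻¹ *
      (FreeGroup.lift x w) * Quotient.out (1 : X ⧸ N)) * (Quotient.out (1 : X ⧸ N))⁻¹ := by group
  rw [h7, h6]
  group

/-- PROOF. Let `x : Fin n → X`; `x̄ = mk ∘ x`. `lift x̄ w = 1` because `Eqv E w 1`. For `foxx`: for given `i`, `ε` the set of the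
`g` in the support of `fox i w` with `lift x̄ g = ε` is a union of classes of the equivalence relation `Eqv E`
(`Eqv E g g'` implies `lift x̄ g = lift x̄ g'`), and the sum over each class is zero (`h.2`). -/
theorem law_of_kills {p : ℕ} {E : GClass} {n : ℕ} {w : FreeGroup (Fin n)} (h : Kills p E w)
    {X : Type} [Group X] (N : Subgroup X) [N.Normal] (hN : ElAb p N) (hE : E (X ⧸ N)) : Law w X := by
  classical
  intro x
  have hbar : ∀ u : FreeGroup (Fin n), (QuotientGroup.mk (FreeGroup.lift x u) : X ⧸ N) =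
      FreeGroup.lift (fun j => (QuotientGroup.mk (x j) : X ⧸ N)) u := by
    intro u
    have h3 : (QuotientGroup.mk' N).comp (FreeGroup.lift x) =
        FreeGroup.lift (fun j => (QuotientGroup.mk (x j) : X ⧸ N)) := by
      apply FreeGroup.ext_hom
      intro j
      simp
    exact DFunLike.congr_fun h3 u
  have hcong : ∀ g g' : FreeGroup (Fin n), Eqv E g g' → (QuotientGroup.mk (FreeGroup.lift x g) : X ⧸ N) =
      QuotientGroup.mk (FreeGroup.lift x g') := by
    intro g g' hg
    rw [hbar, hbar]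
    exact hg _ hE _
  refine foxx N hN x w ?_ ?_
  · rw [← QuotientGroup.eq_one_iff, hcong w 1 h.1, map_one, QuotientGroup.mk_one]
  · intro i ε
    let S : Setoid (FreeGroup (Fin n)) :=
      { r := Eqv E
        iseqv := ⟨fun g Y _ _ t => rfl, fun hg Y _ hY t => (hg Y hY t).symm,
          fun hg hg' Y _ hY t => (hg Y hY t).trans (hg' Y hY t)⟩ }
    rw [Finsupp.sum, ← Finset.sum_filter]
    rw [← Finset.sum_fiberwise_of_maps_to
      (s := (fox i w).support.filter fun g => (QuotientGroup.mk (FreeGroup.lift x g) : X ⧸ N) = ε)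
      (t := ((fox i w).support.filter fun g =>
        (QuotientGroup.mk (FreeGroup.lift x g) : X ⧸ N) = ε).image fun g => Quotient.mk S g)
      (g := fun g => Quotient.mk S g) (fun g hg => Finset.mem_image_of_mem _ hg)]
    refine Finset.sum_eq_zero fun κ hκ => ?_
    obtain ⟨g₁, hg₁, rfl⟩ := Finset.mem_image.1 hκ
    rw [← h.2 i g₁]
    refine Finset.sum_congr ?_ fun g _ => rfl
    ext g
    simp only [Finset.mem_filter]
    constructor
    · rintro ⟨⟨h3, h4⟩, h5⟩
      exact ⟨h3, Quotient.exact h5⟩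
    · rintro ⟨h3, h4⟩
      refine ⟨⟨h3, ?_⟩, Quotient.sound h4⟩
      rw [hcong g g₁ h4]
      exact (Finset.mem_filter.1 hg₁).2

end Pool.Agent.HForm
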