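import Pool.Agent.Lib_MP_4009a7_al.Base

/-!
# kernels of irreducible constituents of a normal `q`-subgroup (definitions, no sorry)
-/

set_option autoImplicit false

open scoped commutatorElement

namespace Pool.Agent.HForm

variable {R V H : Type} [Ring R] [AddCommGroup V] [Module R V] [Group H]

/-- `K₀` is a normal subgroup of `Q` of index at most `B` with nonzero fixed points, and the normal subgroups of `Q` of larger order have no fixed points -/
structure Kern (ρ : H →* Module.End R V) (Q K₀ : Subgroup H) (B : ℕ) : Prop where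
  le : K₀ ≤ Q
  norm : ∀ x ∈ Q, ∀ k ∈ K₀, x * k * x⁻¹ ∈ K₀
  idx : K₀.relIndex Q ≤ B
  fix : fixed ρ K₀ ≠ ⊥
  max : ∀ X : Subgroup H, X ≤ Q → (∀ x ∈ Q, ∀ k ∈ X, x * k * x⁻¹ ∈ X) → Nat.card K₀ < Nat.card X →
    fixed ρ X = ⊥

/-- the conjugate `h K h⁻¹` -/
def cj (h : H) (K : Subgroup H) : Subgroup H := K.map (MulAut.conj h).toMonoidHom

theorem mem_cj {h x : H} {K : Subgroup H} : x ∈ cj h K ↔ h⁻¹ * x * h ∈ K := by
  constructor
  · rintro ⟨k, hk, rfl⟩
    have : h⁻¹ * (MulAut.conj h).toMonoidHom k * h = k := by simp [mul_assoc]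
    rw [this]; exact hk
  · intro hx
    exact ⟨_, hx, by simp [mul_assoc]⟩

/-- averaging over `K` -/
noncomputable def avg [Finite H] {p : ℕ} [Module (ZMod p) V] (ρ : H →* Module.End (ZMod p) V) (K : Subgroup H) :
    Module.End (ZMod p) V :=
  ((Nat.card K : ZMod p)⁻¹) • ∑ᶠ k : K, ρ k

end Pool.Agent.HForm
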