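import Pool.Agent.Lib_MP_4009a7_al.MinN

/-!
# Piece MAXN: maximal subgroups and a normal `p`-subgroup
-/

set_option autoImplicit false

open scoped commutatorElement

namespace Pool.Agent.HForm

variable {G : Type} [Group G]

/-- PROOF. `M ⊔ P = ⊤`. `P ⊓ M` is normalised by `M`. Since `P ⊓ M < P` and `P` is a finite `p`-group, there is
`x ∈ P`, `x ∉ M` which normalises `P ⊓ M` (normalizer condition). So the normalizer of `P ⊓ M` contains `M` strictly, so
it is `⊤`. If `L` is normal in `G`, `P ⊓ M ≤ L ≤ P`, then `L ⊔ M = M` or `⊤`. In the first case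
`L ≤ P ⊓ M`. In the second case `P = P ⊓ (L ⊔ M) = L ⊔ (P ⊓ M) = L` (Dedekind: `L ≤ P`). -/
theorem maxN [Finite G] {p : ℕ} (hp : p.Prime) (P : Subgroup G) (hPn : P.Normal) (hP : IsPGroup p P)
    (M : Subgroup G) (hM : IsCoatom M) (hPM : ¬ P ≤ M) : IsChief (P ⊓ M) P := by
  haveI : Fact p.Prime := ⟨hp⟩
  have hlt : P ⊓ M < P := lt_of_le_of_ne inf_le_left fun h => hPM (inf_eq_left.1 h)
  -- the normalizer condition in `P`
  obtain ⟨x, hxP, hxM, hxn⟩ : ∃ x ∈ P, x ∉ M ∧ ∀ g, g ∈ P ⊓ M ↔ x * g * x⁻¹ ∈ P ⊓ M := by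
    haveI : Group.IsNilpotent P := hP.isNilpotent
    have hnc : NormalizerCondition P := Group.normalizerCondition_of_isNilpotent
    have h1 : (P ⊓ M).subgroupOf P < ⊤ := by
      rw [lt_top_iff_ne_top]
      intro h
      rw [Subgroup.subgroupOf_eq_top] at h
      exact absurd (h.trans inf_le_right) hPM
    obtain ⟨x, hx1, hx2⟩ := SetLike.exists_of_lt (hnc _ h1)
    refine ⟨x, x.2, fun hxM => hx2 ?_, fun g => ?_⟩
    · rw [Subgroup.mem_subgroupOf]
      exact ⟨x.2, hxM⟩
    · rw [Subgroup.mem_normalizer_iff] at hx1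
      constructor
      · intro hg
        have := (hx1 ⟨g, hg.1⟩).1 (by rw [Subgroup.mem_subgroupOf]; exact hg)
        rw [Subgroup.mem_subgroupOf] at this
        exact this
      · intro hg
        have hgP : g ∈ P := by
          have := hPn.conj_mem _ hg.1 (x : G)⁻¹
          simpa [mul_assoc] using this
        have := (hx1 ⟨g, hgP⟩).2 (by rw [Subgroup.mem_subgroupOf]; exact hg)
        rw [Subgroup.mem_subgroupOf] at this
        exact this
  have hMn : M ≤ Subgroup.normalizer ((P ⊓ M : Subgroup G) : Set G) := by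
    intro y hy
    rw [Subgroup.mem_normalizer_iff]
    intro g
    constructor
    · intro hg
      exact ⟨hPn.conj_mem _ hg.1 y, M.mul_mem (M.mul_mem hy hg.2) (M.inv_mem hy)⟩
    · intro hg
      refine ⟨?_, ?_⟩
      · have := hPn.conj_mem _ hg.1 y⁻¹
        simpa [mul_assoc] using this
      · have := M.mul_mem (M.mul_mem (M.inv_mem hy) hg.2) hy
        simpa [mul_assoc] using this
  have htop : Subgroup.normalizer ((P ⊓ M : Subgroup G) : Set G) = ⊤ := by
    refine hM.2 _ (lt_of_le_of_ne hMn fun h => hxM ?_)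
    rw [h, Subgroup.mem_normalizer_iff]
    exact hxn
  have hN : (P ⊓ M).Normal := Subgroup.normalizer_eq_top_iff.1 htop
  refine ⟨hN, hPn, hlt, fun L hL h1 h2 => ?_⟩
  by_cases hLM : L ≤ M
  · left
    exact le_antisymm (le_inf h2 hLM) h1
  · right
    refine le_antisymm h2 fun z hz => ?_
    have h3 : L ⊔ M = ⊤ := hM.2 _ (lt_of_le_of_ne le_sup_right fun h => hLM (by
      rw [h]; exact le_sup_left))
    have h4 : z ∈ L ⊔ M := by rw [h3]; trivial
    haveI := hL
    obtain ⟨a, ha, b, hb, rfl⟩ := Subgroup.mem_sup_of_normal_left.1 h4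
    have hbP : b ∈ P := by
      have := P.mul_mem (P.inv_mem (h2 ha)) hz
      simpa using this
    exact L.mul_mem ha (h1 ⟨hbP, hb⟩)

end Pool.Agent.HForm
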