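import Pool.Agent.Lib_MP_4009a7_al.Str

/-!
# Piece NONINCL: no inclusions between the explicit classes
-/

set_option autoImplicit false

open scoped commutatorElement

namespace Pool.Agent.HForm

/-- `Heis q'` is a non-commutative `q'`-group in `AT p' q'` -/
theorem not_AT_le_A3 {p q r p' q' : ℕ} (hp : p.Prime) (hq : q.Prime) (hr : r.Prime) (hpq : p ≠ q) (hpr : p ≠ r)
    (hqr : q ≠ r) (hq' : q'.Prime) : ¬ Le (AT p' q') (A3 p q r) := by
  intro h
  obtain ⟨h1, h2, x, y, hxy⟩ := heis_AT p' hq'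
  exact hxy (A3.comm_of_pgroup hp hq hr hq' hpq hpr hqr (h _ h1) h2 x y)

/-- the cyclic groups of the orders `p', q', r'` cannot all be in `AT p q` -/
theorem not_A3_le_AT {p q p' q' r' : ℕ} (hp : p.Prime) (hq : q.Prime) (hp' : p'.Prime)
    (hq' : q'.Prime) (hr' : r'.Prime) (hpq' : p' ≠ q') (hpr' : p' ≠ r') (hqr' : q' ≠ r') :
    ¬ Le (A3 p' q' r') (AT p q) := by
  intro h
  have h1 := prime_of_AT hp hq hp' (h _ (cyc_A3 hp' (Or.inl rfl)))
  have h2 := prime_of_AT hp hq hq' (h _ (cyc_A3 hq' (Or.inr (Or.inl rfl))))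
  have h3 := prime_of_AT hp hq hr' (h _ (cyc_A3 hr' (Or.inr (Or.inr rfl))))
  omega

/-- PROOF. `p', q' ∈ {p, q}` by the cyclic groups. If `q' = p` then `Heis q'` is a non-commutative `p`-group in `AT p q`, contradicting `AT.comm_of_pgroup`. So `q' = q`, `p' = p`. -/
theorem AT_le_AT {p q p' q' : ℕ} (hp : p.Prime) (hq : q.Prime) (hpq : p ≠ q) (hp' : p'.Prime)
    (hq' : q'.Prime) (hpq' : p' ≠ q') (h : Le (AT p' q') (AT p q)) : p' = p ∧ q' = q := by
  have h1 := prime_of_AT hp hq hp' (h _ (cyc_AT hp' (Or.inl rfl)))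
  have h2 := prime_of_AT hp hq hq' (h _ (cyc_AT hq' (Or.inr rfl)))
  have h3 : q' = q := by
    by_contra hne
    obtain ⟨h4, h5, x, y, hxy⟩ := heis_AT p' hq'
    exact hxy (AT.comm_of_pgroup hp hq hq' hpq hne (h _ h4) h5 x y)
  refine ⟨?_, h3⟩
  omega

private theorem ni_cop {G : Type} [Group G] [Finite G] {x y l : ℕ} (hx : x.Prime) (hy : y.Prime)
    (hl : l.Prime) (hlx : l ≠ x) (hly : l ≠ y) (h : A2 x y G) {N : Subgroup G} (hN : ElAb l N) :
    N = ⊥ := by
  rw [eq_bot_iff]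
  intro a ha
  have h1 : a ^ l = 1 := congrArg Subtype.val (hN.2 ⟨a, ha⟩)
  have h2 : a ^ (x * y) = 1 := exp_A2 x y _ h a
  have h3 : Nat.Coprime l (x * y) := Nat.Coprime.mul_right ((Nat.coprime_primes hl hx).2 hlx)
    ((Nat.coprime_primes hl hy).2 hly)
  have h4 : orderOf a ∣ 1 := by
    have := Nat.dvd_gcd (orderOf_dvd_of_pow_eq_one h1) (orderOf_dvd_of_pow_eq_one h2)
    rwa [h3] at this
  exact Subgroup.mem_bot.2 (orderOf_eq_one_iff.1 (Nat.dvd_one.1 h4))

/-- a finite group with `a ^ m = 1` for all `a`, `m` a product of primes other than `y`, has order prime to `y` -/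
private theorem ni_card {G : Type} [Group G] [Finite G] {y m : ℕ} (hy : y.Prime)
    (hm : Nat.Coprime y m) (h : ∀ a : G, a ^ m = 1) : ¬ y ∣ Nat.card G := by
  intro hd
  have : Fact y.Prime := ⟨hy⟩
  obtain ⟨a, ha⟩ := exists_prime_orderOf_dvd_card' y hd
  have h1 : y ∣ m := ha ▸ orderOf_dvd_of_pow_eq_one (h a)
  have h2 : y ∣ 1 := by
    have := Nat.dvd_gcd dvd_rfl h1
    rwa [hm] at this
  exact hy.one_lt.ne' (Nat.dvd_one.1 h2)

private theorem ni_pg {G : Type} [Group G] {l : ℕ} {N : Subgroup G} (hN : ElAb l N) :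
    IsPGroup l N := fun x => ⟨1, by rw [pow_one]; exact hN.2 x⟩

/-- PROOF. Let `G` be in `A2 x y` without normal Sylow `y`-subgroup (`exists_wreath_prime`). `A2 x y ≤ A3 p q r`-membership: `G ∈ A3 p q r` with normal subgroups `N ≤ M` (`M` the preimage), `N` a `p`-group, `M / N` a `q`-group, `G / M` an `r`-group. If `y = p`: `p` does not divide `N.index`, contradiction. If
`y = q`, `x = r`: `N` is trivial (`p` does not divide the order of `G`, which divides a power of `x y`), so `M` is a normal `q`-subgroup of index prime to `q`, contradiction. -/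
theorem order_of_wreath {p q r x y : ℕ} (hp : p.Prime) (hq : q.Prime) (hr : r.Prime) (hpq : p ≠ q) (hpr : p ≠ r)
    (hqr : q ≠ r) (hx : x.Prime) (hy : y.Prime) (hxy : x ≠ y) (h : Le (A2 x y) (A3 p q r)) :
    y ≠ p ∧ ¬ (y = q ∧ x = r) := by
  obtain ⟨G, hG, hA, hM⟩ := exists_wreath_prime hx hy hxy
  obtain ⟨hfin, N, hN, h1, h2⟩ := h G hA
  refine ⟨?_, ?_⟩
  · rintro rfl
    have h3 := hM N hN (ni_pg h1)
    rw [Subgroup.index_eq_card] at h3
    exact ni_card hp (Nat.Coprime.mul_right ((Nat.coprime_primes hp hq).2 hpq)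
      ((Nat.coprime_primes hp hr).2 hpr)) (exp_A2 q r _ h2) h3
  · rintro ⟨rfl, rfl⟩
    have hb : N = ⊥ := ni_cop hx hy hp hpr hpq hA h1
    have hinj : Function.Injective (QuotientGroup.mk' N) := by
      rw [← MonoidHom.ker_eq_bot_iff, QuotientGroup.ker_mk', hb]
    obtain ⟨_, M, hMn, h4, h5⟩ := (pv_A2 y x).inj (QuotientGroup.mk' N) hinj h2
    have h3 := hM M hMn (ni_pg h4)
    rw [Subgroup.index_eq_card] at h3
    exact ni_card hy ((Nat.coprime_primes hy hx).2 (Ne.symm hxy)) h5.2 h3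

private theorem ni_sub1 {p q : ℕ} (r : ℕ) : Le (A2 p q) (A3 p q r) := by
  rintro G _ ⟨hG, N, hN, h1, h2⟩
  refine ⟨hG, N, hN, h1, inferInstance, ⊤, inferInstance, ⟨fun x y => Subtype.ext (h2.1 _ _),
    fun x => Subtype.ext (h2.2 _)⟩, ?_⟩
  have : Subsingleton ((G ⧸ N) ⧸ (⊤ : Subgroup (G ⧸ N))) :=
    QuotientGroup.subsingleton_quotient_top
  exact ⟨fun _ _ => Subsingleton.elim _ _, fun _ => Subsingleton.elim _ _⟩

private theorem ni_sub2 {p r : ℕ} (q : ℕ) : Le (A2 p r) (A3 p q r) := by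
  rintro G _ ⟨hG, N, hN, h1, h2⟩
  refine ⟨hG, N, hN, h1, inferInstance, ⊥, inferInstance, ⟨fun x y => Subsingleton.elim _ _,
    fun x => Subsingleton.elim _ _⟩, ?_⟩
  exact ((pv_elAb r).surj (QuotientGroup.mk' (⊥ : Subgroup (G ⧸ N)))
    (QuotientGroup.mk'_surjective _) ⟨inferInstance, h2⟩).2

private theorem ni_sub3 {q r : ℕ} (p : ℕ) : Le (A2 q r) (A3 p q r) := by
  rintro G _ h
  refine ⟨h.1, ⊥, inferInstance, ⟨fun x y => Subsingleton.elim _ _,
    fun x => Subsingleton.elim _ _⟩, ?_⟩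
  exact (pv_A2 q r).surj (QuotientGroup.mk' (⊥ : Subgroup G)) (QuotientGroup.mk'_surjective _) h

/-- PROOF. `A2 p' q'`, `A2 p' r'`, `A2 q' r'` are contained in `A3 p' q' r'` (`N` trivial, or the quotient a group in `A2`), `{p', q', r'} = {p, q, r}` by the cyclic groups; `order_of_wreath` for the three pairs. -/
theorem A3_le_A3 {p q r p' q' r' : ℕ} (hp : p.Prime) (hq : q.Prime) (hr : r.Prime) (hpq : p ≠ q) (hpr : p ≠ r)
    (hqr : q ≠ r) (hp' : p'.Prime) (hq' : q'.Prime) (hr' : r'.Prime) (hpq' : p' ≠ q') (hpr' : p' ≠ r')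
    (hqr' : q' ≠ r') (h : Le (A3 p' q' r') (A3 p q r)) : p' = p ∧ q' = q ∧ r' = r := by
  have a1 := prime_of_A3 hp hq hr hp' (h _ (cyc_A3 hp' (Or.inl rfl)))
  have a2 := prime_of_A3 hp hq hr hq' (h _ (cyc_A3 hq' (Or.inr (Or.inl rfl))))
  have a3 := prime_of_A3 hp hq hr hr' (h _ (cyc_A3 hr' (Or.inr (Or.inr rfl))))
  have b1 := order_of_wreath hp hq hr hpq hpr hqr hp' hq' hpq' fun G _ hG => h G (ni_sub1 r' G hG)
  have b2 := order_of_wreath hp hq hr hpq hpr hqr hp' hr' hpr' fun G _ hG => h G (ni_sub2 q' G hG)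
  have b3 := order_of_wreath hp hq hr hpq hpr hqr hq' hr' hqr' fun G _ hG => h G (ni_sub3 p' G hG)
  omega

private theorem ni_cyc {p l : ℕ} (hp : p.Prime) (hl : l.Prime)
    (h : IsPGroup p (Multiplicative (ZMod l))) : l = p := by
  have : Fact p.Prime := ⟨hp⟩
  have : NeZero l := ⟨hl.ne_zero⟩
  have : Finite (Multiplicative (ZMod l)) := Finite.of_equiv _ Multiplicative.ofAdd
  obtain ⟨n, hn⟩ := (IsPGroup.iff_card (p := p)).1 h
  have h1 : Nat.card (Multiplicative (ZMod l)) = l := by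
    rw [Nat.card_congr Multiplicative.toAdd, Nat.card_zmod]
  rw [h1] at hn
  have h3 : l ∣ p ^ n := ⟨1, by rw [mul_one, ← hn]⟩
  have h2 : l ∣ p := hl.dvd_of_dvd_pow h3
  exact (Nat.prime_dvd_prime_iff_eq hl hp).1 h2

/-- classes of `p`-groups contain no `AT`, `A3` -/
theorem not_AT_le_pgroups {F : GClass} {p p' q' : ℕ} (hp : p.Prime) (h : ∀ (G : Type) [Group G], F G → IsPGroup p G)
    (hp' : p'.Prime) (hq' : q'.Prime) (hpq' : p' ≠ q') : ¬ Le (AT p' q') F := by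
  intro hle
  have h1 := ni_cyc hp hp' (h _ (hle _ (cyc_AT hp' (Or.inl rfl))))
  have h2 := ni_cyc hp hq' (h _ (hle _ (cyc_AT hq' (Or.inr rfl))))
  exact hpq' (h1.trans h2.symm)

theorem not_A3_le_pgroups {F : GClass} {p p' q' r' : ℕ} (hp : p.Prime)
    (h : ∀ (G : Type) [Group G], F G → IsPGroup p G) (hp' : p'.Prime) (hq' : q'.Prime) (hr' : r'.Prime)
    (hpq' : p' ≠ q') : ¬ Le (A3 p' q' r') F := by
  intro hle
  have h1 := ni_cyc hp hp' (h _ (hle _ (cyc_A3 hp' (Or.inl rfl))))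
  have h2 := ni_cyc hp hq' (h _ (hle _ (cyc_A3 hq' (Or.inr (Or.inl rfl)))))
  exact hpq' (h1.trans h2.symm)

end Pool.Agent.HForm
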