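import Pool.Agent.Lib_MP_4009a7_al.PVBasic

/-!
# Piece WREATH: the wreath product `C_p ≀ E`
-/

set_option autoImplicit false

open scoped commutatorElement

namespace Pool.Agent.HForm

/-- the permutation module -/
private def wrRho (p : ℕ) (E : Type) [Group E] : E →* Module.End ℤ (E → ZMod p) where
  toFun ε :=
    { toFun := fun φ δ => φ (ε⁻¹ * δ)
      map_add' := fun _ _ => rfl
      map_smul' := fun _ _ => rfl }
  map_one' := by
    ext φ δ
    simp
  map_mul' a b := by
    refine LinearMap.ext fun φ => funext fun δ => ?_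
    show φ ((a * b)⁻¹ * δ) = φ (b⁻¹ * (a⁻¹ * δ))
    rw [mul_inv_rev, mul_assoc]

private theorem wrRho_apply {p : ℕ} {E : Type} [Group E] (ε : E) (φ : E → ZMod p) (δ : E) :
    wrRho p E ε φ δ = φ (ε⁻¹ * δ) := rfl

private theorem wr_finite {p : ℕ} (hp : p.Prime) (E : Type) [Group E] [Finite E] :
    Finite (SD (wrRho p E)) := by
  have : NeZero p := ⟨hp.ne_zero⟩
  exact Finite.of_injective (fun x : SD (wrRho p E) => (x.v, x.h)) (fun x y h => by
    have := Prod.ext_iff.1 h
    exact SD.ext this.1 this.2)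

private theorem wr_pow {p : ℕ} {E : Type} [Group E] (x : SD (wrRho p E)) (hx : x.h = 1) (n : ℕ) :
    (x ^ n).v = n • x.v ∧ (x ^ n).h = 1 := by
  induction n with
  | zero => simp
  | succ n ih =>
    rw [pow_succ]
    refine ⟨?_, ?_⟩
    · rw [SD.mul_v, ih.1, ih.2, map_one, Module.End.one_apply, succ_nsmul]
    · rw [SD.mul_h, ih.2, hx, one_mul]

private theorem wr_pow_p {p : ℕ} {E : Type} [Group E] (x : SD (wrRho p E)) (hx : x.h = 1) :
    x ^ p = 1 := by
  refine SD.ext ?_ ?_
  · rw [(wr_pow x hx p).1]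
    funext δ
    rw [Pi.smul_apply, nsmul_eq_mul, CharP.cast_eq_zero, zero_mul]
    rfl
  · exact (wr_pow x hx p).2

private theorem wr_ker {p : ℕ} (E : Type) [Group E] : ElAb p (SD.toH (wrRho p E)).ker := by
  refine ⟨?_, ?_⟩
  · rintro ⟨x, hx⟩ ⟨y, hy⟩
    have hx' : x.h = 1 := hx
    have hy' : y.h = 1 := hy
    refine Subtype.ext (SD.ext ?_ ?_)
    · show x.v + wrRho p E x.h y.v = y.v + wrRho p E y.h x.v
      rw [hx', hy', map_one, Module.End.one_apply, Module.End.one_apply, add_comm]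
    · show x.h * y.h = y.h * x.h
      rw [hx', hy']
  · rintro ⟨x, hx⟩
    exact Subtype.ext (wr_pow_p x hx)

private theorem wr_surj {p : ℕ} (E : Type) [Group E] :
    Function.Surjective (SD.toH (wrRho p E)) := fun ε => ⟨⟨0, ε⟩, rfl⟩

private theorem wr_comm {p : ℕ} {E : Type} [Group E] (v : E → ZMod p) (ε : E) :
    ⁅(⟨v, 1⟩ : SD (wrRho p E)), (⟨0, ε⟩ : SD (wrRho p E))⁆ =
      (⟨v - wrRho p E ε v, 1⟩ : SD (wrRho p E)) := by
  rw [commutatorElement_def]
  refine SD.ext ?_ ?_
  · simp only [SD.mul_v, SD.mul_h, SD.inv_v, SD.inv_h, map_one, Module.End.one_apply, one_mul, inv_one,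
      mul_one, map_zero, add_zero, map_neg, neg_zero]
    rw [sub_eq_add_neg]
  · simp only [SD.mul_h, SD.inv_h, one_mul, inv_one, mul_one, mul_inv_cancel]

/-- PROOF. Let `V = E → ZMod p` with `ρ ε φ = fun δ => φ (ε⁻¹ * δ)`, `G = SD ρ`, `N = {⟨v, 1⟩}`. `s 0 = ⟨δ₁, 1⟩` (`δ₁` the delta function at `1`), `s (i+1) = ⟨0, t i⟩`. The group generated by `s` contains all `⟨0, ε⟩`, so all `⟨ρ ε δ₁, 1⟩` (conjugates), which generate `N`. `Nat.card G = p ^ Nat.card E * Nat.card E`. -/
theorem exists_wreath {p : ℕ} (hp : p.Prime) {E : Type} [Group E] [Finite E] {n : ℕ} (t : Fin n → E)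
    (ht : Subgroup.closure (Set.range t) = ⊤) :
    ∃ (G : Type) (_ : Group G) (s : Fin (n + 1) → G), Finite G ∧ Subgroup.closure (Set.range s) = ⊤ ∧
      p ^ (Nat.card E) ≤ Nat.card G ∧
      ∃ (N : Subgroup G) (_ : N.Normal), ElAb p N ∧ Nonempty ((G ⧸ N) ≃* E) := by
  classical
  have hfin := wr_finite hp E
  have : NeZero p := ⟨hp.ne_zero⟩
  let δ₁ : E → ZMod p := Pi.single 1 1
  let s : Fin (n + 1) → SD (wrRho p E) := Fin.cons ⟨δ₁, 1⟩ (fun i => ⟨0, t i⟩)
  refine ⟨SD (wrRho p E), inferInstance, s, hfin, ?_, ?_, (SD.toH (wrRho p E)).ker, inferInstance,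
    wr_ker E, ⟨QuotientGroup.quotientKerEquivOfSurjective _ (wr_surj E)⟩⟩
  · set K := Subgroup.closure (Set.range s) with hK
    have h0 : (⟨δ₁, 1⟩ : SD (wrRho p E)) ∈ K := Subgroup.subset_closure ⟨0, rfl⟩
    have h1 : ∀ ε : E, (⟨0, ε⟩ : SD (wrRho p E)) ∈ K := by
      intro ε
      have h2 : Subgroup.closure (Set.range t) ≤ K.comap (SD.inr (wrRho p E)) := by
        rw [Subgroup.closure_le]
        rintro _ ⟨i, rfl⟩
        exact Subgroup.subset_closure ⟨i.succ, rfl⟩
      rw [ht] at h2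
      exact h2 (Subgroup.mem_top ε)
    have h2 : ∀ ε : E, (⟨wrRho p E ε δ₁, 1⟩ : SD (wrRho p E)) ∈ K := by
      intro ε
      have h3 := K.mul_mem (K.mul_mem (h1 ε) h0) (K.inv_mem (h1 ε))
      have h4 : (⟨0, ε⟩ : SD (wrRho p E)) * ⟨δ₁, 1⟩ * (⟨0, ε⟩ : SD (wrRho p E))⁻¹ =
          ⟨wrRho p E ε δ₁, 1⟩ := by
        refine SD.ext ?_ ?_
        · simp only [SD.mul_v, SD.mul_h, SD.inv_v, SD.inv_h, mul_one, map_zero, add_zero, neg_zero,
            zero_add]
        · simp only [SD.mul_h, SD.inv_h, mul_one, mul_inv_cancel]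
      rw [h4] at h3
      exact h3
    let A : AddSubgroup (E → ZMod p) :=
      { carrier := {v | (⟨v, 1⟩ : SD (wrRho p E)) ∈ K}
        add_mem' := by
          intro a b ha hb
          have h3 := K.mul_mem ha hb
          have h4 : (⟨a, 1⟩ : SD (wrRho p E)) * ⟨b, 1⟩ = ⟨a + b, 1⟩ := by
            refine SD.ext ?_ ?_
            · simp only [SD.mul_v, map_one, Module.End.one_apply]
            · simp only [SD.mul_h, mul_one]
          rw [h4] at h3
          exact h3
        zero_mem' := K.one_mem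
        neg_mem' := by
          intro a ha
          have h3 := K.inv_mem ha
          have h4 : (⟨a, 1⟩ : SD (wrRho p E))⁻¹ = ⟨-a, 1⟩ := by
            refine SD.ext ?_ ?_
            · simp only [SD.inv_v, inv_one, map_one, Module.End.one_apply]
            · simp only [SD.inv_h, inv_one]
          rw [h4] at h3
          exact h3 }
    have h5 : ∀ (ε : E) (c : ZMod p), (Pi.single ε c : E → ZMod p) ∈ A := by
      intro ε c
      have h6 : (Pi.single ε c : E → ZMod p) = c.val • wrRho p E ε δ₁ := by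
        funext δ
        rw [Pi.smul_apply, wrRho_apply, nsmul_eq_mul, ZMod.natCast_zmod_val]
        by_cases h : δ = ε
        · subst h
          rw [Pi.single_eq_same, inv_mul_cancel]
          change c = c * (Pi.single (1 : E) (1 : ZMod p) : E → ZMod p) 1
          rw [Pi.single_eq_same, mul_one]
        · rw [Pi.single_eq_of_ne h]
          change 0 = c * (Pi.single (1 : E) (1 : ZMod p) : E → ZMod p) (ε⁻¹ * δ)
          rw [Pi.single_eq_of_ne, mul_zero]
          intro h7
          exact h (inv_mul_eq_one.1 h7).symm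
      rw [h6]
      exact A.nsmul_mem (h2 ε) _
    have h6 : ∀ v : E → ZMod p, v ∈ A := by
      intro v
      have : Fintype E := Fintype.ofFinite E
      rw [← Finset.univ_sum_single v]
      exact A.sum_mem fun ε _ => h5 ε _
    rw [eq_top_iff]
    intro x _
    have h7 : x = ⟨x.v, 1⟩ * ⟨0, x.h⟩ := by
      refine SD.ext ?_ ?_
      · simp only [SD.mul_v, map_one, Module.End.one_apply, add_zero]
      · simp only [SD.mul_h, one_mul]
    rw [h7]
    exact K.mul_mem (h6 x.v) (h1 x.h)
  · have h1 : Nat.card (E → ZMod p) = p ^ Nat.card E := by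
      rw [Nat.card_fun, Nat.card_zmod]
    rw [← h1]
    exact Nat.card_le_card_of_injective (fun v : E → ZMod p => (⟨v, 1⟩ : SD (wrRho p E)))
      (fun a b h => congrArg SD.v h)

/-- the wreath product `C_x ≀ C_y` (`x ≠ y` primes) is in `A2 x y` and has no normal Sylow `y`-subgroup. PROOF. `V = ZMod y → ZMod x` with the translation action of `Multiplicative (ZMod y)`, `G = SD ρ`. If there were a normal subgroup `M` which is a `y`-group such that `y` does not divide its index, then by Sylow's theorem it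
would contain `h = ⟨0, 1⟩`, so `⁅⟨v, 0⟩, h⁆ = ⟨v - ρ h v, _⟩ ∈ M ⊓ V = ⊥` for all `v`, which is wrong for a delta function. -/
theorem exists_wreath_prime {x y : ℕ} (hx : x.Prime) (hy : y.Prime) (hxy : x ≠ y) :
    ∃ (G : Type) (_ : Group G), A2 x y G ∧ ∀ M : Subgroup G, M.Normal → IsPGroup y M → y ∣ M.index := by
  classical
  have : NeZero y := ⟨hy.ne_zero⟩
  have hfE : Finite (Multiplicative (ZMod y)) := Finite.of_equiv _ Multiplicative.ofAdd
  have hfin := wr_finite hx (Multiplicative (ZMod y))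
  have hE : ∀ a : Multiplicative (ZMod y), a ^ y = 1 := by
    intro a
    have h : y • (Multiplicative.toAdd a) = 0 := by
      rw [nsmul_eq_mul, CharP.cast_eq_zero, zero_mul]
    exact congrArg Multiplicative.ofAdd h
  refine ⟨SD (wrRho x (Multiplicative (ZMod y))), inferInstance,
    ⟨hfin, (SD.toH (wrRho x (Multiplicative (ZMod y)))).ker, inferInstance, wr_ker _, ?_, ?_⟩, ?_⟩
  · intro a b
    obtain ⟨a, rfl⟩ := QuotientGroup.mk_surjective a
    obtain ⟨b, rfl⟩ := QuotientGroup.mk_surjective b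
    rw [← QuotientGroup.mk_mul, ← QuotientGroup.mk_mul, QuotientGroup.eq, MonoidHom.mem_ker]
    rw [map_mul, map_inv, map_mul, map_mul, mul_comm ((SD.toH (wrRho x (Multiplicative (ZMod y)))) b),
      inv_mul_cancel]
  · intro a
    obtain ⟨a, rfl⟩ := QuotientGroup.mk_surjective a
    rw [← QuotientGroup.mk_pow, QuotientGroup.eq_one_iff, MonoidHom.mem_ker, map_pow]
    exact hE _
  · intro M hM hMy
    by_contra hcon
    let g : Multiplicative (ZMod y) := Multiplicative.ofAdd 1
    let h : SD (wrRho x (Multiplicative (ZMod y))) := ⟨0, g⟩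
    have hh : h ^ y = 1 := by
      have h1 : h = SD.inr (wrRho x (Multiplicative (ZMod y))) g := rfl
      rw [h1, ← map_pow, hE, map_one]
    have h1 : (QuotientGroup.mk h : SD (wrRho x (Multiplicative (ZMod y))) ⧸ M) = 1 := by
      have h2 : orderOf (QuotientGroup.mk h : SD (wrRho x (Multiplicative (ZMod y))) ⧸ M) ∣ y := by
        apply orderOf_dvd_of_pow_eq_one
        rw [← QuotientGroup.mk_pow, hh, QuotientGroup.mk_one]
      have h3 : orderOf (QuotientGroup.mk h : SD (wrRho x (Multiplicative (ZMod y))) ⧸ M) ∣ M.index :=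
        orderOf_dvd_natCard _
      rcases (Nat.dvd_prime hy).1 h2 with h4 | h4
      · exact orderOf_eq_one_iff.1 h4
      · exact absurd ((dvd_of_eq h4.symm).trans h3) hcon
    have h2 : h ∈ M := (QuotientGroup.eq_one_iff h).1 h1
    let v : Multiplicative (ZMod y) → ZMod x := Pi.single 1 1
    have h3 : ⁅(⟨v, 1⟩ : SD (wrRho x (Multiplicative (ZMod y)))), h⁆ ∈ M := by
      rw [commutatorElement_def]
      exact M.mul_mem (hM.conj_mem h h2 _) (M.inv_mem h2)
    rw [wr_comm] at h3
    have h4 := wr_pow_p (⟨v - wrRho x (Multiplicative (ZMod y)) g v, 1⟩ :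
      SD (wrRho x (Multiplicative (ZMod y)))) rfl
    obtain ⟨k, hk⟩ := hMy ⟨_, h3⟩
    have h5 : (⟨v - wrRho x (Multiplicative (ZMod y)) g v, 1⟩ :
      SD (wrRho x (Multiplicative (ZMod y)))) ^ (y ^ k) = 1 := congrArg Subtype.val hk
    have h6 : orderOf (⟨v - wrRho x (Multiplicative (ZMod y)) g v, 1⟩ :
      SD (wrRho x (Multiplicative (ZMod y)))) ∣ Nat.gcd x (y ^ k) :=
      Nat.dvd_gcd (orderOf_dvd_of_pow_eq_one h4) (orderOf_dvd_of_pow_eq_one h5)
    rw [Nat.Coprime.gcd_eq_one (Nat.Coprime.pow_right k ((Nat.coprime_primes hx hy).2 hxy)),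
      Nat.dvd_one, orderOf_eq_one_iff] at h6
    have h7 : v - wrRho x (Multiplicative (ZMod y)) g v = 0 := congrArg SD.v h6
    have h8 := congrFun h7 1
    rw [Pi.sub_apply, wrRho_apply, mul_one] at h8
    have hg : g⁻¹ ≠ 1 := by
      intro h9
      have h10 : g = 1 := inv_eq_one.1 h9
      have h11 : (1 : ZMod y) = 0 := Multiplicative.ofAdd.injective h10
      have : Fact y.Prime := ⟨hy⟩
      exact one_ne_zero h11
    change (Pi.single (1 : Multiplicative (ZMod y)) (1 : ZMod x) : Multiplicative (ZMod y) → ZMod x) 1 -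
      (Pi.single (1 : Multiplicative (ZMod y)) (1 : ZMod x) : Multiplicative (ZMod y) → ZMod x) g⁻¹ = 0 at h8
    rw [Pi.single_eq_same, Pi.single_eq_of_ne hg, sub_zero] at h8
    have : Fact x.Prime := ⟨hx⟩
    exact one_ne_zero h8

end Pool.Agent.HForm
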