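import Pool.Agent.Lib_MP_4009a7_al.OGB
import Pool.Agent.Lib_MP_4009a7_al.Wreath
import Pool.Agent.Lib_MP_4009a7_al.ETT
import Pool.Agent.Lib_MP_4009a7_al.ExtPV

/-!
# Piece NOTOG: `A_p A_q A_r` and `A_p T_q` are not one-generated
-/

set_option autoImplicit false

open scoped commutatorElement

namespace Pool.Agent.HForm

private theorem notog_bound (b m : ℕ) : b ^ (b ^ m) ≤ 2 ^ (2 ^ (b + b * m)) := by
  have h1 : b ≤ 2 ^ b := Nat.lt_two_pow_self.le
  calc b ^ (b ^ m) ≤ (2 ^ b) ^ (b ^ m) := Nat.pow_le_pow_left h1 _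
    _ = 2 ^ (b * b ^ m) := (pow_mul 2 b _).symm
    _ ≤ 2 ^ (2 ^ b * (2 ^ b) ^ m) := by
        refine Nat.pow_le_pow_right two_pos ?_
        exact Nat.mul_le_mul h1 (Nat.pow_le_pow_left h1 m)
    _ = 2 ^ (2 ^ (b + b * m)) := by rw [← pow_mul, ← pow_add]

private theorem notog_elAb_iso {p : ℕ} {G H : Type} [Group G] [Group H] (e : G ≃* H)
    (h : ElAb p H) : ElAb p G := by
  refine ⟨fun x y => e.injective ?_, fun x => e.injective ?_⟩
  · rw [map_mul, map_mul, h.1]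
  · rw [map_pow, map_one, h.2]

private theorem notog_tower {p q : ℕ} (hp : p.Prime) (hq : q.Prime) (a : ℕ) :
    2 ^ (2 ^ a) ≤ p ^ (q ^ a) :=
  (Nat.pow_le_pow_right two_pos (Nat.pow_le_pow_left hq.two_le a)).trans
    (Nat.pow_le_pow_left hp.two_le _)

/-- the elementary abelian group of rank `n` -/
private theorem notog_base {r : ℕ} (hr : r.Prime) (n : ℕ) :
    ∃ (E : Type) (_ : Group E) (t : Fin n → E), Finite E ∧
      Subgroup.closure (Set.range t) = ⊤ ∧ Nat.card E = r ^ n ∧ ElAb r E := by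
  have : NeZero r := ⟨hr.ne_zero⟩
  have hc : Nat.card (Multiplicative (ZMod r)) = r := by
    rw [Nat.card_congr Multiplicative.toAdd, Nat.card_zmod]
  have hfin : Finite (Multiplicative (ZMod r)) :=
    Finite.of_equiv (ZMod r) Multiplicative.ofAdd
  refine ⟨Fin n → Multiplicative (ZMod r), inferInstance,
    fun i => Pi.mulSingle i (Multiplicative.ofAdd (1 : ZMod r)), inferInstance, ?_, ?_, ?_⟩
  · rw [eq_top_iff]
    intro x _
    rw [← Finset.univ_prod_mulSingle x]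
    refine Subgroup.prod_mem _ fun i _ => ?_
    have h1 : (Pi.mulSingle i (x i) : Fin n → Multiplicative (ZMod r)) =
        (Pi.mulSingle i (Multiplicative.ofAdd (1 : ZMod r))) ^ (Multiplicative.toAdd (x i)).val := by
      rw [← Pi.mulSingle_pow, ← ofAdd_nsmul, nsmul_eq_mul, mul_one, ZMod.natCast_zmod_val]
      rfl
    rw [h1]
    exact Subgroup.pow_mem _ (Subgroup.subset_closure (Set.mem_range_self i)) _
  · rw [Nat.card_fun, Nat.card_fin, hc]
  · refine ⟨fun x y => mul_comm x y, fun x => funext fun i => ?_⟩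
    show (x i) ^ r = 1
    have h1 : (x i) ^ Nat.card (Multiplicative (ZMod r)) = 1 := pow_card_eq_one'
    rwa [hc] at h1

/-- growth: for all `b` and `2 ≤ x` there is `n` with `b ^ (b ^ (n + 2)) < x ^ (x ^ (x ^ n))` -/
theorem growth1 (b : ℕ) : ∃ n : ℕ, b ^ (b ^ (n + 2)) < 2 ^ (2 ^ (2 ^ n)) := by
  refine ⟨2 * b + 4, (notog_bound b _).trans_lt ?_⟩
  refine Nat.pow_lt_pow_right one_lt_two (Nat.pow_lt_pow_right one_lt_two ?_)
  have h1 : b < 2 ^ b := Nat.lt_two_pow_self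
  have h2 : 2 ^ (2 * b + 4) = 2 ^ b * (16 * 2 ^ b) := by
    rw [pow_add, two_mul, pow_add]
    ring
  rw [h2]
  have h3 : b + b * (2 * b + 4 + 2) = b * (2 * b + 7) := by ring
  rw [h3]
  have h4 : 2 * b + 7 ≤ 16 * 2 ^ b := by omega
  have h5 : 0 < 16 * 2 ^ b := by positivity
  calc b * (2 * b + 7) ≤ b * (16 * 2 ^ b) := Nat.mul_le_mul_left _ h4
    _ < 2 ^ b * (16 * 2 ^ b) := Nat.mul_lt_mul_of_pos_right h1 h5

theorem growth2 (b : ℕ) : ∃ n : ℕ, b ^ (b ^ (n + 1)) < 2 ^ (2 ^ (n * (n - 1) / 2)) := by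
  refine ⟨4 * b + 4, (notog_bound b _).trans_lt ?_⟩
  refine Nat.pow_lt_pow_right one_lt_two (Nat.pow_lt_pow_right one_lt_two ?_)
  have h1 : (4 * b + 4) * (4 * b + 4 - 1) / 2 = (2 * b + 2) * (4 * b + 3) := by
    have h2 : 4 * b + 4 - 1 = 4 * b + 3 := by omega
    rw [h2]
    have h3 : (4 * b + 4) * (4 * b + 3) = 2 * ((2 * b + 2) * (4 * b + 3)) := by ring
    rw [h3, Nat.mul_div_cancel_left _ two_pos]
  rw [h1]
  nlinarith

theorem a3_not_laws {p q r : ℕ} (hp : p.Prime) (hq : q.Prime) (hr : r.Prime) {G₀ : Type} [Group G₀]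
    [Finite G₀] (h : ∀ (G : Type) [Group G], A3 p q r G →
      ∀ (n : ℕ) (w : FreeGroup (Fin n)), Law w G₀ → Law w G) : False := by
  obtain ⟨n, hn⟩ := growth1 (Nat.card G₀)
  obtain ⟨E₀, _, t, hE₀, ht, hcard, hel⟩ := notog_base hr n
  obtain ⟨E₁, _, s₁, hE₁, hgen₁, hcard₁, N₁, hN₁, hel₁, ⟨e₁⟩⟩ := exists_wreath hq t ht
  obtain ⟨G, _, s, hG, hgen, hcard₂, N, hN, hel₂, ⟨e⟩⟩ := exists_wreath hp s₁ hgen₁
  have hA2 : A2 q r E₁ := ⟨hE₁, N₁, hN₁, hel₁, notog_elAb_iso e₁ hel⟩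
  have hA3 : A3 p q r G := ⟨hG, N, hN, hel₂, (pv_A2 q r).iso e.symm hA2⟩
  have h1 := (card_le_of_laws (fun k w hw => h G hA3 k w hw) s hgen).2
  have h2 : 2 ^ (2 ^ (2 ^ n)) ≤ Nat.card G := by
    refine le_trans ?_ hcard₂
    refine le_trans ?_ (Nat.pow_le_pow_right hp.pos hcard₁)
    rw [hcard]
    refine le_trans ?_ (notog_tower hp hq _)
    exact Nat.pow_le_pow_right two_pos (Nat.pow_le_pow_right two_pos
      (Nat.pow_le_pow_left hr.two_le n))
  exact absurd (h2.trans h1) (not_le.mpr hn)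

theorem at_not_laws {p q : ℕ} (hp : p.Prime) (hq : q.Prime) {G₀ : Type} [Group G₀] [Finite G₀]
    (h : ∀ (G : Type) [Group G], AT p q G →
      ∀ (n : ℕ) (w : FreeGroup (Fin n)), Law w G₀ → Law w G) : False := by
  obtain ⟨n, hn⟩ := growth2 (Nat.card G₀)
  obtain ⟨E, _, t, hE, ht, hcard⟩ := exists_large_TT hq n
  have hEf : Finite E := hE.1
  obtain ⟨G, _, s, hG, hgen, hcard₂, N, hN, hel₂, ⟨e⟩⟩ := exists_wreath hp t ht
  have hAT : AT p q G := ⟨hG, N, hN, hel₂, (pv_TT q).iso e.symm hE⟩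
  have h1 := (card_le_of_laws (fun k w hw => h G hAT k w hw) s hgen).2
  have h2 : 2 ^ (2 ^ (n * (n - 1) / 2)) ≤ Nat.card G := by
    refine le_trans ?_ hcard₂
    refine le_trans ?_ (Nat.pow_le_pow_right hp.pos hcard)
    exact notog_tower hp hq _
  exact absurd (h2.trans h1) (not_le.mpr hn)

/-- PROOF. Suppose `OneGen (A3 p q r)`; let `G₀` be from `OneGen.laws`, `b = Nat.card G₀`. For `n` as in `growth1` let `E₀ = Fin n → Multiplicative (ZMod r)` (generated by `n` elements, order `r ^ n`), `E₁` the group from `exists_wreath` for `q`, `E₀` (generated by `n + 1` elements, order at least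
`q ^ (r ^ n)`, in `A2 q r`), and `G` the group from `exists_wreath` for `p`, `E₁`: generated by `n + 2` elements, of order `≥ p ^ (q ^ (r ^ n))`, in `A3 p q r` (`A2 q r` is closed under isomorphisms). `card_le_of_laws` gives a contradiction. -/
theorem a3_not_oneGen {p q r : ℕ} (hp : p.Prime) (hq : q.Prime) (hr : r.Prime) : ¬ OneGen (A3 p q r) := by
  intro h
  obtain ⟨G₀, i₀, hfin, _, hl⟩ := h.laws
  exact a3_not_laws hp hq hr hl

/-- PROOF. The same with `exists_large_TT` and `exists_wreath`, `growth2`. -/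
theorem at_not_oneGen {p q : ℕ} (hp : p.Prime) (hq : q.Prime) : ¬ OneGen (AT p q) := by
  intro h
  obtain ⟨G₀, i₀, hfin, _, hl⟩ := h.laws
  exact at_not_laws hp hq hl

end Pool.Agent.HForm
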