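import Pool.Agent.Lib_MP_4009a7_al.Act
import Pool.Agent.Lib_MP_4009a7_al.KK
import Pool.Agent.Lib_MP_4009a7_al.Rel
import Pool.Agent.Lib_MP_4009a7_al.Burn

/-!
# Piece THMD: pseudovarieties of `p`-groups of bounded derived length which do not contain `A_p A_p`
-/

set_option autoImplicit false

open scoped commutatorElement

namespace Pool.Agent.HForm

variable {F : GClass}

/-- `section_nilp` for an abstract module `V` embedded into `G` -/
private theorem thmd_abs {p : ℕ} (hp : p.Prime) {n : ℕ} (w : FreeGroup (Fin n)) (i : Fin n)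
    (g₁ : FreeGroup (Fin n))
    (hne : open Classical in
      ∑ g ∈ (fox i w).support.filter (fun g => Eqv (A1 p) g g₁), ((fox i w g : ℤ) : ZMod p) ≠ 0)
    {l : ℕ} {G : Type} [Group G] (hG : IsPGroup p G) (hw : Law w G)
    (hl : derivedSeries G l = ⊥) {V : Type} [AddCommGroup V] [Module (ZMod p) V]
    (ρ : G →* Module.End (ZMod p) V) (ι : V → G) (hι : Function.Injective ι)
    (hadd : ∀ a b, ι (a + b) = ι a * ι b) (hρ : ∀ g v, ι (ρ g v) = g * ι v * g⁻¹) (j : ℕ)
    (hj : ∀ x ∈ (⊤ : Subgroup G).lowerCentralSeries j, ∃ v, ι v = x) :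
    (⊤ : Subgroup G).lowerCentralSeries (j + (n * p) ^ l) = ⊥ := by
  have h0 : ι 0 = 1 := by
    have h3 := hadd 0 0
    rw [add_zero] at h3
    exact (mul_eq_left.1 h3.symm)
  have hneg : ∀ a, ι (-a) = (ι a)⁻¹ := by
    intro a
    apply eq_inv_of_mul_eq_one_left
    rw [← hadd, neg_add_cancel, h0]
  let Ψ : SD ρ →* G :=
    { toFun := fun a => ι a.v * a.h
      map_one' := by simp [h0]
      map_mul' := by
        intro a b
        rw [SD.mul_v, SD.mul_h, hadd, hρ]
        simp [mul_assoc] }
  have hev : ∀ t : Fin n → G, ev ρ t (fox i w) = 0 := by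
    intro t
    apply LinearMap.ext
    intro v
    have h3 := sd_lift ρ t (Pi.single i v) w
    have h4 : ∑ i', ev ρ t (fox i' w) ((Pi.single i v : Fin n → V) i') =
        ev ρ t (fox i w) v := by
      rw [Finset.sum_eq_single i]
      · rw [Pi.single_eq_same]
      · intro b _ hb
        rw [Pi.single_eq_of_ne hb, map_zero]
      · intro h
        exact absurd (Finset.mem_univ i) h
    rw [h4, hw t] at h3
    have h5 := congrArg Ψ h3
    have h6 : Ψ (FreeGroup.lift (fun j => (⟨(Pi.single i v : Fin n → V) j, t j⟩ : SD ρ)) w) =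
        FreeGroup.lift (fun j => Ψ ⟨(Pi.single i v : Fin n → V) j, t j⟩) w := by
      have h7 : (Ψ.comp (FreeGroup.lift (fun j => (⟨(Pi.single i v : Fin n → V) j, t j⟩ :
          SD ρ)))) = FreeGroup.lift (fun j => Ψ ⟨(Pi.single i v : Fin n → V) j, t j⟩) := by
        ext j
        simp
      rw [← h7]
      rfl
    rw [h6, hw] at h5
    have h8 : Ψ ⟨ev ρ t (fox i w) v, 1⟩ = ι (ev ρ t (fox i w) v) * 1 := rfl
    rw [h8, mul_one] at h5
    apply hι
    rw [LinearMap.zero_apply, h0, h5]
  have hact := act hp w i g₁ hne l ρ (fun a => by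
    obtain ⟨k, hk⟩ := hG a
    exact ⟨k, by rw [← map_pow, hk, map_one]⟩) (fun h hh => by
    rw [hl] at hh
    rw [Subgroup.mem_bot.1 hh, map_one]) hev
  have hlist : ∀ L : List G, L.length = (n * p) ^ l → (L.map (fun a => ρ a - 1)).prod = 0 := by
    intro L hL
    have h3 := hact (fun j => L.get (Fin.cast hL.symm j))
    rw [← h3]
    congr 1
    apply List.ext_getElem
    · simp [hL]
    · intro k hk1 hk2
      simp
  have key : ∀ m : ℕ, ∀ L : List G, L.length + m = (n * p) ^ l →
      ∀ x ∈ (⊤ : Subgroup G).lowerCentralSeries (j + m), ∃ v, ι v = x ∧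
        (L.map (fun a => ρ a - 1)).prod v = 0 := by
    intro m
    induction m with
    | zero =>
      intro L hL x hx
      obtain ⟨v, hv⟩ := hj x hx
      refine ⟨v, hv, ?_⟩
      rw [hlist L (by simpa using hL)]
      rfl
    | succ m ih =>
      intro L hL
      let S : Subgroup G :=
        { carrier := {x | ∃ v, ι v = x ∧ (L.map (fun a => ρ a - 1)).prod v = 0}
          one_mem' := ⟨0, h0, map_zero _⟩
          mul_mem' := by
            rintro _ _ ⟨a, rfl, ha⟩ ⟨b, rfl, hb⟩
            exact ⟨a + b, hadd a b, by rw [map_add, ha, hb, add_zero]⟩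
          inv_mem' := by
            rintro _ ⟨a, rfl, ha⟩
            exact ⟨-a, hneg a, by rw [map_neg, ha, neg_zero]⟩ }
      have h3 : (⊤ : Subgroup G).lowerCentralSeries (j + (m + 1)) ≤ S := by
        rw [← add_assoc, Subgroup.lowerCentralSeries_succ, Subgroup.commutator_le]
        intro x hx g _
        obtain ⟨v, rfl, hv⟩ := ih (L ++ [g]) (by simp; omega) x hx
        refine ⟨- (ρ g - 1) v, ?_, ?_⟩
        · rw [LinearMap.sub_apply, Module.End.one_apply, neg_sub, sub_eq_add_neg, hadd, hneg, hρ,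
            commutatorElement_def]
          group
        · rw [map_neg, neg_eq_zero]
          rw [List.map_append, List.prod_append] at hv
          simpa using hv
      intro x hx
      exact h3 hx
  rw [eq_bot_iff]
  intro x hx
  obtain ⟨v, rfl, h3⟩ := key _ [] (by simp) x hx
  have h4 : v = 0 := by simpa using h3
  rw [h4, h0]
  exact Subgroup.mem_bot.2 rfl

/-- the case `L = ⊥` of `section_nilp` -/
private theorem thmd_core {p : ℕ} (hp : p.Prime) {n : ℕ} (w : FreeGroup (Fin n)) (i : Fin n)
    (g₁ : FreeGroup (Fin n))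
    (hne : open Classical in
      ∑ g ∈ (fox i w).support.filter (fun g => Eqv (A1 p) g g₁), ((fox i w g : ℤ) : ZMod p) ≠ 0)
    {l : ℕ} {G : Type} [Group G] (hG : IsPGroup p G) (hw : Law w G)
    (hl : derivedSeries G l = ⊥) (K : Subgroup G) (hK : K.Normal)
    (h1 : ∀ x ∈ K, x ^ p = 1) (h2 : ∀ x ∈ K, ∀ y ∈ K, x * y = y * x) (j : ℕ)
    (hj : (⊤ : Subgroup G).lowerCentralSeries j ≤ K) :
    (⊤ : Subgroup G).lowerCentralSeries (j + (n * p) ^ l) = ⊥ := by
  let cg : CommGroup K := { (inferInstance : Group K) with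
    mul_comm := fun a b => Subtype.ext (h2 a a.2 b b.2) }
  let ac : AddCommGroup (Additive K) := @Additive.addCommGroup K cg
  let md : Module (ZMod p) (Additive K) := AddCommGroup.zmodModule (n := p) (fun x => by
    apply Additive.toMul.injective
    apply Subtype.ext
    exact h1 _ (Additive.toMul x).2)
  let f : G → (Additive K →+ Additive K) := fun g =>
    { toFun := fun v => Additive.ofMul (MulAut.conjNormal g (Additive.toMul v) : K)
      map_zero' := by
        apply Additive.toMul.injective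
        exact map_one (MulAut.conjNormal g : MulAut K)
      map_add' := fun a b => by
        apply Additive.toMul.injective
        exact map_mul (MulAut.conjNormal g : MulAut K) (Additive.toMul a) (Additive.toMul b) }
  refine thmd_abs hp w i g₁ hne hG hw hl (V := Additive K)
    { toFun := fun g => AddMonoidHom.toZModLinearMap p (f g)
      map_one' := ?_
      map_mul' := ?_ } (fun v => ((Additive.toMul v : K) : G)) ?_ ?_ ?_ j ?_
  · apply LinearMap.ext
    intro v
    apply Additive.toMul.injective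
    apply Subtype.ext
    change 1 * _ * 1⁻¹ = _
    rw [one_mul, inv_one, mul_one]
    rfl
  · intro a b
    apply LinearMap.ext
    intro v
    apply Additive.toMul.injective
    apply Subtype.ext
    change (a * b) * ((Additive.toMul v : K) : G) * (a * b)⁻¹ =
      a * (b * ((Additive.toMul v : K) : G) * b⁻¹) * a⁻¹
    group
  · intro a b h
    exact Additive.toMul.injective (Subtype.ext h)
  · intro a b
    rfl
  · intro g v
    rfl
  · intro x hx
    exact ⟨Additive.ofMul (⟨x, hj hx⟩ : K), rfl⟩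

/-- One section. Let `w` be a law of `G`, `L ≤ K` normal subgroups of the `p`-group `G` with `K ⧸ L` elementary abelian, `derivedSeries G l = ⊥`. Then
`⁅K, G, ..., G⁆ ≤ L` with `(n*p)^l` factors `G`.
PROOF. Let `V = Additive (K ⧸ L)` (more precisely `K ⧸ L.subgroupOf K`), a module over `ZMod p`, with the conjugation action `ρ` of `G`. For `t : Fin n → G` and
`k ∈ K`: `w (t_1, ..., k t_i, ..., t_n) = 1 = w (t)`, and modulo `L` the first one is
`(ev ρ t (fox i w) k̄) * w(t)` (map `SD ρ`: the group `G ⧸ L` contains the normal abelian subgroup `K ⧸ L`, and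
`SD ρ → G ⧸ L`, `⟨v, g⟩ ↦ v * ḡ` is a homomorphism; apply it to `sd_lift`). So `ev ρ t (fox i w) = 0`. By `act`
all products of `(n*p)^l` operators `ρ a - 1` vanish, which means that the iterated commutators
`⁅a_1, ⁅a_2, ... ⁅a_M, k⁆⁆⁆` are in `L`; define `K_0 = K`, `K_(j+1) = ⁅K_j, ⊤⁆ ⊔ L`. Then `K_M = L`. -/
theorem section_nilp {p : ℕ} (hp : p.Prime) {n : ℕ} (w : FreeGroup (Fin n)) (i : Fin n)
    (g₁ : FreeGroup (Fin n))
    (hne : open Classical in
      ∑ g ∈ (fox i w).support.filter (fun g => Eqv (A1 p) g g₁), ((fox i w g : ℤ) : ZMod p) ≠ 0)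
    {l : ℕ} {G : Type} [Group G] [Finite G] (hG : IsPGroup p G) (hw : Law w G)
    (hl : derivedSeries G l = ⊥) (L K : Subgroup G) (hL : L.Normal) (hK : K.Normal) (hLK : L ≤ K)
    (h1 : ∀ x ∈ K, x ^ p ∈ L) (h2 : ∀ x ∈ K, ∀ y ∈ K, ⁅x, y⁆ ∈ L) (j : ℕ)
    (hj : (⊤ : Subgroup G).lowerCentralSeries j ≤ K) :
    (⊤ : Subgroup G).lowerCentralSeries (j + (n * p) ^ l) ≤ L := by
  have h3 : Function.Surjective (QuotientGroup.mk' L) := QuotientGroup.mk'_surjective L
  have h4 : ∀ (m : ℕ), ((⊤ : Subgroup G).lowerCentralSeries m).map (QuotientGroup.mk' L) =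
      (⊤ : Subgroup (G ⧸ L)).lowerCentralSeries m := by
    intro m
    rw [Subgroup.map_lowerCentralSeries, Subgroup.map_top_of_surjective _ h3]
  have h5 := thmd_core hp w i g₁ hne (G := G ⧸ L) (l := l) (hG.to_quotient L) (by
      intro t
      have h6 : ∀ k, ∃ g : G, QuotientGroup.mk' L g = t k := fun k => h3 (t k)
      choose s hs using h6
      have h7 : ((QuotientGroup.mk' L).comp (FreeGroup.lift s)) = FreeGroup.lift t := by
        ext k
        simpa using hs k
      rw [← h7, MonoidHom.comp_apply, hw s, map_one])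
    (by rw [← map_derivedSeries_eq h3, hl, Subgroup.map_bot])
    (K.map (QuotientGroup.mk' L)) (hK.map _ h3) (by
      rintro _ ⟨x, hx, rfl⟩
      rw [← map_pow]
      exact (QuotientGroup.eq_one_iff _).2 (h1 x hx)) (by
      rintro _ ⟨x, hx, rfl⟩ _ ⟨y, hy, rfl⟩
      rw [← commutatorElement_eq_one_iff_mul_comm, ← map_commutatorElement]
      exact (QuotientGroup.eq_one_iff _).2 (h2 x hx y hy)) j (by
      rw [← h4]
      exact Subgroup.map_mono hj)
  intro x hx
  have h6 : QuotientGroup.mk' L x ∈ (⊤ : Subgroup (G ⧸ L)).lowerCentralSeries (j + (n * p) ^ l) := by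
    rw [← h4]
    exact Subgroup.mem_map_of_mem _ hx
  rw [h5] at h6
  exact (QuotientGroup.eq_one_iff _).1 (Subgroup.mem_bot.1 h6)

/-- several sections with the same abelian section: `K ⧸ L` abelian of exponent dividing `p ^ k` -/
private theorem thmd_abel {p : ℕ} (hp : p.Prime) {n : ℕ} (w : FreeGroup (Fin n)) (i : Fin n)
    (g₁ : FreeGroup (Fin n))
    (hne : open Classical in
      ∑ g ∈ (fox i w).support.filter (fun g => Eqv (A1 p) g g₁), ((fox i w g : ℤ) : ZMod p) ≠ 0)
    {l : ℕ} {G : Type} [Group G] [Finite G] (hG : IsPGroup p G) (hw : Law w G)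
    (hl : derivedSeries G l = ⊥) (L : Subgroup G) (hL : L.Normal) :
    ∀ (k : ℕ) (K : Subgroup G) (_ : K.Normal) (_ : L ≤ K)
    (_ : ∀ x ∈ K, x ^ (p ^ k) ∈ L) (_ : ∀ x ∈ K, ∀ y ∈ K, ⁅x, y⁆ ∈ L) (j : ℕ)
    (_ : (⊤ : Subgroup G).lowerCentralSeries j ≤ K),
    (⊤ : Subgroup G).lowerCentralSeries (j + k * (n * p) ^ l) ≤ L := by
  intro k
  induction k with
  | zero =>
    intro K hK hLK h1 h2 j hj
    rw [zero_mul, add_zero]
    intro x hx
    simpa using h1 x (hj hx)
  | succ k ih =>
    intro K hK hLK h1 h2 j hj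
    have hmk : ∀ x : G, x ∈ L ↔ QuotientGroup.mk' L x = 1 := fun x =>
      (QuotientGroup.eq_one_iff x).symm
    let K' : Subgroup G :=
      { carrier := {x | x ∈ K ∧ x ^ (p ^ k) ∈ L}
        one_mem' := ⟨K.one_mem, by rw [one_pow]; exact L.one_mem⟩
        mul_mem' := by
          rintro a b ⟨ha, ha'⟩ ⟨hb, hb'⟩
          refine ⟨K.mul_mem ha hb, ?_⟩
          rw [hmk, map_pow] at ha' hb' ⊢
          have h3 : Commute (QuotientGroup.mk' L a) (QuotientGroup.mk' L b) := by
            rw [← commutatorElement_eq_one_iff_commute, ← map_commutatorElement]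
            exact (hmk _).1 (h2 a ha b hb)
          rw [map_mul, h3.mul_pow, ha', hb', one_mul]
        inv_mem' := by
          rintro a ⟨ha, ha'⟩
          refine ⟨K.inv_mem ha, ?_⟩
          rw [inv_pow]
          exact L.inv_mem ha' }
    have hK'n : K'.Normal := by
      refine ⟨fun x hx g => ⟨hK.conj_mem x hx.1 g, ?_⟩⟩
      rw [conj_pow]
      exact hL.conj_mem _ hx.2 g
    have hLK' : L ≤ K' := fun x hx => ⟨hLK hx, L.pow_mem hx _⟩
    have hK'K : K' ≤ K := fun x hx => hx.1
    have h3 := section_nilp hp w i g₁ hne hG hw hl K' K hK'n hK hK'K (by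
      intro x hx
      refine ⟨K.pow_mem hx _, ?_⟩
      rw [← pow_mul, ← pow_succ']
      exact h1 x hx) (fun x hx y hy => hLK' (h2 x hx y hy)) j hj
    have h4 := ih K' hK'n hLK' (fun x hx => hx.2) (fun x hx y hy => h2 x hx.1 y hy.1) _ h3
    have h5 : j + (k + 1) * (n * p) ^ l = j + (n * p) ^ l + k * (n * p) ^ l := by ring
    rw [h5]
    exact h4

/-- all sections -/
private theorem thmd_all {p : ℕ} (hp : p.Prime) {n : ℕ} (w : FreeGroup (Fin n)) (i : Fin n)
    (g₁ : FreeGroup (Fin n))
    (hne : open Classical in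
      ∑ g ∈ (fox i w).support.filter (fun g => Eqv (A1 p) g g₁), ((fox i w g : ℤ) : ZMod p) ≠ 0)
    {l : ℕ} {G : Type} [Group G] [Finite G] (hG : IsPGroup p G) (hw : Law w G)
    (hl : derivedSeries G l = ⊥) {k : ℕ} (hk : ∀ x : G, x ^ (p ^ k) = 1) (s : ℕ) :
    (⊤ : Subgroup G).lowerCentralSeries (s * (k * (n * p) ^ l)) ≤ derivedSeries G s := by
  induction s with
  | zero =>
    rw [derivedSeries_zero]
    exact le_top
  | succ s ih =>
    have h1 := thmd_abel hp w i g₁ hne hG hw hl (derivedSeries G (s + 1))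
      (derivedSeries_normal G (s + 1)) k (derivedSeries G s) (derivedSeries_normal G s)
      (derivedSeries_antitone G (Nat.le_succ s)) (fun x _ => by
        rw [hk x]
        exact Subgroup.one_mem _) (fun x hx y hy => by
        rw [derivedSeries_succ]
        exact Subgroup.commutator_mem_commutator hx hy) _ ih
    have h2 : (s + 1) * (k * (n * p) ^ l) = s * (k * (n * p) ^ l) + k * (n * p) ^ l := by ring
    rw [h2]
    exact h1

/-- in a nontrivial class of `p`-groups every law is a law of the elementary abelian `p`-groups -/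
private theorem thmd_eqv (hF : PV F) {p : ℕ} (hp : p.Prime) {G : Type} [Group G] [Nontrivial G]
    (hG : F G) (hpG : IsPGroup p G) {n : ℕ} (w : FreeGroup (Fin n))
    (hw : ∀ (G : Type) [Group G], F G → Law w G) : Eqv (A1 p) w 1 := by
  have : Fact p.Prime := ⟨hp⟩
  have : Finite G := hF.fin hG
  have hcard : p ∣ Nat.card G := by
    obtain ⟨m, hm⟩ := hpG.exists_card_eq
    have h1 : 1 < Nat.card G := Finite.one_lt_card
    rw [hm] at h1 ⊢
    have h2 : m ≠ 0 := by
      rintro rfl
      simp at h1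
    exact dvd_pow_self p h2
  obtain ⟨x, hx⟩ := exists_prime_orderOf_dvd_card' p hcard
  let e : Multiplicative (ZMod p) ≃* Subgroup.zpowers x := mulEquivOfPrimeCardEq (p := p)
    (by rw [Nat.card_congr Multiplicative.toAdd, Nat.card_zmod])
    (by rw [Nat.card_zpowers, hx])
  have hC : Law w (Multiplicative (ZMod p)) := by
    apply hw
    exact hF.inj ((Subgroup.zpowers x).subtype.comp e.toMonoidHom)
      ((Subgroup.subtype_injective _).comp e.injective) hG
  intro X _ hX t
  rw [map_one]
  let cg : CommGroup X := { (inferInstance : Group X) with mul_comm := hX.2.1 }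
  let md : Module (ZMod p) (Additive X) := AddCommGroup.zmodModule (n := p) (fun x => hX.2.2 x)
  have h1 : (Additive.ofMul (FreeGroup.lift t w) : Additive X) = 0 := by
    rw [← Module.forall_dual_apply_eq_zero_iff (ZMod p)]
    intro φ
    let φ' : X →* Multiplicative (ZMod p) :=
      { toFun := fun y => Multiplicative.ofAdd (φ (Additive.ofMul y))
        map_one' := map_zero φ
        map_mul' := fun a b => map_add φ (Additive.ofMul a) (Additive.ofMul b) }
    have h2 : (φ'.comp (FreeGroup.lift t)) = FreeGroup.lift (fun k => φ' (t k)) := by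
      ext k
      simp
    have h3 : φ' (FreeGroup.lift t w) = 1 := by
      rw [← MonoidHom.comp_apply, h2, hC]
    exact h3
  exact h1

/-- PROOF. Let `X` be in `A2 p p`, not in `F`. By `burn` the `n`-generated groups in `F` have bounded order, so by `exists_law'` there
is a law `w` of `F` (in some number `n` of variables) which is not a law of `X`. By `law_of_kills` `¬ Kills p (A1 p) w`. If all groups in `F` are trivial, `c = 0` works. Otherwise the cyclic group
`Multiplicative (ZMod p)` is in `F` (a nontrivial `p`-group contains an element of order `p`), and `Eqv (A1 p) w 1` holds: an elementary abelian group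
embeds into a power of the cyclic group. So there are `i`, `g₁` as in `hne`. We may assume that `e = p^k` is a power of `p` (the exponent of a `p`-group dividing `e` divides
`p ^ (e.factorization p)`). For `G ∈ F` consider the subgroups `G^(s) = derivedSeries G s` (`s ≤ l`) and in between the subgroups
`K_(s,j) = G^(s+1) ⊔ ⟨x ^ (p^j) | x ∈ G^(s)⟩`, `j = 0, ..., k`: normal, `K_(s,0) = G^(s)`, `K_(s,k) = G^(s+1)`, with elementary abelian sections.
By `section_nilp` (`l * k` times) `lowerCentralSeries ⊤ (l * k * (n*p)^l) = ⊥`. -/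
theorem thmD (hF : PV F) {p : ℕ} (hp : p.Prime) (hpg : ∀ (G : Type) [Group G], F G → IsPGroup p G)
    {e l : ℕ} (he : 0 < e) (hexp : ExpLe F e)
    (hl : ∀ (G : Type) [Group G], F G → derivedSeries G l = ⊥) (hA : ¬ Le (A2 p p) F) :
    ∃ c : ℕ, ∀ (G : Type) [Group G], F G → (⊤ : Subgroup G).lowerCentralSeries c = ⊥ := by
  classical
  by_cases htriv : ∀ (G : Type) [Group G], F G → Subsingleton G
  · refine ⟨0, fun G _ hG => ?_⟩
    have := htriv G hG
    exact Subsingleton.elim _ _
  have hX : ∃ (X : Type) (_ : Group X), A2 p p X ∧ ¬ F X := by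
    by_contra hcon
    apply hA
    intro X _ hX
    by_contra h1
    exact hcon ⟨X, _, hX, h1⟩
  obtain ⟨X, _, hXA, hXF⟩ := hX
  have : Finite X := hXA.1
  obtain ⟨n, w, hw, hwX⟩ := exists_law' hF (fun n => by
    obtain ⟨b, hb⟩ := burn e l n he
    exact ⟨b, fun G _ t hG ht => (hb G t ht (hexp G hG) (hl G hG)).2⟩) hXF
  have hnk : ¬ Kills p (A1 p) w := by
    intro hk
    obtain ⟨N, hN, h1, h2⟩ := hXA.2
    exact hwX (law_of_kills hk N h1 ⟨inferInstance, h2⟩)
  have heq : Eqv (A1 p) w 1 := by
    have h1 : ∃ (G : Type) (_ : Group G), F G ∧ ¬ Subsingleton G := by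
      by_contra hcon
      apply htriv
      intro G _ hG
      by_contra h2
      exact hcon ⟨G, _, hG, h2⟩
    obtain ⟨G, _, hG, h2⟩ := h1
    have : Nontrivial G := not_subsingleton_iff_nontrivial.1 h2
    exact thmd_eqv hF hp hG (hpg G hG) w hw
  have hex : ∃ (i : Fin n) (g₁ : FreeGroup (Fin n)),
      ∑ g ∈ (fox i w).support.filter (fun g => Eqv (A1 p) g g₁), ((fox i w g : ℤ) : ZMod p) ≠ 0 := by
    by_contra hcon
    push Not at hcon
    exact hnk ⟨heq, hcon⟩
  obtain ⟨i, g₁, hne⟩ := hex
  have : Fact p.Prime := ⟨hp⟩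
  refine ⟨l * (e * (n * p) ^ l), fun G _ hG => ?_⟩
  have : Finite G := hF.fin hG
  have hk : ∀ x : G, x ^ (p ^ e) = 1 := by
    intro x
    obtain ⟨k, hk⟩ := (IsPGroup.iff_orderOf.1 (hpg G hG)) x
    rw [← orderOf_dvd_iff_pow_eq_one, hk]
    apply pow_dvd_pow
    have h1 : orderOf x ∣ e := orderOf_dvd_of_pow_eq_one (hexp G hG x)
    have h2 := Nat.le_of_dvd he h1
    rw [hk] at h2
    exact (Nat.lt_pow_self hp.one_lt).le.trans h2
  have h1 := thmd_all hp w i g₁ hne (hpg G hG) (hw G hG) (hl G hG) hk l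
  rw [hl G hG] at h1
  exact eq_bot_iff.2 h1

end Pool.Agent.HForm
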