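import Pool.Agent.Lib_MP_4009a7_al.OGB

/-!
# Piece UNB: `A_p A_p` is not one-generated
-/

set_option autoImplicit false

open scoped commutatorElement

namespace Pool.Agent.HForm

/-- the elementary abelian top group -/
private abbrev ubE (p c : ℕ) : Type := Fin c → Multiplicative (ZMod p)

/-- the permutation module of the top group -/
private def ubRho (p c : ℕ) : ubE p c →* Module.End ℤ (ubE p c → ZMod p) where
  toFun ε :=
    { toFun := fun φ δ => φ (ε⁻¹ * δ)
      map_add' := fun _ _ => rfl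
      map_smul' := fun _ _ => rfl }
  map_one' := by
    ext φ δ
    simp
  map_mul' a b := by
    refine LinearMap.ext fun φ => funext fun δ => ?_
    show φ ((a * b)⁻¹ * δ) = φ (b⁻¹ * (a⁻¹ * δ))
    rw [mul_inv_rev, mul_assoc]

private theorem ubRho_apply {p c : ℕ} (ε : ubE p c) (φ : ubE p c → ZMod p) (δ : ubE p c) :
    ubRho p c ε φ δ = φ (ε⁻¹ * δ) := rfl

private theorem ub_pow_E {p c : ℕ} (x : ubE p c) : x ^ p = 1 := by
  funext i
  rw [Pi.pow_apply, Pi.one_apply]
  have : p • (Multiplicative.toAdd (x i)) = 0 := by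
    rw [nsmul_eq_mul, CharP.cast_eq_zero, zero_mul]
  exact congrArg Multiplicative.ofAdd this

private theorem ub_finite {p : ℕ} (hp : p.Prime) (c : ℕ) : Finite (SD (ubRho p c)) := by
  have : NeZero p := ⟨hp.ne_zero⟩
  have : Finite (Multiplicative (ZMod p)) := Finite.of_equiv _ Multiplicative.ofAdd
  exact Finite.of_injective (fun x : SD (ubRho p c) => (x.v, x.h)) (fun x y h => by
    have := Prod.ext_iff.1 h
    exact SD.ext this.1 this.2)

private theorem ub_A2 {p : ℕ} (hp : p.Prime) (c : ℕ) : A2 p p (SD (ubRho p c)) := by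
  refine ⟨ub_finite hp c, (SD.toH (ubRho p c)).ker, inferInstance, ⟨?_, ?_⟩, ?_, ?_⟩
  · rintro ⟨x, hx⟩ ⟨y, hy⟩
    have hx' : x.h = 1 := hx
    have hy' : y.h = 1 := hy
    refine Subtype.ext (SD.ext ?_ ?_)
    · show x.v + ubRho p c x.h y.v = y.v + ubRho p c y.h x.v
      rw [hx', hy', map_one, Module.End.one_apply, Module.End.one_apply, add_comm]
    · show x.h * y.h = y.h * x.h
      rw [hx', hy']
  · rintro ⟨x, hx⟩
    have hx' : x.h = 1 := hx
    have key : ∀ n : ℕ, (x ^ n).v = n • x.v ∧ (x ^ n).h = 1 := by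
      intro n
      induction n with
      | zero => simp
      | succ n ih =>
        rw [pow_succ]
        refine ⟨?_, ?_⟩
        · rw [SD.mul_v, ih.1, ih.2, map_one, Module.End.one_apply, succ_nsmul]
        · rw [SD.mul_h, ih.2, hx', one_mul]
    refine Subtype.ext (SD.ext ?_ ?_)
    · show (x ^ p).v = 0
      rw [(key p).1]
      funext δ
      rw [Pi.smul_apply, nsmul_eq_mul, CharP.cast_eq_zero, zero_mul]
      rfl
    · exact (key p).2
  · intro x y
    obtain ⟨x, rfl⟩ := QuotientGroup.mk_surjective x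
    obtain ⟨y, rfl⟩ := QuotientGroup.mk_surjective y
    rw [← QuotientGroup.mk_mul, ← QuotientGroup.mk_mul, QuotientGroup.eq, MonoidHom.mem_ker]
    rw [map_mul, map_inv, map_mul, map_mul, mul_comm ((SD.toH (ubRho p c)) y), inv_mul_cancel]
  · intro x
    obtain ⟨x, rfl⟩ := QuotientGroup.mk_surjective x
    rw [← QuotientGroup.mk_pow, QuotientGroup.eq_one_iff, MonoidHom.mem_ker, map_pow]
    exact ub_pow_E _

/-- the generators of the top group -/
private def ubG (p c k : ℕ) : ubE p c := fun j => if (j : ℕ) = k then Multiplicative.ofAdd 1 else 1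

open Classical in
/-- the values of the left normed commutators -/
private noncomputable def ubF (p c : ℕ) : ℕ → ubE p c → ZMod p
  | 0 => fun δ => if δ = 1 then 1 else 0
  | k + 1 => fun δ => ubF p c k δ - ubF p c k ((ubG p c k)⁻¹ * δ)

private theorem ub_comm {p c : ℕ} (v : ubE p c → ZMod p) (ε : ubE p c) :
    ⁅(⟨v, 1⟩ : SD (ubRho p c)), (⟨0, ε⟩ : SD (ubRho p c))⁆ = (⟨v - ubRho p c ε v, 1⟩ : SD (ubRho p c)) := by
  rw [commutatorElement_def]
  refine SD.ext ?_ ?_
  · simp only [SD.mul_v, SD.mul_h, SD.inv_v, SD.inv_h, map_one, Module.End.one_apply, one_mul, inv_one,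
      mul_one, map_zero, add_zero, map_neg, neg_zero]
    rw [sub_eq_add_neg]
  · simp only [SD.mul_h, SD.inv_h, one_mul, inv_one, mul_one, mul_inv_cancel]

private theorem ub_mem {p c : ℕ} (k : ℕ) :
    (⟨ubF p c k, 1⟩ : SD (ubRho p c)) ∈ (⊤ : Subgroup (SD (ubRho p c))).lowerCentralSeries k := by
  induction k with
  | zero => exact Subgroup.mem_top _
  | succ k ih =>
    rw [Subgroup.lowerCentralSeries_succ]
    have h := Subgroup.commutator_mem_commutator ih
      (Subgroup.mem_top (⟨0, ubG p c k⟩ : SD (ubRho p c)))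
    rw [ub_comm] at h
    exact h

private theorem ub_val {p : ℕ} (hp : p.Prime) {c : ℕ} (k : ℕ) (hk : k ≤ c) :
    ubF p c k 1 = 1 ∧ ∀ (δ : ubE p c) (j : Fin c), k ≤ (j : ℕ) → δ j ≠ 1 → ubF p c k δ = 0 := by
  have : Fact p.Prime := ⟨hp⟩
  induction k with
  | zero =>
    refine ⟨?_, ?_⟩
    · show (if (1 : ubE p c) = 1 then (1 : ZMod p) else 0) = 1
      rw [if_pos rfl]
    · intro δ j _ hj
      show (if δ = 1 then (1 : ZMod p) else 0) = 0
      rw [if_neg]
      rintro rfl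
      exact hj rfl
  | succ k ih =>
    obtain ⟨h1, h2⟩ := ih (by omega)
    refine ⟨?_, ?_⟩
    · show ubF p c k 1 - ubF p c k ((ubG p c k)⁻¹ * 1) = 1
      rw [h1, h2 _ ⟨k, hk⟩ le_rfl, sub_zero]
      rw [mul_one, Pi.inv_apply]
      show (if k = k then (Multiplicative.ofAdd (1 : ZMod p)) else 1)⁻¹ ≠ 1
      rw [if_pos rfl]
      intro h
      have h3 : Multiplicative.ofAdd (1 : ZMod p) = 1 := inv_eq_one.1 h
      have h4 : (1 : ZMod p) = 0 := Multiplicative.ofAdd.injective h3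
      exact one_ne_zero h4
    · intro δ j hj hδ
      show ubF p c k δ - ubF p c k ((ubG p c k)⁻¹ * δ) = 0
      have hne : (j : ℕ) ≠ k := by omega
      have h3 : ((ubG p c k)⁻¹ * δ) j = δ j := by
        rw [Pi.mul_apply, Pi.inv_apply]
        show (if (j : ℕ) = k then (Multiplicative.ofAdd (1 : ZMod p)) else 1)⁻¹ * δ j = δ j
        rw [if_neg hne, inv_one, one_mul]
      rw [h2 δ j (by omega) hδ, h2 _ j (by omega) (by rw [h3]; exact hδ), sub_zero]

/-- PROOF. Let `E = Fin c → Multiplicative (ZMod p)` and `V = E → ZMod p` with `ρ ε φ = fun δ => φ (ε⁻¹ * δ)`; `G = SD ρ`. `N = {⟨v, 1⟩}` is normal and elementary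
abelian, `G ⧸ N ≃* E`. Let `δ₀ ∈ V` be the delta function at `1` and `e_i ∈ E` the `i`-th generator. The commutator
`⁅⟨v, 1⟩, ⟨0, ε⟩⁆ = ⟨v - ρ ε v, 1⟩`. So the left normed commutator of `⟨δ₀, 1⟩, ⟨0, e_0⟩, ..., ⟨0, e_(c-1)⟩` is
`⟨∏ (1 - ρ e_i) δ₀, 1⟩`; its value at `1 ∈ E` is `1` (the other terms of the expansion are delta functions at nontrivial products of distinct `e_i`). It is in
`lowerCentralSeries ⊤ c`. -/
theorem a2_unbounded {p : ℕ} (hp : p.Prime) (c : ℕ) : ∃ (G : Type) (_ : Group G), A2 p p G ∧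
    (⊤ : Subgroup G).lowerCentralSeries c ≠ ⊥ := by
  refine ⟨SD (ubRho p c), inferInstance, ub_A2 hp c, fun h => ?_⟩
  have : Fact p.Prime := ⟨hp⟩
  have h1 := ub_mem (p := p) (c := c) c
  rw [h, Subgroup.mem_bot] at h1
  have h2 : ubF p c c = 0 := congrArg SD.v h1
  have h3 := (ub_val hp c le_rfl).1
  rw [h2] at h3
  exact zero_ne_one h3

private theorem ub_pgroup {p : ℕ} {G : Type} [Group G] (h : A2 p p G) : IsPGroup p G := by
  obtain ⟨_, N, hN, ⟨_, h1⟩, _, h2⟩ := h
  intro x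
  refine ⟨2, ?_⟩
  have h3 : x ^ p ∈ N := by
    rw [← QuotientGroup.eq_one_iff, QuotientGroup.mk_pow]
    exact h2 _
  have h4 := h1 ⟨x ^ p, h3⟩
  have h5 : (x ^ p) ^ p = 1 := congrArg Subtype.val h4
  rw [pow_two, pow_mul]
  exact h5

/-- by `OneGen.laws`, `nilp_of_laws`: `G₀ ∈ A2 p p` is a `p`-group so nilpotent of some class `c` -/
theorem a2_not_oneGen {p : ℕ} (hp : p.Prime) : ¬ OneGen (A2 p p) := by
  intro h
  have : Fact p.Prime := ⟨hp⟩
  obtain ⟨G₀, _, hfin, hF, hlaws⟩ := h.laws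
  have hnil : Group.IsNilpotent G₀ := (ub_pgroup hF).isNilpotent
  obtain ⟨c, hc⟩ := Subgroup.nilpotent_iff_lowerCentralSeries.1 hnil
  obtain ⟨G, _, hG, hne⟩ := a2_unbounded hp c
  have : Finite G := hG.1
  exact hne (nilp_of_laws (hlaws G hG) hc)

/-- by `OneGen.exp` and the cyclic groups of order `p ^ k` -/
theorem abP_not_oneGen {p : ℕ} (hp : p.Prime) : ¬ OneGen (AbP p) := by
  intro h
  obtain ⟨e, he, hexp⟩ := h.exp
  have : NeZero (p ^ e) := ⟨(pow_pos hp.pos e).ne'⟩
  have hfin : Finite (Multiplicative (ZMod (p ^ e))) := Finite.of_equiv _ Multiplicative.ofAdd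
  have hpow : ∀ (x : Multiplicative (ZMod (p ^ e))) (n : ℕ),
      x ^ n = Multiplicative.ofAdd ((n : ZMod (p ^ e)) * Multiplicative.toAdd x) := by
    intro x n
    rw [← nsmul_eq_mul, ofAdd_nsmul, ofAdd_toAdd]
  have hmem : AbP p (Multiplicative (ZMod (p ^ e))) := by
    refine ⟨hfin, fun x y => mul_comm x y, fun x => ⟨e, ?_⟩⟩
    rw [hpow, CharP.cast_eq_zero, zero_mul]
    rfl
  have h1 := hexp _ hmem (Multiplicative.ofAdd 1)
  rw [hpow, toAdd_ofAdd, mul_one] at h1
  have h2 : (e : ZMod (p ^ e)) = 0 := Multiplicative.ofAdd.injective h1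
  have h3 : p ^ e ∣ e := (ZMod.natCast_eq_zero_iff e (p ^ e)).1 h2
  have h4 : p ^ e ≤ e := Nat.le_of_dvd he h3
  exact absurd (Nat.lt_pow_self hp.one_lt) (not_lt.2 h4)

end Pool.Agent.HForm
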