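import Pool.Agent.Lib_MP_4009a7_al.Chief
import Pool.Agent.Lib_MP_4009a7_al.ThmD
import Pool.Agent.Lib_MP_4009a7_al.NotOG
import Pool.Agent.Lib_MP_4009a7_al.NonIncl
import Pool.Agent.Lib_MP_4009a7_al.Cyc
import Pool.Agent.Lib_MP_4009a7_al.UnbA2

/-!
# Piece MINCLS: the five families are minimal non-one-generated
-/

set_option autoImplicit false

open scoped commutatorElement

namespace Pool.Agent.HForm

variable {F : GClass}

private theorem mincls_lcs_one {G : Type} [Group G] (h : ∀ x y : G, x * y = y * x) :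
    (⊤ : Subgroup G).lowerCentralSeries 1 = ⊥ := by
  rw [eq_bot_iff, show (1 : ℕ) = 0 + 1 from rfl, Subgroup.lowerCentralSeries_succ,
    Subgroup.commutator_le]
  intro x _ y _
  rw [Subgroup.mem_bot, commutatorElement_eq_one_iff_mul_comm]
  exact h x y

private theorem mincls_pgroup {p : ℕ} {G : Type} [Group G] (h : A2 p p G) : IsPGroup p G := by
  obtain ⟨_, N, hN, ⟨_, h1⟩, _, h2⟩ := h
  intro x
  refine ⟨2, ?_⟩
  have h3 : x ^ p ∈ N := by
    rw [← QuotientGroup.eq_one_iff, QuotientGroup.mk_pow]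
    exact h2 _
  have h4 := h1 ⟨x ^ p, h3⟩
  have h5 : (x ^ p) ^ p = 1 := congrArg Subtype.val h4
  rw [pow_two, pow_mul]
  exact h5

private theorem mincls_der {p q : ℕ} {G : Type} [Group G] (h : A2 p q G) : derivedSeries G 2 = ⊥ := by
  obtain ⟨_, N, hN, ⟨h1, _⟩, h2, _⟩ := h
  have h3 : derivedSeries G 1 ≤ N := by
    rw [show (1 : ℕ) = 0 + 1 from rfl, derivedSeries_succ, Subgroup.commutator_le]
    intro x _ y _
    rw [← QuotientGroup.eq_one_iff]
    change ((x * y * x⁻¹ * y⁻¹ : G) : G ⧸ N) = 1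
    rw [QuotientGroup.mk_mul, QuotientGroup.mk_mul, QuotientGroup.mk_mul, h2 (x : G ⧸ N) (y : G ⧸ N),
      QuotientGroup.mk_inv, QuotientGroup.mk_inv, mul_inv_cancel_right, mul_inv_cancel]
  rw [eq_bot_iff, show (2 : ℕ) = 1 + 1 from rfl, derivedSeries_succ, Subgroup.commutator_le]
  intro x hx y hy
  rw [Subgroup.mem_bot, commutatorElement_eq_one_iff_mul_comm]
  exact congrArg Subtype.val (h1 ⟨x, h3 hx⟩ ⟨y, h3 hy⟩)

/-- a criterion in terms of pseudovarieties -/
theorem minNonOneGen_of_pv (hF : PV F) (h1 : ¬ OneGen F)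
    (h2 : ∀ H : GClass, PV H → Le H F → ¬ Le F H → OneGen H) : MinNonOneGen F := by
  exact ⟨(pv_iff.2 hF).1, (pv_iff.2 hF).2, h1,
    fun H hH1 hH2 hle hnle => h2 H (pv_iff.1 ⟨hH1, hH2⟩) hle hnle⟩

/-- Theorem C for classes of `p`-groups: `thmC` with `not_AT_le_pgroups`, `not_A3_le_pgroups`, `soluble_pgroups` -/
theorem oneGen_of_pgroups (hF : PV F) {p e c : ℕ} (hp : p.Prime) (h : ∀ (G : Type) [Group G], F G → IsPGroup p G)
    (he : 0 < e) (hexp : ExpLe F e) (hc : ∀ (G : Type) [Group G], F G → (⊤ : Subgroup G).lowerCentralSeries c = ⊥) :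
    OneGen F := by
  exact thmC hF (soluble_pgroups hF hp h) he hexp (c := c) (fun G _ hG _ _ _ => hc G hG)
    (fun p' q' hp' hq' hne => not_AT_le_pgroups hp h hp' hq' hne)
    (fun p' q' r' hp' hq' hr' hpq _ _ => not_A3_le_pgroups hp h hp' hq' hr' hpq)

/-- PROOF. Let `H ≤ AbP p`, `H` a pseudovariety, not containing `AbP p`. By `abP_le` and `exp_dichotomy` `H` has bounded exponent. Commutative groups have class `≤ 1`: `oneGen_of_pgroups`. -/
theorem min_abP {p : ℕ} (hp : p.Prime) : MinNonOneGen (AbP p) := by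
  refine minNonOneGen_of_pv (pv_abP p) (abP_not_oneGen hp) ?_
  intro H hH hle hnle
  have hpg : ∀ (G : Type) [Group G], H G → IsPGroup p G := fun G _ hG => (hle G hG).2.2
  obtain ⟨e, he, hexp⟩ := exp_dichotomy hH hp hpg (fun hk => hnle (abP_le hH hp hk))
  exact oneGen_of_pgroups hH hp hpg he hexp (c := 1)
    (fun G _ hG => mincls_lcs_one (hle G hG).2.1)

/-- PROOF. `A2 p p` consists of `p`-groups of exponent dividing `p * p` and derived length `≤ 2`. For a proper `H`, `thmD` gives a bound for the class, then `oneGen_of_pgroups`. -/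
theorem min_A2 {p : ℕ} (hp : p.Prime) : MinNonOneGen (A2 p p) := by
  refine minNonOneGen_of_pv (pv_A2 p p) (a2_not_oneGen hp) ?_
  intro H hH hle hnle
  have hpg : ∀ (G : Type) [Group G], H G → IsPGroup p G := fun G _ hG => mincls_pgroup (hle G hG)
  have hexp : ExpLe H (p * p) := fun G _ hG => exp_A2 p p G (hle G hG)
  have he : 0 < p * p := Nat.mul_pos hp.pos hp.pos
  obtain ⟨c, hc⟩ := thmD hH hp hpg he hexp (l := 2) (fun G _ hG => mincls_der (hle G hG)) hnle
  exact oneGen_of_pgroups hH hp hpg he hexp hc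

/-- PROOF. `thmC` for a proper `H ≤ A3 p q r` with `e = p * (q * r)`, `c = 1` (`nil_A3`); `H` contains no `AT p' q'` (`not_AT_le_A3`) and no `A3 p' q' r'`: by `A3_le_A3` it would be `A3 p q r`. -/
theorem min_A3 {p q r : ℕ} (hp : p.Prime) (hq : q.Prime) (hr : r.Prime) (hpq : p ≠ q) (hpr : p ≠ r)
    (hqr : q ≠ r) : MinNonOneGen (A3 p q r) := by
  refine minNonOneGen_of_pv (pv_A3 p q r) (a3_not_oneGen hp hq hr) ?_
  intro H hH hle hnle
  have he : 0 < p * (q * r) := Nat.mul_pos hp.pos (Nat.mul_pos hq.pos hr.pos)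
  refine thmC hH (fun G _ hG => soluble_A3 p q r G (hle G hG)) he
    (fun G _ hG => exp_A3 p q r G (hle G hG)) (c := 1)
    (fun G _ hG => nil_A3 hp hq hr hpq hpr hqr G (hle G hG)) ?_ ?_
  · intro p' q' hp' hq' hne hAT
    exact not_AT_le_A3 hp hq hr hpq hpr hqr hq' (fun G _ hG => hle G (hAT G hG))
  · intro p' q' r' hp' hq' hr' hpq' hpr' hqr' hA3
    obtain ⟨h1, h2, h3⟩ := A3_le_A3 hp hq hr hpq hpr hqr hp' hq' hr' hpq' hpr' hqr'
      (fun G _ hG => hle G (hA3 G hG))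
    subst h1 h2 h3
    exact hnle hA3

/-- PROOF. The same with `AT_le_AT`, `not_A3_le_AT`, `nil_AT`, `exp_AT`. -/
theorem min_AT {p q : ℕ} (hp : p.Prime) (hq : q.Prime) (hpq : p ≠ q) : MinNonOneGen (AT p q) := by
  refine minNonOneGen_of_pv (pv_AT p q) (at_not_oneGen hp hq) ?_
  intro H hH hle hnle
  have he : 0 < p * (q * Nat.gcd 2 q) :=
    Nat.mul_pos hp.pos (Nat.mul_pos hq.pos (Nat.gcd_pos_of_pos_left _ two_pos))
  refine thmC hH (fun G _ hG => soluble_AT p q G (hle G hG)) he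
    (fun G _ hG => exp_AT p q G (hle G hG)) (c := 2)
    (fun G _ hG => nil_AT hp hq hpq G (hle G hG)) ?_ ?_
  · intro p' q' hp' hq' hne hAT
    obtain ⟨h1, h2⟩ := AT_le_AT hp hq hpq hp' hq' hne (fun G _ hG => hle G (hAT G hG))
    subst h1 h2
    exact hnle hAT
  · intro p' q' r' hp' hq' hr' hpq' hpr' hqr' hA3
    exact not_A3_le_AT hp hq hp' hq' hr' hpq' hpr' hqr' (fun G _ hG => hle G (hA3 G hG))

/-- PROOF. Not one-generated: if `OneGen F`, let `G₀` be from `OneGen.laws`, a finite `p`-group, so soluble, `derivedSeries G₀ d = ⊥`; `solv_of_laws` bounds the derived length in `F`. A proper `H` has class `≤ c` by hypothesis: `oneGen_of_pgroups`. -/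
theorem min_exotic (h : Exotic F) : MinNonOneGen F := by
  obtain ⟨hF, hH, p, hp, hpg, ⟨e, he, hexp⟩, hd, hmin⟩ := h
  have hPV : PV F := pv_iff.1 ⟨hF, hH⟩
  refine minNonOneGen_of_pv hPV ?_ ?_
  · intro h1
    obtain ⟨G₀, _, hfin, hG₀, hlaws⟩ := h1.laws
    have : Fact p.Prime := ⟨hp⟩
    have hnil : Group.IsNilpotent G₀ := (hpg G₀ hG₀).isNilpotent
    have hsol : Group.IsSolvable G₀ := soluble_pgroups hPV hp hpg G₀ hG₀
    obtain ⟨d, hd'⟩ := hsol.solvable
    refine hd ⟨d, fun G _ hG => ?_⟩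
    have : Finite G := hPV.fin hG
    exact solv_of_laws (hlaws G hG) hd'
  · intro H hH hle hnle
    obtain ⟨c, hc⟩ := hmin H (pv_iff.2 hH).1 (pv_iff.2 hH).2 hle hnle
    exact oneGen_of_pgroups hH hp (fun G _ hG => hpg G (hle G hG)) he
      (fun G _ hG => hexp G (hle G hG)) hc

theorem soluble_exotic (h : Exotic F) : Soluble F := by
  obtain ⟨hF, hH, p, hp, hpg, _⟩ := h
  exact soluble_pgroups (pv_iff.1 ⟨hF, hH⟩) hp hpg

end Pool.Agent.HForm
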