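import Pool.Agent.Lib_MP_4009a7_al.FoxL

/-!
# Piece MOM: commutative unipotent actions which satisfy a word
-/

set_option autoImplicit false

open scoped commutatorElement

namespace Pool.Agent.HForm

/-- the class of the finite elementary abelian `p`-groups -/
def A1 (p : ℕ) : GClass := fun G _ => Finite G ∧ ElAb p G

/-- exponent sums -/
private noncomputable def momM {n : ℕ} (g : FreeGroup (Fin n)) (k : Fin n) : ℤ :=
  Multiplicative.toAdd
    (FreeGroup.lift (fun j => Multiplicative.ofAdd (if j = k then (1 : ℤ) else 0)) g)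

private theorem mom_lift {n : ℕ} {X : Type*} [CommGroup X] (t : Fin n → X)
    (g : FreeGroup (Fin n)) : FreeGroup.lift t g = ∏ k, t k ^ momM g k := by
  have h : FreeGroup.lift t = ∏ k, (zpowersHom X (t k)).comp
      (FreeGroup.lift (fun j => Multiplicative.ofAdd (if j = k then (1 : ℤ) else 0))) := by
    ext j
    simp [zpowersHom_apply, MonoidHom.finsetProd_apply]
  rw [h]
  simp [momM, zpowersHom_apply, MonoidHom.finsetProd_apply]

private theorem mom_eqv {p : ℕ} (hp : p.Prime) {n : ℕ} (g g' : FreeGroup (Fin n)) :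
    Eqv (A1 p) g g' ↔ ∀ k, ((momM g k : ℤ) : ZMod p) = ((momM g' k : ℤ) : ZMod p) := by
  have : Fact p.Prime := ⟨hp⟩
  constructor
  · intro h k
    have hX : A1 p (Multiplicative (ZMod p)) := by
      refine ⟨inferInstance, fun x y => mul_comm x y, fun x => ?_⟩
      apply Multiplicative.toAdd.injective
      rw [toAdd_pow, toAdd_one]
      simp
    have h1 := h (Multiplicative (ZMod p)) hX
      (fun j => Multiplicative.ofAdd (if j = k then (1 : ZMod p) else 0))
    rw [mom_lift, mom_lift] at h1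
    have h2 := congrArg Multiplicative.toAdd h1
    simpa [toAdd_prod, toAdd_zpow] using h2
  · intro h X _ hX t
    let _ : CommGroup X := { (inferInstance : Group X) with mul_comm := hX.2.1 }
    have e1 := mom_lift t g
    have e2 := mom_lift t g'
    refine e1.trans (Eq.trans ?_ e2.symm)
    refine Finset.prod_congr rfl fun k _ => ?_
    have h3 := (ZMod.intCast_eq_intCast_iff_dvd_sub _ _ _).1 (h k)
    obtain ⟨q, hq⟩ := h3
    have h4 : momM g' k = momM g k + p * q := by linarith
    rw [h4, zpow_add, zpow_mul, zpow_natCast, hX.2.2 (t k), one_zpow, mul_one]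

/-- units which are unipotent -/
private theorem mom_geom {A : Type*} [CommRing A] (u : Aˣ) (hu : IsNilpotent ((u : A) - 1))
    (m : ℤ) : ∃ w : A, ((u ^ m : Aˣ) : A) - 1 = ((u : A) - 1) * w ∧
      IsNilpotent (w - (m : A)) := by
  induction m using Int.induction_on with
  | zero => exact ⟨0, by simp, by simp⟩
  | succ m ih =>
    obtain ⟨w, hw, hw'⟩ := ih
    refine ⟨u * w + 1, ?_, ?_⟩
    · rw [zpow_add_one, Units.val_mul]
      linear_combination (u : A) * hw
    · have e : (u : A) * w + 1 - (((m : ℤ) + 1 : ℤ) : A) = ((u : A) - 1) * w + (w - ((m : ℤ) : A)) := by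
        push_cast
        ring
      rw [e]
      exact Commute.isNilpotent_add (Commute.all _ _) (Commute.isNilpotent_mul_right (Commute.all _ _) hu) hw'
  | pred m ih =>
    obtain ⟨w, hw, hw'⟩ := ih
    have hinv : ((u⁻¹ : Aˣ) : A) * u = 1 := by simp
    refine ⟨((u⁻¹ : Aˣ) : A) * (w - 1), ?_, ?_⟩
    · rw [zpow_sub_one, Units.val_mul]
      linear_combination ((u⁻¹ : Aˣ) : A) * hw + (1 : A) * hinv
    · have e : ((u⁻¹ : Aˣ) : A) * (w - 1) - ((-(m : ℤ) - 1 : ℤ) : A) =
          ((u⁻¹ : Aˣ) : A) * ((w - ((-(m : ℤ) : ℤ) : A)) - ((u : A) - 1) * (-(m : A) - 1)) := by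
        push_cast
        linear_combination (-(m : A) - 1) * hinv
      rw [e]
      refine Commute.isNilpotent_mul_left (Commute.all _ _) ?_
      exact Commute.isNilpotent_sub (Commute.all _ _) hw' (Commute.isNilpotent_mul_right (Commute.all _ _) hu)


private theorem mom_core {p : ℕ} [Fact p.Prime] {n : ℕ} {A : Type} [CommRing A]
    [Algebra (ZMod p) A] {H : Type} [Group H] (u : H →* Aˣ)
    (hu : ∀ a, IsNilpotent (((u a : Aˣ) : A) - 1)) (c : FreeGroup (Fin n) →₀ ℤ)
    (hc : ∀ t : Fin n → H,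
      ∑ g ∈ c.support, ((c g : ℤ) : A) * ((u (FreeGroup.lift t g) : Aˣ) : A) = 0)
    {ι : Type} [DecidableEq ι] (J : Finset ι) (κ : ι → Fin n) (h : ι → H)
    (hM : ∑ g ∈ c.support, ((c g : ℤ) : ZMod p) *
      ∏ x ∈ J, ((momM g (κ x) : ℤ) : ZMod p) ≠ 0) :
    ∏ x ∈ J, (((u (h x) : Aˣ) : A) - 1) = 0 := by
  classical
  -- evaluation at the products over subsets
  have h1 : ∀ S ∈ J.powerset, ∑ g ∈ c.support, ((c g : ℤ) : A) *
      ∏ x ∈ S, (((u (h x)) ^ momM g (κ x) : Aˣ) : A) = 0 := by
    intro S hS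
    rw [Finset.mem_powerset] at hS
    have h2 := hc (fun k => (J.toList.map (fun x => if κ x = k ∧ x ∈ S then h x else 1)).prod)
    rw [← h2]
    refine Finset.sum_congr rfl fun g _ => ?_
    congr 1
    have h3 : u.comp (FreeGroup.lift
        (fun k => (J.toList.map (fun x => if κ x = k ∧ x ∈ S then h x else 1)).prod)) =
        FreeGroup.lift (fun k => ∏ x ∈ J, if κ x = k ∧ x ∈ S then u (h x) else 1) := by
      ext k : 1
      rw [MonoidHom.comp_apply, FreeGroup.lift_apply_of, FreeGroup.lift_apply_of, map_list_prod,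
        List.map_map, ← Finset.prod_map_toList]
      congr 1
      refine List.map_congr_left fun x _ => ?_
      simp only [Function.comp]
      split_ifs <;> simp
    have h4 : u (FreeGroup.lift
        (fun k => (J.toList.map (fun x => if κ x = k ∧ x ∈ S then h x else 1)).prod) g) =
        ∏ x ∈ S, (u (h x)) ^ momM g (κ x) := by
      rw [← MonoidHom.comp_apply, h3, mom_lift]
      simp_rw [← Finset.prod_zpow]
      rw [Finset.prod_comm, ← Finset.prod_subset hS]
      · refine Finset.prod_congr rfl fun x hx => ?_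
        rw [Finset.prod_eq_single (κ x)]
        · simp [hx]
        · intro k _ hk
          rw [if_neg (fun hh => hk hh.1.symm), one_zpow]
        · intro hh
          exact absurd (Finset.mem_univ _) hh
      · intro x _ hx
        refine Finset.prod_eq_one fun k _ => ?_
        rw [if_neg (fun hh => hx hh.2), one_zpow]
    rw [h4, Units.coe_prod]
  -- the alternating sum
  have h5 : ∑ g ∈ c.support, ((c g : ℤ) : A) *
      ∏ x ∈ J, ((((u (h x)) ^ momM g (κ x) : Aˣ) : A) - 1) = 0 := by
    have h6 : ∀ g, ∏ x ∈ J, ((((u (h x)) ^ momM g (κ x) : Aˣ) : A) - 1) =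
        ∑ S ∈ J.powerset, (∏ x ∈ S, (((u (h x)) ^ momM g (κ x) : Aˣ) : A)) *
          ∏ x ∈ J \ S, (-1 : A) := by
      intro g
      rw [← Finset.prod_add]
      refine Finset.prod_congr rfl fun x _ => ?_
      ring
    simp_rw [h6, Finset.mul_sum]
    rw [Finset.sum_comm]
    refine Finset.sum_eq_zero fun S hS => ?_
    simp_rw [← mul_assoc]
    rw [← Finset.sum_mul, h1 S hS, zero_mul]
  choose W hW hW' using fun (g : FreeGroup (Fin n)) (x : ι) =>
    mom_geom (u (h x)) (hu (h x)) (momM g (κ x))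
  have h7 : (∏ x ∈ J, (((u (h x) : Aˣ) : A) - 1)) *
      ∑ g ∈ c.support, ((c g : ℤ) : A) * ∏ x ∈ J, W g x = 0 := by
    rw [← h5, Finset.mul_sum]
    refine Finset.sum_congr rfl fun g _ => ?_
    have h8 : ∏ x ∈ J, ((((u (h x)) ^ momM g (κ x) : Aˣ) : A) - 1) =
        (∏ x ∈ J, (((u (h x) : Aˣ) : A) - 1)) * ∏ x ∈ J, W g x := by
      rw [← Finset.prod_mul_distrib]
      exact Finset.prod_congr rfl fun x _ => hW g x
    rw [h8]
    ring
  set M : ZMod p := ∑ g ∈ c.support, ((c g : ℤ) : ZMod p) *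
      ∏ x ∈ J, ((momM g (κ x) : ℤ) : ZMod p) with hMdef
  have h9 : IsUnit (∑ g ∈ c.support, ((c g : ℤ) : A) * ∏ x ∈ J, W g x) := by
    have h10 : IsNilpotent (∑ g ∈ c.support, ((c g : ℤ) : A) * ∏ x ∈ J, W g x -
        algebraMap (ZMod p) A M) := by
      rw [← mem_nilradical, ← Ideal.Quotient.eq, hMdef, map_sum, map_sum, map_sum]
      refine Finset.sum_congr rfl fun g _ => ?_
      rw [map_mul, map_mul, map_mul, map_prod, map_prod, map_prod]
      congr 1
      · simp
      · refine Finset.prod_congr rfl fun x _ => ?_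
        rw [map_intCast, Ideal.Quotient.eq, mem_nilradical]
        exact hW' g x
    have h11 : IsUnit (algebraMap (ZMod p) A M) := (IsUnit.mk0 M hM).map _
    have h12 := h10.isUnit_add_left_of_commute h11 (Commute.all _ _)
    rwa [add_sub_cancel] at h12
  exact (h9.mul_left_eq_zero).1 h7

open Classical in
private theorem mom_exists {p : ℕ} [hp : Fact p.Prime] {n : ℕ} (c : FreeGroup (Fin n) →₀ ℤ)
    (g₁ : FreeGroup (Fin n))
    (hne : ∑ g ∈ c.support.filter (fun g => Eqv (A1 p) g g₁), ((c g : ℤ) : ZMod p) ≠ 0) :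
    ∃ α : Fin n → ℕ, (∀ k, α k < p) ∧ ∑ g ∈ c.support, ((c g : ℤ) : ZMod p) *
      ∏ k, ((momM g k : ℤ) : ZMod p) ^ α k ≠ 0 := by
  by_contra hcon
  push Not at hcon
  apply hne
  set f : MvPolynomial (Fin n) (ZMod p) :=
    MvPolynomial.indicator (fun k => ((momM g₁ k : ℤ) : ZMod p)) with hf
  have h1 : ∑ g ∈ c.support, ((c g : ℤ) : ZMod p) *
      MvPolynomial.eval (fun k => ((momM g k : ℤ) : ZMod p)) f = 0 := by
    simp_rw [MvPolynomial.eval_eq', Finset.mul_sum]
    rw [Finset.sum_comm]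
    refine Finset.sum_eq_zero fun d hd => ?_
    have h2 : ∀ k, d k < p := by
      intro k
      have h3 := (MvPolynomial.mem_restrictDegree _ _ _).1
        (MvPolynomial.indicator_mem_restrictDegree
          (fun k => ((momM g₁ k : ℤ) : ZMod p))) d hd k
      rw [ZMod.card] at h3
      have := hp.out.pos
      omega
    have h4 := hcon d h2
    calc ∑ g ∈ c.support, ((c g : ℤ) : ZMod p) *
          (MvPolynomial.coeff d f * ∏ k, ((momM g k : ℤ) : ZMod p) ^ d k)
        = MvPolynomial.coeff d f * ∑ g ∈ c.support, ((c g : ℤ) : ZMod p) *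
          ∏ k, ((momM g k : ℤ) : ZMod p) ^ d k := by
          rw [Finset.mul_sum]
          exact Finset.sum_congr rfl fun g _ => by ring
      _ = 0 := by rw [h4, mul_zero]
  rw [← h1, Finset.sum_filter]
  refine Finset.sum_congr rfl fun g _ => ?_
  by_cases hg : Eqv (A1 p) g g₁
  · rw [if_pos hg]
    have h5 : (fun k => ((momM g k : ℤ) : ZMod p)) = fun k => ((momM g₁ k : ℤ) : ZMod p) :=
      funext fun k => (mom_eqv hp.out g g₁).1 hg k
    rw [h5, hf, MvPolynomial.eval_indicator_apply_eq_one, mul_one]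
  · rw [if_neg hg]
    have h5 : (fun k => ((momM g k : ℤ) : ZMod p)) ≠ fun k => ((momM g₁ k : ℤ) : ZMod p) :=
      fun hh => hg ((mom_eqv hp.out g g₁).2 fun k => congrFun hh k)
    rw [hf, MvPolynomial.eval_indicator_apply_eq_zero _ _ h5, mul_zero]

/-- Let `ρ` be a representation with commutative image, `ρ a` of `p`-power order, which satisfies `w`; suppose that some
coefficient of some Fox derivative of `w` in the group ring `F_p[(Z/p)^n]` is nonzero. Then products of `n * p` operators `ρ a - 1` vanish.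
PROOF. For `g` let `m g : Fin n → ℤ` be the exponent sums. `Eqv (A1 p) g g'` iff `m g ≡ m g'` modulo `p`. Write `c g = fox i w g`. The function
`C : (Fin n → ZMod p) → ZMod p`, `C μ = ∑_{g : m g ≡ μ} c g` is not zero by `hne` (at `μ = m g₁`). As the monomials
`∏ μ_k ^ α_k`, `0 ≤ α_k ≤ p - 1`, span all functions on `(ZMod p)^n`, there is `α : Fin n → ℕ`, `α k ≤ p - 1` with
`M = ∑_μ C μ ∏_k μ_k ^ α_k ≠ 0` (convention `0 ^ 0 = 1`), that is `M = ∑_g c g ∏_k (m g k) ^ α k ≠ 0` in `ZMod p`.
Let `h k j` (`k : Fin n`, `j < α k`) be any elements of `H`. For subsets `S k ⊆ range (α k)` let `t k = ∏_{j ∈ S k} h k j`. By hypothesis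
`∑_g c g ρ (lift t g) = 0`, and `ρ (lift t g) = ∏_k ρ (t k) ^ (m g k)` (commutative image). Taking the alternating sum over all `(S k)` with
signs `∏_k (-1) ^ (α k - |S k|)` gives `∑_g c g ∏_k ∏_{j < α k} (ρ (h k j) ^ (m g k) - 1) = 0`. Let `Δ` be the ideal generated by all
`ρ a - 1` in the commutative subring generated by the image; it is nilpotent... (finitely generated case: restrict to the group generated by the
`n * p` given elements: each `ρ a - 1` is nilpotent as `(ρ a - 1) ^ (p^e) = ρ a ^ (p^e) - 1 = 0` in characteristic `p`.) Modulo `Δ^(|α| + 1)`: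
`ρ h ^ m - 1 ≡ m (ρ h - 1)` modulo `Δ^2`, so `M * ∏_{k,j} (ρ (h k j) - 1) ∈ Δ^(|α|+1)`. So `Δ^|α| ≤ Δ^(|α|+1)`, hence `Δ^|α| = 0`
(nilpotent), and `|α| ≤ n * (p - 1) ≤ n * p`. -/
theorem comm_nilp {p : ℕ} (hp : p.Prime) {n : ℕ} (w : FreeGroup (Fin n)) (i : Fin n) (g₁ : FreeGroup (Fin n))
    (hne : open Classical in
      ∑ g ∈ (fox i w).support.filter (fun g => Eqv (A1 p) g g₁), ((fox i w g : ℤ) : ZMod p) ≠ 0)
    {H V : Type} [Group H] [AddCommGroup V] [Module (ZMod p) V] (ρ : H →* Module.End (ZMod p) V)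
    (hab : ∀ a b, ρ (a * b) = ρ (b * a)) (hord : ∀ a, ∃ k : ℕ, ρ a ^ (p ^ k) = 1)
    (hw : ∀ t : Fin n → H, ev ρ t (fox i w) = 0) (a : Fin (n * p) → H) :
    (List.ofFn (fun j => ρ (a j) - 1)).prod = 0 := by
  classical
  have : Fact p.Prime := ⟨hp⟩
  obtain ⟨α, hα, hM⟩ := mom_exists (fox i w) g₁ hne
  have hs : ∀ x ∈ Set.range ρ, ∀ y ∈ Set.range ρ, x * y = y * x := by
    rintro _ ⟨x, rfl⟩ _ ⟨y, rfl⟩
    rw [← map_mul, ← map_mul, hab]
  let _ : CommRing (Algebra.adjoin (ZMod p) (Set.range ρ)) :=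
    { (Algebra.adjoin (ZMod p) (Set.range ρ)).toRing with
      mul_comm := (Algebra.isMulCommutative_adjoin (ZMod p) hs).is_comm.comm }
  let v : H →* Algebra.adjoin (ZMod p) (Set.range ρ) :=
    { toFun := fun h => ⟨ρ h, Algebra.subset_adjoin ⟨h, rfl⟩⟩
      map_one' := Subtype.ext (map_one ρ)
      map_mul' := fun x y => Subtype.ext (map_mul ρ x y) }
  have hv : ∀ h, ((v h : Algebra.adjoin (ZMod p) (Set.range ρ)) : Module.End (ZMod p) V) = ρ h :=
    fun h => rfl
  have hu : ∀ h, IsNilpotent (((v.toHomUnits h : (Algebra.adjoin (ZMod p) (Set.range ρ))ˣ) :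
      Algebra.adjoin (ZMod p) (Set.range ρ)) - 1) := by
    intro h
    rw [MonoidHom.coe_toHomUnits]
    rcases subsingleton_or_nontrivial (Algebra.adjoin (ZMod p) (Set.range ρ)) with hA | hA
    · rw [Subsingleton.elim (v h - 1) 0]
      exact IsNilpotent.zero
    · have : CharP (Algebra.adjoin (ZMod p) (Set.range ρ)) p :=
        charP_of_injective_algebraMap
          (algebraMap (ZMod p) (Algebra.adjoin (ZMod p) (Set.range ρ))).injective p
      obtain ⟨k, hk⟩ := hord h
      refine ⟨p ^ k, ?_⟩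
      rw [sub_pow_char_pow, one_pow, sub_eq_zero]
      exact Subtype.ext hk
  have hc : ∀ t : Fin n → H, ∑ g ∈ (fox i w).support,
      (((fox i w g : ℤ)) : Algebra.adjoin (ZMod p) (Set.range ρ)) *
      ((v.toHomUnits (FreeGroup.lift t g) : (Algebra.adjoin (ZMod p) (Set.range ρ))ˣ) :
        Algebra.adjoin (ZMod p) (Set.range ρ)) = 0 := by
    intro t
    apply Subtype.ext
    have h1 := hw t
    unfold ev Finsupp.sum at h1
    refine Eq.trans ?_ h1
    rw [AddSubmonoidClass.coe_finsetSum]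
    refine Finset.sum_congr rfl fun g _ => ?_
    rw [MonoidHom.coe_toHomUnits]
    change _ = (fox i w g) • ρ (FreeGroup.lift t g)
    rw [zsmul_eq_mul]
    rfl
  have key := mom_core (p := p) v.toHomUnits hu (fox i w) hc
    (Finset.univ.filter fun x : Fin n × Fin p => (x.2 : ℕ) < α x.1) Prod.fst
    (fun x => a (finProdFinEquiv x)) (by
      refine fun h0 => hM ?_
      rw [← h0]
      refine Finset.sum_congr rfl fun g _ => ?_
      congr 1
      rw [Finset.prod_filter, Fintype.prod_prod_type]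
      refine Finset.prod_congr rfl fun k _ => ?_
      rw [← Finset.prod_filter]
      change _ = ∏ b ∈ Finset.univ.filter (fun b : Fin p => (b : ℕ) < α k),
        ((momM g k : ℤ) : ZMod p)
      rw [Finset.prod_const]
      congr 1
      rw [Fin.card_filter_val_lt]
      exact (min_eq_right (hα k).le).symm)
  have h2 : ∏ x : Fin n × Fin p, (((v.toHomUnits (a (finProdFinEquiv x)) :
      (Algebra.adjoin (ZMod p) (Set.range ρ))ˣ) : Algebra.adjoin (ZMod p) (Set.range ρ)) - 1) = 0 := by
    rw [← Finset.prod_filter_mul_prod_filter_not Finset.univ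
      (fun x : Fin n × Fin p => (x.2 : ℕ) < α x.1), key, zero_mul]
  rw [Equiv.prod_comp finProdFinEquiv (fun j => (((v.toHomUnits (a j) :
      (Algebra.adjoin (ZMod p) (Set.range ρ))ˣ) : Algebra.adjoin (ZMod p) (Set.range ρ)) - 1)),
      ← List.prod_ofFn] at h2
  have h3 := congrArg (Algebra.adjoin (ZMod p) (Set.range ρ)).val h2
  rw [map_list_prod, List.map_ofFn, map_zero] at h3
  exact h3

end Pool.Agent.HForm
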