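import Pool.Agent.Lib_MP_4009a7_al.OGB
import Pool.Agent.Lib_MP_4009a7_al.MC

/-!
# Piece NILB: nilpotency classes in one-generated formations; finitely generated subgroups of large class
-/

set_option autoImplicit false

open scoped commutatorElement

namespace Pool.Agent.HForm

variable {F : GClass}

/-- the finite groups whose `p`-subgroups have class at most `c`, for all primes `p` -/
private def NbC (c : ℕ) : GClass := fun G _ => Finite G ∧ ∀ p : ℕ, p.Prime → ∀ P : Subgroup G,
  IsPGroup p P → P.lowerCentralSeries c = ⊥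

private theorem nb_ker {c p : ℕ} (hp : p.Prime) {G H : Type} [Group G] [Group H] (f : G →* H)
    (h : NbC c H) (P : Subgroup G) (hP : IsPGroup p P) : P.lowerCentralSeries c ≤ f.ker := by
  have h1 := h.2 p hp (P.map f) (hP.map f)
  rw [← Subgroup.map_lowerCentralSeries] at h1
  intro x hx
  have h2 : f x ∈ (P.lowerCentralSeries c).map f := ⟨x, hx, rfl⟩
  rw [h1, Subgroup.mem_bot] at h2
  exact h2

private theorem nb_surj {c : ℕ} {G H : Type} [Group G] [Group H] (f : G →* H)
    (hf : Function.Surjective f) (h : NbC c G) : NbC c H := by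
  have hfin := h.1
  refine ⟨Finite.of_surjective f hf, fun p hp P hP => ?_⟩
  have : Fact p.Prime := ⟨hp⟩
  have hg := f.subgroupComap_surjective_of_surjective P hf
  obtain ⟨S⟩ : Nonempty (Sylow p (P.comap f)) := Sylow.nonempty
  have h1 : (S : Subgroup (P.comap f)).map (f.subgroupComap P) = ⊤ := by
    have h2 := (S.mapSurjective hg).is_maximal' (hP.to_subgroup ⊤) le_top
    exact h2.symm
  have h3 : P = ((S : Subgroup (P.comap f)).map (P.comap f).subtype).map f := by
    rw [Subgroup.map_map]
    have e : f.comp (P.comap f).subtype = P.subtype.comp (f.subgroupComap P) := by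
      ext x
      rfl
    rw [e, ← Subgroup.map_map, h1, ← MonoidHom.range_eq_map, Subgroup.range_subtype]
  have h4 := h.2 p hp ((S : Subgroup (P.comap f)).map (P.comap f).subtype)
    (S.isPGroup'.map (P.comap f).subtype)
  rw [h3, ← Subgroup.map_lowerCentralSeries, h4, Subgroup.map_bot]

private theorem nb_pv (c : ℕ) : PV (NbC c) where
  fin h := h.1
  one := ⟨inferInstance, fun p hp P hP => Subsingleton.elim _ _⟩
  surj f hf h := nb_surj f hf h
  inj := by
    intro G H _ _ f hf h
    have hfin := h.1
    refine ⟨Finite.of_injective f hf, fun p hp P hP => ?_⟩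
    have h1 := nb_ker hp f h P hP
    rw [(MonoidHom.ker_eq_bot_iff f).2 hf] at h1
    exact le_bot_iff.1 h1
  prod := by
    intro G H _ _ h1 h2
    have := h1.1
    have := h2.1
    refine ⟨inferInstance, fun p hp P hP => ?_⟩
    rw [eq_bot_iff]
    intro x hx
    have h3 := nb_ker hp (MonoidHom.fst G H) h1 P hP hx
    have h4 := nb_ker hp (MonoidHom.snd G H) h2 P hP hx
    rw [Subgroup.mem_bot]
    exact Prod.ext h3 h4

private theorem nb_exists (G : Type) [Group G] [Finite G] : ∃ c : ℕ, NbC c G := by
  classical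
  have : Fintype (Subgroup G) := Fintype.ofFinite _
  have h1 : ∀ P : Subgroup G, ∃ n : ℕ, (∃ p : ℕ, p.Prime ∧ IsPGroup p P) →
      P.lowerCentralSeries n = ⊥ := by
    intro P
    by_cases h : ∃ p : ℕ, p.Prime ∧ IsPGroup p P
    · obtain ⟨p, hp, hP⟩ := h
      have : Fact p.Prime := ⟨hp⟩
      obtain ⟨n, hn⟩ := (Subgroup.isNilpotent_iff_lowerCentralSeries P).1 hP.isNilpotent
      exact ⟨n, fun _ => hn⟩
    · exact ⟨0, fun h' => absurd h' h⟩
  choose n hn using h1
  refine ⟨Finset.univ.sup n, inferInstance, fun p hp P hP => ?_⟩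
  have h2 := P.lowerCentralSeries_antitone (Finset.le_sup (f := n) (Finset.mem_univ P))
  rw [hn P ⟨p, hp, hP⟩] at h2
  exact le_bot_iff.1 h2

/-- PROOF. Let `F = form G₀`. The class of the finite groups whose `p`-subgroups (for all primes `p`) have class at most `c` is closed under
quotients (a `p`-subgroup of `G ⧸ N` is the image of a Sylow subgroup of its preimage), subgroups and products, so it is a formation. It contains `G₀` for large
`c`, so it contains `F`. -/
theorem OneGen.nil (h : OneGen F) : ∃ c : ℕ, NilLe F c := by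
  obtain ⟨G₀, i₀, hfin, hF⟩ := h
  obtain ⟨c, hc⟩ := nb_exists G₀
  refine ⟨c, fun G _ hG p hp hGp => ?_⟩
  exact ((hF G).1 hG _ (pv_iff.2 (nb_pv c)).1 hc).2 p hp ⊤ (hGp.to_subgroup ⊤)

private theorem nb_map {T S : Type} [Group T] [Group S] (f : T →* S) (ys : List T) :
    ∀ x : T, mc (f x) (ys.map f) = f (mc x ys) := by
  induction ys with
  | nil => intro x; rfl
  | cons y ys ih =>
    intro x
    change mc ⁅f x, f y⁆ (ys.map f) = f (mc ⁅x, y⁆ ys)
    rw [← map_commutatorElement, ih]

private theorem nb_one {T : Type} [Group T] (ys : List T) : mc (1 : T) ys = 1 := by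
  induction ys with
  | nil => rfl
  | cons y ys ih =>
    change mc ⁅(1 : T), y⁆ ys = 1
    rw [commutatorElement_one_left, ih]

private theorem nb_vanish {T : Type} [Group T] {d : ℕ}
    (h : (⊤ : Subgroup T).lowerCentralSeries (d + 1) = ⊥)
    (hD : ∀ (x : T) (ys : List T), ys.length = d → mc x ys = 1) :
    ∀ i : ℕ, ∀ x ∈ (⊤ : Subgroup T).lowerCentralSeries i, ∀ ys : List T,
      i + ys.length = d → mc x ys = 1 := by
  intro i
  induction i with
  | zero =>
    intro x _ ys hl
    exact hD x ys (by omega)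
  | succ i ih =>
    intro x hx ys hl
    rw [Subgroup.mem_lowerCentralSeries_succ_iff] at hx
    have key : x ∈ (⊤ : Subgroup T).lowerCentralSeries (i + 1) ∧ mc x ys = 1 := by
      induction hx using Subgroup.closure_induction with
      | mem x hx =>
        obtain ⟨p, hp, q, hq, rfl⟩ := hx
        refine ⟨Subgroup.commutator_mem_commutator hp hq, ?_⟩
        refine ih p hp (q :: ys) ?_
        rw [List.length_cons]
        omega
      | one => exact ⟨one_mem _, nb_one ys⟩
      | mul x y _ _ hx hy =>
        refine ⟨mul_mem hx.1 hy.1, ?_⟩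
        rw [mc_mul h ys (by omega) x y hx.1 hy.1, hx.2, hy.2, mul_one]
      | inv x _ hx =>
        refine ⟨inv_mem hx.1, ?_⟩
        have h1 := mc_mul h ys (by omega) x⁻¹ x (inv_mem hx.1) hx.1
        rw [inv_mul_cancel, nb_one, hx.2, mul_one] at h1
        exact h1.symm
    exact key.2

/-- PROOF. Let `T` have class exactly `c + 1` (`lcs (c + 1) = ⊥`, `lcs c ≠ ⊥`). By `mc_mul` etc. (see the proof of `exists_comm_form` for `c + 1` instead of `c`, and `D = ⊤`): there are `v : Fin (c + 1) → T` with `mc (v 0) [v 1, ..., v c] ≠ 1`, and this element is in `lowerCentralSeries c` of the subgroup generated by the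
`v i` (`mc_mem` in the subgroup). -/
theorem exists_gen_class {T : Type} [Group T] {c : ℕ} (h : (⊤ : Subgroup T).lowerCentralSeries (c + 1) = ⊥)
    (h' : (⊤ : Subgroup T).lowerCentralSeries c ≠ ⊥) :
    ∃ v : Fin (c + 1) → T,
      (⊤ : Subgroup (Subgroup.closure (Set.range v))).lowerCentralSeries c ≠ ⊥ := by
  by_contra hcon
  push Not at hcon
  refine h' ?_
  rw [eq_bot_iff]
  intro x hx
  refine Subgroup.mem_bot.2 (nb_vanish h (fun x ys hl => ?_) c x hx [] (by simp))
  subst hl
  have h3 := hcon (Fin.cons x fun i : Fin ys.length => ys.get i)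
  set v : Fin (ys.length + 1) → T := Fin.cons x fun i : Fin ys.length => ys.get i with hvdef
  have hv : ∀ i, v i ∈ Subgroup.closure (Set.range v) := fun i =>
    Subgroup.subset_closure ⟨i, rfl⟩
  have h4 := mc_mem (j := 0) (List.ofFn fun i : Fin ys.length =>
    (⟨v i.succ, hv i.succ⟩ : Subgroup.closure (Set.range v))) ⟨v 0, hv 0⟩ (Subgroup.mem_top _)
  rw [List.length_ofFn, Nat.zero_add, h3, Subgroup.mem_bot] at h4
  have h5 := nb_map (Subgroup.closure (Set.range v)).subtype (List.ofFn fun i : Fin ys.length =>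
    (⟨v i.succ, hv i.succ⟩ : Subgroup.closure (Set.range v))) ⟨v 0, hv 0⟩
  rw [h4, map_one, List.map_ofFn] at h5
  have h6 : (List.ofFn ((Subgroup.closure (Set.range v)).subtype ∘ fun i : Fin ys.length =>
      (⟨v i.succ, hv i.succ⟩ : Subgroup.closure (Set.range v)))) = ys := by
    have h7 : ((Subgroup.closure (Set.range v)).subtype ∘ fun i : Fin ys.length =>
      (⟨v i.succ, hv i.succ⟩ : Subgroup.closure (Set.range v))) = fun i => ys.get i := by
      funext i
      change v i.succ = ys.get i
      rw [hvdef, Fin.cons_succ]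
    rw [h7, List.ofFn_get]
  rw [h6] at h5
  exact h5

end Pool.Agent.HForm
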