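import Pool.Agent.Lib_MP_4009a7_al.PVBasic
import Pool.Agent.Lib_MP_4009a7_al.Gas

/-!
# Piece OG: finitely generated pseudovarieties are one-generated formations
-/

set_option autoImplicit false

namespace Pool.Agent.HForm

variable {F : GClass}

/-- the homomorphism from the free group to the power of `G₀` -/
noncomputable def OGL (G₀ : Type) [Group G₀] (n : ℕ) :
    FreeGroup (Fin n) →* ((Fin n → G₀) → G₀) :=
  FreeGroup.lift (fun (i : Fin n) (t : Fin n → G₀) => t i)

/-- the relatively free group of rank `n` -/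
noncomputable def OGR (G₀ : Type) [Group G₀] (n : ℕ) : Subgroup ((Fin n → G₀) → G₀) :=
  (OGL G₀ n).range

/-- the projection of the free group onto the relatively free group -/
noncomputable def OGp (G₀ : Type) [Group G₀] (n : ℕ) : FreeGroup (Fin n) →* OGR G₀ n :=
  (OGL G₀ n).rangeRestrict

theorem OGp_surj (G₀ : Type) [Group G₀] (n : ℕ) : Function.Surjective (OGp G₀ n) :=
  MonoidHom.rangeRestrict_surjective _

theorem OG_map_lift {n : ℕ} {A B : Type} [Group A] [Group B] (f : A →* B) (s : Fin n → A)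
    (w : FreeGroup (Fin n)) :
    f (FreeGroup.lift s w) = FreeGroup.lift (fun i => f (s i)) w := by
  have h : f.comp (FreeGroup.lift s) = FreeGroup.lift (fun i => f (s i)) := by
    ext i
    simp
  exact DFunLike.congr_fun h w

theorem OGp_apply {G₀ : Type} [Group G₀] {n : ℕ} (w : FreeGroup (Fin n)) (t : Fin n → G₀) :
    (OGp G₀ n w : (Fin n → G₀) → G₀) t = FreeGroup.lift t w := by
  have h := OG_map_lift (Pi.evalMonoidHom (fun _ : Fin n → G₀ => G₀) t)
    (fun (i : Fin n) (t : Fin n → G₀) => t i) w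
  exact h

theorem OG_lift_surj {n : ℕ} {H : Type} [Group H] (h : Fin n → H)
    (hc : Subgroup.closure (Set.range h) = ⊤) : Function.Surjective (FreeGroup.lift h) := by
  rw [← MonoidHom.range_eq_top, eq_top_iff, ← hc, Subgroup.closure_le]
  rintro _ ⟨i, rfl⟩
  exact ⟨FreeGroup.of i, by simp⟩

theorem OG_hom {G₀ : Type} [Group G₀] {n : ℕ} {H : Type} [Group H]
    (hl : ∀ w : FreeGroup (Fin n), Law w G₀ → Law w H) (h : Fin n → H) :
    ∃ ψ : OGR G₀ n →* H, ∀ w, ψ (OGp G₀ n w) = FreeGroup.lift h w := by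
  have hker : (OGp G₀ n).ker ≤ (FreeGroup.lift h).ker := by
    intro w hw
    rw [MonoidHom.mem_ker] at hw ⊢
    refine hl w ?_ h
    intro t
    rw [← OGp_apply, hw]
    rfl
  refine ⟨(QuotientGroup.lift (OGp G₀ n).ker (FreeGroup.lift h) hker).comp
    (QuotientGroup.quotientKerEquivOfSurjective (OGp G₀ n) (OGp_surj G₀ n)).symm.toMonoidHom, ?_⟩
  intro w
  have h1 : (QuotientGroup.quotientKerEquivOfSurjective (OGp G₀ n) (OGp_surj G₀ n)).symm
      (OGp G₀ n w) = (w : FreeGroup (Fin n) ⧸ (OGp G₀ n).ker) := by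
    rw [MulEquiv.symm_apply_eq]
    rfl
  show QuotientGroup.lift (OGp G₀ n).ker (FreeGroup.lift h) hker
    ((QuotientGroup.quotientKerEquivOfSurjective (OGp G₀ n) (OGp_surj G₀ n)).symm
      (OGp G₀ n w)) = _
  rw [h1]
  rfl

theorem OG_hom_surj {G₀ : Type} [Group G₀] {n : ℕ} {H : Type} [Group H]
    {h : Fin n → H} (hc : Subgroup.closure (Set.range h) = ⊤) {ψ : OGR G₀ n →* H}
    (hψ : ∀ w, ψ (OGp G₀ n w) = FreeGroup.lift h w) : Function.Surjective ψ := by
  intro y
  obtain ⟨w, hw⟩ := OG_lift_surj h hc y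
  exact ⟨OGp G₀ n w, by rw [hψ, hw]⟩

theorem OG_surj {A : Type} [Finite A] [Nonempty A] {n : ℕ} (hn : Nat.card A ≤ n) :
    ∃ f : Fin n → A, Function.Surjective f := by
  classical
  have e := Finite.equivFin A
  refine ⟨fun i => if hi : (i : ℕ) < Nat.card A then e.symm ⟨i, hi⟩ else Classical.arbitrary A, ?_⟩
  intro a
  refine ⟨⟨(e a : ℕ), lt_of_lt_of_le (e a).2 hn⟩, ?_⟩
  simp only [Fin.is_lt, dif_pos, Fin.eta, Equiv.symm_apply_apply]

theorem OG_quot {F' : GClass} (hF' : IsFormation F') {G H : Type} [Group G] [Group H] (f : G →* H)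
    (hf : Function.Surjective f) (hG : F' G) : F' H :=
  hF'.iso _ _ (QuotientGroup.quotientKerEquivOfSurjective f hf) (hF'.quot G f.ker hG)

/-- the relatively free group of rank `r` is generated by `n` elements, `r ≤ n` -/
theorem OG_gen (G₀ : Type) [Group G₀] {r n : ℕ} (hrn : r ≤ n) :
    ∃ s₀ : Fin n → OGR G₀ r, Subgroup.closure (Set.range s₀) = ⊤ := by
  classical
  refine ⟨fun i => if hi : (i : ℕ) < r then OGp G₀ r (FreeGroup.of ⟨i, hi⟩) else 1, ?_⟩
  obtain ⟨K, hK⟩ : ∃ K : Subgroup (OGR G₀ r), K = Subgroup.closure (Set.range (fun i : Fin n =>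
    if hi : (i : ℕ) < r then OGp G₀ r (FreeGroup.of ⟨i, hi⟩) else 1)) := ⟨_, rfl⟩
  rw [← hK, eq_top_iff]
  have h1 : (⊤ : Subgroup (FreeGroup (Fin r))) ≤ K.comap (OGp G₀ r) := by
    rw [← FreeGroup.closure_range_of, Subgroup.closure_le]
    rintro _ ⟨i, rfl⟩
    show OGp G₀ r (FreeGroup.of i) ∈ K
    rw [hK]
    refine Subgroup.subset_closure ⟨⟨i, lt_of_lt_of_le i.2 hrn⟩, ?_⟩
    simp only [Fin.is_lt, dif_pos, Fin.eta]
  intro x _
  obtain ⟨w, rfl⟩ := OGp_surj G₀ r x
  exact h1 (Subgroup.mem_top w)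

theorem OG_mem (hF : PV F) {G₀ : Type} [Group G₀] (h₀ : F G₀) (n : ℕ) : F (OGR G₀ n) := by
  have := hF.fin h₀
  exact hF.inj (OGR G₀ n).subtype (Subgroup.subtype_injective _)
    (hF.pi (fun _ : Fin n → G₀ => G₀) (fun _ => h₀))

/-- the main step: all relatively free groups are in the formation generated by the one of rank `r` -/
theorem OG_big (hF : PV F) {G₀ : Type} [Group G₀] (h₀ : F G₀)
    (h : ∀ (G : Type) [Group G], F G → ∀ (n : ℕ) (w : FreeGroup (Fin n)), Law w G₀ → Law w G)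
    {F' : GClass} (hF' : IsFormation F') (hr : F' (OGR G₀ (Nat.card G₀))) {n : ℕ}
    (hn : Nat.card G₀ ≤ n) : F' (OGR G₀ n) := by
  have hfin := hF.fin h₀
  have hfinn := hF.fin (OG_mem hF h₀ n)
  have hfinr := hF.fin (OG_mem hF h₀ (Nat.card G₀))
  refine IsFormation.sep hF' ?_
  intro x hx
  obtain ⟨t, ht⟩ : ∃ t, (x : (Fin n → G₀) → G₀) t ≠ 1 := by
    by_contra hcon
    push Not at hcon
    exact hx (Subtype.ext (funext hcon))
  obtain ⟨S, hS⟩ : ∃ S : Subgroup G₀, S = Subgroup.closure (Set.range t) := ⟨_, rfl⟩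
  have hFS : F S := hF.inj S.subtype (Subgroup.subtype_injective _) h₀
  -- the surjection from the group of rank `r`
  obtain ⟨u, hu⟩ := OG_surj (A := S) (n := Nat.card G₀) (Subgroup.card_le_card_group S)
  have huc : Subgroup.closure (Set.range u) = ⊤ := by
    rw [hu.range_eq, Subgroup.closure_univ]
  obtain ⟨ρ, hρ⟩ := OG_hom (G₀ := G₀) (n := Nat.card G₀) (fun w => h S hFS _ w) u
  have hρs := OG_hom_surj huc hρ
  -- the tuple `t` as a generating tuple of `S`
  have htS : ∀ i, t i ∈ S := fun i => by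
    rw [hS]
    exact Subgroup.subset_closure ⟨i, rfl⟩
  have ht' : Subgroup.closure (Set.range (fun i => (⟨t i, htS i⟩ : S))) = ⊤ := by
    rw [eq_top_iff]
    have h1 : S ≤ (Subgroup.closure (Set.range (fun i => (⟨t i, htS i⟩ : S)))).map S.subtype := by
      conv_lhs => rw [hS]
      rw [Subgroup.closure_le]
      rintro _ ⟨i, rfl⟩
      exact ⟨⟨t i, htS i⟩, Subgroup.subset_closure ⟨i, rfl⟩, rfl⟩
    intro y _
    obtain ⟨z, hz, hzy⟩ := h1 y.2
    have : z = y := Subtype.ext hzy
    rw [← this]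
    exact hz
  obtain ⟨s₀, hs₀⟩ := OG_gen G₀ hn
  obtain ⟨s, hs, hst⟩ := gaschutz ρ hρs s₀ hs₀ _ ht'
  obtain ⟨ψ, hψ⟩ := OG_hom (G₀ := G₀) (n := n)
    (fun w => h (OGR G₀ (Nat.card G₀)) (OG_mem hF h₀ _) _ w) s
  refine ⟨OGR G₀ (Nat.card G₀), inferInstance, ψ, OG_hom_surj hs hψ, hr, ?_⟩
  intro hcon
  obtain ⟨w, rfl⟩ := OGp_surj G₀ n x
  rw [hψ] at hcon
  have h1 := congrArg ρ hcon
  rw [OG_map_lift, map_one] at h1
  have h2 : FreeGroup.lift (fun i => (⟨t i, htS i⟩ : S)) w = 1 := by
    rw [← h1]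
    congr 2
    funext i
    exact (hst i).symm
  have h3 := congrArg S.subtype h2
  rw [OG_map_lift, map_one] at h3
  apply ht
  rw [OGp_apply]
  exact h3

/-- PROOF. For `n` let `R n` be the subgroup of `(Fin n → G₀) → G₀` (a finite power of `G₀`, `PV.pi`, so `R n ∈ F` by `PV.inj`)
generated by the coordinate functions `X i : t ↦ t i`.
(a) If `H` satisfies all laws of `G₀` (in `n` variables) and `h : Fin n → H`, then there is a homomorphism `R n →* H` with
`X i ↦ h i`: the kernel of `FreeGroup (Fin n) → R n` consists of the laws of `G₀`. It is surjective if `h` generates `H`.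
(b) For `t : Fin n → G₀` the evaluation at `t` is a homomorphism `R n →* G₀` with image `closure (range t)`.
Let `r = Nat.card G₀`; every subgroup of `G₀` is generated by an `r`-tuple. We show `F = form (R r)`, i.e.
`F H ↔ form (R r) H`. `←`: `F` is a formation (`pv_iff`) which contains `R r`. `→`: let `F'` be a formation (not
necessarily hereditary) with `F' (R r)`, and let `F H`. `H` is finite; take `n ≥ r` and `h : Fin n → H` which
generates `H`. By (a) `H` is a quotient of `R n` (use the hypothesis `h` on `H`), so it is enough to show `F' (R n)` for all `n ≥ r`.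
By `IsFormation.sep` it is enough to find for every `g ≠ 1` in `R n` a surjective homomorphism `ψ : R n →* R r` with
`ψ g ≠ 1`. There is `t : Fin n → G₀` with `g t ≠ 1`. Let `S = closure (range t) ≤ G₀`. Choose an `r`-tuple generating `S`;
by (b) it gives a surjection `ρ : R r →* S`. `R r` is generated by an `n`-tuple (`n ≥ r`, repeat generators or add ones) and `t` is a
generating `n`-tuple of `S`, so by `gaschutz` there is a generating tuple `s : Fin n → R r` with `ρ (s i) = t i`. As `R r`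
satisfies the laws of `G₀` (it is a subgroup of a power) (a) gives `ψ : R n →* R r` with `X i ↦ s i`, surjective, and
`ρ ∘ ψ` is the evaluation at `t`, so `ψ g ≠ 1`. -/
theorem oneGen_of_laws (hF : PV F) {G₀ : Type} [Group G₀] (h₀ : F G₀)
    (h : ∀ (G : Type) [Group G], F G → ∀ (n : ℕ) (w : FreeGroup (Fin n)), Law w G₀ → Law w G) :
    OneGen F := by
  have hfin := hF.fin h₀
  refine ⟨OGR G₀ (Nat.card G₀), inferInstance, hF.fin (OG_mem hF h₀ _), ?_⟩
  intro H _
  constructor
  · intro hH F' hF' hr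
    have hHf := hF.fin hH
    obtain ⟨g, hg⟩ := OG_surj (A := H) (n := Nat.card G₀ + Nat.card H) (Nat.le_add_left _ _)
    have hgc : Subgroup.closure (Set.range g) = ⊤ := by
      rw [hg.range_eq, Subgroup.closure_univ]
    obtain ⟨ψ, hψ⟩ := OG_hom (G₀ := G₀) (fun w => h H hH _ w) g
    exact OG_quot hF' ψ (OG_hom_surj hgc hψ) (OG_big hF h₀ h hF' hr (Nat.le_add_right _ _))
  · intro hH
    exact hH F (pv_iff.2 hF).1 (OG_mem hF h₀ _)

end Pool.Agent.HForm
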