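import Pool.Agent.Lib_MP_4009a7_al.PVBasic

/-!
# Piece OGB: laws and orders in one-generated formations
-/

set_option autoImplicit false

namespace Pool.Agent.HForm

variable {F : GClass}

private theorem ogb_lift {n : ℕ} {G H : Type} [Group G] [Group H] (f : G →* H) (t : Fin n → G)
    (w : FreeGroup (Fin n)) : FreeGroup.lift (fun i => f (t i)) w = f (FreeGroup.lift t w) := by
  have h : FreeGroup.lift (fun i => f (t i)) = f.comp (FreeGroup.lift t) := by
    apply FreeGroup.ext_hom
    intro i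
    simp
  rw [h]
  rfl

private theorem ogb_surj {n : ℕ} {G H : Type} [Group G] [Group H] (f : G →* H)
    (hf : Function.Surjective f) {w : FreeGroup (Fin n)} (h : Law w G) : Law w H := by
  intro t
  choose s hs using fun i => hf (t i)
  have h1 : t = fun i => f (s i) := by
    funext i
    exact (hs i).symm
  rw [h1, ogb_lift, h s, map_one]

private theorem ogb_formation (G₀ : Type) [Group G₀] : IsFormation fun (H : Type) _ =>
    Finite H ∧ ∀ (n : ℕ) (w : FreeGroup (Fin n)), Law w G₀ → Law w H where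
  fin H _ h := h.1
  iso G H _ _ e h := by
    refine ⟨?_, fun n w hw => ogb_surj e.toMonoidHom e.surjective (h.2 n w hw)⟩
    have := h.1
    exact Finite.of_equiv G e.toEquiv
  nonempty := by
    refine ⟨Unit, inferInstance, inferInstance, fun n w _ t => ?_⟩
    exact Subsingleton.elim _ _
  quot G _ N _ h := by
    have := h.1
    exact ⟨inferInstance, fun n w hw => ogb_surj (QuotientGroup.mk' N) (QuotientGroup.mk'_surjective N) (h.2 n w hw)⟩
  inter G _ _ N₁ N₂ _ _ h₁ h₂ := by
    refine ⟨inferInstance, fun n w hw t => ?_⟩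
    choose s hs using fun i => QuotientGroup.mk'_surjective (N₁ ⊓ N₂) (t i)
    have h1 : t = fun i => QuotientGroup.mk' (N₁ ⊓ N₂) (s i) := by
      funext i
      exact (hs i).symm
    rw [h1, ogb_lift]
    have e1 : FreeGroup.lift s w ∈ N₁ := by
      rw [← QuotientGroup.eq_one_iff]
      have := h₁.2 n w hw (fun i => QuotientGroup.mk' N₁ (s i))
      rw [ogb_lift] at this
      exact this
    have e2 : FreeGroup.lift s w ∈ N₂ := by
      rw [← QuotientGroup.eq_one_iff]
      have := h₂.2 n w hw (fun i => QuotientGroup.mk' N₂ (s i))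
      rw [ogb_lift] at this
      exact this
    exact (QuotientGroup.eq_one_iff _).2 (Subgroup.mem_inf.2 ⟨e1, e2⟩)

/-- PROOF. `F = form G₀`, so `F G₀` (every formation containing `G₀` contains `G₀`). The class of the finite groups which satisfy all laws of
`G₀` is a formation containing `G₀`: it is closed under quotients, and a law of `G ⧸ N₁` and `G ⧸ N₂` is a law of
`G ⧸ (N₁ ⊓ N₂)`, which embeds into the product. -/
theorem OneGen.laws (h : OneGen F) : ∃ (G₀ : Type) (_ : Group G₀), Finite G₀ ∧ F G₀ ∧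
    ∀ (G : Type) [Group G], F G → ∀ (n : ℕ) (w : FreeGroup (Fin n)), Law w G₀ → Law w G := by
  obtain ⟨G₀, i₀, hfin, hF⟩ := h
  refine ⟨G₀, i₀, hfin, ?_, ?_⟩
  · exact (hF G₀).2 fun F' _ h => h
  · intro G _ hG n w hw
    exact ((hF G).1 hG _ (ogb_formation G₀) ⟨hfin, fun n w h => h⟩).2 n w hw

private theorem ogb_cover {G₀ G : Type} [Group G₀] [Group G]
    (h : ∀ (n : ℕ) (w : FreeGroup (Fin n)), Law w G₀ → Law w G) {n : ℕ} (t : Fin n → G)
    (ht : Subgroup.closure (Set.range t) = ⊤) :
    ∃ (R : Subgroup ((Fin n → G₀) → G₀)) (f : R →* G), Function.Surjective f := by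
  let φ : FreeGroup (Fin n) →* ((Fin n → G₀) → G₀) := FreeGroup.lift (fun i (s : Fin n → G₀) => s i)
  have hk : φ.rangeRestrict.ker ≤ (FreeGroup.lift t : FreeGroup (Fin n) →* G).ker := by
    intro w hw
    rw [MonoidHom.ker_rangeRestrict, MonoidHom.mem_ker] at hw
    rw [MonoidHom.mem_ker]
    refine h n w (fun s => ?_) t
    have h1 := ogb_lift (Pi.evalMonoidHom (fun _ : Fin n → G₀ => G₀) s) (fun i (s : Fin n → G₀) => s i) w
    have h2 : Pi.evalMonoidHom (fun _ : Fin n → G₀ => G₀) s (φ w) = 1 := by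
      rw [hw, map_one]
    exact h1.trans h2
  refine ⟨φ.range, φ.rangeRestrict.liftOfSurjective φ.rangeRestrict_surjective ⟨FreeGroup.lift t, hk⟩, ?_⟩
  have hs : Function.Surjective (FreeGroup.lift t : FreeGroup (Fin n) →* G) := by
    rw [← MonoidHom.range_eq_top, ← top_le_iff, ← ht, Subgroup.closure_le]
    rintro _ ⟨i, rfl⟩
    exact ⟨FreeGroup.of i, by simp⟩
  intro g
  obtain ⟨w, hw⟩ := hs g
  refine ⟨φ.rangeRestrict w, ?_⟩
  rw [MonoidHom.liftOfRightInverse_comp_apply]
  exact hw

/-- PROOF. Let `R ≤ ((Fin n → G₀) → G₀)` be the subgroup generated by the coordinate functions. The kernel of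
`FreeGroup (Fin n) →* R` consists of laws of `G₀`, so of laws of `G`, so there is a surjection `R → G`.
`Nat.card ((Fin n → G₀) → G₀) = Nat.card G₀ ^ (Nat.card G₀ ^ n)`. -/
theorem card_le_of_laws {G₀ G : Type} [Group G₀] [Group G] [Finite G₀]
    (h : ∀ (n : ℕ) (w : FreeGroup (Fin n)), Law w G₀ → Law w G) {n : ℕ} (t : Fin n → G)
    (ht : Subgroup.closure (Set.range t) = ⊤) :
    Finite G ∧ Nat.card G ≤ Nat.card G₀ ^ (Nat.card G₀ ^ n) := by
  obtain ⟨R, f, hf⟩ := ogb_cover h t ht
  refine ⟨Finite.of_surjective f hf, ?_⟩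
  have h1 : Nat.card G ≤ Nat.card R := Nat.card_le_card_of_surjective f hf
  have h2 : Nat.card R ≤ Nat.card ((Fin n → G₀) → G₀) :=
    Nat.card_le_card_of_injective _ R.subtype_injective
  have h3 : Nat.card ((Fin n → G₀) → G₀) = Nat.card G₀ ^ (Nat.card G₀ ^ n) := by
    rw [Nat.card_fun, Nat.card_fun, Nat.card_fin]
  exact (h1.trans h2).trans h3.le

/-- exponents: `x ^ Nat.card G₀` is a law of `G₀` -/
theorem OneGen.exp (h : OneGen F) : ∃ e : ℕ, 0 < e ∧ ExpLe F e := by
  obtain ⟨G₀, i₀, hfin, hG₀, hl⟩ := h.laws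
  refine ⟨Nat.card G₀, Nat.card_pos, fun G _ hG x => ?_⟩
  have h1 := hl G hG 1 (FreeGroup.of 0 ^ Nat.card G₀) (fun t => by
    rw [map_pow]
    exact pow_card_eq_one') (fun _ => x)
  rw [map_pow, FreeGroup.lift_apply_of] at h1
  exact h1

private theorem ogb_cover' {G₀ G : Type} [Group G₀] [Group G] [Finite G]
    (h : ∀ (n : ℕ) (w : FreeGroup (Fin n)), Law w G₀ → Law w G) :
    ∃ (n : ℕ) (R : Subgroup ((Fin n → G₀) → G₀)) (f : R →* G), Function.Surjective f := by
  obtain ⟨n, ⟨e⟩⟩ := Finite.exists_equiv_fin G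
  obtain ⟨R, f, hf⟩ := ogb_cover h (n := n) (fun i => e.symm i) (by
    rw [eq_top_iff]
    intro x _
    apply Subgroup.subset_closure
    exact ⟨e x, by simp⟩)
  exact ⟨n, R, f, hf⟩

/-- if `G₀` has nilpotency class at most `c`, so does every group which satisfies the laws of `G₀`. PROOF: the left normed
commutator in `c + 1` variables `⁅⁅x₀, x₁⁆, ..., x_c⁆` is a law of `G₀`, so of `G`. Let `U = {x | ⁅x, y⁆ = 1 for all y}` etc.: show by
induction on `k ≤ c` that for all `x ∈ (⊤ : Subgroup G).lowerCentralSeries k` the left normed commutators `⁅x, y₁, ..., y_{c-k}⁆`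
vanish... EASIER: let `R ≤ ((Fin n → G₀) → G₀)` be as in `card_le_of_laws`; it is a subgroup of a power of `G₀`, so it has
class at most `c`. Given `G`, to show `lowerCentralSeries ⊤ c = ⊥` it is enough to treat finitely generated
subgroups (`G` finite suffices): `G` is a quotient of `R` for `n = Nat.card G`. -/
theorem nilp_of_laws {G₀ G : Type} [Group G₀] [Group G] [Finite G₀] [Finite G]
    (h : ∀ (n : ℕ) (w : FreeGroup (Fin n)), Law w G₀ → Law w G) {c : ℕ}
    (hc : (⊤ : Subgroup G₀).lowerCentralSeries c = ⊥) : (⊤ : Subgroup G).lowerCentralSeries c = ⊥ := by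
  obtain ⟨n, R, f, hf⟩ := ogb_cover' h
  have hR : (⊤ : Subgroup R).lowerCentralSeries c = ⊥ := by
    rw [eq_bot_iff]
    intro y hy
    rw [Subgroup.mem_bot]
    apply Subtype.ext
    funext s
    have h1 : ((Pi.evalMonoidHom (fun _ : Fin n → G₀ => G₀) s).comp R.subtype) y ∈
        (⊤ : Subgroup G₀).lowerCentralSeries c := by
      have h2 : ((Pi.evalMonoidHom (fun _ : Fin n → G₀ => G₀) s).comp R.subtype) y ∈
          ((⊤ : Subgroup R).lowerCentralSeries c).map
            ((Pi.evalMonoidHom (fun _ : Fin n → G₀ => G₀) s).comp R.subtype) := ⟨y, hy, rfl⟩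
      rw [Subgroup.map_lowerCentralSeries] at h2
      exact Subgroup.lowerCentralSeries_mono c le_top h2
    rw [hc, Subgroup.mem_bot] at h1
    exact h1
  have h3 := Subgroup.map_lowerCentralSeries (⊤ : Subgroup R) f c
  rw [hR, Subgroup.map_bot, Subgroup.map_top_of_surjective f hf] at h3
  exact h3.symm

/-- the same for the derived length -/
theorem solv_of_laws {G₀ G : Type} [Group G₀] [Group G] [Finite G₀] [Finite G]
    (h : ∀ (n : ℕ) (w : FreeGroup (Fin n)), Law w G₀ → Law w G) {d : ℕ}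
    (hd : derivedSeries G₀ d = ⊥) : derivedSeries G d = ⊥ := by
  obtain ⟨n, R, f, hf⟩ := ogb_cover' h
  have hR : derivedSeries R d = ⊥ := by
    rw [eq_bot_iff]
    intro y hy
    rw [Subgroup.mem_bot]
    apply Subtype.ext
    funext s
    have h1 : ((Pi.evalMonoidHom (fun _ : Fin n → G₀ => G₀) s).comp R.subtype) y ∈ derivedSeries G₀ d :=
      map_derivedSeries_le_derivedSeries
        ((Pi.evalMonoidHom (fun _ : Fin n → G₀ => G₀) s).comp R.subtype) d ⟨y, hy, rfl⟩
    rw [hd, Subgroup.mem_bot] at h1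
    exact h1
  rw [← map_derivedSeries_eq hf d, hR, Subgroup.map_bot]

end Pool.Agent.HForm
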