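import Pool.Agent.Lib_MP_4009a7_al.Base

/-!
# Piece PVB: hereditary formations are pseudovarieties
-/

set_option autoImplicit false

namespace Pool.Agent.HForm

variable {F : GClass}

private theorem one_of_formation (hF : IsFormation F) (G : Type) [Group G] [Subsingleton G] : F G := by
  obtain ⟨G₀, hG₀, h₀⟩ := hF.nonempty
  have h1 : F (G₀ ⧸ (⊤ : Subgroup G₀)) := hF.quot G₀ ⊤ h₀
  have : Subsingleton (G₀ ⧸ (⊤ : Subgroup G₀)) := QuotientGroup.subsingleton_quotient_top
  refine hF.iso (G₀ ⧸ (⊤ : Subgroup G₀)) G ?_ h1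
  exact
    { toFun := fun _ => 1
      invFun := fun _ => 1
      left_inv := fun _ => Subsingleton.elim _ _
      right_inv := fun _ => Subsingleton.elim _ _
      map_mul' := fun _ _ => Subsingleton.elim _ _ }

private theorem surj_of_formation (hF : IsFormation F) {G H : Type} [Group G] [Group H] (f : G →* H)
    (hf : Function.Surjective f) (h : F G) : F H :=
  hF.iso (G ⧸ f.ker) H (QuotientGroup.quotientKerEquivOfSurjective f hf) (hF.quot G f.ker h)

/-- PROOF. `→`: the trivial group is a quotient of a member. `surj`: `G ⧸ ker f ≃* H`. `inj`: `G ≃* f.range`. `prod`: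
`N₁ = ker (fst)`, `N₂ = ker (snd)` in `G × H`: `(G × H) ⧸ N₁ ≃* G`, `(G × H) ⧸ N₂ ≃* H`, `N₁ ⊓ N₂ = ⊥`, `(G × H) ⧸ ⊥ ≃* G × H`.
`←`: `quot`: `QuotientGroup.mk'` is surjective. `inter`: the map `G ⧸ (N₁ ⊓ N₂) → (G ⧸ N₁) × (G ⧸ N₂)` is injective.
Hereditary: `H.subtype` is injective. -/
theorem pv_iff : (IsFormation F ∧ Hereditary F) ↔ PV F := by
  constructor
  · rintro ⟨hF, hH⟩
    refine ⟨fun {G} _ h => hF.fin G h, one_of_formation hF Unit, ?_, ?_, ?_⟩
    · intro G H _ _ f hf h
      exact surj_of_formation hF f hf h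
    · intro G H _ _ f hf h
      exact hF.iso f.range G (MonoidHom.ofInjective hf).symm (hH H f.range h)
    · intro G H _ _ hG hH'
      have : Finite G := hF.fin G hG
      have : Finite H := hF.fin H hH'
      have h1 : F ((G × H) ⧸ (MonoidHom.fst G H).ker) :=
        hF.iso G _ (QuotientGroup.quotientKerEquivOfSurjective (MonoidHom.fst G H)
          (fun x => ⟨(x, 1), rfl⟩)).symm hG
      have h2 : F ((G × H) ⧸ (MonoidHom.snd G H).ker) :=
        hF.iso H _ (QuotientGroup.quotientKerEquivOfSurjective (MonoidHom.snd G H)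
          (fun x => ⟨(1, x), rfl⟩)).symm hH'
      have h3 := hF.inter (G × H) _ _ h1 h2
      have hbot : (MonoidHom.fst G H).ker ⊓ (MonoidHom.snd G H).ker = ⊥ := by
        rw [eq_bot_iff]
        rintro ⟨x, y⟩ hxy
        rw [Subgroup.mem_inf, MonoidHom.mem_ker, MonoidHom.mem_ker] at hxy
        rw [Subgroup.mem_bot]
        exact Prod.ext hxy.1 hxy.2
      exact hF.iso _ _ ((QuotientGroup.quotientMulEquivOfEq hbot).trans QuotientGroup.quotientBot) h3
  · intro hF
    refine ⟨⟨fun G _ h => hF.fin h, ?_, ⟨Unit, inferInstance, hF.one⟩, ?_, ?_⟩, ?_⟩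
    · intro G H _ _ e h
      exact hF.surj e.toMonoidHom e.surjective h
    · intro G _ N _ h
      exact hF.surj (QuotientGroup.mk' N) (QuotientGroup.mk'_surjective N) h
    · intro G _ _ N₁ N₂ _ _ h1 h2
      have h3 := hF.prod h1 h2
      let f : G →* (G ⧸ N₁) × (G ⧸ N₂) := (QuotientGroup.mk' N₁).prod (QuotientGroup.mk' N₂)
      have hk : f.ker = N₁ ⊓ N₂ := by
        ext x
        simp [f, MonoidHom.mem_ker, Subgroup.mem_inf, Prod.ext_iff]
      have h4 : F (G ⧸ f.ker) := hF.inj (QuotientGroup.kerLift f) (QuotientGroup.kerLift_injective f) h3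
      exact hF.surj (QuotientGroup.quotientMulEquivOfEq hk).toMonoidHom
        (QuotientGroup.quotientMulEquivOfEq hk).surjective h4
    · intro G _ H h
      exact hF.inj H.subtype (Subgroup.subtype_injective H) h

theorem PV.iso (hF : PV F) {G H : Type} [Group G] [Group H] (e : G ≃* H) (h : F G) : F H := by
  exact hF.surj e.toMonoidHom e.surjective h

/-- finite direct products. Induction on the cardinality of `ι` (e.g. `Finite.induction_empty_option`; the
equivalences `∀ i, G i ≃* ...`) -/
theorem PV.pi (hF : PV F) {ι : Type} [Finite ι] (G : ι → Type) [∀ i, Group (G i)]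
    (h : ∀ i, F (G i)) : F (∀ i, G i) := by
  have key : ∀ (κ : Type) [Finite κ], ∀ (G : κ → Type) [∀ i, Group (G i)], (∀ i, F (G i)) →
      F (∀ i, G i) := by
    intro κ _
    induction κ using Finite.induction_empty_option with
    | of_equiv e ih =>
      intro G _ h
      have h1 := ih (fun i => G (e i)) (fun i => h (e i))
      refine hF.inj (G := ∀ i, G i) (H := ∀ i, G (e i))
        { toFun := fun f i => f (e i), map_one' := rfl, map_mul' := fun _ _ => rfl } ?_ h1
      intro f g hfg
      funext i
      have h2 := congrFun hfg (e.symm i)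
      simp only [MonoidHom.coe_mk, OneHom.coe_mk] at h2
      have h3 : e (e.symm i) = i := e.apply_symm_apply i
      rw [h3] at h2
      exact h2
    | h_empty =>
      intro G _ h
      refine hF.inj (G := ∀ i, G i) (H := Unit) 1 ?_ hF.one
      intro f g _
      funext i
      exact i.elim
    | h_option ih =>
      intro G _ h
      have h1 := ih (fun i => G (some i)) (fun i => h (some i))
      have h2 := hF.prod (h none) h1
      refine hF.inj (G := ∀ i, G i) (H := G none × ∀ i, G (some i))
        { toFun := fun f => (f none, fun i => f (some i)), map_one' := rfl, map_mul' := fun _ _ => rfl } ?_ h2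
      intro f g hfg
      simp only [MonoidHom.coe_mk, OneHom.coe_mk, Prod.mk.injEq] at hfg
      funext i
      cases i with
      | none => exact hfg.1
      | some i => exact congrFun hfg.2 i
  exact key ι G h

/-- a finite group which is residually in `F` is in `F`: `G` embeds into the product over all `x ≠ 1` of the
chosen groups (`PV.pi` for the finite type `{x : G // x ≠ 1}`) -/
theorem PV.sep (hF : PV F) {G : Type} [Group G] [Finite G]
    (h : ∀ x : G, x ≠ 1 → ∃ (H : Type) (_ : Group H) (f : G →* H), F H ∧ f x ≠ 1) : F G := by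
  choose H hG f hf hx using h
  have h1 : F (∀ x : {x : G // x ≠ 1}, H x.1 x.2) :=
    hF.pi (fun x : {x : G // x ≠ 1} => H x.1 x.2) (fun x => hf x.1 x.2)
  refine hF.inj (G := G) (H := ∀ x : {x : G // x ≠ 1}, H x.1 x.2)
    (MonoidHom.pi (fun x : {x : G // x ≠ 1} => f x.1 x.2)) ?_ h1
  rw [injective_iff_map_eq_one]
  intro a ha
  by_contra hne
  exact hx a hne (congrFun ha ⟨a, hne⟩)

/-- the same for formations which need not be hereditary, with surjective homomorphisms.
PROOF. The trivial group is in `F` (quotient of a member by `⊤`). For every finite set `S` of normal subgroups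
`N` with `F (G ⧸ N)` we have `F (G ⧸ ⨅ N ∈ S, N)` by induction on `S` (`inter`; for `S = ∅` the quotient is
trivial). Take for `S` the kernels of the chosen homomorphisms: the intersection is `⊥`. -/
theorem IsFormation.sep (hF : IsFormation F) {G : Type} [Group G] [Finite G]
    (h : ∀ x : G, x ≠ 1 → ∃ (H : Type) (_ : Group H) (f : G →* H), Function.Surjective f ∧ F H ∧ f x ≠ 1) :
    F G := by
  classical
  -- for every finite set of elements there is a normal subgroup avoiding them
  have key : ∀ S : Finset G, (∀ x ∈ S, x ≠ 1) → ∃ (N : Subgroup G) (_ : N.Normal), F (G ⧸ N) ∧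
      ∀ x ∈ S, x ∉ N := by
    intro S
    induction S using Finset.induction_on with
    | empty =>
      intro _
      refine ⟨⊤, inferInstance, ?_, ?_⟩
      · have : Subsingleton (G ⧸ (⊤ : Subgroup G)) := QuotientGroup.subsingleton_quotient_top
        exact one_of_formation hF _
      · intro x hx
        simp at hx
    | insert a S haS ih =>
      intro hS
      obtain ⟨N, hN, hFN, hNS⟩ := ih (fun x hx => hS x (Finset.mem_insert_of_mem hx))
      obtain ⟨H, hH, f, hfs, hFH, hfa⟩ := h a (hS a (Finset.mem_insert_self a S))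
      have h1 : F (G ⧸ f.ker) :=
        hF.iso H _ (QuotientGroup.quotientKerEquivOfSurjective f hfs).symm hFH
      refine ⟨f.ker ⊓ N, inferInstance, hF.inter G _ _ h1 hFN, ?_⟩
      intro x hx hxN
      rw [Finset.mem_insert] at hx
      rcases hx with rfl | hx
      · exact hfa (MonoidHom.mem_ker.mp hxN.1)
      · exact hNS x hx hxN.2
  have : Fintype G := Fintype.ofFinite G
  obtain ⟨N, hN, hFN, hNS⟩ := key (Finset.univ.filter (fun x : G => x ≠ 1)) (fun x hx => by
    simpa using hx)
  have hbot : N = ⊥ := by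
    rw [eq_bot_iff]
    intro x hx
    rw [Subgroup.mem_bot]
    by_contra hne
    exact hNS x (by simpa using hne) hx
  subst hbot
  exact hF.iso _ _ QuotientGroup.quotientBot hFN

/-- the intersection of two pseudovarieties -/
theorem PV.inter {F' : GClass} (hF : PV F) (hF' : PV F') : PV (fun G _ => F G ∧ F' G) := by
  refine ⟨fun {G} _ h => hF.fin h.1, ⟨hF.one, hF'.one⟩, ?_, ?_, ?_⟩
  · intro G H _ _ f hf h
    exact ⟨hF.surj f hf h.1, hF'.surj f hf h.2⟩
  · intro G H _ _ f hf h
    exact ⟨hF.inj f hf h.1, hF'.inj f hf h.2⟩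
  · intro G H _ _ h1 h2
    exact ⟨hF.prod h1.1 h2.1, hF'.prod h1.2 h2.2⟩

end Pool.Agent.HForm
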