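import Pool.Agent.Lib_MP_4009a7_al.RepT

/-!
# Piece PAIRS: hyperbolic pairs for bimultiplicative alternating maps
-/

set_option autoImplicit false

open scoped commutatorElement

namespace Pool.Agent.HForm

/-- the bound: `pairsBound e 0 = 0`, `pairsBound e (m+1) = e ^ 2 * pairsBound e m * e ^ (e ^ 2)` plus `1` -/
def pairsBound (e : ℕ) : ℕ → ℕ
  | 0 => 0
  | m + 1 => e ^ 2 * (pairsBound e m + 1) * e ^ (e ^ 2) + 1

private theorem index_le_of_map {G α : Type} [Group G] [Finite α] (S : Subgroup G) (f : G → α)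
    (h : ∀ x y, f x = f y → x⁻¹ * y ∈ S) : S.index ≤ Nat.card α := by
  refine Nat.card_le_card_of_injective (fun c : G ⧸ S => f (Quotient.out c)) ?_
  intro c c' hc
  have h1 := h _ _ hc
  have h2 : (QuotientGroup.mk (Quotient.out c) : G ⧸ S) = QuotientGroup.mk (Quotient.out c') :=
    QuotientGroup.eq.2 h1
  rw [QuotientGroup.out_eq', QuotientGroup.out_eq'] at h2
  exact h2

private theorem card_roots_le {K : Type} [Field K] (e : ℕ) :
    Nat.card {x : K // x ∈ Polynomial.nthRootsFinset e (1 : K)} ≤ e := by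
  classical
  rw [Nat.card_eq_fintype_card, Fintype.card_coe]
  unfold Polynomial.nthRootsFinset
  refine (Multiset.toFinset_card_le _).trans ?_
  exact Polynomial.card_nthRoots e 1

/-- PROOF. Induction on `m`, for all `G`. `m = 0`: nothing to do. Step: as `rad.index > 1` there are `g, h` with `κ g h ≠ 1`. The value `κ g h` has order a power of `q`, `q ^ k` with
`k ≥ 1` (`κ g h ^ (q ^ j) = κ (g ^ (q ^ j)) h = 1` for some `j`), so `κ (g ^ s) h = ζ` for a suitable `s` (the primitive `q`-th roots of unity in the field `K` are the powers `ζ ^ j`, `j` prime to `q`).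
Let `a₀ = g ^ s`, `b₀ = h` and `G₁ = {x | κ x a₀ = 1 ∧ κ x b₀ = 1}`, a subgroup of index `≤ e ^ 2` (values in the at most `e` roots of `X ^ e - 1`). Let `rad₁ = {x ∈ G₁ | ∀ y ∈ G₁, κ x y = 1}`.
`x ∈ rad₁` is in `rad` iff `κ x y = 1` for `y` in a set of representatives of the cosets of `G₁` (at most `e ^ 2`; `κ x (y z) = κ x y * κ x z`), so `rad ⊓ rad₁` has index at most
`e ^ (e ^ 2)` in `rad₁`. So `rad.index ≤ (rad ⊓ rad₁).index ≤ e ^ 2 * (rad₁.relIndex G₁) * e ^ (e ^ 2)`, hence `rad₁.relIndex G₁ > pairsBound e m` and the induction hypothesis applies to the group `G₁` (and the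
restriction of `κ`): it gives `a, b : Fin m → G₁`. Put `Fin.cons a₀ a`, `Fin.cons b₀ b`; `κ x y * κ y x = 1` follows from `κ (x y) (x y) = 1`. -/
theorem pairs {K : Type} [Field K] {q e : ℕ} (hq : q.Prime) (he : 0 < e) {ζ : K} (hζ : IsPrimitiveRoot ζ q) :
    ∀ (m : ℕ) (G : Type) [Group G] [Finite G], IsPGroup q G → ∀ κ : G → G → K, (∀ g h, κ g h ^ e = 1) →
      (∀ g g' h, κ (g * g') h = κ g h * κ g' h) → (∀ g h h', κ g (h * h') = κ g h * κ g h') →
      (∀ g, κ g g = 1) → ∀ rad : Subgroup G, (∀ g, g ∈ rad ↔ ∀ h, κ g h = 1) → pairsBound e m < rad.index →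
      ∃ a b : Fin m → G, ∀ i j, κ (a i) (a j) = 1 ∧ κ (b i) (b j) = 1 ∧
        κ (a i) (b j) = if i = j then ζ else 1 := by
  intro m
  induction m with
  | zero =>
    intro G _ _ _ κ _ _ _ _ rad _ _
    exact ⟨fun i => 1, fun i => 1, fun i => Fin.elim0 i⟩
  | succ m ih =>
    intro G _ _ hG κ hκe hκl hκr hκa rad hrad hidx
    -- basic facts
    have hne : ∀ g h, κ g h ≠ 0 := by
      intro g h h0
      have := hκe g h
      rw [h0, zero_pow he.ne'] at this
      exact zero_ne_one this
    have hone : ∀ h, κ 1 h = 1 := by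
      intro h
      have h1 := hκl 1 1 h
      rw [mul_one] at h1
      exact (mul_eq_left₀ (hne 1 h)).1 h1.symm
    have hone' : ∀ g, κ g 1 = 1 := by
      intro g
      have h1 := hκr g 1 1
      rw [mul_one] at h1
      exact (mul_eq_left₀ (hne g 1)).1 h1.symm
    have hpow : ∀ (n : ℕ) g h, κ (g ^ n) h = κ g h ^ n := by
      intro n g h
      induction n with
      | zero => rw [pow_zero, pow_zero, hone]
      | succ n ihn => rw [pow_succ, hκl, ihn, pow_succ]
    have hinv : ∀ g h, κ g⁻¹ h = (κ g h)⁻¹ := by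
      intro g h
      apply eq_inv_of_mul_eq_one_left
      rw [← hκl, inv_mul_cancel, hone]
    have hskew : ∀ x y, κ x y * κ y x = 1 := by
      intro x y
      have h1 := hκa (x * y)
      rw [hκl, hκr, hκr, hκa, hκa, one_mul, mul_one] at h1
      exact h1
    have hskew1 : ∀ x y, κ x y = 1 → κ y x = 1 := by
      intro x y h1
      have := hskew x y
      rwa [h1, one_mul] at this
    -- a nontrivial value
    have hex : ∃ g h, κ g h ≠ 1 := by
      by_contra hcon
      push Not at hcon
      have h1 : rad = ⊤ := by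
        rw [eq_top_iff]
        intro g _
        exact (hrad g).2 (hcon g)
      rw [h1, Subgroup.index_top] at hidx
      simp only [pairsBound] at hidx
      omega
    obtain ⟨g, b₀, hgb⟩ := hex
    -- a value equal to `ζ`
    obtain ⟨a₀, hab⟩ : ∃ a₀, κ a₀ b₀ = ζ := by
      obtain ⟨j, hj⟩ := hG g
      have hxj : κ g b₀ ^ q ^ j = 1 := by rw [← hpow, hj, hone]
      obtain ⟨k, _, hk⟩ := (Nat.dvd_prime_pow hq).1 (orderOf_dvd_of_pow_eq_one hxj)
      cases k with
      | zero =>
        rw [pow_zero, orderOf_eq_one_iff] at hk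
        exact absurd hk hgb
      | succ k =>
        have hprim : IsPrimitiveRoot (κ g b₀) (q ^ (k + 1)) := by
          rw [← hk]
          exact IsPrimitiveRoot.orderOf _
        have hprim' : IsPrimitiveRoot (κ g b₀ ^ q ^ k) q :=
          hprim.pow (pow_pos hq.pos _) (pow_succ q k)
        have : NeZero q := ⟨hq.ne_zero⟩
        obtain ⟨i, _, hi⟩ := hprim'.eq_pow_of_pow_eq_one hζ.pow_eq_one
        refine ⟨(g ^ q ^ k) ^ i, ?_⟩
        rw [hpow, hpow, hi]
    -- the centralizer of the pair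
    let G₁ : Subgroup G :=
      { carrier := {x | κ x a₀ = 1 ∧ κ x b₀ = 1}
        mul_mem' := by
          rintro x y ⟨h1, h2⟩ ⟨h3, h4⟩
          exact ⟨by rw [hκl, h1, h3, one_mul], by rw [hκl, h2, h4, one_mul]⟩
        one_mem' := ⟨hone _, hone _⟩
        inv_mem' := by
          rintro x ⟨h1, h2⟩
          exact ⟨by rw [hinv, h1, inv_one], by rw [hinv, h2, inv_one]⟩ }
    have hG₁ : ∀ x, x ∈ G₁ ↔ κ x a₀ = 1 ∧ κ x b₀ = 1 := fun x => Iff.rfl
    have hE : ∀ g h, κ g h ∈ Polynomial.nthRootsFinset e (1 : K) := by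
      intro g h
      rw [Polynomial.mem_nthRootsFinset he]
      exact hκe g h
    have hi1 : G₁.index ≤ e ^ 2 := by
      have h1 := index_le_of_map G₁
        (fun x => ((⟨κ x a₀, hE _ _⟩, ⟨κ x b₀, hE _ _⟩) :
          {x : K // x ∈ Polynomial.nthRootsFinset e (1 : K)} ×
            {x : K // x ∈ Polynomial.nthRootsFinset e (1 : K)})) (by
          intro x y hxy
          have h2 : κ x a₀ = κ y a₀ := congrArg (fun z => (z.1 : K)) hxy
          have h3 : κ x b₀ = κ y b₀ := congrArg (fun z => (z.2 : K)) hxy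
          rw [hG₁, hκl, hκl, hinv, hinv, h2, h3]
          exact ⟨inv_mul_cancel₀ (hne _ _), inv_mul_cancel₀ (hne _ _)⟩)
      rw [Nat.card_prod] at h1
      refine h1.trans ?_
      rw [pow_two]
      exact Nat.mul_le_mul (card_roots_le e) (card_roots_le e)
    -- the radical of the restriction
    let rad₁ : Subgroup G₁ :=
      { carrier := {x | ∀ y : G₁, κ x y = 1}
        mul_mem' := by
          intro x y h1 h2 z
          show κ ((x : G) * (y : G)) z = 1
          rw [hκl, h1 z, h2 z, one_mul]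
        one_mem' := fun z => hone _
        inv_mem' := by
          intro x h1 z
          show κ ((x : G)⁻¹) z = 1
          rw [hinv, h1 z, inv_one] }
    have hrad₁ : ∀ x : G₁, x ∈ rad₁ ↔ ∀ y : G₁, κ x y = 1 := fun x => Iff.rfl
    have hle1 : rad.subgroupOf G₁ ≤ rad₁ := by
      intro x hx y
      exact (hrad x).1 hx y
    have hi2 : (rad.subgroupOf G₁).relIndex rad₁ ≤ e ^ (e ^ 2) := by
      have h1 := index_le_of_map ((rad.subgroupOf G₁).subgroupOf rad₁)
        (fun x => fun t : G ⧸ G₁ => (⟨κ ((x : G₁) : G) (Quotient.out t), hE _ _⟩ :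
          {x : K // x ∈ Polynomial.nthRootsFinset e (1 : K)})) (by
          intro x y hxy
          rw [Subgroup.mem_subgroupOf, Subgroup.mem_subgroupOf, hrad]
          intro z
          have hz : z = Quotient.out (QuotientGroup.mk z : G ⧸ G₁) *
              ((Quotient.out (QuotientGroup.mk z : G ⧸ G₁))⁻¹ * z) := by group
          have hz1 : (Quotient.out (QuotientGroup.mk z : G ⧸ G₁))⁻¹ * z ∈ G₁ := by
            rw [← QuotientGroup.eq, QuotientGroup.out_eq']
          have h2 : κ ((x : G₁) : G) (Quotient.out (QuotientGroup.mk z : G ⧸ G₁)) =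
              κ ((y : G₁) : G) (Quotient.out (QuotientGroup.mk z : G ⧸ G₁)) :=
            congrArg Subtype.val (congrFun hxy (QuotientGroup.mk z))
          show κ ((((x : G₁) : G))⁻¹ * ((y : G₁) : G)) z = 1
          have h3 : κ ((x : G₁) : G) ((Quotient.out (QuotientGroup.mk z : G ⧸ G₁))⁻¹ * z) = 1 :=
            x.2 ⟨_, hz1⟩
          have h4 : κ ((y : G₁) : G) ((Quotient.out (QuotientGroup.mk z : G ⧸ G₁))⁻¹ * z) = 1 :=
            y.2 ⟨_, hz1⟩
          have h5 : κ ((x : G₁) : G) z =
              κ ((x : G₁) : G) (Quotient.out (QuotientGroup.mk z : G ⧸ G₁)) := by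
            conv_lhs => rw [hz]
            rw [hκr, h3, mul_one]
          have h6 : κ ((y : G₁) : G) z =
              κ ((y : G₁) : G) (Quotient.out (QuotientGroup.mk z : G ⧸ G₁)) := by
            conv_lhs => rw [hz]
            rw [hκr, h4, mul_one]
          rw [hκl, hinv, h5, h6, h2]
          exact inv_mul_cancel₀ (hne _ _))
      refine h1.trans ?_
      rw [Nat.card_fun]
      calc Nat.card {x : K // x ∈ Polynomial.nthRootsFinset e (1 : K)} ^ Nat.card (G ⧸ G₁)
          ≤ e ^ Nat.card (G ⧸ G₁) := Nat.pow_le_pow_left (card_roots_le e) _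
        _ ≤ e ^ (e ^ 2) := Nat.pow_le_pow_right he hi1
    have hi3 : rad.index ≤ e ^ 2 * rad₁.index * e ^ (e ^ 2) := by
      have h1 : rad.index ≤ (rad ⊓ G₁).index :=
        Nat.le_of_dvd (Nat.pos_of_ne_zero Subgroup.index_ne_zero_of_finite)
          (Subgroup.index_dvd_of_le inf_le_left)
      have h2 : (rad ⊓ G₁).relIndex G₁ * G₁.index = (rad ⊓ G₁).index :=
        Subgroup.relIndex_mul_index inf_le_right
      have h3 : (rad ⊓ G₁).relIndex G₁ = (rad.subgroupOf G₁).index := by
        rw [Subgroup.inf_relIndex_right]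
        rfl
      have h4 : (rad.subgroupOf G₁).relIndex rad₁ * rad₁.index = (rad.subgroupOf G₁).index :=
        Subgroup.relIndex_mul_index hle1
      calc rad.index ≤ (rad ⊓ G₁).index := h1
        _ = ((rad.subgroupOf G₁).relIndex rad₁ * rad₁.index) * G₁.index := by
            rw [← h2, h3, h4]
        _ ≤ (e ^ (e ^ 2) * rad₁.index) * e ^ 2 := by gcongr
        _ = e ^ 2 * rad₁.index * e ^ (e ^ 2) := by ring
    have hi4 : pairsBound e m < rad₁.index := by
      by_contra hcon
      push Not at hcon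
      have h1 : e ^ 2 * rad₁.index * e ^ (e ^ 2) ≤ e ^ 2 * (pairsBound e m + 1) * e ^ (e ^ 2) := by
        gcongr
        omega
      simp only [pairsBound] at hidx
      omega
    obtain ⟨a, b, hab'⟩ := ih G₁ (hG.to_subgroup G₁) (fun x y => κ x y) (fun x y => hκe x y)
      (fun x y z => hκl x y z) (fun x y z => hκr x y z) (fun x => hκa x) rad₁ hrad₁ hi4
    refine ⟨Fin.cons a₀ (fun i => (a i : G)), Fin.cons b₀ (fun i => (b i : G)), ?_⟩
    intro i j
    have ha1 : ∀ i, κ (a i) a₀ = 1 := fun i => (a i).2.1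
    have ha2 : ∀ i, κ (a i) b₀ = 1 := fun i => (a i).2.2
    have hb1 : ∀ i, κ (b i) a₀ = 1 := fun i => (b i).2.1
    have hb2 : ∀ i, κ (b i) b₀ = 1 := fun i => (b i).2.2
    refine Fin.cases ?_ (fun i => ?_) i <;> refine Fin.cases ?_ (fun j => ?_) j
    · simp only [Fin.cons_zero, if_true]
      exact ⟨hκa _, hκa _, hab⟩
    · simp only [Fin.cons_zero, Fin.cons_succ]
      refine ⟨hskew1 _ _ (ha1 j), hskew1 _ _ (hb2 j), ?_⟩
      rw [if_neg (Fin.succ_ne_zero j).symm]
      exact hskew1 _ _ (hb1 j)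
    · simp only [Fin.cons_zero, Fin.cons_succ]
      refine ⟨ha1 i, hb2 i, ?_⟩
      rw [if_neg (Fin.succ_ne_zero i)]
      exact ha2 i
    · simp only [Fin.cons_succ, Fin.succ_inj]
      exact hab' i j

end Pool.Agent.HForm
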