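import Pool.Agent.Lib_MP_4009a7_al.CTr

/-!
# Piece RC1: group theory for the third prime
-/

set_option autoImplicit false

open scoped commutatorElement

namespace Pool.Agent.HForm

variable {H : Type} [Group H] [Finite H]

/-- `center_trick_rel` for subgroups of `H`: apply it to the group `D` and the subgroups `R.subgroupOf D`, `E.subgroupOf D` -/
theorem center_trick_sub {r : ℕ} (hr : r.Prime) {B : ℕ} (hB : 1 ≤ B) (D R E : Subgroup H) (hD : IsPGroup r D)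
    (hRD : R ≤ D) (hRn : ∀ d ∈ D, ∀ x ∈ R, d * x * d⁻¹ ∈ R)
    (h : ∀ x ∈ D, x ∉ R → ∃ N ≤ D, (∀ d ∈ D, ∀ n ∈ N, d * n * d⁻¹ ∈ N) ∧ R ≤ N ∧ x ∉ N ∧ N.relIndex D ≤ B)
    (hRE : R ≤ E) (hED : E ≤ D) (hE : ∀ x ∈ D, x ^ r ∈ R → (∀ d ∈ D, ⁅x, d⁆ ∈ R) → x ∈ E) :
    R.relIndex D ≤ B ^ (R.relIndex E) := by
  have hn : (R.subgroupOf D).Normal := by
    refine ⟨fun x hx d => ?_⟩
    rw [Subgroup.mem_subgroupOf] at hx ⊢
    exact hRn d d.2 x hx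
  have key := center_trick_rel hr hD hB (R.subgroupOf D) hn (fun x hx => by
    obtain ⟨N, hND, hNn, hRN, hxN, hNB⟩ := h x x.2 (fun hxR => hx (Subgroup.mem_subgroupOf.2 hxR))
    refine ⟨N.subgroupOf D, ⟨fun n hn' d => ?_⟩, ?_, fun hxN' => hxN (Subgroup.mem_subgroupOf.1 hxN'), hNB⟩
    · rw [Subgroup.mem_subgroupOf] at hn' ⊢
      exact hNn d d.2 n hn'
    · intro y hy
      rw [Subgroup.mem_subgroupOf] at hy ⊢
      exact hRN hy) (E.subgroupOf D) (fun y hy => by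
    rw [Subgroup.mem_subgroupOf] at hy ⊢
    exact hRE hy) (fun x hx hxd => by
    rw [Subgroup.mem_subgroupOf] at hx ⊢
    exact hE x x.2 hx (fun d hd => Subgroup.mem_subgroupOf.1 (hxd ⟨d, hd⟩)))
  rw [Subgroup.relIndex_subgroupOf hED] at key
  exact key

/-- PROOF. `E₀` acts by conjugation on the cosets of `K₀` in `Q` (at most `B` of them; `E₀` normalises `Q` and `K₀`); the kernel is `E₁ = {x ∈ E₀ | ∀ y ∈ Q, ⁅x, y⁆ ∈ K₀}` (`K₀` is normal in `Q`), so `E₁.relIndex E₀ ≤ B !`. CLAIM: `⁅x, y⁆ ∈ J` for `x ∈ E₁`, `y ∈ Q`. By `hJ` we have to show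
`d ⁅x, y⁆ d⁻¹ = ⁅d x d⁻¹, y'⁆ ∈ K₀`, `y' = d y d⁻¹ ∈ Q`, `d ∈ D`. As `⁅x, d⁆ ∈ R`, `d x d⁻¹ = s * x` with `s ∈ R`, and `⁅s * x, y'⁆ = (s * ⁅x, y'⁆ * s⁻¹) * ⁅s, y'⁆`; here `⁅x, y'⁆ ∈ K₀`, `⁅s, y'⁆ ∈ J ≤ K₀` and `s` normalises `K₀` (`s k s⁻¹ = ⁅s, k⁆ * k`). So
`E₁ ⊓ M ≤ R` by `hR`, hence `R.relIndex E₁ ≤ M.relIndex D ≤ B` (`E₁ ≤ D`). -/
theorem stab_bound {B : ℕ} (Q D K₀ J M R E₀ : Subgroup H) (hK₀Q : K₀ ≤ Q) (hi : K₀.relIndex Q ≤ B)
    (hn : ∀ x ∈ Q, ∀ k ∈ K₀, x * k * x⁻¹ ∈ K₀) (hDQ : ∀ d ∈ D, ∀ x ∈ Q, d * x * d⁻¹ ∈ Q)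
    (hJ : ∀ x, x ∈ J ↔ x ∈ Q ∧ ∀ d ∈ D, d * x * d⁻¹ ∈ K₀) (hMD : M ≤ D) (hM : M.relIndex D ≤ B)
    (hR : ∀ x, x ∈ R ↔ x ∈ M ∧ ∀ y ∈ Q, ⁅x, y⁆ ∈ J) (hE₀D : E₀ ≤ D) (hRE₀ : R ≤ E₀)
    (hE₀ : ∀ x ∈ E₀, ∀ d ∈ D, ⁅x, d⁆ ∈ R) (hE₀K : ∀ x ∈ E₀, ∀ k ∈ K₀, x * k * x⁻¹ ∈ K₀) :
    R.relIndex E₀ ≤ B * B.factorial := by
  classical
  have hcQ : ∀ x ∈ E₀, ∀ y ∈ Q, x * y * x⁻¹ ∈ Q := fun x hx y hy => hDQ x (hE₀D hx) y hy
  let X := Q ⧸ K₀.subgroupOf Q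
  let act : E₀ → Q → Q := fun x y => ⟨x * y * (x : H)⁻¹, hcQ x x.2 y y.2⟩
  have hact : ∀ (x : E₀) (y₁ y₂ : Q), y₁⁻¹ * y₂ ∈ K₀.subgroupOf Q →
      (act x y₁)⁻¹ * act x y₂ ∈ K₀.subgroupOf Q := by
    intro x y₁ y₂ h12
    rw [Subgroup.mem_subgroupOf] at h12 ⊢
    have h1 : (((act x y₁)⁻¹ * act x y₂ : Q) : H) = x * ((y₁⁻¹ * y₂ : Q) : H) * (x : H)⁻¹ := by
      show (x * (y₁ : H) * (x : H)⁻¹)⁻¹ * (x * (y₂ : H) * (x : H)⁻¹) =
        x * ((y₁ : H)⁻¹ * (y₂ : H)) * (x : H)⁻¹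
      group
    rw [h1]
    exact hE₀K x x.2 _ h12
  let A : MulAction E₀ X :=
    { smul := fun x => Quotient.map' (act x) (fun y₁ y₂ h12 => by
        rw [QuotientGroup.leftRel_apply] at h12 ⊢
        exact hact x y₁ y₂ h12)
      one_smul := by
        intro y
        induction y using QuotientGroup.induction_on with
        | H y =>
          show (QuotientGroup.mk (act 1 y) : X) = QuotientGroup.mk y
          congr 1
          apply Subtype.ext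
          show ((1 : E₀) : H) * (y : H) * (((1 : E₀) : H))⁻¹ = y
          rw [Subgroup.coe_one, one_mul, inv_one, mul_one]
      mul_smul := by
        intro a b y
        induction y using QuotientGroup.induction_on with
        | H y =>
          show (QuotientGroup.mk (act (a * b) y) : X) = QuotientGroup.mk (act a (act b y))
          congr 1
          apply Subtype.ext
          show ((a * b : E₀) : H) * (y : H) * (((a * b : E₀) : H))⁻¹ =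
            (a : H) * ((b : H) * (y : H) * (b : H)⁻¹) * (a : H)⁻¹
          rw [Subgroup.coe_mul]
          group }
  let φ : E₀ →* Equiv.Perm X := @MulAction.toPermHom E₀ X _ A
  have hφ : ∀ (x : E₀) (y : Q), φ x (QuotientGroup.mk y) = QuotientGroup.mk (act x y) :=
    fun x y => rfl
  have hXf : Finite X := inferInstance
  have hcard : Nat.card X ≤ B := hi
  have hker : φ.ker.index ≤ B.factorial := by
    rw [Subgroup.index_ker]
    refine (Nat.card_le_card_of_injective _ (Subtype.val_injective (p := fun f => f ∈ φ.range))).trans ?_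
    rw [Nat.card_perm]
    exact Nat.factorial_le hcard
  have hJK : J ≤ K₀ := by
    intro x hx
    have h1 := ((hJ x).1 hx).2 1 (one_mem D)
    rwa [one_mul, inv_one, mul_one] at h1
  have hsub : M.subgroupOf E₀ ⊓ φ.ker ≤ R.subgroupOf E₀ := by
    rintro x ⟨hxM, hxk⟩
    have hxM' : (x : H) ∈ M := Subgroup.mem_subgroupOf.1 hxM
    have hxk' : φ x = 1 := MonoidHom.mem_ker.1 hxk
    have hxK : ∀ y ∈ Q, ⁅(x : H), y⁆ ∈ K₀ := by
      intro y hy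
      have h1 := hφ x ⟨y, hy⟩
      rw [hxk', Equiv.Perm.one_apply] at h1
      have h2 := (QuotientGroup.eq (s := K₀.subgroupOf Q)).1 h1
      rw [Subgroup.mem_subgroupOf] at h2
      have h3 : (((⟨y, hy⟩ : Q)⁻¹ * act x ⟨y, hy⟩ : Q) : H) = y⁻¹ * (x * y * (x : H)⁻¹) := rfl
      rw [h3] at h2
      have h4 := hn y hy _ h2
      have h5 : y * (y⁻¹ * (x * y * (x : H)⁻¹)) * y⁻¹ = ⁅(x : H), y⁆ := by
        rw [commutatorElement_def]
        group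
      rwa [h5] at h4
    rw [Subgroup.mem_subgroupOf, hR]
    refine ⟨hxM', fun y hy => (hJ _).2 ⟨?_, fun d hd => ?_⟩⟩
    · rw [commutatorElement_def]
      exact Q.mul_mem (hcQ x x.2 y hy) (Q.inv_mem hy)
    · have hs : ⁅(x : H), d⁆⁻¹ ∈ R := R.inv_mem (hE₀ x x.2 d hd)
      have hy' : d * y * d⁻¹ ∈ Q := hDQ d hd y hy
      have hk : ⁅(x : H), d * y * d⁻¹⁆ ∈ K₀ := hxK _ hy'
      have h1 : d * ⁅(x : H), y⁆ * d⁻¹ =
          ⁅⁅(x : H), d⁆⁻¹, ⁅(x : H), d * y * d⁻¹⁆⁆ * ⁅(x : H), d * y * d⁻¹⁆ *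
            ⁅⁅(x : H), d⁆⁻¹, d * y * d⁻¹⁆ := by
        simp only [commutatorElement_def]
        group
      rw [h1]
      refine K₀.mul_mem (K₀.mul_mem ?_ hk) ?_
      · exact hJK (((hR _).1 hs).2 _ (hK₀Q hk))
      · exact hJK (((hR _).1 hs).2 _ hy')
  have hfin : (M.subgroupOf E₀ ⊓ φ.ker).FiniteIndex := inferInstance
  calc R.relIndex E₀ = (R.subgroupOf E₀).index := rfl
    _ ≤ (M.subgroupOf E₀ ⊓ φ.ker).index := Subgroup.index_antitone hsub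
    _ ≤ (M.subgroupOf E₀).index * φ.ker.index := Subgroup.index_inf_le
    _ ≤ B * B.factorial := by
        refine Nat.mul_le_mul ?_ hker
        refine le_trans ?_ hM
        refine Subgroup.relIndex_le_of_le_right hE₀D ?_
        exact Subgroup.FiniteIndex.index_ne_zero

end Pool.Agent.HForm
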