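import Pool.Agent.Lib_MP_4009a7_al.PVBasic
import Pool.Agent.Lib_MP_4009a7_al.RepT

/-!
# Piece SEC: the representation on an elementary abelian section
-/

set_option autoImplicit false

open scoped commutatorElement

namespace Pool.Agent.HForm

variable {F : GClass}

section sec

variable {p : ℕ} {G : Type} [Group G] (L K : Subgroup G)

/-- the section `K / L` -/
private abbrev SQ : Type := K ⧸ L.subgroupOf K

private abbrev sqComm [L.Normal] (h2 : ∀ x ∈ K, ∀ y ∈ K, ⁅x, y⁆ ∈ L) :
    CommGroup (SQ L K) :=
  { (inferInstance : Group (SQ L K)) with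
    mul_comm := by
      intro a b
      induction a using QuotientGroup.induction_on with
      | H x =>
        induction b using QuotientGroup.induction_on with
        | H y =>
          show QuotientGroup.mk (x * y) = QuotientGroup.mk (y * x)
          rw [QuotientGroup.eq, Subgroup.mem_subgroupOf]
          have h := h2 _ (K.inv_mem y.2) _ (K.inv_mem x.2)
          have e : (((x * y)⁻¹ * (y * x) : K) : G) = ⁅(y : G)⁻¹, (x : G)⁻¹⁆ := by
            simp [commutatorElement_def, mul_assoc]
          rw [e]; exact h }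

end sec

/-- PROOF. Let `V = Additive (K ⧸ L.subgroupOf K)` (commutative by `h2`), a module over `ZMod p` by `h1` (`AddCommGroup.zmodModule`), and `ρ g` the map induced by conjugation `k ↦ g * k * g⁻¹`. `g ∈ ρ.ker` iff `g * k * g⁻¹ * k⁻¹ ∈ L` for all `k ∈ K`. `F (SD ρ)`: let
`S = {(x, y) ∈ G × G | x * y⁻¹ ∈ K}`, a subgroup of `G × G` (`K` is normal). The map `S → SD ρ`, `(x, y) ↦ ⟨x * y⁻¹, y⟩` is a surjective homomorphism: `x x' (y y')⁻¹ = (x y⁻¹) * (y (x' y'⁻¹) y⁻¹)`. So `SD ρ` is in `F` (`PV.prod`, `PV.inj`, `PV.surj`).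
Irreducibility: an invariant subspace of `V` corresponds to a normal subgroup of `G` between `L` and `K`. -/
theorem exists_secRep (hF : PV F) {p : ℕ} (hp : p.Prime) {G : Type} [Group G] (hG : F G) (L K : Subgroup G)
    (hL : L.Normal) (hK : K.Normal) (hLK : L ≤ K) (h1 : ∀ x ∈ K, x ^ p ∈ L)
    (h2 : ∀ x ∈ K, ∀ y ∈ K, ⁅x, y⁆ ∈ L) :
    ∃ (V : Type) (_ : AddCommGroup V) (_ : Module (ZMod p) V) (ρ : G →* Module.End (ZMod p) V),
      F (SD ρ) ∧ (∀ g, g ∈ ρ.ker ↔ ∀ x ∈ K, ⁅g, x⁆ ∈ L) ∧ Nat.card V = L.relIndex K ∧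
      (IsChief L K → Irr ρ) := by
  letI iC : CommGroup (SQ L K) := sqComm L K h2
  have hpow : ∀ x : Additive (SQ L K), p • x = 0 := by
    intro x
    apply Additive.toMul.injective
    change (Additive.toMul x) ^ p = 1
    generalize Additive.toMul x = y
    induction y using QuotientGroup.induction_on with
    | H k =>
      change (QuotientGroup.mk (k ^ p) : SQ L K) = 1
      rw [QuotientGroup.eq_one_iff, Subgroup.mem_subgroupOf]
      simpa using h1 k k.2
  obtain ⟨iM⟩ : Nonempty (Module (ZMod p) (Additive (SQ L K))) := ⟨AddCommGroup.zmodModule hpow⟩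
  let cg (g : G) : SQ L K →* SQ L K := QuotientGroup.map _ _ (MulAut.conjNormal g : MulAut K).toMonoidHom (by
    intro k hk
    rw [Subgroup.mem_comap, Subgroup.mem_subgroupOf]
    rw [Subgroup.mem_subgroupOf] at hk
    simpa using hL.conj_mem _ hk g)
  have cg_mk : ∀ (g : G) (k : K), cg g (QuotientGroup.mk k) =
      QuotientGroup.mk (⟨g * k * g⁻¹, hK.conj_mem _ k.2 g⟩ : K) := by
    intro g k
    change QuotientGroup.mk _ = QuotientGroup.mk _
    congr 1
  let ρ : G →* Module.End (ZMod p) (Additive (SQ L K)) :=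
    { toFun := fun g => AddMonoidHom.toZModLinearMap p (MonoidHom.toAdditive (cg g))
      map_one' := by
        refine LinearMap.ext fun x => ?_
        apply Additive.toMul.injective
        change cg 1 (Additive.toMul x) = Additive.toMul x
        generalize Additive.toMul x = y
        induction y using QuotientGroup.induction_on with
        | H k =>
          rw [cg_mk]
          congr 1
          ext; simp
      map_mul' := by
        intro g h
        refine LinearMap.ext fun x => ?_
        apply Additive.toMul.injective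
        change cg (g * h) (Additive.toMul x) = cg g (cg h (Additive.toMul x))
        generalize Additive.toMul x = y
        induction y using QuotientGroup.induction_on with
        | H k =>
          rw [cg_mk, cg_mk, cg_mk]
          congr 1
          ext; simp [mul_assoc] }
  have ρ_mk : ∀ (g : G) (k : K), ρ g (Additive.ofMul (QuotientGroup.mk k)) =
      Additive.ofMul (QuotientGroup.mk (⟨g * k * g⁻¹, hK.conj_mem _ k.2 g⟩ : K) : SQ L K) := by
    intro g k
    exact congrArg Additive.ofMul (cg_mk g k)
  refine ⟨Additive (SQ L K), inferInstance, iM, ρ, ?_, ?_, ?_, ?_⟩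
  · -- F (SD ρ)
    let S : Subgroup (G × G) :=
      { carrier := {z | z.1 * z.2⁻¹ ∈ K}
        one_mem' := by simp
        mul_mem' := by
          rintro ⟨x, y⟩ ⟨x', y'⟩ h h'
          simp only [Set.mem_setOf_eq, Prod.mk_mul_mk] at h h' ⊢
          have e : x * x' * (y * y')⁻¹ = (x * (x' * y'⁻¹) * x⁻¹) * (x * y⁻¹) := by
            simp [mul_assoc]
          rw [e]
          exact K.mul_mem (hK.conj_mem _ h' x) h
        inv_mem' := by
          rintro ⟨x, y⟩ h
          simp only [Set.mem_setOf_eq, Prod.inv_mk] at h ⊢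
          have e : x⁻¹ * y⁻¹⁻¹ = x⁻¹ * (x * y⁻¹)⁻¹ * x⁻¹⁻¹ := by
            simp [mul_assoc]
          rw [e]
          exact hK.conj_mem _ (K.inv_mem h) x⁻¹ }
    let φ : S →* SD ρ :=
      { toFun := fun z => ⟨Additive.ofMul (QuotientGroup.mk (⟨z.1.1 * z.1.2⁻¹, z.2⟩ : K)), z.1.2⟩
        map_one' := by
          refine SD.ext ?_ rfl
          change Additive.ofMul (QuotientGroup.mk (_ : K)) = Additive.ofMul (QuotientGroup.mk (1 : K))
          congr 2
          ext; simp
        map_mul' := by
          rintro ⟨⟨x, y⟩, h⟩ ⟨⟨x', y'⟩, h'⟩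
          refine SD.ext ?_ rfl
          rw [SD.mul_v, ρ_mk]
          change Additive.ofMul (QuotientGroup.mk (_ : K)) = Additive.ofMul (QuotientGroup.mk (_ * _ : K))
          congr 2
          ext; simp [mul_assoc] }
    refine hF.surj φ ?_ (hF.inj S.subtype S.subtype_injective (hF.prod hG hG))
    rintro ⟨v, y⟩
    obtain ⟨k, hk⟩ := QuotientGroup.mk_surjective (Additive.toMul v)
    refine ⟨⟨⟨k * y, y⟩, by simp [S]⟩, ?_⟩
    refine SD.ext ?_ rfl
    change Additive.ofMul (QuotientGroup.mk (_ : K)) = v
    rw [← ofMul_toMul v, ← hk]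
    congr 2
    ext; simp
  · -- kernel
    intro g
    constructor
    · intro hg x hx
      have h3 : ρ g = 1 := hg
      have h4 := ρ_mk g ⟨x, hx⟩
      rw [h3, Module.End.one_apply] at h4
      have h5 := Additive.ofMul.injective h4
      rw [QuotientGroup.eq, Subgroup.mem_subgroupOf] at h5
      have h6 : x⁻¹ * (g * x * g⁻¹) ∈ L := by simpa using h5
      have h7 := hL.conj_mem _ h6 x
      rw [commutatorElement_def]
      convert h7 using 1
      group
    · intro hg
      rw [MonoidHom.mem_ker]
      refine LinearMap.ext fun v => ?_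
      obtain ⟨k, hk⟩ := QuotientGroup.mk_surjective (Additive.toMul v)
      rw [← ofMul_toMul v, ← hk, ρ_mk, Module.End.one_apply]
      congr 1
      symm
      rw [QuotientGroup.eq, Subgroup.mem_subgroupOf]
      have h6 := hg k k.2
      have h7 := hL.conj_mem _ h6 (k : G)⁻¹
      have e : ((k⁻¹ * ⟨g * k * g⁻¹, hK.conj_mem _ k.2 g⟩ : K) : G) = (k : G)⁻¹ * ⁅g, (k : G)⁆ * (k : G)⁻¹⁻¹ := by
        simp [commutatorElement_def, mul_assoc]
      rw [e]; exact h7
  · change Nat.card (SQ L K) = _
    rfl
  · intro hch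
    have hmem : ∀ k : K, (Additive.ofMul (QuotientGroup.mk k : SQ L K) = 0) ↔ (k : G) ∈ L := by
      intro k
      constructor
      · intro h
        have h3 : (QuotientGroup.mk k : SQ L K) = 1 := Additive.ofMul.injective h
        rw [QuotientGroup.eq_one_iff, Subgroup.mem_subgroupOf] at h3
        exact h3
      · intro h
        have h3 : (QuotientGroup.mk k : SQ L K) = 1 := by
          rw [QuotientGroup.eq_one_iff, Subgroup.mem_subgroupOf]; exact h
        rw [h3]; rfl
    constructor
    · obtain ⟨x, hx, hxL⟩ := SetLike.exists_of_lt hch.2.2.1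
      refine ⟨Additive.ofMul (QuotientGroup.mk ⟨x, hx⟩), 0, ?_⟩
      rw [Ne, hmem]
      exact hxL
    · intro U hU
      let M : Subgroup G :=
        { carrier := {x | ∃ h : x ∈ K, Additive.ofMul (QuotientGroup.mk ⟨x, h⟩ : SQ L K) ∈ U}
          one_mem' := ⟨K.one_mem, by
            rw [(hmem ⟨1, K.one_mem⟩).2 L.one_mem]; exact U.zero_mem⟩
          mul_mem' := by
            rintro x y ⟨hx, hxU⟩ ⟨hy, hyU⟩
            exact ⟨K.mul_mem hx hy, U.add_mem hxU hyU⟩
          inv_mem' := by
            rintro x ⟨hx, hxU⟩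
            exact ⟨K.inv_mem hx, U.neg_mem hxU⟩ }
      have hM : M.Normal := by
        constructor
        rintro x ⟨hx, hxU⟩ g
        refine ⟨hK.conj_mem _ hx g, ?_⟩
        have := hU g _ hxU
        rw [ρ_mk] at this
        exact this
      have hLM : L ≤ M := by
        intro x hx
        refine ⟨hLK hx, ?_⟩
        rw [(hmem ⟨x, hLK hx⟩).2 hx]; exact U.zero_mem
      have hMK : M ≤ K := fun x hx => hx.1
      rcases hch.2.2.2 M hM hLM hMK with h | h
      · left
        rw [Submodule.eq_bot_iff]
        intro v hv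
        obtain ⟨k, hk⟩ := QuotientGroup.mk_surjective (Additive.toMul v)
        rw [← ofMul_toMul v, ← hk] at hv ⊢
        rw [hmem, ← h]
        exact ⟨k.2, hv⟩
      · right
        rw [Submodule.eq_top_iff']
        intro v
        obtain ⟨k, hk⟩ := QuotientGroup.mk_surjective (Additive.toMul v)
        rw [← ofMul_toMul v, ← hk]
        have : (k : G) ∈ M := by rw [h]; exact k.2
        exact this.2

end Pool.Agent.HForm
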