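import Pool.Agent.Lib_MP_4009a7_al.HypInv
import Pool.Agent.Lib_MP_4009a7_al.EqvA2
import Pool.Agent.Lib_MP_4009a7_al.FoxL

/-!
# Piece SEPA: separation of words modulo `A_q A_r`
-/

set_option autoImplicit false

open scoped commutatorElement

namespace Pool.Agent.HForm

/-- the values of words in a commutative group of exponent `r` -/
theorem sepa_lift {r n : ℕ} (m : Fin n → ZMod r) (g : FreeGroup (Fin n)) :
    FreeGroup.lift (fun k => Multiplicative.ofAdd (m k)) g =
      Multiplicative.ofAdd (m ⬝ᵥ expSum r g) := by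
  let D : (Fin n → ZMod r) →+ ZMod r :=
    { toFun := fun v => m ⬝ᵥ v
      map_zero' := dotProduct_zero m
      map_add' := fun v w => dotProduct_add m v w }
  have e : FreeGroup.lift (fun k => Multiplicative.ofAdd (m k)) =
      (AddMonoidHom.toMultiplicative D).comp (FreeGroup.lift
        (fun j => Multiplicative.ofAdd (Pi.single j (1 : ZMod r) : Fin n → ZMod r))) := by
    refine FreeGroup.ext_hom _ _ fun j => ?_
    rw [FreeGroup.lift_apply_of, MonoidHom.comp_apply, FreeGroup.lift_apply_of]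
    show Multiplicative.ofAdd (m j) = Multiplicative.ofAdd (m ⬝ᵥ Pi.single j 1)
    rw [dotProduct_single_one]
  rw [e]
  rfl

theorem sepa_dot {r n : ℕ} {v w : Fin n → ZMod r} (h : ∀ m : Fin n → ZMod r, m ⬝ᵥ v = m ⬝ᵥ w) :
    v = w := by
  funext k
  have := h (Pi.single k 1)
  rwa [single_one_dotProduct, single_one_dotProduct] at this

/-- the coefficients of the image in the group ring of `(Z/r)^n` over `F_q` -/
noncomputable def sepaA (q r : ℕ) {n : ℕ} (f : FreeGroup (Fin n) →₀ ℤ) (μ : Fin n → ZMod r) :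
    ZMod q := open Classical in
  f.sum (fun u c => if expSum r u = μ then ((c : ℤ) : ZMod q) else 0)

theorem sepa_sum (q r : ℕ) [NeZero r] {n : ℕ} (f : FreeGroup (Fin n) →₀ ℤ) :
    ∑ μ, sepaA q r f μ = (((f.sum fun _ c => c : ℤ)) : ZMod q) := by
  unfold sepaA Finsupp.sum
  rw [Finset.sum_comm, Int.cast_sum]
  refine Finset.sum_congr rfl fun u _ => ?_
  rw [Finset.sum_ite_eq]
  simp

/-- the action of `ZMod q` -/
noncomputable def sepaT (q : ℕ) {P : Type} [AddCommGroup P] (y : P) (hy : q • y = 0) : ZMod q →+ P :=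
  ZMod.lift q ⟨zmultiplesHom P y, by simpa using hy⟩

theorem sepaT_int (q : ℕ) {P : Type} [AddCommGroup P] (y : P) (hy : q • y = 0) (c : ℤ) :
    sepaT q y hy (c : ZMod q) = c • y := by
  unfold sepaT
  rw [ZMod.lift_coe]
  rfl

theorem sepaT_val (q : ℕ) [NeZero q] {P : Type} [AddCommGroup P] (y : P) (hy : q • y = 0)
    (z : ZMod q) : z.val • y = sepaT q y hy z := by
  have h : z = ((z.val : ℤ) : ZMod q) := by
    rw [Int.cast_natCast, ZMod.natCast_zmod_val]
  conv_rhs => rw [h, sepaT_int]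
  rw [natCast_zsmul]

theorem sepa_ev {q r n : ℕ} [NeZero r] {P : Type} [AddCommGroup P] (hP : ∀ x : P, q • x = 0)
    (τ : Multiplicative (ZMod r) →* Module.End ℤ P) (m : Fin n → ZMod r) (x : P)
    (f : FreeGroup (Fin n) →₀ ℤ) :
    ∑ μ : Fin n → ZMod r, sepaT q (τ (Multiplicative.ofAdd (m ⬝ᵥ μ)) x) (hP _) (sepaA q r f μ) =
      ev τ (fun k => Multiplicative.ofAdd (m k)) f x := by
  have h1 : ∀ μ : Fin n → ZMod r,
      sepaT q (τ (Multiplicative.ofAdd (m ⬝ᵥ μ)) x) (hP _) (sepaA q r f μ) =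
      open Classical in ∑ u ∈ f.support, if expSum r u = μ then
        f u • τ (Multiplicative.ofAdd (m ⬝ᵥ μ)) x else 0 := by
    intro μ
    unfold sepaA Finsupp.sum
    rw [map_sum]
    refine Finset.sum_congr rfl fun u _ => ?_
    by_cases hu : expSum r u = μ
    · simp only [if_pos hu]
      exact sepaT_int q _ (hP _) _
    · simp only [if_neg hu]
      exact map_zero (sepaT q _ (hP _))
  rw [Finset.sum_congr rfl fun μ _ => h1 μ, Finset.sum_comm]
  unfold ev Finsupp.sum
  rw [LinearMap.sum_apply]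
  refine Finset.sum_congr rfl fun u _ => ?_
  rw [Finset.sum_ite_eq, if_pos (Finset.mem_univ _), LinearMap.smul_apply, sepa_lift]

theorem sepa_comm {r n : ℕ} {P : Type} [AddCommGroup P]
    (τ : Multiplicative (ZMod r) →* Module.End ℤ P) (t : Fin n → Multiplicative (ZMod r)) (a : P)
    (f : FreeGroup (Fin n) →₀ ℤ) (j : Multiplicative (ZMod r)) :
    ev τ t f (τ j a) = τ j (ev τ t f a) := by
  unfold ev Finsupp.sum
  rw [LinearMap.sum_apply, LinearMap.sum_apply, map_sum]
  refine Finset.sum_congr rfl fun u _ => ?_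
  rw [LinearMap.smul_apply, LinearMap.smul_apply, map_zsmul, ← Module.End.mul_apply,
    ← Module.End.mul_apply, ← map_mul, ← map_mul, mul_comm]

theorem sepa_ev_one {r n : ℕ} {P : Type} [AddCommGroup P]
    (τ : Multiplicative (ZMod r) →* Module.End ℤ P) (a : P) (f : FreeGroup (Fin n) →₀ ℤ) :
    ev τ (fun k => Multiplicative.ofAdd ((0 : Fin n → ZMod r) k)) f a =
      (f.sum fun _ c => c) • a := by
  unfold ev Finsupp.sum
  rw [LinearMap.sum_apply, Finset.sum_smul]
  refine Finset.sum_congr rfl fun u _ => ?_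
  rw [LinearMap.smul_apply, sepa_lift, zero_dotProduct, ofAdd_zero, map_one, Module.End.one_apply]

theorem sepa_dvd {q : ℕ} (hq : q.Prime) {P : Type} [AddCommGroup P] (hP : ∀ x : P, q • x = 0)
    {a : P} (ha : a ≠ 0) {d : ℤ} (hd : d • a = 0) : ((d : ℤ) : ZMod q) = 0 := by
  have h1 : addOrderOf a = q := by
    have h2 := addOrderOf_dvd_of_nsmul_eq_zero (hP a)
    rcases (Nat.dvd_prime hq).1 h2 with h3 | h3
    · exact absurd (AddMonoid.addOrderOf_eq_one_iff.1 h3) ha
    · exact h3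
  have h2 := addOrderOf_dvd_iff_zsmul_eq_zero.2 hd
  rw [h1] at h2
  exact (ZMod.intCast_zmod_eq_zero_iff_dvd d q).2 h2

/-- SEPARATION. PROOF. (i) With `t k = ⟨0, m k⟩` the `h`-components give `m ⬝ expSum r g = m ⬝ expSum r g'` for all `m`, so `expSum r g = expSum r g'`. (ii) By `sd_lift`, `(lift t g).v = ∑ k, ev τ (h ∘ t) (fox k g) ((t k).v)`. Let `c` be the common
`h`-component of `lift t g`, `lift t g'`. With `t k = ⟨a, m k⟩` for one `k` and `⟨0, m l⟩` for `l ≠ k` the hypothesis gives `χ (τ c⁻¹ x) = 1` for `x = ev τ m (fox k g) a - ev τ m (fox k g') a`; replacing `a` by `τ j a` (which commutes with everything, `ZMod r` is commutative) gives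
`χ (τ j x) = 1` for all `j`, so `x = 0` by `hfaith`. (iii) With `m = 0`: `ev τ 0 (fox k g) a = (exponent sum of x_k in g) • a` (`fox_sum`), so the exponent sums of `g` and `g'` agree modulo `q` (`P ≠ 0`).
(iv) `C μ = ` the difference of the two sides of `h2` of `eqv_A2_of_fox`. `∑ μ, C μ = 0` by (iii) (`fox_sum`) and by (ii) `∑ μ, C μ • τ (m ⬝ μ) x = 0` on `P`. By `hyper_inv` `C = 0`. Now apply `eqv_A2_of_fox`. -/
theorem sep_A2 {q r n : ℕ} (hq : q.Prime) (hr : r.Prime) (hqr : q ≠ r) {P K : Type} [AddCommGroup P] [Field K]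
    [Nontrivial P] (hP : ∀ x : P, q • x = 0) (τ : Multiplicative (ZMod r) →* Module.End ℤ P)
    (hnorm : ∀ x : P, ∑ᶠ j : ZMod r, τ (Multiplicative.ofAdd j) x = 0) (χ : Multiplicative P →* K)
    (hfaith : ∀ x : P, x ≠ 0 → ∃ j : Multiplicative (ZMod r), χ (Multiplicative.ofAdd (τ j x)) ≠ 1)
    (g g' : FreeGroup (Fin n))
    (h : ∀ t : Fin n → SD τ, (FreeGroup.lift t g).h = (FreeGroup.lift t g').h ∧
      χ (Multiplicative.ofAdd (τ (FreeGroup.lift t g).h⁻¹ (FreeGroup.lift t g).v)) =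
      χ (Multiplicative.ofAdd (τ (FreeGroup.lift t g').h⁻¹ (FreeGroup.lift t g').v))) :
    Eqv (A2 q r) g g' := by
  have hr0 : NeZero r := ⟨hr.ne_zero⟩
  have hq0 : NeZero q := ⟨hq.ne_zero⟩
  have key : ∀ (m : Fin n → ZMod r) (v : Fin n → P),
      m ⬝ᵥ expSum r g = m ⬝ᵥ expSum r g' ∧
      χ (Multiplicative.ofAdd (τ (Multiplicative.ofAdd (m ⬝ᵥ expSum r g))⁻¹
        (∑ i, ev τ (fun k => Multiplicative.ofAdd (m k)) (fox i g) (v i)))) =
      χ (Multiplicative.ofAdd (τ (Multiplicative.ofAdd (m ⬝ᵥ expSum r g'))⁻¹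
        (∑ i, ev τ (fun k => Multiplicative.ofAdd (m k)) (fox i g') (v i)))) := by
    intro m v
    have h1 := h (fun j => ⟨v j, Multiplicative.ofAdd (m j)⟩)
    rw [sd_lift τ (fun j => Multiplicative.ofAdd (m j)) v g,
      sd_lift τ (fun j => Multiplicative.ofAdd (m j)) v g', sepa_lift, sepa_lift] at h1
    exact h1
  have hexp : expSum r g = expSum r g' := sepa_dot fun m => (key m 0).1
  have hev : ∀ (m : Fin n → ZMod r) (k : Fin n) (a : P),
      ev τ (fun k => Multiplicative.ofAdd (m k)) (fox k g) a =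
      ev τ (fun k => Multiplicative.ofAdd (m k)) (fox k g') a := by
    intro m k a
    by_contra hne
    obtain ⟨j, hj⟩ := hfaith _ (sub_ne_zero.2 hne)
    apply hj
    have hs : ∀ (w : FreeGroup (Fin n)) (b : P),
        ∑ i, ev τ (fun k => Multiplicative.ofAdd (m k)) (fox i w) ((Pi.single k b : Fin n → P) i) =
        ev τ (fun k => Multiplicative.ofAdd (m k)) (fox k w) b := by
      intro w b
      rw [Finset.sum_eq_single k]
      · rw [Pi.single_eq_same]
      · intro i _ hi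
        rw [Pi.single_eq_of_ne hi, map_zero]
      · intro h
        exact absurd (Finset.mem_univ k) h
    have h2 := (key m (Pi.single k
      (τ (Multiplicative.ofAdd (m ⬝ᵥ expSum r g')) (τ j a)))).2
    rw [hs, hs, sepa_comm, sepa_comm, sepa_comm, sepa_comm, hexp] at h2
    have h3 : ∀ y : P, τ (Multiplicative.ofAdd (m ⬝ᵥ expSum r g'))⁻¹
        (τ (Multiplicative.ofAdd (m ⬝ᵥ expSum r g')) y) = y := by
      intro y
      rw [← Module.End.mul_apply, ← map_mul, inv_mul_cancel, map_one, Module.End.one_apply]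
    rw [h3, h3] at h2
    rw [map_sub, sub_eq_add_neg, ofAdd_add, map_mul, h2, ← map_mul, ← ofAdd_add, add_neg_cancel,
      ofAdd_zero, map_one]
  refine eqv_A2_of_fox hq hr g g' hexp fun k μ => ?_
  have hC : (fun μ => sepaA q r (fox k g) μ - sepaA q r (fox k g') μ) = 0 := by
    refine hyper_inv hq hr hqr hP τ hnorm _ ?_ fun m x => ?_
    · rw [finsum_eq_sum_of_fintype, Finset.sum_sub_distrib, sepa_sum, sepa_sum, ← Int.cast_sub]
      obtain ⟨a, ha⟩ := exists_ne (0 : P)
      refine sepa_dvd hq hP ha ?_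
      rw [sub_smul, ← sepa_ev_one τ a (fox k g), ← sepa_ev_one τ a (fox k g'), hev, sub_self]
    · rw [finsum_eq_sum_of_fintype]
      have h1 : ∀ μ : Fin n → ZMod r,
          (sepaA q r (fox k g) μ - sepaA q r (fox k g') μ).val •
            τ (Multiplicative.ofAdd (m ⬝ᵥ μ)) x =
          sepaT q (τ (Multiplicative.ofAdd (m ⬝ᵥ μ)) x) (hP _) (sepaA q r (fox k g) μ) -
          sepaT q (τ (Multiplicative.ofAdd (m ⬝ᵥ μ)) x) (hP _) (sepaA q r (fox k g') μ) := by
        intro μ
        rw [sepaT_val q _ (hP _), map_sub]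
      rw [Finset.sum_congr rfl fun μ _ => h1 μ, Finset.sum_sub_distrib, sepa_ev, sepa_ev, hev,
        sub_self]
  have h2 := congrFun hC μ
  exact sub_eq_zero.1 h2

theorem sepa_pow {r : ℕ} {P : Type} [AddCommGroup P]
    (τ : Multiplicative (ZMod r) →* Module.End ℤ P) (x : SD τ) (hx : x.h = 1) (k : ℕ) :
    (x ^ k).h = 1 ∧ (x ^ k).v = k • x.v := by
  induction k with
  | zero => exact ⟨rfl, by rw [zero_smul]; rfl⟩
  | succ k ih =>
    refine ⟨by rw [pow_succ, SD.mul_h, ih.1, hx, one_mul], ?_⟩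
    rw [pow_succ, SD.mul_v, ih.1, ih.2, map_one, Module.End.one_apply, succ_nsmul]

/-- the invariance of the tests: `SD τ` is in `A2 q r` -/
theorem sd_A2 {q r : ℕ} (hr : r.Prime) {P : Type} [AddCommGroup P] [Finite P] (hP : ∀ x : P, q • x = 0)
    (τ : Multiplicative (ZMod r) →* Module.End ℤ P) : A2 q r (SD τ) := by
  have hr0 : NeZero r := ⟨hr.ne_zero⟩
  have hfin : Finite (Multiplicative (ZMod r)) := inferInstanceAs (Finite (ZMod r))
  refine ⟨Finite.of_injective (fun a : SD τ => (a.v, a.h)) fun a b hab => ?_,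
    (SD.toH τ).ker, inferInstance, ⟨fun x y => ?_, fun x => ?_⟩, ⟨fun x y => ?_, fun x => ?_⟩⟩
  · have h1 := congrArg Prod.fst hab
    have h2 := congrArg Prod.snd hab
    exact SD.ext h1 h2
  · have hx : x.1.h = 1 := x.2
    have hy : y.1.h = 1 := y.2
    apply Subtype.ext
    apply SD.ext
    · show x.1.v + τ x.1.h y.1.v = y.1.v + τ y.1.h x.1.v
      rw [hx, hy, map_one, Module.End.one_apply, Module.End.one_apply, add_comm]
    · show x.1.h * y.1.h = y.1.h * x.1.h
      rw [mul_comm]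
  · have hx : x.1.h = 1 := x.2
    obtain ⟨h1, h2⟩ := sepa_pow τ x.1 hx q
    apply Subtype.ext
    apply SD.ext
    · show (x.1 ^ q).v = 0
      rw [h2, hP]
    · exact h1
  · obtain ⟨x, rfl⟩ := QuotientGroup.mk_surjective x
    obtain ⟨y, rfl⟩ := QuotientGroup.mk_surjective y
    rw [← QuotientGroup.mk_mul, ← QuotientGroup.mk_mul, QuotientGroup.eq, MonoidHom.mem_ker,
      map_mul, map_inv, map_mul, map_mul, mul_comm ((SD.toH τ) y), inv_mul_cancel]
  · obtain ⟨x, rfl⟩ := QuotientGroup.mk_surjective x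
    rw [← QuotientGroup.mk_pow, QuotientGroup.eq_one_iff, MonoidHom.mem_ker, map_pow]
    have h1 : ∀ z : Multiplicative (ZMod r), z ^ r = 1 := by
      intro z
      have h2 : r • (Multiplicative.toAdd z) = 0 := by
        rw [nsmul_eq_mul, ZMod.natCast_self, zero_mul]
      exact h2
    exact h1 _

end Pool.Agent.HForm
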