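import Pool.Agent.Lib_MP_4009a7_al.ExtPV
import Pool.Agent.Lib_MP_4009a7_al.Heis
import Pool.Agent.Lib_MP_4009a7_al.Wreath

/-!
# Piece STR: elementary facts on the explicit classes
-/

set_option autoImplicit false

open scoped commutatorElement

namespace Pool.Agent.HForm

/-! ### auxiliary lemmas -/

private theorem st_mem {p : ℕ} {G : Type} [Group G] {N : Subgroup G} (h : ElAb p N) {x : G}
    (hx : x ∈ N) : x ^ p = 1 :=
  congrArg Subtype.val (h.2 ⟨x, hx⟩)

private theorem st_exp {p e : ℕ} {G : Type} [Group G] (N : Subgroup G) [N.Normal] (h : ElAb p N)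
    (h2 : ∀ y : G ⧸ N, y ^ e = 1) (x : G) : x ^ (p * e) = 1 := by
  rw [mul_comm, pow_mul]
  exact st_mem h ((QuotientGroup.eq_one_iff _).1 (h2 (QuotientGroup.mk' N x)))

private theorem st_one {G : Type} [Group G] {l m : ℕ} (hlm : Nat.Coprime l m)
    (hG : IsPGroup l G) {x : G} (hx : x ^ m = 1) : x = 1 := by
  obtain ⟨k, hk⟩ := hG x
  have h1 : orderOf x ∣ m := orderOf_dvd_of_pow_eq_one hx
  have h2 : orderOf x ∣ l ^ k := orderOf_dvd_of_pow_eq_one hk
  have h3 : orderOf x ∣ 1 := by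
    have := Nat.dvd_gcd h2 h1
    rwa [Nat.Coprime.pow_left k hlm] at this
  exact orderOf_eq_one_iff.1 (Nat.dvd_one.1 h3)

/-- the quotient is trivial -/
private theorem st_comm1 {p : ℕ} {G : Type} [Group G] (N : Subgroup G) [N.Normal] (h : ElAb p N)
    (h2 : ∀ y : G ⧸ N, y = 1) : ∀ x y : G, x * y = y * x := by
  intro x y
  have hx : x ∈ N := (QuotientGroup.eq_one_iff _).1 (h2 (QuotientGroup.mk' N x))
  have hy : y ∈ N := (QuotientGroup.eq_one_iff _).1 (h2 (QuotientGroup.mk' N y))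
  exact congrArg Subtype.val (h.1 ⟨x, hx⟩ ⟨y, hy⟩)

/-- the kernel is trivial -/
private theorem st_bot {p l : ℕ} (hlp : Nat.Coprime l p) {G : Type} [Group G] (hG : IsPGroup l G)
    (N : Subgroup G) (h : ElAb p N) : N = ⊥ := by
  rw [eq_bot_iff]
  intro x hx
  exact Subgroup.mem_bot.2 (st_one hlp hG (st_mem h hx))

private theorem st_inj {G : Type} [Group G] (N : Subgroup G) [N.Normal] (h : N = ⊥) :
    Function.Injective (QuotientGroup.mk' N) := by
  rw [← MonoidHom.ker_eq_bot_iff, QuotientGroup.ker_mk', h]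

private theorem st_comm2 {p l : ℕ} (hlp : Nat.Coprime l p) {G : Type} [Group G]
    (hG : IsPGroup l G) (N : Subgroup G) [N.Normal] (h : ElAb p N)
    (h2 : ∀ x y : G ⧸ N, x * y = y * x) : ∀ x y : G, x * y = y * x := by
  intro x y
  apply st_inj N (st_bot hlp hG N h)
  rw [map_mul, map_mul]
  exact h2 _ _

private theorem st_ext_left {F : GClass} (hF : PV F) {p : ℕ} {G : Type} [Group G] [Finite G]
    (h : ElAb p G) : Finite G ∧ ∃ (N : Subgroup G) (_ : N.Normal), ElAb p N ∧ F (G ⧸ N) := by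
  refine ⟨inferInstance, ⊤, inferInstance, ⟨fun x y => Subtype.ext (h.1 _ _),
    fun x => Subtype.ext (h.2 _)⟩, ?_⟩
  have : Subsingleton (G ⧸ (⊤ : Subgroup G)) := QuotientGroup.subsingleton_quotient_top
  exact hF.surj (1 : Unit →* G ⧸ (⊤ : Subgroup G)) (fun x => ⟨(), Subsingleton.elim _ _⟩) hF.one

private theorem st_ext_right {F : GClass} (hF : PV F) {p : ℕ} {G : Type} [Group G]
    (h : F G) : Finite G ∧ ∃ (N : Subgroup G) (_ : N.Normal), ElAb p N ∧ F (G ⧸ N) := by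
  refine ⟨hF.fin h, ⊥, inferInstance, ⟨fun x y => Subsingleton.elim _ _,
    fun x => Subsingleton.elim _ _⟩, ?_⟩
  exact hF.surj (QuotientGroup.mk' (⊥ : Subgroup G)) (QuotientGroup.mk'_surjective _) h

private theorem st_lcs1 {G : Type} [Group G] (h : ∀ x y : G, x * y = y * x) :
    (⊤ : Subgroup G).lowerCentralSeries 1 = ⊥ := by
  rw [eq_bot_iff, Subgroup.lowerCentralSeries_succ, Subgroup.commutator_le]
  intro x _ y _
  exact Subgroup.mem_bot.2 (commutatorElement_eq_one_iff_mul_comm.2 (h x y))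

private theorem st_lcs2 {G : Type} [Group G] (h : ∀ x y z : G, ⁅⁅x, y⁆, z⁆ = 1) :
    (⊤ : Subgroup G).lowerCentralSeries 2 = ⊥ := by
  rw [eq_bot_iff, Subgroup.lowerCentralSeries_succ, Subgroup.commutator_le]
  have h1 : (⊤ : Subgroup G).lowerCentralSeries 1 ≤ Subgroup.center G := by
    rw [Subgroup.lowerCentralSeries_succ, Subgroup.commutator_le]
    intro x _ y _
    rw [Subgroup.mem_center_iff]
    intro g
    exact (commutatorElement_eq_one_iff_mul_comm.1 (h x y g)).symm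
  intro x hx y _
  refine Subgroup.mem_bot.2 (commutatorElement_eq_one_iff_mul_comm.2 ?_)
  exact (Subgroup.mem_center_iff.1 (h1 hx) y).symm

private theorem st_cop {l q : ℕ} (hl : l.Prime) (hq : q.Prime) (hlq : l ≠ q) :
    Nat.Coprime l (q * Nat.gcd 2 q) := by
  have h1 : Nat.Coprime l q := (Nat.coprime_primes hl hq).2 hlq
  exact Nat.Coprime.mul_right h1 (Nat.Coprime.coprime_dvd_right (Nat.gcd_dvd_right 2 q) h1)

/-! ### exponents -/

theorem exp_A2 (p q : ℕ) : ExpLe (A2 p q) (p * q) := by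
  rintro G _ ⟨_, N, hN, h1, h2⟩ x
  exact st_exp N h1 h2.2 x

theorem exp_A3 (p q r : ℕ) : ExpLe (A3 p q r) (p * (q * r)) := by
  rintro G _ ⟨_, N, hN, h1, h2⟩ x
  exact st_exp N h1 (exp_A2 q r _ h2) x

theorem exp_AT (p q : ℕ) : ExpLe (AT p q) (p * (q * Nat.gcd 2 q)) := by
  rintro G _ ⟨_, N, hN, h1, h2⟩ x
  exact st_exp N h1 h2.2.2.2 x

/-! ### prime power order subgroups -/

/-- PROOF. If `l ∉ {p}` then `N` is trivial, so `G` is isomorphic to `G ⧸ N`; if `l = p` then `l ≠ q` and `G ⧸ N` is trivial. -/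
theorem A2.comm_of_pgroup {p q l : ℕ} (hp : p.Prime) (hq : q.Prime) (hl : l.Prime) (hpq : p ≠ q) {G : Type} [Group G]
    (h : A2 p q G) (hG : IsPGroup l G) : ∀ x y : G, x * y = y * x := by
  obtain ⟨_, N, hN, h1, h2⟩ := h
  by_cases hlp : l = p
  · subst hlp
    exact st_comm1 N h1 fun y => st_one ((Nat.coprime_primes hl hq).2 hpq) (hG.to_quotient N)
      (h2.2 y)
  · exact st_comm2 ((Nat.coprime_primes hl hp).2 hlp) hG N h1 h2.1

/-- PROOF. The same: if `l = p` then `G ⧸ N` is in `A2 q r` and a `p`-group, so trivial; otherwise `N` is trivial. -/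
theorem A3.comm_of_pgroup {p q r l : ℕ} (hp : p.Prime) (hq : q.Prime) (hr : r.Prime) (hl : l.Prime) (hpq : p ≠ q)
    (hpr : p ≠ r) (hqr : q ≠ r) {G : Type} [Group G] (h : A3 p q r G) (hG : IsPGroup l G) :
    ∀ x y : G, x * y = y * x := by
  obtain ⟨_, N, hN, h1, h2⟩ := h
  by_cases hlp : l = p
  · subst hlp
    exact st_comm1 N h1 fun y => st_one (Nat.Coprime.mul_right ((Nat.coprime_primes hl hq).2 hpq)
      ((Nat.coprime_primes hl hr).2 hpr)) (hG.to_quotient N) (exp_A2 q r _ h2 y)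
  · exact st_comm2 ((Nat.coprime_primes hl hp).2 hlp) hG N h1
      (A2.comm_of_pgroup hq hr hl hqr h2 (hG.to_quotient N))

theorem AT.comm_of_pgroup {p q l : ℕ} (hp : p.Prime) (hq : q.Prime) (hl : l.Prime) (hpq : p ≠ q) (hlq : l ≠ q)
    {G : Type} [Group G] (h : AT p q G) (hG : IsPGroup l G) : ∀ x y : G, x * y = y * x := by
  obtain ⟨_, N, hN, h1, h2⟩ := h
  exact st_comm1 N h1 fun y => st_one (st_cop hl hq hlq) (hG.to_quotient N) (h2.2.2.2 y)

theorem nil_A3 {p q r : ℕ} (hp : p.Prime) (hq : q.Prime) (hr : r.Prime) (hpq : p ≠ q)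
    (hpr : p ≠ r) (hqr : q ≠ r) : NilLe (A3 p q r) 1 := by
  intro G _ h l hl hG
  exact st_lcs1 (A3.comm_of_pgroup hp hq hr hl hpq hpr hqr h hG)

theorem nil_AT {p q : ℕ} (hp : p.Prime) (hq : q.Prime) (hpq : p ≠ q) : NilLe (AT p q) 2 := by
  intro G _ h l hl hG
  by_cases hlq : l = q
  · subst hlq
    obtain ⟨_, N, hN, h1, h2⟩ := h
    have hb := st_inj N (st_bot ((Nat.coprime_primes hl hp).2 (Ne.symm hpq)) hG N h1)
    refine st_lcs2 fun x y z => hb ?_
    rw [map_commutatorElement, map_commutatorElement, map_one]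
    exact h2.2.1 _ _ _
  · have h3 := st_lcs1 (AT.comm_of_pgroup hp hq hl hpq hlq h hG)
    rw [eq_bot_iff, ← h3]
    exact Subgroup.lowerCentralSeries_antitone _ (by norm_num)

/-! ### cyclic groups of prime order -/

private theorem st_cyc_dvd {l e : ℕ} (h : ∀ x : Multiplicative (ZMod l), x ^ e = 1) : l ∣ e := by
  have h1 := h (Multiplicative.ofAdd 1)
  rw [← ofAdd_nsmul, ofAdd_eq_one, nsmul_eq_mul, mul_one] at h1
  exact (ZMod.natCast_eq_zero_iff e l).1 h1

theorem prime_of_A3 {p q r l : ℕ} (hp : p.Prime) (hq : q.Prime) (hr : r.Prime) (hl : l.Prime)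
    (h : A3 p q r (Multiplicative (ZMod l))) : l = p ∨ l = q ∨ l = r := by
  have h1 := st_cyc_dvd (exp_A3 p q r _ h)
  rcases hl.dvd_mul.1 h1 with h2 | h2
  · exact Or.inl ((Nat.prime_dvd_prime_iff_eq hl hp).1 h2)
  · rcases hl.dvd_mul.1 h2 with h3 | h3
    · exact Or.inr (Or.inl ((Nat.prime_dvd_prime_iff_eq hl hq).1 h3))
    · exact Or.inr (Or.inr ((Nat.prime_dvd_prime_iff_eq hl hr).1 h3))

theorem prime_of_AT {p q l : ℕ} (hp : p.Prime) (hq : q.Prime) (hl : l.Prime)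
    (h : AT p q (Multiplicative (ZMod l))) : l = p ∨ l = q := by
  have h1 := st_cyc_dvd (exp_AT p q _ h)
  rcases hl.dvd_mul.1 h1 with h2 | h2
  · exact Or.inl ((Nat.prime_dvd_prime_iff_eq hl hp).1 h2)
  · rcases hl.dvd_mul.1 h2 with h3 | h3
    · exact Or.inr ((Nat.prime_dvd_prime_iff_eq hl hq).1 h3)
    · exact Or.inr ((Nat.prime_dvd_prime_iff_eq hl hq).1 (h3.trans (Nat.gcd_dvd_right 2 q)))

private theorem st_cyc_ea {l : ℕ} : ElAb l (Multiplicative (ZMod l)) := by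
  refine ⟨fun x y => mul_comm x y, fun x => ?_⟩
  apply Multiplicative.toAdd.injective
  rw [toAdd_pow, toAdd_one, nsmul_eq_mul, ZMod.natCast_self, zero_mul]

private theorem st_cyc_fin {l : ℕ} (hl : l.Prime) : Finite (Multiplicative (ZMod l)) := by
  have : NeZero l := ⟨hl.ne_zero⟩
  exact Finite.of_equiv _ Multiplicative.ofAdd

theorem cyc_A3 {p q r l : ℕ} (hl : l.Prime) (h : l = p ∨ l = q ∨ l = r) :
    A3 p q r (Multiplicative (ZMod l)) := by
  have := st_cyc_fin hl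
  rcases h with rfl | rfl | rfl
  · exact st_ext_left (pv_A2 q r) st_cyc_ea
  · refine st_ext_right (pv_A2 l r) ?_
    obtain ⟨h1, N, hN, h2, h3⟩ := st_ext_left (pv_elAb r) (st_cyc_ea (l := l))
    exact ⟨h1, N, hN, h2, h3.2⟩
  · refine st_ext_right (pv_A2 q l) ?_
    obtain ⟨h1, N, hN, h2, h3⟩ := st_ext_right (p := q) (pv_elAb l)
      (⟨this, st_cyc_ea⟩ : Finite (Multiplicative (ZMod l)) ∧ ElAb l (Multiplicative (ZMod l)))
    exact ⟨h1, N, hN, h2, h3.2⟩

theorem cyc_AT {p q l : ℕ} (hl : l.Prime) (h : l = p ∨ l = q) : AT p q (Multiplicative (ZMod l)) := by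
  have := st_cyc_fin hl
  rcases h with rfl | rfl
  · exact st_ext_left (pv_TT q) st_cyc_ea
  · refine st_ext_right (pv_TT l) ?_
    have hc := (st_cyc_ea (l := l)).1
    have he := (st_cyc_ea (l := l)).2
    refine ⟨this, fun x y z => ?_, fun x y => ?_, fun x => ?_⟩
    · exact commutatorElement_eq_one_iff_mul_comm.2 (hc _ _)
    · exact commutatorElement_eq_one_iff_mul_comm.2 (hc _ _)
    · rw [pow_mul, he, one_pow]

/-- `Heis q` is in `AT p q` and is not commutative -/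
theorem heis_AT (p : ℕ) {q : ℕ} (hq : q.Prime) : AT p q (Heis q) ∧ IsPGroup q (Heis q) ∧
    ∃ x y : Heis q, x * y ≠ y * x := by
  have hT := heis_TT hq
  refine ⟨st_ext_right (pv_TT q) hT, fun x => ⟨2, ?_⟩, ⟨1, 0, 0⟩, ⟨0, 1, 0⟩, fun h => ?_⟩
  · obtain ⟨c, hc⟩ := Nat.gcd_dvd_right 2 q
    have h1 : q ^ 2 = q * Nat.gcd 2 q * c := by
      rw [mul_assoc, ← hc, pow_two]
    rw [h1, pow_mul, hT.2.2.2 x, one_pow]
  · have h1 := congrArg Heis.z h
    have : Fact q.Prime := ⟨hq⟩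
    simp at h1

end Pool.Agent.HForm
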