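import Pool.Agent.Lib_MP_4009a7_al.Ev3
import Pool.Agent.Lib_MP_4009a7_al.RepU
import Pool.Agent.Lib_MP_4009a7_al.CTr

/-!
# Piece YEVAL: evaluation
-/

set_option autoImplicit false

open scoped commutatorElement TensorProduct

namespace Pool.Agent.HForm

/-- the weights of central elements -/
private theorem yev_weight {p : ℕ} [Fact p.Prime] {H U : Type} [Group H] [AddCommGroup U]
    [Module (ZMod p) U] [Finite U] (σ : H →* Module.End (ZMod p) U) (hσ : Irr σ) (Z : Subgroup H)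
    (hZ : ∀ a ∈ Z, ∀ x : H, a * x = x * a) :
    ∃ (χ : Z →* AlgebraicClosure (ZMod p)) (v : AlgebraicClosure (ZMod p) ⊗[ZMod p] U), v ≠ 0 ∧
      (∀ a : Z, bcRep (AlgebraicClosure (ZMod p)) σ a v = χ a • v) ∧ ∀ a : Z, χ a = 1 ↔ σ a = 1 := by
  set K := AlgebraicClosure (ZMod p) with hK
  have hU : Nontrivial U := hσ.1
  have hfin : Module.Finite (ZMod p) U := Module.Finite.of_finite
  have hnt : Nontrivial (K ⊗[ZMod p] U) := by
    rw [← Module.finrank_pos_iff (R := K), Module.finrank_baseChange]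
    exact Module.finrank_pos
  have hne : (⊤ : Submodule K (K ⊗[ZMod p] U)) ≠ ⊥ := top_ne_bot
  obtain ⟨U', _, hU'⟩ := exists_irrSub (bcRep K σ) (W := ⊤) (fun _ _ _ => trivial) hne
  obtain ⟨v, hv, hv0⟩ := Submodule.exists_mem_ne_zero_of_ne_bot hU'.2.1
  have hsc : ∀ a : Z, ∃ μ : K, ∀ u ∈ U', bcRep K σ a u = μ • u := fun a =>
    schur hU' (bcRep K σ a) (fun u hu => hU'.1 a u hu) fun h u _ => by
      rw [← Module.End.mul_apply, ← map_mul, hZ a a.2 h, map_mul, Module.End.mul_apply]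
  choose μ hμ using hsc
  have hinj := smul_left_injective K hv0
  refine ⟨⟨⟨μ, hinj ?_⟩, fun a b => hinj ?_⟩, v, hv0, fun a => hμ a v hv, fun a => ?_⟩
  · show μ 1 • v = (1 : K) • v
    rw [← hμ 1 v hv, one_smul]
    simp
  · show μ (a * b) • v = (μ a * μ b) • v
    rw [← hμ (a * b) v hv, Subgroup.coe_mul, map_mul, Module.End.mul_apply, hμ b v hv, map_smul,
      hμ a v hv, smul_smul, mul_comm]
  · show μ a = 1 ↔ σ a = 1
    constructor
    · intro h
      have h1 : (a : H) ∈ kerOn (bcRep K σ) U' := fun u hu => by rw [hμ a u hu, h, one_smul]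
      rw [kerOn_bc hσ hU'.1 hU'.2.1] at h1
      exact h1
    · intro h
      have h1 : (a : H) ∈ kerOn (bcRep K σ) U' := by
        rw [kerOn_bc hσ hU'.1 hU'.2.1]
        exact h
      have h2 := h1 v hv
      rw [hμ a v hv] at h2
      exact hinj (by simpa using h2)

private theorem yev_card {r : ℕ} [Fact r.Prime] {Y : Type} [AddCommGroup Y] [Module (ZMod r) Y]
    [Finite Y] : Nat.card Y = r ^ Module.finrank (ZMod r) Y := by
  have h : Module.Finite (ZMod r) Y := Module.Finite.of_finite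
  rw [Module.natCard_eq_pow_finrank (K := ZMod r), Nat.card_zmod]

/-- products of complements -/
private theorem yev_prod {G : Type} [Group G] [Finite G] {Y₀ Y₂ Y : Subgroup G} (h1 : Y₀ ≤ Y) (h2 : Y₂ ≤ Y)
    (h3 : Y₂ ⊓ Y₀ = ⊥) (hc : Nat.card Y ≤ Nat.card Y₂ * Nat.card Y₀) :
    ∀ z ∈ Y, ∃ y₀ ∈ Y₀, ∃ y ∈ Y₂, z = y₀ * y := by
  let f : Y₀ × Y₂ → Y := fun x => ⟨(x.1 : G) * x.2, Y.mul_mem (h1 x.1.2) (h2 x.2.2)⟩
  have hf : Function.Injective f := by
    rintro ⟨a, b⟩ ⟨a', b'⟩ hab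
    have e : (a : G) * b = a' * b' := congrArg Subtype.val hab
    have e2 : (a' : G)⁻¹ * a = b' * (b : G)⁻¹ := by
      rw [inv_mul_eq_iff_eq_mul, ← mul_assoc, ← e, mul_inv_cancel_right]
    have e3 : (a' : G)⁻¹ * a ∈ Y₂ ⊓ Y₀ :=
      ⟨by rw [e2]; exact Y₂.mul_mem b'.2 (Y₂.inv_mem b.2), Y₀.mul_mem (Y₀.inv_mem a'.2) a.2⟩
    rw [h3, Subgroup.mem_bot] at e3
    have e4 : (a : G) = a' := (inv_mul_eq_one.1 e3).symm
    rw [e3] at e2
    have e5 : (b' : G) = b := mul_inv_eq_one.1 e2.symm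
    rw [Prod.mk.injEq]
    exact ⟨Subtype.ext e4, Subtype.ext e5.symm⟩
  have hb := hf.bijective_of_nat_card_le (by rw [Nat.card_prod, mul_comm]; exact hc)
  intro z hz
  obtain ⟨⟨a, b⟩, hab⟩ := hb.2 ⟨z, hz⟩
  exact ⟨a, a.2, b, b.2, (congrArg Subtype.val hab).symm⟩

/-- PROOF. Let `K = AlgebraicClosure (ZMod p)`. `A` is commutative and normalised by `Y`. Let `σ = subRep (ρ.comp Q.subtype) U _` (irreducible) and let `U'` be an irreducible subspace of `K ⊗ U` for `bcRep K σ`. The elements of `A` are central in `Q`, so they act as scalars on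
`U'` (`schur`): choose `v' ∈ U'`, `v' ≠ 0`, and `χ a` with `a v' = χ a • v'`. If `χ a = 1` (`a ∈ A`) then `zpowers a` is a normal subgroup of `Q` with nonzero fixed points on `K ⊗ U` (`U'`: the scalar is `1` on all of `U'`), so on `U` (`fixed_bc`), so everywhere (`U` irreducible), so `a ∈ K₀` (`hUK`). If `a ∈ K₀` then `χ a = 1`.
Let `Y₂` be a complement of `Y₀` in `Y` (`exists_complement_rel` with `R = ⊥`), `Nat.card Y₂ = Y₀.relIndex Y`. Let `A' = Additive A`, `Y' = Additive Y₂` with the structure of a vector space over `ZMod r` (`AddCommGroup.zmodModule`), `jA`, `jY` the inclusions, `τ` the conjugation action. Let `v₀` be the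
image of `v'` in `K ⊗ V` (nonzero: `U → V` is injective, so `K ⊗ U → K ⊗ V` is), `ρ_K = bcRep K ρ`, `Sat w ρ_K` (`Sat.bc`). `hdist`: if `y ∈ Y₂` and `χ (y a y⁻¹) = χ a` for all `a ∈ A` then `y` maps `A ⊓ K₀` to itself, so `y ∈ Y₀ ⊓ Y₂`, `y = 1`. `hfaith`: let `χ (y a y⁻¹) = 1` for all `y ∈ Y₂`, i.e. `y a y⁻¹ ∈ K₀`.
Every `z ∈ Y` is `y₀ y` with `y₀ ∈ Y₀`, `y ∈ Y₂`, so `z a z⁻¹ ∈ K₀` (`y₀` maps `A ⊓ K₀` to itself). So `a = 1` by `hcore`. If `r ^ m < Nat.card Y₂` then `m ≤ finrank Y'` (even `<`) and `eval3` gives `Kills p (A2 q r) w`, a contradiction. -/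
theorem yc_eval {p q r : ℕ} (hp : p.Prime) (hq : q.Prime) (hr : r.Prime) (hpq : p ≠ q) (hpr : p ≠ r)
    (hqr : q ≠ r) {n : ℕ} (w : FreeGroup (Fin n)) (hk : ¬ Kills p (A2 q r) w) {m : ℕ} (hm1 : 1 ≤ m)
    (hm : ∀ i, (fox i w).support.card ≤ m) {G V : Type} [Group G] [Finite G] [AddCommGroup V]
    [Module (ZMod p) V] [Finite V] (ρ : G →* Module.End (ZMod p) V) (hw : Sat w ρ) (Q Y K₀ : Subgroup G)
    (U : Submodule (ZMod p) V) (hQ : IsPGroup q Q) (hYQ : ∀ y ∈ Y, ∀ x ∈ Q, y * x * y⁻¹ ∈ Q)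
    (hYc : ∀ y ∈ Y, ∀ y' ∈ Y, y * y' = y' * y) (hYr : ∀ y ∈ Y, y ^ r = 1) (hK₀Q : K₀ ≤ Q)
    (hU : IrrSub (ρ.comp Q.subtype) U) (hUK : ∀ x ∈ Q, x ∈ K₀ ↔ ∀ u ∈ U, ρ x u = u)
    (hcore : ∀ x ∈ Q, (∀ y ∈ Y, y * x * y⁻¹ ∈ K₀) → x = 1) (A Y₀ : Subgroup G)
    (hA : ∀ a, a ∈ A ↔ a ∈ Q ∧ ∀ x ∈ Q, a * x = x * a)
    (hY₀ : ∀ y, y ∈ Y₀ ↔ y ∈ Y ∧ ∀ a ∈ A, a ∈ K₀ → y * a * y⁻¹ ∈ K₀) : Y₀.relIndex Y ≤ r ^ m := by
  classical
  have hpF : Fact p.Prime := ⟨hp⟩
  have hrF : Fact r.Prime := ⟨hr⟩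
  have hqF : Fact q.Prime := ⟨hq⟩
  by_contra hlt
  rw [not_le] at hlt
  apply hk
  -- the complement
  have hY₀Y : Y₀ ≤ Y := fun y hy => ((hY₀ y).1 hy).1
  obtain ⟨Y₂, _, hY₂Y, hY₂i, hY₂c⟩ := exists_complement_rel hr ⊥ Y₀ Y bot_le hY₀Y
    (by
      intro x _ y hy
      rw [Subgroup.mem_bot] at hy ⊢
      rw [hy]
      simp)
    (fun x hx => by rw [Subgroup.mem_bot]; exact hYr x hx)
    (fun x hx y hy => by
      rw [Subgroup.mem_bot, commutatorElement_eq_one_iff_mul_comm]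
      exact hYc x hx y hy)
  rw [Subgroup.relIndex_bot_left, Subgroup.relIndex_bot_left, Subgroup.relIndex_bot_left] at hY₂c
  have hcard : Nat.card Y₂ = Y₀.relIndex Y := by
    have h1 := Subgroup.relIndex_mul_relIndex (⊥ : Subgroup G) Y₀ Y bot_le hY₀Y
    rw [Subgroup.relIndex_bot_left, Subgroup.relIndex_bot_left, hY₂c, mul_comm] at h1
    have h2 : 0 < Nat.card Y₀ := Nat.card_pos
    exact (Nat.eq_of_mul_eq_mul_right h2 h1).symm
  have hdec := yev_prod hY₀Y hY₂Y hY₂i hY₂c.le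
  -- the normal subgroup `A`
  have hAQ : A ≤ Q := fun a ha => ((hA a).1 ha).1
  have hAc : ∀ a ∈ A, ∀ x ∈ Q, a * x = x * a := fun a ha => ((hA a).1 ha).2
  have hYA : ∀ y ∈ Y, ∀ a ∈ A, y * a * y⁻¹ ∈ A := by
    intro y hy a ha
    rw [hA]
    refine ⟨hYQ y hy a (hAQ ha), fun x hx => ?_⟩
    have h1 : y⁻¹ * x * y ∈ Q := by
      have := hYQ y⁻¹ (Y.inv_mem hy) x hx
      rwa [inv_inv] at this
    have h2 := hAc a ha _ h1
    calc y * a * y⁻¹ * x = y * (a * (y⁻¹ * x * y)) * y⁻¹ := by group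
      _ = y * ((y⁻¹ * x * y) * a) * y⁻¹ := by rw [h2]
      _ = x * (y * a * y⁻¹) := by group
  have hY₂comm : ∀ y y' : Y₂, y * y' = y' * y := fun y y' =>
    Subtype.ext (hYc y (hY₂Y y.2) y' (hY₂Y y'.2))
  have hAcomm : ∀ a a' : A, a * a' = a' * a := fun a a' =>
    Subtype.ext (hAc a a.2 a' (hAQ a'.2))
  let iY : CommGroup Y₂ := { (inferInstance : Group Y₂) with mul_comm := hY₂comm }
  let iA : CommGroup A := { (inferInstance : Group A) with mul_comm := hAcomm }
  let iM : Module (ZMod r) (Additive Y₂) := AddCommGroup.zmodModule (n := r) (by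
    intro x
    have h1 : (Additive.toMul x) ^ r = 1 := Subtype.ext (hYr _ (hY₂Y (Additive.toMul x).2))
    exact congrArg Additive.ofMul h1)
  -- the weight
  set σ := subRep (ρ.comp Q.subtype) U hU.1 with hσdef
  have hσ : Irr σ := hU.irr
  obtain ⟨χ₀, v, hv0, hχv, hχ1⟩ := yev_weight σ hσ (A.subgroupOf Q) (by
    intro a ha x
    exact Subtype.ext (hAc a ha x x.2))
  set K := AlgebraicClosure (ZMod p) with hK
  let χ₁ : A →* K := χ₀.comp (Subgroup.subgroupOfEquivOfLe hAQ).symm.toMonoidHom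
  have hχ₁ : ∀ a : A, χ₁ a = 1 ↔ (a : G) ∈ K₀ := by
    intro a
    rw [hUK a (hAQ a.2)]
    show χ₀ _ = 1 ↔ _
    rw [hχ1]
    constructor
    · intro h u hu
      have h1 := congrArg (fun f : Module.End (ZMod p) U => ((f ⟨u, hu⟩ : U) : V)) h
      exact h1
    · intro h
      refine LinearMap.ext fun u => Subtype.ext ?_
      exact h u u.2
  let jA : Multiplicative (Additive A) →* G := A.subtype
  let jY : Multiplicative (Additive Y₂) →* G := Y₂.subtype
  let τ : Multiplicative (Additive Y₂) →* Module.End ℤ (Additive A) :=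
    { toFun := fun y => AddMonoidHom.toIntLinearMap
        { toFun := fun a => Additive.ofMul (⟨jY y * ((Additive.toMul a : A) : G) * (jY y)⁻¹,
            hYA _ (hY₂Y (Additive.toMul (Multiplicative.toAdd y)).2) _ (Additive.toMul a).2⟩ : A)
          map_zero' := by
            apply Additive.toMul.injective
            refine Subtype.ext ?_
            show jY y * 1 * (jY y)⁻¹ = 1
            group
          map_add' := by
            intro a b
            apply Additive.toMul.injective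
            refine Subtype.ext ?_
            show jY y * (((Additive.toMul a : A) : G) * ((Additive.toMul b : A) : G)) * (jY y)⁻¹ =
              (jY y * ((Additive.toMul a : A) : G) * (jY y)⁻¹) *
                (jY y * ((Additive.toMul b : A) : G) * (jY y)⁻¹)
            group }
      map_one' := by
        refine LinearMap.ext fun a => ?_
        apply Additive.toMul.injective
        refine Subtype.ext ?_
        show jY 1 * ((Additive.toMul a : A) : G) * (jY 1)⁻¹ = ((Additive.toMul a : A) : G)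
        rw [map_one]
        group
      map_mul' := by
        intro y z
        refine LinearMap.ext fun a => ?_
        apply Additive.toMul.injective
        refine Subtype.ext ?_
        show jY (y * z) * ((Additive.toMul a : A) : G) * (jY (y * z))⁻¹ =
          jY y * (jY z * ((Additive.toMul a : A) : G) * (jY z)⁻¹) * (jY y)⁻¹
        rw [map_mul]
        group }
  let ι : (K ⊗[ZMod p] U) →ₗ[K] (K ⊗[ZMod p] V) := LinearMap.baseChange K U.subtype
  have hιinj : Function.Injective ι := by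
    have h1 : Function.Injective (LinearMap.lTensor K U.subtype) :=
      Module.Flat.lTensor_preserves_injective_linearMap U.subtype U.injective_subtype
    intro a b hab
    exact h1 hab
  have hι : ∀ (x : Q) (z : K ⊗[ZMod p] U), bcRep K ρ x (ι z) = ι (bcRep K σ x z) := by
    intro x z
    induction z with
    | zero => simp
    | tmul c u => rfl
    | add a b ha hb => rw [map_add, map_add, ha, hb, map_add, map_add]
  have hcardQ : ∃ k, Nat.card Q = q ^ k := (IsPGroup.iff_card).1 hQ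
  refine eval3 (K := K) (p := p) hq hr hqr w hm1 hm (A := Additive A) (Y := Additive Y₂)
    (bcRep K ρ) hw.bc jA jY τ (fun y a => rfl) (χ₁ : Multiplicative (Additive A) →* K) (ι v)
    ?_ ?_ ?_ ?_ ?_ ?_
  · intro h
    exact hv0 (hιinj (by rw [h, map_zero]))
  · intro a
    have h1 := hι ⟨jA a, hAQ (Additive.toMul (Multiplicative.toAdd a)).2⟩ v
    refine h1.trans ?_
    have h2 := hχv ((Subgroup.subgroupOfEquivOfLe hAQ).symm (Additive.toMul (Multiplicative.toAdd a)))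
    have h3 := congrArg ι h2
    rw [map_smul] at h3
    exact h3
  · obtain ⟨k, hk'⟩ := hcardQ
    refine ⟨k, fun a => ?_⟩
    apply Additive.toMul.injective
    refine Subtype.ext ?_
    show ((Additive.toMul a : A) : G) ^ (q ^ k) = 1
    rw [← hk']
    have h1 : (⟨((Additive.toMul a : A) : G), hAQ (Additive.toMul a).2⟩ : Q) ^ Nat.card Q = 1 :=
      pow_card_eq_one'
    exact congrArg Subtype.val h1
  · intro y hy
    by_contra hcon
    push Not at hcon
    apply hy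
    apply Additive.toMul.injective
    refine Subtype.ext ?_
    have hyY : ((Additive.toMul y : Y₂) : G) ∈ Y := hY₂Y (Additive.toMul y).2
    have h1 : ((Additive.toMul y : Y₂) : G) ∈ Y₂ ⊓ Y₀ := by
      refine ⟨(Additive.toMul y).2, (hY₀ _).2 ⟨hyY, fun a ha haK => ?_⟩⟩
      have h2 : χ₁ ⟨a, ha⟩ = 1 := (hχ₁ _).2 haK
      have h3 := hcon (Additive.ofMul ⟨a, ha⟩)
      have h4 : χ₁ ⟨((Additive.toMul y : Y₂) : G) * a * ((Additive.toMul y : Y₂) : G)⁻¹,
          hYA _ hyY _ ha⟩ = 1 := h3.trans h2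
      exact (hχ₁ _).1 h4
    rw [hY₂i, Subgroup.mem_bot] at h1
    exact h1
  · intro a ha
    by_contra hcon
    push Not at hcon
    apply ha
    apply Additive.toMul.injective
    refine Subtype.ext ?_
    refine hcore _ (hAQ (Additive.toMul a).2) fun z hz => ?_
    obtain ⟨y₀, hy₀, y, hy, rfl⟩ := hdec z hz
    have h1 : χ₁ ⟨y * ((Additive.toMul a : A) : G) * y⁻¹, hYA _ (hY₂Y hy) _ (Additive.toMul a).2⟩ = 1 :=
      hcon (Multiplicative.ofAdd (Additive.ofMul ⟨y, hy⟩))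
    have h2 := (hχ₁ _).1 h1
    have h3 := ((hY₀ y₀).1 hy₀).2 _ (hYA _ (hY₂Y hy) _ (Additive.toMul a).2) h2
    have h4 : y₀ * y * ((Additive.toMul a : A) : G) * (y₀ * y)⁻¹ =
        y₀ * (y * ((Additive.toMul a : A) : G) * y⁻¹) * y₀⁻¹ := by group
    rw [h4]
    exact h3
  · have h1 : Nat.card (Additive Y₂) = r ^ Module.finrank (ZMod r) (Additive Y₂) := yev_card
    have h2 : Nat.card (Additive Y₂) = Nat.card Y₂ := rfl
    rw [h2, hcard] at h1
    rw [h1] at hlt
    exact ((Nat.pow_lt_pow_iff_right hr.one_lt).1 hlt).le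

end Pool.Agent.HForm
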